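import Pool.Agent.PEL.ParLem

/-!
# PEL : basic lemmas on `av`, `ip`, `nsq`, `nm`, `n1`, `ss`
-/

set_option autoImplicit false

namespace Pool.Agent.PEL

open Finset

theorem sg_sq (b : Bool) : sg b ^ 2 = 1 := by cases b <;> simp [sg]

theorem sg_mul_self (b : Bool) : sg b * sg b = 1 := by cases b <;> simp [sg]

theorem abs_sg (b : Bool) : |sg b| = 1 := by cases b <;> simp [sg]

theorem sg_not (b : Bool) : sg (!b) = - sg b := by cases b <;> simp [sg]

theorem sg_cases (b : Bool) : sg b = 1 ∨ sg b = -1 := by cases b <;> simp [sg]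

section av
variable {ι κ : Type} [Fintype ι] [Fintype κ]

theorem av_nonneg {f : ι → ℝ} (h : ∀ i, 0 ≤ f i) : 0 ≤ av f :=
  div_nonneg (sum_nonneg fun i _ => h i) (Nat.cast_nonneg _)

theorem av_mono {f g : ι → ℝ} (h : ∀ i, f i ≤ g i) : av f ≤ av g :=
  div_le_div_of_nonneg_right (sum_le_sum fun i _ => h i) (Nat.cast_nonneg _)

theorem av_congr {f g : ι → ℝ} (h : ∀ i, f i = g i) : av f = av g := by
  unfold av; rw [sum_congr rfl fun i _ => h i]

theorem av_add (f g : ι → ℝ) : av (fun i => f i + g i) = av f + av g := by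
  unfold av; rw [sum_add_distrib, add_div]

theorem av_sub (f g : ι → ℝ) : av (fun i => f i - g i) = av f - av g := by
  unfold av; rw [sum_sub_distrib, sub_div]

theorem av_neg (f : ι → ℝ) : av (fun i => - f i) = - av f := by
  unfold av; rw [sum_neg_distrib, neg_div]

theorem av_mul_left (c : ℝ) (f : ι → ℝ) : av (fun i => c * f i) = c * av f := by
  unfold av; rw [← mul_sum, mul_div_assoc]

theorem av_mul_right (c : ℝ) (f : ι → ℝ) : av (fun i => f i * c) = av f * c := by
  unfold av; rw [← sum_mul, mul_div_right_comm]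

theorem av_sum {J : Type} (s : Finset J) (f : J → ι → ℝ) :
    av (fun i => ∑ j ∈ s, f j i) = ∑ j ∈ s, av (f j) := by
  unfold av; rw [sum_comm, sum_div]

theorem av_const [Nonempty ι] (c : ℝ) : av (fun _ : ι => c) = c := by
  unfold av
  have : (Fintype.card ι : ℝ) ≠ 0 := by exact_mod_cast Fintype.card_ne_zero
  rw [sum_const, card_univ, nsmul_eq_mul]
  field_simp

theorem abs_av_le (f : ι → ℝ) : |av f| ≤ av (fun i => |f i|) := by
  unfold av
  rw [abs_div, abs_of_nonneg (Nat.cast_nonneg (α := ℝ) (Fintype.card ι))]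
  exact div_le_div_of_nonneg_right (abs_sum_le_sum_abs _ _) (Nat.cast_nonneg _)

/-- Cauchy-Schwarz for averages -/
theorem av_mul_sq_le (f g : ι → ℝ) :
    av (fun i => f i * g i) ^ 2 ≤ av (fun i => f i ^ 2) * av (fun i => g i ^ 2) := by
  unfold av
  rw [div_pow, div_mul_div_comm, ← sq]
  exact div_le_div_of_nonneg_right (sum_mul_sq_le_sq_mul_sq _ _ _) (sq_nonneg _)

theorem av_mul_le_sqrt (f g : ι → ℝ) :
    av (fun i => f i * g i) ≤ Real.sqrt (av fun i => f i ^ 2) * Real.sqrt (av fun i => g i ^ 2) := by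
  rw [← Real.sqrt_mul (av_nonneg fun i => sq_nonneg _)]
  exact Real.le_sqrt_of_sq_le (av_mul_sq_le f g)

theorem sq_av_le (f : ι → ℝ) : av f ^ 2 ≤ av (fun i => f i ^ 2) := by
  rcases isEmpty_or_nonempty ι with h | h
  · simp [av]
  · have := av_mul_sq_le f (fun _ => 1)
    simp only [mul_one, one_pow, av_const] at this
    exact this

theorem av_comm (f : ι → κ → ℝ) : av (fun i => av (f i)) = av (fun k => av fun i => f i k) := by
  unfold av
  rw [← sum_div, ← sum_div, sum_comm, div_div, div_div, mul_comm]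

/-- averages under a bijection -/
theorem av_equiv (e : ι ≃ κ) (f : κ → ℝ) : av (fun i => f (e i)) = av f := by
  unfold av
  rw [Equiv.sum_comp e f, Fintype.card_congr e]

theorem av_prod (f : ι × κ → ℝ) : av f = av fun i => av fun k => f (i, k) := by
  unfold av
  rw [← sum_div, Fintype.sum_prod_type, Fintype.card_prod, div_div, mul_comm]
  push_cast
  rfl

end av

section vec
variable {ι : Type} [Fintype ι]

theorem ip_comm (x y : ι → ℝ) : ip x y = ip y x := by
  unfold ip; exact sum_congr rfl fun i _ => mul_comm _ _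

theorem ip_add_left (x y z : ι → ℝ) : ip (x + y) z = ip x z + ip y z := by
  unfold ip; rw [← sum_add_distrib]; exact sum_congr rfl fun i _ => by simp [add_mul]

theorem ip_add_right (x y z : ι → ℝ) : ip x (y + z) = ip x y + ip x z := by
  unfold ip; rw [← sum_add_distrib]; exact sum_congr rfl fun i _ => by simp [mul_add]

theorem ip_sub_left (x y z : ι → ℝ) : ip (x - y) z = ip x z - ip y z := by
  unfold ip; rw [← sum_sub_distrib]; exact sum_congr rfl fun i _ => by simp [sub_mul]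

theorem ip_sub_right (x y z : ι → ℝ) : ip x (y - z) = ip x y - ip x z := by
  unfold ip; rw [← sum_sub_distrib]; exact sum_congr rfl fun i _ => by simp [mul_sub]

theorem ip_smul_left (c : ℝ) (x y : ι → ℝ) : ip (c • x) y = c * ip x y := by
  unfold ip; rw [mul_sum]; exact sum_congr rfl fun i _ => by simp [mul_assoc]

theorem ip_smul_right (c : ℝ) (x y : ι → ℝ) : ip x (c • y) = c * ip x y := by
  rw [ip_comm, ip_smul_left, ip_comm]

theorem ip_neg_left (x y : ι → ℝ) : ip (-x) y = - ip x y := by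
  have := ip_smul_left (-1) x y
  simpa using this

theorem ip_neg_right (x y : ι → ℝ) : ip x (-y) = - ip x y := by
  rw [ip_comm, ip_neg_left, ip_comm]

theorem ip_zero_left (y : ι → ℝ) : ip (0 : ι → ℝ) y = 0 := by simp [ip]

theorem ip_zero_right (y : ι → ℝ) : ip y (0 : ι → ℝ) = 0 := by simp [ip]

theorem ip_sum_left {J : Type} (s : Finset J) (x : J → ι → ℝ) (y : ι → ℝ) :
    ip (∑ j ∈ s, x j) y = ∑ j ∈ s, ip (x j) y := by
  unfold ip
  rw [sum_comm]
  refine sum_congr rfl fun i _ => ?_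
  rw [Finset.sum_apply, sum_mul]

theorem ip_sum_right {J : Type} (s : Finset J) (x : J → ι → ℝ) (y : ι → ℝ) :
    ip y (∑ j ∈ s, x j) = ∑ j ∈ s, ip y (x j) := by
  rw [ip_comm, ip_sum_left]
  exact sum_congr rfl fun j _ => ip_comm _ _

theorem ip_self (x : ι → ℝ) : ip x x = nsq x := by
  unfold ip nsq; exact sum_congr rfl fun i _ => (sq _).symm

theorem nsq_nonneg (x : ι → ℝ) : 0 ≤ nsq x := sum_nonneg fun i _ => sq_nonneg _

theorem nsq_zero : nsq (0 : ι → ℝ) = 0 := by simp [nsq]

theorem nsq_eq_zero {x : ι → ℝ} : nsq x = 0 ↔ x = 0 := by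
  unfold nsq
  rw [sum_eq_zero_iff_of_nonneg fun i _ => sq_nonneg _]
  constructor
  · intro h
    funext i
    exact pow_eq_zero_iff (two_ne_zero) |>.mp (h i (mem_univ i))
  · intro h i _
    rw [h]; simp

theorem nsq_neg (x : ι → ℝ) : nsq (-x) = nsq x := by simp [nsq]

theorem nsq_smul (c : ℝ) (x : ι → ℝ) : nsq (c • x) = c ^ 2 * nsq x := by
  unfold nsq; rw [mul_sum]; exact sum_congr rfl fun i _ => by simp [mul_pow]

theorem nsq_add (x y : ι → ℝ) : nsq (x + y) = nsq x + 2 * ip x y + nsq y := by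
  unfold nsq ip
  rw [mul_sum, ← sum_add_distrib, ← sum_add_distrib]
  exact sum_congr rfl fun i _ => by simp; ring

theorem nsq_sub (x y : ι → ℝ) : nsq (x - y) = nsq x - 2 * ip x y + nsq y := by
  rw [sub_eq_add_neg, nsq_add, nsq_neg, ip_neg_right]; ring

theorem nsq_add_le (x y : ι → ℝ) : nsq (x + y) ≤ 2 * nsq x + 2 * nsq y := by
  have h1 := nsq_add x y
  have h2 := nsq_sub x y
  have h3 := nsq_nonneg (x - y)
  linarith

theorem nsq_sum_le {J : Type} (s : Finset J) (x : J → ι → ℝ) :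
    nsq (∑ j ∈ s, x j) ≤ s.card * ∑ j ∈ s, nsq (x j) := by
  unfold nsq
  rw [sum_comm, mul_sum]
  refine sum_le_sum fun i _ => ?_
  rw [Finset.sum_apply]
  exact sq_sum_le_card_mul_sum_sq

theorem ip_sq_le (x y : ι → ℝ) : ip x y ^ 2 ≤ nsq x * nsq y :=
  sum_mul_sq_le_sq_mul_sq _ _ _

theorem nm_nonneg (x : ι → ℝ) : 0 ≤ nm x := Real.sqrt_nonneg _

theorem nm_sq (x : ι → ℝ) : nm x ^ 2 = nsq x := Real.sq_sqrt (nsq_nonneg x)

theorem nm_zero : nm (0 : ι → ℝ) = 0 := by simp [nm, nsq_zero]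

theorem nm_smul (c : ℝ) (x : ι → ℝ) : nm (c • x) = |c| * nm x := by
  unfold nm
  rw [nsq_smul, Real.sqrt_mul (sq_nonneg c), Real.sqrt_sq_eq_abs]

theorem nm_neg (x : ι → ℝ) : nm (-x) = nm x := by simp [nm, nsq_neg]

theorem nm_le_iff {x : ι → ℝ} {r : ℝ} (hr : 0 ≤ r) : nm x ≤ r ↔ nsq x ≤ r ^ 2 :=
  Real.sqrt_le_left hr

theorem abs_ip_le (x y : ι → ℝ) : |ip x y| ≤ nm x * nm y := by
  rw [← Real.sqrt_sq_eq_abs, nm, nm, ← Real.sqrt_mul (nsq_nonneg x)]
  exact Real.sqrt_le_sqrt (ip_sq_le x y)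

theorem ip_le (x y : ι → ℝ) : ip x y ≤ nm x * nm y := (le_abs_self _).trans (abs_ip_le x y)

theorem nm_add_le (x y : ι → ℝ) : nm (x + y) ≤ nm x + nm y := by
  rw [nm_le_iff (add_nonneg (nm_nonneg x) (nm_nonneg y)), nsq_add, ← nm_sq x, ← nm_sq y]
  have := ip_le x y
  nlinarith

theorem nm_sum_le {J : Type} (s : Finset J) (x : J → ι → ℝ) :
    nm (∑ j ∈ s, x j) ≤ ∑ j ∈ s, nm (x j) := by
  classical
  induction s using Finset.induction_on with
  | empty => simp [nm_zero]
  | insert j s hj ih =>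
    rw [sum_insert hj, sum_insert hj]
    exact (nm_add_le _ _).trans (add_le_add le_rfl ih)

theorem abs_le_nm (x : ι → ℝ) (i : ι) : |x i| ≤ nm x := by
  rw [← Real.sqrt_sq_eq_abs]
  exact Real.sqrt_le_sqrt (single_le_sum (f := fun i => x i ^ 2) (fun i _ => sq_nonneg _) (mem_univ i))

theorem n1_nonneg (x : ι → ℝ) : 0 ≤ n1 x := sum_nonneg fun i _ => abs_nonneg _

theorem n1_add_le (x y : ι → ℝ) : n1 (x + y) ≤ n1 x + n1 y := by
  unfold n1; rw [← sum_add_distrib]; exact sum_le_sum fun i _ => abs_add_le _ _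

theorem n1_smul (c : ℝ) (x : ι → ℝ) : n1 (c • x) = |c| * n1 x := by
  unfold n1; rw [mul_sum]; exact sum_congr rfl fun i _ => by simp [abs_mul]

theorem n1_sum_le {J : Type} (s : Finset J) (x : J → ι → ℝ) :
    n1 (∑ j ∈ s, x j) ≤ ∑ j ∈ s, n1 (x j) := by
  unfold n1
  rw [sum_comm]
  refine sum_le_sum fun i _ => ?_
  rw [Finset.sum_apply]
  exact abs_sum_le_sum_abs _ _

/-- `nsq ≤ n1²` -/
theorem nsq_le_n1_sq (x : ι → ℝ) : nsq x ≤ n1 x ^ 2 := by
  unfold nsq n1
  have h := Finset.sum_sq_le_sq_sum_of_nonneg (s := univ) (f := fun i => |x i|)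
    (fun i _ => abs_nonneg _)
  simpa [sq_abs] using h

theorem abs_le_n1 (x : ι → ℝ) (i : ι) : |x i| ≤ n1 x :=
  single_le_sum (f := fun i => |x i|) (fun i _ => abs_nonneg _) (mem_univ i)

end vec

section cube
variable {I : Type} [Fintype I] [DecidableEq I]

/-- flipping one sign is a bijection of the cube -/
def flip (i : I) : (I → Bool) ≃ (I → Bool) where
  toFun ε := Function.update ε i (!(ε i))
  invFun ε := Function.update ε i (!(ε i))
  left_inv ε := by
    funext j
    by_cases h : j = i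
    · subst h; simp
    · simp [Function.update_of_ne h]
  right_inv ε := by
    funext j
    by_cases h : j = i
    · subst h; simp
    · simp [Function.update_of_ne h]

omit [Fintype I] in
theorem flip_self (i : I) (ε : I → Bool) : flip i ε i = !(ε i) := by simp [flip]

omit [Fintype I] in
theorem flip_ne {i j : I} (h : j ≠ i) (ε : I → Bool) : flip i ε j = ε j := by
  simp [flip, Function.update_of_ne h]

/-- a function odd in one coordinate has average `0` -/
theorem av_odd (i : I) (f : (I → Bool) → ℝ) (h : ∀ ε, f (flip i ε) = - f ε) : av f = 0 := by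
  have h1 := av_equiv (flip i) f
  rw [av_congr h, av_neg] at h1
  linarith

theorem av_sg (i : I) : av (fun ε : I → Bool => sg (ε i)) = 0 :=
  av_odd i _ fun ε => by simp only [flip_self, sg_not]

theorem av_sg_mul_sg (i j : I) :
    av (fun ε : I → Bool => sg (ε i) * sg (ε j)) = if i = j then 1 else 0 := by
  split_ifs with h
  · subst h
    rw [av_congr fun ε : I → Bool => sg_mul_self (ε i), av_const]
  · exact av_odd i _ fun ε => by
      simp only [flip_self, flip_ne (Ne.symm h), sg_not, neg_mul]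

/-- `E (∑ x_i ε_i)(∑ y_j ε_j) = ⟨x, y⟩` -/
theorem av_ss_mul_ss (x y : I → ℝ) : av (fun ε => ss x ε * ss y ε) = ip x y := by
  have e : ∀ ε : I → Bool, ss x ε * ss y ε = ∑ i, ∑ j, (x i * y j) * (sg (ε i) * sg (ε j)) := by
    intro ε
    unfold ss
    rw [sum_mul_sum]
    exact sum_congr rfl fun i _ => sum_congr rfl fun j _ => by ring
  rw [av_congr e, av_sum]
  unfold ip
  refine sum_congr rfl fun i _ => ?_
  rw [av_sum, sum_congr rfl fun j _ => (av_mul_left _ _).trans (by rw [av_sg_mul_sg])]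
  simp

theorem av_ss_sq (z : I → ℝ) : av (fun ε => ss z ε ^ 2) = nsq z := by
  rw [← ip_self, ← av_ss_mul_ss]
  exact av_congr fun ε => sq _

/-- `E |∑ ε_i v_i|² = ∑ |v_i|²` -/
theorem av_nsq_signs {ι : Type} [Fintype ι] (v : I → ι → ℝ) :
    av (fun δ : I → Bool => nsq (∑ i, sg (δ i) • v i)) = ∑ i, nsq (v i) := by
  have e : ∀ δ : I → Bool, nsq (∑ i, sg (δ i) • v i) = ∑ a, ss (fun i => v i a) δ ^ 2 := by
    intro δ
    unfold nsq ss
    refine sum_congr rfl fun a _ => ?_
    rw [Finset.sum_apply]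
    congr 1
    exact sum_congr rfl fun i _ => by simp [mul_comm]
  rw [av_congr e, av_sum, sum_congr rfl fun a _ => av_ss_sq _]
  unfold nsq
  rw [sum_comm]

/-- Bessel's inequality for the first Walsh coefficients -/
theorem bessel (h : (I → Bool) → ℝ) :
    ∑ i, (av fun ε => sg (ε i) * h ε) ^ 2 ≤ av (fun ε => h ε ^ 2) := by
  set c : I → ℝ := fun i => av fun ε => sg (ε i) * h ε with hc
  have h1 : 0 ≤ av (fun ε => (h ε - ss c ε) ^ 2) := av_nonneg fun ε => sq_nonneg _
  have h2 : av (fun ε => h ε * ss c ε) = nsq c := by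
    have e : ∀ ε : I → Bool, h ε * ss c ε = ∑ i, c i * (sg (ε i) * h ε) := by
      intro ε
      unfold ss
      rw [mul_sum]
      exact sum_congr rfl fun i _ => by ring
    rw [av_congr e, av_sum]
    unfold nsq
    exact sum_congr rfl fun i _ => by rw [av_mul_left, sq]
  have h3 : av (fun ε => (h ε - ss c ε) ^ 2)
      = av (fun ε => h ε ^ 2) - 2 * av (fun ε => h ε * ss c ε) + av (fun ε => ss c ε ^ 2) := by
    rw [← av_mul_left, ← av_sub, ← av_add]
    exact av_congr fun ε => by ring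
  rw [h3, h2, av_ss_sq] at h1
  have h4 : ∑ i, c i ^ 2 = nsq c := rfl
  linarith

/-- vector-valued Bessel -/
theorem bessel_vec {ι : Type} [Fintype ι] (h : (I → Bool) → ι → ℝ) :
    ∑ i, nsq (fun a => av fun ε : I → Bool => sg (ε i) * h ε a) ≤ av (fun ε => nsq (h ε)) := by
  unfold nsq
  rw [sum_comm, av_sum]
  exact sum_le_sum fun a _ => bessel fun ε => h ε a

end cube

end Pool.Agent.PEL
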