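import Pool.Agent.PEL.CI2

/-!
# PEL-BASIS : the basis argument (section 3 of the text)

`D² = av DN(w ε)²`; `x ε` from `exists_norming`: `E⟨w,x⟩ = D²`, `E nrm(x)² = D²`. `α_j` from Claim I for `P_j` (`a = C`), `α_0 := 0`,
`α_d := 1`. Both signs of Claim I by `x ↦ -x`. `(α_{j+1} - α_j) D² = E⟨w,(α_{j+1}-P_{j+1})x⟩ + E⟨w,(P_{j+1}-P_j)x⟩ + E⟨w,(P_j-α_j)x⟩`;
rank one: `f(x) e`, `|f(x)| nrm e ≤ 2C nrm x`, `E⟨w,e⟩ f(x) ≤ (E⟨w,e⟩²)^{1/2}(E f(x)²)^{1/2}`, `E⟨w,e⟩² = ∑ σ_a² e_a² ≤ |e|² ≤ (nrm e)²`.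
So `|α_{j+1}-α_j| D ≤ 82 C`. If `D > 164 C`: steps `< 1/2`, the first `j` with `α_j ≥ 1/4` has `α_j ≤ 3/4`;
`(P-α)(P-(1-α)) = α(1-α)` on `F`; `y = (P-(1-α))x ∈ F`, `nrm y ≤ (C+1) nrm x`: `(3/16) D² ≤ 40 C (C+1) D`. So `D ≤ 250 (C+1)²`.
-/

set_option autoImplicit false

namespace Pool.Agent.PEL

open Finset

variable {P : Par} {S : P.Sam}

theorem bas_sig_le_one (hB : P.Big) (a : P.A) : P.sig a ≤ 1 := by
  unfold Par.sig
  exact inv_le_one_of_one_le₀ (one_le_pow₀ (hB.one_le_p_real _))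

theorem bas_av_ip_sq (hB : P.Big) (e : P.A → ℝ) :
    av (fun ε : P.Om => ip (wv ε) e ^ 2) ≤ nsq e := by
  have h1 : ∀ ε : P.Om, ip (wv ε) e ^ 2 = ss (fun a => P.sig a * e a) ε ^ 2 := by
    intro ε
    congr 1
    unfold ip wv ss
    exact sum_congr rfl fun a _ => by ring
  rw [av_congr h1, av_ss_sq]
  unfold nsq
  refine sum_le_sum fun a _ => ?_
  rw [mul_pow]
  have h2 : P.sig a ^ 2 ≤ 1 := pow_le_one₀ (Par.sig_pos hB a).le (bas_sig_le_one hB a)
  nlinarith [sq_nonneg (e a)]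

/-- two-sided Claim I -/
theorem bas_two (hB : P.Big) (hS : Good P S) (F : Submodule ℝ (P.A → ℝ))
    (L : (P.A → ℝ) →ₗ[ℝ] (P.A → ℝ)) (hL : ∀ x ∈ F, L x ∈ F) (a : ℝ) (ha : 0 ≤ a)
    (h : ∀ x ∈ F, nrm S (L x) ≤ a * nrm S x) :
    ∃ α : ℝ, ∀ x : P.Om → P.A → ℝ, (∀ ε, x ε ∈ F) →
      |av (fun ε => ip (wv ε) (L (x ε) - α • x ε))| ≤
        40 * a * Real.sqrt (av fun ε => nrm S (x ε) ^ 2) := by
  obtain ⟨α, hα⟩ := claimI hB hS F L hL a ha h
  refine ⟨α, fun x hx => abs_le.mpr ⟨?_, hα x hx⟩⟩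
  have h1 := hα (fun ε => -x ε) (fun ε => F.neg_mem (hx ε))
  have e1 : av (fun ε : P.Om => ip (wv ε) (L (-x ε) - α • -x ε))
      = - av (fun ε : P.Om => ip (wv ε) (L (x ε) - α • x ε)) := by
    rw [← av_neg]
    refine av_congr fun ε => ?_
    rw [← ip_neg_right]
    congr 1
    rw [map_neg, smul_neg]
    abel
  have e2 : av (fun ε : P.Om => nrm S (-x ε) ^ 2) = av (fun ε : P.Om => nrm S (x ε) ^ 2) := by
    refine av_congr fun ε => ?_
    have := nrm_smul hB hS (-1) (x ε)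
    rw [neg_one_smul, abs_neg, abs_one, one_mul] at this
    rw [this]
  rw [e1, e2] at h1
  linarith

theorem basis_bound (hB : P.Big) (hS : Good P S) (F : Submodule ℝ (P.A → ℝ)) (C : ℝ) (hC : 1 ≤ C)
    (d : ℕ) (Pj : ℕ → (P.A → ℝ) →ₗ[ℝ] (P.A → ℝ)) (h0 : ∀ x ∈ F, Pj 0 x = 0)
    (hd : ∀ x ∈ F, Pj d x = x) (hF : ∀ j, ∀ x ∈ F, Pj j x ∈ F)
    (hP : ∀ j, ∀ x ∈ F, Pj j (Pj j x) = Pj j x)
    (hr : ∀ j, ∃ e ∈ F, ∃ f : (P.A → ℝ) → ℝ, ∀ x ∈ F, Pj (j + 1) x - Pj j x = f x • e)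
    (hn : ∀ j, ∀ x ∈ F, nrm S (Pj j x) ≤ C * nrm S x) :
    av (fun ε => DN S F (wv ε) ^ 2) ≤ (250 * (C + 1) ^ 2) ^ 2 := by
  have hC0 : (0 : ℝ) ≤ C := by linarith
  have hnorm : ∀ ε : P.Om, ∃ x ∈ F, nrm S x = DN S F (wv ε) ∧ ip (wv ε) x = DN S F (wv ε) ^ 2 :=
    fun ε => exists_norming hB hS F (wv ε)
  choose x hxF hx1 hx2 using hnorm
  set D2 := av (fun ε : P.Om => DN S F (wv ε) ^ 2) with hD2
  have hD2n : 0 ≤ D2 := av_nonneg fun _ => sq_nonneg _
  set D := Real.sqrt D2 with hD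
  have hD0 : 0 ≤ D := Real.sqrt_nonneg _
  have hDsq : D ^ 2 = D2 := Real.sq_sqrt hD2n
  have hxn : av (fun ε => nrm S (x ε) ^ 2) = D2 := av_congr fun ε => by rw [hx1]
  have hxw : av (fun ε => ip (wv ε) (x ε)) = D2 := av_congr fun ε => by rw [hx2]
  rw [← hDsq]
  apply pow_le_pow_left₀ hD0
  by_contra hcon
  push Not at hcon
  have hC1 : (1 : ℝ) ≤ (C + 1) ^ 2 := one_le_pow₀ (by linarith)
  have hDpos : 0 < D := by nlinarith
  -- `d ≠ 0`
  have hd0 : d ≠ 0 := by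
    rintro rfl
    have h1 : ∀ ε, x ε = 0 := fun ε => by rw [← hd _ (hxF ε), h0 _ (hxF ε)]
    have h2 : D2 = 0 := by
      rw [← hxw]
      have : ∀ ε : P.Om, ip (wv ε) (x ε) = 0 := fun ε => by rw [h1 ε, ip_zero_right]
      rw [av_congr this]
      simp [av]
    rw [hD, h2, Real.sqrt_zero] at hDpos
    exact lt_irrefl _ hDpos
  -- the scalars
  have hcl : ∀ j, ∃ α : ℝ, ∀ x : P.Om → P.A → ℝ, (∀ ε, x ε ∈ F) →
      |av (fun ε => ip (wv ε) (Pj j (x ε) - α • x ε))| ≤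
        40 * C * Real.sqrt (av fun ε => nrm S (x ε) ^ 2) :=
    fun j => bas_two hB hS F (Pj j) (hF j) C hC0 (hn j)
  choose α' hα' using hcl
  obtain ⟨α, hαdef⟩ : ∃ α : ℕ → ℝ, α = fun j => if j = 0 then 0 else if j = d then 1 else α' j :=
    ⟨_, rfl⟩
  have hα0 : α 0 = 0 := by rw [hαdef]; simp
  have hαd : α d = 1 := by rw [hαdef]; simp [hd0]
  have hα : ∀ j, ∀ x : P.Om → P.A → ℝ, (∀ ε, x ε ∈ F) →
      |av (fun ε => ip (wv ε) (Pj j (x ε) - α j • x ε))| ≤
        40 * C * Real.sqrt (av fun ε => nrm S (x ε) ^ 2) := by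
    intro j y hy
    have hpos : 0 ≤ 40 * C * Real.sqrt (av fun ε => nrm S (y ε) ^ 2) := by positivity
    by_cases hj0 : j = 0
    · subst hj0
      have : ∀ ε : P.Om, ip (wv ε) (Pj 0 (y ε) - α 0 • y ε) = 0 := fun ε => by
        rw [h0 _ (hy ε), hα0, zero_smul, sub_zero, ip_zero_right]
      rw [av_congr this]
      simpa [av] using hpos
    · by_cases hjd : j = d
      · subst hjd
        have : ∀ ε : P.Om, ip (wv ε) (Pj j (y ε) - α j • y ε) = 0 := fun ε => by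
          rw [hd _ (hy ε), hαd, one_smul, sub_self, ip_zero_right]
        rw [av_congr this]
        simpa [av] using hpos
      · have e : α j = α' j := by rw [hαdef]; simp [hj0, hjd]
        rw [e]
        exact hα' j y hy
  -- the steps
  have hstep : ∀ j, |α (j + 1) - α j| * D ≤ 82 * C := by
    intro j
    obtain ⟨e, _, f, hf⟩ := hr j
    have hq : Real.sqrt (av fun ε => nrm S (x ε) ^ 2) = D := by rw [hxn]
    have h1 := hα (j + 1) x hxF
    have h2 := hα j x hxF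
    rw [hq] at h1 h2
    have h3 : |av (fun ε => ip (wv ε) (Pj (j + 1) (x ε) - Pj j (x ε)))| ≤ 2 * C * D := by
      have e1 : ∀ ε : P.Om, ip (wv ε) (Pj (j + 1) (x ε) - Pj j (x ε))
          = ip (wv ε) e * f (x ε) := fun ε => by
        rw [hf _ (hxF ε), ip_smul_right, mul_comm]
      rw [av_congr e1]
      apply abs_le_of_sq_le_sq _ (by positivity)
      refine (av_mul_sq_le _ _).trans ?_
      have h4 : av (fun ε : P.Om => ip (wv ε) e ^ 2) ≤ nrm S e ^ 2 := by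
        refine (bas_av_ip_sq hB e).trans ?_
        rw [← nm_sq]
        exact pow_le_pow_left₀ (nm_nonneg _) (nm_le_nrm hB hS e) 2
      calc av (fun ε : P.Om => ip (wv ε) e ^ 2) * av (fun ε : P.Om => f (x ε) ^ 2)
          ≤ nrm S e ^ 2 * av (fun ε : P.Om => f (x ε) ^ 2) :=
            mul_le_mul_of_nonneg_right h4 (av_nonneg fun _ => sq_nonneg _)
        _ = av (fun ε : P.Om => (|f (x ε)| * nrm S e) ^ 2) := by
            rw [← av_mul_left]
            exact av_congr fun ε => by rw [mul_pow, sq_abs]; ring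
        _ ≤ av (fun ε : P.Om => (2 * C) ^ 2 * nrm S (x ε) ^ 2) := by
            refine av_mono fun ε => ?_
            rw [← mul_pow]
            apply pow_le_pow_left₀ (mul_nonneg (abs_nonneg _) (nrm_nonneg hB hS _))
            rw [← nrm_smul hB hS, ← hf _ (hxF ε), sub_eq_add_neg]
            refine (nrm_add_le hB hS _ _).trans ?_
            have h5 := hn (j + 1) _ (hxF ε)
            have h6 := hn j _ (hxF ε)
            have h7 : nrm S (-Pj j (x ε)) = nrm S (Pj j (x ε)) := by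
              have := nrm_smul hB hS (-1) (Pj j (x ε))
              rwa [neg_one_smul, abs_neg, abs_one, one_mul] at this
            rw [h7]
            linarith
        _ = (2 * C * D) ^ 2 := by
            rw [av_mul_left, hxn, ← hDsq]; ring
    have h8 : (α (j + 1) - α j) * D2
        = - av (fun ε => ip (wv ε) (Pj (j + 1) (x ε) - α (j + 1) • x ε))
          + av (fun ε => ip (wv ε) (Pj (j + 1) (x ε) - Pj j (x ε)))
          + av (fun ε => ip (wv ε) (Pj j (x ε) - α j • x ε)) := by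
      rw [← av_neg, ← av_add, ← av_add, ← hxw, ← av_mul_left]
      refine av_congr fun ε => ?_
      simp only [ip_sub_right, ip_smul_right]
      ring
    have h9 : |(α (j + 1) - α j) * D2| ≤ 82 * C * D := by
      rw [h8]
      refine (abs_add_le _ _).trans ?_
      have := abs_add_le (- av (fun ε => ip (wv ε) (Pj (j + 1) (x ε) - α (j + 1) • x ε)))
        (av (fun ε => ip (wv ε) (Pj (j + 1) (x ε) - Pj j (x ε))))
      rw [abs_neg] at this
      linarith
    rw [abs_mul, abs_of_nonneg hD2n, ← hDsq] at h9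
    have h10 : (|α (j + 1) - α j| * D) * D ≤ 82 * C * D := by nlinarith
    exact le_of_mul_le_mul_right h10 hDpos
  -- a good index
  have hex : ∃ j, (1 / 4 : ℝ) ≤ α j := ⟨d, by rw [hαd]; norm_num⟩
  classical
  obtain ⟨j, hj1, hj2⟩ : ∃ j, (1 / 4 : ℝ) ≤ α j ∧ α j ≤ 3 / 4 := by
    refine ⟨Nat.find hex, Nat.find_spec hex, ?_⟩
    have hne : Nat.find hex ≠ 0 := by
      intro h
      have := Nat.find_spec hex
      rw [h, hα0] at this
      norm_num at this
    obtain ⟨i, hi⟩ := Nat.exists_eq_succ_of_ne_zero hne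
    have hlt : α i < 1 / 4 := by
      have := Nat.find_min hex (m := i) (by rw [hi]; exact Nat.lt_succ_self i)
      push Not at this
      exact this
    rw [hi, Nat.succ_eq_add_one]
    have h1 := hstep i
    have h2 : |α (i + 1) - α i| ≤ 1 / 2 := by
      by_contra h3
      push Not at h3
      have h4 : 1 / 2 * D < |α (i + 1) - α i| * D := mul_lt_mul_of_pos_right h3 hDpos
      nlinarith
    have h5 := (abs_le.mp h2).2
    linarith
  have hy : ∀ ε, Pj j (x ε) - (1 - α j) • x ε ∈ F := fun ε =>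
    F.sub_mem (hF j _ (hxF ε)) (F.smul_mem _ (hxF ε))
  have hfin := (abs_le.mp (hα j (fun ε => Pj j (x ε) - (1 - α j) • x ε) hy)).2
  have e1 : av (fun ε : P.Om => ip (wv ε) (Pj j (Pj j (x ε) - (1 - α j) • x ε)
      - α j • (Pj j (x ε) - (1 - α j) • x ε))) = α j * (1 - α j) * D2 := by
    rw [← hxw, ← av_mul_left]
    refine av_congr fun ε => ?_
    rw [map_sub, map_smul, hP j _ (hxF ε)]
    simp only [ip_sub_right, ip_smul_right]
    ring
  rw [e1] at hfin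
  have h11 : Real.sqrt (av fun ε => nrm S (Pj j (x ε) - (1 - α j) • x ε) ^ 2) ≤ (C + 1) * D := by
    rw [Real.sqrt_le_left (by positivity), mul_pow, hDsq, ← hxn, ← av_mul_left]
    refine av_mono fun ε => ?_
    rw [← mul_pow]
    apply pow_le_pow_left₀ (nrm_nonneg hB hS _)
    have h12 : nrm S (-((1 - α j) • x ε)) = |1 - α j| * nrm S (x ε) := by
      rw [← neg_smul, nrm_smul hB hS, abs_neg]
    rw [sub_eq_add_neg]
    refine (nrm_add_le hB hS _ _).trans ?_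
    rw [h12]
    have h13 := hn j _ (hxF ε)
    have h14 : |1 - α j| ≤ 1 := by rw [abs_le]; constructor <;> linarith
    have h15 := nrm_nonneg hB hS (x ε)
    nlinarith
  have h16 : (3 / 16 : ℝ) ≤ α j * (1 - α j) := by nlinarith
  have h17 : 3 / 16 * D2 ≤ 40 * C * ((C + 1) * D) := by
    have h18 : 3 / 16 * D2 ≤ α j * (1 - α j) * D2 := mul_le_mul_of_nonneg_right h16 hD2n
    have h19 : 40 * C * Real.sqrt (av fun ε => nrm S (Pj j (x ε) - (1 - α j) • x ε) ^ 2)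
        ≤ 40 * C * ((C + 1) * D) := mul_le_mul_of_nonneg_left h11 (by positivity)
    linarith
  rw [← hDsq] at h17
  have h20 : 3 / 16 * D ≤ 40 * C * (C + 1) := by
    have : (3 / 16 * D) * D ≤ (40 * C * (C + 1)) * D := by nlinarith
    exact le_of_mul_le_mul_right this hDpos
  nlinarith

end Pool.Agent.PEL
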