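import Pool.Agent.PEL.Nrm2

/-!
# PEL-NRM3 : the dual norm `DN` on a subspace, lifting, `N_q`

The set `{x ∈ F | nrm x ≤ 1}` is compact (closed, `nm x ≤ nrm x`), nonempty (`0`).
`lift`: Hahn-Banach. Extend `φ` from `F` to `R^A` with `φ ≤ r nrm` (`exists_extension_of_le_sublinear`); `φ = ⟨v, ·⟩`.
If `r > 0` and `v/r ∉ RepBall` (convex, compact), separation (`geometric_hahn_banach_compact_closed` /
`geometric_hahn_banach_point_closed`) gives `x` with `⟨x, v/r⟩ > sup_{RepBall} ⟨x, ·⟩ = nrm x`, contradiction. `r = 0`: `v = 0` works.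
`lift_DN`: apply `lift` to `φ = ⟨v, ·⟩`, `r = DN S F v`.
`ip_W_le_Nq`: `r = 0` gives `nsq β = 0`; else scale.
`sum_Nq_sq_le`: choose maximizers (or near-maximizers) `β_q` with `CB q β_q 1`; with `ρ_q = N_q(x)/(∑N²)^{1/2}`:
`v = ∑_q W_q(ρ_q β_q)` has `Rep 1` and `⟨x, v⟩ = (∑ N_q²)^{1/2}`. For the sup use `∀ η > 0` and `le_of_forall_pos_le_add`.
-/

set_option autoImplicit false

namespace Pool.Agent.PEL

open Finset

variable {P : Par} {S : P.Sam}

private theorem nrm3_bdd (hB : P.Big) (hS : Good P S) (F : Submodule ℝ (P.A → ℝ))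
    (v : P.A → ℝ) : BddAbove {c | ∃ x ∈ F, nrm S x ≤ 1 ∧ c = ip v x} := by
  refine ⟨nm v, ?_⟩
  rintro c ⟨x, _, h1, rfl⟩
  exact (ip_le v x).trans (mul_le_of_le_one_right (nm_nonneg v) ((nm_le_nrm hB hS x).trans h1))

private theorem nrm3_zero_mem (hB : P.Big) (hS : Good P S) (F : Submodule ℝ (P.A → ℝ))
    (v : P.A → ℝ) : (0 : ℝ) ∈ {c | ∃ x ∈ F, nrm S x ≤ 1 ∧ c = ip v x} := by
  refine ⟨0, F.zero_mem, ?_, (ip_zero_right v).symm⟩
  rw [nrm_zero hB hS]
  exact zero_le_one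

theorem DN_nonneg (hB : P.Big) (hS : Good P S) (F : Submodule ℝ (P.A → ℝ)) (v : P.A → ℝ) :
    0 ≤ DN S F v :=
  le_csSup (nrm3_bdd hB hS F v) (nrm3_zero_mem hB hS F v)

theorem ip_le_DN (hB : P.Big) (hS : Good P S) {F : Submodule ℝ (P.A → ℝ)} {x : P.A → ℝ}
    (hx : x ∈ F) (v : P.A → ℝ) : ip v x ≤ DN S F v * nrm S x := by
  rcases (nrm_nonneg hB hS x).eq_or_lt with h0 | h0
  · have hx0 : x = 0 := nrm_eq_zero hB hS h0.symm
    rw [hx0, ip_zero_right, nrm_zero hB hS, mul_zero]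
  · have h1 : nrm S ((nrm S x)⁻¹ • x) = 1 := by
      rw [nrm_smul hB hS, abs_of_pos (inv_pos.2 h0), inv_mul_cancel₀ h0.ne']
    have h2 : ip v ((nrm S x)⁻¹ • x) ≤ DN S F v :=
      le_csSup (nrm3_bdd hB hS F v) ⟨_, F.smul_mem _ hx, h1.le, rfl⟩
    rw [ip_smul_right] at h2
    calc ip v x = ((nrm S x)⁻¹ * ip v x) * nrm S x := by field_simp
      _ ≤ DN S F v * nrm S x := mul_le_mul_of_nonneg_right h2 h0.le

theorem DN_le (hB : P.Big) (hS : Good P S) {F : Submodule ℝ (P.A → ℝ)} {v : P.A → ℝ} {c : ℝ}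
    (hc : 0 ≤ c) (h : ∀ x ∈ F, ip v x ≤ c * nrm S x) : DN S F v ≤ c := by
  refine csSup_le ⟨0, nrm3_zero_mem hB hS F v⟩ ?_
  rintro d ⟨x, hx, h1, rfl⟩
  exact (h x hx).trans (mul_le_of_le_one_right hc h1)

theorem DN_le_of_Rep (hB : P.Big) (hS : Good P S) (F : Submodule ℝ (P.A → ℝ)) {v : P.A → ℝ}
    {r : ℝ} (h : Rep S v r) : DN S F v ≤ r := by
  refine DN_le hB hS h.nonneg fun x _ => ?_
  rw [ip_comm]
  exact ip_le_nrm hB hS h x

theorem DN_le_nm (hB : P.Big) (hS : Good P S) (F : Submodule ℝ (P.A → ℝ)) (v : P.A → ℝ) :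
    DN S F v ≤ nm v :=
  DN_le hB hS (nm_nonneg v) fun x _ =>
    (ip_le v x).trans (mul_le_mul_of_nonneg_left (nm_le_nrm hB hS x) (nm_nonneg v))

theorem DN_congr {F : Submodule ℝ (P.A → ℝ)} {v v' : P.A → ℝ} (h : ∀ x ∈ F, ip v x = ip v' x) :
    DN S F v = DN S F v' := by
  unfold DN
  congr 1
  ext c
  constructor
  · rintro ⟨x, hx, h1, rfl⟩
    exact ⟨x, hx, h1, h x hx⟩
  · rintro ⟨x, hx, h1, rfl⟩
    exact ⟨x, hx, h1, (h x hx).symm⟩

theorem DN_add_le (hB : P.Big) (hS : Good P S) (F : Submodule ℝ (P.A → ℝ)) (v v' : P.A → ℝ) :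
    DN S F (v + v') ≤ DN S F v + DN S F v' := by
  refine DN_le hB hS (add_nonneg (DN_nonneg hB hS F v) (DN_nonneg hB hS F v')) fun x hx => ?_
  rw [ip_add_left, add_mul]
  exact add_le_add (ip_le_DN hB hS hx v) (ip_le_DN hB hS hx v')

private theorem nrm3_smul_le (hB : P.Big) (hS : Good P S) (F : Submodule ℝ (P.A → ℝ)) (c : ℝ)
    (v : P.A → ℝ) : DN S F (c • v) ≤ |c| * DN S F v := by
  refine DN_le hB hS (mul_nonneg (abs_nonneg c) (DN_nonneg hB hS F v)) fun x hx => ?_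
  have h1 := ip_le_DN hB hS (F.smul_mem c hx) v
  rw [nrm_smul hB hS, ip_smul_right] at h1
  rw [ip_smul_left]
  refine h1.trans (le_of_eq ?_)
  ring

theorem DN_smul (hB : P.Big) (hS : Good P S) (F : Submodule ℝ (P.A → ℝ)) (c : ℝ) (v : P.A → ℝ) :
    DN S F (c • v) = |c| * DN S F v := by
  refine le_antisymm (nrm3_smul_le hB hS F c v) ?_
  rcases eq_or_ne c 0 with h0 | h0
  · rw [h0, abs_zero, zero_mul]
    exact DN_nonneg hB hS F _
  · have h1 := nrm3_smul_le hB hS F c⁻¹ (c • v)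
    rw [smul_smul, inv_mul_cancel₀ h0, one_smul, abs_inv] at h1
    have h2 : 0 < |c| := abs_pos.2 h0
    calc |c| * DN S F v ≤ |c| * (|c|⁻¹ * DN S F (c • v)) :=
          mul_le_mul_of_nonneg_left h1 h2.le
      _ = DN S F (c • v) := by field_simp

theorem DN_sum_le (hB : P.Big) (hS : Good P S) (F : Submodule ℝ (P.A → ℝ)) {J : Type}
    (s : Finset J) (v : J → P.A → ℝ) : DN S F (∑ j ∈ s, v j) ≤ ∑ j ∈ s, DN S F (v j) := by
  classical
  induction s using Finset.induction_on with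
  | empty =>
    rw [Finset.sum_empty, Finset.sum_empty]
    refine DN_le hB hS le_rfl fun x _ => ?_
    rw [ip_zero_left, zero_mul]
  | insert a s ha ih =>
    rw [Finset.sum_insert ha, Finset.sum_insert ha]
    exact (DN_add_le hB hS F _ _).trans (add_le_add le_rfl ih)

private theorem nrm3_cont_ip (v : P.A → ℝ) : Continuous (fun x : P.A → ℝ => ip v x) := by
  unfold ip
  exact continuous_finsetSum _ fun i _ => continuous_const.mul (continuous_apply i)

private theorem nrm3_compact (hB : P.Big) (hS : Good P S) (F : Submodule ℝ (P.A → ℝ)) :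
    IsCompact {x : P.A → ℝ | x ∈ F ∧ nrm S x ≤ 1} := by
  refine Metric.isCompact_of_isClosed_isBounded ?_ ?_
  · have h1 : IsClosed (F : Set (P.A → ℝ)) := Submodule.closed_of_finiteDimensional F
    have h2 : IsClosed {x : P.A → ℝ | nrm S x ≤ 1} :=
      isClosed_le (continuous_nrm hB hS) continuous_const
    exact h1.inter h2
  · refine (Metric.isBounded_closedBall (x := (0 : P.A → ℝ)) (r := 1)).subset ?_
    rintro x ⟨_, hx⟩
    rw [mem_closedBall_zero_iff, pi_norm_le_iff_of_nonneg zero_le_one]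
    intro i
    rw [Real.norm_eq_abs]
    exact (abs_le_nm x i).trans ((nm_le_nrm hB hS x).trans hx)

/-- norming vector in `F` -/
theorem exists_norming (hB : P.Big) (hS : Good P S) (F : Submodule ℝ (P.A → ℝ)) (v : P.A → ℝ) :
    ∃ x ∈ F, nrm S x = DN S F v ∧ ip v x = DN S F v ^ 2 := by
  have hne : ({x : P.A → ℝ | x ∈ F ∧ nrm S x ≤ 1}).Nonempty := by
    refine ⟨0, F.zero_mem, ?_⟩
    rw [nrm_zero hB hS]
    exact zero_le_one
  obtain ⟨x0, ⟨hx0F, hx0n⟩, hmax⟩ :=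
    (nrm3_compact hB hS F).exists_isMaxOn hne (nrm3_cont_ip v).continuousOn
  have hD : ip v x0 = DN S F v := by
    refine le_antisymm (le_csSup (nrm3_bdd hB hS F v) ⟨x0, hx0F, hx0n, rfl⟩) ?_
    refine csSup_le ⟨0, nrm3_zero_mem hB hS F v⟩ ?_
    rintro d ⟨x, hx, h1, rfl⟩
    exact hmax (show x ∈ {x : P.A → ℝ | x ∈ F ∧ nrm S x ≤ 1} from ⟨hx, h1⟩)
  rcases (DN_nonneg hB hS F v).eq_or_lt with h0 | h0
  · refine ⟨0, F.zero_mem, ?_, ?_⟩
    · rw [nrm_zero hB hS, ← h0]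
    · rw [ip_zero_right, ← h0]
      norm_num
  · have h1 := ip_le_DN hB hS hx0F v
    rw [hD] at h1
    have h2 : 1 ≤ nrm S x0 := by
      by_contra h3
      push Not at h3
      have := mul_lt_mul_of_pos_left h3 h0
      linarith
    have h3 : nrm S x0 = 1 := le_antisymm hx0n h2
    refine ⟨DN S F v • x0, F.smul_mem _ hx0F, ?_, ?_⟩
    · rw [nrm_smul hB hS, h3, mul_one, abs_of_pos h0]
    · rw [ip_smul_right, hD, sq]

private theorem nrm3_repr (g : (P.A → ℝ) →ₗ[ℝ] ℝ) :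
    ∃ v : P.A → ℝ, ∀ x, g x = ip v x := by
  classical
  refine ⟨fun a => g (fun j => if a = j then 1 else 0), fun x => ?_⟩
  rw [LinearMap.pi_apply_eq_sum_univ g x]
  unfold ip
  refine sum_congr rfl fun i _ => ?_
  rw [smul_eq_mul, mul_comm]

/-- lifting -/
theorem lift (hB : P.Big) (hS : Good P S) (F : Submodule ℝ (P.A → ℝ))
    (φ : (P.A → ℝ) →ₗ[ℝ] ℝ) {r : ℝ} (hr : 0 ≤ r) (h : ∀ x ∈ F, φ x ≤ r * nrm S x) :
    ∃ v, Rep S v r ∧ ∀ x ∈ F, ip v x = φ x := by
  obtain ⟨g, hg1, hg2⟩ := exists_extension_of_le_sublinear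
    (⟨F, φ.domRestrict F⟩ : (P.A → ℝ) →ₗ.[ℝ] ℝ) (fun x => r * nrm S x)
    (fun c hc x => by
      show r * nrm S (c • x) = c * (r * nrm S x)
      rw [nrm_smul hB hS, abs_of_pos hc]; ring)
    (fun x y => by
      show r * nrm S (x + y) ≤ r * nrm S x + r * nrm S y
      rw [← mul_add]
      exact mul_le_mul_of_nonneg_left (nrm_add_le hB hS x y) hr)
    (fun x => h x.1 x.2)
  obtain ⟨v, hv⟩ := nrm3_repr g
  refine ⟨v, ?_, fun x hx => ?_⟩
  · rcases hr.eq_or_lt with h0 | h0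
    · have h1 : v = 0 := by
        have h2 := hg2 v
        rw [hv v, ip_self, ← h0, zero_mul] at h2
        exact nsq_eq_zero.1 (le_antisymm h2 (nsq_nonneg v))
      rw [h1, ← h0]
      exact Rep_zero
    · have h1 : Rep S (r⁻¹ • v) 1 := by
        by_contra hcon
        obtain ⟨f, u, hf1, hf2⟩ := geometric_hahn_banach_closed_point
          (convex_repBall (P := P) (S := S)) (isCompact_repBall hB hS).isClosed
          (show r⁻¹ • v ∉ {v : P.A → ℝ | Rep S v 1} from hcon)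
        obtain ⟨y, hy⟩ := nrm3_repr (f : (P.A → ℝ) →ₗ[ℝ] ℝ)
        have hy' : ∀ x, f x = ip y x := hy
        have h2 : nrm S y ≤ u := by
          refine nrm_le y u fun w hw => ?_
          have := hf1 w hw
          rw [hy'] at this
          exact this.le
        rw [hy', ip_smul_right] at hf2
        have h3 := hg2 y
        rw [hv y, ip_comm] at h3
        have h4 : r⁻¹ * ip y v ≤ nrm S y := by
          calc r⁻¹ * ip y v ≤ r⁻¹ * (r * nrm S y) :=
                mul_le_mul_of_nonneg_left h3 (inv_nonneg.2 h0.le)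
            _ = nrm S y := by field_simp
        linarith
      have h2 := h1.smul r
      rw [smul_smul, mul_inv_cancel₀ h0.ne', one_smul, abs_of_pos h0, mul_one] at h2
      exact h2
  · rw [← hv x]
    exact hg1 ⟨x, hx⟩

theorem lift_DN (hB : P.Big) (hS : Good P S) (F : Submodule ℝ (P.A → ℝ)) (v : P.A → ℝ) :
    ∃ v', Rep S v' (DN S F v) ∧ ∀ x ∈ F, ip v' x = ip v x := by
  let φ : (P.A → ℝ) →ₗ[ℝ] ℝ :=
    { toFun := fun x => ip v x
      map_add' := fun x y => ip_add_right v x y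
      map_smul' := fun c x => by
        show ip v (c • x) = c • ip v x
        rw [ip_smul_right, smul_eq_mul] }
  obtain ⟨v', h1, h2⟩ := lift hB hS F φ (DN_nonneg hB hS F v) (fun x hx => ip_le_DN hB hS hx v)
  exact ⟨v', h1, h2⟩

private theorem nrm3_Nq_bdd (hB : P.Big) (hS : Good P S) (q : ℕ) (x : P.A → ℝ) :
    BddAbove {c | ∃ β, CB P q β 1 ∧ c = ip x (W S q β)} := by
  refine ⟨nm x * (2 * P.K), ?_⟩
  rintro c ⟨β, h, rfl⟩
  have hK := hB.one_le_K
  refine (ip_le _ _).trans (mul_le_mul_of_nonneg_left ?_ (nm_nonneg x))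
  rw [nm_le_iff (by positivity)]
  refine (CB.nsq_W_le hB hS h).trans ?_
  nlinarith

private theorem nrm3_Nq_zero (q : ℕ) (x : P.A → ℝ) :
    (0 : ℝ) ∈ {c | ∃ β, CB P q β 1 ∧ c = ip x (W S q β)} := by
  refine ⟨0, (CB_zero q).mono zero_le_one, ?_⟩
  rw [W_zero, ip_zero_right]

theorem Nq_nonneg (hB : P.Big) (hS : Good P S) (q : ℕ) (x : P.A → ℝ) : 0 ≤ Nq S q x :=
  le_csSup (nrm3_Nq_bdd hB hS q x) (nrm3_Nq_zero q x)

theorem ip_W_le_Nq (hB : P.Big) (hS : Good P S) {q : ℕ} {β : Fin P.T → ℝ} {r : ℝ}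
    (h : CB P q β r) (x : P.A → ℝ) : ip x (W S q β) ≤ Nq S q x * r := by
  rcases h.nonneg.eq_or_lt with h0 | h0
  · have h1 : β = 0 := by
      have h2 := h.two
      rw [← h0] at h2
      have h3 : nsq β ≤ 0 := by simpa using h2
      exact nsq_eq_zero.1 (le_antisymm h3 (nsq_nonneg β))
    rw [h1, W_zero, ip_zero_right, ← h0, mul_zero]
  · have h1 : CB P q (r⁻¹ • β) 1 := by
      have h2 := h.smul r⁻¹
      rwa [abs_of_pos (inv_pos.2 h0), inv_mul_cancel₀ h0.ne'] at h2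
    have h2 : ip x (W S q (r⁻¹ • β)) ≤ Nq S q x :=
      le_csSup (nrm3_Nq_bdd hB hS q x) ⟨_, h1, rfl⟩
    rw [W_smul, ip_smul_right] at h2
    calc ip x (W S q β) = (r⁻¹ * ip x (W S q β)) * r := by field_simp
      _ ≤ Nq S q x * r := mul_le_mul_of_nonneg_right h2 h0.le

theorem sum_Nq_sq_le (hB : P.Big) (hS : Good P S) (x : P.A → ℝ) :
    ∑ q ∈ range P.K, Nq S q x ^ 2 ≤ nrm S x ^ 2 := by
  set s : ℝ := ∑ q ∈ range P.K, Nq S q x ^ 2 with hs
  have hs0 : 0 ≤ s := sum_nonneg fun q _ => sq_nonneg _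
  have key : Real.sqrt s ≤ nrm S x := by
    rcases hs0.eq_or_lt with h0 | h0
    · rw [← h0, Real.sqrt_zero]
      exact nrm_nonneg hB hS x
    · have hq0 : 0 < Real.sqrt s := Real.sqrt_pos.2 h0
      have hsq : Real.sqrt s ^ 2 = s := Real.sq_sqrt hs0
      set w : ℝ := Real.sqrt s with hw
      have hρ0 : ∀ q, 0 ≤ Nq S q x / w := fun q =>
        div_nonneg (Nq_nonneg hB hS q x) hq0.le
      set R : ℝ := ∑ q ∈ range P.K, Nq S q x / w with hR
      have hR0 : 0 ≤ R := sum_nonneg fun q _ => hρ0 q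
      refine le_of_forall_pos_le_add fun ε hε => ?_
      have hη : 0 < ε / (R + 1) := by positivity
      have hch : ∀ q, ∃ β, CB P q β 1 ∧ Nq S q x - ε / (R + 1) < ip x (W S q β) := by
        intro q
        have h1 : Nq S q x - ε / (R + 1) <
            sSup {c | ∃ β, CB P q β 1 ∧ c = ip x (W S q β)} := by
          have : Nq S q x = sSup {c | ∃ β, CB P q β 1 ∧ c = ip x (W S q β)} := rfl
          rw [← this]
          linarith
        obtain ⟨c, ⟨β, hβ, rfl⟩, hc⟩ := exists_lt_of_lt_csSup ⟨0, nrm3_Nq_zero q x⟩ h1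
        exact ⟨β, hβ, hc⟩
      choose β hβ1 hβ2 using hch
      have hrep : Rep S (∑ q ∈ range P.K, W S q ((Nq S q x / w) • β q)) 1 := by
        refine ⟨zero_le_one, 0, fun q => (Nq S q x / w) • β q, fun q => Nq S q x / w, ?_, ?_, ?_⟩
        · rw [zero_add]
        · intro q _
          have := (hβ1 q).smul (Nq S q x / w)
          rwa [abs_of_nonneg (hρ0 q), mul_one] at this
        · rw [nsq_zero, zero_add]
          have h1 : ∀ q, (Nq S q x / w) ^ 2 = Nq S q x ^ 2 * (w ^ 2)⁻¹ := fun q => by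
            rw [div_pow, div_eq_mul_inv]
          rw [sum_congr rfl fun q _ => h1 q, ← sum_mul, ← hs, hsq, mul_inv_cancel₀ h0.ne',
            one_pow]
      have h1 := ip_le_nrm hB hS hrep x
      rw [one_mul, ip_sum_right] at h1
      have h2 : ∑ q ∈ range P.K, (Nq S q x / w) * (Nq S q x - ε / (R + 1)) ≤
          ∑ q ∈ range P.K, ip x (W S q ((Nq S q x / w) • β q)) := by
        refine sum_le_sum fun q _ => ?_
        rw [W_smul, ip_smul_right]
        exact mul_le_mul_of_nonneg_left (hβ2 q).le (hρ0 q)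
      have h3 : ∑ q ∈ range P.K, (Nq S q x / w) * (Nq S q x - ε / (R + 1)) =
          w - R * (ε / (R + 1)) := by
        have h4 : ∀ q, (Nq S q x / w) * (Nq S q x - ε / (R + 1)) =
            Nq S q x ^ 2 * w⁻¹ - (Nq S q x / w) * (ε / (R + 1)) := fun q => by
          rw [div_eq_mul_inv (Nq S q x) w]; ring
        rw [sum_congr rfl fun q _ => h4 q, sum_sub_distrib, ← sum_mul, ← sum_mul, ← hs, ← hR,
          ← hsq]
        congr 1
        rw [sq, mul_assoc, mul_inv_cancel₀ hq0.ne', mul_one]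
      have h5 : R * (ε / (R + 1)) ≤ ε := by
        rw [mul_div_assoc', div_le_iff₀ (by positivity)]
        nlinarith
      linarith
  calc s = Real.sqrt s ^ 2 := (Real.sq_sqrt hs0).symm
    _ ≤ nrm S x ^ 2 := pow_le_pow_left₀ (Real.sqrt_nonneg s) key 2

end Pool.Agent.PEL
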