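import Pool.Agent.PEL.Tail
import Pool.Agent.PEL.Nrm3

/-!
# PEL-CI1 : consequences of (P2), (P3) for Claim I

`ca2`: `∑_{a,b} M_ab (avg_t ε_a ε_b) - tr M = ∑_{a≠b} M_ab avg_t ε_a ε_b`, `|avg| ≤ 1/n` (`Good.p2` divided by `T`).
`ca3`: `avg_t |∑_b ε_b^(t) Y_b|² = ∑_{b,b'} ⟨Y_b,Y_b'⟩ avg ε_b ε_b' ≤ ∑|Y_b|² + (1/n)(∑_b |Y_b|)² ≤ 2∑|Y_b|²`.
`ca4`: duality: with `v = (1/T) ∑ γ_t ε^(t)`: `|v|² = (1/T) ∑ γ_t ⟨ε^(t), v⟩ ≤ ((1/T)∑γ²)^{1/2} ((1/T)∑_t ⟨ε^(t),v⟩²)^{1/2}`, and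
`(1/T)∑_t ⟨ε^(t), y⟩² ≤ 2|y|²` is `ca3` for real `Y_b = y_b`.
`ca5`: (P3) for `M_ab = y_a y_b`, `B = univ`, `s = t`: `⟨ε^(t),y⟩² ≤ |y|² + m|y|² ≤ m²` if `|y| ≤ 1`.
-/

set_option autoImplicit false

namespace Pool.Agent.PEL

open Finset

variable {P : Par} {S : P.Sam}

theorem ca2_expand (M : P.A → P.A → ℝ) :
    av (fun t => ∑ a, ∑ b, sg (S t a) * M a b * sg (S t b)) =
      ∑ a, ∑ b, M a b * ((∑ t, sg (S t a) * sg (S t b)) / (P.T : ℝ)) := by
  unfold av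
  rw [Fintype.card_fin, sum_comm, sum_div]
  refine sum_congr rfl fun a _ => ?_
  rw [sum_comm, sum_div]
  refine sum_congr rfl fun b _ => ?_
  rw [← mul_div_assoc, mul_sum]
  congr 1
  refine sum_congr rfl fun t _ => ?_
  ring

theorem ca2 (hB : P.Big) (hS : Good P S) (M : P.A → P.A → ℝ) :
    |av (fun t => ∑ a, ∑ b, sg (S t a) * M a b * sg (S t b)) - ∑ a, M a a| ≤
      (∑ a, ∑ b, |M a b|) / (Fintype.card P.A : ℝ) := by
  have hT : (0 : ℝ) < P.T := by exact_mod_cast hB.T_pos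
  have hn : (0 : ℝ) < (Fintype.card P.A : ℝ) := by exact_mod_cast hB.card_A_pos
  rw [ca2_expand, ← sum_sub_distrib, sum_div]
  refine (abs_sum_le_sum_abs _ _).trans (sum_le_sum fun a _ => ?_)
  have h1 : (∑ b, M a b * ((∑ t, sg (S t a) * sg (S t b)) / (P.T : ℝ))) - M a a =
      ∑ b, (M a b * ((∑ t, sg (S t a) * sg (S t b)) / (P.T : ℝ)) - if b = a then M a b else 0) := by
    rw [sum_sub_distrib, sum_ite_eq' univ a (fun b => M a b), if_pos (mem_univ a)]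
  rw [h1, sum_div]
  refine (abs_sum_le_sum_abs _ _).trans (sum_le_sum fun b _ => ?_)
  by_cases hb : b = a
  · subst hb
    rw [if_pos rfl]
    have h2 : ∑ t, sg (S t b) * sg (S t b) = (P.T : ℝ) := by
      rw [sum_congr rfl fun t _ => sg_mul_self (S t b)]
      simp
    rw [h2, div_self hT.ne', mul_one, sub_self, abs_zero]
    positivity
  · rw [if_neg hb, sub_zero, abs_mul, abs_div, abs_of_pos hT]
    have h3 := hS.p2 a b (fun h => hb h.symm)
    have h4 : |∑ t, sg (S t a) * sg (S t b)| / (P.T : ℝ) ≤ 1 / (Fintype.card P.A : ℝ) := by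
      rw [div_le_iff₀ hT]
      calc |∑ t, sg (S t a) * sg (S t b)| ≤ (P.T : ℝ) / (Fintype.card P.A : ℝ) := h3
        _ = 1 / (Fintype.card P.A : ℝ) * (P.T : ℝ) := by ring
    calc |M a b| * (|∑ t, sg (S t a) * sg (S t b)| / (P.T : ℝ))
        ≤ |M a b| * (1 / (Fintype.card P.A : ℝ)) := mul_le_mul_of_nonneg_left h4 (abs_nonneg _)
      _ = |M a b| / (Fintype.card P.A : ℝ) := by ring

theorem ca3 (hB : P.Big) (hS : Good P S) {G : Type} [Fintype G] (Y : P.A → G → ℝ) :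
    av (fun t => nsq (∑ b, sg (S t b) • Y b)) ≤ 2 * ∑ b, nsq (Y b) := by
  have hn : (0 : ℝ) < (Fintype.card P.A : ℝ) := by exact_mod_cast hB.card_A_pos
  have h1 : ∀ t, nsq (∑ b, sg (S t b) • Y b) =
      ∑ a, ∑ b, sg (S t a) * ip (Y a) (Y b) * sg (S t b) := by
    intro t
    rw [← ip_self, ip_sum_left]
    refine sum_congr rfl fun a _ => ?_
    rw [ip_sum_right]
    refine sum_congr rfl fun b _ => ?_
    rw [ip_smul_left, ip_smul_right]
    ring
  have h2 := ca2 hB hS (fun a b => ip (Y a) (Y b))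
  rw [av_congr h1]
  have h3 : ∑ a, ip (Y a) (Y a) = ∑ a, nsq (Y a) := sum_congr rfl fun a _ => ip_self _
  have h4 : ∑ a : P.A, ∑ b : P.A, |ip (Y a) (Y b)| ≤ (Fintype.card P.A : ℝ) * ∑ b, nsq (Y b) := by
    have h5 : ∀ a b : P.A, |ip (Y a) (Y b)| ≤ (nsq (Y a) + nsq (Y b)) / 2 := by
      intro a b
      refine (abs_ip_le _ _).trans ?_
      have := nm_sq (Y a)
      have := nm_sq (Y b)
      nlinarith [sq_nonneg (nm (Y a) - nm (Y b))]
    calc ∑ a : P.A, ∑ b : P.A, |ip (Y a) (Y b)|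
        ≤ ∑ a : P.A, ∑ b : P.A, (nsq (Y a) + nsq (Y b)) / 2 :=
          sum_le_sum fun a _ => sum_le_sum fun b _ => h5 a b
      _ = (Fintype.card P.A : ℝ) * ∑ b, nsq (Y b) := by
          simp only [← sum_div, sum_add_distrib, sum_const, card_univ, nsmul_eq_mul, ← mul_sum]
          ring
  have h6 : (∑ a : P.A, ∑ b : P.A, |ip (Y a) (Y b)|) / (Fintype.card P.A : ℝ) ≤ ∑ b, nsq (Y b) := by
    rw [div_le_iff₀ hn]
    linarith
  have h7 := abs_le.mp h2
  rw [h3] at h7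
  linarith [h7.2]

theorem ca4 (hB : P.Big) (hS : Good P S) (γ : Fin P.T → ℝ) :
    nsq (fun a : P.A => av fun t => γ t * sg (S t a)) ≤ 2 * av fun t => γ t ^ 2 := by
  set v : P.A → ℝ := fun a => av fun t => γ t * sg (S t a) with hv
  set X : Fin P.T → ℝ := fun t => ∑ b, sg (S t b) * v b with hX
  have h1 : nsq v = av (fun t => γ t * X t) := by
    rw [← ip_self]
    unfold ip
    have h2 : ∀ a, v a * v a = av fun t => γ t * (sg (S t a) * v a) := by
      intro a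
      conv_lhs => rw [hv]
      simp only
      rw [← av_mul_right]
      exact av_congr fun t => by ring
    rw [sum_congr rfl fun a _ => h2 a, ← av_sum]
    refine av_congr fun t => ?_
    rw [hX]
    simp only
    rw [mul_sum]
  have h3 : av (fun t => X t ^ 2) ≤ 2 * nsq v := by
    have h4 := ca3 hB hS (G := Unit) (fun b _ => v b)
    have h5 : ∀ t, nsq (∑ b, sg (S t b) • (fun _ : Unit => v b)) = X t ^ 2 := by
      intro t
      unfold nsq
      simp [hX]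
    have h6 : ∀ b : P.A, nsq (fun _ : Unit => v b) = v b ^ 2 := by
      intro b
      unfold nsq
      simp
    rw [av_congr h5, sum_congr rfl fun b _ => h6 b] at h4
    exact h4
  have h7 : av (fun t => γ t * X t) ≤ av (fun t => γ t ^ 2) + (1 / 4) * av (fun t => X t ^ 2) := by
    rw [← av_mul_left, ← av_add]
    refine av_mono fun t => ?_
    nlinarith [sq_nonneg (γ t - X t / 2)]
  rw [h1] at h3 ⊢
  linarith

theorem ca5 (hB : P.Big) (hS : Good P S) (y : P.A → ℝ) (hy : nsq y ≤ 1) :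
    ∃ Ex : Finset (Fin P.T), Ex.card ≤ 2 * Fintype.card P.A ^ 3 ∧
      ∀ t, t ∉ Ex → |∑ a, y a * sg (S t a)| ≤ P.m := by
  obtain ⟨Ex, hc, hE⟩ := hS.p3 univ (Or.inl rfl) (fun a b => y a * y b) (by simp)
  refine ⟨Ex, by simpa using hc, fun t ht => ?_⟩
  have h1 := hE t t ht ht
  rw [if_pos rfl] at h1
  have hm : (2 : ℝ) ≤ P.m := by
    have h := hB.m_ge
    have h' : 2 ≤ P.m := le_trans (by norm_num) h
    exact_mod_cast h'
  have h2 : ∑ a, ∑ b, sg (S t a) * (y a * y b) * sg (S t b) = (∑ a, y a * sg (S t a)) ^ 2 := by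
    rw [sq, sum_mul_sum]
    exact sum_congr rfl fun a _ => sum_congr rfl fun b _ => by ring
  have h3 : ∑ a, y a * y a = nsq y := by
    unfold nsq
    exact sum_congr rfl fun a _ => by ring
  have h4 : ∑ a, ∑ b, (y a * y b) ^ 2 = nsq y ^ 2 := by
    unfold nsq
    rw [sq, sum_mul_sum]
    exact sum_congr rfl fun a _ => sum_congr rfl fun b _ => by ring
  have h0 : 0 ≤ nsq y := nsq_nonneg y
  rw [h2, h3, h4, Real.sqrt_sq h0] at h1
  have h5 := (abs_le.mp h1).2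
  have h6 : (P.m : ℝ) * nsq y ≤ P.m := by nlinarith
  refine abs_le_of_sq_le_sq ?_ (by linarith)
  nlinarith

end Pool.Agent.PEL
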