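import Pool.Agent.PEL.ClsD

/-!
# PEL-CLS, assembly of the representation
-/

set_option autoImplicit false

namespace Pool.Agent.PEL

open Finset

variable {P : Par} {S : P.Sam}

section shift
variable {M : Type} [AddCommGroup M]

/-- shift down -/
def shd {X : Type} (x0 : X) (f : ℕ → X) : ℕ → X
  | 0 => x0
  | j + 1 => f j

theorem sum_shift_up {K : ℕ} (f : ℕ → M) (h0 : f 0 = 0) (hK : f K = 0) :
    ∑ k ∈ range K, f (k + 1) = ∑ k ∈ range K, f k := by
  have h1 := Finset.sum_range_succ' f K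
  have h2 := Finset.sum_range_succ f K
  rw [h0, add_zero] at h1
  rw [hK, add_zero] at h2
  rw [← h1, h2]

theorem sum_shift_up_le {K : ℕ} (f : ℕ → ℝ) (h0 : 0 ≤ f 0) (hK : f K = 0) :
    ∑ k ∈ range K, f (k + 1) ≤ ∑ k ∈ range K, f k := by
  have h1 := Finset.sum_range_succ' f K
  have h2 := Finset.sum_range_succ f K
  rw [hK, add_zero] at h2
  linarith

theorem sum_shd_le {K : ℕ} (f : ℕ → ℝ) (h0 : ∀ k, 0 ≤ f k) :
    ∑ k ∈ range K, shd 0 f k ≤ ∑ k ∈ range K, f k := by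
  have h1 := Finset.sum_range_succ' (shd 0 f) K
  have h2 := Finset.sum_range_succ (shd 0 f) K
  have h3 : 0 ≤ shd 0 f K := by
    cases K with
    | zero => exact le_rfl
    | succ K => exact h0 K
  have h4 : ∑ k ∈ range K, shd 0 f (k + 1) = ∑ k ∈ range K, f k := rfl
  have h5 : shd 0 f 0 = 0 := rfl
  linarith

end shift

theorem sum_W_big (b : ℕ → Fin P.T → ℝ) (h0 : b 0 = 0) (hK : b P.K = 0) :
    ∑ k ∈ range P.K, W S k (b k)
      = ∑ k ∈ range P.K, W S k (b (k + 1)) - ∑ k ∈ range P.K, U S k (b (k + 1)) := by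
  have h1 := sum_shift_up (K := P.K) (fun k => W S k (b k)) (by simp only [h0, W_zero])
    (by simp only [hK, W_zero])
  rw [← h1, ← Finset.sum_sub_distrib]
  refine sum_congr rfl fun k _ => ?_
  rw [W_succ k (b (k + 1))]
  abel

theorem sum_W_small (b : ℕ → Fin P.T → ℝ) :
    ∑ k ∈ range P.K, W S k (b k)
      = ∑ k ∈ range P.K, W S k (shd 0 b k) + ∑ k ∈ range P.K, U S k (b k) := by
  have h1 := sum_shift_up (K := P.K) (fun k => W S k (shd 0 b k)) (by simp only [shd, W_zero])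
    (W_top le_rfl _)
  rw [← h1, ← Finset.sum_add_distrib]
  refine sum_congr rfl fun k _ => ?_
  rw [W_succ k (b k)]
  rfl

theorem bigp_zero {J : Type} (c κ : ℝ) : bigp c κ (0 : J → ℝ) = 0 := by
  funext t; simp [bigp]

theorem smallp_zero {J : Type} (c κ : ℝ) : smallp c κ (0 : J → ℝ) = 0 := by
  funext t; simp [smallp]

theorem midp_zero {J : Type} (c c' κ : ℝ) : midp c c' κ (0 : J → ℝ) = 0 := by
  funext t; simp [midp]

theorem CB_zero_sqrt (k : ℕ) (x : ℝ) : CB P k 0 (Real.sqrt x) := (CB_zero k).mono (Real.sqrt_nonneg x)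

/-- the representation -/
theorem cls_rep (hB : P.Big) (hS : Good P S) (β : ℕ → Fin P.T → ℝ) (κ M : ℕ → ℝ)
    (hκ : ∀ k, 0 ≤ κ k) (h0 : ∀ k < P.K, κ k = 0 → β k = 0)
    (hM : ∀ k, ∀ t, β k t ^ 2 ≤ M k) :
    ∃ R, Rep S (∑ k ∈ range P.K, W S k (β k)) R ∧
      R ^ 2 ≤ ∑ k ∈ range P.K, (13 * nsq (β k) + 8 * (nsq (β k) / κ k) ^ 2 + 3 * (P.p k * M k)
        + 6 * κ k ^ 2 + 5 * (((P.p (k + 1) : ℝ) ^ 40)⁻¹ * n1 (β k) ^ 2)) := by
  classical
  have hT : 0 < P.T := hB.T_pos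
  have hM0 : ∀ k, 0 ≤ M k := fun k => (sq_nonneg _).trans (hM k ⟨0, hT⟩)
  have hX : ∀ k, 0 ≤ nsq (β k) := fun k => nsq_nonneg _
  have hXκ : ∀ k, 0 ≤ (nsq (β k) / κ k) ^ 2 := fun k => sq_nonneg _
  have hpM : ∀ k, 0 ≤ (P.p k : ℝ) * M k := fun k => mul_nonneg (Nat.cast_nonneg _) (hM0 k)
  have hκ2 : ∀ k, 0 ≤ κ k ^ 2 := fun k => sq_nonneg _
  have hY : ∀ k, 0 ≤ ((P.p (k + 1) : ℝ) ^ 40)⁻¹ * n1 (β k) ^ 2 := fun k => by
    have := hB.p_pos_real (k + 1)
    positivity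
  -- the parts
  set bg : ℕ → Fin P.T → ℝ := fun k =>
    if k = 0 ∨ P.K ≤ k then 0 else bigp ((P.p k : ℝ) ^ 5) (κ k) (β k) with hbg
  set md : ℕ → Fin P.T → ℝ := fun k =>
    if k = 0 then bigp ((P.p (0 + 1) : ℝ) ^ 5) (κ 0) (β 0)
    else midp ((P.p k : ℝ) ^ 5) ((P.p (k + 1) : ℝ) ^ 5) (κ k) (β k) with hmd
  set sm : ℕ → Fin P.T → ℝ := fun k => smallp ((P.p (k + 1) : ℝ) ^ 5) (κ k) (β k) with hsm
  -- the radii
  set rb : ℕ → ℝ := fun k =>
    if k = 0 ∨ P.K ≤ k then 0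
    else Real.sqrt (nsq (β k) + P.p k * M k + (nsq (β k) / κ k) ^ 2) with hrb
  set rm : ℕ → ℝ := fun k => Real.sqrt (nsq (β k) + κ k ^ 2 + (nsq (β k) / κ k) ^ 2) with hrm
  set rs : ℕ → ℝ := fun k =>
    Real.sqrt (nsq (β k) + κ k ^ 2 + ((P.p (k + 1) : ℝ) ^ 40)⁻¹ * n1 (β k) ^ 2) with hrs
  have hparts : ∀ k < P.K, β k = bg k + md k + sm k := by
    intro k hk
    rcases Nat.eq_zero_or_pos k with hk0 | hk0
    · subst hk0
      simp only [hbg, hmd, hsm, true_or, if_true, zero_add]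
      exact (mid_add_small (β 0)).symm
    · have hne : ¬ (k = 0 ∨ P.K ≤ k) := by omega
      simp only [hbg, hmd, hsm, if_neg hne, if_neg hk0.ne']
      refine (parts_add ?_ (β k)).symm
      exact pow_le_pow_left₀ (Nat.cast_nonneg _) (hB.p_mono_real (Nat.le_succ k)) 5
  have cb1 : ∀ j < P.K, CB P j (bg (j + 1)) (rb (j + 1)) := by
    intro j hj
    by_cases hj1 : P.K ≤ j + 1
    · simp only [hbg, hrb, if_pos (Or.inr hj1 : j + 1 = 0 ∨ P.K ≤ j + 1)]
      exact CB_zero j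
    · have hne : ¬ (j + 1 = 0 ∨ P.K ≤ j + 1) := by omega
      simp only [hbg, hrb, if_neg hne]
      rcases (hκ (j + 1)).eq_or_lt with h | h
      · rw [h0 (j + 1) (by omega) h.symm, bigp_zero]
        exact CB_zero_sqrt j _
      · exact CB_big hB j (β (j + 1)) (κ (j + 1)) (M (j + 1)) h (hM (j + 1))
  have cb2 : ∀ j < P.K, CB P j (md j) (rm j) := by
    intro j hj
    rcases (hκ j).eq_or_lt with h | h
    · have hb := h0 j hj h.symm
      have : md j = 0 := by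
        simp only [hmd]
        split_ifs with hj0
        · subst hj0; rw [hb, bigp_zero]
        · rw [hb, midp_zero]
      rw [this]
      exact CB_zero_sqrt j _
    · simp only [hmd]
      split_ifs with hj0
      · subst hj0
        exact CB_mid0 hB (β 0) (κ 0) h
      · exact CB_mid hB j (β j) (κ j) h
  have cb3 : ∀ j < P.K, CB P j (shd 0 sm j) (shd 0 rs j) := by
    intro j _
    cases j with
    | zero => exact CB_zero 0
    | succ j => exact CB_small hB j (β j) (κ j) (hκ j)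
  have u1 : ∀ j < P.K, nsq (U S j (sm j))
      ≤ nsq (β j) + ((P.p (j + 1) : ℝ) ^ 40)⁻¹ * n1 (β j) ^ 2 := fun j hj =>
    nsq_U_small hB hS hj (β j) (κ j)
  set f2 : ℕ → ℝ := fun k => if k = 0 ∨ P.K ≤ k then 0 else nsq (β k) + (nsq (β k) / κ k) ^ 2
    with hf2
  have u2 : ∀ j < P.K, nsq (U S j (bg (j + 1))) ≤ f2 (j + 1) := by
    intro j hj
    by_cases hj1 : P.K ≤ j + 1
    · simp only [hbg, hf2, if_pos (Or.inr hj1 : j + 1 = 0 ∨ P.K ≤ j + 1)]
      rw [U_zero, nsq_zero]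
    · have hne : ¬ (j + 1 = 0 ∨ P.K ≤ j + 1) := by omega
      simp only [hbg, hf2, if_neg hne]
      rcases (hκ (j + 1)).eq_or_lt with h | h
      · have h5 : (0:ℝ) ≤ nsq (β (j + 1)) + (nsq (β (j + 1)) / κ (j + 1)) ^ 2 :=
          add_nonneg (hX _) (hXκ _)
        have h6 : nsq (U S j (bigp ((P.p (j + 1) : ℝ) ^ 5) (κ (j + 1)) (β (j + 1)))) = 0 := by
          rw [h0 (j + 1) (by omega) h.symm, bigp_zero, U_zero, nsq_zero]
        rw [h6]; exact h5
      · exact nsq_U_big hB hS hj (β (j + 1)) (κ (j + 1)) h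
  have hrb0 : ∀ k, 0 ≤ rb k := fun k => by
    simp only [hrb]; split_ifs
    · exact le_rfl
    · exact Real.sqrt_nonneg _
  have hf20 : ∀ k, 0 ≤ f2 k := fun k => by
    simp only [hf2]; split_ifs
    · exact le_rfl
    · exact add_nonneg (hX k) (hXκ k)
  have hrb2 : ∀ k, rb k ^ 2 ≤ nsq (β k) + P.p k * M k + (nsq (β k) / κ k) ^ 2 := fun k => by
    simp only [hrb]
    split_ifs
    · have := hX k; have := hXκ k; have := hpM k
      simp only [ne_eq, OfNat.ofNat_ne_zero, not_false_eq_true, zero_pow]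
      linarith
    · rw [sq_sqrt_add (hX k) (hpM k) (hXκ k)]
  have hf22 : ∀ k, f2 k ≤ nsq (β k) + (nsq (β k) / κ k) ^ 2 := fun k => by
    simp only [hf2]
    split_ifs
    · have := hX k; have := hXκ k
      linarith
    · exact le_rfl
  have hrm2 : ∀ k, rm k ^ 2 = nsq (β k) + κ k ^ 2 + (nsq (β k) / κ k) ^ 2 := fun k =>
    sq_sqrt_add (hX k) (hκ2 k) (hXκ k)
  have hrs2 : ∀ k, rs k ^ 2 = nsq (β k) + κ k ^ 2 + ((P.p (k + 1) : ℝ) ^ 40)⁻¹ * n1 (β k) ^ 2 :=
    fun k => sq_sqrt_add (hX k) (hκ2 k) (hY k)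
  -- the representation
  set b : P.A → ℝ := ∑ l ∈ range P.K, (U S l (sm l) - U S l (bg (l + 1))) with hb
  set β' : ℕ → Fin P.T → ℝ := fun j => bg (j + 1) + md j + shd 0 sm j with hβ'
  set ρ' : ℕ → ℝ := fun j => rb (j + 1) + rm j + shd 0 rs j with hρ'
  have hR0 : 0 ≤ nsq b + ∑ k ∈ range P.K, ρ' k ^ 2 :=
    add_nonneg (nsq_nonneg _) (sum_nonneg fun k _ => sq_nonneg _)
  refine ⟨Real.sqrt (nsq b + ∑ k ∈ range P.K, ρ' k ^ 2), ⟨Real.sqrt_nonneg _, b, β', ρ', ?_, ?_, ?_⟩,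
    ?_⟩
  · have e1 : ∑ k ∈ range P.K, W S k (β k)
        = ∑ k ∈ range P.K, W S k (bg k) + ∑ k ∈ range P.K, W S k (md k)
          + ∑ k ∈ range P.K, W S k (sm k) := by
      rw [← Finset.sum_add_distrib, ← Finset.sum_add_distrib]
      refine sum_congr rfl fun k hk => ?_
      rw [← W_add, ← W_add, ← hparts k (Finset.mem_range.mp hk)]
    rw [e1, sum_W_big bg (by simp [hbg]) (by simp [hbg]), sum_W_small sm, hb,
      Finset.sum_sub_distrib]
    simp only [hβ', W_add, Finset.sum_add_distrib]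
    abel
  · intro k hk
    exact ((cb1 k hk).add (cb2 k hk)).add (cb3 k hk)
  · rw [Real.sq_sqrt hR0]
  · rw [Real.sq_sqrt hR0]
    have n1' : nsq b ≤ ∑ k ∈ range P.K, (2 * (nsq (β k) + ((P.p (k + 1) : ℝ) ^ 40)⁻¹ * n1 (β k) ^ 2)
        + 2 * f2 k) := by
      have e : nsq b = ∑ l ∈ range P.K, nsq (U S l (sm l) - U S l (bg (l + 1))) := by
        rw [hb]
        refine nsq_sum_levels _ fun l _ => ?_
        rw [sub_eq_add_neg, ← neg_one_smul ℝ (U S l (bg (l + 1))), lv_add, lv_smul, lv_U, lv_U]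
      rw [e, Finset.sum_add_distrib]
      have h1 : ∑ l ∈ range P.K, nsq (U S l (sm l) - U S l (bg (l + 1)))
          ≤ ∑ k ∈ range P.K, 2 * (nsq (β k) + ((P.p (k + 1) : ℝ) ^ 40)⁻¹ * n1 (β k) ^ 2)
            + ∑ k ∈ range P.K, 2 * f2 (k + 1) := by
        rw [← Finset.sum_add_distrib]
        refine sum_le_sum fun l hl => ?_
        have a1 := nsq_add_le (U S l (sm l)) (-(U S l (bg (l + 1))))
        rw [nsq_neg, ← sub_eq_add_neg] at a1
        have a2 := u1 l (Finset.mem_range.mp hl)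
        have a3 := u2 l (Finset.mem_range.mp hl)
        linarith
      refine h1.trans (add_le_add le_rfl ?_)
      exact sum_shift_up_le (fun k => 2 * f2 k) (mul_nonneg (by norm_num) (hf20 0))
        (by simp [hf2])
    have n2' : ∑ k ∈ range P.K, ρ' k ^ 2
        ≤ ∑ k ∈ range P.K, (3 * (rb k ^ 2 + rm k ^ 2 + rs k ^ 2)) := by
      have h1 : ∑ k ∈ range P.K, ρ' k ^ 2
          ≤ ∑ k ∈ range P.K, 3 * rb (k + 1) ^ 2 + ∑ k ∈ range P.K, 3 * rm k ^ 2
            + ∑ k ∈ range P.K, shd 0 (fun k => 3 * rs k ^ 2) k := by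
        rw [← Finset.sum_add_distrib, ← Finset.sum_add_distrib]
        refine sum_le_sum fun k _ => ?_
        have e : shd 0 (fun k => 3 * rs k ^ 2) k = 3 * (shd 0 rs k) ^ 2 := by
          cases k with
          | zero => simp [shd]
          | succ k => rfl
        rw [e]
        simp only [hρ']
        nlinarith [sq_nonneg (rb (k + 1) - rm k), sq_nonneg (rb (k + 1) - shd 0 rs k),
          sq_nonneg (rm k - shd 0 rs k)]
      have h2 : ∑ k ∈ range P.K, 3 * rb (k + 1) ^ 2 ≤ ∑ k ∈ range P.K, 3 * rb k ^ 2 :=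
        sum_shift_up_le (fun k => 3 * rb k ^ 2) (by positivity) (by simp [hrb])
      have h3 : ∑ k ∈ range P.K, shd 0 (fun k => 3 * rs k ^ 2) k ≤ ∑ k ∈ range P.K, 3 * rs k ^ 2 :=
        sum_shd_le _ fun k => by positivity
      have h4 : ∑ k ∈ range P.K, (3 * (rb k ^ 2 + rm k ^ 2 + rs k ^ 2))
          = ∑ k ∈ range P.K, 3 * rb k ^ 2 + ∑ k ∈ range P.K, 3 * rm k ^ 2
            + ∑ k ∈ range P.K, 3 * rs k ^ 2 := by
        rw [← Finset.sum_add_distrib, ← Finset.sum_add_distrib]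
        exact sum_congr rfl fun k _ => by ring
      rw [h4]
      linarith
    refine (add_le_add n1' n2').trans ?_
    rw [← Finset.sum_add_distrib]
    refine sum_le_sum fun k _ => ?_
    have a1 := hrb2 k
    have a2 := hrm2 k
    have a3 := hrs2 k
    have a4 := hf22 k
    have a5 := hX k
    have a6 := hXκ k
    have a7 := hκ2 k
    have a8 := hY k
    have a9 := hpM k
    rw [a2, a3]
    linarith

end Pool.Agent.PEL
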