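import Pool.Agent.PEL.ClsE
import Pool.Agent.PEL.ClsA
import Pool.Agent.PEL.Nrm3

/-!
# PEL-CLS : the class lemma, final assembly (proof by helper73; parts ClsE, ClsD, ClsA)
-/

set_option autoImplicit false

namespace Pool.Agent.PEL

open Finset

variable {P : Par} {S : P.Sam}

theorem class_lemma (hB : P.Big) (hS : Good P S) (F : Submodule ℝ (P.A → ℝ))
    {I : Type} [Fintype I] [DecidableEq I] (z : ℕ → Fin P.T → I → ℝ) (κ : ℕ → ℝ)
    (hκ : ∀ k, 0 ≤ κ k)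
    (h1 : ∀ k < P.K, ∀ t, (P.p k : ℝ) * nm (z k t) ≤ κ k)
    (h2 : ∀ k < P.K, ∑ t, nsq (z k t) ≤ κ k ^ 2)
    (h3 : ∀ k < P.K, ∑ t, nm (z k t) ≤ (P.p (k + 1) : ℝ) ^ 20 * κ k) :
    av (fun ε : I → Bool => DN S F (∑ k ∈ range P.K, W S k (fun t => ss (z k t) ε)) ^ 2)
      ≤ 100 * ∑ k ∈ range P.K, κ k ^ 2 := by
  have hz : ∀ k < P.K, κ k = 0 → ∀ ε : I → Bool, bt (z k) ε = 0 := by
    intro k hk h0 ε
    funext t
    have a1 := h2 k hk
    rw [h0] at a1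
    have a2 : nsq (z k t) ≤ ∑ t, nsq (z k t) :=
      single_le_sum (f := fun t => nsq (z k t)) (fun i _ => nsq_nonneg _) (mem_univ t)
    have a3 : nsq (z k t) = 0 := le_antisymm (by nlinarith) (nsq_nonneg _)
    have a4 := nsq_eq_zero.mp a3
    simp [bt, ss, a4]
  set G : ℕ → (I → Bool) → ℝ := fun k ε =>
    13 * nsq (bt (z k) ε) + 8 * (nsq (bt (z k) ε) / κ k) ^ 2 + 3 * (P.p k * m4 (bt (z k) ε))
        + 6 * κ k ^ 2 + 5 * (((P.p (k + 1) : ℝ) ^ 40)⁻¹ * n1 (bt (z k) ε) ^ 2) with hG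
  have key : ∀ ε : I → Bool,
      DN S F (∑ k ∈ range P.K, W S k (fun t => ss (z k t) ε)) ^ 2 ≤ ∑ k ∈ range P.K, G k ε := by
    intro ε
    obtain ⟨R, hR, hR2⟩ := cls_rep hB hS (fun k => bt (z k) ε) κ (fun k => m4 (bt (z k) ε)) hκ
      (fun k hk h0 => hz k hk h0 ε) (fun k t => sq_le_m4 _ t)
    have a1 := DN_le_of_Rep hB hS F hR
    have a2 := DN_nonneg hB hS F (∑ k ∈ range P.K, W S k (bt (z k) ε))
    exact (pow_le_pow_left₀ a2 a1 2).trans hR2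
  refine (av_mono key).trans ?_
  rw [av_sum, mul_sum]
  refine sum_le_sum fun k hk => ?_
  have hk' := Finset.mem_range.mp hk
  have hp := hB.p_pos_real (k + 1)
  have b1 : av (fun ε : I → Bool => nsq (bt (z k) ε)) ≤ κ k ^ 2 :=
    (av_nsq_bt (z k)).trans_le (h2 k hk')
  have b2 : av (fun ε : I → Bool => (nsq (bt (z k) ε) / κ k) ^ 2) ≤ 3 * κ k ^ 2 := by
    rcases (hκ k).eq_or_lt with h | h
    · rw [← h]; simp [av]
    · have e : ∀ ε : I → Bool, (nsq (bt (z k) ε) / κ k) ^ 2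
          = (κ k ^ 2)⁻¹ * nsq (bt (z k) ε) ^ 2 := by
        intro ε; rw [div_pow]; ring
      rw [av_congr e, av_mul_left, inv_mul_le_iff₀ (by positivity)]
      have c1 : (∑ t, nsq (z k t)) ^ 2 ≤ (κ k ^ 2) ^ 2 :=
        pow_le_pow_left₀ (sum_nonneg fun t _ => nsq_nonneg _) (h2 k hk') 2
      have c2 := av_nsq_bt_sq (z k)
      calc av (fun ε : I → Bool => nsq (bt (z k) ε) ^ 2) ≤ 3 * (∑ t, nsq (z k t)) ^ 2 := c2
        _ ≤ 3 * (κ k ^ 2) ^ 2 := by linarith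
        _ = κ k ^ 2 * (3 * κ k ^ 2) := by ring
  have b3 : av (fun ε : I → Bool => (P.p k : ℝ) * m4 (bt (z k) ε)) ≤ 2 * κ k ^ 2 := by
    rw [av_mul_left]
    exact av_m4_bt (z k) (P.p k) (κ k) (Nat.cast_nonneg _) (hκ k) (h1 k hk') (h2 k hk')
  have b4 : av (fun ε : I → Bool => ((P.p (k + 1) : ℝ) ^ 40)⁻¹ * n1 (bt (z k) ε) ^ 2)
      ≤ κ k ^ 2 := by
    rw [av_mul_left, inv_mul_le_iff₀ (by positivity)]
    refine (av_n1_bt_sq (z k)).trans ?_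
    have := pow_le_pow_left₀ (sum_nonneg fun t _ => nm_nonneg _) (h3 k hk') 2
    refine this.trans (le_of_eq ?_)
    rw [mul_pow, ← pow_mul]
  have e : av (G k) = 13 * av (fun ε : I → Bool => nsq (bt (z k) ε))
      + 8 * av (fun ε : I → Bool => (nsq (bt (z k) ε) / κ k) ^ 2)
      + 3 * av (fun ε : I → Bool => (P.p k : ℝ) * m4 (bt (z k) ε)) + 6 * κ k ^ 2
      + 5 * av (fun ε : I → Bool => ((P.p (k + 1) : ℝ) ^ 40)⁻¹ * n1 (bt (z k) ε) ^ 2) := by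
    rw [← av_mul_left, ← av_mul_left, ← av_mul_left, ← av_mul_left]
    have ec : (6 * κ k ^ 2) = av (fun _ : I → Bool => 6 * κ k ^ 2) := (av_const _).symm
    rw [ec, ← av_add, ← av_add, ← av_add, ← av_add]
  rw [e]
  have := sq_nonneg (κ k)
  linarith

end Pool.Agent.PEL
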