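import Pool.Agent.PEL.CI1
import Pool.Agent.PEL.ClsLem

/-!
# PEL-CI2 : Claim I (section 2 of the text)

For every `t`: `φ_t x = ⟨w_t, L x⟩ ≤ ‖w_t‖_* nrm(Lx) ≤ a nrm x` on `F` (`Rep_sample`, `ip_le_nrm`); `lift`: `v_t` with `Rep S v_t a`; unfold
`Rep`: `b_t, β_{k,t}, ρ_{k,t}`. `α = avg_t β_{0,t}(t)`.
For given `x` put `q² = E nrm(x ε)²` (keep `x` unnormalized: all bounds are linear in `q`), `Y_b = E[ε_b x(ε)] ∈ F`
(a linear combination of the `x ε`), `∑_b |Y_b|² ≤ q²` (`bessel_vec`, `nm_le_nrm`).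
(a) `E⟨w(ε), L x(ε)⟩ = ∑_a σ_a (L Y_a)_a`; `ca2` for `M_ab = σ_a (L Y_b)_a`; `∑_{a,b} σ_a |(LY_b)_a| ≤ (nK)^{1/2} (∑_b |LY_b|²)^{1/2}
≤ (nK)^{1/2} 2Ka q`; `avg_t ∑ ε_a M_ab ε_b = avg_t ⟨w_t, L(∑_b ε_b^(t) Y_b)⟩ = avg_t ⟨v_t, ∑_b ε_b^(t) Y_b⟩`.
(b) `b_t` part: `≤ a (2)^{1/2} q` (`ca3`).
(c) `W_k` part, `M_k(a,b) = σ_a 1_{k ≤ a.1} (Y_b)_a`, `‖M_k‖_HS ≤ p_{k+1}^{-50} q`; `Ex` = union of the (P3)-sets of `M_k`, `k < K`, `B = univ`.
t ∈ Ex : `|∑_k W_k β_{k,t}| ≤ 2K² a`-like bound (`CB.nsq_W_le`), `|∑ ε_b Y_b| ≤ n^{1/2} q`, `|Ex|/T` tiny.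
s,t ∉ Ex, s ≠ t: `≤ m p_{k+1}^{-50} q · p_{k+1}^5 a`.  s = t ∉ Ex: `k ≥ 1`: `|β_{k,t}(t)| ≤ p_k^{-5} a`, `|tr M_k| ≤ K^{1/2} q`;
`k = 0`: `α tr M_0` up to `(|Ex|/T) a K^{1/2} q`, and `E⟨w(ε), α x(ε)⟩ = α ∑_a σ_a (Y_a)_a = α tr M_0`.
s ∈ Ex, t ∉ Ex: `∑_b ε_b^(t) Y_b = E[⟨ε^(t),ε⟩ x(ε)]`; the sum is `E⟨x(ε), ∑_k W_k (ss (z k s) ε)_s⟩`,
`z k s = 1_{s ∈ Ex} T^{-1} ∑_{t ∉ Ex} β_{k,t}(s) ε^(t)`, `κ_k² = 2 avg_t ρ_{k,t}² + a²/K` (`∑ ≤ 3a²`); class lemma with `F = ⊤` or `F`: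
`E ≤ (E DN²)^{1/2} q ≤ (300)^{1/2} a q ≤ 18 a q`. Conditions: `|z k s|² ≤ 2 avg β_{k,t}(s)²` (`ca4`), so (2) and `p_k^{10}|z|² ≤ κ²`;
(3): `|z k s| = T^{-1}∑ β_{k,t}(s)⟨ε^(t),y_s⟩`, `ca5`: `≤ m avg|β_{k,t}(s)| + T^{-1} 2n³ a n^{1/2}`, sum over `s ∈ Ex` (`|Ex| ≤ 2Kn³`).
-/

set_option autoImplicit false

namespace Pool.Agent.PEL

open Finset

variable {P : Par} {S : P.Sam}

/-! ### numbers -/

theorem ci2_n_ge (hB : P.Big) : (1000 * (P.K : ℝ)) ^ 20 ≤ (Fintype.card P.A : ℝ) := by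
  have h1 : (1000 * P.K) ^ 20 ≤ Fintype.card P.A := by
    refine le_trans hB.hm ?_
    rw [Par.card_A]
    have hK : 0 < P.K := by have := hB.hK; omega
    have h2 : P.N ((⟨0, hK⟩ : Fin P.K) : ℕ) ≤ ∑ l : Fin P.K, P.N l :=
      Finset.single_le_sum (f := fun l : Fin P.K => P.N l) (fun _ _ => Nat.zero_le _)
        (Finset.mem_univ (⟨0, hK⟩ : Fin P.K))
    refine le_trans ?_ h2
    show P.m ≤ P.N 0
    rw [Par.N_eq]
    exact (hB.m_le_p 0).trans (Nat.le_self_pow (by norm_num) _)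
  exact_mod_cast h1

theorem ci2_K_le (hB : P.Big) : (P.K : ℝ) ≤ (Fintype.card P.A : ℝ) := by
  have h1 := ci2_n_ge hB
  have h2 := hB.one_le_K
  have h3 : (1000 * (P.K : ℝ)) ≤ (1000 * (P.K : ℝ)) ^ 20 :=
    le_self_pow₀ (by linarith) (by norm_num)
  linarith

theorem ci2_K3_le (hB : P.Big) : 4 * (P.K : ℝ) ^ 3 ≤ (Fintype.card P.A : ℝ) := by
  have h1 := ci2_n_ge hB
  have h2 := hB.one_le_K
  have h3 : (1000 * (P.K : ℝ)) ^ 3 ≤ (1000 * (P.K : ℝ)) ^ 20 :=
    pow_le_pow_right₀ (by linarith) (by norm_num)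
  have h4 : 4 * (P.K : ℝ) ^ 3 ≤ (1000 * (P.K : ℝ)) ^ 3 := by
    rw [mul_pow]
    have : (0 : ℝ) ≤ (P.K : ℝ) ^ 3 := by positivity
    norm_num
    linarith
  linarith

theorem ci2_n_ge_100 (hB : P.Big) : (100 : ℝ) ≤ (Fintype.card P.A : ℝ) := by
  have h1 := ci2_n_ge hB
  have h2 := hB.one_le_K
  have h3 : (1000 * (P.K : ℝ)) ≤ (1000 * (P.K : ℝ)) ^ 20 :=
    le_self_pow₀ (by linarith) (by norm_num)
  linarith

theorem ci2_T_ge (hB : P.Big) : (Fintype.card P.A : ℝ) ^ 40 ≤ (P.T : ℝ) := by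
  exact_mod_cast hB.card_A_pow_le

/-- `c n^j ≤ T` for `c ≤ 100`, `j ≤ 20` -/
theorem ci2_T_ge' (hB : P.Big) {j : ℕ} (hj : j ≤ 20) :
    100 * (Fintype.card P.A : ℝ) ^ j ≤ (P.T : ℝ) := by
  refine le_trans ?_ (ci2_T_ge hB)
  have h1 := ci2_n_ge_100 hB
  set n : ℝ := (Fintype.card P.A : ℝ)
  have h0 : (1 : ℝ) ≤ n := by linarith
  calc 100 * n ^ j ≤ n * n ^ 20 := by
        apply mul_le_mul h1 (pow_le_pow_right₀ h0 hj) (by positivity) (by linarith)
    _ = n ^ 21 := by ring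
    _ ≤ n ^ 40 := pow_le_pow_right₀ h0 (by norm_num)

theorem ci2_nonempty_T (hB : P.Big) : Nonempty (Fin P.T) := ⟨⟨0, hB.T_pos⟩⟩

theorem ci2_av_T (f : Fin P.T → ℝ) : av f = (∑ t, f t) / (P.T : ℝ) := by
  unfold av; rw [Fintype.card_fin]

/-- average of a function supported on a small set -/
theorem ci2_av_ex (hB : P.Big) (Ex : Finset (Fin P.T)) (f : Fin P.T → ℝ) (c N : ℝ) (hc : 0 ≤ c)
    (hN : (Ex.card : ℝ) ≤ N) (hf : ∀ t ∈ Ex, f t ≤ c) :
    av (fun t => if t ∈ Ex then f t else 0) ≤ N * c / (P.T : ℝ) := by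
  rw [ci2_av_T]
  have hT : (0 : ℝ) < P.T := by exact_mod_cast hB.T_pos
  apply div_le_div_of_nonneg_right _ hT.le
  rw [Finset.sum_ite_mem, Finset.univ_inter]
  calc ∑ t ∈ Ex, f t ≤ ∑ t ∈ Ex, c := Finset.sum_le_sum hf
    _ = Ex.card * c := by rw [Finset.sum_const, nsmul_eq_mul]
    _ ≤ N * c := mul_le_mul_of_nonneg_right hN hc

/-! ### averages and linear maps -/

theorem ci2_av_eq {ι κ : Type} [Fintype ι] (c : ι → ℝ) (x : ι → κ → ℝ) :
    (fun a => av fun ε => c ε * x ε a) = ((Fintype.card ι : ℝ))⁻¹ • ∑ ε, c ε • x ε := by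
  funext a
  rw [Pi.smul_apply, Finset.sum_apply, smul_eq_mul]
  unfold av
  rw [div_eq_inv_mul]
  rfl

theorem ci2_av_mem {ι κ : Type} [Fintype ι] (F : Submodule ℝ (κ → ℝ)) (c : ι → ℝ)
    (x : ι → κ → ℝ) (hx : ∀ ε, x ε ∈ F) : (fun a => av fun ε => c ε * x ε a) ∈ F := by
  rw [ci2_av_eq]
  exact F.smul_mem _ (F.sum_mem fun ε _ => F.smul_mem _ (hx ε))

theorem ci2_av_map {ι κ : Type} [Fintype ι] (L : (κ → ℝ) →ₗ[ℝ] (κ → ℝ)) (c : ι → ℝ)
    (x : ι → κ → ℝ) :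
    L (fun a => av fun ε => c ε * x ε a) = fun a => av fun ε => c ε * L (x ε) a := by
  rw [ci2_av_eq, ci2_av_eq, map_smul, map_sum]
  congr 1
  exact sum_congr rfl fun ε _ => map_smul L _ _

theorem ci2_ip_av {ι κ : Type} [Fintype ι] [Fintype κ] (u : κ → ℝ) (c : ι → ℝ) (x : ι → κ → ℝ) :
    ip u (fun a => av fun ε => c ε * x ε a) = av fun ε => c ε * ip u (x ε) := by
  unfold ip
  have e : ∀ ε, c ε * ∑ i, u i * x ε i = ∑ i, u i * (c ε * x ε i) := by
    intro ε; rw [mul_sum]; exact sum_congr rfl fun i _ => by ring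
  rw [av_congr e, av_sum]
  exact sum_congr rfl fun i _ => (av_mul_left _ _).symm

/-! ### the operator `Y` -/

/-- `∑_b ε_b^(t) Y_b` -/
noncomputable def ci2Y (S : P.Sam) (Y : P.A → P.A → ℝ) (t : Fin P.T) : P.A → ℝ :=
  ∑ b, sg (S t b) • Y b

/-- `M_k` -/
noncomputable def ci2M (Y : P.A → P.A → ℝ) (k : ℕ) : P.A → P.A → ℝ := fun a b =>
  if k ≤ (a.1 : ℕ) then P.sig a * Y b a else 0

/-- `⟨ε^(s), M_k ε^(t)⟩` -/
noncomputable def ci2Q (S : P.Sam) (Y : P.A → P.A → ℝ) (k : ℕ) (s t : Fin P.T) : ℝ :=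
  ∑ a, ∑ b, sg (S s a) * ci2M Y k a b * sg (S t b)

theorem ci2_ipW (Y : P.A → P.A → ℝ) (k : ℕ) (β : Fin P.T → ℝ) (t : Fin P.T) :
    ip (W S k β) (ci2Y S Y t) = ∑ s, β s * ci2Q S Y k s t := by
  unfold ip ci2Q
  have e : ∀ s, β s * ∑ a, ∑ b, sg (S s a) * ci2M Y k a b * sg (S t b)
      = ∑ a, β s * (sg (S s a) * ∑ b, ci2M Y k a b * sg (S t b)) := by
    intro s
    rw [mul_sum]
    refine sum_congr rfl fun a _ => ?_
    rw [mul_sum (a := sg (S s a))]
    congr 1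
    exact sum_congr rfl fun b _ => by ring
  rw [sum_congr rfl fun s _ => e s, sum_comm]
  refine sum_congr rfl fun a _ => ?_
  have e2 : ci2Y S Y t a = ∑ b, sg (S t b) * Y b a := by
    unfold ci2Y; rw [Finset.sum_apply]; exact sum_congr rfl fun b _ => rfl
  rw [e2]
  simp only [W, V, ci2M]
  split_ifs with h
  · have e3 : ∑ b, P.sig a * Y b a * sg (S t b) = P.sig a * ∑ b, sg (S t b) * Y b a := by
      rw [mul_sum]; exact sum_congr rfl fun b _ => by ring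
    rw [e3]
    have e4 : ∑ s, β s * (sg (S s a) * (P.sig a * ∑ b, sg (S t b) * Y b a))
        = (∑ s, β s * sg (S s a)) * (P.sig a * ∑ b, sg (S t b) * Y b a) := by
      rw [sum_mul]; exact sum_congr rfl fun s _ => by ring
    rw [e4]
    ring
  · simp

theorem ci2_HS (hB : P.Big) (Y : P.A → P.A → ℝ) {q : ℝ} (hq : 0 ≤ q)
    (hY : ∑ b, nsq (Y b) ≤ q ^ 2) (k : ℕ) :
    Real.sqrt (∑ a, ∑ b, ci2M Y k a b ^ 2) ≤ ((P.p (k + 1) : ℝ) ^ 50)⁻¹ * q := by
  have hp : (0 : ℝ) < (P.p (k + 1) : ℝ) ^ 50 := pow_pos (hB.p_pos_real _) _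
  rw [Real.sqrt_le_left (by positivity)]
  have h1 : ∀ a b, ci2M Y k a b ^ 2 ≤ (((P.p (k + 1) : ℝ) ^ 50)⁻¹) ^ 2 * Y b a ^ 2 := by
    intro a b
    unfold ci2M
    split_ifs with h
    · rw [mul_pow]
      apply mul_le_mul_of_nonneg_right _ (sq_nonneg _)
      apply pow_le_pow_left₀ (Par.sig_pos hB a).le
      unfold Par.sig
      apply inv_anti₀ hp
      exact pow_le_pow_left₀ (hB.p_pos_real _).le (hB.p_mono_real (by omega)) _
    · rw [zero_pow two_ne_zero]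
      positivity
  calc ∑ a, ∑ b, ci2M Y k a b ^ 2
      ≤ ∑ a, ∑ b, (((P.p (k + 1) : ℝ) ^ 50)⁻¹) ^ 2 * Y b a ^ 2 :=
        sum_le_sum fun a _ => sum_le_sum fun b _ => h1 a b
    _ = (((P.p (k + 1) : ℝ) ^ 50)⁻¹) ^ 2 * ∑ b, nsq (Y b) := by
        rw [sum_comm, mul_sum]
        refine sum_congr rfl fun b _ => ?_
        unfold nsq
        rw [mul_sum]
    _ ≤ (((P.p (k + 1) : ℝ) ^ 50)⁻¹) ^ 2 * q ^ 2 :=
        mul_le_mul_of_nonneg_left hY (sq_nonneg _)
    _ = _ := by rw [mul_pow]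

theorem ci2_tr (hB : P.Big) (Y : P.A → P.A → ℝ) {q : ℝ} (hq : 0 ≤ q)
    (hY : ∑ b, nsq (Y b) ≤ q ^ 2) (k : ℕ) : |∑ a, ci2M Y k a a| ≤ P.K * q := by
  have hK := hB.one_le_K
  have h1 : |∑ a, ci2M Y k a a| ≤ ∑ a, P.sig a * |Y a a| := by
    refine (abs_sum_le_sum_abs _ _).trans (sum_le_sum fun a _ => ?_)
    unfold ci2M
    split_ifs with h
    · rw [abs_mul, abs_of_pos (Par.sig_pos hB a)]
    · rw [abs_zero]
      exact mul_nonneg (Par.sig_pos hB a).le (abs_nonneg _)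
  refine h1.trans ?_
  apply (abs_le_of_sq_le_sq' _ (by positivity)).2
  refine (sum_mul_sq_le_sq_mul_sq univ P.sig (fun a => |Y a a|)).trans ?_
  rw [Par.sum_sig_sq hB, mul_pow]
  have h2 : ∑ a, |Y a a| ^ 2 ≤ ∑ b, nsq (Y b) := by
    refine sum_le_sum fun a _ => ?_
    have := abs_le_nm (Y a) a
    calc |Y a a| ^ 2 ≤ nm (Y a) ^ 2 := pow_le_pow_left₀ (abs_nonneg _) this 2
      _ = nsq (Y a) := nm_sq _
  apply mul_le_mul _ (h2.trans hY) (sum_nonneg fun _ _ => sq_nonneg _) (by positivity)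
  nlinarith

theorem ci2_Y_nm (hB : P.Big) (Y : P.A → P.A → ℝ) {q : ℝ} (hq : 0 ≤ q)
    (hY : ∑ b, nsq (Y b) ≤ q ^ 2) (t : Fin P.T) :
    nm (ci2Y S Y t) ≤ (Fintype.card P.A : ℝ) * q := by
  have hn := ci2_n_ge_100 hB
  rw [nm_le_iff (by positivity)]
  unfold ci2Y
  refine (nsq_sum_le _ _).trans ?_
  rw [Finset.card_univ, mul_pow]
  have h1 : ∑ b, nsq (sg (S t b) • Y b) = ∑ b, nsq (Y b) :=
    sum_congr rfl fun b _ => by rw [nsq_smul, sg_sq, one_mul]
  rw [h1]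
  apply mul_le_mul _ hY (sum_nonneg fun _ _ => nsq_nonneg _) (by positivity)
  nlinarith

/-- the bound for the term `t ∈ Ex` -/
theorem ci2_A (hB : P.Big) (hS : Good P S) {a : ℝ} (ha : 0 ≤ a)
    (β : Fin P.T → ℕ → Fin P.T → ℝ) (ρ : Fin P.T → ℕ → ℝ)
    (hCB : ∀ t, ∀ k < P.K, CB P k (β t k) (ρ t k))
    (hρ : ∀ t, ∑ k ∈ range P.K, ρ t k ^ 2 ≤ a ^ 2)
    (Y : P.A → P.A → ℝ) {q : ℝ} (hq : 0 ≤ q) (hY : ∑ b, nsq (Y b) ≤ q ^ 2)
    (Ex : Finset (Fin P.T)) (hEx : (Ex.card : ℝ) ≤ 2 * P.K * (Fintype.card P.A : ℝ) ^ 3) :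
    av (fun t => if t ∈ Ex then ∑ k ∈ range P.K, ip (W S k (β t k)) (ci2Y S Y t) else 0)
      ≤ a * q := by
  have hn := ci2_n_ge_100 hB
  have hK := hB.one_le_K
  have hKn := ci2_K_le hB
  set n : ℝ := (Fintype.card P.A : ℝ) with hndef
  set K : ℝ := (P.K : ℝ) with hKdef
  have hT : (0 : ℝ) < P.T := by exact_mod_cast hB.T_pos
  have h1 : ∀ t, ∀ k < P.K, ρ t k ≤ a := by
    intro t k hk
    apply (abs_le_of_sq_le_sq' _ ha).2
    exact (single_le_sum (f := fun k => ρ t k ^ 2) (fun _ _ => sq_nonneg _)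
      (Finset.mem_range.mpr hk)).trans (hρ t)
  have h2 : ∀ t, ∑ k ∈ range P.K, ip (W S k (β t k)) (ci2Y S Y t) ≤ K * (2 * K * a * (n * q)) := by
    intro t
    have h3 : ∀ k ∈ range P.K, ip (W S k (β t k)) (ci2Y S Y t) ≤ 2 * K * a * (n * q) := by
      intro k hk
      have hk' := Finset.mem_range.mp hk
      refine (ip_le _ _).trans ?_
      apply mul_le_mul _ (ci2_Y_nm hB Y hq hY t) (nm_nonneg _) (by positivity)
      rw [nm_le_iff (by positivity)]
      refine (CB.nsq_W_le hB hS (hCB t k hk')).trans ?_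
      have h4 : ρ t k ^ 2 ≤ a ^ 2 := pow_le_pow_left₀ (hCB t k hk').nonneg (h1 t k hk') 2
      have h5 : (2 * K * a) ^ 2 = (4 * K ^ 2) * a ^ 2 := by ring
      rw [h5]
      apply mul_le_mul _ h4 (sq_nonneg _) (by positivity)
      nlinarith
    calc _ ≤ ∑ k ∈ range P.K, 2 * K * a * (n * q) := sum_le_sum h3
      _ = K * (2 * K * a * (n * q)) := by rw [sum_const, card_range, nsmul_eq_mul]
  refine (ci2_av_ex hB Ex _ (K * (2 * K * a * (n * q))) (2 * K * n ^ 3) (by positivity) hEx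
    (fun t _ => h2 t)).trans ?_
  rw [div_le_iff₀ hT]
  have h6 := ci2_T_ge' hB (j := 7) (by norm_num)
  rw [← hndef] at h6
  have h7 : K ^ 3 ≤ n ^ 3 := pow_le_pow_left₀ (by positivity) hKn 3
  calc 2 * K * n ^ 3 * (K * (2 * K * a * (n * q))) = (4 * K ^ 3 * n ^ 4) * (a * q) := by ring
    _ ≤ (100 * n ^ 7) * (a * q) := by
        apply mul_le_mul_of_nonneg_right _ (by positivity)
        calc 4 * K ^ 3 * n ^ 4 ≤ 100 * n ^ 3 * n ^ 4 := by
              apply mul_le_mul_of_nonneg_right _ (by positivity)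
              nlinarith [pow_nonneg (show (0:ℝ) ≤ n by linarith) 3]
          _ = 100 * n ^ 7 := by ring
    _ ≤ P.T * (a * q) := mul_le_mul_of_nonneg_right h6 (by positivity)
    _ = a * q * P.T := by ring

/-- `γ_{k,s}(t)` -/
def ci2g (β : Fin P.T → ℕ → Fin P.T → ℝ) (Ex : Finset (Fin P.T)) (k : ℕ) (s t : Fin P.T) : ℝ :=
  if t ∈ Ex then 0 else if s ∈ Ex then β t k s else 0

theorem ci2g_sq_le (β : Fin P.T → ℕ → Fin P.T → ℝ) (Ex : Finset (Fin P.T)) (k : ℕ)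
    (s t : Fin P.T) : ci2g β Ex k s t ^ 2 ≤ β t k s ^ 2 := by
  unfold ci2g
  split_ifs
  · rw [zero_pow two_ne_zero]; exact sq_nonneg _
  · exact le_rfl
  · rw [zero_pow two_ne_zero]; exact sq_nonneg _

theorem ci2g_abs_le (β : Fin P.T → ℕ → Fin P.T → ℝ) (Ex : Finset (Fin P.T)) (k : ℕ)
    (s t : Fin P.T) : |ci2g β Ex k s t| ≤ |β t k s| := by
  unfold ci2g
  split_ifs
  · rw [abs_zero]; exact abs_nonneg _
  · exact le_rfl
  · rw [abs_zero]; exact abs_nonneg _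

/-- `z_{k,s}` -/
noncomputable def ci2z (S : P.Sam) (β : Fin P.T → ℕ → Fin P.T → ℝ) (Ex : Finset (Fin P.T))
    (k : ℕ) (s : Fin P.T) : P.A → ℝ := fun a => av fun t => ci2g β Ex k s t * sg (S t a)

theorem ci2z_nsq (hB : P.Big) (hS : Good P S) (β : Fin P.T → ℕ → Fin P.T → ℝ)
    (Ex : Finset (Fin P.T)) (k : ℕ) (s : Fin P.T) :
    nsq (ci2z S β Ex k s) ≤ 2 * av fun t => β t k s ^ 2 := by
  refine (ca4 hB hS (ci2g β Ex k s)).trans ?_
  exact mul_le_mul_of_nonneg_left (av_mono fun t => ci2g_sq_le β Ex k s t) (by norm_num)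

theorem ci2z_nm (hB : P.Big) (hS : Good P S) {a : ℝ} (ha : 0 ≤ a)
    (β : Fin P.T → ℕ → Fin P.T → ℝ) (Ex : Finset (Fin P.T)) (k : ℕ) (s : Fin P.T)
    (hβ : ∀ t, |β t k s| ≤ a) :
    nm (ci2z S β Ex k s) ≤ P.m * av (fun t => |ci2g β Ex k s t|)
      + (if s ∈ Ex then 2 * (Fintype.card P.A : ℝ) ^ 4 * a / P.T else 0) := by
  have hn := ci2_n_ge_100 hB
  have hT : (0 : ℝ) < P.T := by exact_mod_cast hB.T_pos
  have hm := hB.m_pos_real
  by_cases hs : s ∈ Ex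
  swap
  · have h0 : ci2z S β Ex k s = 0 := by
      funext a'
      unfold ci2z ci2g
      simp only [if_neg hs, ite_self, zero_mul]
      simp [av]
    rw [h0, nm_zero, if_neg hs, add_zero]
    exact mul_nonneg (by linarith) (av_nonneg fun _ => abs_nonneg _)
  rw [if_pos hs]
  rcases eq_or_lt_of_le (nm_nonneg (ci2z S β Ex k s)) with h0 | h0
  · rw [← h0]
    have : 0 ≤ av fun t => |ci2g β Ex k s t| := av_nonneg fun _ => abs_nonneg _
    positivity
  set z := ci2z S β Ex k s with hz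
  set y : P.A → ℝ := (nm z)⁻¹ • z with hy
  have hy1 : nsq y ≤ 1 := by
    rw [hy, nsq_smul, ← nm_sq, ← mul_pow, inv_mul_cancel₀ h0.ne']
    norm_num
  obtain ⟨Ex', hEx', hbd⟩ := ca5 hB hS y hy1
  have e1 : nm z = ip y z := by
    rw [hy, ip_smul_left, ip_self, ← nm_sq]
    field_simp
  have e2 : ip y z = av fun t => ci2g β Ex k s t * ∑ a, y a * sg (S t a) := by
    rw [hz]
    unfold ci2z ip
    have e : ∀ t, ci2g β Ex k s t * ∑ a, y a * sg (S t a)
        = ∑ a, y a * (ci2g β Ex k s t * sg (S t a)) := by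
      intro t; rw [mul_sum]; exact sum_congr rfl fun i _ => by ring
    rw [av_congr e, av_sum]
    exact sum_congr rfl fun i _ => (av_mul_left _ _).symm
  have h1 : ∀ t, ci2g β Ex k s t * ∑ a, y a * sg (S t a) ≤
      P.m * |ci2g β Ex k s t| + (if t ∈ Ex' then (Fintype.card P.A : ℝ) * a else 0) := by
    intro t
    have h2 : ci2g β Ex k s t * ∑ a, y a * sg (S t a)
        ≤ |ci2g β Ex k s t| * |∑ a, y a * sg (S t a)| := by
      rw [← abs_mul]; exact le_abs_self _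
    refine h2.trans ?_
    by_cases ht : t ∈ Ex'
    · rw [if_pos ht]
      have h3 : |∑ a, y a * sg (S t a)| ≤ (Fintype.card P.A : ℝ) := by
        refine (abs_sum_le_sum_abs _ _).trans ?_
        calc ∑ a, |y a * sg (S t a)| ≤ ∑ a : P.A, (1 : ℝ) := by
              refine sum_le_sum fun a _ => ?_
              rw [abs_mul, abs_sg, mul_one]
              refine (abs_le_nm y a).trans ?_
              rw [nm_le_iff zero_le_one]
              linarith
          _ = _ := by rw [sum_const, card_univ, nsmul_eq_mul, mul_one]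
      have h4 : |ci2g β Ex k s t| ≤ a := (ci2g_abs_le β Ex k s t).trans (hβ t)
      have h5 : 0 ≤ (P.m : ℝ) * |ci2g β Ex k s t| := by positivity
      calc |ci2g β Ex k s t| * |∑ a, y a * sg (S t a)| ≤ a * (Fintype.card P.A : ℝ) :=
            mul_le_mul h4 h3 (abs_nonneg _) ha
        _ ≤ _ := by linarith
    · rw [if_neg ht, add_zero, mul_comm (P.m : ℝ)]
      exact mul_le_mul_of_nonneg_left (hbd t ht) (abs_nonneg _)
  rw [e1, e2]
  refine (av_mono h1).trans ?_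
  rw [av_add, av_mul_left]
  apply add_le_add le_rfl
  refine (ci2_av_ex hB Ex' (fun _ => (Fintype.card P.A : ℝ) * a) ((Fintype.card P.A : ℝ) * a)
    (2 * (Fintype.card P.A : ℝ) ^ 3) (by positivity) (by exact_mod_cast hEx')
    (fun _ _ => le_rfl)).trans ?_
  apply div_le_div_of_nonneg_right _ hT.le
  apply le_of_eq; ring

theorem ci2_cls (hB : P.Big) (hS : Good P S) (F : Submodule ℝ (P.A → ℝ)) {a : ℝ} (ha : 0 ≤ a)
    (β : Fin P.T → ℕ → Fin P.T → ℝ) (ρ : Fin P.T → ℕ → ℝ)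
    (hCB : ∀ t, ∀ k < P.K, CB P k (β t k) (ρ t k))
    (hρ : ∀ t, ∑ k ∈ range P.K, ρ t k ^ 2 ≤ a ^ 2)
    (Ex : Finset (Fin P.T)) (hEx : (Ex.card : ℝ) ≤ 2 * P.K * (Fintype.card P.A : ℝ) ^ 3) :
    av (fun ε : P.A → Bool =>
      DN S F (∑ k ∈ range P.K, W S k (fun s => ss (ci2z S β Ex k s) ε)) ^ 2) ≤ 300 * a ^ 2 := by
  have hn := ci2_n_ge_100 hB
  have hK := hB.one_le_K
  have hKn := ci2_K_le hB
  have hT : (0 : ℝ) < P.T := by exact_mod_cast hB.T_pos
  have := ci2_nonempty_T hB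
  set κ : ℕ → ℝ := fun k => Real.sqrt (2 * av (fun t => ρ t k ^ 2) + a ^ 2 / P.K) with hκ
  have hκ0 : ∀ k, 0 ≤ κ k := fun k => Real.sqrt_nonneg _
  have havn : ∀ k, 0 ≤ av (fun t => ρ t k ^ 2) := fun k => av_nonneg fun _ => sq_nonneg _
  have hκsq : ∀ k, κ k ^ 2 = 2 * av (fun t => ρ t k ^ 2) + a ^ 2 / P.K := by
    intro k
    apply Real.sq_sqrt
    have := havn k
    positivity
  have h2le : ∀ k, 2 * av (fun t => ρ t k ^ 2) ≤ κ k ^ 2 := by
    intro k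
    rw [hκsq]
    have : 0 ≤ a ^ 2 / (P.K : ℝ) := by positivity
    linarith
  have hρa : ∀ t, ∀ k < P.K, ρ t k ≤ a := by
    intro t k hk
    apply (abs_le_of_sq_le_sq' _ ha).2
    exact (single_le_sum (f := fun k => ρ t k ^ 2) (fun _ _ => sq_nonneg _)
      (Finset.mem_range.mpr hk)).trans (hρ t)
  -- `a ≤ K κ`
  have haκ : ∀ k, a ≤ P.K * κ k := by
    intro k
    apply (abs_le_of_sq_le_sq' _ (mul_nonneg (by linarith) (hκ0 k))).2
    rw [mul_pow, hκsq]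
    have h1 := havn k
    have h2 : (P.K : ℝ) ^ 2 * (a ^ 2 / P.K) = P.K * a ^ 2 := by
      field_simp
    rw [mul_add, h2]
    have h3 : a ^ 2 ≤ P.K * a ^ 2 := by nlinarith [sq_nonneg a]
    have h4 : 0 ≤ (P.K : ℝ) ^ 2 * (2 * av fun t => ρ t k ^ 2) := by positivity
    linarith
  have c2 : ∀ k < P.K, ∑ s, nsq (ci2z S β Ex k s) ≤ κ k ^ 2 := by
    intro k hk
    refine le_trans ?_ (h2le k)
    calc ∑ s, nsq (ci2z S β Ex k s) ≤ ∑ s, 2 * av fun t => β t k s ^ 2 :=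
          sum_le_sum fun s _ => ci2z_nsq hB hS β Ex k s
      _ = 2 * av (fun t => nsq (β t k)) := by
          rw [← mul_sum, ← av_sum]; rfl
      _ ≤ 2 * av (fun t => ρ t k ^ 2) :=
          mul_le_mul_of_nonneg_left (av_mono fun t => (hCB t k hk).two) (by norm_num)
  have c1 : ∀ k < P.K, ∀ s, (P.p k : ℝ) * nm (ci2z S β Ex k s) ≤ κ k := by
    intro k hk s
    apply (abs_le_of_sq_le_sq' _ (hκ0 k)).2
    have hp := hB.one_le_p_real k
    rw [mul_pow, nm_sq]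
    refine le_trans ?_ (h2le k)
    calc (P.p k : ℝ) ^ 2 * nsq (ci2z S β Ex k s)
        ≤ (P.p k : ℝ) ^ 10 * (2 * av fun t => β t k s ^ 2) := by
          apply mul_le_mul (pow_le_pow_right₀ hp (by norm_num)) (ci2z_nsq hB hS β Ex k s)
            (nsq_nonneg _) (by positivity)
      _ = 2 * av (fun t => (P.p k : ℝ) ^ 10 * β t k s ^ 2) := by rw [av_mul_left]; ring
      _ ≤ 2 * av (fun t => ρ t k ^ 2) :=
          mul_le_mul_of_nonneg_left (av_mono fun t => (hCB t k hk).inf s) (by norm_num)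
  have c3 : ∀ k < P.K, ∑ s, nm (ci2z S β Ex k s) ≤ (P.p (k + 1) : ℝ) ^ 20 * κ k := by
    intro k hk
    have hb : ∀ s t, |β t k s| ≤ a := by
      intro s t
      refine (abs_le_nm _ s).trans ?_
      rw [nm_le_iff ha]
      exact (hCB t k hk).two.trans (pow_le_pow_left₀ (hCB t k hk).nonneg (hρa t k hk) 2)
    have h1 : ∑ s, nm (ci2z S β Ex k s) ≤
        P.m * av (fun t => n1 (β t k)) + Ex.card * (2 * (Fintype.card P.A : ℝ) ^ 4 * a / P.T) := by
      calc ∑ s, nm (ci2z S β Ex k s)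
          ≤ ∑ s, (P.m * av (fun t => |ci2g β Ex k s t|)
            + (if s ∈ Ex then 2 * (Fintype.card P.A : ℝ) ^ 4 * a / P.T else 0)) :=
            sum_le_sum fun s _ => ci2z_nm hB hS ha β Ex k s (hb s)
        _ = P.m * av (fun t => ∑ s, |ci2g β Ex k s t|)
            + Ex.card * (2 * (Fintype.card P.A : ℝ) ^ 4 * a / P.T) := by
            rw [sum_add_distrib, ← mul_sum, ← av_sum, Finset.sum_ite_mem, Finset.univ_inter,
              sum_const, nsmul_eq_mul]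
        _ ≤ _ := by
            apply add_le_add _ le_rfl
            apply mul_le_mul_of_nonneg_left _ (by linarith [hB.m_pos_real])
            exact av_mono fun t => sum_le_sum fun s _ => ci2g_abs_le β Ex k s t
    have hp1 := hB.one_le_p_real (k + 1)
    have hmp := hB.m_le_p_real k
    have hm1 := hB.m_pos_real
    have h2 : av (fun t => n1 (β t k)) ≤ (P.p (k + 1) : ℝ) ^ 5 * κ k := by
      calc av (fun t => n1 (β t k)) ≤ av (fun t => (P.p (k + 1) : ℝ) ^ 5 * ρ t k) :=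
            av_mono fun t => (hCB t k hk).one
        _ = (P.p (k + 1) : ℝ) ^ 5 * av (fun t => ρ t k) := av_mul_left _ _
        _ ≤ (P.p (k + 1) : ℝ) ^ 5 * κ k := by
            apply mul_le_mul_of_nonneg_left _ (by positivity)
            apply (abs_le_of_sq_le_sq' _ (hκ0 k)).2
            refine (sq_av_le _).trans ?_
            refine le_trans ?_ (h2le k)
            linarith [havn k]
    have h3 : Ex.card * (2 * (Fintype.card P.A : ℝ) ^ 4 * a / P.T) ≤ κ k := by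
      set n : ℝ := (Fintype.card P.A : ℝ) with hndef
      have h6 := ci2_T_ge' hB (j := 9) (by norm_num)
      rw [← hndef] at h6
      have h4 : (Ex.card : ℝ) * (2 * n ^ 4 * a / P.T) = (Ex.card * (2 * n ^ 4) * a) / P.T := by
        ring
      rw [h4, div_le_iff₀ hT]
      calc (Ex.card : ℝ) * (2 * n ^ 4) * a ≤ (2 * P.K * n ^ 3) * (2 * n ^ 4) * (P.K * κ k) := by
            apply mul_le_mul (mul_le_mul_of_nonneg_right hEx (by positivity)) (haκ k) ha
              (by positivity)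
        _ = (4 * (P.K * P.K) * n ^ 7) * κ k := by ring
        _ ≤ (100 * n ^ 9) * κ k := by
            apply mul_le_mul_of_nonneg_right _ (hκ0 k)
            have h7 : (P.K : ℝ) * P.K ≤ n * n := mul_le_mul hKn hKn (by linarith) (by linarith)
            calc 4 * ((P.K : ℝ) * P.K) * n ^ 7 ≤ 4 * (n * n) * n ^ 7 := by
                  apply mul_le_mul_of_nonneg_right _ (by positivity); linarith
              _ = 4 * n ^ 9 := by ring
              _ ≤ 100 * n ^ 9 := by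
                  have : 0 ≤ n ^ 9 := by positivity
                  linarith
        _ ≤ κ k * P.T := by rw [mul_comm]; exact mul_le_mul_of_nonneg_left h6 (hκ0 k)
    refine h1.trans ?_
    have hp2 : (2 : ℝ) ≤ P.p (k + 1) := by
      have := hB.K_pow_le_real k
      have h8 : (1000 * (P.K : ℝ)) ≤ (1000 * (P.K : ℝ)) ^ 20 :=
        le_self_pow₀ (by linarith) (by norm_num)
      linarith
    calc (P.m : ℝ) * av (fun t => n1 (β t k))
          + Ex.card * (2 * (Fintype.card P.A : ℝ) ^ 4 * a / P.T)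
        ≤ (P.p (k + 1) : ℝ) * ((P.p (k + 1) : ℝ) ^ 5 * κ k) + κ k := by
          apply add_le_add _ h3
          exact mul_le_mul hmp h2 (av_nonneg fun _ => n1_nonneg _) (by positivity)
      _ = ((P.p (k + 1) : ℝ) ^ 6 + 1) * κ k := by ring
      _ ≤ (P.p (k + 1) : ℝ) ^ 20 * κ k := by
          apply mul_le_mul_of_nonneg_right _ (hκ0 k)
          have h9 : (P.p (k + 1) : ℝ) ^ 7 ≤ (P.p (k + 1) : ℝ) ^ 20 :=
            pow_le_pow_right₀ hp1 (by norm_num)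
          have h10 : 1 ≤ (P.p (k + 1) : ℝ) ^ 6 := one_le_pow₀ hp1
          nlinarith
  have h := class_lemma hB hS F (ci2z S β Ex) κ hκ0 c1 c2 c3
  refine h.trans ?_
  have h5 : ∑ k ∈ range P.K, κ k ^ 2 ≤ 3 * a ^ 2 := by
    rw [sum_congr rfl fun k _ => hκsq k, sum_add_distrib, ← mul_sum, ← av_sum, sum_const,
      card_range, nsmul_eq_mul]
    have h6 : (P.K : ℝ) * (a ^ 2 / P.K) = a ^ 2 := by field_simp
    rw [h6]
    have h7 : av (fun t => ∑ k ∈ range P.K, ρ t k ^ 2) ≤ a ^ 2 := by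
      refine (av_mono hρ).trans ?_
      rw [av_const]
    linarith
  linarith

/-- `Y_b = E[ε_b x(ε)]` -/
noncomputable def ci2X (x : P.Om → P.A → ℝ) (b : P.A) : P.A → ℝ :=
  fun a => av fun ε : P.Om => sg (ε b) * x ε a

theorem ci2_ip_Y (x : P.Om → P.A → ℝ) (u : P.A → ℝ) (t : Fin P.T) :
    ip u (ci2Y S (ci2X x) t)
      = av fun ε : P.Om => (∑ b, sg (S t b) * sg (ε b)) * ip u (x ε) := by
  unfold ci2Y
  rw [ip_sum_right]
  have e : ∀ b, ip u (sg (S t b) • ci2X x b)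
      = av fun ε : P.Om => sg (S t b) * sg (ε b) * ip u (x ε) := by
    intro b
    rw [ip_smul_right]
    unfold ci2X
    rw [ci2_ip_av, ← av_mul_left]
    exact av_congr fun ε => by ring
  rw [sum_congr rfl fun b _ => e b, ← av_sum]
  exact av_congr fun ε => (sum_mul _ _ _).symm

theorem ci2_ss_z (β : Fin P.T → ℕ → Fin P.T → ℝ) (Ex : Finset (Fin P.T)) (k : ℕ) (s : Fin P.T)
    (ε : P.Om) :
    ss (ci2z S β Ex k s) ε
      = av fun t => ci2g β Ex k s t * ∑ a, sg (S t a) * sg (ε a) := by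
  unfold ss ci2z
  have e : ∀ t, ci2g β Ex k s t * ∑ a, sg (S t a) * sg (ε a)
      = ∑ a, (ci2g β Ex k s t * sg (S t a)) * sg (ε a) := by
    intro t; rw [mul_sum]; exact sum_congr rfl fun a _ => by ring
  rw [av_congr e, av_sum]
  exact sum_congr rfl fun a _ => (av_mul_right _ _).symm

theorem ci2_W_expand (k : ℕ) (β : Fin P.T → ℝ) (x : P.A → ℝ) :
    ip (W S k β) x = ∑ s, β s * ip (W S k (Pi.single s 1)) x := by
  have e : β = ∑ s, β s • (Pi.single s (1 : ℝ) : Fin P.T → ℝ) := by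
    funext t
    rw [Finset.sum_apply, Finset.sum_eq_single t]
    · simp
    · intro b _ hb; simp [Ne.symm hb]
    · intro h; exact absurd (mem_univ _) h
  conv_lhs => rw [e]
  rw [W_sum, ip_sum_left]
  exact sum_congr rfl fun s _ => by rw [W_smul, ip_smul_left]

theorem ci2_Q_single (Y : P.A → P.A → ℝ) (k : ℕ) (s t : Fin P.T) :
    ip (W S k (Pi.single s 1)) (ci2Y S Y t) = ci2Q S Y k s t := by
  rw [ci2_ipW, Finset.sum_eq_single s]
  · simp
  · intro b _ hb; simp [hb]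
  · intro h; exact absurd (mem_univ _) h

/-- `E ⟨Λ(ε), x(ε)⟩` -/
theorem ci2_Lam (x : P.Om → P.A → ℝ) (β : Fin P.T → ℕ → Fin P.T → ℝ) (Ex : Finset (Fin P.T)) :
    av (fun ε : P.Om => ip (∑ k ∈ range P.K, W S k (fun s => ss (ci2z S β Ex k s) ε)) (x ε))
      = av fun t => ∑ k ∈ range P.K, ∑ s, ci2g β Ex k s t * ci2Q S (ci2X x) k s t := by
  have e1 : ∀ ε : P.Om, ip (∑ k ∈ range P.K, W S k (fun s => ss (ci2z S β Ex k s) ε)) (x ε)
      = ∑ k ∈ range P.K, ∑ s, ss (ci2z S β Ex k s) ε * ip (W S k (Pi.single s 1)) (x ε) := by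
    intro ε
    rw [ip_sum_left]
    exact sum_congr rfl fun k _ => ci2_W_expand k _ _
  rw [av_congr e1, av_sum, av_sum]
  refine sum_congr rfl fun k _ => ?_
  rw [av_sum, av_sum]
  refine sum_congr rfl fun s _ => ?_
  have e2 : ∀ ε : P.Om, ss (ci2z S β Ex k s) ε * ip (W S k (Pi.single s 1)) (x ε)
      = av fun t => ci2g β Ex k s t *
        ((∑ b, sg (S t b) * sg (ε b)) * ip (W S k (Pi.single s 1)) (x ε)) := by
    intro ε
    rw [ci2_ss_z, ← av_mul_right]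
    exact av_congr fun t => by ring
  rw [av_congr e2, av_comm]
  refine av_congr fun t => ?_
  rw [av_mul_left, ← ci2_ip_Y, ci2_Q_single]

/-- the term `s ∈ Ex`, `t ∉ Ex` -/
theorem ci2_D (hB : P.Big) (hS : Good P S) (F : Submodule ℝ (P.A → ℝ)) {a : ℝ} (ha : 0 ≤ a)
    (β : Fin P.T → ℕ → Fin P.T → ℝ) (ρ : Fin P.T → ℕ → ℝ)
    (hCB : ∀ t, ∀ k < P.K, CB P k (β t k) (ρ t k))
    (hρ : ∀ t, ∑ k ∈ range P.K, ρ t k ^ 2 ≤ a ^ 2)
    (Ex : Finset (Fin P.T)) (hEx : (Ex.card : ℝ) ≤ 2 * P.K * (Fintype.card P.A : ℝ) ^ 3)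
    (x : P.Om → P.A → ℝ) (hx : ∀ ε, x ε ∈ F) :
    av (fun t => if t ∈ Ex then 0 else
      ∑ k ∈ range P.K, ∑ s ∈ Ex, β t k s * ci2Q S (ci2X x) k s t)
      ≤ 18 * a * Real.sqrt (av fun ε => nrm S (x ε) ^ 2) := by
  have e1 : ∀ t, (if t ∈ Ex then 0 else
      ∑ k ∈ range P.K, ∑ s ∈ Ex, β t k s * ci2Q S (ci2X x) k s t)
      = ∑ k ∈ range P.K, ∑ s, ci2g β Ex k s t * ci2Q S (ci2X x) k s t := by
    intro t
    unfold ci2g
    by_cases ht : t ∈ Ex
    · rw [if_pos ht]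
      simp [ht]
    · rw [if_neg ht]
      refine sum_congr rfl fun k _ => ?_
      simp only [if_neg ht, ite_mul, zero_mul]
      rw [Finset.sum_ite_mem, Finset.univ_inter]
  rw [av_congr e1, ← ci2_Lam]
  refine (av_mono fun ε => ip_le_DN hB hS (hx ε) _).trans ?_
  refine (av_mul_le_sqrt _ _).trans ?_
  apply mul_le_mul_of_nonneg_right _ (Real.sqrt_nonneg _)
  rw [Real.sqrt_le_left (by positivity)]
  refine (ci2_cls hB hS F ha β ρ hCB hρ Ex hEx).trans ?_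
  nlinarith [sq_nonneg a]

/-- the terms `s, t ∉ Ex` -/
theorem ci2_BC (hB : P.Big) {a : ℝ} (ha : 0 ≤ a)
    (β : Fin P.T → ℕ → Fin P.T → ℝ) (ρ : Fin P.T → ℕ → ℝ)
    (hCB : ∀ t, ∀ k < P.K, CB P k (β t k) (ρ t k))
    (hρ : ∀ t, ∑ k ∈ range P.K, ρ t k ^ 2 ≤ a ^ 2)
    (Y : P.A → P.A → ℝ) {q : ℝ} (hq : 0 ≤ q) (hY : ∑ b, nsq (Y b) ≤ q ^ 2)
    (Ex : Finset (Fin P.T))
    (hQ : ∀ k < P.K, ∀ s t, s ∉ Ex → t ∉ Ex →
      |ci2Q S Y k s t - (if s = t then ∑ a, ci2M Y k a a else 0)| ≤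
        (P.m : ℝ) * Real.sqrt (∑ a, ∑ b, ci2M Y k a b ^ 2))
    (t : Fin P.T) (ht : t ∉ Ex) :
    ∑ k ∈ range P.K, ∑ s ∈ Exᶜ, β t k s * ci2Q S Y k s t
      ≤ β t 0 t * ∑ a, ci2M Y 0 a a + 2 * (a * q) := by
  have hK := hB.one_le_K
  have hK0 : (0 : ℝ) < P.K := by linarith
  have hρa : ∀ t, ∀ k < P.K, ρ t k ≤ a := by
    intro t k hk
    apply (abs_le_of_sq_le_sq' _ ha).2
    exact (single_le_sum (f := fun k => ρ t k ^ 2) (fun _ _ => sq_nonneg _)
      (Finset.mem_range.mpr hk)).trans (hρ t)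
  have haq : 0 ≤ a * q := mul_nonneg ha hq
  have key : ∀ k ∈ range P.K, ∑ s ∈ Exᶜ, β t k s * ci2Q S Y k s t
      ≤ (if k = 0 then β t 0 t * ∑ a, ci2M Y 0 a a else 0) + 2 * (a * q / P.K) := by
    intro k hk
    have hk' := Finset.mem_range.mp hk
    have hp1 := hB.one_le_p_real (k + 1)
    have hp0 := hB.p_pos_real (k + 1)
    have hKp : (P.K : ℝ) ≤ P.p (k + 1) := by
      have := hB.K_pow_le_real k
      have h8 : (1000 * (P.K : ℝ)) ≤ (1000 * (P.K : ℝ)) ^ 20 :=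
        le_self_pow₀ (by linarith) (by norm_num)
      linarith
    -- the off-diagonal error
    have h1 : ∑ s ∈ Exᶜ, β t k s * ci2Q S Y k s t
        ≤ β t k t * ∑ a, ci2M Y k a a + a * q / P.K := by
      have e1 : ∑ s ∈ Exᶜ, β t k s * (if s = t then ∑ a, ci2M Y k a a else 0)
          = β t k t * ∑ a, ci2M Y k a a := by
        rw [Finset.sum_eq_single t]
        · rw [if_pos rfl]
        · intro s _ hs; rw [if_neg hs, mul_zero]
        · intro h; exact absurd (by simpa using ht) h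
      have e2 : ∑ s ∈ Exᶜ, β t k s * ci2Q S Y k s t
          = β t k t * ∑ a, ci2M Y k a a
            + ∑ s ∈ Exᶜ, β t k s * (ci2Q S Y k s t - (if s = t then ∑ a, ci2M Y k a a else 0)) := by
        rw [← e1, ← sum_add_distrib]
        exact sum_congr rfl fun s _ => by ring
      rw [e2]
      apply add_le_add le_rfl
      calc ∑ s ∈ Exᶜ, β t k s * (ci2Q S Y k s t - (if s = t then ∑ a, ci2M Y k a a else 0))
          ≤ ∑ s ∈ Exᶜ, |β t k s| * ((P.m : ℝ) * (((P.p (k + 1) : ℝ) ^ 50)⁻¹ * q)) := by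
            refine sum_le_sum fun s hs => ?_
            have hs' : s ∉ Ex := by simpa using hs
            refine (le_abs_self _).trans ?_
            rw [abs_mul]
            apply mul_le_mul_of_nonneg_left _ (abs_nonneg _)
            refine (hQ k hk' s t hs' ht).trans ?_
            exact mul_le_mul_of_nonneg_left (ci2_HS hB Y hq hY k) (by positivity)
        _ ≤ n1 (β t k) * ((P.m : ℝ) * (((P.p (k + 1) : ℝ) ^ 50)⁻¹ * q)) := by
            rw [← sum_mul]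
            apply mul_le_mul_of_nonneg_right _ (by positivity)
            exact sum_le_sum_of_subset_of_nonneg (subset_univ _) fun _ _ _ => abs_nonneg _
        _ ≤ ((P.p (k + 1) : ℝ) ^ 5 * a) * ((P.p (k + 1) : ℝ) * (((P.p (k + 1) : ℝ) ^ 50)⁻¹ * q)) := by
            apply mul_le_mul _ _ (by positivity) (by positivity)
            · exact (hCB t k hk').one.trans (mul_le_mul_of_nonneg_left (hρa t k hk') (by positivity))
            · exact mul_le_mul_of_nonneg_right (hB.m_le_p_real k) (by positivity)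
        _ = a * q * ((P.p (k + 1) : ℝ) ^ 6 / (P.p (k + 1) : ℝ) ^ 50) := by
            rw [div_eq_mul_inv]; ring
        _ ≤ a * q * (1 / P.K) := by
            apply mul_le_mul_of_nonneg_left _ haq
            rw [div_le_div_iff₀ (by positivity) hK0]
            calc (P.p (k + 1) : ℝ) ^ 6 * P.K ≤ (P.p (k + 1) : ℝ) ^ 6 * P.p (k + 1) :=
                  mul_le_mul_of_nonneg_left hKp (by positivity)
              _ = (P.p (k + 1) : ℝ) ^ 7 := by ring
              _ ≤ (P.p (k + 1) : ℝ) ^ 50 := pow_le_pow_right₀ hp1 (by norm_num)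
              _ = 1 * (P.p (k + 1) : ℝ) ^ 50 := (one_mul _).symm
        _ = a * q / P.K := by ring
    refine h1.trans ?_
    have haqK : 0 ≤ a * q / P.K := div_nonneg haq hK0.le
    by_cases h0 : k = 0
    · subst h0
      rw [if_pos rfl]
      linarith
    · rw [if_neg h0, zero_add]
      obtain ⟨j, rfl⟩ : ∃ j, k = j + 1 := ⟨k - 1, by omega⟩
      have hpj1 := hB.one_le_p_real (j + 1)
      have hpj0 := hB.p_pos_real (j + 1)
      have hKpj : (P.K : ℝ) ≤ P.p (j + 1) := by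
        have := hB.K_pow_le_real j
        have h8 : (1000 * (P.K : ℝ)) ≤ (1000 * (P.K : ℝ)) ^ 20 :=
          le_self_pow₀ (by linarith) (by norm_num)
        linarith
      have h2 : (P.p (j + 1) : ℝ) ^ 5 * |β t (j + 1) t| ≤ a := by
        apply (abs_le_of_sq_le_sq' _ ha).2
        calc ((P.p (j + 1) : ℝ) ^ 5 * |β t (j + 1) t|) ^ 2
            = (P.p (j + 1) : ℝ) ^ 10 * β t (j + 1) t ^ 2 := by rw [mul_pow, sq_abs]; ring
          _ ≤ ρ t (j + 1) ^ 2 := (hCB t (j + 1) hk').inf t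
          _ ≤ a ^ 2 := pow_le_pow_left₀ (hCB t _ hk').nonneg (hρa t _ hk') 2
      have h3 : β t (j + 1) t * ∑ a, ci2M Y (j + 1) a a ≤ a * q / P.K := by
        rw [le_div_iff₀ hK0]
        calc β t (j + 1) t * (∑ a, ci2M Y (j + 1) a a) * P.K
            ≤ |β t (j + 1) t| * (P.K * q) * P.K := by
              apply mul_le_mul_of_nonneg_right _ hK0.le
              refine (le_abs_self _).trans ?_
              rw [abs_mul]
              exact mul_le_mul_of_nonneg_left (ci2_tr hB Y hq hY (j + 1)) (abs_nonneg _)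
          _ = (|β t (j + 1) t| * ((P.K : ℝ) * P.K)) * q := by ring
          _ ≤ ((P.p (j + 1) : ℝ) ^ 5 * |β t (j + 1) t|) * q := by
              apply mul_le_mul_of_nonneg_right _ hq
              rw [mul_comm]
              apply mul_le_mul_of_nonneg_right _ (abs_nonneg _)
              calc (P.K : ℝ) * P.K ≤ (P.p (j + 1) : ℝ) * P.p (j + 1) :=
                    mul_le_mul hKpj hKpj hK0.le hpj0.le
                _ = (P.p (j + 1) : ℝ) ^ 2 := by ring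
                _ ≤ (P.p (j + 1) : ℝ) ^ 5 := pow_le_pow_right₀ hpj1 (by norm_num)
          _ ≤ a * q := mul_le_mul_of_nonneg_right h2 hq
      linarith
  refine (sum_le_sum key).trans ?_
  rw [sum_add_distrib, sum_const, card_range, nsmul_eq_mul]
  have e3 : ∑ k ∈ range P.K, (if k = 0 then β t 0 t * ∑ a, ci2M Y 0 a a else 0)
      = β t 0 t * ∑ a, ci2M Y 0 a a := by
    rw [Finset.sum_ite_eq' (range P.K) 0, if_pos]
    rw [Finset.mem_range]
    have := hB.hK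
    omega
  rw [e3]
  have e4 : (P.K : ℝ) * (2 * (a * q / P.K)) = 2 * (a * q) := by field_simp
  rw [e4]

/-- the whole `W`-part: `avg_t ∑_k ⟨W_k β_{k,t}, Y ε^(t)⟩ ≤ α tr M_0 + 22 a q` -/
theorem ci2_R (hB : P.Big) (hS : Good P S) (F : Submodule ℝ (P.A → ℝ)) {a : ℝ} (ha : 0 ≤ a)
    (β : Fin P.T → ℕ → Fin P.T → ℝ) (ρ : Fin P.T → ℕ → ℝ)
    (hCB : ∀ t, ∀ k < P.K, CB P k (β t k) (ρ t k))
    (hρ : ∀ t, ∑ k ∈ range P.K, ρ t k ^ 2 ≤ a ^ 2)
    (x : P.Om → P.A → ℝ) (hx : ∀ ε, x ε ∈ F) {q : ℝ} (hq : 0 ≤ q)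
    (hqx : Real.sqrt (av fun ε => nrm S (x ε) ^ 2) ≤ q)
    (hY : ∑ b, nsq (ci2X x b) ≤ q ^ 2) :
    av (fun t => ∑ k ∈ range P.K, ip (W S k (β t k)) (ci2Y S (ci2X x) t))
      ≤ av (fun t => β t 0 t) * (∑ a, ci2M (ci2X x) 0 a a) + 22 * (a * q) := by
  have hn := ci2_n_ge_100 hB
  have hK := hB.one_le_K
  have hKn := ci2_K_le hB
  have hT : (0 : ℝ) < P.T := by exact_mod_cast hB.T_pos
  have := ci2_nonempty_T hB
  have haq : 0 ≤ a * q := mul_nonneg ha hq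
  set Y := ci2X x with hYdef
  -- the exceptional sets
  have hp3 : ∀ k : ℕ, ∃ Ex : Finset (Fin P.T), Ex.card ≤ 2 * (univ : Finset P.A).card ^ 3 ∧
      ∀ s t, s ∉ Ex → t ∉ Ex →
      |ci2Q S Y k s t - (if s = t then ∑ a, ci2M Y k a a else 0)| ≤
        (P.m : ℝ) * Real.sqrt (∑ a, ∑ b, ci2M Y k a b ^ 2) := by
    intro k
    exact hS.p3 univ (Or.inl rfl) (ci2M Y k) fun a b _ => ⟨mem_univ _, mem_univ _⟩
  choose Exk hExk1 hExk2 using hp3
  set Ex : Finset (Fin P.T) := (range P.K).biUnion Exk with hExdef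
  have hEx : (Ex.card : ℝ) ≤ 2 * P.K * (Fintype.card P.A : ℝ) ^ 3 := by
    have h1 : Ex.card ≤ P.K * (2 * Fintype.card P.A ^ 3) := by
      refine (Finset.card_biUnion_le).trans ?_
      refine (Finset.sum_le_card_nsmul _ _ _ fun k _ => hExk1 k).trans ?_
      rw [card_range, smul_eq_mul, card_univ]
    have h2 : (Ex.card : ℝ) ≤ ((P.K * (2 * Fintype.card P.A ^ 3) : ℕ) : ℝ) := by exact_mod_cast h1
    refine h2.trans (le_of_eq ?_)
    push_cast
    ring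
  have hQ : ∀ k < P.K, ∀ s t, s ∉ Ex → t ∉ Ex →
      |ci2Q S Y k s t - (if s = t then ∑ a, ci2M Y k a a else 0)| ≤
        (P.m : ℝ) * Real.sqrt (∑ a, ∑ b, ci2M Y k a b ^ 2) := by
    intro k hk s t hs ht
    refine hExk2 k s t (fun h => hs ?_) (fun h => ht ?_)
    · exact Finset.mem_biUnion.mpr ⟨k, Finset.mem_range.mpr hk, h⟩
    · exact Finset.mem_biUnion.mpr ⟨k, Finset.mem_range.mpr hk, h⟩
  have hA := ci2_A hB hS ha β ρ hCB hρ Y hq hY Ex hEx
  have hD := ci2_D hB hS F ha β ρ hCB hρ Ex hEx x hx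
  have hBC := ci2_BC hB ha β ρ hCB hρ Y hq hY Ex hQ
  rw [← hYdef] at hD
  -- split
  have e1 : ∀ t, ∑ k ∈ range P.K, ip (W S k (β t k)) (ci2Y S Y t)
      ≤ (if t ∈ Ex then ∑ k ∈ range P.K, ip (W S k (β t k)) (ci2Y S Y t) else 0)
        + (if t ∈ Ex then 0 else ∑ k ∈ range P.K, ∑ s ∈ Ex, β t k s * ci2Q S Y k s t)
        + ((β t 0 t * ∑ a, ci2M Y 0 a a) + (if t ∈ Ex then -(β t 0 t * ∑ a, ci2M Y 0 a a) else 0)
          + 2 * (a * q)) := by
    intro t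
    by_cases ht : t ∈ Ex
    · simp only [if_pos ht]
      linarith
    · simp only [if_neg ht]
      have h1 := hBC t ht
      have h2 : ∑ k ∈ range P.K, ip (W S k (β t k)) (ci2Y S Y t)
          = ∑ k ∈ range P.K, ∑ s ∈ Ex, β t k s * ci2Q S Y k s t
            + ∑ k ∈ range P.K, ∑ s ∈ Exᶜ, β t k s * ci2Q S Y k s t := by
        rw [← sum_add_distrib]
        refine sum_congr rfl fun k _ => ?_
        rw [ci2_ipW, Finset.sum_add_sum_compl]
      rw [h2]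
      linarith
  refine (av_mono e1).trans ?_
  rw [av_add, av_add, av_add, av_add, av_const]
  have h3 : av (fun t => β t 0 t * ∑ a, ci2M Y 0 a a)
      = av (fun t => β t 0 t) * ∑ a, ci2M Y 0 a a := av_mul_right _ _
  rw [h3]
  have h4 : av (fun t => if t ∈ Ex then -(β t 0 t * ∑ a, ci2M Y 0 a a) else 0) ≤ a * q := by
    have hρa : ∀ t, ρ t 0 ≤ a := by
      intro t
      apply (abs_le_of_sq_le_sq' _ ha).2
      have h0 : 0 ∈ range P.K := by rw [Finset.mem_range]; have := hB.hK; omega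
      exact (single_le_sum (f := fun k => ρ t k ^ 2) (fun _ _ => sq_nonneg _) h0).trans (hρ t)
    have hK0 : 0 < P.K := by have := hB.hK; omega
    have h5 : ∀ t ∈ Ex, -(β t 0 t * ∑ a, ci2M Y 0 a a) ≤ a * (P.K * q) := by
      intro t _
      refine (neg_le_abs _).trans ?_
      rw [abs_mul]
      apply mul_le_mul _ (ci2_tr hB Y hq hY 0) (abs_nonneg _) ha
      refine (abs_le_nm _ t).trans ?_
      rw [nm_le_iff ha]
      exact (hCB t 0 hK0).two.trans (pow_le_pow_left₀ (hCB t 0 hK0).nonneg (hρa t) 2)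
    refine (ci2_av_ex hB Ex _ (a * (P.K * q)) (2 * P.K * (Fintype.card P.A : ℝ) ^ 3)
      (by positivity) hEx h5).trans ?_
    rw [div_le_iff₀ hT]
    set n : ℝ := (Fintype.card P.A : ℝ) with hndef
    have h6 := ci2_T_ge' hB (j := 5) (by norm_num)
    rw [← hndef] at h6
    have h7 : (P.K : ℝ) * P.K ≤ n * n := mul_le_mul hKn hKn (by linarith) (by linarith)
    calc 2 * (P.K : ℝ) * n ^ 3 * (a * (P.K * q)) = (2 * (P.K * P.K) * n ^ 3) * (a * q) := by ring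
      _ ≤ (100 * n ^ 5) * (a * q) := by
          apply mul_le_mul_of_nonneg_right _ haq
          calc 2 * ((P.K : ℝ) * P.K) * n ^ 3 ≤ 2 * (n * n) * n ^ 3 := by
                apply mul_le_mul_of_nonneg_right _ (by positivity); linarith
            _ = 2 * n ^ 5 := by ring
            _ ≤ 100 * n ^ 5 := by
                have : 0 ≤ n ^ 5 := by positivity
                linarith
      _ ≤ P.T * (a * q) := mul_le_mul_of_nonneg_right h6 haq
      _ = a * q * P.T := by ring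
  have h8 : 18 * a * Real.sqrt (av fun ε => nrm S (x ε) ^ 2) ≤ 18 * a * q :=
    mul_le_mul_of_nonneg_left hqx (by positivity)
  linarith

theorem claimI (hB : P.Big) (hS : Good P S) (F : Submodule ℝ (P.A → ℝ))
    (L : (P.A → ℝ) →ₗ[ℝ] (P.A → ℝ)) (hL : ∀ x ∈ F, L x ∈ F) (a : ℝ) (ha : 0 ≤ a)
    (h : ∀ x ∈ F, nrm S (L x) ≤ a * nrm S x) :
    ∃ α : ℝ, ∀ x : P.Om → P.A → ℝ, (∀ ε, x ε ∈ F) →
      av (fun ε => ip (wv ε) (L (x ε) - α • x ε)) ≤
        40 * a * Real.sqrt (av fun ε => nrm S (x ε) ^ 2) := by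
  have hn := ci2_n_ge_100 hB
  have hK := hB.one_le_K
  have hK3 := ci2_K3_le hB
  have := ci2_nonempty_T hB
  -- the lifts
  have hlift : ∀ t, ∃ v, Rep S v a ∧ ∀ x ∈ F, ip v x = ip (wv (S t)) (L x) := by
    intro t
    let φ : (P.A → ℝ) →ₗ[ℝ] ℝ :=
      { toFun := fun x => ip (wv (S t)) (L x)
        map_add' := fun x y => by rw [map_add, ip_add_right]
        map_smul' := fun c x => by rw [map_smul, ip_smul_right]; rfl }
    obtain ⟨v, hv1, hv2⟩ := lift hB hS F φ ha (fun x hx => by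
      show ip (wv (S t)) (L x) ≤ a * nrm S x
      rw [ip_comm]
      refine (ip_le_nrm hB hS (Rep_sample hB t) (L x)).trans ?_
      rw [one_mul]
      exact h x hx)
    exact ⟨v, hv1, hv2⟩
  choose v hv1 hv2 using hlift
  have hrep : ∀ t, ∃ (b : P.A → ℝ) (β : ℕ → Fin P.T → ℝ) (ρ : ℕ → ℝ),
      v t = b + ∑ k ∈ range P.K, W S k (β k) ∧ (∀ k < P.K, CB P k (β k) (ρ k)) ∧
      nsq b + ∑ k ∈ range P.K, ρ k ^ 2 ≤ a ^ 2 := fun t => (hv1 t).2
  choose b β ρ hb1 hCB hb2 using hrep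
  have hρ : ∀ t, ∑ k ∈ range P.K, ρ t k ^ 2 ≤ a ^ 2 := fun t => by
    have := hb2 t
    have h0 := nsq_nonneg (b t)
    linarith
  have hbn : ∀ t, nsq (b t) ≤ a ^ 2 := fun t => by
    have := hb2 t
    have h0 : 0 ≤ ∑ k ∈ range P.K, ρ t k ^ 2 := sum_nonneg fun _ _ => sq_nonneg _
    linarith
  refine ⟨av fun t => β t 0 t, fun x hx => ?_⟩
  set α := av fun t => β t 0 t with hα
  set q := Real.sqrt (av fun ε => nrm S (x ε) ^ 2) with hqdef
  have hq : 0 ≤ q := Real.sqrt_nonneg _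
  have haq : 0 ≤ a * q := mul_nonneg ha hq
  have hq2 : q ^ 2 = av fun ε => nrm S (x ε) ^ 2 := Real.sq_sqrt (av_nonneg fun _ => sq_nonneg _)
  set Y := ci2X x with hYdef
  have hYF : ∀ b, Y b ∈ F := fun b => ci2_av_mem F (fun ε : P.Om => sg (ε b)) x hx
  have hY : ∑ b, nsq (Y b) ≤ q ^ 2 := by
    rw [hq2]
    refine (bessel_vec x).trans (av_mono fun ε => ?_)
    rw [← nm_sq]
    exact pow_le_pow_left₀ (nm_nonneg _) (nm_le_nrm hB hS _) 2
  have hyF : ∀ t, ci2Y S Y t ∈ F := fun t =>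
    F.sum_mem fun b _ => F.smul_mem _ (hYF b)
  -- the two traces
  have eL : ∀ b, L (Y b) = fun a => av fun ε : P.Om => sg (ε b) * L (x ε) a := fun b =>
    ci2_av_map L (fun ε : P.Om => sg (ε b)) x
  have tr1 : av (fun ε : P.Om => ip (wv ε) (L (x ε))) = ∑ a, P.sig a * L (Y a) a := by
    have e : ∀ ε : P.Om, ip (wv ε) (L (x ε)) = ∑ a, P.sig a * (sg (ε a) * L (x ε) a) := by
      intro ε
      unfold ip wv
      exact sum_congr rfl fun a _ => by ring
    rw [av_congr e, av_sum]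
    refine sum_congr rfl fun a _ => ?_
    rw [av_mul_left, eL a]
  have tr2 : av (fun ε : P.Om => ip (wv ε) (x ε)) = ∑ a, ci2M Y 0 a a := by
    have e : ∀ ε : P.Om, ip (wv ε) (x ε) = ∑ a, P.sig a * (sg (ε a) * x ε a) := by
      intro ε
      unfold ip wv
      exact sum_congr rfl fun a _ => by ring
    rw [av_congr e, av_sum]
    refine sum_congr rfl fun a _ => ?_
    rw [av_mul_left]
    unfold ci2M
    rw [if_pos (Nat.zero_le _)]
    rfl
  have hgoal : av (fun ε : P.Om => ip (wv ε) (L (x ε) - α • x ε))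
      = ∑ a, P.sig a * L (Y a) a - α * ∑ a, ci2M Y 0 a a := by
    rw [← tr1, ← tr2, ← av_mul_left, ← av_sub]
    exact av_congr fun ε => by rw [ip_sub_right, ip_smul_right]
  rw [hgoal]
  -- (a)
  have hca2 := ca2 hB hS (fun a b => P.sig a * L (Y b) a)
  have e2 : ∀ t, ∑ a, ∑ b, sg (S t a) * (P.sig a * L (Y b) a) * sg (S t b)
      = ip (v t) (ci2Y S Y t) := by
    intro t
    rw [hv2 t _ (hyF t)]
    unfold ip wv
    refine sum_congr rfl fun a _ => ?_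
    have e3 : L (ci2Y S Y t) a = ∑ b, sg (S t b) * L (Y b) a := by
      unfold ci2Y
      rw [map_sum, Finset.sum_apply]
      refine sum_congr rfl fun b _ => ?_
      rw [map_smul]; rfl
    rw [e3, mul_sum]
    exact sum_congr rfl fun b _ => by ring
  have hsum : (∑ a, ∑ b, |P.sig a * L (Y b) a|) / (Fintype.card P.A : ℝ) ≤ a * q := by
    have hn0 : (0 : ℝ) < (Fintype.card P.A : ℝ) := by linarith
    have hLY : ∑ b, nsq (L (Y b)) ≤ (2 * P.K * a * q) ^ 2 := by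
      have h1 : ∀ b, nsq (L (Y b)) ≤ (2 * P.K * a) ^ 2 * nsq (Y b) := by
        intro b
        rw [← nm_sq, ← nm_sq, ← mul_pow]
        apply pow_le_pow_left₀ (nm_nonneg _)
        refine (nm_le_nrm hB hS _).trans ((h _ (hYF b)).trans ?_)
        calc a * nrm S (Y b) ≤ a * (2 * P.K * nm (Y b)) :=
              mul_le_mul_of_nonneg_left (nrm_le_nm hB hS _) ha
          _ = _ := by ring
      calc ∑ b, nsq (L (Y b)) ≤ ∑ b, (2 * P.K * a) ^ 2 * nsq (Y b) := sum_le_sum fun b _ => h1 b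
        _ = (2 * P.K * a) ^ 2 * ∑ b, nsq (Y b) := (mul_sum _ _ _).symm
        _ ≤ (2 * P.K * a) ^ 2 * q ^ 2 := mul_le_mul_of_nonneg_left hY (sq_nonneg _)
        _ = _ := by ring
    have hCS : (∑ a, ∑ b, |P.sig a * L (Y b) a|) ^ 2
        ≤ ((Fintype.card P.A : ℝ) * P.K) * (2 * P.K * a * q) ^ 2 := by
      have e4 : ∑ a, ∑ b, |P.sig a * L (Y b) a|
          = ∑ c : P.A × P.A, P.sig c.1 * |L (Y c.2) c.1| := by
        rw [Fintype.sum_prod_type]
        refine sum_congr rfl fun a _ => sum_congr rfl fun b _ => ?_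
        rw [abs_mul, abs_of_pos (Par.sig_pos hB a)]
      rw [e4]
      refine (sum_mul_sq_le_sq_mul_sq univ (fun c : P.A × P.A => P.sig c.1)
        (fun c => |L (Y c.2) c.1|)).trans ?_
      apply mul_le_mul _ _ (sum_nonneg fun _ _ => sq_nonneg _) (by positivity)
      · rw [Fintype.sum_prod_type]
        simp only [sum_const, card_univ, nsmul_eq_mul]
        rw [← mul_sum, Par.sum_sig_sq hB]
      · rw [Fintype.sum_prod_type_right]
        refine le_trans (le_of_eq ?_) hLY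
        refine sum_congr rfl fun b _ => ?_
        unfold nsq
        exact sum_congr rfl fun a _ => sq_abs _
    rw [div_le_iff₀ hn0]
    apply (abs_le_of_sq_le_sq' _ (by positivity)).2
    refine hCS.trans ?_
    calc (Fintype.card P.A : ℝ) * P.K * (2 * P.K * a * q) ^ 2
        = (4 * (P.K : ℝ) ^ 3) * ((Fintype.card P.A : ℝ) * (a * q) ^ 2) := by ring
      _ ≤ (Fintype.card P.A : ℝ) * ((Fintype.card P.A : ℝ) * (a * q) ^ 2) :=
          mul_le_mul_of_nonneg_right hK3 (by positivity)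
      _ = (a * q * (Fintype.card P.A : ℝ)) ^ 2 := by ring
  have hav : ∑ a, P.sig a * L (Y a) a ≤ av (fun t => ip (v t) (ci2Y S Y t)) + a * q := by
    have h1 := (abs_le.mp hca2).1
    rw [av_congr e2] at h1
    linarith
  -- (b)
  have hsplit : av (fun t => ip (v t) (ci2Y S Y t))
      = av (fun t => ip (b t) (ci2Y S Y t))
        + av (fun t => ∑ k ∈ range P.K, ip (W S k (β t k)) (ci2Y S Y t)) := by
    rw [← av_add]
    refine av_congr fun t => ?_
    rw [hb1 t, ip_add_left, ip_sum_left]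
  have hbpart : av (fun t => ip (b t) (ci2Y S Y t)) ≤ 2 * (a * q) := by
    have h1 : av (fun t => ip (b t) (ci2Y S Y t)) ≤ av (fun t => nm (b t) * nm (ci2Y S Y t)) :=
      av_mono fun t => ip_le _ _
    refine h1.trans ((av_mul_le_sqrt _ _).trans ?_)
    have h2 : Real.sqrt (av fun t => nm (b t) ^ 2) ≤ a := by
      rw [Real.sqrt_le_left ha]
      have : av (fun t => nm (b t) ^ 2) ≤ av (fun _ : Fin P.T => a ^ 2) :=
        av_mono fun t => by rw [nm_sq]; exact hbn t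
      rwa [av_const] at this
    have h3 : Real.sqrt (av fun t => nm (ci2Y S Y t) ^ 2) ≤ 2 * q := by
      rw [Real.sqrt_le_left (by positivity)]
      have h4 := ca3 hB hS Y
      have h5 : av (fun t => nm (ci2Y S Y t) ^ 2) ≤ 2 * ∑ b, nsq (Y b) := by
        refine le_trans (le_of_eq ?_) h4
        exact av_congr fun t => nm_sq _
      nlinarith [sq_nonneg q]
    calc _ ≤ a * (2 * q) := mul_le_mul h2 h3 (Real.sqrt_nonneg _) ha
      _ = _ := by ring
  have hR := ci2_R hB hS F ha β ρ hCB hρ x hx hq (le_refl q) hY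
  rw [← hYdef, ← hα] at hR
  rw [hsplit] at hav
  nlinarith

end Pool.Agent.PEL
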