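import Pool.Agent.PEL.Tail
import Pool.Agent.PEL.Nrm3

/-!
# PEL-CAN : the canonical lift data (section 4 of the text)

For every `ε`: `lift_DN` for `wv ε`; unfold `Rep`: `b ε, β ε k, ρ ε k`, `nsq b + ∑_{k<K} ρ² ≤ DN(w ε)²`.
`g a = (E[ε_a b(ε)_{a'}])_{a'}`, `z k t a = E[ε_a β(ε)_k t]` (for `k < K`, `0` otherwise), `κ_k = (E ρ_k² + Db²/K)^{1/2}` (`> 0`; for `k ≥ K` take `Db`).
`c0`: `⟨c_b(u) + ∑_k W_k(⟨z k t,u⟩)_t, x⟩ = E[ss u ε · ⟨b + ∑_k W_k β, x⟩] = E[ss u ε ⟨w(ε),x⟩] = ∑ u_a σ_a x_a` (`av_ss_mul_ss`).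
`c1`: `bessel_vec`. `c2`: `∑_t ∑_a (E ε_a β_t)² ≤ E nsq β ≤ E ρ²`. `c3`: `bessel` for `β(ε)_t`, `p_k^{10} E β_t² ≤ E ρ²`.
`c4`: `walsh_l1` with `c = p_{k+1}^5`. `c5`, `c6`: immediate.
-/

set_option autoImplicit false

namespace Pool.Agent.PEL

open Finset

variable {P : Par} {S : P.Sam}

/-- weighted average of vectors as a linear combination -/
private theorem canL_avv {J ι : Type} [Fintype J] (w : J → ℝ) (h : J → ι → ℝ) :
    (fun i => av fun j => w j * h j i) = (Fintype.card J : ℝ)⁻¹ • ∑ j, w j • h j := by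
  funext i
  unfold av
  rw [Pi.smul_apply, Finset.sum_apply, smul_eq_mul, div_eq_inv_mul]
  rfl

private theorem canL_lin {J ι κ : Type} [Fintype J] (L : (ι → ℝ) →ₗ[ℝ] (κ → ℝ)) (w : J → ℝ)
    (h : J → ι → ℝ) :
    L (fun i => av fun j => w j * h j i) = fun k => av fun j => w j * L (h j) k := by
  rw [canL_avv, canL_avv w fun j => L (h j), map_smul, map_sum]
  simp only [map_smul]

private theorem canL_ip {J ι : Type} [Fintype J] [Fintype ι] (w : J → ℝ) (h : J → ι → ℝ)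
    (x : ι → ℝ) :
    ip (fun i => av fun j => w j * h j i) x = av fun j => w j * ip (h j) x := by
  have e : ∀ j, w j * ip (h j) x = ∑ i, (w j * h j i) * x i := by
    intro j
    unfold ip
    rw [mul_sum]
    exact sum_congr rfl fun i _ => (mul_assoc _ _ _).symm
  rw [av_congr e, av_sum]
  unfold ip
  exact sum_congr rfl fun i _ => (av_mul_right _ _).symm

/-- `∑ u_a E[ε_a f(ε)] = E[ss u ε f(ε)]` -/
private theorem canL_ss {I : Type} [Fintype I] [DecidableEq I] (u : I → ℝ) (f : (I → Bool) → ℝ) :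
    ∑ a, u a * (av fun ε : I → Bool => sg (ε a) * f ε) = av fun ε : I → Bool => ss u ε * f ε := by
  have e : ∀ ε : I → Bool, ss u ε * f ε = ∑ a, u a * (sg (ε a) * f ε) := by
    intro ε
    unfold ss
    rw [sum_mul]
    exact sum_congr rfl fun a _ => mul_assoc _ _ _
  rw [av_congr e, av_sum]
  exact sum_congr rfl fun a _ => (av_mul_left _ _).symm

private theorem canL_wv (ε : P.Om) (x : P.A → ℝ) :
    ip (wv ε) x = ss (fun a => P.sig a * x a) ε := by
  unfold ip ss wv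
  exact sum_congr rfl fun a _ => by ring

theorem exists_can (hB : P.Big) (hS : Good P S) (F : Submodule ℝ (P.A → ℝ)) (Db : ℝ)
    (h1 : 1 ≤ Db) (hD : av (fun ε => DN S F (wv ε) ^ 2) ≤ Db ^ 2) : Nonempty (Can S F Db) := by
  have key : ∀ ε : P.Om, ∃ (b : P.A → ℝ) (β : ℕ → Fin P.T → ℝ) (ρ : ℕ → ℝ),
      (∀ x ∈ F, ip (b + ∑ k ∈ range P.K, W S k (β k)) x = ip (wv ε) x) ∧
      (∀ k < P.K, CB P k (β k) (ρ k)) ∧
      nsq b + ∑ k ∈ range P.K, ρ k ^ 2 ≤ DN S F (wv ε) ^ 2 := by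
    intro ε
    obtain ⟨v', ⟨_, b, β, ρ, hv, hc, hn⟩, hx⟩ := lift_DN hB hS F (wv ε)
    exact ⟨b, β, ρ, fun x hxF => by rw [← hv]; exact hx x hxF, hc, hn⟩
  choose b β ρ hx hCB hn using key
  have hK : (1 : ℝ) ≤ P.K := hB.one_le_K
  have hDb : 0 < Db := lt_of_lt_of_le one_pos h1
  have hq : 0 < Db ^ 2 / (P.K : ℝ) := by positivity
  set R : ℕ → ℝ := fun k => av fun ε : P.Om => ρ ε k ^ 2 with hR
  have hR0 : ∀ k, 0 ≤ R k := fun k => av_nonneg fun ε => sq_nonneg _
  set κ : ℕ → ℝ := fun k => if k < P.K then Real.sqrt (R k + Db ^ 2 / P.K) else Db with hκ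
  have κsq : ∀ k < P.K, κ k ^ 2 = R k + Db ^ 2 / P.K := by
    intro k hk
    simp only [hκ]
    rw [if_pos hk, Real.sq_sqrt (add_nonneg (hR0 k) hq.le)]
  have κpos : ∀ k, 0 < κ k := by
    intro k
    simp only [hκ]
    split_ifs
    · exact Real.sqrt_pos.2 (add_pos_of_nonneg_of_pos (hR0 k) hq)
    · exact hDb
  have hRκ : ∀ k < P.K, R k ≤ κ k ^ 2 := fun k hk => by rw [κsq k hk]; linarith
  have htwo : ∀ k < P.K, av (fun ε => nsq (β ε k)) ≤ κ k ^ 2 := fun k hk =>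
    (av_mono fun ε => (hCB ε k hk).two).trans (hRκ k hk)
  have hsum : av (fun ε => nsq (b ε)) + ∑ k ∈ range P.K, R k ≤ Db ^ 2 := by
    have e : av (fun ε => nsq (b ε)) + ∑ k ∈ range P.K, R k
        = av (fun ε => nsq (b ε) + ∑ k ∈ range P.K, ρ ε k ^ 2) := by
      rw [av_add, av_sum]
    rw [e]
    exact (av_mono hn).trans hD
  have hb : av (fun ε => nsq (b ε)) ≤ Db ^ 2 := by
    have : 0 ≤ ∑ k ∈ range P.K, R k := sum_nonneg fun k _ => hR0 k
    linarith
  have hRs : ∑ k ∈ range P.K, R k ≤ Db ^ 2 := by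
    have : 0 ≤ av (fun ε => nsq (b ε)) := av_nonneg fun ε => nsq_nonneg _
    linarith
  refine ⟨{
    g := fun a a' => av fun ε => sg (ε a) * b ε a'
    z := fun k t a => av fun ε => sg (ε a) * β ε k t
    κ := κ
    Db1 := h1
    κpos := κpos
    c0 := ?_
    c1 := ?_
    c2 := ?_
    c3 := ?_
    c4 := ?_
    c5 := ?_
    c6 := ?_ }⟩
  · intro u x hxF
    have e1 : (∑ a, u a • fun a' => av fun ε : P.Om => sg (ε a) * b ε a')
        = fun a' => av fun ε : P.Om => ss u ε * b ε a' := by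
      funext a'
      rw [Finset.sum_apply, ← canL_ss]
      rfl
    have e2 : ∀ k, (fun t => ip (fun a => av fun ε : P.Om => sg (ε a) * β ε k t) u)
        = fun t => av fun ε : P.Om => ss u ε * β ε k t := by
      intro k
      funext t
      rw [← canL_ss]
      unfold ip
      exact sum_congr rfl fun a _ => mul_comm _ _
    have e3 : ∀ k, W S k (fun t => av fun ε : P.Om => ss u ε * β ε k t)
        = fun a => av fun ε : P.Om => ss u ε * W S k (β ε k) a := fun k =>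
      canL_lin (WL S k) (fun ε : P.Om => ss u ε) fun ε => β ε k
    have e4 : ip (∑ a, u a • (fun a' => av fun ε : P.Om => sg (ε a) * b ε a') +
        ∑ k ∈ range P.K, W S k (fun t => ip (fun a => av fun ε : P.Om => sg (ε a) * β ε k t) u)) x
        = av fun ε : P.Om => ss u ε * ip (b ε + ∑ k ∈ range P.K, W S k (β ε k)) x := by
      rw [ip_add_left, e1, canL_ip, ip_sum_left]
      have e5 : ∀ k ∈ range P.K,
          ip (W S k (fun t => ip (fun a => av fun ε : P.Om => sg (ε a) * β ε k t) u)) x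
          = av fun ε : P.Om => ss u ε * ip (W S k (β ε k)) x := by
        intro k _
        rw [e2, e3, canL_ip]
      rw [sum_congr rfl e5, ← av_sum, ← av_add]
      refine av_congr fun ε => ?_
      rw [ip_add_left, ip_sum_left, mul_add, mul_sum]
    have e6 : ∀ ε : P.Om, ss u ε * ip (b ε + ∑ k ∈ range P.K, W S k (β ε k)) x
        = ss u ε * ss (fun a => P.sig a * x a) ε := fun ε => by rw [hx ε x hxF, canL_wv]
    rw [e4, av_congr e6, av_ss_mul_ss]
    unfold ip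
    exact sum_congr rfl fun a _ => by ring
  · exact (bessel_vec b).trans hb
  · intro k hk
    refine le_trans ?_ (htwo k hk)
    have e : av (fun ε => nsq (β ε k)) = ∑ t, av fun ε => β ε k t ^ 2 := by
      unfold nsq
      rw [av_sum]
    rw [e]
    exact sum_le_sum fun t _ => bessel fun ε => β ε k t
  · intro k hk t
    refine (abs_le_of_sq_le_sq' ?_ (κpos k).le).2
    refine le_trans ?_ (hRκ k hk)
    rw [mul_pow, nm_sq]
    have e : ((P.p k : ℝ) ^ 5) ^ 2 = (P.p k : ℝ) ^ 10 := by rw [← pow_mul]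
    rw [e]
    have hp : (0 : ℝ) ≤ (P.p k : ℝ) ^ 10 := pow_nonneg (hB.p_pos_real k).le _
    calc (P.p k : ℝ) ^ 10 * nsq (fun a => av fun ε : P.Om => sg (ε a) * β ε k t)
        ≤ (P.p k : ℝ) ^ 10 * av (fun ε => β ε k t ^ 2) :=
          mul_le_mul_of_nonneg_left (bessel fun ε => β ε k t) hp
      _ = av (fun ε => (P.p k : ℝ) ^ 10 * β ε k t ^ 2) := (av_mul_left _ _).symm
      _ ≤ R k := av_mono fun ε => (hCB ε k hk).inf t
  · intro k hk
    have hp1 : (1 : ℝ) ≤ (P.p (k + 1) : ℝ) ^ 5 := one_le_pow₀ (hB.one_le_p_real (k + 1))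
    refine walsh_l1 hB (fun ε => β ε k) ((P.p (k + 1) : ℝ) ^ 5) (κ k) hp1 (κpos k).le ?_
      (htwo k hk)
    calc av (fun ε => n1 (β ε k) ^ 2)
        ≤ av (fun ε => ((P.p (k + 1) : ℝ) ^ 5) ^ 2 * ρ ε k ^ 2) := by
          refine av_mono fun ε => ?_
          rw [← mul_pow]
          exact pow_le_pow_left₀ (n1_nonneg _) (hCB ε k hk).one 2
      _ = ((P.p (k + 1) : ℝ) ^ 5) ^ 2 * R k := av_mul_left _ _
      _ ≤ ((P.p (k + 1) : ℝ) ^ 5) ^ 2 * κ k ^ 2 :=
          mul_le_mul_of_nonneg_left (hRκ k hk) (sq_nonneg _)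
  · have e : ∑ k ∈ range P.K, κ k ^ 2 = ∑ k ∈ range P.K, R k + Db ^ 2 := by
      rw [sum_congr rfl fun k hk => κsq k (Finset.mem_range.1 hk), sum_add_distrib, sum_const,
        card_range, nsmul_eq_mul]
      have : (P.K : ℝ) ≠ 0 := by positivity
      field_simp
    rw [e]
    linarith
  · intro k
    by_cases hk : k < P.K
    · rw [κsq k hk]
      have := hR0 k
      linarith
    · simp only [hκ]
      rw [if_neg hk]
      exact div_le_self (sq_nonneg _) hK

end Pool.Agent.PEL
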