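import Pool.Agent.PEL.Nrm1

/-!
# PEL-CLS, deterministic part: big / mid / small decomposition
-/

set_option autoImplicit false

namespace Pool.Agent.PEL

open Finset

variable {P : Par} {S : P.Sam}

section vec
variable {J : Type} [Fintype J]

theorem nsq_le_of_abs_le {x y : J → ℝ} (h : ∀ t, |x t| ≤ |y t|) : nsq x ≤ nsq y := by
  unfold nsq
  refine sum_le_sum fun t _ => ?_
  rw [← sq_abs (x t), ← sq_abs (y t)]
  exact pow_le_pow_left₀ (abs_nonneg _) (h t) 2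

theorem n1_le_of_abs_le {x y : J → ℝ} (h : ∀ t, |x t| ≤ |y t|) : n1 x ≤ n1 y :=
  sum_le_sum fun t _ => h t

/-- if `κ < c |y_t|` wherever `x_t ≠ 0`, and `|x| ≤ |y|`, then `κ |x|_1 ≤ c |y|_2²` -/
theorem n1_le_of_gt {x y : J → ℝ} {c κ : ℝ} (hc : 0 ≤ c) (h : ∀ t, |x t| ≤ |y t|)
    (h' : ∀ t, x t ≠ 0 → κ ≤ c * |y t|) : κ * n1 x ≤ c * nsq y := by
  unfold n1 nsq
  rw [mul_sum, mul_sum]
  refine sum_le_sum fun t _ => ?_
  by_cases hx : x t = 0
  · rw [hx, abs_zero, mul_zero]; positivity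
  · calc κ * |x t| ≤ (c * |y t|) * |y t| :=
          mul_le_mul (h' t hx) (h t) (abs_nonneg _) (by positivity)
      _ = c * y t ^ 2 := by rw [mul_assoc, ← sq, sq_abs]

end vec

section parts
variable {J : Type}

/-- the entries above `κ/c` -/
noncomputable def bigp (c κ : ℝ) (β : J → ℝ) : J → ℝ := fun t => if κ < c * |β t| then β t else 0

/-- the entries below `κ/c` -/
noncomputable def smallp (c κ : ℝ) (β : J → ℝ) : J → ℝ := fun t => if c * |β t| ≤ κ then β t else 0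

/-- the rest -/
noncomputable def midp (c c' κ : ℝ) (β : J → ℝ) : J → ℝ :=
  fun t => if c * |β t| ≤ κ ∧ κ < c' * |β t| then β t else 0

theorem abs_bigp_le (c κ : ℝ) (β : J → ℝ) (t : J) : |bigp c κ β t| ≤ |β t| := by
  unfold bigp; split_ifs <;> simp

theorem abs_smallp_le (c κ : ℝ) (β : J → ℝ) (t : J) : |smallp c κ β t| ≤ |β t| := by
  unfold smallp; split_ifs <;> simp

theorem abs_midp_le (c c' κ : ℝ) (β : J → ℝ) (t : J) : |midp c c' κ β t| ≤ |β t| := by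
  unfold midp; split_ifs <;> simp

theorem parts_add {c c' κ : ℝ} (hc : c ≤ c') (β : J → ℝ) :
    bigp c κ β + midp c c' κ β + smallp c' κ β = β := by
  funext t
  simp only [Pi.add_apply, bigp, midp, smallp]
  have h : c * |β t| ≤ c' * |β t| := mul_le_mul_of_nonneg_right hc (abs_nonneg _)
  by_cases h1 : κ < c * |β t|
  · rw [if_pos h1, if_neg (by intro h2; linarith [h2.1]), if_neg (by intro h2; linarith)]; ring
  · push Not at h1
    by_cases h2 : κ < c' * |β t|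
    · rw [if_neg (by linarith), if_pos ⟨h1, h2⟩, if_neg (by linarith)]; ring
    · push Not at h2
      rw [if_neg (by linarith), if_neg (by intro h3; linarith [h3.2]), if_pos h2]; ring

theorem mid_add_small {c' κ : ℝ} (β : J → ℝ) :
    bigp c' κ β + smallp c' κ β = β := by
  funext t
  simp only [Pi.add_apply, bigp, smallp]
  by_cases h1 : κ < c' * |β t|
  · rw [if_pos h1, if_neg (by linarith)]; ring
  · push Not at h1
    rw [if_neg (by linarith), if_pos h1]; ring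

end parts

theorem sq_sqrt_add {a b c : ℝ} (ha : 0 ≤ a) (hb : 0 ≤ b) (hc : 0 ≤ c) :
    Real.sqrt (a + b + c) ^ 2 = a + b + c := Real.sq_sqrt (by positivity)

/-- `CB (k-1)` of the big part (here `k-1 = j`) -/
theorem CB_big (hB : P.Big) (j : ℕ) (β : Fin P.T → ℝ) (κ M : ℝ) (hκ : 0 < κ)
    (hM : ∀ t, β t ^ 2 ≤ M) :
    CB P j (bigp ((P.p (j + 1) : ℝ) ^ 5) κ β)
      (Real.sqrt (nsq β + P.p (j + 1) * M + (nsq β / κ) ^ 2)) := by
  have hX := nsq_nonneg β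
  have hp := hB.p_pos_real (j + 1)
  have hT : 0 < P.T := hB.T_pos
  have hM0 : 0 ≤ M := (sq_nonneg _).trans (hM ⟨0, hT⟩)
  have e := sq_sqrt_add hX (mul_nonneg hp.le hM0) (sq_nonneg (nsq β / κ))
  have hb := abs_bigp_le ((P.p (j + 1) : ℝ) ^ 5) κ β
  refine ⟨Real.sqrt_nonneg _, ?_, fun t => ?_, ?_⟩
  · rw [e]
    have := nsq_le_of_abs_le hb
    have h2 := sq_nonneg (nsq β / κ)
    have h3 := mul_nonneg hp.le hM0
    linarith
  · rw [e]
    have h1 : bigp ((P.p (j + 1) : ℝ) ^ 5) κ β t ^ 2 ≤ M := by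
      rw [← sq_abs]
      exact (pow_le_pow_left₀ (abs_nonneg _) (hb t) 2).trans (by rw [sq_abs]; exact hM t)
    have h2 : (P.p j : ℝ) ^ 10 ≤ P.p (j + 1) :=
      (pow_le_pow_right₀ (hB.one_le_p_real j) (by norm_num : 10 ≤ 500)).trans (hB.p_step_real j)
    have h3 : (P.p j : ℝ) ^ 10 * bigp ((P.p (j + 1) : ℝ) ^ 5) κ β t ^ 2 ≤ P.p (j + 1) * M :=
      mul_le_mul h2 h1 (sq_nonneg _) hp.le
    have h4 := sq_nonneg (nsq β / κ)
    linarith
  · have h1 : κ * n1 (bigp ((P.p (j + 1) : ℝ) ^ 5) κ β) ≤ (P.p (j + 1) : ℝ) ^ 5 * nsq β := by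
      refine n1_le_of_gt (by positivity) hb fun t ht => ?_
      unfold bigp at ht
      by_contra hcon
      push Not at hcon
      exact ht (if_neg (by linarith))
    have h2 : nsq β / κ ≤ Real.sqrt (nsq β + P.p (j + 1) * M + (nsq β / κ) ^ 2) := by
      refine Real.le_sqrt_of_sq_le ?_
      have h3 := mul_nonneg hp.le hM0
      linarith
    calc n1 (bigp ((P.p (j + 1) : ℝ) ^ 5) κ β) ≤ (P.p (j + 1) : ℝ) ^ 5 * (nsq β / κ) := by
          rw [← mul_div_assoc, le_div_iff₀ hκ]; linarith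
      _ ≤ _ := mul_le_mul_of_nonneg_left h2 (by positivity)

theorem nsq_U_big (hB : P.Big) (hS : Good P S) {j : ℕ} (hj : j < P.K) (β : Fin P.T → ℝ) (κ : ℝ)
    (hκ : 0 < κ) :
    nsq (U S j (bigp ((P.p (j + 1) : ℝ) ^ 5) κ β)) ≤ nsq β + (nsq β / κ) ^ 2 := by
  have hp := hB.p_pos_real (j + 1)
  have hp1 := hB.one_le_p_real (j + 1)
  have hb := abs_bigp_le ((P.p (j + 1) : ℝ) ^ 5) κ β
  refine (nsq_U_le hB hS hj _).trans ?_
  have h1 : κ * n1 (bigp ((P.p (j + 1) : ℝ) ^ 5) κ β) ≤ (P.p (j + 1) : ℝ) ^ 5 * nsq β := by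
    refine n1_le_of_gt (by positivity) hb fun t ht => ?_
    unfold bigp at ht
    by_contra hcon
    push Not at hcon
    exact ht (if_neg (by linarith))
  have h2 : n1 (bigp ((P.p (j + 1) : ℝ) ^ 5) κ β) ≤ (P.p (j + 1) : ℝ) ^ 5 * (nsq β / κ) := by
    rw [← mul_div_assoc, le_div_iff₀ hκ]; linarith
  have h3 := pow_le_pow_left₀ (n1_nonneg _) h2 2
  have h4 : ((P.p (j + 1) : ℝ) ^ 40)⁻¹ * n1 (bigp ((P.p (j + 1) : ℝ) ^ 5) κ β) ^ 2
      ≤ (nsq β / κ) ^ 2 := by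
    rw [inv_mul_le_iff₀ (by positivity)]
    refine h3.trans ?_
    rw [mul_pow, ← pow_mul]
    refine mul_le_mul_of_nonneg_right ?_ (sq_nonneg _)
    exact pow_le_pow_right₀ hp1 (by norm_num)
  have := nsq_le_of_abs_le hb
  linarith

/-- `CB k` of the middle part, `k ≥ 1` -/
theorem CB_mid (hB : P.Big) (k : ℕ) (β : Fin P.T → ℝ) (κ : ℝ) (hκ : 0 < κ) :
    CB P k (midp ((P.p k : ℝ) ^ 5) ((P.p (k + 1) : ℝ) ^ 5) κ β)
      (Real.sqrt (nsq β + κ ^ 2 + (nsq β / κ) ^ 2)) := by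
  have hX := nsq_nonneg β
  have hp := hB.p_pos_real (k + 1)
  have hpk := hB.p_pos_real k
  have e := sq_sqrt_add hX (sq_nonneg κ) (sq_nonneg (nsq β / κ))
  have hb := abs_midp_le ((P.p k : ℝ) ^ 5) ((P.p (k + 1) : ℝ) ^ 5) κ β
  refine ⟨Real.sqrt_nonneg _, ?_, fun t => ?_, ?_⟩
  · rw [e]
    have := nsq_le_of_abs_le hb
    have h2 := sq_nonneg (nsq β / κ)
    have h3 := sq_nonneg κ
    linarith
  · rw [e]
    have h1 : (P.p k : ℝ) ^ 10 * midp ((P.p k : ℝ) ^ 5) ((P.p (k + 1) : ℝ) ^ 5) κ β t ^ 2 ≤ κ ^ 2 := by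
      unfold midp
      split_ifs with h
      · have := pow_le_pow_left₀ (by positivity) h.1 2
        rw [mul_pow, sq_abs, ← pow_mul] at this
        exact this
      · simp only [ne_eq, OfNat.ofNat_ne_zero, not_false_eq_true, zero_pow, mul_zero]
        positivity
    have h4 := sq_nonneg (nsq β / κ)
    linarith
  · have h1 : κ * n1 (midp ((P.p k : ℝ) ^ 5) ((P.p (k + 1) : ℝ) ^ 5) κ β)
        ≤ (P.p (k + 1) : ℝ) ^ 5 * nsq β := by
      refine n1_le_of_gt (by positivity) hb fun t ht => ?_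
      unfold midp at ht
      by_contra hcon
      push Not at hcon
      exact ht (if_neg (by intro h; linarith [h.2]))
    have h2 : nsq β / κ ≤ Real.sqrt (nsq β + κ ^ 2 + (nsq β / κ) ^ 2) := by
      refine Real.le_sqrt_of_sq_le ?_
      have h3 := sq_nonneg κ
      linarith
    calc _ ≤ (P.p (k + 1) : ℝ) ^ 5 * (nsq β / κ) := by
          rw [← mul_div_assoc, le_div_iff₀ hκ]; linarith
      _ ≤ _ := mul_le_mul_of_nonneg_left h2 (by positivity)

/-- `CB 0` of the non-small part, for `k = 0` -/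
theorem CB_mid0 (hB : P.Big) (β : Fin P.T → ℝ) (κ : ℝ) (hκ : 0 < κ) :
    CB P 0 (bigp ((P.p (0 + 1) : ℝ) ^ 5) κ β)
      (Real.sqrt (nsq β + κ ^ 2 + (nsq β / κ) ^ 2)) := by
  have hX := nsq_nonneg β
  have hp := hB.p_pos_real (0 + 1)
  have e := sq_sqrt_add hX (sq_nonneg κ) (sq_nonneg (nsq β / κ))
  have hb := abs_bigp_le ((P.p (0 + 1) : ℝ) ^ 5) κ β
  have h2 := sq_nonneg (nsq β / κ)
  have h3 := sq_nonneg κ
  refine ⟨Real.sqrt_nonneg _, ?_, fun t => ?_, ?_⟩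
  · rw [e]
    have := nsq_le_of_abs_le hb
    linarith
  · rw [e, Par.p_zero]
    have h1 : bigp ((P.p (0 + 1) : ℝ) ^ 5) κ β t ^ 2 ≤ nsq β := by
      refine le_trans ?_ (nsq_le_of_abs_le hb)
      exact single_le_sum (f := fun t => bigp ((P.p (0 + 1) : ℝ) ^ 5) κ β t ^ 2)
        (fun i _ => sq_nonneg _) (mem_univ t)
    simp only [Nat.cast_one, one_pow, one_mul]
    linarith
  · have h1 : κ * n1 (bigp ((P.p (0 + 1) : ℝ) ^ 5) κ β)
        ≤ (P.p (0 + 1) : ℝ) ^ 5 * nsq β := by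
      refine n1_le_of_gt (by positivity) hb fun t ht => ?_
      unfold bigp at ht
      by_contra hcon
      push Not at hcon
      exact ht (if_neg (by linarith))
    have h2 : nsq β / κ ≤ Real.sqrt (nsq β + κ ^ 2 + (nsq β / κ) ^ 2) := by
      refine Real.le_sqrt_of_sq_le ?_
      linarith
    calc _ ≤ (P.p (0 + 1) : ℝ) ^ 5 * (nsq β / κ) := by
          rw [← mul_div_assoc, le_div_iff₀ hκ]; linarith
      _ ≤ _ := mul_le_mul_of_nonneg_left h2 (by positivity)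

/-- `CB (k+1)` of the small part -/
theorem CB_small (hB : P.Big) (k : ℕ) (β : Fin P.T → ℝ) (κ : ℝ) (hκ : 0 ≤ κ) :
    CB P (k + 1) (smallp ((P.p (k + 1) : ℝ) ^ 5) κ β)
      (Real.sqrt (nsq β + κ ^ 2 + ((P.p (k + 1) : ℝ) ^ 40)⁻¹ * n1 β ^ 2)) := by
  have hX := nsq_nonneg β
  have hp := hB.p_pos_real (k + 1)
  have hp1 := hB.one_le_p_real (k + 1)
  have hp2 := hB.p_pos_real (k + 2)
  have hY : 0 ≤ ((P.p (k + 1) : ℝ) ^ 40)⁻¹ * n1 β ^ 2 := by positivity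
  have e := sq_sqrt_add hX (sq_nonneg κ) hY
  have hb := abs_smallp_le ((P.p (k + 1) : ℝ) ^ 5) κ β
  have h3 := sq_nonneg κ
  refine ⟨Real.sqrt_nonneg _, ?_, fun t => ?_, ?_⟩
  · rw [e]
    have := nsq_le_of_abs_le hb
    linarith
  · rw [e]
    have h1 : (P.p (k + 1) : ℝ) ^ 10 * smallp ((P.p (k + 1) : ℝ) ^ 5) κ β t ^ 2 ≤ κ ^ 2 := by
      unfold smallp
      split_ifs with h
      · have := pow_le_pow_left₀ (by positivity) h 2
        rw [mul_pow, sq_abs, ← pow_mul] at this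
        exact this
      · simp only [ne_eq, OfNat.ofNat_ne_zero, not_false_eq_true, zero_pow, mul_zero]
        positivity
    linarith
  · have h1 : n1 (smallp ((P.p (k + 1) : ℝ) ^ 5) κ β) ≤ n1 β := n1_le_of_abs_le hb
    have h4 : (P.p (k + 1) : ℝ) ^ 20 ≤ (P.p (k + 1 + 1) : ℝ) ^ 5 := by
      have h5 : (P.p (k + 1) : ℝ) ^ 20 ≤ (P.p (k + 1 + 1) : ℝ) :=
        (pow_le_pow_right₀ hp1 (by norm_num : 20 ≤ 500)).trans (hB.p_step_real (k + 1))
      refine h5.trans ?_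
      exact le_self_pow₀ (hB.one_le_p_real _) (by norm_num)
    have h2 : ((P.p (k + 1) : ℝ) ^ 20)⁻¹ * n1 β
        ≤ Real.sqrt (nsq β + κ ^ 2 + ((P.p (k + 1) : ℝ) ^ 40)⁻¹ * n1 β ^ 2) := by
      refine Real.le_sqrt_of_sq_le ?_
      have h6 : (((P.p (k + 1) : ℝ) ^ 20)⁻¹ * n1 β) ^ 2
          = ((P.p (k + 1) : ℝ) ^ 40)⁻¹ * n1 β ^ 2 := by
        rw [mul_pow, inv_pow, ← pow_mul]
      rw [h6]
      linarith
    calc n1 (smallp ((P.p (k + 1) : ℝ) ^ 5) κ β) ≤ n1 β := h1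
      _ = (P.p (k + 1) : ℝ) ^ 20 * (((P.p (k + 1) : ℝ) ^ 20)⁻¹ * n1 β) := by
          field_simp
      _ ≤ (P.p (k + 1 + 1) : ℝ) ^ 5 *
            Real.sqrt (nsq β + κ ^ 2 + ((P.p (k + 1) : ℝ) ^ 40)⁻¹ * n1 β ^ 2) := by
          refine mul_le_mul h4 h2 ?_ (by positivity)
          have := n1_nonneg β
          positivity

theorem nsq_U_small (hB : P.Big) (hS : Good P S) {k : ℕ} (hk : k < P.K) (β : Fin P.T → ℝ) (κ : ℝ) :
    nsq (U S k (smallp ((P.p (k + 1) : ℝ) ^ 5) κ β))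
      ≤ nsq β + ((P.p (k + 1) : ℝ) ^ 40)⁻¹ * n1 β ^ 2 := by
  have hp := hB.p_pos_real (k + 1)
  have hb := abs_smallp_le ((P.p (k + 1) : ℝ) ^ 5) κ β
  refine (nsq_U_le hB hS hk _).trans ?_
  have h1 := nsq_le_of_abs_le hb
  have h2 := pow_le_pow_left₀ (n1_nonneg _) (n1_le_of_abs_le hb) 2
  have h3 := mul_le_mul_of_nonneg_left h2 (by positivity : 0 ≤ ((P.p (k + 1) : ℝ) ^ 40)⁻¹)
  linarith

end Pool.Agent.PEL
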