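import Pool.Agent.PEL.Tail

/-!
# PEL-CLS, expectation part: moments of sign sums
-/

set_option autoImplicit false

namespace Pool.Agent.PEL

open Finset

section
variable {I : Type} [Fintype I] [DecidableEq I] {J : Type} [Fintype J]

/-- the vector of sign sums -/
noncomputable def bt (z : J → I → ℝ) (ε : I → Bool) : J → ℝ := fun t => ss (z t) ε

theorem av_nsq_bt (z : J → I → ℝ) : av (fun ε => nsq (bt z ε)) = ∑ t, nsq (z t) := by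
  unfold nsq bt
  rw [av_sum]
  exact sum_congr rfl fun t _ => av_ss_sq (z t)

theorem av_nsq_bt_sq (z : J → I → ℝ) :
    av (fun ε => nsq (bt z ε) ^ 2) ≤ 3 * (∑ t, nsq (z t)) ^ 2 := by
  have e : ∀ ε : I → Bool, nsq (bt z ε) ^ 2
      = ∑ s, ∑ t, (ss (z s) ε ^ 2 * ss (z t) ε ^ 2) := by
    intro ε
    unfold nsq bt
    rw [sq, sum_mul_sum]
  rw [av_congr e, av_sum, sq, sum_mul_sum, mul_sum]
  refine sum_le_sum fun s _ => ?_
  rw [av_sum, mul_sum]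
  exact sum_le_sum fun t _ => av_sq_mul_sq (z s) (z t)

theorem av_abs_ss_mul (x y : I → ℝ) :
    av (fun ε => |ss x ε| * |ss y ε|) ≤ nm x * nm y := by
  refine (av_mul_le_sqrt _ _).trans ?_
  simp only [sq_abs]
  rw [av_ss_sq, av_ss_sq]
  rfl

theorem av_n1_bt_sq (z : J → I → ℝ) :
    av (fun ε => n1 (bt z ε) ^ 2) ≤ (∑ t, nm (z t)) ^ 2 := by
  have e : ∀ ε : I → Bool, n1 (bt z ε) ^ 2
      = ∑ s, ∑ t, (|ss (z s) ε| * |ss (z t) ε|) := by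
    intro ε
    unfold n1 bt
    rw [sq, sum_mul_sum]
  rw [av_congr e, av_sum, sq, sum_mul_sum]
  refine sum_le_sum fun s _ => ?_
  rw [av_sum]
  exact sum_le_sum fun t _ => av_abs_ss_mul (z s) (z t)

/-- `(∑ β_t⁴)^{1/2}` -/
noncomputable def m4 (β : J → ℝ) : ℝ := Real.sqrt (∑ t, β t ^ 4)

theorem m4_nonneg (β : J → ℝ) : 0 ≤ m4 β := Real.sqrt_nonneg _

theorem sq_le_m4 (β : J → ℝ) (t : J) : β t ^ 2 ≤ m4 β := by
  refine Real.le_sqrt_of_sq_le ?_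
  calc (β t ^ 2) ^ 2 = β t ^ 4 := by ring
    _ ≤ ∑ t, β t ^ 4 := single_le_sum (f := fun t => β t ^ 4) (fun i _ => by positivity) (mem_univ t)

theorem av_m4_bt (z : J → I → ℝ) (p κ : ℝ) (hp : 0 ≤ p) (hκ : 0 ≤ κ)
    (h1 : ∀ t, p * nm (z t) ≤ κ) (h2 : ∑ t, nsq (z t) ≤ κ ^ 2) :
    p * av (fun ε => m4 (bt z ε)) ≤ 2 * κ ^ 2 := by
  have h3 : av (fun ε => m4 (bt z ε)) ^ 2 ≤ 3 * ∑ t, nsq (z t) ^ 2 := by
    refine (sq_av_le _).trans ?_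
    have e : ∀ ε : I → Bool, m4 (bt z ε) ^ 2 = ∑ t, ss (z t) ε ^ 4 := by
      intro ε
      unfold m4 bt
      rw [Real.sq_sqrt (sum_nonneg fun i _ => by positivity)]
    rw [av_congr e, av_sum, mul_sum]
    exact sum_le_sum fun t _ => av_ss_four (z t)
  have h4 : p ^ 2 * ∑ t, nsq (z t) ^ 2 ≤ κ ^ 2 * κ ^ 2 := by
    rw [mul_sum]
    calc ∑ t, p ^ 2 * nsq (z t) ^ 2 ≤ ∑ t, κ ^ 2 * nsq (z t) := by
          refine sum_le_sum fun t _ => ?_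
          have a1 : (p * nm (z t)) ^ 2 ≤ κ ^ 2 :=
            pow_le_pow_left₀ (mul_nonneg hp (nm_nonneg _)) (h1 t) 2
          rw [mul_pow, nm_sq] at a1
          have a2 := mul_le_mul_of_nonneg_right a1 (nsq_nonneg (z t))
          calc p ^ 2 * nsq (z t) ^ 2 = p ^ 2 * nsq (z t) * nsq (z t) := by ring
            _ ≤ κ ^ 2 * nsq (z t) := a2
      _ = κ ^ 2 * ∑ t, nsq (z t) := by rw [mul_sum]
      _ ≤ κ ^ 2 * κ ^ 2 := mul_le_mul_of_nonneg_left h2 (sq_nonneg κ)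
  have h5 : 0 ≤ av (fun ε => m4 (bt z ε)) := av_nonneg fun ε => m4_nonneg _
  refine abs_le_of_sq_le_sq' ?_ (by positivity) |>.2
  calc (p * av fun ε => m4 (bt z ε)) ^ 2 = p ^ 2 * (av fun ε => m4 (bt z ε)) ^ 2 := by ring
    _ ≤ p ^ 2 * (3 * ∑ t, nsq (z t) ^ 2) := mul_le_mul_of_nonneg_left h3 (sq_nonneg p)
    _ = 3 * (p ^ 2 * ∑ t, nsq (z t) ^ 2) := by ring
    _ ≤ 3 * (κ ^ 2 * κ ^ 2) := by linarith
    _ ≤ (2 * κ ^ 2) ^ 2 := by nlinarith [sq_nonneg (κ ^ 2)]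

end

end Pool.Agent.PEL
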