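import Pool.Agent.PEL.Lin

/-!
# PEL : the data of the level lemma
-/

set_option autoImplicit false

namespace Pool.Agent.PEL

open Finset

variable {P : Par} {S : P.Sam} {F : Submodule ℝ (P.A → ℝ)} {Db : ℝ}

/-- The properties of the projection `Q_l` obtained from `reg` (no exceptional sets yet). -/
structure LQ (C : Can S F Db) (l : ℕ) (Q : (P.A → ℝ) →ₗ[ℝ] (P.A → ℝ)) : Prop where
  sym : ∀ x y, ip (Q x) y = ip x (Q y)
  idem : ∀ x, Q (Q x) = Q x
  supp : ∀ x (a : P.A), (a.1 : ℕ) ≠ l → Q x a = 0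
  orthb : ∀ u (a : P.A), (a.1 : ℕ) < l → ip (C.cb (Q u)) (C.g a) = 0
  orthk : ∀ k < P.K, ∀ u (a : P.A), (a.1 : ℕ) < l →
    ip (C.ck k (Q u)) (fun t => C.z k t a) = 0
  rb : ∀ u, (P.p (l + 1) : ℝ) ^ 40 * nsq (C.cb (Q u)) ≤ (∑ a ∈ lvl P l, nsq (C.g a)) * nsq u
  rk : ∀ k < P.K, ∀ u, (P.p (l + 1) : ℝ) ^ 40 * nsq (C.ck k (Q u)) ≤
    (∑ a ∈ lvl P l, nsq (fun t => C.z k t a)) * nsq u
  rw : ∀ k < P.K, ∀ u, (P.p (l + 1) : ℝ) ^ 40 * nsq (W S k (C.ck k (Q u))) ≤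
    2 * P.K * C.κ k ^ 2 * nsq u
  rdim : ∑ a ∈ lvl P l, nsq ((Pi.single a 1 : P.A → ℝ) - Q (Pi.single a 1)) ≤
    (P.p (l + 1) : ℝ) ^ 42

/-- `c_b` as a linear map -/
def cbL (C : Can S F Db) : (P.A → ℝ) →ₗ[ℝ] (P.A → ℝ) where
  toFun := C.cb
  map_add' x y := by simp only [Can.cb, Pi.add_apply, add_smul, sum_add_distrib]
  map_smul' c x := by
    simp only [Can.cb, Pi.smul_apply, smul_eq_mul, RingHom.id_apply, mul_smul, smul_sum]

/-- `c_k` as a linear map -/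
def ckL (C : Can S F Db) (k : ℕ) : (P.A → ℝ) →ₗ[ℝ] (Fin P.T → ℝ) where
  toFun := C.ck k
  map_add' x y := by funext t; simp only [Can.ck, ip_add_right, Pi.add_apply]
  map_smul' c x := by
    funext t; simp only [Can.ck, ip_smul_right, Pi.smul_apply, smul_eq_mul, RingHom.id_apply]

theorem cbL_apply (C : Can S F Db) (u : P.A → ℝ) : cbL C u = C.cb u := rfl

theorem ckL_apply (C : Can S F Db) (k : ℕ) (u : P.A → ℝ) : ckL C k u = C.ck k u := rfl

theorem cb_single (C : Can S F Db) (a : P.A) : C.cb (Pi.single a 1) = C.g a := by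
  unfold Can.cb
  rw [Finset.sum_eq_single a]
  · simp
  · intro b _ hb; simp [Pi.single_apply, hb]
  · intro h; exact absurd (mem_univ _) h

theorem ip_single {ι : Type} [Fintype ι] [DecidableEq ι] (x : ι → ℝ) (a : ι) :
    ip x (Pi.single a 1) = x a := by
  unfold ip
  rw [Finset.sum_eq_single a]
  · simp
  · intro b _ hb; simp [Pi.single_apply, hb]
  · intro h; exact absurd (mem_univ _) h

theorem ck_single (C : Can S F Db) (k : ℕ) (a : P.A) :
    C.ck k (Pi.single a 1) = fun t => C.z k t a := by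
  funext t; exact ip_single _ _

end Pool.Agent.PEL
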