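import Pool.Agent.PEL.ClsLem
import Pool.Agent.PEL.LevDefs

/-!
# PEL-CLUK : the second term of the cluster lemma (4.3 of the text)
-/

set_option autoImplicit false

namespace Pool.Agent.PEL

open Finset

variable {P : Par} {S : P.Sam} {F : Submodule ℝ (P.A → ℝ)} {Db : ℝ}

/-- the sum of pairwise orthogonal vectors -/
theorem cluk_nsq_sum {ι : Type} [Fintype ι] (x : ℕ → ι → ℝ) (k : ℕ)
    (h : ∀ l < k, ∀ l' < l, ip (x l') (x l) = 0) :
    nsq (∑ l ∈ range k, x l) = ∑ l ∈ range k, nsq (x l) := by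
  induction k with
  | zero => simp [nsq_zero]
  | succ k ih =>
    rw [sum_range_succ, sum_range_succ, nsq_add, ih fun l hl => h l (hl.trans (Nat.lt_succ_self k)),
      ip_sum_left, sum_eq_zero fun l hl => h k (Nat.lt_succ_self k) l (mem_range.mp hl)]
    ring

/-- `Q_l` is a contraction, supported on level `l` -/
theorem cluk_nm_Q (C : Can S F Db) {l : ℕ} {Q : (P.A → ℝ) →ₗ[ℝ] (P.A → ℝ)}
    {Ex : Finset (Fin P.T)} (h : Lvl C l Q Ex) (u : P.A → ℝ) : nm (Q u) ≤ nm (lv l u) := by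
  have h1 : nsq (Q u) = ip (Q u) (lv l u) := by
    rw [← ip_self, h.sym, h.idem, ip_comm]
    rw [← ip_lv_comm]
    congr 1
    funext a
    unfold lv
    split_ifs with ha
    · rfl
    · exact h.supp u a ha
  have h2 := ip_le (Q u) (lv l u)
  rw [← h1, ← nm_sq, sq] at h2
  rcases (nm_nonneg (Q u)).eq_or_lt with h3 | h3
  · rw [← h3]; exact nm_nonneg _
  · exact le_of_mul_le_mul_left h2 h3

theorem cluk_nm_uh (hB : P.Big) {l : ℕ} (hl : l < P.K) (ζ : Fin P.T → ℝ) :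
    nm (lv l (uh S ζ)) ≤ (P.p (l + 1) : ℝ) ^ 50 * n1 ζ := by
  have hp := hB.p_pos_real (l + 1)
  rw [nm_le_iff (mul_nonneg (by positivity) (n1_nonneg ζ)), nsq_lv]
  have h1 : ∀ a ∈ lvl P l, uh S ζ a ^ 2 ≤ n1 ζ ^ 2 := by
    intro a _
    rw [← sq_abs (uh S ζ a)]
    refine pow_le_pow_left₀ (abs_nonneg _) ?_ 2
    unfold uh n1
    refine (abs_sum_le_sum_abs _ _).trans (sum_le_sum fun t _ => ?_)
    rw [abs_mul, abs_sg, mul_one]
  refine (sum_le_sum h1).trans ?_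
  rw [sum_const, Par.card_lvl hl, nsmul_eq_mul, Par.N_eq, mul_pow]
  apply le_of_eq
  push_cast
  ring

theorem cluk_nm_Quh (hB : P.Big) (C : Can S F Db) {l : ℕ} (hl : l < P.K)
    {Q : (P.A → ℝ) →ₗ[ℝ] (P.A → ℝ)} {Ex : Finset (Fin P.T)} (h : Lvl C l Q Ex)
    (ζ : Fin P.T → ℝ) (zb : ℝ) (h3 : n1 ζ ≤ (P.p (l + 1) : ℝ) ^ 6 * zb) :
    nm (Q (uh S ζ)) ≤ (P.p (l + 1) : ℝ) ^ 56 * zb := by
  have hp := hB.p_pos_real (l + 1)
  calc nm (Q (uh S ζ)) ≤ nm (lv l (uh S ζ)) := cluk_nm_Q C h _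
    _ ≤ (P.p (l + 1) : ℝ) ^ 50 * n1 ζ := cluk_nm_uh hB hl ζ
    _ ≤ (P.p (l + 1) : ℝ) ^ 50 * ((P.p (l + 1) : ℝ) ^ 6 * zb) :=
        mul_le_mul_of_nonneg_left h3 (by positivity)
    _ = _ := by ring

/-- orthogonality of the levels under `c_k` -/
theorem cluk_orth (C : Can S F Db) {l l' : ℕ} (hl : l' < l)
    {Q Q' : (P.A → ℝ) →ₗ[ℝ] (P.A → ℝ)} {Ex Ex' : Finset (Fin P.T)} (h : Lvl C l Q Ex)
    (h' : Lvl C l' Q' Ex') {k : ℕ} (hk : k < P.K) (u u' : P.A → ℝ) :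
    ip (C.ck k (Q' u')) (C.ck k (Q u)) = 0 := by
  have e : C.ck k (Q' u') = ∑ a, (Q' u') a • (fun t => C.z k t a) := by
    funext t
    rw [Finset.sum_apply]
    simp only [Pi.smul_apply, smul_eq_mul]
    unfold Can.ck ip
    exact sum_congr rfl fun a _ => mul_comm _ _
  rw [e, ip_sum_left]
  refine sum_eq_zero fun a _ => ?_
  rw [ip_smul_left]
  by_cases ha : (a.1 : ℕ) = l'
  · rw [ip_comm, h.orthk k hk u a (by omega), mul_zero]
  · rw [h'.supp u' a ha, zero_mul]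

theorem cluk_ck_sum (C : Can S F Db) (k : ℕ) {J : Type} (s : Finset J) (x : J → P.A → ℝ) :
    C.ck k (∑ j ∈ s, x j) = ∑ j ∈ s, C.ck k (x j) := by
  simp only [← ckL_apply]
  exact map_sum _ _ _

section main

variable {I : Type} [Fintype I]

/-- `z'_{k,t}` -/
noncomputable def clukz (C : Can S F Db) (Q : ℕ → (P.A → ℝ) →ₗ[ℝ] (P.A → ℝ))
    (ζ : ℕ → I → Fin P.T → ℝ) (k : ℕ) (t : Fin P.T) (i : I) : ℝ :=
  ip (C.z k t) (∑ l ∈ range k, Q l (uh S (ζ l i)))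

theorem cluk_two (C : Can S F Db)
    (Q : ℕ → (P.A → ℝ) →ₗ[ℝ] (P.A → ℝ)) (Ex : ℕ → Finset (Fin P.T))
    (h : ∀ l < P.K, Lvl C l (Q l) (Ex l)) (hB : P.Big)
    (ζ : ℕ → I → Fin P.T → ℝ) (zb : I → ℝ)
    (h0 : ∀ i, 0 ≤ zb i) (h1 : ∀ l < P.K, ∀ i, ∀ t ∈ Ex l, ζ l i t = 0)
    (h2 : ∀ l < P.K, ∀ i, nsq (ζ l i) ≤ zb i ^ 2)
    (h3 : ∀ l < P.K, ∀ i, n1 (ζ l i) ≤ (P.p (l + 1) : ℝ) ^ 6 * zb i) {k : ℕ} (hk : k < P.K) :
    ∑ t, nsq (clukz C Q ζ k t) ≤ 2 * (∑ i, zb i ^ 2) * C.κ k ^ 2 := by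
  have hK : (0 : ℝ) < P.K := lt_of_lt_of_le one_pos hB.one_le_K
  have e1 : ∑ t, nsq (clukz C Q ζ k t) =
      ∑ i, nsq (C.ck k (∑ l ∈ range k, Q l (uh S (ζ l i)))) := by
    unfold nsq
    rw [sum_comm]
    rfl
  have e2 : ∀ i, nsq (C.ck k (∑ l ∈ range k, Q l (uh S (ζ l i)))) =
      ∑ l ∈ range k, nsq (C.ck k (Q l (uh S (ζ l i)))) := by
    intro i
    rw [cluk_ck_sum]
    apply cluk_nsq_sum
    intro l hl l' hl'
    exact cluk_orth C hl' (h l (by omega)) (h l' (by omega)) hk _ _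
  have e3 : ∑ l ∈ range k, ∑ a ∈ lvl P l, nsq (fun t => C.z k t a) ≤ C.κ k ^ 2 := by
    calc ∑ l ∈ range k, ∑ a ∈ lvl P l, nsq (fun t => C.z k t a)
        ≤ ∑ l ∈ range P.K, ∑ a ∈ lvl P l, nsq (fun t => C.z k t a) :=
          sum_le_sum_of_subset_of_nonneg (range_subset_range.mpr hk.le)
            fun l _ _ => sum_nonneg fun a _ => nsq_nonneg _
      _ = ∑ a, nsq (fun t => C.z k t a) := (Par.sum_lvl _).symm
      _ = ∑ t, nsq (C.z k t) := by unfold nsq; rw [sum_comm]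
      _ ≤ _ := C.c2 k hk
  have e4 : ∀ i, nsq (C.ck k (∑ l ∈ range k, Q l (uh S (ζ l i)))) ≤
      zb i ^ 2 * (2 * C.κ k ^ 2) := by
    intro i
    rw [e2]
    calc ∑ l ∈ range k, nsq (C.ck k (Q l (uh S (ζ l i))))
        ≤ ∑ l ∈ range k, zb i ^ 2 *
            (∑ a ∈ lvl P l, nsq (fun t => C.z k t a) + C.κ k ^ 2 / P.K) := by
          refine sum_le_sum fun l hl => ?_
          have hl' : l < P.K := lt_trans (mem_range.mp hl) hk
          exact (h l hl').e2 k hk (ζ l i) (zb i) (h0 i) (h1 l hl' i) (h2 l hl' i) (h3 l hl' i)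
      _ = zb i ^ 2 * (∑ l ∈ range k, ∑ a ∈ lvl P l, nsq (fun t => C.z k t a) +
            k * (C.κ k ^ 2 / P.K)) := by
          rw [← mul_sum, sum_add_distrib, sum_const, card_range, nsmul_eq_mul]
      _ ≤ zb i ^ 2 * (2 * C.κ k ^ 2) := by
          refine mul_le_mul_of_nonneg_left ?_ (sq_nonneg _)
          have h4 : (k : ℝ) * (C.κ k ^ 2 / P.K) ≤ C.κ k ^ 2 := by
            have h5 : (k : ℝ) ≤ P.K := by exact_mod_cast hk.le
            rw [mul_div_assoc', div_le_iff₀ hK, mul_comm]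
            exact mul_le_mul_of_nonneg_left h5 (sq_nonneg _)
          linarith
  rw [e1]
  calc _ ≤ ∑ i, zb i ^ 2 * (2 * C.κ k ^ 2) := sum_le_sum fun i _ => e4 i
    _ = _ := by rw [← sum_mul]; ring

theorem cluk_nm_le (z : I → ℝ) (zb : I → ℝ) (c : ℝ) (hc : 0 ≤ c)
    (h : ∀ i, |z i| ≤ c * zb i) : nm z ≤ c * Real.sqrt (∑ i, zb i ^ 2) := by
  rw [nm_le_iff (mul_nonneg hc (Real.sqrt_nonneg _)), mul_pow,
    Real.sq_sqrt (sum_nonneg fun i _ => sq_nonneg _), mul_sum]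
  unfold nsq
  refine sum_le_sum fun i _ => ?_
  rw [← mul_pow, ← sq_abs (z i)]
  exact pow_le_pow_left₀ (abs_nonneg _) (h i) 2

theorem cluk_one (C : Can S F Db)
    (Q : ℕ → (P.A → ℝ) →ₗ[ℝ] (P.A → ℝ)) (Ex : ℕ → Finset (Fin P.T))
    (h : ∀ l < P.K, Lvl C l (Q l) (Ex l)) (hB : P.Big)
    (ζ : ℕ → I → Fin P.T → ℝ) (zb : I → ℝ)
    (h0 : ∀ i, 0 ≤ zb i) (h1 : ∀ l < P.K, ∀ i, ∀ t ∈ Ex l, ζ l i t = 0)
    (h2 : ∀ l < P.K, ∀ i, nsq (ζ l i) ≤ zb i ^ 2)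
    (h3 : ∀ l < P.K, ∀ i, n1 (ζ l i) ≤ (P.p (l + 1) : ℝ) ^ 6 * zb i) {k : ℕ} (hk : k < P.K)
    (t : Fin P.T) :
    (P.p k : ℝ) * nm (clukz C Q ζ k t) ≤ C.κ k * Real.sqrt (∑ i, zb i ^ 2) := by
  have hκ := C.κpos k
  rcases Nat.eq_zero_or_pos k with rfl | hk0
  · have e : clukz C Q ζ 0 t = 0 := by
      funext i
      unfold clukz
      rw [range_zero, sum_empty, ip_zero_right]; rfl
    rw [e, nm_zero, mul_zero]
    exact mul_nonneg hκ.le (Real.sqrt_nonneg _)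
  obtain ⟨j, rfl⟩ : ∃ j, k = j + 1 := ⟨k - 1, by omega⟩
  have hp := hB.p_pos_real (j + 1)
  have hp1 := hB.one_le_p_real (j + 1)
  have hKp : (P.K : ℝ) ≤ P.p (j + 1) := by
    have h4 := hB.K_pow_le_real j
    have h5 := hB.one_le_K
    calc (P.K : ℝ) ≤ 1000 * (P.K : ℝ) := by linarith
      _ ≤ (1000 * (P.K : ℝ)) ^ 20 := le_self_pow₀ (by linarith) (by norm_num)
      _ ≤ _ := h4
  -- every single term
  have e1 : ∀ l < j + 1, ∀ i, (P.p (j + 1) : ℝ) ^ 2 * |ip (C.z (j + 1) t) (Q l (uh S (ζ l i)))|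
      ≤ C.κ (j + 1) * zb i := by
    intro l hl i
    rcases Nat.lt_succ_iff_lt_or_eq.mp hl with hlj | rfl
    · have hlK : l < P.K := by omega
      have h4 := abs_ip_le (C.z (j + 1) t) (Q l (uh S (ζ l i)))
      have h5 := cluk_nm_Quh hB C hlK (h l hlK) (ζ l i) (zb i) (h3 l hlK i)
      have h6 := C.c3 (j + 1) hk t
      have h7 : (P.p (l + 1) : ℝ) ^ 56 ≤ P.p (j + 1) := by
        have h8 : (P.p (l + 1) : ℝ) ≤ P.p j := hB.p_mono_real (by omega)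
        have hp' := hB.p_pos_real (l + 1)
        calc (P.p (l + 1) : ℝ) ^ 56 ≤ (P.p j : ℝ) ^ 56 := pow_le_pow_left₀ hp'.le h8 56
          _ ≤ (P.p j : ℝ) ^ 500 := pow_le_pow_right₀ (hB.one_le_p_real j) (by norm_num)
          _ ≤ _ := hB.p_step_real j
      have h9 : nm (Q l (uh S (ζ l i))) ≤ (P.p (j + 1) : ℝ) * zb i :=
        h5.trans (mul_le_mul_of_nonneg_right h7 (h0 i))
      calc (P.p (j + 1) : ℝ) ^ 2 * |ip (C.z (j + 1) t) (Q l (uh S (ζ l i)))|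
          ≤ (P.p (j + 1) : ℝ) ^ 2 * (nm (C.z (j + 1) t) * ((P.p (j + 1) : ℝ) * zb i)) := by
            refine mul_le_mul_of_nonneg_left (h4.trans ?_) (by positivity)
            exact mul_le_mul_of_nonneg_left h9 (nm_nonneg _)
        _ = ((P.p (j + 1) : ℝ) ^ 3 * nm (C.z (j + 1) t)) * zb i := by ring
        _ ≤ ((P.p (j + 1) : ℝ) ^ 5 * nm (C.z (j + 1) t)) * zb i := by
            refine mul_le_mul_of_nonneg_right (mul_le_mul_of_nonneg_right ?_ (nm_nonneg _)) (h0 i)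
            exact pow_le_pow_right₀ hp1 (by norm_num)
        _ ≤ _ := mul_le_mul_of_nonneg_right h6 (h0 i)
    · exact (h l (by omega)).e5 hk (ζ l i) (zb i) (h0 i) (h1 l (by omega) i) (h2 l (by omega) i)
        (h3 l (by omega) i) t
  have e2 : ∀ i, |clukz C Q ζ (j + 1) t i| ≤ (C.κ (j + 1) / P.p (j + 1)) * zb i := by
    intro i
    have h4 : |clukz C Q ζ (j + 1) t i| ≤
        ∑ l ∈ range (j + 1), |ip (C.z (j + 1) t) (Q l (uh S (ζ l i)))| := by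
      unfold clukz
      rw [ip_sum_right]
      exact abs_sum_le_sum_abs _ _
    have h5 : (P.p (j + 1) : ℝ) ^ 2 * |clukz C Q ζ (j + 1) t i| ≤
        P.p (j + 1) * (C.κ (j + 1) * zb i) := by
      calc (P.p (j + 1) : ℝ) ^ 2 * |clukz C Q ζ (j + 1) t i|
          ≤ (P.p (j + 1) : ℝ) ^ 2 *
            ∑ l ∈ range (j + 1), |ip (C.z (j + 1) t) (Q l (uh S (ζ l i)))| :=
            mul_le_mul_of_nonneg_left h4 (by positivity)
        _ = ∑ l ∈ range (j + 1), (P.p (j + 1) : ℝ) ^ 2 *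
            |ip (C.z (j + 1) t) (Q l (uh S (ζ l i)))| := mul_sum _ _ _
        _ ≤ ∑ l ∈ range (j + 1), C.κ (j + 1) * zb i :=
            sum_le_sum fun l hl => e1 l (mem_range.mp hl) i
        _ = ((j + 1 : ℕ) : ℝ) * (C.κ (j + 1) * zb i) := by
            rw [sum_const, card_range, nsmul_eq_mul]
        _ ≤ P.p (j + 1) * (C.κ (j + 1) * zb i) := by
            refine mul_le_mul_of_nonneg_right ?_ (mul_nonneg hκ.le (h0 i))
            refine le_trans ?_ hKp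
            exact_mod_cast hk.le
    have h6 : (P.p (j + 1) : ℝ) * |clukz C Q ζ (j + 1) t i| ≤ C.κ (j + 1) * zb i := by
      have h7 : (P.p (j + 1) : ℝ) * ((P.p (j + 1) : ℝ) * |clukz C Q ζ (j + 1) t i|) ≤
          P.p (j + 1) * (C.κ (j + 1) * zb i) := by
        calc _ = (P.p (j + 1) : ℝ) ^ 2 * |clukz C Q ζ (j + 1) t i| := by ring
          _ ≤ _ := h5
      exact le_of_mul_le_mul_left h7 hp
    rw [div_mul_eq_mul_div, le_div_iff₀ hp, mul_comm]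
    exact h6
  have e3 := cluk_nm_le (clukz C Q ζ (j + 1) t) zb (C.κ (j + 1) / P.p (j + 1))
    (div_nonneg hκ.le hp.le) e2
  calc (P.p (j + 1) : ℝ) * nm (clukz C Q ζ (j + 1) t)
      ≤ (P.p (j + 1) : ℝ) * (C.κ (j + 1) / P.p (j + 1) * Real.sqrt (∑ i, zb i ^ 2)) :=
        mul_le_mul_of_nonneg_left e3 hp.le
    _ = _ := by field_simp

theorem cluk_three (C : Can S F Db)
    (Q : ℕ → (P.A → ℝ) →ₗ[ℝ] (P.A → ℝ)) (Ex : ℕ → Finset (Fin P.T))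
    (h : ∀ l < P.K, Lvl C l (Q l) (Ex l)) (hB : P.Big)
    (ζ : ℕ → I → Fin P.T → ℝ) (zb : I → ℝ) (h0 : ∀ i, 0 ≤ zb i)
    (h3 : ∀ l < P.K, ∀ i, n1 (ζ l i) ≤ (P.p (l + 1) : ℝ) ^ 6 * zb i) {k : ℕ} (hk : k < P.K) :
    ∑ t, nm (clukz C Q ζ k t) ≤
      (P.p (k + 1) : ℝ) ^ 20 * (C.κ k * Real.sqrt (∑ i, zb i ^ 2)) := by
  have hκ := C.κpos k
  have hp := hB.p_pos_real (k + 1)
  have hp1 := hB.one_le_p_real (k + 1)
  have hpk := hB.one_le_p_real k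
  have hKp : (P.K : ℝ) ≤ P.p (k + 1) := by
    have h4 := hB.K_pow_le_real k
    have h5 := hB.one_le_K
    calc (P.K : ℝ) ≤ 1000 * (P.K : ℝ) := by linarith
      _ ≤ (1000 * (P.K : ℝ)) ^ 20 := le_self_pow₀ (by linarith) (by norm_num)
      _ ≤ _ := h4
  have h2m : 2 * (P.m : ℝ) ≤ (P.p (k + 1) : ℝ) ^ 2 := by
    have h4 := hB.m_le_p_real k
    have h5 : (2 : ℝ) ≤ P.p (k + 1) := by
      have h6 : (1000 : ℝ) ^ 20 ≤ P.m := by exact_mod_cast hB.m_ge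
      have h7 : (2 : ℝ) ≤ 1000 ^ 20 := by norm_num
      linarith
    nlinarith
  have e1 : ∀ t i, |clukz C Q ζ k t i| ≤
      ((P.p (k + 1) : ℝ) ^ 2 * nm (C.z k t)) * zb i := by
    intro t i
    unfold clukz
    rw [ip_sum_right]
    refine (abs_sum_le_sum_abs _ _).trans ?_
    have h4 : ∀ l ∈ range k, |ip (C.z k t) (Q l (uh S (ζ l i)))| ≤
        nm (C.z k t) * (P.p (k + 1) * zb i) := by
      intro l hl
      have hlk := mem_range.mp hl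
      have hlK : l < P.K := by omega
      refine (abs_ip_le _ _).trans (mul_le_mul_of_nonneg_left ?_ (nm_nonneg _))
      refine (cluk_nm_Quh hB C hlK (h l hlK) (ζ l i) (zb i) (h3 l hlK i)).trans ?_
      refine mul_le_mul_of_nonneg_right ?_ (h0 i)
      have h8 : (P.p (l + 1) : ℝ) ≤ P.p k := hB.p_mono_real (by omega)
      have hp' := hB.p_pos_real (l + 1)
      calc (P.p (l + 1) : ℝ) ^ 56 ≤ (P.p k : ℝ) ^ 56 := pow_le_pow_left₀ hp'.le h8 56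
        _ ≤ (P.p k : ℝ) ^ 500 := pow_le_pow_right₀ hpk (by norm_num)
        _ ≤ _ := hB.p_step_real k
    refine (sum_le_sum h4).trans ?_
    rw [sum_const, card_range, nsmul_eq_mul]
    have h5 : (k : ℝ) ≤ P.p (k + 1) := le_trans (by exact_mod_cast hk.le) hKp
    have h6 : 0 ≤ nm (C.z k t) * (P.p (k + 1) * zb i) :=
      mul_nonneg (nm_nonneg _) (mul_nonneg hp.le (h0 i))
    calc (k : ℝ) * (nm (C.z k t) * (P.p (k + 1) * zb i))
        ≤ P.p (k + 1) * (nm (C.z k t) * (P.p (k + 1) * zb i)) :=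
          mul_le_mul_of_nonneg_right h5 h6
      _ = _ := by ring
  have e2 : ∀ t, nm (clukz C Q ζ k t) ≤
      ((P.p (k + 1) : ℝ) ^ 2 * nm (C.z k t)) * Real.sqrt (∑ i, zb i ^ 2) := fun t =>
    cluk_nm_le _ zb _ (mul_nonneg (by positivity) (nm_nonneg _)) (e1 t)
  have hs : 0 ≤ C.κ k * Real.sqrt (∑ i, zb i ^ 2) := mul_nonneg hκ.le (Real.sqrt_nonneg _)
  calc ∑ t, nm (clukz C Q ζ k t)
      ≤ ∑ t, ((P.p (k + 1) : ℝ) ^ 2 * nm (C.z k t)) * Real.sqrt (∑ i, zb i ^ 2) :=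
        sum_le_sum fun t _ => e2 t
    _ = (P.p (k + 1) : ℝ) ^ 2 * (∑ t, nm (C.z k t)) * Real.sqrt (∑ i, zb i ^ 2) := by
        rw [← sum_mul, ← mul_sum]
    _ ≤ (P.p (k + 1) : ℝ) ^ 2 * (2 * P.m * (P.p (k + 1) : ℝ) ^ 5 * C.κ k) *
          Real.sqrt (∑ i, zb i ^ 2) := by
        refine mul_le_mul_of_nonneg_right ?_ (Real.sqrt_nonneg _)
        exact mul_le_mul_of_nonneg_left (C.c4 k hk) (by positivity)
    _ = (2 * P.m) * ((P.p (k + 1) : ℝ) ^ 7 * (C.κ k * Real.sqrt (∑ i, zb i ^ 2))) := by ring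
    _ ≤ (P.p (k + 1) : ℝ) ^ 2 * ((P.p (k + 1) : ℝ) ^ 7 *
          (C.κ k * Real.sqrt (∑ i, zb i ^ 2))) :=
        mul_le_mul_of_nonneg_right h2m (mul_nonneg (by positivity) hs)
    _ = (P.p (k + 1) : ℝ) ^ 9 * (C.κ k * Real.sqrt (∑ i, zb i ^ 2)) := by ring
    _ ≤ _ := mul_le_mul_of_nonneg_right (pow_le_pow_right₀ hp1 (by norm_num)) hs

/-- the second term of the cluster lemma -/
theorem cluk_class (hB : P.Big) (hS : Good P S) (C : Can S F Db) [DecidableEq I]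
    (Q : ℕ → (P.A → ℝ) →ₗ[ℝ] (P.A → ℝ)) (Ex : ℕ → Finset (Fin P.T))
    (h : ∀ l < P.K, Lvl C l (Q l) (Ex l))
    (ζ : ℕ → I → Fin P.T → ℝ) (zb : I → ℝ)
    (h0 : ∀ i, 0 ≤ zb i) (h1 : ∀ l < P.K, ∀ i, ∀ t ∈ Ex l, ζ l i t = 0)
    (h2 : ∀ l < P.K, ∀ i, nsq (ζ l i) ≤ zb i ^ 2)
    (h3 : ∀ l < P.K, ∀ i, n1 (ζ l i) ≤ (P.p (l + 1) : ℝ) ^ 6 * zb i) :
    av (fun δ : I → Bool => DN S F (∑ k ∈ range P.K, W S k
      (C.ck k (∑ i, sg (δ i) • ∑ l ∈ range k, Q l (uh S (ζ l i))))) ^ 2) ≤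
      400 * Db ^ 2 * ∑ i, zb i ^ 2 := by
  set Z := ∑ i, zb i ^ 2 with hZ
  have hZ0 : 0 ≤ Z := sum_nonneg fun i _ => sq_nonneg _
  have hs0 : 0 ≤ Real.sqrt Z := Real.sqrt_nonneg _
  have hs2 : Real.sqrt 2 ^ 2 = 2 := Real.sq_sqrt (by norm_num)
  have hs21 : 1 ≤ Real.sqrt 2 := by
    rw [show (1 : ℝ) = Real.sqrt 1 by simp]
    exact Real.sqrt_le_sqrt (by norm_num)
  have e : ∀ δ : I → Bool, ∀ k, C.ck k (∑ i, sg (δ i) • ∑ l ∈ range k, Q l (uh S (ζ l i))) =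
      fun t => ss (clukz C Q ζ k t) δ := by
    intro δ k
    funext t
    unfold Can.ck ss clukz
    rw [ip_sum_right]
    refine sum_congr rfl fun i _ => ?_
    rw [ip_smul_right, mul_comm]
  simp only [e]
  refine (class_lemma hB hS F (clukz C Q ζ) (fun k => Real.sqrt 2 * (C.κ k * Real.sqrt Z))
    ?_ ?_ ?_ ?_).trans ?_
  · intro k
    exact mul_nonneg (by positivity) (mul_nonneg (C.κpos k).le hs0)
  · intro k hk t
    refine (cluk_one C Q Ex h hB ζ zb h0 h1 h2 h3 hk t).trans ?_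
    exact le_mul_of_one_le_left (mul_nonneg (C.κpos k).le hs0) hs21
  · intro k hk
    refine (cluk_two C Q Ex h hB ζ zb h0 h1 h2 h3 hk).trans ?_
    rw [mul_pow, mul_pow, hs2, Real.sq_sqrt hZ0]
    apply le_of_eq; ring
  · intro k hk
    refine (cluk_three C Q Ex h hB ζ zb h0 h3 hk).trans ?_
    refine mul_le_mul_of_nonneg_left ?_ (pow_nonneg (hB.p_pos_real _).le _)
    exact le_mul_of_one_le_left (mul_nonneg (C.κpos k).le hs0) hs21
  · have e2 : ∀ k, (Real.sqrt 2 * (C.κ k * Real.sqrt Z)) ^ 2 = 2 * Z * C.κ k ^ 2 := by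
      intro k
      rw [mul_pow, mul_pow, hs2, Real.sq_sqrt hZ0]; ring
    simp only [e2]
    rw [← mul_sum]
    have h5 := mul_le_mul_of_nonneg_left C.c5 (by positivity : (0 : ℝ) ≤ 200 * Z)
    calc 100 * (2 * Z * ∑ k ∈ range P.K, C.κ k ^ 2) = 200 * Z * ∑ k ∈ range P.K, C.κ k ^ 2 := by
          ring
      _ ≤ 200 * Z * (2 * Db ^ 2) := h5
      _ = _ := by ring

end main

end Pool.Agent.PEL
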