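import Pool.Agent.PEL.CluK

/-!
# PEL-CLU : the cluster lemma (4.3 of the text)

`û_{l,i} = uh S (ζ l i)`. `∑_l U_l ζ_{l,i} = (σ_a ∑_l lv_l(û_{l,i})(a))_a`. `u'_i = ∑_l Q_l û_{l,i}` and for `k`: `u'_{<k,i} = ∑_{l<k} Q_l û_{l,i}`,
`u'_{≥k,i} = ∑_{k≤l<K}`. By `C.c0` (with `u = u'`), for `x ∈ F`:
`⟨∑_l U_l ζ_{l,i}, x⟩ = ⟨c_b u'_i + ∑_k W_k c_k u'_{<k,i} + ∑_k W_k c_k u'_{≥k,i} + Σ^{1/2} ∑_l (lv_l - Q_l) û_{l,i}, x⟩`. Sum over `i` with signs, `DN_congr`,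
`DN_add_le`, `(a+b+c+d)² ≤ 4(..)`.
* 1st: `DN ≤ nm`, `av_nsq_signs`: `∑_i nsq (c_b u'_i) = ∑_i ∑_l nsq (c_b Q_l û_{l,i})` (`orthb`: for `l' < l`: `⟨c_b Q_l u, c_b Q_{l'} u'⟩ = 0` because
  `Q_{l'}u' = ∑_{a level l'} (·)_a e_a`), `≤ ∑_i zb_i² ∑_l (∑_{lvl l} nsq (g a) + Db²/K) ≤ 2Db² ∑ zb_i²` (`e1`, `C.c1`).
* 3rd: `nsq (∑_k ∑_{l≥k} W_k c_k Q_l û) ≤ K² ∑∑ nsq ≤ K² · K ∑_k κ_k²/K^5 zb² ≤ 2Db² zb²` (`e3`, `c5`).
* 4th: levels are orthogonal: `∑_l p^{-100} nsq(..) ≤ K zb²/K^5 ≤ zb² ≤ Db² zb²` (`e4`, `sig` on level `l` is `p_{l+1}^{-50}`).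
* 2nd: `class_lemma` with `z' k t i = ip (C.z k t) (u'_{<k,i})`, `κ'_k = (2 ∑ zb_i²)^{1/2} κ_k`: (2): `∑_t nsq (z' k t) = ∑_i nsq (c_k u'_{<k,i})
  = ∑_i ∑_{l<k} nsq(c_k Q_l û) ≤ ∑ zb_i² (κ_k² + κ_k²)` (`orthk`, `e2`, `∑_a nsq (z k · a) = ∑_t nsq (z k t) ≤ κ²`).
  (1): `l = k-1`: `e5` (`l+1 = k < K`); `l < k-1`: `|ip (z k t) (Q_l û)| ≤ nm (z k t) · nm (lv l û) ≤ p_k^{-5}κ · p_{l+1}^{50} p_{l+1}^6 zb ≤ p_k^{-4} κ zb`; so
  `p_k |z' k t i| ≤ p_k K p_k^{-2} κ zb_i ≤ κ zb_i` (`k ≥ 1`; `k = 0`: `z' = 0`).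
  (3): `nm (z' k t) ≤ K p_k^{56} nm (z k t) (∑ zb²)^{1/2}`; `∑_t ≤ K p_k^{56} 2m p_{k+1}^5 κ (∑zb²)^{1/2} ≤ p_{k+1}^{20} κ'`.
Total `4 (2 + 100·2·2 + 2 + 1) Db² ≤ 2000 Db²`.
-/

set_option autoImplicit false

namespace Pool.Agent.PEL

open Finset

variable {P : Par} {S : P.Sam} {F : Submodule ℝ (P.A → ℝ)} {Db : ℝ}

theorem clul_cb_sum (C : Can S F Db) {J : Type} (s : Finset J) (x : J → P.A → ℝ) :
    C.cb (∑ j ∈ s, x j) = ∑ j ∈ s, C.cb (x j) := by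
  simp only [← cbL_apply]
  exact map_sum _ _ _

/-- orthogonality of the levels under `c_b` -/
theorem clul_orth (C : Can S F Db) {l l' : ℕ} (hl : l' < l)
    {Q Q' : (P.A → ℝ) →ₗ[ℝ] (P.A → ℝ)} {Ex Ex' : Finset (Fin P.T)} (h : Lvl C l Q Ex)
    (h' : Lvl C l' Q' Ex') (u u' : P.A → ℝ) : ip (C.cb (Q' u')) (C.cb (Q u)) = 0 := by
  have e : C.cb (Q' u') = ∑ a, (Q' u') a • C.g a := rfl
  rw [e, ip_sum_left]
  refine sum_eq_zero fun a _ => ?_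
  rw [ip_smul_left]
  by_cases ha : (a.1 : ℕ) = l'
  · rw [ip_comm, h.orthb u a (by omega), mul_zero]
  · rw [h'.supp u' a ha, zero_mul]

/-- the Euclidean estimate for sign sums -/
theorem clul_euclid (hB : P.Big) (hS : Good P S) {I : Type} [Fintype I] [DecidableEq I]
    (v : I → P.A → ℝ) (c : ℝ) (zb : I → ℝ) (h : ∀ i, nsq (v i) ≤ c * zb i ^ 2) :
    av (fun δ : I → Bool => DN S F (∑ i, sg (δ i) • v i) ^ 2) ≤ c * ∑ i, zb i ^ 2 := by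
  have e : av (fun δ : I → Bool => DN S F (∑ i, sg (δ i) • v i) ^ 2) ≤
      av (fun δ : I → Bool => nsq (∑ i, sg (δ i) • v i)) := by
    refine av_mono fun δ => ?_
    rw [← nm_sq]
    exact pow_le_pow_left₀ (DN_nonneg hB hS F _) (DN_le_nm hB hS F _) 2
  refine e.trans ?_
  rw [av_nsq_signs, mul_sum]
  exact sum_le_sum fun i _ => h i

section terms

variable {I : Type} [Fintype I] (C : Can S F Db)
  (Q : ℕ → (P.A → ℝ) →ₗ[ℝ] (P.A → ℝ)) (Ex : ℕ → Finset (Fin P.T))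
  (ζ : ℕ → I → Fin P.T → ℝ) (zb : I → ℝ)

theorem clul_one (h : ∀ l < P.K, Lvl C l (Q l) (Ex l)) (hB : P.Big)
    (h0 : ∀ i, 0 ≤ zb i) (h1 : ∀ l < P.K, ∀ i, ∀ t ∈ Ex l, ζ l i t = 0)
    (h2 : ∀ l < P.K, ∀ i, nsq (ζ l i) ≤ zb i ^ 2)
    (h3 : ∀ l < P.K, ∀ i, n1 (ζ l i) ≤ (P.p (l + 1) : ℝ) ^ 6 * zb i) (i : I) :
    nsq (C.cb (∑ l ∈ range P.K, Q l (uh S (ζ l i)))) ≤ 2 * Db ^ 2 * zb i ^ 2 := by
  have hK : (0 : ℝ) < P.K := lt_of_lt_of_le one_pos hB.one_le_K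
  rw [clul_cb_sum, cluk_nsq_sum _ _ fun l hl l' hl' =>
    clul_orth C hl' (h l hl) (h l' (hl'.trans hl)) _ _]
  calc ∑ l ∈ range P.K, nsq (C.cb (Q l (uh S (ζ l i))))
      ≤ ∑ l ∈ range P.K, zb i ^ 2 * (∑ a ∈ lvl P l, nsq (C.g a) + Db ^ 2 / P.K) := by
        refine sum_le_sum fun l hl => ?_
        have hl' := mem_range.mp hl
        exact (h l hl').e1 (ζ l i) (zb i) (h0 i) (h1 l hl' i) (h2 l hl' i) (h3 l hl' i)
    _ = zb i ^ 2 * (∑ l ∈ range P.K, ∑ a ∈ lvl P l, nsq (C.g a) + P.K * (Db ^ 2 / P.K)) := by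
        rw [← mul_sum, sum_add_distrib, sum_const, card_range, nsmul_eq_mul]
    _ = zb i ^ 2 * (∑ a, nsq (C.g a) + Db ^ 2) := by
        rw [← Par.sum_lvl, mul_div_cancel₀ _ hK.ne']
    _ ≤ zb i ^ 2 * (Db ^ 2 + Db ^ 2) := by
        refine mul_le_mul_of_nonneg_left ?_ (sq_nonneg _)
        have := C.c1
        linarith
    _ = _ := by ring

theorem clul_three (h : ∀ l < P.K, Lvl C l (Q l) (Ex l)) (hB : P.Big)
    (h0 : ∀ i, 0 ≤ zb i) (h1 : ∀ l < P.K, ∀ i, ∀ t ∈ Ex l, ζ l i t = 0)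
    (h2 : ∀ l < P.K, ∀ i, nsq (ζ l i) ≤ zb i ^ 2)
    (h3 : ∀ l < P.K, ∀ i, n1 (ζ l i) ≤ (P.p (l + 1) : ℝ) ^ 6 * zb i) (i : I) :
    nsq (∑ k ∈ range P.K, W S k (C.ck k (∑ l ∈ Ico k P.K, Q l (uh S (ζ l i))))) ≤
      2 * Db ^ 2 * zb i ^ 2 := by
  have hK : (0 : ℝ) < P.K := lt_of_lt_of_le one_pos hB.one_le_K
  have hK1 := hB.one_le_K
  have e1 : ∀ k < P.K, nsq (W S k (C.ck k (∑ l ∈ Ico k P.K, Q l (uh S (ζ l i))))) ≤
      P.K * (P.K * (zb i ^ 2 * (C.κ k ^ 2 / (P.K : ℝ) ^ 5))) := by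
    intro k hk
    have e2 : W S k (C.ck k (∑ l ∈ Ico k P.K, Q l (uh S (ζ l i)))) =
        ∑ l ∈ Ico k P.K, W S k (C.ck k (Q l (uh S (ζ l i)))) := by
      rw [cluk_ck_sum, W_sum]
    rw [e2]
    have e3 : ((Ico k P.K).card : ℝ) ≤ P.K := by
      rw [Nat.card_Ico]
      exact_mod_cast Nat.sub_le _ _
    have hnn : 0 ≤ zb i ^ 2 * (C.κ k ^ 2 / (P.K : ℝ) ^ 5) := by positivity
    calc nsq (∑ l ∈ Ico k P.K, W S k (C.ck k (Q l (uh S (ζ l i)))))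
        ≤ (Ico k P.K).card * ∑ l ∈ Ico k P.K, nsq (W S k (C.ck k (Q l (uh S (ζ l i))))) :=
          nsq_sum_le _ _
      _ ≤ (Ico k P.K).card * ∑ l ∈ Ico k P.K, zb i ^ 2 * (C.κ k ^ 2 / (P.K : ℝ) ^ 5) := by
          refine mul_le_mul_of_nonneg_left (sum_le_sum fun l hl => ?_) (Nat.cast_nonneg _)
          have hl' := mem_Ico.mp hl
          exact (h l hl'.2).e3 k hl'.1 (ζ l i) (zb i) (h0 i) (h1 l hl'.2 i) (h2 l hl'.2 i)
            (h3 l hl'.2 i)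
      _ = (Ico k P.K).card * ((Ico k P.K).card * (zb i ^ 2 * (C.κ k ^ 2 / (P.K : ℝ) ^ 5))) := by
          rw [sum_const, nsmul_eq_mul]
      _ ≤ _ := by
          refine mul_le_mul e3 (mul_le_mul_of_nonneg_right e3 hnn)
            (mul_nonneg (Nat.cast_nonneg _) hnn) hK.le
  calc nsq (∑ k ∈ range P.K, W S k (C.ck k (∑ l ∈ Ico k P.K, Q l (uh S (ζ l i)))))
      ≤ (range P.K).card *
        ∑ k ∈ range P.K, nsq (W S k (C.ck k (∑ l ∈ Ico k P.K, Q l (uh S (ζ l i))))) :=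
        nsq_sum_le _ _
    _ ≤ P.K * ∑ k ∈ range P.K, P.K * (P.K * (zb i ^ 2 * (C.κ k ^ 2 / (P.K : ℝ) ^ 5))) := by
        rw [card_range]
        refine mul_le_mul_of_nonneg_left (sum_le_sum fun k hk => ?_) hK.le
        exact e1 k (mem_range.mp hk)
    _ = (∑ k ∈ range P.K, C.κ k ^ 2) * (zb i ^ 2 / (P.K : ℝ) ^ 2) := by
        rw [mul_sum, sum_mul]
        refine sum_congr rfl fun k _ => ?_
        field_simp
    _ ≤ (2 * Db ^ 2) * (zb i ^ 2 / (P.K : ℝ) ^ 2) :=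
        mul_le_mul_of_nonneg_right C.c5 (by positivity)
    _ ≤ (2 * Db ^ 2) * zb i ^ 2 := by
        refine mul_le_mul_of_nonneg_left ?_ (by positivity)
        exact div_le_self (sq_nonneg _) (one_le_pow₀ hK1)

theorem clul_four (h : ∀ l < P.K, Lvl C l (Q l) (Ex l)) (hB : P.Big)
    (h0 : ∀ i, 0 ≤ zb i) (h1 : ∀ l < P.K, ∀ i, ∀ t ∈ Ex l, ζ l i t = 0)
    (h2 : ∀ l < P.K, ∀ i, nsq (ζ l i) ≤ zb i ^ 2)
    (h3 : ∀ l < P.K, ∀ i, n1 (ζ l i) ≤ (P.p (l + 1) : ℝ) ^ 6 * zb i) (i : I) :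
    nsq (fun a : P.A => P.sig a * (∑ l ∈ range P.K,
      (lv l (uh S (ζ l i)) - Q l (uh S (ζ l i)))) a) ≤ 1 * zb i ^ 2 := by
  have hK : (0 : ℝ) < P.K := lt_of_lt_of_le one_pos hB.one_le_K
  have hK1 := hB.one_le_K
  set y : ℕ → P.A → ℝ := fun l => lv l (uh S (ζ l i)) - Q l (uh S (ζ l i)) with hy
  have hyl : ∀ l < P.K, ∀ a : P.A, (a.1 : ℕ) ≠ l → y l a = 0 := by
    intro l hl a ha
    simp only [hy, Pi.sub_apply]
    rw [(h l hl).supp _ a ha]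
    unfold lv
    rw [if_neg ha, sub_zero]
  have e1 : (fun a : P.A => P.sig a * (∑ l ∈ range P.K, y l) a) =
      ∑ l ∈ range P.K, ((P.p (l + 1) : ℝ) ^ 50)⁻¹ • y l := by
    funext a
    rw [Finset.sum_apply, Finset.sum_apply, mul_sum]
    refine sum_congr rfl fun l hl => ?_
    rw [Pi.smul_apply, smul_eq_mul]
    by_cases ha : (a.1 : ℕ) = l
    · unfold Par.sig
      rw [ha]
    · rw [hyl l (mem_range.mp hl) a ha, mul_zero, mul_zero]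
  rw [e1, nsq_sum_levels]
  · calc ∑ l ∈ range P.K, nsq (((P.p (l + 1) : ℝ) ^ 50)⁻¹ • y l)
        ≤ ∑ l ∈ range P.K, zb i ^ 2 / (P.K : ℝ) ^ 5 := by
          refine sum_le_sum fun l hl => ?_
          have hl' := mem_range.mp hl
          rw [nsq_smul]
          have e2 : (((P.p (l + 1) : ℝ) ^ 50)⁻¹) ^ 2 = ((P.p (l + 1) : ℝ) ^ 100)⁻¹ := by
            rw [inv_pow, ← pow_mul]
          rw [e2]
          exact (h l hl').e4 (ζ l i) (zb i) (h0 i) (h1 l hl' i) (h2 l hl' i) (h3 l hl' i)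
      _ = P.K * (zb i ^ 2 / (P.K : ℝ) ^ 5) := by rw [sum_const, card_range, nsmul_eq_mul]
      _ = zb i ^ 2 / (P.K : ℝ) ^ 4 := by field_simp
      _ ≤ zb i ^ 2 := div_le_self (sq_nonneg _) (one_le_pow₀ hK1)
      _ = _ := (one_mul _).symm
  · intro l hl
    funext a
    unfold lv
    split_ifs with ha
    · rfl
    · rw [Pi.smul_apply, smul_eq_mul, hyl l hl a ha, mul_zero]

/-- the decomposition on `F` -/
theorem clul_dec (h : ∀ l < P.K, Lvl C l (Q l) (Ex l)) (i : I) (x : P.A → ℝ) (hx : x ∈ F) :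
    ip (∑ l ∈ range P.K, U S l (ζ l i)) x =
      ip (C.cb (∑ l ∈ range P.K, Q l (uh S (ζ l i))) +
        ∑ k ∈ range P.K, W S k (C.ck k (∑ l ∈ range k, Q l (uh S (ζ l i)))) +
        ∑ k ∈ range P.K, W S k (C.ck k (∑ l ∈ Ico k P.K, Q l (uh S (ζ l i)))) +
        fun a : P.A => P.sig a * (∑ l ∈ range P.K,
          (lv l (uh S (ζ l i)) - Q l (uh S (ζ l i)))) a) x := by
  have e1 : ∑ k ∈ range P.K, W S k (C.ck k (∑ l ∈ range k, Q l (uh S (ζ l i)))) +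
        ∑ k ∈ range P.K, W S k (C.ck k (∑ l ∈ Ico k P.K, Q l (uh S (ζ l i)))) =
      ∑ k ∈ range P.K, W S k (fun t => ip (C.z k t) (∑ l ∈ range P.K, Q l (uh S (ζ l i)))) := by
    rw [← sum_add_distrib]
    refine sum_congr rfl fun k hk => ?_
    have hk' := (mem_range.mp hk).le
    rw [← W_add]
    congr 1
    funext t
    rw [Pi.add_apply]
    unfold Can.ck
    rw [← ip_add_right, Finset.sum_range_add_sum_Ico _ hk']
  have e2 := C.c0 (∑ l ∈ range P.K, Q l (uh S (ζ l i))) x hx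
  rw [← e1] at e2
  have e3 : (∑ a, (∑ l ∈ range P.K, Q l (uh S (ζ l i))) a • C.g a) =
      C.cb (∑ l ∈ range P.K, Q l (uh S (ζ l i))) := rfl
  rw [e3, ← add_assoc] at e2
  rw [ip_add_left, e2]
  unfold ip
  rw [← sum_add_distrib]
  refine sum_congr rfl fun a _ => ?_
  have e4 : (∑ l ∈ range P.K, U S l (ζ l i)) a =
      P.sig a * (∑ l ∈ range P.K, lv l (uh S (ζ l i))) a := by
    rw [Finset.sum_apply, Finset.sum_apply, mul_sum]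
    refine sum_congr rfl fun l _ => ?_
    unfold U lv
    split_ifs
    · rfl
    · rw [mul_zero]
  rw [e4, sum_sub_distrib]
  beta_reduce
  rw [Pi.sub_apply]
  ring

end terms

theorem clul_sq_add (a b c d : ℝ) : (a + b + c + d) ^ 2 ≤ 4 * (a ^ 2 + b ^ 2 + c ^ 2 + d ^ 2) := by
  nlinarith [sq_nonneg (a - b), sq_nonneg (a - c), sq_nonneg (a - d), sq_nonneg (b - c),
    sq_nonneg (b - d), sq_nonneg (c - d)]

theorem cluster (hB : P.Big) (hS : Good P S) (C : Can S F Db)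
    (Q : ℕ → (P.A → ℝ) →ₗ[ℝ] (P.A → ℝ)) (Ex : ℕ → Finset (Fin P.T))
    (h : ∀ l < P.K, Lvl C l (Q l) (Ex l)) : Clu S F Ex (2000 * Db ^ 2) := by
  intro I _ _ ζ zb h0 h1 h2 h3
  set A1 : I → P.A → ℝ := fun i => C.cb (∑ l ∈ range P.K, Q l (uh S (ζ l i))) with hA1
  set A2 : I → P.A → ℝ := fun i =>
    ∑ k ∈ range P.K, W S k (C.ck k (∑ l ∈ range k, Q l (uh S (ζ l i)))) with hA2
  set A3 : I → P.A → ℝ := fun i =>
    ∑ k ∈ range P.K, W S k (C.ck k (∑ l ∈ Ico k P.K, Q l (uh S (ζ l i)))) with hA3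
  set A4 : I → P.A → ℝ := fun i => fun a : P.A => P.sig a * (∑ l ∈ range P.K,
      (lv l (uh S (ζ l i)) - Q l (uh S (ζ l i)))) a with hA4
  have b1 := clul_euclid (F := F) hB hS A1 (2 * Db ^ 2) zb
    (clul_one C Q Ex ζ zb h hB h0 h1 h2 h3)
  have b3 := clul_euclid (F := F) hB hS A3 (2 * Db ^ 2) zb
    (clul_three C Q Ex ζ zb h hB h0 h1 h2 h3)
  have b4 := clul_euclid (F := F) hB hS A4 1 zb
    (clul_four C Q Ex ζ zb h hB h0 h1 h2 h3)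
  have b2 : av (fun δ : I → Bool => DN S F (∑ i, sg (δ i) • A2 i) ^ 2) ≤
      400 * Db ^ 2 * ∑ i, zb i ^ 2 := by
    have e : ∀ δ : I → Bool, ∑ i, sg (δ i) • A2 i = ∑ k ∈ range P.K, W S k
        (C.ck k (∑ i, sg (δ i) • ∑ l ∈ range k, Q l (uh S (ζ l i)))) := by
      intro δ
      simp only [hA2, smul_sum]
      rw [sum_comm]
      refine sum_congr rfl fun k _ => ?_
      rw [cluk_ck_sum, W_sum]
      refine sum_congr rfl fun i _ => ?_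
      rw [← W_smul]
      congr 1
      rw [← smul_sum, ← ckL_apply, ← ckL_apply, map_smul]
    simp only [e]
    exact cluk_class hB hS C Q Ex h ζ zb h0 h1 h2 h3
  have e1 : ∀ δ : I → Bool, DN S F (∑ i, sg (δ i) • ∑ l ∈ range P.K, U S l (ζ l i)) ^ 2 ≤
      4 * (DN S F (∑ i, sg (δ i) • A1 i) ^ 2 + DN S F (∑ i, sg (δ i) • A2 i) ^ 2 +
        DN S F (∑ i, sg (δ i) • A3 i) ^ 2 + DN S F (∑ i, sg (δ i) • A4 i) ^ 2) := by
    intro δ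
    have e2 : DN S F (∑ i, sg (δ i) • ∑ l ∈ range P.K, U S l (ζ l i)) =
        DN S F (∑ i, sg (δ i) • A1 i + ∑ i, sg (δ i) • A2 i + ∑ i, sg (δ i) • A3 i +
          ∑ i, sg (δ i) • A4 i) := by
      apply DN_congr
      intro x hx
      rw [← sum_add_distrib, ← sum_add_distrib, ← sum_add_distrib, ip_sum_left, ip_sum_left]
      refine sum_congr rfl fun i _ => ?_
      rw [← smul_add, ← smul_add, ← smul_add, ip_smul_left, ip_smul_left,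
        clul_dec C Q Ex ζ h i x hx]
    rw [e2]
    refine le_trans ?_ (clul_sq_add _ _ _ _)
    refine pow_le_pow_left₀ (DN_nonneg hB hS F _) ?_ 2
    refine (DN_add_le hB hS F _ _).trans (add_le_add ?_ le_rfl)
    refine (DN_add_le hB hS F _ _).trans (add_le_add ?_ le_rfl)
    exact DN_add_le hB hS F _ _
  refine (av_mono e1).trans ?_
  rw [av_mul_left, av_add, av_add, av_add]
  have hZ : 0 ≤ ∑ i, zb i ^ 2 := sum_nonneg fun i _ => sq_nonneg _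
  have hD : 1 ≤ Db ^ 2 := one_le_pow₀ C.Db1
  nlinarith [mul_nonneg (sub_nonneg.mpr hD) hZ, mul_nonneg (sq_nonneg Db) hZ]

end Pool.Agent.PEL
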