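import Mathlib

/-!
# Pelczynski's problem (`MP_6c92e3_an`, `S04964`): definitions

Text: /team-store/pelczynski.md (notation is the same, 0-based).
-/

set_option autoImplicit false

namespace Pool.Agent.PEL

open Finset

/-- sign of a boolean -/
def sg (b : Bool) : ℝ := if b then 1 else -1

section basic
variable {ι : Type} [Fintype ι]

/-- average over a finite type -/
noncomputable def av (f : ι → ℝ) : ℝ := (∑ i, f i) / (Fintype.card ι : ℝ)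

/-- inner product -/
def ip (x y : ι → ℝ) : ℝ := ∑ i, x i * y i

/-- Euclidean norm squared -/
def nsq (x : ι → ℝ) : ℝ := ∑ i, x i ^ 2

/-- Euclidean norm -/
noncomputable def nm (x : ι → ℝ) : ℝ := Real.sqrt (nsq x)

/-- the `l_1` norm -/
def n1 (x : ι → ℝ) : ℝ := ∑ i, |x i|

/-- the sign sum `⟨z, ε⟩` -/
def ss (z : ι → ℝ) (ε : ι → Bool) : ℝ := ∑ i, z i * sg (ε i)

end basic

/-- The parameters: `K` levels, base `m`. -/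
structure Par where
  K : ℕ
  m : ℕ

namespace Par

variable (P : Par)

/-- `p 0 = 1`, `p (l+1) = m^(500^l)` -/
def p : ℕ → ℕ
  | 0 => 1
  | l + 1 => P.m ^ (500 ^ l)

/-- block sizes -/
def N (l : ℕ) : ℕ := P.p (l + 1) ^ 100

/-- number of samples -/
def T : ℕ := P.p (P.K + 1) ^ 10

/-- the coordinates: level `a.1`, place `a.2` -/
abbrev A : Type := Σ l : Fin P.K, Fin (P.N l)

/-- the sign cube of the coordinates -/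
abbrev Om : Type := P.A → Bool

/-- tuples of samples -/
abbrev Sam : Type := Fin P.T → P.A → Bool

/-- `σ_a = N_l^{-1/2} = p_{l+1}^{-50}` -/
noncomputable def sig (a : P.A) : ℝ := ((P.p ((a.1 : ℕ) + 1) : ℝ) ^ 50)⁻¹

/-- The parameters are good: `m` is large, depending on `K`. -/
structure Big : Prop where
  hK : 1 ≤ P.K
  hm : (1000 * P.K) ^ 20 ≤ P.m
  hexp : (P.T : ℝ) ^ 4 * Real.exp (-(P.m : ℝ) / 64) ≤ 1 / 2 ^ 10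

end Par

variable {P : Par}

/-- `w(ε)` -/
noncomputable def wv (ε : P.Om) : P.A → ℝ := fun a => P.sig a * sg (ε a)

/-- `V β = ∑_t β_t w_t` -/
noncomputable def V (S : P.Sam) (β : Fin P.T → ℝ) : P.A → ℝ :=
  fun a => P.sig a * ∑ t, β t * sg (S t a)

/-- `W_k β = ∑_{l ≥ k} U_l β` -/
noncomputable def W (S : P.Sam) (k : ℕ) (β : Fin P.T → ℝ) : P.A → ℝ :=
  fun a => if k ≤ (a.1 : ℕ) then V S β a else 0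

/-- `U_l β` -/
noncomputable def U (S : P.Sam) (l : ℕ) (β : Fin P.T → ℝ) : P.A → ℝ :=
  fun a => if (a.1 : ℕ) = l then V S β a else 0

/-- the unweighted combination `∑_t ζ_t ε^(t)` -/
noncomputable def uh (S : P.Sam) (ζ : Fin P.T → ℝ) : P.A → ℝ := fun a => ∑ t, ζ t * sg (S t a)

/-- restriction to level `l` -/
def lv (l : ℕ) (x : P.A → ℝ) : P.A → ℝ := fun a => if (a.1 : ℕ) = l then x a else 0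

/-- level `l` as a finset -/
def lvl (P : Par) (l : ℕ) : Finset P.A := univ.filter fun a => (a.1 : ℕ) = l

/-- `c_k(β) ≤ r` -/
structure CB (P : Par) (k : ℕ) (β : Fin P.T → ℝ) (r : ℝ) : Prop where
  nonneg : 0 ≤ r
  two : nsq β ≤ r ^ 2
  inf : ∀ t, (P.p k : ℝ) ^ 10 * β t ^ 2 ≤ r ^ 2
  one : n1 β ≤ (P.p (k + 1) : ℝ) ^ 5 * r

/-- `‖v‖_* ≤ r` -/
def Rep (S : P.Sam) (v : P.A → ℝ) (r : ℝ) : Prop :=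
  0 ≤ r ∧ ∃ (b : P.A → ℝ) (β : ℕ → Fin P.T → ℝ) (ρ : ℕ → ℝ),
    v = b + ∑ k ∈ range P.K, W S k (β k) ∧ (∀ k < P.K, CB P k (β k) (ρ k)) ∧
    nsq b + ∑ k ∈ range P.K, ρ k ^ 2 ≤ r ^ 2

/-- the norm of `E` -/
noncomputable def nrm (S : P.Sam) (x : P.A → ℝ) : ℝ := sSup {c | ∃ v, Rep S v 1 ∧ c = ip x v}

/-- `|v|_{F*}` -/
noncomputable def DN (S : P.Sam) (F : Submodule ℝ (P.A → ℝ)) (v : P.A → ℝ) : ℝ :=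
  sSup {c | ∃ x ∈ F, nrm S x ≤ 1 ∧ c = ip v x}

/-- `N_q(x) = sup {⟨x, W_q β⟩ : c_q(β) ≤ 1}` -/
noncomputable def Nq (S : P.Sam) (q : ℕ) (x : P.A → ℝ) : ℝ :=
  sSup {c | ∃ β, CB P q β 1 ∧ c = ip x (W S q β)}

/-- The random properties of the samples. -/
structure Good (P : Par) (S : P.Sam) : Prop where
  p1 : ∀ l < P.K, ∀ s t, s ≠ t →
    |∑ a ∈ lvl P l, sg (S s a) * sg (S t a)| ≤ (P.p (l + 1) : ℝ) ^ 60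
  p2 : ∀ a b : P.A, a ≠ b →
    |∑ t, sg (S t a) * sg (S t b)| ≤ (P.T : ℝ) / (Fintype.card P.A : ℝ)
  p3 : ∀ B : Finset P.A, (B = univ ∨ ∃ l < P.K, B = lvl P l) → ∀ M : P.A → P.A → ℝ,
    (∀ a b, M a b ≠ 0 → a ∈ B ∧ b ∈ B) →
    ∃ Ex : Finset (Fin P.T), Ex.card ≤ 2 * B.card ^ 3 ∧ ∀ s t, s ∉ Ex → t ∉ Ex →
      |∑ a, ∑ b, sg (S s a) * M a b * sg (S t b) - (if s = t then ∑ a, M a a else 0)| ≤
        (P.m : ℝ) * Real.sqrt (∑ a, ∑ b, M a b ^ 2)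

/-- The canonical lift data of a subspace `F` with `D(F) ≤ Db` (section 4 of the text). -/
structure Can (S : P.Sam) (F : Submodule ℝ (P.A → ℝ)) (Db : ℝ) where
  /-- `g_a = E[ε_a b(ε)]` -/
  g : P.A → P.A → ℝ
  /-- `z_{k,t} = (E[ε_a β_k(ε)_t])_a` -/
  z : ℕ → Fin P.T → P.A → ℝ
  κ : ℕ → ℝ
  Db1 : 1 ≤ Db
  κpos : ∀ k, 0 < κ k
  c0 : ∀ u : P.A → ℝ, ∀ x ∈ F,
    ip (∑ a, u a • g a + ∑ k ∈ range P.K, W S k (fun t => ip (z k t) u)) x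
      = ∑ a, P.sig a * u a * x a
  c1 : ∑ a, nsq (g a) ≤ Db ^ 2
  c2 : ∀ k < P.K, ∑ t, nsq (z k t) ≤ κ k ^ 2
  c3 : ∀ k < P.K, ∀ t, (P.p k : ℝ) ^ 5 * nm (z k t) ≤ κ k
  c4 : ∀ k < P.K, ∑ t, nm (z k t) ≤ 2 * P.m * (P.p (k + 1) : ℝ) ^ 5 * κ k
  c5 : ∑ k ∈ range P.K, κ k ^ 2 ≤ 2 * Db ^ 2
  c6 : ∀ k, Db ^ 2 / P.K ≤ κ k ^ 2

namespace Can
variable {S : P.Sam} {F : Submodule ℝ (P.A → ℝ)} {Db : ℝ} (C : Can S F Db)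

/-- `c_b(u) = ∑ u_a g_a` -/
def cb (u : P.A → ℝ) : P.A → ℝ := ∑ a, u a • C.g a

/-- `c_k(u)_t = ⟨z_{k,t}, u⟩` -/
def ck (k : ℕ) (u : P.A → ℝ) : Fin P.T → ℝ := fun t => ip (C.z k t) u

end Can

/-- The level lemma (4.2 of the text). -/
structure Lvl {S : P.Sam} {F : Submodule ℝ (P.A → ℝ)} {Db : ℝ} (C : Can S F Db) (l : ℕ)
    (Q : (P.A → ℝ) →ₗ[ℝ] (P.A → ℝ)) (Ex : Finset (Fin P.T)) : Prop where
  card : Ex.card ≤ P.p (l + 1) ^ 600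
  sym : ∀ x y, ip (Q x) y = ip x (Q y)
  idem : ∀ x, Q (Q x) = Q x
  supp : ∀ x (a : P.A), (a.1 : ℕ) ≠ l → Q x a = 0
  orthb : ∀ u (a : P.A), (a.1 : ℕ) < l → ip (C.cb (Q u)) (C.g a) = 0
  orthk : ∀ k < P.K, ∀ u (a : P.A), (a.1 : ℕ) < l →
    ip (C.ck k (Q u)) (fun t => C.z k t a) = 0
  e1 : ∀ (ζ : Fin P.T → ℝ) (zb : ℝ), 0 ≤ zb → (∀ t ∈ Ex, ζ t = 0) → nsq ζ ≤ zb ^ 2 →
    n1 ζ ≤ (P.p (l + 1) : ℝ) ^ 6 * zb →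
    nsq (C.cb (Q (uh S ζ))) ≤ zb ^ 2 * (∑ a ∈ lvl P l, nsq (C.g a) + Db ^ 2 / P.K)
  e2 : ∀ k < P.K, ∀ (ζ : Fin P.T → ℝ) (zb : ℝ), 0 ≤ zb → (∀ t ∈ Ex, ζ t = 0) →
    nsq ζ ≤ zb ^ 2 → n1 ζ ≤ (P.p (l + 1) : ℝ) ^ 6 * zb →
    nsq (C.ck k (Q (uh S ζ))) ≤
      zb ^ 2 * (∑ a ∈ lvl P l, nsq (fun t => C.z k t a) + C.κ k ^ 2 / P.K)
  e3 : ∀ k ≤ l, ∀ (ζ : Fin P.T → ℝ) (zb : ℝ), 0 ≤ zb → (∀ t ∈ Ex, ζ t = 0) →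
    nsq ζ ≤ zb ^ 2 → n1 ζ ≤ (P.p (l + 1) : ℝ) ^ 6 * zb →
    nsq (W S k (C.ck k (Q (uh S ζ)))) ≤ zb ^ 2 * (C.κ k ^ 2 / (P.K : ℝ) ^ 5)
  e4 : ∀ (ζ : Fin P.T → ℝ) (zb : ℝ), 0 ≤ zb → (∀ t ∈ Ex, ζ t = 0) → nsq ζ ≤ zb ^ 2 →
    n1 ζ ≤ (P.p (l + 1) : ℝ) ^ 6 * zb →
    ((P.p (l + 1) : ℝ) ^ 100)⁻¹ * nsq (lv l (uh S ζ) - Q (uh S ζ)) ≤ zb ^ 2 / (P.K : ℝ) ^ 5
  e5 : l + 1 < P.K → ∀ (ζ : Fin P.T → ℝ) (zb : ℝ), 0 ≤ zb → (∀ t ∈ Ex, ζ t = 0) →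
    nsq ζ ≤ zb ^ 2 → n1 ζ ≤ (P.p (l + 1) : ℝ) ^ 6 * zb →
    ∀ t, (P.p (l + 1) : ℝ) ^ 2 * |ip (C.z (l + 1) t) (Q (uh S ζ))| ≤ C.κ (l + 1) * zb

/-- The cluster property (4.3 of the text). -/
def Clu (S : P.Sam) (F : Submodule ℝ (P.A → ℝ)) (Ex : ℕ → Finset (Fin P.T)) (Γ : ℝ) : Prop :=
  ∀ (I : Type) [Fintype I] [DecidableEq I] (ζ : ℕ → I → Fin P.T → ℝ) (zb : I → ℝ),
    (∀ i, 0 ≤ zb i) → (∀ l < P.K, ∀ i, ∀ t ∈ Ex l, ζ l i t = 0) →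
    (∀ l < P.K, ∀ i, nsq (ζ l i) ≤ zb i ^ 2) →
    (∀ l < P.K, ∀ i, n1 (ζ l i) ≤ (P.p (l + 1) : ℝ) ^ 6 * zb i) →
    av (fun δ : I → Bool => DN S F (∑ i, sg (δ i) • ∑ l ∈ range P.K, U S l (ζ l i)) ^ 2)
      ≤ Γ * ∑ i, zb i ^ 2

end Pool.Agent.PEL
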