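import Pool.Agent.PEL.Nrm1

/-!
# PEL-NRM2 : the norm `nrm`, compactness of the dual ball

`RepBall = {v | Rep S v 1}` is compact: image of the compact set of `(b, β, ρ) ∈ (A → ℝ) × (Fin K → Fin T → ℝ) × (Fin K → ℝ)`
with `CB` (closed conditions; `ρ_k ≥ 0`) and `nsq b + ∑ρ² ≤ 1` (bounded: `nsq β_k ≤ ρ_k²`) under a continuous (linear) map.
It is convex (`Rep.add`, `Rep.smul`), symmetric, contains the Euclidean unit ball (`Rep_euclid`), bounded by `Rep.nm_le`.
`ip_le_nrm`: for `r = 0` `Rep.nm_le` gives `v = 0`; else scale.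
`exists_rep_norming`: the sup in `nrm` is attained (compactness), then scale by `nrm S x`.
-/

set_option autoImplicit false

namespace Pool.Agent.PEL

open Finset

variable {P : Par} {S : P.Sam}

theorem nrm2_continuous_nsq {ι : Type} [Fintype ι] : Continuous (nsq : (ι → ℝ) → ℝ) := by
  unfold nsq
  exact continuous_finsetSum _ fun i _ => (continuous_apply i).pow 2

theorem nrm2_continuous_n1 {ι : Type} [Fintype ι] : Continuous (n1 : (ι → ℝ) → ℝ) := by
  unfold n1
  exact continuous_finsetSum _ fun i _ => (continuous_apply i).abs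

theorem nrm2_continuous_nm {ι : Type} [Fintype ι] : Continuous (nm : (ι → ℝ) → ℝ) := by
  unfold nm
  exact Real.continuous_sqrt.comp nrm2_continuous_nsq

theorem nrm2_continuous_ip {ι : Type} [Fintype ι] (x : ι → ℝ) :
    Continuous fun v : ι → ℝ => ip x v := by
  unfold ip
  exact continuous_finsetSum _ fun i _ => continuous_const.mul (continuous_apply i)

theorem nrm2_continuous_W (k : ℕ) : Continuous fun β : Fin P.T → ℝ => W S k β :=
  (WL S k).continuous_of_finiteDimensional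

/-- the parameter space of representations -/
abbrev nrm2X (P : Par) : Type := (P.A → ℝ) × (Fin P.K → Fin P.T → ℝ) × (Fin P.K → ℝ)

/-- the parameters of representations with `r = 1` -/
def nrm2C (P : Par) : Set (nrm2X P) :=
  {z | nsq z.1 + ∑ k : Fin P.K, z.2.2 k ^ 2 ≤ 1 ∧ ∀ k : Fin P.K, CB P k (z.2.1 k) (z.2.2 k)}

/-- the parametrised vector -/
noncomputable def nrm2F (S : P.Sam) (z : nrm2X P) : P.A → ℝ :=
  z.1 + ∑ k : Fin P.K, W S k (z.2.1 k)

theorem nrm2_isClosed : IsClosed (nrm2C P) := by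
  have hβ : ∀ k : Fin P.K, Continuous fun z : nrm2X P => z.2.1 k := fun k =>
    (continuous_apply k).comp (continuous_fst.comp continuous_snd)
  have hρ : ∀ k : Fin P.K, Continuous fun z : nrm2X P => z.2.2 k := fun k =>
    (continuous_apply k).comp (continuous_snd.comp continuous_snd)
  have h1 : IsClosed {z : nrm2X P | nsq z.1 + ∑ k : Fin P.K, z.2.2 k ^ 2 ≤ 1} := by
    refine isClosed_le ?_ continuous_const
    exact (nrm2_continuous_nsq.comp continuous_fst).add
      (continuous_finsetSum _ fun k _ => (hρ k).pow 2)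
  have h2 : ∀ k : Fin P.K, IsClosed {z : nrm2X P | CB P k (z.2.1 k) (z.2.2 k)} := by
    intro k
    have e : {z : nrm2X P | CB P k (z.2.1 k) (z.2.2 k)} =
        {z : nrm2X P | 0 ≤ z.2.2 k} ∩ ({z : nrm2X P | nsq (z.2.1 k) ≤ z.2.2 k ^ 2} ∩
          ((⋂ t : Fin P.T, {z : nrm2X P | (P.p k : ℝ) ^ 10 * z.2.1 k t ^ 2 ≤ z.2.2 k ^ 2}) ∩
            {z : nrm2X P | n1 (z.2.1 k) ≤ (P.p (k + 1) : ℝ) ^ 5 * z.2.2 k})) := by
      ext z
      simp only [Set.mem_ofPred_eq, Set.mem_inter_iff, Set.mem_iInter]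
      exact ⟨fun h => ⟨h.nonneg, h.two, h.inf, h.one⟩, fun h => ⟨h.1, h.2.1, h.2.2.1, h.2.2.2⟩⟩
    rw [e]
    refine (isClosed_le continuous_const (hρ k)).inter
      ((isClosed_le (nrm2_continuous_nsq.comp (hβ k)) ((hρ k).pow 2)).inter
        ((isClosed_iInter fun t => ?_).inter ?_))
    · exact isClosed_le (continuous_const.mul (((continuous_apply t).comp (hβ k)).pow 2))
        ((hρ k).pow 2)
    · exact isClosed_le (nrm2_continuous_n1.comp (hβ k)) (continuous_const.mul (hρ k))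
  have e : nrm2C P = {z : nrm2X P | nsq z.1 + ∑ k : Fin P.K, z.2.2 k ^ 2 ≤ 1} ∩
      ⋂ k : Fin P.K, {z : nrm2X P | CB P k (z.2.1 k) (z.2.2 k)} := by
    ext z
    simp only [nrm2C, Set.mem_ofPred_eq, Set.mem_inter_iff, Set.mem_iInter]
  rw [e]
  exact h1.inter (isClosed_iInter h2)

theorem nrm2_subset_ball : nrm2C P ⊆ Metric.closedBall (0 : nrm2X P) 1 := by
  intro z hz
  obtain ⟨h1, h2⟩ := hz
  have hρ : ∀ k, z.2.2 k ^ 2 ≤ 1 := by
    intro k
    have h3 : z.2.2 k ^ 2 ≤ ∑ k : Fin P.K, z.2.2 k ^ 2 :=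
      Finset.single_le_sum (f := fun k => z.2.2 k ^ 2) (fun _ _ => sq_nonneg _) (mem_univ k)
    have h4 := nsq_nonneg z.1
    linarith
  have hb : nsq z.1 ≤ 1 := by
    have h4 : 0 ≤ ∑ k : Fin P.K, z.2.2 k ^ 2 := Finset.sum_nonneg fun _ _ => sq_nonneg _
    linarith
  have habs : ∀ {ι : Type} [Fintype ι] (x : ι → ℝ) (i : ι), nsq x ≤ 1 → |x i| ≤ 1 := by
    intro ι _ x i hx
    exact (abs_le_nm x i).trans ((nm_le_iff zero_le_one).mpr (by simpa using hx))
  rw [mem_closedBall_zero_iff, norm_prod_le_iff, norm_prod_le_iff]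
  refine ⟨?_, ?_, ?_⟩
  · rw [pi_norm_le_iff_of_nonneg zero_le_one]
    intro a
    rw [Real.norm_eq_abs]
    exact habs _ a hb
  · rw [pi_norm_le_iff_of_nonneg zero_le_one]
    intro k
    rw [pi_norm_le_iff_of_nonneg zero_le_one]
    intro t
    rw [Real.norm_eq_abs]
    exact habs _ t ((h2 k).two.trans (hρ k))
  · rw [pi_norm_le_iff_of_nonneg zero_le_one]
    intro k
    rw [Real.norm_eq_abs]
    exact abs_le_one_iff_mul_self_le_one.mpr (by have := hρ k; rwa [sq] at this)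

theorem nrm2_isCompact : IsCompact (nrm2C P) :=
  (isCompact_closedBall (0 : nrm2X P) 1).of_isClosed_subset nrm2_isClosed nrm2_subset_ball

theorem nrm2_continuous_F : Continuous (nrm2F S) := by
  unfold nrm2F
  refine continuous_fst.add (continuous_finsetSum _ fun k _ => ?_)
  exact (nrm2_continuous_W (k : ℕ)).comp
    ((continuous_apply k).comp (continuous_fst.comp continuous_snd))

theorem nrm2_image : nrm2F S '' nrm2C P = {v : P.A → ℝ | Rep S v 1} := by
  ext v
  simp only [Set.mem_image, Set.mem_ofPred_eq]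
  constructor
  · rintro ⟨z, ⟨h1, h2⟩, rfl⟩
    refine ⟨zero_le_one, z.1, fun k => if h : k < P.K then z.2.1 ⟨k, h⟩ else 0,
      fun k => if h : k < P.K then z.2.2 ⟨k, h⟩ else 0, ?_, ?_, ?_⟩
    · rw [Finset.sum_range]
      unfold nrm2F
      congr 1
      refine Finset.sum_congr rfl fun k _ => ?_
      simp
    · intro k hk
      simp only [hk, dif_pos]
      exact h2 ⟨k, hk⟩
    · rw [Finset.sum_range]
      simpa using h1
  · rintro ⟨_, b, β, ρ, hv, hc, hn⟩
    refine ⟨(b, fun k => β k, fun k => ρ k), ⟨?_, fun k => hc k k.2⟩, ?_⟩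
    · rw [Finset.sum_range] at hn
      simpa using hn
    · rw [hv, Finset.sum_range]
      rfl

theorem isCompact_repBall (hB : P.Big) (hS : Good P S) : IsCompact {v : P.A → ℝ | Rep S v 1} := by
  rw [← nrm2_image]
  exact nrm2_isCompact.image nrm2_continuous_F

theorem convex_repBall : Convex ℝ {v : P.A → ℝ | Rep S v 1} := by
  intro u hu v hv a b ha hb hab
  have h := (Rep.smul hu a).add (Rep.smul hv b)
  rw [mul_one, mul_one, abs_of_nonneg ha, abs_of_nonneg hb, hab] at h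
  exact h

theorem nrm2_bdd (hB : P.Big) (hS : Good P S) (x : P.A → ℝ) :
    BddAbove {c | ∃ v, Rep S v 1 ∧ c = ip x v} := by
  refine ⟨nm x * (2 * P.K * 1), ?_⟩
  rintro c ⟨v, hv, rfl⟩
  exact (ip_le x v).trans (mul_le_mul_of_nonneg_left (hv.nm_le hB hS) (nm_nonneg x))

theorem nrm2_rep_zero : Rep S (0 : P.A → ℝ) 1 := Rep_zero.mono zero_le_one

theorem nrm2_ip_le (hB : P.Big) (hS : Good P S) {v : P.A → ℝ} (h : Rep S v 1) (x : P.A → ℝ) :
    ip x v ≤ nrm S x := le_csSup (nrm2_bdd hB hS x) ⟨v, h, rfl⟩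

theorem nrm_nonneg (hB : P.Big) (hS : Good P S) (x : P.A → ℝ) : 0 ≤ nrm S x := by
  have h := nrm2_ip_le hB hS (nrm2_rep_zero (S := S)) x
  rwa [ip_zero_right] at h

theorem nrm_le (x : P.A → ℝ) (c : ℝ) (h : ∀ v, Rep S v 1 → ip x v ≤ c) : nrm S x ≤ c := by
  refine csSup_le ⟨_, 0, nrm2_rep_zero, rfl⟩ ?_
  rintro c' ⟨v, hv, rfl⟩
  exact h v hv

theorem ip_le_nrm (hB : P.Big) (hS : Good P S) {v : P.A → ℝ} {r : ℝ} (h : Rep S v r)
    (x : P.A → ℝ) : ip x v ≤ r * nrm S x := by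
  rcases h.nonneg.eq_or_lt with hr | hr
  · have h1 := h.nm_le hB hS
    rw [← hr, mul_zero] at h1
    have h2 : nm v = 0 := le_antisymm h1 (nm_nonneg v)
    have h3 : nsq v = 0 := by rw [← nm_sq, h2]; norm_num
    rw [nsq_eq_zero.mp h3, ip_zero_right, ← hr, zero_mul]
  · have h1 := Rep.smul h r⁻¹
    rw [abs_of_pos (inv_pos.mpr hr), inv_mul_cancel₀ hr.ne'] at h1
    have h2 := nrm2_ip_le hB hS h1 x
    rw [ip_smul_right] at h2
    have h3 := mul_le_mul_of_nonneg_left h2 hr.le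
    rwa [← mul_assoc, mul_inv_cancel₀ hr.ne', one_mul] at h3

theorem abs_ip_le_nrm (hB : P.Big) (hS : Good P S) {v : P.A → ℝ} {r : ℝ} (h : Rep S v r)
    (x : P.A → ℝ) : |ip x v| ≤ r * nrm S x := by
  rw [abs_le]
  have h1 := ip_le_nrm hB hS h x
  have h2 := ip_le_nrm hB hS h.neg x
  rw [ip_neg_right] at h2
  exact ⟨by linarith, h1⟩

theorem nm_le_nrm (hB : P.Big) (hS : Good P S) (x : P.A → ℝ) : nm x ≤ nrm S x := by
  rcases (nm_nonneg x).eq_or_lt with h | h
  · rw [← h]; exact nrm_nonneg hB hS x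
  · have h1 := ip_le_nrm hB hS (Rep_euclid (S := S) x) x
    rw [ip_self, ← nm_sq, sq] at h1
    exact le_of_mul_le_mul_left h1 h

theorem nrm_le_nm (hB : P.Big) (hS : Good P S) (x : P.A → ℝ) : nrm S x ≤ 2 * P.K * nm x := by
  refine nrm_le x _ fun v hv => ?_
  calc ip x v ≤ nm x * nm v := ip_le x v
    _ ≤ nm x * (2 * P.K * 1) := mul_le_mul_of_nonneg_left (hv.nm_le hB hS) (nm_nonneg x)
    _ = _ := by ring

theorem nrm_add_le (hB : P.Big) (hS : Good P S) (x y : P.A → ℝ) :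
    nrm S (x + y) ≤ nrm S x + nrm S y := by
  refine nrm_le _ _ fun v hv => ?_
  rw [ip_add_left]
  exact add_le_add (nrm2_ip_le hB hS hv x) (nrm2_ip_le hB hS hv y)

theorem nrm2_smul_le (hB : P.Big) (hS : Good P S) (c : ℝ) (x : P.A → ℝ) :
    nrm S (c • x) ≤ |c| * nrm S x := by
  refine nrm_le _ _ fun v hv => ?_
  rw [ip_smul_left]
  have h1 := abs_ip_le_nrm hB hS hv x
  rw [one_mul] at h1
  calc c * ip x v ≤ |c * ip x v| := le_abs_self _
    _ = |c| * |ip x v| := abs_mul _ _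
    _ ≤ _ := mul_le_mul_of_nonneg_left h1 (abs_nonneg c)

theorem nrm_smul (hB : P.Big) (hS : Good P S) (c : ℝ) (x : P.A → ℝ) :
    nrm S (c • x) = |c| * nrm S x := by
  apply le_antisymm (nrm2_smul_le hB hS c x)
  by_cases hc : c = 0
  · rw [hc, abs_zero, zero_mul]; exact nrm_nonneg hB hS _
  · have h1 := nrm2_smul_le hB hS c⁻¹ (c • x)
    rw [inv_smul_smul₀ hc, abs_inv] at h1
    have hc' : 0 < |c| := abs_pos.mpr hc
    have h2 := mul_le_mul_of_nonneg_left h1 hc'.le
    rwa [← mul_assoc, mul_inv_cancel₀ hc'.ne', one_mul] at h2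

theorem nrm_zero (hB : P.Big) (hS : Good P S) : nrm S (0 : P.A → ℝ) = 0 := by
  have h := nrm_smul hB hS 0 (0 : P.A → ℝ)
  rwa [zero_smul, abs_zero, zero_mul] at h

theorem nrm_eq_zero (hB : P.Big) (hS : Good P S) {x : P.A → ℝ} (h : nrm S x = 0) : x = 0 := by
  have h1 := nm_le_nrm hB hS x
  rw [h] at h1
  have h2 : nm x = 0 := le_antisymm h1 (nm_nonneg x)
  have h3 : nsq x = 0 := by rw [← nm_sq, h2]; norm_num
  exact nsq_eq_zero.mp h3

theorem nrm_sum_le (hB : P.Big) (hS : Good P S) {J : Type} (s : Finset J) (x : J → P.A → ℝ) :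
    nrm S (∑ j ∈ s, x j) ≤ ∑ j ∈ s, nrm S (x j) := by
  classical
  induction s using Finset.induction_on with
  | empty => rw [Finset.sum_empty, Finset.sum_empty, nrm_zero hB hS]
  | insert j s hj ih =>
    rw [Finset.sum_insert hj, Finset.sum_insert hj]
    exact (nrm_add_le hB hS _ _).trans (add_le_add le_rfl ih)

theorem nrm2_abs_sub_le (hB : P.Big) (hS : Good P S) (x y : P.A → ℝ) :
    |nrm S x - nrm S y| ≤ 2 * P.K * nm (x - y) := by
  have h1 := nrm_add_le hB hS (x - y) y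
  have h2 := nrm_add_le hB hS (y - x) x
  rw [sub_add_cancel] at h1 h2
  have h3 := nrm_le_nm hB hS (x - y)
  have h4 := nrm_le_nm hB hS (y - x)
  have h5 : nm (y - x) = nm (x - y) := by rw [← nm_neg, neg_sub]
  rw [h5] at h4
  rw [abs_le]
  constructor <;> linarith

theorem continuous_nrm (hB : P.Big) (hS : Good P S) : Continuous (nrm S) := by
  rw [continuous_iff_continuousAt]
  intro x
  rw [ContinuousAt, tendsto_iff_dist_tendsto_zero]
  have h1 : Continuous fun y : P.A → ℝ => 2 * (P.K : ℝ) * nm (y - x) :=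
    continuous_const.mul (nrm2_continuous_nm.comp (continuous_id.sub continuous_const))
  have h2 := h1.tendsto x
  rw [sub_self, nm_zero, mul_zero] at h2
  refine squeeze_zero (fun y => dist_nonneg) (fun y => ?_) h2
  rw [Real.dist_eq]
  exact nrm2_abs_sub_le hB hS y x

theorem exists_rep_norming (hB : P.Big) (hS : Good P S) (x : P.A → ℝ) :
    ∃ v, Rep S v (nrm S x) ∧ ip x v = nrm S x ^ 2 := by
  obtain ⟨v, hv, hmax⟩ := (isCompact_repBall hB hS).exists_isMaxOn
    ⟨0, nrm2_rep_zero⟩ (nrm2_continuous_ip x).continuousOn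
  have h1 : nrm S x = ip x v :=
    le_antisymm (nrm_le x _ fun u hu => hmax hu) (nrm2_ip_le hB hS hv x)
  refine ⟨nrm S x • v, ?_, ?_⟩
  · have h2 := Rep.smul hv (nrm S x)
    rwa [mul_one, abs_of_nonneg (nrm_nonneg hB hS x)] at h2
  · rw [ip_smul_right, ← h1, sq]

end Pool.Agent.PEL
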