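import Pool.Agent.PEL.Tail
import Pool.Agent.PEL.Nrm2

/-!
# PEL-FAR : `E` is far from Euclidean (section 5 of the text)

`far_w`: `av nrm(w ε)² ≤ 2K`. For `Rep S v 1`: `⟨w(ε), v⟩ ≤ |w(ε)||b| + ∑_k ⟨w(ε), W_k β_k⟩`, `|w|² = K` (`sum_sig_sq`),
`⟨w(ε), W_k β⟩ = ∑_t β_t g_{k,t}(ε)`, `g_{k,t}(ε) = ss (fun a => if k ≤ a.1 then σ_a² sg (S t a) else 0) ε`, `≤ n1 β · M_k(ε) ≤ p_{k+1}^5 ρ_k M_k`, where
`M_k(ε)² := v_k m² + ∑_t g² 1_{g² > v_k m²}`-type bound, `v_k = nsq(coefficients) = ∑_{a.1 ≥ k} σ_a⁴ = ∑_{l≥k} N_l^{-1} ≤ K p_{k+1}^{-100}`;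
`tail` for `z/√v_k`: `E M_k² ≤ v_k (m² + T/T²) ≤ 2m² K p_{k+1}^{-100}`. So `E nrm(w)² ≤ K + ∑_k p_{k+1}^{10} 2m²K p_{k+1}^{-100} ≤ 2K`.
`far`: `K = ⟨w_t, w_t⟩ ≤ nrm (w_t)` (`Rep_sample`, `ip_le_nrm`), so `K ≤ c ‖T w_t‖`. `av_t ‖T w_t‖² = ∑_{a,b} σ_a σ_b ⟨Te_a,Te_b⟩ av_t ε_a ε_b
≤ ∑ σ_a²‖Te_a‖² + (1/n)(∑ σ_a ‖Te_a‖)² ≤ 2 ∑ σ_a² ‖Te_a‖² = 2 av_ε ‖T w(ε)‖² ≤ 2 C² av nrm(w ε)² ≤ 4KC²`. So `K² ≤ 4 K c² C²`.
-/

set_option autoImplicit false

namespace Pool.Agent.PEL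

open Finset

variable {P : Par} {S : P.Sam}

/-- the coefficient vector of `⟨w(ε), W_k e_t⟩` -/
noncomputable def fz (S : P.Sam) (k : ℕ) (t : Fin P.T) : P.A → ℝ :=
  fun a => if k ≤ (a.1 : ℕ) then P.sig a ^ 2 * sg (S t a) else 0

theorem ip_wv_W (k : ℕ) (β : Fin P.T → ℝ) (ε : P.Om) :
    ip (wv ε) (W S k β) = ∑ t, β t * ss (fz S k t) ε := by
  unfold ip ss
  have e1 : ∀ t, β t * ∑ a, fz S k t a * sg (ε a) = ∑ a, β t * (fz S k t a * sg (ε a)) :=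
    fun t => mul_sum _ _ _
  rw [sum_congr rfl fun t _ => e1 t, sum_comm]
  refine sum_congr rfl fun a _ => ?_
  simp only [wv, W, V, fz]
  split_ifs with h
  · rw [mul_sum, mul_sum]
    exact sum_congr rfl fun t _ => by ring
  · simp

theorem nsq_fz_le (hB : P.Big) (k : ℕ) (t : Fin P.T) :
    nsq (fz S k t) ≤ P.K * ((P.p (k + 1) : ℝ) ^ 100)⁻¹ := by
  have hp := hB.p_pos_real (k + 1)
  rw [← Par.sum_sig_sq hB, sum_mul]
  unfold nsq
  refine sum_le_sum fun a _ => ?_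
  unfold fz
  split_ifs with h
  · rw [mul_pow, sg_sq, mul_one, sq]
    refine mul_le_mul_of_nonneg_left ?_ (sq_nonneg _)
    rw [Par.sig_sq, Par.N_eq]
    push_cast
    refine inv_anti₀ (by positivity) ?_
    exact pow_le_pow_left₀ hp.le (hB.p_mono_real (by omega)) _
  · have : (0 : ℝ) ≤ P.sig a ^ 2 := sq_nonneg _
    simp only [ne_eq, OfNat.ofNat_ne_zero, not_false_eq_true, zero_pow]
    positivity

/-- the majorant of `max_t g_{k,t}² / v_k` -/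
noncomputable def fh (S : P.Sam) (k : ℕ) (v : ℝ) (ε : P.Om) : ℝ :=
  (P.m : ℝ) ^ 2 + ∑ t, if (P.m : ℝ) < |ss ((Real.sqrt v)⁻¹ • fz S k t) ε| then
    ss ((Real.sqrt v)⁻¹ • fz S k t) ε ^ 2 else 0

theorem ss_smul {ι : Type} [Fintype ι] (c : ℝ) (z : ι → ℝ) (ε : ι → Bool) :
    ss (c • z) ε = c * ss z ε := by
  unfold ss
  rw [mul_sum]
  exact sum_congr rfl fun i _ => by simp [mul_assoc]

theorem fh_nonneg (k : ℕ) (v : ℝ) (ε : P.Om) : 0 ≤ fh S k v ε := by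
  unfold fh
  refine add_nonneg (sq_nonneg _) (sum_nonneg fun t _ => ?_)
  split_ifs
  · exact sq_nonneg _
  · exact le_rfl

theorem ss_fz_sq_le (k : ℕ) (v : ℝ) (hv : 0 < v) (ε : P.Om) (t : Fin P.T) :
    ss (fz S k t) ε ^ 2 ≤ v * fh S k v ε := by
  have hs : 0 < Real.sqrt v := Real.sqrt_pos.mpr hv
  have e : ss (fz S k t) ε = Real.sqrt v * ss ((Real.sqrt v)⁻¹ • fz S k t) ε := by
    rw [ss_smul, ← mul_assoc, mul_inv_cancel₀ hs.ne', one_mul]
  rw [e, mul_pow, Real.sq_sqrt hv.le]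
  refine mul_le_mul_of_nonneg_left ?_ hv.le
  unfold fh
  set X := ss ((Real.sqrt v)⁻¹ • fz S k t) ε with hX
  have h1 : (if (P.m : ℝ) < |X| then X ^ 2 else 0) ≤
      ∑ t, if (P.m : ℝ) < |ss ((Real.sqrt v)⁻¹ • fz S k t) ε| then
        ss ((Real.sqrt v)⁻¹ • fz S k t) ε ^ 2 else 0 := by
    refine single_le_sum (f := fun t => if (P.m : ℝ) < |ss ((Real.sqrt v)⁻¹ • fz S k t) ε| then
        ss ((Real.sqrt v)⁻¹ • fz S k t) ε ^ 2 else 0) (fun i _ => ?_) (mem_univ t)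
    show 0 ≤ (if (P.m : ℝ) < |ss ((Real.sqrt v)⁻¹ • fz S k i) ε| then
        ss ((Real.sqrt v)⁻¹ • fz S k i) ε ^ 2 else 0)
    split_ifs
    · exact sq_nonneg _
    · exact le_rfl
  by_cases h : (P.m : ℝ) < |X|
  · rw [if_pos h] at h1
    have : (0 : ℝ) ≤ (P.m : ℝ) ^ 2 := sq_nonneg _
    linarith
  · rw [if_neg h] at h1
    have h2 : X ^ 2 ≤ (P.m : ℝ) ^ 2 := by
      rw [← sq_abs X]
      exact pow_le_pow_left₀ (abs_nonneg _) (not_lt.mp h) 2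
    linarith

theorem av_fh_le (hB : P.Big) (k : ℕ) :
    av (fh S k (P.K * ((P.p (k + 1) : ℝ) ^ 100)⁻¹)) ≤ 2 * (P.m : ℝ) ^ 2 := by
  set v : ℝ := P.K * ((P.p (k + 1) : ℝ) ^ 100)⁻¹ with hv
  have hp := hB.p_pos_real (k + 1)
  have hK := hB.one_le_K
  have hv0 : 0 < v := by positivity
  have hT : (0 : ℝ) < P.T := by exact_mod_cast hB.T_pos
  have hT1 : (1 : ℝ) ≤ P.T := by exact_mod_cast hB.T_pos
  have hm := hB.m_pos_real
  unfold fh
  rw [av_add, av_const, av_sum]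
  have h1 : ∀ t : Fin P.T, av (fun ε : P.Om => if (P.m : ℝ) < |ss ((Real.sqrt v)⁻¹ • fz S k t) ε| then
      ss ((Real.sqrt v)⁻¹ • fz S k t) ε ^ 2 else 0) ≤ 1 / (P.T : ℝ) ^ 2 := by
    intro t
    apply tail hB
    rw [nsq_smul, inv_pow, Real.sq_sqrt hv0.le]
    calc v⁻¹ * nsq (fz S k t) ≤ v⁻¹ * v :=
          mul_le_mul_of_nonneg_left (nsq_fz_le hB k t) (by positivity)
      _ = 1 := inv_mul_cancel₀ hv0.ne'
  have h2 := sum_le_sum fun t (_ : t ∈ (univ : Finset (Fin P.T))) => h1 t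
  rw [sum_const, card_univ, Fintype.card_fin, nsmul_eq_mul] at h2
  have h3 : (P.T : ℝ) * (1 / (P.T : ℝ) ^ 2) ≤ 1 := by
    rw [sq, mul_one_div, div_le_one (by positivity)]
    nlinarith
  nlinarith

theorem nrm_wv_sq_le (hB : P.Big) (hS : Good P S) (ε : P.Om) :
    nrm S (wv ε) ^ 2 ≤ P.K + ∑ k ∈ range P.K, (P.p (k + 1) : ℝ) ^ 10 *
      ((P.K * ((P.p (k + 1) : ℝ) ^ 100)⁻¹) * fh S k (P.K * ((P.p (k + 1) : ℝ) ^ 100)⁻¹) ε) := by
  have hK := hB.one_le_K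
  set X : ℕ → ℝ := fun k => (P.p (k + 1) : ℝ) ^ 10 *
      ((P.K * ((P.p (k + 1) : ℝ) ^ 100)⁻¹) * fh S k (P.K * ((P.p (k + 1) : ℝ) ^ 100)⁻¹) ε) with hX
  have hv0 : ∀ k, 0 < P.K * ((P.p (k + 1) : ℝ) ^ 100)⁻¹ := fun k => by
    have hp := hB.p_pos_real (k + 1)
    positivity
  have hX0 : ∀ k, 0 ≤ X k := fun k => by
    have := fh_nonneg (S := S) k (P.K * ((P.p (k + 1) : ℝ) ^ 100)⁻¹) ε
    have := (hv0 k).le
    have hp := hB.p_pos_real (k + 1)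
    positivity
  have hY0 : 0 ≤ (P.K : ℝ) + ∑ k ∈ range P.K, X k :=
    add_nonneg (by linarith) (sum_nonneg fun k _ => hX0 k)
  have key : nrm S (wv ε) ≤ Real.sqrt (P.K + ∑ k ∈ range P.K, X k) := by
    apply nrm_le
    rintro v ⟨-, b, β, ρ, hv, hCB, hr⟩
    rw [one_pow] at hr
    apply Real.le_sqrt_of_sq_le
    have e1 : ip (wv ε) v = ip (wv ε) b + ∑ k ∈ range P.K, ip (wv ε) (W S k (β k)) := by
      rw [hv, ip_add_right, ip_sum_right]
    have hw : nsq (wv ε) = P.K := by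
      unfold nsq wv
      rw [← Par.sum_sig_sq hB]
      exact sum_congr rfl fun a _ => by rw [mul_pow, sg_sq, mul_one]
    have e2 : ∀ k ∈ range P.K, |ip (wv ε) (W S k (β k))| ≤ Real.sqrt (X k) * ρ k := by
      intro k hk
      have hC := hCB k (mem_range.mp hk)
      rw [ip_wv_W]
      have hb : ∀ t, |ss (fz S k t) ε| ≤
          Real.sqrt ((P.K * ((P.p (k + 1) : ℝ) ^ 100)⁻¹) *
            fh S k (P.K * ((P.p (k + 1) : ℝ) ^ 100)⁻¹) ε) := by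
        intro t
        rw [← Real.sqrt_sq_eq_abs]
        exact Real.sqrt_le_sqrt (ss_fz_sq_le k _ (hv0 k) ε t)
      set R := Real.sqrt ((P.K * ((P.p (k + 1) : ℝ) ^ 100)⁻¹) *
            fh S k (P.K * ((P.p (k + 1) : ℝ) ^ 100)⁻¹) ε) with hR
      have hR0 : 0 ≤ R := Real.sqrt_nonneg _
      have hp := hB.p_pos_real (k + 1)
      have e3 : Real.sqrt (X k) = (P.p (k + 1) : ℝ) ^ 5 * R := by
        rw [hX]
        show Real.sqrt ((P.p (k + 1) : ℝ) ^ 10 * _) = _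
        rw [Real.sqrt_mul (by positivity), show (P.p (k + 1) : ℝ) ^ 10 = ((P.p (k + 1) : ℝ) ^ 5) ^ 2 by ring,
          Real.sqrt_sq (by positivity)]
      calc |∑ t, β k t * ss (fz S k t) ε| ≤ ∑ t, |β k t * ss (fz S k t) ε| := abs_sum_le_sum_abs _ _
        _ ≤ ∑ t, |β k t| * R := sum_le_sum fun t _ => by
            rw [abs_mul]; exact mul_le_mul_of_nonneg_left (hb t) (abs_nonneg _)
        _ = n1 (β k) * R := by rw [← sum_mul]; rfl
        _ ≤ ((P.p (k + 1) : ℝ) ^ 5 * ρ k) * R := mul_le_mul_of_nonneg_right hC.one hR0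
        _ = _ := by rw [e3]; ring
    have e4 : |ip (wv ε) v| ≤ Real.sqrt P.K * nm b + ∑ k ∈ range P.K, Real.sqrt (X k) * ρ k := by
      rw [e1]
      refine (abs_add_le _ _).trans (add_le_add ?_ ?_)
      · refine (abs_ip_le _ _).trans (le_of_eq ?_)
        rw [nm, hw]
      · exact (abs_sum_le_sum_abs _ _).trans (sum_le_sum e2)
    have e5 : (Real.sqrt P.K * nm b + ∑ k ∈ range P.K, Real.sqrt (X k) * ρ k) ^ 2 ≤
        (P.K + ∑ k ∈ range P.K, X k) * (nsq b + ∑ k ∈ range P.K, ρ k ^ 2) := by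
      have h1 := sum_mul_sq_le_sq_mul_sq (range P.K) (fun k => Real.sqrt (X k)) ρ
      have h2 : ∑ k ∈ range P.K, Real.sqrt (X k) ^ 2 = ∑ k ∈ range P.K, X k :=
        sum_congr rfl fun k _ => Real.sq_sqrt (hX0 k)
      rw [h2] at h1
      set s := ∑ k ∈ range P.K, Real.sqrt (X k) * ρ k
      set x := ∑ k ∈ range P.K, X k
      set r := ∑ k ∈ range P.K, ρ k ^ 2
      have hx0 : 0 ≤ x := sum_nonneg fun k _ => hX0 k
      have hr0 : 0 ≤ r := sum_nonneg fun k _ => sq_nonneg _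
      have hb2 := nm_sq b
      have hb0 := nm_nonneg b
      have hk2 : Real.sqrt P.K ^ 2 = P.K := Real.sq_sqrt (by linarith)
      have hk0 := Real.sqrt_nonneg (P.K : ℝ)
      -- (a b + s)² ≤ (a² + x)(b² + r), s² ≤ x r
      have h3 : 2 * (Real.sqrt P.K * nm b) * s ≤ Real.sqrt P.K ^ 2 * r + x * nm b ^ 2 := by
        have h4 : s ^ 2 ≤ (Real.sqrt x * Real.sqrt r) ^ 2 := by
          rw [mul_pow, Real.sq_sqrt hx0, Real.sq_sqrt hr0]; exact h1
        have h5 : s ≤ Real.sqrt x * Real.sqrt r :=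
          (abs_le_of_sq_le_sq' h4 (by positivity)).2
        have h6 : 2 * (Real.sqrt P.K * nm b) * s ≤ 2 * (Real.sqrt P.K * nm b) * (Real.sqrt x * Real.sqrt r) :=
          mul_le_mul_of_nonneg_left h5 (by positivity)
        have h7 := sq_nonneg (Real.sqrt P.K * Real.sqrt r - Real.sqrt x * nm b)
        have h8 : Real.sqrt r ^ 2 = r := Real.sq_sqrt hr0
        have h9 : Real.sqrt x ^ 2 = x := Real.sq_sqrt hx0
        have h10 : (Real.sqrt P.K * Real.sqrt r - Real.sqrt x * nm b) ^ 2 =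
            Real.sqrt P.K ^ 2 * Real.sqrt r ^ 2 - 2 * (Real.sqrt P.K * nm b) * (Real.sqrt x * Real.sqrt r)
              + Real.sqrt x ^ 2 * nm b ^ 2 := by ring
        rw [h10, h8, h9] at h7
        linarith
      nlinarith
    calc ip (wv ε) v ^ 2 = |ip (wv ε) v| ^ 2 := (sq_abs _).symm
      _ ≤ _ := pow_le_pow_left₀ (abs_nonneg _) e4 2
      _ ≤ _ := e5
      _ ≤ (P.K + ∑ k ∈ range P.K, X k) * 1 := mul_le_mul_of_nonneg_left hr hY0
      _ = _ := mul_one _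
  calc nrm S (wv ε) ^ 2 ≤ Real.sqrt (P.K + ∑ k ∈ range P.K, X k) ^ 2 :=
        pow_le_pow_left₀ (nrm_nonneg hB hS _) key 2
    _ = _ := Real.sq_sqrt hY0

theorem far_w (hB : P.Big) (hS : Good P S) : av (fun ε : P.Om => nrm S (wv ε) ^ 2) ≤ 2 * P.K := by
  have hK := hB.one_le_K
  refine (av_mono fun ε => nrm_wv_sq_le hB hS ε).trans ?_
  rw [av_add, av_const, av_sum]
  have h1 : ∀ k ∈ range P.K, av (fun ε : P.Om => (P.p (k + 1) : ℝ) ^ 10 *
      ((P.K * ((P.p (k + 1) : ℝ) ^ 100)⁻¹) * fh S k (P.K * ((P.p (k + 1) : ℝ) ^ 100)⁻¹) ε)) ≤ 1 := by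
    intro k _
    rw [av_mul_left, av_mul_left]
    have h2 := av_fh_le (S := S) hB k
    have hp := hB.p_pos_real (k + 1)
    have hp1 := hB.one_le_p_real (k + 1)
    have hm := hB.m_le_p_real k
    have hm1 := hB.m_pos_real
    have hKp := hB.K_pow_le_real k
    have h3 : (P.K : ℝ) * 2 ≤ P.p (k + 1) := by
      refine le_trans ?_ hKp
      calc (P.K : ℝ) * 2 ≤ 1000 * P.K := by linarith
        _ ≤ (1000 * (P.K : ℝ)) ^ 20 := le_self_pow₀ (by linarith) (by norm_num)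
    have h4 : (P.m : ℝ) ^ 2 ≤ (P.p (k + 1) : ℝ) ^ 2 := pow_le_pow_left₀ (by linarith) hm 2
    set p : ℝ := (P.p (k + 1) : ℝ)
    calc p ^ 10 * (P.K * (p ^ 100)⁻¹ * av (fh S k (P.K * (p ^ 100)⁻¹)))
        ≤ p ^ 10 * (P.K * (p ^ 100)⁻¹ * (2 * p ^ 2)) := by
          refine mul_le_mul_of_nonneg_left (mul_le_mul_of_nonneg_left ?_ (by positivity)) (by positivity)
          linarith
      _ = (P.K * 2) * (p ^ 12 * (p ^ 100)⁻¹) := by ring
      _ ≤ p * (p ^ 12 * (p ^ 100)⁻¹) := mul_le_mul_of_nonneg_right h3 (by positivity)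
      _ = p ^ 13 * (p ^ 100)⁻¹ := by ring
      _ ≤ p ^ 100 * (p ^ 100)⁻¹ := mul_le_mul_of_nonneg_right
          (pow_le_pow_right₀ hp1 (by norm_num)) (by positivity)
      _ = 1 := mul_inv_cancel₀ (by positivity)
  have h5 := sum_le_sum h1
  rw [sum_const, card_range, nsmul_eq_mul, mul_one] at h5
  linarith

/-- `‖T w(s)‖² = ∑_{a,b} σ_a σ_b s_a s_b ⟨T e_a, T e_b⟩` -/
theorem norm_T_wv_sq {H : Type} [NormedAddCommGroup H]
    [InnerProductSpace ℝ H] (T : (P.A → ℝ) →ₗ[ℝ] H) (s : P.Om) :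
    ‖T (wv s)‖ ^ 2 = ∑ a, ∑ b, (P.sig a * P.sig b * inner ℝ (T (Pi.single a 1)) (T (Pi.single b 1))) *
      (sg (s a) * sg (s b)) := by
  have e : wv s = ∑ a, (P.sig a * sg (s a)) • (Pi.single a (1 : ℝ) : P.A → ℝ) := by
    funext c
    rw [Finset.sum_apply, Finset.sum_eq_single c]
    · simp [wv]
    · intro b _ hb
      simp [Pi.single_apply, Ne.symm hb]
    · intro h; exact absurd (mem_univ _) h
  have e2 : T (wv s) = ∑ a, (P.sig a * sg (s a)) • T (Pi.single a (1 : ℝ)) := by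
    conv_lhs => rw [e]
    rw [map_sum]
    exact sum_congr rfl fun a _ => by rw [map_smul]
  rw [← real_inner_self_eq_norm_sq, e2, sum_inner]
  refine sum_congr rfl fun a _ => ?_
  rw [inner_sum]
  refine sum_congr rfl fun b _ => ?_
  rw [real_inner_smul_left, real_inner_smul_right]
  ring

theorem av_norm_T_wv {H : Type} [NormedAddCommGroup H]
    [InnerProductSpace ℝ H] (T : (P.A → ℝ) →ₗ[ℝ] H) :
    av (fun ε : P.Om => ‖T (wv ε)‖ ^ 2) = ∑ a, P.sig a ^ 2 * ‖T (Pi.single a (1 : ℝ))‖ ^ 2 := by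
  rw [av_congr fun ε => norm_T_wv_sq T ε, av_sum]
  refine sum_congr rfl fun a _ => ?_
  rw [av_sum]
  have h : ∀ b ∈ (univ : Finset P.A), av (fun ε : P.Om =>
      (P.sig a * P.sig b * inner ℝ (T (Pi.single a 1)) (T (Pi.single b 1))) * (sg (ε a) * sg (ε b))) =
      if a = b then P.sig a * P.sig b * inner ℝ (T (Pi.single a 1)) (T (Pi.single b 1)) else 0 := by
    intro b _
    rw [av_mul_left, av_sg_mul_sg]
    split_ifs <;> simp
  rw [sum_congr rfl h, Finset.sum_ite_eq, if_pos (mem_univ _), real_inner_self_eq_norm_sq]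
  ring

theorem av_norm_T_sample (hB : P.Big) (hS : Good P S) {H : Type} [NormedAddCommGroup H]
    [InnerProductSpace ℝ H] (T : (P.A → ℝ) →ₗ[ℝ] H) :
    av (fun t : Fin P.T => ‖T (wv (S t))‖ ^ 2) ≤
      2 * ∑ a, P.sig a ^ 2 * ‖T (Pi.single a (1 : ℝ))‖ ^ 2 := by
  have hT : (0 : ℝ) < P.T := by exact_mod_cast hB.T_pos
  haveI : Nonempty (Fin P.T) := ⟨⟨0, hB.T_pos⟩⟩
  have hn : (0 : ℝ) < Fintype.card P.A := by exact_mod_cast hB.card_A_pos
  set D := ∑ a, P.sig a ^ 2 * ‖T (Pi.single a (1 : ℝ))‖ ^ 2 with hD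
  have hsig : ∀ a : P.A, 0 < P.sig a := Par.sig_pos hB
  rw [av_congr fun t => norm_T_wv_sq T (S t), av_sum]
  -- each entry
  have h1 : ∀ a b : P.A, av (fun t : Fin P.T =>
      (P.sig a * P.sig b * inner ℝ (T (Pi.single a 1)) (T (Pi.single b 1))) *
        (sg (S t a) * sg (S t b))) ≤
      (if a = b then P.sig a ^ 2 * ‖T (Pi.single a (1 : ℝ))‖ ^ 2 else 0) +
        (P.sig a * ‖T (Pi.single a (1 : ℝ))‖) * (P.sig b * ‖T (Pi.single b (1 : ℝ))‖) *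
          (Fintype.card P.A : ℝ)⁻¹ := by
    intro a b
    rw [av_mul_left]
    have hpos : 0 ≤ (P.sig a * ‖T (Pi.single a (1 : ℝ))‖) * (P.sig b * ‖T (Pi.single b (1 : ℝ))‖) *
          (Fintype.card P.A : ℝ)⁻¹ := by
      exact mul_nonneg (mul_nonneg (mul_nonneg (hsig a).le (norm_nonneg _))
        (mul_nonneg (hsig b).le (norm_nonneg _))) (inv_nonneg.mpr hn.le)
    split_ifs with hab
    · subst hab
      rw [av_congr fun t => sg_mul_self (S t a), av_const, real_inner_self_eq_norm_sq]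
      have : P.sig a * P.sig a * ‖T (Pi.single a (1 : ℝ))‖ ^ 2 * 1 =
          P.sig a ^ 2 * ‖T (Pi.single a (1 : ℝ))‖ ^ 2 := by ring
      linarith
    · rw [zero_add]
      have h2 : |av (fun t : Fin P.T => sg (S t a) * sg (S t b))| ≤ (Fintype.card P.A : ℝ)⁻¹ := by
        unfold av
        rw [Fintype.card_fin, abs_div, abs_of_pos hT, div_le_iff₀ hT]
        refine (hS.p2 a b hab).trans (le_of_eq ?_)
        rw [div_eq_mul_inv, mul_comm]
      have h3 : |inner ℝ (T (Pi.single a (1 : ℝ))) (T (Pi.single b (1 : ℝ)))| ≤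
          ‖T (Pi.single a (1 : ℝ))‖ * ‖T (Pi.single b (1 : ℝ))‖ := abs_real_inner_le_norm _ _
      calc _ ≤ |P.sig a * P.sig b * inner ℝ (T (Pi.single a 1)) (T (Pi.single b 1)) *
            av (fun t : Fin P.T => sg (S t a) * sg (S t b))| := le_abs_self _
        _ = P.sig a * P.sig b * |inner ℝ (T (Pi.single a (1 : ℝ))) (T (Pi.single b (1 : ℝ)))| *
            |av (fun t : Fin P.T => sg (S t a) * sg (S t b))| := by
          rw [abs_mul, abs_mul, abs_mul, abs_of_pos (hsig a), abs_of_pos (hsig b)]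
        _ ≤ P.sig a * P.sig b * (‖T (Pi.single a (1 : ℝ))‖ * ‖T (Pi.single b (1 : ℝ))‖) *
            (Fintype.card P.A : ℝ)⁻¹ := by
          refine mul_le_mul (mul_le_mul_of_nonneg_left h3
            (mul_nonneg (hsig a).le (hsig b).le)) h2 (abs_nonneg _) ?_
          exact mul_nonneg (mul_nonneg (hsig a).le (hsig b).le)
            (mul_nonneg (norm_nonneg _) (norm_nonneg _))
        _ = _ := by ring
  have h2 : ∑ a, av (fun t : Fin P.T => ∑ b,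
      (P.sig a * P.sig b * inner ℝ (T (Pi.single a 1)) (T (Pi.single b 1))) *
        (sg (S t a) * sg (S t b))) ≤
      ∑ a, ∑ b, ((if a = b then P.sig a ^ 2 * ‖T (Pi.single a (1 : ℝ))‖ ^ 2 else 0) +
        (P.sig a * ‖T (Pi.single a (1 : ℝ))‖) * (P.sig b * ‖T (Pi.single b (1 : ℝ))‖) *
          (Fintype.card P.A : ℝ)⁻¹) := by
    refine sum_le_sum fun a _ => ?_
    rw [av_sum]
    exact sum_le_sum fun b _ => h1 a b
  refine h2.trans ?_
  have h3 : ∑ a, ∑ b, ((if a = b then P.sig a ^ 2 * ‖T (Pi.single a (1 : ℝ))‖ ^ 2 else 0) +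
        (P.sig a * ‖T (Pi.single a (1 : ℝ))‖) * (P.sig b * ‖T (Pi.single b (1 : ℝ))‖) *
          (Fintype.card P.A : ℝ)⁻¹) =
      D + (∑ a, P.sig a * ‖T (Pi.single a (1 : ℝ))‖) ^ 2 * (Fintype.card P.A : ℝ)⁻¹ := by
    simp only [sum_add_distrib]
    congr 1
    · rw [hD]
      exact sum_congr rfl fun a _ => by rw [Finset.sum_ite_eq, if_pos (mem_univ _)]
    · rw [sq, sum_mul_sum, sum_mul]
      exact sum_congr rfl fun a _ => by rw [sum_mul]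
  rw [h3]
  have h4 : (∑ a, P.sig a * ‖T (Pi.single a (1 : ℝ))‖) ^ 2 ≤ Fintype.card P.A * D := by
    have := sq_sum_le_card_mul_sum_sq (s := (univ : Finset P.A))
      (f := fun a => P.sig a * ‖T (Pi.single a (1 : ℝ))‖)
    rw [card_univ] at this
    refine this.trans (le_of_eq ?_)
    rw [hD]
    congr 1
    exact sum_congr rfl fun a _ => by ring
  have h5 : (∑ a, P.sig a * ‖T (Pi.single a (1 : ℝ))‖) ^ 2 * (Fintype.card P.A : ℝ)⁻¹ ≤ D := by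
    rw [mul_inv_le_iff₀ hn]
    linarith
  linarith

theorem far (hB : P.Big) (hS : Good P S) {H : Type} [NormedAddCommGroup H]
    [InnerProductSpace ℝ H] (T : (P.A → ℝ) →ₗ[ℝ] H) (c C : ℝ) (hc : 0 ≤ c) (hC : 0 ≤ C)
    (h1 : ∀ x, nrm S x ≤ c * ‖T x‖) (h2 : ∀ x, ‖T x‖ ≤ C * nrm S x) :
    (P.K : ℝ) ≤ 4 * (c * C) ^ 2 := by
  have hK := hB.one_le_K
  haveI : Nonempty (Fin P.T) := ⟨⟨0, hB.T_pos⟩⟩
  -- K ≤ c ‖T w_t‖
  have h3 : ∀ t : Fin P.T, (P.K : ℝ) ^ 2 ≤ c ^ 2 * ‖T (wv (S t))‖ ^ 2 := by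
    intro t
    have e : ip (wv (S t)) (wv (S t)) = P.K := by
      rw [ip_self]
      unfold nsq wv
      rw [← Par.sum_sig_sq hB]
      exact sum_congr rfl fun a _ => by rw [mul_pow, sg_sq, mul_one]
    have h4 := ip_le_nrm hB hS (Rep_sample (S := S) hB t) (wv (S t))
    rw [e, one_mul] at h4
    have h5 : (P.K : ℝ) ≤ c * ‖T (wv (S t))‖ := h4.trans (h1 _)
    rw [← mul_pow]
    exact pow_le_pow_left₀ (by linarith) h5 2
  have h4 : (P.K : ℝ) ^ 2 ≤ c ^ 2 * av (fun t : Fin P.T => ‖T (wv (S t))‖ ^ 2) := by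
    have := av_mono h3
    rw [av_const, av_mul_left] at this
    exact this
  have h5 := av_norm_T_sample hB hS T
  have h6 : ∑ a, P.sig a ^ 2 * ‖T (Pi.single a (1 : ℝ))‖ ^ 2 ≤ C ^ 2 * (2 * P.K) := by
    rw [← av_norm_T_wv T]
    refine (av_mono (g := fun ε : P.Om => C ^ 2 * nrm S (wv ε) ^ 2) fun ε => ?_).trans ?_
    · rw [← mul_pow]
      exact pow_le_pow_left₀ (norm_nonneg _) (h2 _) 2
    · rw [av_mul_left]
      exact mul_le_mul_of_nonneg_left (far_w hB hS) (sq_nonneg _)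
  have h7 : (P.K : ℝ) ^ 2 ≤ c ^ 2 * (2 * (C ^ 2 * (2 * P.K))) := by
    refine h4.trans (mul_le_mul_of_nonneg_left ?_ (sq_nonneg c))
    linarith
  have h8 : (P.K : ℝ) * P.K ≤ P.K * (4 * (c * C) ^ 2) := by
    calc (P.K : ℝ) * P.K = (P.K : ℝ) ^ 2 := by ring
      _ ≤ _ := h7
      _ = _ := by ring
  exact le_of_mul_le_mul_left h8 (by linarith)

end Pool.Agent.PEL
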