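import Pool.Agent.helper75.Pel.Kwapien
import Pool.Agent.helper75.Pel.Ell
import Pool.Agent.helper75.Pel.Law
import Pool.Agent.PEL.Bas

/-!
# PEL-KWA : Kwapien's theorem for sign averages

`G2 x = ∫ ‖∑ g_i x_i‖² dgam` (integrable: `≤ (∑|g_i|‖x_i‖)² ≤ (∑ g_i²)(∑‖x_i‖²)`). `G2` depends only on `QF x` (copy the proof of `ell_congr`
in helper75/Pel: same law of `∑ g_i x_i`). Type: `G2 x = ∫ av_δ ‖∑ δ_i g_i x_i‖² ≤ τ² ∫ ∑ g_i² ‖x_i‖² = τ² ∑‖x_i‖²`
(`measurePreserving_signs`). Cotype: `av_δ ‖∑ δ_i x_i‖² ≤ (π/2) G2 x` or any constant `≤ 4`: pointwise in `δ`,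
`‖∑ δ_i (E|g_i|) x_i‖ ≤ E‖∑ δ_i |g_i| x_i‖`, square by Jensen, average over `δ`, `E|g| ≥ 1/2` (`integral_abs_coord_ge`): `(1/4) av_δ‖∑ δ_i x_i‖² ≤ G2 x`
(see `rad_le_ell` in `Rad.lean`). So `∑‖x_i‖² ≤ τ² av ≤ 4τ² G2 x = 4τ² G2 y ≤ 4τ⁴ ∑‖y_j‖²` if `QF x = QF y`; `kwapien` with `D = 2τ²`.
-/

set_option autoImplicit false

namespace Pool.Agent.PEL

open Finset MeasureTheory ProbabilityTheory
open Pool.Agent.helper75.Pel (gam QF law law_congr integrable_coord integral_sq_coord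
  integral_abs_coord_ge measurePreserving_signs kwapien)

section kwa
variable {E : Type} [NormedAddCommGroup E] [NormedSpace ℝ E]

/-- the second Gaussian moment -/
private noncomputable def kwa_G2 {N : ℕ} (x : Fin N → E) : ℝ :=
  ∫ g : Fin N → ℝ, ‖∑ i, g i • x i‖ ^ 2 ∂(gam (Fin N))

/-- continuous functions bounded by `C ∑ g_i²` are integrable -/
private theorem kwa_int {N : ℕ} (f : (Fin N → ℝ) → ℝ) (hf : Continuous f) (C : ℝ)
    (hb : ∀ g, |f g| ≤ C * ∑ i, g i ^ 2) : Integrable f (gam (Fin N)) := by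
  have h : Integrable (fun g : Fin N → ℝ => C * ∑ i, g i ^ 2) (gam (Fin N)) :=
    (integrable_finsetSum _ fun i _ => (integral_sq_coord i).1).const_mul C
  exact h.mono' hf.aestronglyMeasurable (Filter.Eventually.of_forall fun g => hb g)

private theorem kwa_bound {N : ℕ} (x : Fin N → E) (c : Fin N → ℝ) :
    ‖∑ i, c i • x i‖ ^ 2 ≤ (∑ i, ‖x i‖ ^ 2) * ∑ i, c i ^ 2 := by
  have h1 : ‖∑ i, c i • x i‖ ≤ ∑ i, |c i| * ‖x i‖ :=
    (norm_sum_le _ _).trans (sum_le_sum fun i _ => by rw [norm_smul, Real.norm_eq_abs])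
  have h2 : (∑ i, |c i| * ‖x i‖) ^ 2 ≤ (∑ i, |c i| ^ 2) * ∑ i, ‖x i‖ ^ 2 :=
    sum_mul_sq_le_sq_mul_sq _ _ _
  calc ‖∑ i, c i • x i‖ ^ 2 ≤ (∑ i, |c i| * ‖x i‖) ^ 2 := by gcongr
    _ ≤ (∑ i, |c i| ^ 2) * ∑ i, ‖x i‖ ^ 2 := h2
    _ = (∑ i, ‖x i‖ ^ 2) * ∑ i, c i ^ 2 := by
        rw [mul_comm]
        congr 1
        exact sum_congr rfl fun i _ => sq_abs _

private theorem kwa_int_signs {N : ℕ} (x : Fin N → E) (δ : Fin N → Bool) :
    Integrable (fun g : Fin N → ℝ => ‖∑ i, (sg (δ i) * g i) • x i‖ ^ 2) (gam (Fin N)) := by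
  refine kwa_int _ (by fun_prop) (∑ i, ‖x i‖ ^ 2) fun g => ?_
  rw [abs_of_nonneg (by positivity)]
  refine (kwa_bound x fun i => sg (δ i) * g i).trans (le_of_eq ?_)
  congr 1
  exact sum_congr rfl fun i _ => by rw [mul_pow, sg_sq, one_mul]

private theorem kwa_int_abs {N : ℕ} (x : Fin N → E) (δ : Fin N → Bool) :
    Integrable (fun g : Fin N → ℝ => ‖∑ i, (sg (δ i) * |g i|) • x i‖ ^ 2) (gam (Fin N)) := by
  refine kwa_int _ (by fun_prop) (∑ i, ‖x i‖ ^ 2) fun g => ?_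
  rw [abs_of_nonneg (by positivity)]
  refine (kwa_bound x fun i => sg (δ i) * |g i|).trans (le_of_eq ?_)
  congr 1
  exact sum_congr rfl fun i _ => by rw [mul_pow, sg_sq, one_mul, sq_abs]

private theorem kwa_int_abs1 {N : ℕ} (x : Fin N → E) (δ : Fin N → Bool) :
    Integrable (fun g : Fin N → ℝ => ‖∑ i, (sg (δ i) * |g i|) • x i‖) (gam (Fin N)) := by
  have h : Integrable (fun g : Fin N → ℝ => ∑ i, |g i| * ‖x i‖) (gam (Fin N)) :=
    integrable_finsetSum _ fun i _ => ((integrable_coord i).abs).mul_const _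
  have hc : Continuous (fun g : Fin N → ℝ => ‖∑ i, (sg (δ i) * |g i|) • x i‖) := by fun_prop
  refine h.mono' hc.aestronglyMeasurable (Filter.Eventually.of_forall fun g => ?_)
  rw [norm_norm]
  refine (norm_sum_le _ _).trans (sum_le_sum fun i _ => ?_)
  rw [norm_smul, norm_mul, Real.norm_eq_abs, Real.norm_eq_abs, abs_abs, abs_sg, one_mul]

/-- sign changes do not change the second moment -/
private theorem kwa_signs {N : ℕ} (x : Fin N → E) (δ : Fin N → Bool) :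
    ∫ g : Fin N → ℝ, ‖∑ i, (sg (δ i) * g i) • x i‖ ^ 2 ∂(gam (Fin N)) = kwa_G2 x := by
  unfold kwa_G2
  have h := measurePreserving_signs (fun i => sg (δ i)) (fun i => sg_cases (δ i))
  have hc : Continuous (fun g : Fin N → ℝ => ‖∑ i, g i • x i‖ ^ 2) := by fun_prop
  conv_rhs => rw [← h.map_eq]
  rw [integral_map h.measurable.aemeasurable hc.aestronglyMeasurable]

/-- averages over signs and integrals -/
private theorem kwa_av_int {N : ℕ} (F : (Fin N → Bool) → (Fin N → ℝ) → ℝ)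
    (hF : ∀ δ, Integrable (F δ) (gam (Fin N))) :
    ∫ g, av (fun δ => F δ g) ∂(gam (Fin N)) = av fun δ => ∫ g, F δ g ∂(gam (Fin N)) := by
  unfold av
  rw [integral_div, integral_finsetSum _ fun δ _ => hF δ]

private theorem kwa_G2_av {N : ℕ} (x : Fin N → E) :
    kwa_G2 x = ∫ g : Fin N → ℝ, av (fun δ : Fin N → Bool => ‖∑ i, (sg (δ i) * g i) • x i‖ ^ 2)
      ∂(gam (Fin N)) := by
  rw [kwa_av_int (fun δ g => ‖∑ i, (sg (δ i) * g i) • x i‖ ^ 2) (kwa_int_signs x),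
    av_congr (kwa_signs x), av_const]

/-- type 2 -/
private theorem kwa_type {N : ℕ} (x : Fin N → E) (τ : ℝ)
    (hT : ∀ (N : ℕ) (x : Fin N → E),
      av (fun δ : Fin N → Bool => ‖∑ i, sg (δ i) • x i‖ ^ 2) ≤ τ ^ 2 * ∑ i, ‖x i‖ ^ 2) :
    kwa_G2 x ≤ τ ^ 2 * ∑ i, ‖x i‖ ^ 2 := by
  rw [kwa_G2_av]
  have hI : Integrable (fun g : Fin N → ℝ => τ ^ 2 * ∑ i, g i ^ 2 * ‖x i‖ ^ 2) (gam (Fin N)) :=
    (integrable_finsetSum _ fun i _ => (integral_sq_coord i).1.mul_const _).const_mul _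
  have hI' : Integrable (fun g : Fin N → ℝ => av (fun δ : Fin N → Bool =>
      ‖∑ i, (sg (δ i) * g i) • x i‖ ^ 2)) (gam (Fin N)) := by
    unfold av
    exact (integrable_finsetSum _ fun δ _ => kwa_int_signs x δ).div_const _
  refine (integral_mono hI' hI fun g => ?_).trans (le_of_eq ?_)
  · have h := hT N fun i => g i • x i
    simp only [smul_smul] at h
    refine h.trans (le_of_eq ?_)
    congr 1
    refine sum_congr rfl fun i _ => ?_
    rw [norm_smul, mul_pow, Real.norm_eq_abs, sq_abs]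
  · rw [integral_const_mul, integral_finsetSum _ fun i _ => (integral_sq_coord i).1.mul_const _]
    congr 1
    refine sum_congr rfl fun i _ => ?_
    rw [integral_mul_const, (integral_sq_coord i).2, one_mul]

/-- the absolute first moment is the same for all coordinates -/
private theorem kwa_abs {N : ℕ} (i : Fin N) :
    ∫ g : Fin N → ℝ, |g i| ∂(gam (Fin N)) = ∫ t : ℝ, |t| ∂(gaussianReal 0 1) := by
  have hmp : MeasurePreserving (fun g : Fin N → ℝ => g i) (gam (Fin N)) (gaussianReal 0 1) :=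
    measurePreserving_eval (fun _ : Fin N => gaussianReal 0 1) i
  have hc : Continuous (fun t : ℝ => |t|) := by fun_prop
  rw [← hmp.map_eq, integral_map hmp.measurable.aemeasurable hc.aestronglyMeasurable]

/-- absolute values under the average over signs -/
private theorem kwa_av_abs {N : ℕ} (x : Fin N → E) (g : Fin N → ℝ) :
    av (fun δ : Fin N → Bool => ‖∑ i, (sg (δ i) * g i) • x i‖ ^ 2) =
      av (fun δ : Fin N → Bool => ‖∑ i, (sg (δ i) * |g i|) • x i‖ ^ 2) := by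
  classical
  rw [← av_equiv (Equiv.piCongrRight fun i : Fin N =>
    if 0 ≤ g i then Equiv.refl Bool else Equiv.boolNot)
    (fun δ : Fin N → Bool => ‖∑ i, (sg (δ i) * g i) • x i‖ ^ 2)]
  refine av_congr fun δ => ?_
  congr 2
  refine sum_congr rfl fun i _ => ?_
  congr 1
  simp only [Equiv.piCongrRight_apply, Pi.map_apply]
  by_cases h : 0 ≤ g i
  · rw [if_pos h, abs_of_nonneg h]; rfl
  · rw [if_neg h, abs_of_nonpos (not_le.mp h).le]
    have : (Equiv.boolNot (δ i)) = !(δ i) := rfl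
    rw [this, sg_not]
    ring

/-- cotype side -/
private theorem kwa_cotype {N : ℕ} (x : Fin N → E) :
    av (fun δ : Fin N → Bool => ‖∑ i, sg (δ i) • x i‖ ^ 2) ≤ 4 * kwa_G2 x := by
  rcases Nat.eq_zero_or_pos N with hN | hN
  · subst hN
    have h0 : 0 ≤ kwa_G2 x := integral_nonneg fun g => by positivity
    have h1 : av (fun δ : Fin 0 → Bool => ‖∑ i, sg (δ i) • x i‖ ^ 2) = 0 := by
      unfold av; simp
    rw [h1]
    linarith
  set m : ℝ := ∫ t : ℝ, |t| ∂(gaussianReal 0 1) with hm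
  have hm2 : 1 / 2 ≤ m := by
    have := integral_abs_coord_ge (⟨0, hN⟩ : Fin N)
    rwa [kwa_abs] at this
  have key : ∀ δ : Fin N → Bool, m ^ 2 * ‖∑ i, sg (δ i) • x i‖ ^ 2 ≤
      ∫ g : Fin N → ℝ, ‖∑ i, (sg (δ i) * |g i|) • x i‖ ^ 2 ∂(gam (Fin N)) := by
    intro δ
    have h1 : m * ‖∑ i, sg (δ i) • x i‖ ≤
        ∫ g : Fin N → ℝ, ‖∑ i, (sg (δ i) * |g i|) • x i‖ ∂(gam (Fin N)) := by
      obtain ⟨ξ, hξ, hv⟩ := exists_dual_vector'' ℝ (∑ i, sg (δ i) • x i)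
      have hv' : ‖∑ i, sg (δ i) • x i‖ = ξ (∑ i, sg (δ i) • x i) := by rw [hv]; rfl
      have e3 : m * ‖∑ i, sg (δ i) • x i‖ =
          ∫ g : Fin N → ℝ, ∑ i, (sg (δ i) * ξ (x i)) * |g i| ∂(gam (Fin N)) := by
        rw [hv', map_sum, mul_sum,
          integral_finsetSum _ fun i _ => (integrable_coord i).abs.const_mul _]
        refine sum_congr rfl fun i _ => ?_
        rw [integral_const_mul, kwa_abs, map_smul, smul_eq_mul]
        ring
      rw [e3]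
      apply integral_mono (integrable_finsetSum _ fun i _ => (integrable_coord i).abs.const_mul _)
        (kwa_int_abs1 x δ)
      intro g
      have e4 : ∑ i, (sg (δ i) * ξ (x i)) * |g i| = ξ (∑ i, (sg (δ i) * |g i|) • x i) := by
        rw [map_sum]
        refine sum_congr rfl fun i _ => ?_
        rw [map_smul, smul_eq_mul]
        ring
      simp only
      rw [e4]
      calc ξ (∑ i, (sg (δ i) * |g i|) • x i) ≤ ‖ξ (∑ i, (sg (δ i) * |g i|) • x i)‖ :=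
            Real.le_norm_self _
        _ ≤ ‖ξ‖ * ‖∑ i, (sg (δ i) * |g i|) • x i‖ := ξ.le_opNorm _
        _ ≤ 1 * ‖∑ i, (sg (δ i) * |g i|) • x i‖ :=
            mul_le_mul_of_nonneg_right hξ (norm_nonneg _)
        _ = _ := one_mul _
    set I : ℝ := ∫ g : Fin N → ℝ, ‖∑ i, (sg (δ i) * |g i|) • x i‖ ∂(gam (Fin N)) with hI
    have h2 : I ^ 2 ≤ ∫ g : Fin N → ℝ, ‖∑ i, (sg (δ i) * |g i|) • x i‖ ^ 2 ∂(gam (Fin N)) := by
      have h3 : 0 ≤ ∫ g : Fin N → ℝ, (‖∑ i, (sg (δ i) * |g i|) • x i‖ - I) ^ 2 ∂(gam (Fin N)) :=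
        integral_nonneg fun g => sq_nonneg _
      have h4 : ∫ g : Fin N → ℝ, (‖∑ i, (sg (δ i) * |g i|) • x i‖ - I) ^ 2 ∂(gam (Fin N)) =
          ∫ g : Fin N → ℝ, ‖∑ i, (sg (δ i) * |g i|) • x i‖ ^ 2 ∂(gam (Fin N)) - I ^ 2 := by
        have e : ∀ g : Fin N → ℝ, (‖∑ i, (sg (δ i) * |g i|) • x i‖ - I) ^ 2 =
            ‖∑ i, (sg (δ i) * |g i|) • x i‖ ^ 2 - 2 * I * ‖∑ i, (sg (δ i) * |g i|) • x i‖
              + I ^ 2 := fun g => by ring
        have hA := kwa_int_abs x δ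
        have hB := (kwa_int_abs1 x δ).const_mul (2 * I)
        have e5 := integral_add (hA.sub hB) (integrable_const (I ^ 2))
        simp only [Pi.sub_apply] at e5
        simp_rw [e]
        rw [e5, integral_sub hA hB, integral_const_mul, ← hI, integral_const]
        simp
        ring
      rw [h4] at h3
      linarith
    have h5 : 0 ≤ m * ‖∑ i, sg (δ i) • x i‖ := mul_nonneg (by linarith) (norm_nonneg _)
    calc m ^ 2 * ‖∑ i, sg (δ i) • x i‖ ^ 2 = (m * ‖∑ i, sg (δ i) • x i‖) ^ 2 := by ring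
      _ ≤ I ^ 2 := by gcongr
      _ ≤ _ := h2
  have h6 : m ^ 2 * av (fun δ : Fin N → Bool => ‖∑ i, sg (δ i) • x i‖ ^ 2) ≤ kwa_G2 x := by
    rw [kwa_G2_av, funext (kwa_av_abs x), kwa_av_int (fun δ g => ‖∑ i, (sg (δ i) * |g i|) • x i‖ ^ 2) (kwa_int_abs x),
      ← av_mul_left]
    exact av_mono key
  have h7 : 0 ≤ av (fun δ : Fin N → Bool => ‖∑ i, sg (δ i) • x i‖ ^ 2) :=
    av_nonneg fun δ => by positivity
  have h8 : (1 : ℝ) ≤ 4 * m ^ 2 := by nlinarith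
  nlinarith

/-- equal covariance forms give equal second moments -/
private theorem kwa_congr [FiniteDimensional ℝ E] {N M : ℕ} {x : Fin N → E} {y : Fin M → E}
    (h : ∀ ξ, QF x ξ = QF y ξ) : kwa_G2 x = kwa_G2 y := by
  let _ : MeasurableSpace E := borel E
  have : BorelSpace E := ⟨rfl⟩
  have : ProperSpace E := FiniteDimensional.proper_real E
  have : SecondCountableTopology E := secondCountable_of_proper
  have hm : ∀ {K : ℕ} (z : Fin K → E), kwa_G2 z = ∫ v, ‖v‖ ^ 2 ∂(law z) := by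
    intro K z
    have hz : Continuous (fun g : Fin K → ℝ => ∑ i, g i • z i) := by fun_prop
    have hn : Continuous (fun v : E => ‖v‖ ^ 2) := by fun_prop
    unfold law
    rw [integral_map hz.measurable.aemeasurable hn.aestronglyMeasurable]
    rfl
  rw [hm, hm, law_congr h]

end kwa

theorem kwapien_signs (E : Type) [NormedAddCommGroup E] [NormedSpace ℝ E] [FiniteDimensional ℝ E]
    (τ : ℝ) (hτ : 0 ≤ τ)
    (hT : ∀ (N : ℕ) (x : Fin N → E),
      av (fun δ : Fin N → Bool => ‖∑ i, sg (δ i) • x i‖ ^ 2) ≤ τ ^ 2 * ∑ i, ‖x i‖ ^ 2)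
    (hC : ∀ (N : ℕ) (x : Fin N → E),
      ∑ i, ‖x i‖ ^ 2 ≤ τ ^ 2 * av (fun δ : Fin N → Bool => ‖∑ i, sg (δ i) • x i‖ ^ 2)) :
    ∃ T : E ≃L[ℝ] EuclideanSpace ℝ (Fin (Module.finrank ℝ E)),
      ‖(T : E →L[ℝ] EuclideanSpace ℝ (Fin (Module.finrank ℝ E)))‖ *
        ‖(T.symm : EuclideanSpace ℝ (Fin (Module.finrank ℝ E)) →L[ℝ] E)‖ ≤ 2 * τ ^ 2 := by
  refine kwapien E (2 * τ ^ 2) (by positivity) fun N M x y h => ?_
  have h1 := hC N x
  have h2 := kwa_cotype x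
  have h3 := kwa_congr h
  have h4 := kwa_type y τ hT
  have h5 : 0 ≤ τ ^ 2 := sq_nonneg τ
  calc ∑ i, ‖x i‖ ^ 2 ≤ τ ^ 2 * av (fun δ : Fin N → Bool => ‖∑ i, sg (δ i) • x i‖ ^ 2) := h1
    _ ≤ τ ^ 2 * (4 * kwa_G2 x) := by gcongr
    _ = τ ^ 2 * (4 * kwa_G2 y) := by rw [h3]
    _ ≤ τ ^ 2 * (4 * (τ ^ 2 * ∑ j, ‖y j‖ ^ 2)) := by gcongr
    _ = (2 * τ ^ 2) ^ 2 * ∑ j, ‖y j‖ ^ 2 := by ring

end Pool.Agent.PEL
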