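import Pool.Agent.PEL.ParLem

/-!
# PEL-PAR : good parameters exist

For fixed `K`: `T = m^(10·500^K)`, `T^4 exp(-m/64) = m^c exp(-m/64) → 0` (`Real.tendsto_pow_mul_exp_neg_atTop_nhds_zero` or similar).
-/

set_option autoImplicit false

namespace Pool.Agent.PEL

open Filter Topology in
theorem exists_big (K : ℕ) (hK : 1 ≤ K) : ∃ m : ℕ, (⟨K, m⟩ : Par).Big := by
  obtain ⟨c, hc⟩ : ∃ c : ℕ, c = 500 ^ K * 10 * 4 := ⟨_, rfl⟩
  have h := Real.tendsto_pow_mul_exp_neg_atTop_nhds_zero c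
  have h2 : Tendsto (fun m : ℕ => ((m : ℝ) / 64) ^ c * Real.exp (-((m : ℝ) / 64))) atTop (𝓝 0) :=
    h.comp (tendsto_natCast_atTop_atTop.atTop_div_const (by norm_num))
  have hpos : (0 : ℝ) < 1 / (2 ^ 10 * 64 ^ c) := by positivity
  have h3 : ∀ᶠ m : ℕ in atTop,
      ((m : ℝ) / 64) ^ c * Real.exp (-((m : ℝ) / 64)) < 1 / (2 ^ 10 * 64 ^ c) :=
    h2.eventually (gt_mem_nhds hpos)
  obtain ⟨m, hm1, hm2⟩ := (h3.and (eventually_ge_atTop ((1000 * K) ^ 20))).exists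
  refine ⟨m, hK, hm2, ?_⟩
  have hT : (((⟨K, m⟩ : Par).T : ℕ) : ℝ) ^ 4 = 64 ^ c * ((m : ℝ) / 64) ^ c := by
    have e1 : (⟨K, m⟩ : Par).T = (m ^ (500 ^ K)) ^ 10 := rfl
    rw [e1]
    push_cast
    rw [← pow_mul, ← pow_mul]
    have e3 : 500 ^ K * (10 * 4) = c := by rw [hc, mul_assoc]
    rw [e3, div_pow]
    field_simp
  have e2 : (-(((⟨K, m⟩ : Par).m : ℕ) : ℝ) / 64) = -((m : ℝ) / 64) := by
    show (-(m : ℝ) / 64) = -((m : ℝ) / 64)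
    ring
  rw [hT, e2, mul_assoc]
  have h64 : (0 : ℝ) < 64 ^ c := by positivity
  calc (64 : ℝ) ^ c * (((m : ℝ) / 64) ^ c * Real.exp (-((m : ℝ) / 64)))
      ≤ 64 ^ c * (1 / (2 ^ 10 * 64 ^ c)) := mul_le_mul_of_nonneg_left hm1.le h64.le
    _ = 1 / 2 ^ 10 := by
      field_simp

end Pool.Agent.PEL
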