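import Pool.Agent.PEL.Rnd3

/-!
# PEL-RND : existence of good samples (section 7 of the text)
-/

set_option autoImplicit false

namespace Pool.Agent.PEL

open Finset

variable {P : Par}

theorem exp_eighth_le (hB : P.Big) (c : ℝ) (hc : (P.m : ℝ) / 64 ≤ c) :
    Real.exp (-c) ≤ 1 / 2 ^ 10 / (P.T : ℝ) ^ 4 := by
  have hT : (1 : ℝ) ≤ P.T := by exact_mod_cast hB.T_pos
  have h := hB.hexp
  rw [le_div_iff₀ (by positivity)]
  have h1 : Real.exp (-c) ≤ Real.exp (-(P.m : ℝ) / 64) := by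
    apply Real.exp_le_exp.mpr
    linarith
  calc Real.exp (-c) * (P.T : ℝ) ^ 4 ≤ Real.exp (-(P.m : ℝ) / 64) * (P.T : ℝ) ^ 4 :=
        mul_le_mul_of_nonneg_right h1 (by positivity)
    _ = (P.T : ℝ) ^ 4 * Real.exp (-(P.m : ℝ) / 64) := by ring
    _ ≤ _ := h

/-- bound used for all tails -/
theorem tail_small (hB : P.Big) (c : ℝ) (hc : (P.m : ℝ) / 64 ≤ c) :
    (P.T : ℝ) ^ 2 * (4 * Real.exp (-c)) ≤ 1 / (8 * P.K) := by
  have hT : (1 : ℝ) ≤ P.T := by exact_mod_cast hB.T_pos
  have hK : (1 : ℝ) ≤ P.K := hB.one_le_K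
  have hKT : (P.K : ℝ) ≤ P.T := by
    have h1 := hB.K_pow_le_real P.K
    have h2 : (P.T : ℝ) = (P.p (P.K + 1) : ℝ) ^ 10 := by rw [Par.T_eq]; push_cast; rfl
    have h3 : (1 : ℝ) ≤ P.p (P.K + 1) := hB.one_le_p_real _
    calc (P.K : ℝ) ≤ 1000 * P.K := by linarith
      _ ≤ (1000 * (P.K : ℝ)) ^ 20 := le_self_pow₀ (by linarith) (by norm_num)
      _ ≤ P.p (P.K + 1) := h1
      _ ≤ (P.p (P.K + 1) : ℝ) ^ 10 := le_self_pow₀ h3 (by norm_num)
      _ = P.T := h2.symm
  have h1 := exp_eighth_le hB c hc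
  have h2 : (P.T : ℝ) ^ 2 * (4 * Real.exp (-c)) ≤
      (P.T : ℝ) ^ 2 * (4 * (1 / 2 ^ 10 / (P.T : ℝ) ^ 4)) := by
    apply mul_le_mul_of_nonneg_left _ (by positivity)
    linarith
  refine h2.trans ?_
  have h3 : (P.T : ℝ) ^ 2 * (4 * (1 / 2 ^ 10 / (P.T : ℝ) ^ 4)) = 1 / (256 * (P.T : ℝ) ^ 2) := by
    field_simp
    ring
  rw [h3]
  apply one_div_le_one_div_of_le (by positivity)
  nlinarith

/-- (P1) for one pair and one level -/
theorem p1_tail (hB : P.Big) {l : ℕ} (hl : l < P.K) (s t : Fin P.T) (hst : s ≠ t) :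
    av (fun S : P.Sam => if (P.p (l + 1) : ℝ) ^ 60 <
      |∑ a ∈ lvl P l, sg (S s a) * sg (S t a)| then (1 : ℝ) else 0)
      ≤ 4 * Real.exp (-((P.m : ℝ) / 8)) := by
  have hp : (1 : ℝ) ≤ P.p (l + 1) := hB.one_le_p_real _
  have hp0 : (0 : ℝ) < P.p (l + 1) := by linarith
  set M : P.A → P.A → ℝ := fun a b =>
    if a = b then (if (a.1 : ℕ) = l then ((P.p (l + 1) : ℝ) ^ 50)⁻¹ else 0) else 0 with hM
  have hMs : ∑ a, ∑ b, M a b ^ 2 ≤ 1 := by
    have e : ∑ a, ∑ b, M a b ^ 2 = ∑ a ∈ lvl P l, (((P.p (l + 1) : ℝ) ^ 50)⁻¹) ^ 2 := by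
      unfold lvl
      rw [sum_filter]
      refine sum_congr rfl fun a _ => ?_
      rw [sum_eq_single a]
      · simp only [hM, if_true]
        split_ifs <;> simp
      · intro b _ hb
        simp [hM, Ne.symm hb]
      · intro h; exact absurd (mem_univ _) h
    rw [e, sum_const, Par.card_lvl hl, Par.N_eq, nsmul_eq_mul]
    push_cast
    rw [inv_pow, ← pow_mul]
    rw [mul_inv_cancel₀ (by positivity)]
  have hq : ∀ S : P.Sam, qf M s t S
      = ((P.p (l + 1) : ℝ) ^ 50)⁻¹ * ∑ a ∈ lvl P l, sg (S s a) * sg (S t a) := by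
    intro S
    unfold qf
    rw [if_neg hst, sub_zero]
    unfold lvl
    rw [sum_filter, mul_sum]
    refine sum_congr rfl fun a _ => ?_
    rw [sum_eq_single a]
    · simp only [hM, if_true]
      split_ifs <;> ring
    · intro b _ hb
      simp [hM, Ne.symm hb]
    · intro h; exact absurd (mem_univ _) h
  have h1 := qf_tail M hMs s t (P.m : ℝ)
  have e8 : -((P.m : ℝ) / 8) = -(P.m : ℝ) / 8 := by ring
  rw [e8]
  refine (av_mono fun S => ?_).trans h1
  by_cases h : (P.p (l + 1) : ℝ) ^ 60 < |∑ a ∈ lvl P l, sg (S s a) * sg (S t a)|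
  · have h2 : (P.m : ℝ) < |qf M s t S| := by
      rw [hq, abs_mul, abs_of_pos (by positivity : (0 : ℝ) < ((P.p (l + 1) : ℝ) ^ 50)⁻¹)]
      have h3 : (P.m : ℝ) ≤ (P.p (l + 1) : ℝ) ^ 10 :=
        (hB.m_le_p_real l).trans (le_self_pow₀ hp (by norm_num))
      calc (P.m : ℝ) ≤ (P.p (l + 1) : ℝ) ^ 10 := h3
        _ = ((P.p (l + 1) : ℝ) ^ 50)⁻¹ * (P.p (l + 1) : ℝ) ^ 60 := by
            rw [inv_mul_eq_div, eq_div_iff (by positivity)]
            ring
        _ < _ := mul_lt_mul_of_pos_left h (by positivity)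
    rw [if_pos h, if_pos h2]
  · rw [if_neg h]
    positivity

/-- second moment of the column products -/
theorem av_col_sq {J A : Type} [Fintype J] [DecidableEq J] [Fintype A] [DecidableEq A]
    (a b : A) (hab : a ≠ b) :
    av (fun S : J → A → Bool => (∑ t, sg (S t a) * sg (S t b)) ^ 2) = Fintype.card J := by
  have e : ∀ S : J → A → Bool, (∑ t, sg (S t a) * sg (S t b)) ^ 2
      = ∑ t, ∑ t', sg (S t a) * sg (S t b) * (sg (S t' a) * sg (S t' b)) := by
    intro S
    rw [sq, sum_mul_sum]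
  rw [av_congr e, av_sum]
  have h : ∀ t t' : J, av (fun S : J → A → Bool =>
      sg (S t a) * sg (S t b) * (sg (S t' a) * sg (S t' b))) = if t = t' then 1 else 0 := by
    intro t t'
    split_ifs with htt
    · subst htt
      have : ∀ S : J → A → Bool,
          sg (S t a) * sg (S t b) * (sg (S t a) * sg (S t b)) = 1 := by
        intro S
        have h1 := sg_mul_self (S t a)
        have h2 := sg_mul_self (S t b)
        linear_combination (sg (S t b) * sg (S t b)) * h1 + h2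
      rw [av_congr this, av_const]
    · rw [← av_equiv (Equiv.curry J A Bool)]
      refine av_odd (t, a) _ fun ε => ?_
      have k1 : (Equiv.curry J A Bool) (flip (t, a) ε) t a = !(ε (t, a)) := flip_self _ _
      have k2 : (Equiv.curry J A Bool) (flip (t, a) ε) t b = ε (t, b) :=
        flip_ne (by simp [Ne.symm hab]) _
      have k3 : (Equiv.curry J A Bool) (flip (t, a) ε) t' a = ε (t', a) :=
        flip_ne (by simp [Ne.symm htt]) _
      have k4 : (Equiv.curry J A Bool) (flip (t, a) ε) t' b = ε (t', b) :=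
        flip_ne (by simp [Ne.symm hab]) _
      rw [k1, k2, k3, k4, sg_not]
      change _ = -(sg (ε (t, a)) * sg (ε (t, b)) * (sg (ε (t', a)) * sg (ε (t', b))))
      ring
  have h2 : ∀ t, av (fun S : J → A → Bool => ∑ t', sg (S t a) * sg (S t b) *
      (sg (S t' a) * sg (S t' b))) = 1 := by
    intro t
    rw [av_sum, sum_congr rfl fun t' _ => h t t']
    simp
  rw [sum_congr rfl fun t _ => h2 t]
  simp

/-- (P2) for one pair of columns -/
theorem p2_tail (hB : P.Big) (a b : P.A) (hab : a ≠ b) :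
    av (fun S : P.Sam => if (P.T : ℝ) / (Fintype.card P.A : ℝ) <
      |∑ t, sg (S t a) * sg (S t b)| then (1 : ℝ) else 0)
      ≤ (Fintype.card P.A : ℝ) ^ 2 / P.T := by
  have hn : (0 : ℝ) < Fintype.card P.A := by exact_mod_cast hB.card_A_pos
  have hT : (0 : ℝ) < P.T := by exact_mod_cast hB.T_pos
  have key : ∀ x : ℝ, (if (P.T : ℝ) / (Fintype.card P.A : ℝ) < |x| then (1 : ℝ) else 0)
      ≤ ((Fintype.card P.A : ℝ) ^ 2 / (P.T : ℝ) ^ 2) * x ^ 2 := by
    intro x
    split_ifs with h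
    · have h1 : ((P.T : ℝ) / (Fintype.card P.A : ℝ)) ^ 2 ≤ x ^ 2 := by
        rw [← sq_abs x]
        exact pow_le_pow_left₀ (by positivity) h.le 2
      have h2 : (1 : ℝ) = ((Fintype.card P.A : ℝ) ^ 2 / (P.T : ℝ) ^ 2) *
          ((P.T : ℝ) / (Fintype.card P.A : ℝ)) ^ 2 := by
        field_simp
      rw [h2]
      exact mul_le_mul_of_nonneg_left h1 (by positivity)
    · positivity
  refine (av_mono fun S => key _).trans ?_
  rw [av_mul_left, av_col_sq a b hab, Fintype.card_fin]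
  apply le_of_eq
  field_simp

open Classical in
/-- Good samples exist. -/
theorem exists_good (hB : P.Big) : ∃ S : P.Sam, Good P S := by
  have hK : (1 : ℝ) ≤ P.K := hB.one_le_K
  have hT1 : (1 : ℝ) ≤ P.T := by exact_mod_cast hB.T_pos
  have hm1 : (1000 * (P.K : ℝ)) ^ 20 ≤ P.m := by exact_mod_cast hB.hm
  have hmK : 1000 * (P.K : ℝ) ≤ P.m :=
    (le_self_pow₀ (by linarith) (by norm_num)).trans hm1
  have hn1 : (2 : ℝ) ≤ Fintype.card P.A := by
    have h0 : P.N 0 ≤ Fintype.card P.A := by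
      rw [← Par.card_lvl (P := P) (l := 0) (by have := hB.hK; omega)]
      exact card_le_univ _
    have h1 : 2 ≤ P.N 0 := by
      rw [Par.N_eq]
      have h2 : 2 ≤ P.p 1 := le_trans (le_trans (by norm_num) hB.m_ge) (hB.m_le_p 0)
      exact le_trans h2 (Nat.le_self_pow (by norm_num) _)
    exact_mod_cast le_trans h1 h0
  -- the bad events
  let E1 : (Fin P.K × Fin P.T × Fin P.T) → P.Sam → Prop := fun i S =>
    i.2.1 ≠ i.2.2 ∧ (P.p ((i.1 : ℕ) + 1) : ℝ) ^ 60 <
      |∑ a ∈ lvl P i.1, sg (S i.2.1 a) * sg (S i.2.2 a)|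
  let E2 : (P.A × P.A) → P.Sam → Prop := fun i S =>
    i.1 ≠ i.2 ∧ (P.T : ℝ) / (Fintype.card P.A : ℝ) < |∑ t, sg (S t i.1) * sg (S t i.2)|
  let BB : Option (Fin P.K) → Finset P.A := fun o => o.elim univ fun l => lvl P l
  let E3 : Option (Fin P.K) → P.Sam → Prop := fun o S =>
    ¬ (∀ M : P.A → P.A → ℝ, (∀ a b, M a b ≠ 0 → a ∈ BB o ∧ b ∈ BB o) →
        ∃ Ex : Finset (Fin P.T), Ex.card ≤ 2 * (BB o).card ^ 3 ∧ ∀ s t, s ∉ Ex → t ∉ Ex →
          |qf M s t S| ≤ (P.m : ℝ) * Real.sqrt (∑ a, ∑ b, M a b ^ 2))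
  have b1 : av (fun S : P.Sam => if ∃ i, E1 i S then (1 : ℝ) else 0) ≤ 1 / 8 := by
    have h1 : ∀ i, av (fun S : P.Sam => if E1 i S then (1 : ℝ) else 0)
        ≤ 4 * Real.exp (-((P.m : ℝ) / 8)) := by
      intro i
      by_cases hi : i.2.1 = i.2.2
      · have : ∀ S : P.Sam, (if E1 i S then (1 : ℝ) else 0) = 0 :=
          fun S => if_neg fun h : E1 i S => h.1 hi
        rw [av_congr this, av_const]
        positivity
      · refine le_trans (le_of_eq (av_congr fun S => ?_)) (p1_tail hB i.1.2 i.2.1 i.2.2 hi)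
        by_cases hS : (P.p ((i.1 : ℕ) + 1) : ℝ) ^ 60 <
            |∑ a ∈ lvl P i.1, sg (S i.2.1 a) * sg (S i.2.2 a)|
        · rw [if_pos (show E1 i S from ⟨hi, hS⟩), if_pos hS]
        · rw [if_neg (fun h : E1 i S => hS h.2), if_neg hS]
    refine (union_le E1 _ h1).trans ?_
    rw [Fintype.card_prod, Fintype.card_prod, Fintype.card_fin, Fintype.card_fin]
    push_cast
    have h2 := tail_small hB ((P.m : ℝ) / 8) (by linarith)
    rw [le_div_iff₀ (by positivity)] at h2
    linarith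
  have b2 : av (fun S : P.Sam => if ∃ i, E2 i S then (1 : ℝ) else 0) ≤ 1 / 8 := by
    have h1 : ∀ i, av (fun S : P.Sam => if E2 i S then (1 : ℝ) else 0)
        ≤ (Fintype.card P.A : ℝ) ^ 2 / P.T := by
      intro i
      by_cases hi : i.1 = i.2
      · have : ∀ S : P.Sam, (if E2 i S then (1 : ℝ) else 0) = 0 :=
          fun S => if_neg fun h : E2 i S => h.1 hi
        rw [av_congr this, av_const]
        positivity
      · refine le_trans (le_of_eq (av_congr fun S => ?_)) (p2_tail hB i.1 i.2 hi)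
        by_cases hS : (P.T : ℝ) / (Fintype.card P.A : ℝ) < |∑ t, sg (S t i.1) * sg (S t i.2)|
        · rw [if_pos (show E2 i S from ⟨hi, hS⟩), if_pos hS]
        · rw [if_neg (fun h : E2 i S => hS h.2), if_neg hS]
    refine (union_le E2 _ h1).trans ?_
    rw [Fintype.card_prod]
    push_cast
    have h2 : (Fintype.card P.A : ℝ) ^ 40 ≤ P.T := by exact_mod_cast hB.card_A_pow_le
    set n : ℝ := (Fintype.card P.A : ℝ)
    have h3 : n * n * (n ^ 2 / P.T) = n ^ 4 / P.T := by ring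
    rw [h3, div_le_iff₀ (by positivity)]
    have h4 : n ^ 40 = n ^ 4 * n ^ 36 := by ring
    have h5 : (8 : ℝ) ≤ n ^ 36 := by
      calc (8 : ℝ) ≤ 2 ^ 36 := by norm_num
        _ ≤ n ^ 36 := pow_le_pow_left₀ (by norm_num) hn1 36
    have h6 : 0 < n ^ 4 := by positivity
    nlinarith
  have b3 : av (fun S : P.Sam => if ∃ o, E3 o S then (1 : ℝ) else 0) ≤ 1 / 8 := by
    have hc : ∀ o, P.m ≤ (BB o).card := by
      intro o
      cases o with
      | none =>
        have h0 : P.N 0 ≤ Fintype.card P.A := by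
          rw [← Par.card_lvl (P := P) (l := 0) (by have := hB.hK; omega)]
          exact card_le_univ _
        have h1 : P.m ≤ P.N 0 := by
          rw [Par.N_eq]
          exact le_trans (hB.m_le_p 0) (Nat.le_self_pow (by norm_num) _)
        exact le_trans h1 h0
      | some l =>
        have : (BB (some l)).card = P.N l := Par.card_lvl l.2
        rw [this, Par.N_eq]
        exact le_trans (hB.m_le_p l) (Nat.le_self_pow (by norm_num) _)
    have hθ : (Fintype.card (Fin P.T) : ℝ) ^ 2 * (4 * Real.exp (-((P.m : ℝ) - 2) / 8)) ≤ 1 / 8 := by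
      rw [Fintype.card_fin]
      have e8 : -((P.m : ℝ) - 2) / 8 = -(((P.m : ℝ) - 2) / 8) := by ring
      rw [e8]
      refine (tail_small hB (((P.m : ℝ) - 2) / 8) (by linarith)).trans ?_
      apply one_div_le_one_div_of_le (by norm_num)
      linarith
    have h1 : ∀ o, av (fun S : P.Sam => if E3 o S then (1 : ℝ) else 0) ≤ 1 / P.m := by
      intro o
      have hb : 1 ≤ (BB o).card := le_trans hB.m_pos (hc o)
      refine (p3_block (J := Fin P.T) (BB o) hb (P.m : ℝ) (by positivity) hθ).trans ?_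
      have h2 : (P.m : ℝ) ≤ 2 ^ ((BB o).card ^ 3) := by
        have h3 : P.m ≤ (BB o).card ^ 3 := le_trans (hc o) (Nat.le_self_pow (by norm_num) _)
        have h4 : (BB o).card ^ 3 ≤ 2 ^ ((BB o).card ^ 3) := Nat.lt_two_pow_self.le
        exact_mod_cast le_trans h3 h4
      rw [one_div_pow]
      apply one_div_le_one_div_of_le _ h2
      linarith
    refine (union_le E3 _ h1).trans ?_
    rw [Fintype.card_option, Fintype.card_fin]
    push_cast
    rw [mul_one_div, div_le_iff₀ (by linarith)]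
    linarith
  by_contra hne
  rw [not_exists] at hne
  have hcov : ∀ S : P.Sam, (1 : ℝ) ≤ (if ∃ i, E1 i S then (1 : ℝ) else 0)
      + ((if ∃ i, E2 i S then (1 : ℝ) else 0) + (if ∃ o, E3 o S then (1 : ℝ) else 0)) := by
    intro S
    by_contra hlt
    rw [not_le] at hlt
    have n1 : ¬ ∃ i, E1 i S := by
      intro h
      rw [if_pos h] at hlt
      have : (0 : ℝ) ≤ (if ∃ i, E2 i S then (1 : ℝ) else 0) +
        (if ∃ o, E3 o S then (1 : ℝ) else 0) := by positivity
      linarith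
    have n2 : ¬ ∃ i, E2 i S := by
      intro h
      rw [if_pos h] at hlt
      have : (0 : ℝ) ≤ (if ∃ i, E1 i S then (1 : ℝ) else 0) := by positivity
      have : (0 : ℝ) ≤ (if ∃ o, E3 o S then (1 : ℝ) else 0) := by positivity
      linarith
    have n3 : ¬ ∃ o, E3 o S := by
      intro h
      rw [if_pos h] at hlt
      have : (0 : ℝ) ≤ (if ∃ i, E1 i S then (1 : ℝ) else 0) := by positivity
      have : (0 : ℝ) ≤ (if ∃ i, E2 i S then (1 : ℝ) else 0) := by positivity
      linarith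
    apply hne S
    refine ⟨?_, ?_, ?_⟩
    · intro l hl s t hst
      by_contra h
      exact n1 ⟨(⟨l, hl⟩, s, t), hst, not_le.mp h⟩
    · intro a b hab
      by_contra h
      exact n2 ⟨(a, b), hab, not_le.mp h⟩
    · intro B hBB M hM
      have hall : ∀ o, ∀ M : P.A → P.A → ℝ, (∀ a b, M a b ≠ 0 → a ∈ BB o ∧ b ∈ BB o) →
        ∃ Ex : Finset (Fin P.T), Ex.card ≤ 2 * (BB o).card ^ 3 ∧ ∀ s t, s ∉ Ex → t ∉ Ex →
          |qf M s t S| ≤ (P.m : ℝ) * Real.sqrt (∑ a, ∑ b, M a b ^ 2) := by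
        intro o
        by_contra h
        exact n3 ⟨o, h⟩
      rcases hBB with h | ⟨l, hl, h⟩
      · subst h
        exact hall none M hM
      · subst h
        exact hall (some ⟨l, hl⟩) M hM
  have hfin := av_mono hcov
  rw [av_const, av_add, av_add] at hfin
  linarith

end Pool.Agent.PEL
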