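import Pool.Agent.PEL.ClsLem

/-!
# PEL-TSTAR : type 2 of the dual (4.4 of the text)

Unfold `Rep` for every `i`: `b i`, `β i k`, `c i k` (radii), `∑_i: nsq (b i) + ∑_k c_{i,k}² ≤ r_i²`; `S = ∑ r_i²`, `κ_k² = ∑_i c_{i,k}²`.
See 4.4: near-orthogonality, `r(k,t)`, the `W_r`-part by `class_lemma` (`κ'_r² = ∑_t nsq (z' r t) + S/K`), `U_l` with `r = l+1` Euclid,
`U_l` with `r ≥ l+2` by `hclu` off `Ex l` (`zb_i = 3 r_i`), Euclid on `Ex l` (`|Ex_l| ≤ p_{l+1}^600`, `nu ≤ p_{l+2}^{-5} κ_k ≤ p_{l+1}^{-2500} κ_k`).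
-/

set_option autoImplicit false

namespace Pool.Agent.PEL

open Finset

variable {P : Par} {S : P.Sam}

theorem tstar_K_le (hB : P.Big) (l : ℕ) : (P.K : ℝ) ≤ P.p (l + 1) := by
  refine le_trans ?_ (hB.K_pow_le_real l)
  have h1 := hB.one_le_K
  calc (P.K : ℝ) ≤ 1000 * P.K := by linarith
    _ ≤ (1000 * (P.K : ℝ)) ^ 20 := le_self_pow₀ (by linarith) (by norm_num)

theorem tstar_two_le (hB : P.Big) (l : ℕ) : (2 : ℝ) ≤ P.p (l + 1) := by
  refine le_trans ?_ (hB.K_pow_le_real l)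
  have h1 := hB.one_le_K
  calc (2 : ℝ) ≤ 1000 * P.K := by linarith
    _ ≤ (1000 * (P.K : ℝ)) ^ 20 := le_self_pow₀ (by linarith) (by norm_num)

theorem tstar_step (hB : P.Big) {k k' : ℕ} (h : k + 2 ≤ k') :
    (P.K : ℝ) * (P.p (k + 1) : ℝ) ^ 5 ≤ (P.p k' : ℝ) ^ 5 := by
  have h1 := hB.one_le_p_real (k + 1)
  have h2 := tstar_K_le hB k
  have h3 : (P.p (k + 1) : ℝ) ^ 2 ≤ P.p k' :=
    (pow_le_pow_right₀ h1 (by norm_num)).trans ((hB.p_step_real (k + 1)).trans (hB.p_mono_real h))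
  calc (P.K : ℝ) * (P.p (k + 1) : ℝ) ^ 5 ≤ (P.p (k + 1) : ℝ) ^ 5 * (P.p (k + 1) : ℝ) ^ 5 := by
        apply mul_le_mul_of_nonneg_right _ (by positivity)
        exact h2.trans (le_self_pow₀ h1 (by norm_num))
    _ = ((P.p (k + 1) : ℝ) ^ 2) ^ 5 := by ring
    _ ≤ _ := pow_le_pow_left₀ (by positivity) h3 5

theorem tstar_inf {k : ℕ} {β : Fin P.T → ℝ} {r : ℝ} (h : CB P k β r) (t : Fin P.T) :
    (P.p k : ℝ) ^ 5 * |β t| ≤ r := by
  apply (abs_le_of_sq_le_sq' _ h.nonneg).2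
  calc ((P.p k : ℝ) ^ 5 * |β t|) ^ 2 = (P.p k : ℝ) ^ 10 * β t ^ 2 := by
        rw [mul_pow, sq_abs]; ring
    _ ≤ _ := h.inf t

theorem tstar_pair (hB : P.Big) {k k' : ℕ} (h : k + 2 ≤ k') {β β' : Fin P.T → ℝ} {c c' : ℝ}
    (hb : CB P k β c) (hb' : CB P k' β' c') :
    ∑ t, |β t| * |β' t| ≤ (1 / (P.K : ℝ)) * ((c ^ 2 + c' ^ 2) / 2) := by
  have hK : (0 : ℝ) < P.K := lt_of_lt_of_le one_pos hB.one_le_K
  have h1 : (P.p k' : ℝ) ^ 5 * ∑ t, |β t| * |β' t| ≤ n1 β * c' := by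
    rw [mul_sum, n1, sum_mul]
    refine sum_le_sum fun t _ => ?_
    calc (P.p k' : ℝ) ^ 5 * (|β t| * |β' t|) = |β t| * ((P.p k' : ℝ) ^ 5 * |β' t|) := by ring
      _ ≤ _ := mul_le_mul_of_nonneg_left (tstar_inf hb' t) (abs_nonneg _)
  have h2 : n1 β * c' ≤ (P.p (k+1) : ℝ) ^ 5 * c * c' := mul_le_mul_of_nonneg_right hb.one hb'.nonneg
  have h3 := tstar_step hB h
  have h4 : 0 ≤ ∑ t, |β t| * |β' t| := sum_nonneg fun t _ => by positivity
  have h5 : 0 < (P.p (k+1) : ℝ) ^ 5 := by have := hB.p_pos_real (k+1); positivity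
  have h6 : (P.p (k+1) : ℝ) ^ 5 * (P.K * ∑ t, |β t| * |β' t|) ≤ (P.p (k+1) : ℝ) ^ 5 * (c * c') := by
    calc _ = (P.K * (P.p (k+1) : ℝ) ^ 5) * ∑ t, |β t| * |β' t| := by ring
      _ ≤ (P.p k' : ℝ) ^ 5 * ∑ t, |β t| * |β' t| := mul_le_mul_of_nonneg_right h3 h4
      _ ≤ _ := h1.trans (h2.trans (le_of_eq (by ring)))
  have h7 : P.K * ∑ t, |β t| * |β' t| ≤ c * c' := le_of_mul_le_mul_left h6 h5
  rw [one_div, inv_mul_eq_div, le_div_iff₀ hK]
  nlinarith [sq_nonneg (c - c')]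

/-- near orthogonality of the classes -/
theorem tstar_near (hB : P.Big) (β : ℕ → Fin P.T → ℝ) (c : ℕ → ℝ)
    (h : ∀ k < P.K, CB P k (β k) (c k)) :
    ∑ t, (∑ k ∈ range P.K, |β k t|) ^ 2 ≤ 4 * ∑ k ∈ range P.K, c k ^ 2 := by
  have hK : (0 : ℝ) < P.K := lt_of_lt_of_le one_pos hB.one_le_K
  obtain ⟨w, hw⟩ : ∃ w : ℕ → ℕ → ℝ, w = fun k k' =>
    (if k' ≤ k + 1 ∧ k ≤ k' + 1 then (1 : ℝ) else 0) + 1 / (P.K : ℝ) := ⟨_, rfl⟩
  have wsymm : ∀ k k', w k k' = w k' k := by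
    intro k k'
    rw [hw]
    simp only [and_comm]
  have e1 : ∑ t, (∑ k ∈ range P.K, |β k t|) ^ 2
      = ∑ k ∈ range P.K, ∑ k' ∈ range P.K, ∑ t, |β k t| * |β k' t| := by
    simp only [sq, sum_mul_sum]
    rw [sum_comm]
    refine sum_congr rfl fun k _ => ?_
    rw [sum_comm]
  have e2 : ∀ k ∈ range P.K, ∀ k' ∈ range P.K,
      ∑ t, |β k t| * |β k' t| ≤ w k k' * ((c k ^ 2 + c k' ^ 2) / 2) := by
    intro k hk k' hk'
    have hk := h k (mem_range.mp hk)
    have hk' := h k' (mem_range.mp hk')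
    by_cases hc : k' ≤ k + 1 ∧ k ≤ k' + 1
    · simp only [hw, if_pos hc]
      have h0 : ∑ t, |β k t| * |β k' t| ≤ (nsq (β k) + nsq (β k')) / 2 := by
        unfold nsq
        rw [← sum_add_distrib, sum_div]
        refine sum_le_sum fun t _ => ?_
        have := sq_nonneg (|β k t| - |β k' t|)
        rw [← sq_abs (β k t), ← sq_abs (β k' t)]
        nlinarith
      have h1 := hk.two
      have h2 := hk'.two
      have h3 : 0 ≤ 1 / (P.K : ℝ) * ((c k ^ 2 + c k' ^ 2) / 2) := by positivity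
      rw [add_mul, one_mul]
      linarith
    · simp only [hw, if_neg hc, zero_add]
      have h0 : k + 2 ≤ k' ∨ k' + 2 ≤ k := by omega
      rcases h0 with h0 | h0
      · exact tstar_pair hB h0 hk hk'
      · have h1 := tstar_pair hB h0 hk' hk
        rw [add_comm (c k ^ 2)]
        refine le_trans (le_of_eq ?_) h1
        exact sum_congr rfl fun t _ => mul_comm _ _
  have e3 : ∀ k ∈ range P.K, ∑ k' ∈ range P.K, w k k' ≤ 4 := by
    intro k _
    simp only [hw]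
    rw [sum_add_distrib, sum_const, card_range, nsmul_eq_mul, mul_one_div_cancel hK.ne']
    have h0 : ∑ k' ∈ range P.K, (if k' ≤ k + 1 ∧ k ≤ k' + 1 then (1:ℝ) else 0) ≤ 3 := by
      rw [← sum_filter, sum_const, nsmul_eq_mul, mul_one]
      have h1 : ((range P.K).filter fun k' => k' ≤ k+1 ∧ k ≤ k'+1).card ≤ 3 := by
        refine (card_le_card (t := {k-1, k, k+1}) ?_).trans card_le_three
        intro x hx
        simp only [mem_filter, mem_range] at hx
        simp only [mem_insert, mem_singleton]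
        omega
      exact_mod_cast h1
    linarith
  have e4 : ∑ k ∈ range P.K, ∑ k' ∈ range P.K, w k k' * ((c k ^ 2 + c k' ^ 2) / 2)
      = ∑ k ∈ range P.K, c k ^ 2 * ∑ k' ∈ range P.K, w k k' := by
    have f1 : ∀ k k', w k k' * ((c k ^ 2 + c k' ^ 2) / 2)
        = (c k ^ 2 * w k k') / 2 + (c k' ^ 2 * w k' k) / 2 := by
      intro k k'
      rw [wsymm k' k]; ring
    simp only [f1, sum_add_distrib]
    rw [sum_comm (f := fun k k' => (c k' ^ 2 * w k' k) / 2)]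
    simp only [← sum_div, ← mul_sum]
    ring
  rw [e1]
  calc ∑ k ∈ range P.K, ∑ k' ∈ range P.K, ∑ t, |β k t| * |β k' t|
      ≤ ∑ k ∈ range P.K, ∑ k' ∈ range P.K, w k k' * ((c k ^ 2 + c k' ^ 2) / 2) :=
        sum_le_sum fun k hk => sum_le_sum fun k' hk' => e2 k hk k' hk'
    _ = ∑ k ∈ range P.K, c k ^ 2 * ∑ k' ∈ range P.K, w k k' := e4
    _ ≤ ∑ k ∈ range P.K, c k ^ 2 * 4 :=
        sum_le_sum fun k hk => mul_le_mul_of_nonneg_left (e3 k hk) (sq_nonneg _)
    _ = _ := by rw [← sum_mul, mul_comm]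

/-! ### masked sums -/

open scoped Classical in
/-- masked sum of coefficient vectors -/
noncomputable def tstarM (P : Par) (β : ℕ → Fin P.T → ℝ) (q : ℕ → Fin P.T → Prop) :
    Fin P.T → ℝ := fun t => ∑ k ∈ range P.K, if q k t then β k t else 0

open scoped Classical in
theorem tstarM_abs_le' (β : ℕ → Fin P.T → ℝ) (q : ℕ → Fin P.T → Prop) (t : Fin P.T) :
    |tstarM P β q t| ≤ ∑ k ∈ range P.K, if q k t then |β k t| else 0 := by
  unfold tstarM
  refine (abs_sum_le_sum_abs _ _).trans (sum_le_sum fun k _ => ?_)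
  split_ifs <;> simp

theorem tstarM_abs_le (β : ℕ → Fin P.T → ℝ) (q : ℕ → Fin P.T → Prop) (t : Fin P.T) :
    |tstarM P β q t| ≤ ∑ k ∈ range P.K, |β k t| := by
  classical
  refine (tstarM_abs_le' β q t).trans (sum_le_sum fun k _ => ?_)
  split_ifs
  · exact le_rfl
  · exact abs_nonneg _

theorem tstarM_nsq_le (β : ℕ → Fin P.T → ℝ) (q : ℕ → Fin P.T → Prop) :
    nsq (tstarM P β q) ≤ ∑ t, (∑ k ∈ range P.K, |β k t|) ^ 2 := by
  unfold nsq
  refine sum_le_sum fun t _ => ?_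
  rw [← sq_abs]
  exact pow_le_pow_left₀ (abs_nonneg _) (tstarM_abs_le β q t) 2

theorem tstarM_sum_nsq_le (β : ℕ → Fin P.T → ℝ) (q : ℕ → ℕ → Fin P.T → Prop)
    (f : ℕ → Fin P.T → ℕ) (hf : ∀ l k t, q l k t → f k t = l) (L : ℕ) :
    ∑ l ∈ range L, nsq (tstarM P β (q l)) ≤ ∑ t, (∑ k ∈ range P.K, |β k t|) ^ 2 := by
  classical
  unfold nsq
  rw [sum_comm]
  refine sum_le_sum fun t _ => ?_
  have h1 : ∑ l ∈ range L, |tstarM P β (q l) t| ≤ ∑ k ∈ range P.K, |β k t| := by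
    calc ∑ l ∈ range L, |tstarM P β (q l) t|
        ≤ ∑ l ∈ range L, ∑ k ∈ range P.K, (if f k t = l then |β k t| else 0) := by
          refine sum_le_sum fun l _ => (tstarM_abs_le' β (q l) t).trans (sum_le_sum fun k _ => ?_)
          by_cases hq : q l k t
          · rw [if_pos hq, if_pos (hf l k t hq)]
          · rw [if_neg hq]
            split_ifs
            · exact abs_nonneg _
            · exact le_rfl
      _ = ∑ k ∈ range P.K, ∑ l ∈ range L, (if f k t = l then |β k t| else 0) := sum_comm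
      _ ≤ ∑ k ∈ range P.K, |β k t| := by
          refine sum_le_sum fun k _ => ?_
          rw [Finset.sum_ite_eq]
          split_ifs
          · exact le_rfl
          · exact abs_nonneg _
  have h2 := Finset.sum_sq_le_sq_sum_of_nonneg (s := range L)
    (f := fun l => |tstarM P β (q l) t|) (fun i _ => abs_nonneg _)
  simp only [sq_abs] at h2
  exact h2.trans (pow_le_pow_left₀ (sum_nonneg fun _ _ => abs_nonneg _) h1 2)

theorem tstarM_n1_le (hB : P.Big) (β : ℕ → Fin P.T → ℝ) (c : ℕ → ℝ)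
    (h : ∀ k < P.K, CB P k (β k) (c k)) (q : ℕ → Fin P.T → Prop) (l : ℕ)
    (hq : ∀ k t, q k t → k ≤ l) :
    n1 (tstarM P β q) ^ 2 ≤ (P.p (l + 1) : ℝ) ^ 10 * (P.K * ∑ k ∈ range P.K, c k ^ 2) := by
  classical
  have h1 : n1 (tstarM P β q) ≤ (P.p (l + 1) : ℝ) ^ 5 * ∑ k ∈ range P.K, c k := by
    calc n1 (tstarM P β q) ≤ ∑ t, ∑ k ∈ range P.K, (if q k t then |β k t| else 0) :=
          sum_le_sum fun t _ => tstarM_abs_le' β q t
      _ = ∑ k ∈ range P.K, ∑ t, (if q k t then |β k t| else 0) := sum_comm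
      _ ≤ ∑ k ∈ range P.K, (P.p (l + 1) : ℝ) ^ 5 * c k := by
          refine sum_le_sum fun k hk => ?_
          have hk := h k (mem_range.mp hk)
          by_cases hkl : k ≤ l
          · calc ∑ t, (if q k t then |β k t| else 0) ≤ n1 (β k) := by
                  refine sum_le_sum fun t _ => ?_
                  split_ifs
                  · exact le_rfl
                  · exact abs_nonneg _
              _ ≤ (P.p (k + 1) : ℝ) ^ 5 * c k := hk.one
              _ ≤ _ := by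
                  apply mul_le_mul_of_nonneg_right _ hk.nonneg
                  apply pow_le_pow_left₀ (by positivity)
                  exact hB.p_mono_real (by omega)
          · have h0 : ∀ t, (if q k t then |β k t| else 0) = 0 := by
              intro t
              rw [if_neg]
              intro hc
              exact hkl (hq k t hc)
            simp only [h0, sum_const_zero]
            have := hk.nonneg
            positivity
      _ = _ := by rw [mul_sum]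
  have h2 : (∑ k ∈ range P.K, c k) ^ 2 ≤ P.K * ∑ k ∈ range P.K, c k ^ 2 := by
    have := sq_sum_le_card_mul_sum_sq (s := range P.K) (f := c)
    rwa [card_range] at this
  calc n1 (tstarM P β q) ^ 2 ≤ ((P.p (l + 1) : ℝ) ^ 5 * ∑ k ∈ range P.K, c k) ^ 2 :=
        pow_le_pow_left₀ (n1_nonneg _) h1 2
    _ = (P.p (l + 1) : ℝ) ^ 10 * (∑ k ∈ range P.K, c k) ^ 2 := by ring
    _ ≤ _ := mul_le_mul_of_nonneg_left h2 (by positivity)

/-! ### the splitting -/

theorem tstar_sum_W (γ : ℕ → Fin P.T → ℝ) :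
    ∑ k ∈ range P.K, W S k (γ k) = ∑ l ∈ range P.K, U S l (∑ k ∈ range (l + 1), γ k) := by
  funext a
  have ha : (a.1 : ℕ) < P.K := a.1.2
  rw [Finset.sum_apply, Finset.sum_apply]
  simp only [W, U]
  rw [Finset.sum_ite_eq, if_pos (mem_range.mpr ha), ← sum_filter]
  have e : (range P.K).filter (fun k => k ≤ (a.1 : ℕ)) = range ((a.1 : ℕ) + 1) := by
    ext x
    simp only [mem_filter, mem_range]
    omega
  rw [e]
  unfold V
  rw [← mul_sum]
  congr 1
  rw [sum_comm]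
  refine sum_congr rfl fun t _ => ?_
  rw [Finset.sum_apply, sum_mul]

theorem tstar_split (β : ℕ → Fin P.T → ℝ) (ρ : ℕ → Fin P.T → ℕ)
    (hρ : ∀ k < P.K, ∀ t, k ≤ ρ k t) :
    ∑ k ∈ range P.K, W S k (β k) =
      ∑ r ∈ range P.K, W S r (tstarM P β (fun k t => ρ k t = r)) +
      (∑ l ∈ range P.K, U S l (tstarM P β (fun k t => k ≤ l ∧ ρ k t = l + 1)) +
       ∑ l ∈ range P.K, U S l (tstarM P β (fun k t => k ≤ l ∧ l + 2 ≤ ρ k t))) := by
  classical
  rw [tstar_sum_W, tstar_sum_W, ← sum_add_distrib, ← sum_add_distrib]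
  refine sum_congr rfl fun l hl => ?_
  have hl := mem_range.mp hl
  rw [← U_add, ← U_add]
  congr 1
  funext t
  rw [Pi.add_apply, Pi.add_apply, Finset.sum_apply, Finset.sum_apply]
  unfold tstarM
  rw [sum_comm, ← sum_add_distrib, ← sum_add_distrib]
  have e : ∑ k ∈ range (l + 1), β k t = ∑ k ∈ range P.K, (if k ≤ l then β k t else 0) := by
    rw [← sum_filter]
    congr 1
    ext x
    simp only [mem_filter, mem_range]
    omega
  rw [e]
  refine sum_congr rfl fun k hk => ?_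
  have hk := hρ k (mem_range.mp hk) t
  have e2 : ∀ (inst : ∀ x, Decidable (ρ k t = x)),
      ∑ x ∈ range (l + 1), (@ite ℝ (ρ k t = x) (inst x) (β k t) 0)
        = if ρ k t < l + 1 then β k t else 0 := by
    intro inst
    by_cases h : ρ k t < l + 1
    · rw [if_pos h, Finset.sum_eq_single (ρ k t)]
      · rw [if_pos rfl]
      · intro b _ hb
        rw [if_neg (Ne.symm hb)]
      · intro h'
        exact absurd (mem_range.mpr h) h'
    · rw [if_neg h]
      refine sum_eq_zero fun x hx => if_neg ?_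
      intro h'
      exact h (h' ▸ mem_range.mp hx)
  refine Eq.trans ?_ (congrArg₂ (· + ·) (e2 _).symm rfl)
  rcases lt_or_ge l k with h1 | h1
  · rw [if_neg (by omega), if_neg (by omega), if_neg (by omega), if_neg (by omega)]
    simp
  · rcases lt_trichotomy (ρ k t) (l + 1) with h2 | h2 | h2
    · rw [if_pos h1, if_pos h2, if_neg (by omega), if_neg (by omega)]
      simp
    · rw [if_pos h1, if_neg (by omega), if_pos ⟨h1, h2⟩, if_neg (by omega)]
      simp
    · rw [if_pos h1, if_neg (by omega), if_neg (by omega), if_pos ⟨h1, by omega⟩]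
      simp


/-! ### Euclidean parts -/

theorem tstar_euclid (hB : P.Big) (hS : Good P S) (F : Submodule ℝ (P.A → ℝ))
    {I : Type} [Fintype I] [DecidableEq I] (u : I → P.A → ℝ) :
    av (fun δ : I → Bool => DN S F (∑ i, sg (δ i) • u i) ^ 2) ≤ ∑ i, nsq (u i) := by
  rw [← av_nsq_signs]
  refine av_mono fun δ => ?_
  rw [← nm_sq]
  exact pow_le_pow_left₀ (DN_nonneg hB hS F _) (DN_le_nm hB hS F _) 2

theorem tstar_nsq_U (hB : P.Big) (hS : Good P S) (η : ℕ → Fin P.T → ℝ) :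
    nsq (∑ l ∈ range P.K, U S l (η l)) ≤
      ∑ l ∈ range P.K, (nsq (η l) + ((P.p (l + 1) : ℝ) ^ 40)⁻¹ * n1 (η l) ^ 2) := by
  rw [nsq_sum_levels _ (fun l _ => lv_U l _)]
  exact sum_le_sum fun l hl => nsq_U_le hB hS (mem_range.mp hl) _

theorem tstar_Y (hB : P.Big) (hS : Good P S) (β : ℕ → Fin P.T → ℝ) (c : ℕ → ℝ)
    (h : ∀ k < P.K, CB P k (β k) (c k)) (ρ : ℕ → Fin P.T → ℕ) :
    nsq (∑ l ∈ range P.K, U S l (tstarM P β (fun k t => k ≤ l ∧ ρ k t = l + 1))) ≤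
      5 * ∑ k ∈ range P.K, c k ^ 2 := by
  have hK : (0 : ℝ) < P.K := lt_of_lt_of_le one_pos hB.one_le_K
  refine (tstar_nsq_U hB hS _).trans ?_
  rw [sum_add_distrib]
  have h1 := (tstarM_sum_nsq_le β (fun l k t => k ≤ l ∧ ρ k t = l + 1) (fun k t => ρ k t - 1)
    (by intro l k t hh; show ρ k t - 1 = l; omega) P.K).trans (tstar_near hB β c h)
  have hC : 0 ≤ ∑ k ∈ range P.K, c k ^ 2 := sum_nonneg fun _ _ => sq_nonneg _
  have h2 : ∑ l ∈ range P.K, ((P.p (l + 1) : ℝ) ^ 40)⁻¹ *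
      n1 (tstarM P β (fun k t => k ≤ l ∧ ρ k t = l + 1)) ^ 2 ≤ ∑ k ∈ range P.K, c k ^ 2 := by
    calc _ ≤ ∑ l ∈ range P.K, (1 / (P.K : ℝ)) * ∑ k ∈ range P.K, c k ^ 2 := by
          refine sum_le_sum fun l _ => ?_
          have h3 := tstarM_n1_le hB β c h (fun k t => k ≤ l ∧ ρ k t = l + 1) l
            (fun k t hh => hh.1)
          have hp := hB.p_pos_real (l + 1)
          have hp1 := hB.one_le_p_real (l + 1)
          have hKp := tstar_K_le hB l
          rw [inv_mul_le_iff₀ (by positivity)]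
          refine h3.trans ?_
          have h4 : (P.K : ℝ) * P.K ≤ (P.p (l + 1) : ℝ) ^ 30 := by
            calc (P.K : ℝ) * P.K ≤ (P.p (l + 1) : ℝ) * P.p (l + 1) := by gcongr
              _ = (P.p (l + 1) : ℝ) ^ 2 := by ring
              _ ≤ _ := pow_le_pow_right₀ hp1 (by norm_num)
          have h5 : (P.p (l + 1) : ℝ) ^ 40 * (1 / (P.K : ℝ) * ∑ k ∈ range P.K, c k ^ 2)
              = (P.p (l + 1) : ℝ) ^ 10 * ((P.p (l + 1) : ℝ) ^ 30 / (P.K : ℝ) *
                ∑ k ∈ range P.K, c k ^ 2) := by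
            field_simp
          rw [h5]
          apply mul_le_mul_of_nonneg_left _ (by positivity)
          apply mul_le_mul_of_nonneg_right _ hC
          rw [le_div_iff₀ hK]
          exact h4
      _ = _ := by
          rw [sum_const, card_range, nsmul_eq_mul]
          field_simp
  linarith

theorem tstar_on (hB : P.Big) {I : Type} [Fintype I] (β : I → ℕ → Fin P.T → ℝ) (κ : ℕ → ℝ)
    (q : ℕ → Fin P.T → Prop) (E : Finset (Fin P.T)) (l : ℕ) (hE : E.card ≤ P.p (l + 1) ^ 600)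
    (hq : ∀ k < P.K, ∀ t, q k t → (P.p (l + 2) : ℝ) ^ 10 * nsq (fun i => β i k t) ≤ κ k ^ 2)
    (S0 : ℝ) (hS0 : ∑ k ∈ range P.K, κ k ^ 2 ≤ S0) :
    2 * P.K * ∑ i, n1 (fun t => if t ∈ E then tstarM P (β i) q t else 0) ^ 2 ≤ S0 := by
  classical
  have hK : (1 : ℝ) ≤ P.K := hB.one_le_K
  have hE' : (E.card : ℝ) ≤ (P.p (l + 1) : ℝ) ^ 600 := by exact_mod_cast hE
  have hp1 := hB.one_le_p_real (l + 1)
  have h1 : ∀ i, n1 (fun t => if t ∈ E then tstarM P (β i) q t else 0) ^ 2 ≤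
      (E.card : ℝ) * ∑ t ∈ E, (P.K * ∑ k ∈ range P.K, (if q k t then β i k t ^ 2 else 0)) := by
    intro i
    have e1 : n1 (fun t => if t ∈ E then tstarM P (β i) q t else 0)
        = ∑ t ∈ E, |tstarM P (β i) q t| := by
      unfold n1
      rw [← Finset.sum_filter_add_sum_filter_not univ (fun t => t ∈ E)]
      have z2 : ∑ x ∈ univ.filter (fun t => ¬ t ∈ E),
          |if x ∈ E then tstarM P (β i) q x else 0| = 0 := by
        refine sum_eq_zero fun x hx => ?_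
        rw [if_neg (mem_filter.mp hx).2, abs_zero]
      rw [z2, add_zero]
      have z3 : univ.filter (fun t => t ∈ E) = E := by ext x; simp
      rw [z3]
      exact sum_congr rfl fun x hx => by simp only [if_pos hx]
    rw [e1]
    refine sq_sum_le_card_mul_sum_sq.trans ?_
    apply mul_le_mul_of_nonneg_left _ (Nat.cast_nonneg _)
    refine sum_le_sum fun t _ => ?_
    rw [sq_abs]
    unfold tstarM
    have h2 := sq_sum_le_card_mul_sum_sq (s := range P.K)
      (f := fun k => if q k t then β i k t else 0)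
    rw [card_range] at h2
    refine h2.trans (mul_le_mul_of_nonneg_left (sum_le_sum fun k _ => ?_) (Nat.cast_nonneg _))
    split_ifs
    · exact le_rfl
    · simp
  have h2 : ∑ i, n1 (fun t => if t ∈ E then tstarM P (β i) q t else 0) ^ 2 ≤
      (E.card : ℝ) * (P.K * ∑ t ∈ E, ∑ k ∈ range P.K,
        (if q k t then nsq (fun i => β i k t) else 0)) := by
    refine (sum_le_sum fun i _ => h1 i).trans (le_of_eq ?_)
    rw [← mul_sum]
    congr 1
    rw [sum_comm, mul_sum]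
    refine sum_congr rfl fun t _ => ?_
    rw [← mul_sum]
    congr 1
    rw [sum_comm]
    refine sum_congr rfl fun k _ => ?_
    split_ifs
    · rfl
    · simp
  have h3 : (P.p (l + 2) : ℝ) ^ 10 * ∑ t ∈ E, ∑ k ∈ range P.K,
      (if q k t then nsq (fun i => β i k t) else 0) ≤ (E.card : ℝ) * S0 := by
    rw [mul_sum]
    calc _ ≤ ∑ t ∈ E, S0 := by
          refine sum_le_sum fun t _ => ?_
          rw [mul_sum]
          refine le_trans (sum_le_sum fun k hk => ?_) hS0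
          split_ifs with hh
          · exact hq k (mem_range.mp hk) t hh
          · rw [mul_zero]; exact sq_nonneg _
      _ = _ := by rw [sum_const, nsmul_eq_mul]
  have hS00 : 0 ≤ S0 := le_trans (sum_nonneg fun _ _ => sq_nonneg _) hS0
  set X := ∑ i, n1 (fun t => if t ∈ E then tstarM P (β i) q t else 0) ^ 2 with hX
  have hX0 : 0 ≤ X := sum_nonneg fun _ _ => sq_nonneg _
  set R := ∑ t ∈ E, ∑ k ∈ range P.K, (if q k t then nsq (fun i => β i k t) else 0) with hR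
  have hR0 : 0 ≤ R := sum_nonneg fun t _ => sum_nonneg fun k _ => by
    split_ifs
    · exact nsq_nonneg _
    · exact le_rfl
  have h4 : (P.p (l + 2) : ℝ) ^ 10 * X ≤
      ((P.p (l + 1) : ℝ) ^ 600) ^ 2 * P.K * S0 := by
    calc (P.p (l + 2) : ℝ) ^ 10 * X
        ≤ (P.p (l + 2) : ℝ) ^ 10 * ((E.card : ℝ) * (P.K * R)) :=
          mul_le_mul_of_nonneg_left h2 (by positivity)
      _ = (E.card : ℝ) * P.K * ((P.p (l + 2) : ℝ) ^ 10 * R) := by ring
      _ ≤ (E.card : ℝ) * P.K * ((E.card : ℝ) * S0) :=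
          mul_le_mul_of_nonneg_left h3 (by positivity)
      _ = (E.card : ℝ) ^ 2 * P.K * S0 := by ring
      _ ≤ _ := by
          apply mul_le_mul_of_nonneg_right _ hS00
          apply mul_le_mul_of_nonneg_right _ (by positivity)
          exact pow_le_pow_left₀ (Nat.cast_nonneg _) hE' 2
  have h5 : ((P.p (l + 1) : ℝ) ^ 600) ^ 2 * P.K * (2 * P.K) ≤ (P.p (l + 2) : ℝ) ^ 10 := by
    have hKp := tstar_K_le hB l
    have h2p := tstar_two_le hB l
    have g1 : (P.K : ℝ) * (2 * P.K) ≤ (P.p (l + 1) : ℝ) ^ 3 := by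
      calc (P.K : ℝ) * (2 * P.K) ≤ (P.p (l + 1) : ℝ) * (P.p (l + 1) * P.p (l + 1)) := by gcongr
        _ = _ := by ring
    calc ((P.p (l + 1) : ℝ) ^ 600) ^ 2 * P.K * (2 * P.K)
        = ((P.p (l + 1) : ℝ) ^ 600) ^ 2 * (P.K * (2 * P.K)) := by ring
      _ ≤ ((P.p (l + 1) : ℝ) ^ 600) ^ 2 * (P.p (l + 1) : ℝ) ^ 3 :=
          mul_le_mul_of_nonneg_left g1 (by positivity)
      _ = (P.p (l + 1) : ℝ) ^ 1203 := by rw [← pow_mul, ← pow_add]
      _ ≤ (P.p (l + 1) : ℝ) ^ 5000 := pow_le_pow_right₀ hp1 (by norm_num)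
      _ = ((P.p (l + 1) : ℝ) ^ 500) ^ 10 := by rw [← pow_mul]
      _ ≤ _ := pow_le_pow_left₀ (by positivity) (hB.p_step_real (l + 1)) 10
  have h6 : ((P.p (l + 1) : ℝ) ^ 600) ^ 2 * P.K * (2 * P.K * X) ≤
      ((P.p (l + 1) : ℝ) ^ 600) ^ 2 * P.K * S0 := by
    refine le_trans ?_ h4
    rw [← mul_assoc]
    exact mul_le_mul_of_nonneg_right h5 hX0
  exact le_of_mul_le_mul_left h6 (by positivity)

/-! ### the classes `r(k,t)` -/

theorem tstar_exists_rho (P : Par) (ν κ : ℝ) {k : ℕ} (hk : k ≤ P.K)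
    (h : (P.p k : ℝ) ^ 5 * ν ≤ κ) :
    ∃ r, k ≤ r ∧ r ≤ P.K ∧ (P.p r : ℝ) ^ 5 * ν ≤ κ ∧
      (r < P.K → κ < (P.p (r + 1) : ℝ) ^ 5 * ν) := by
  classical
  refine ⟨Nat.findGreatest (fun r => (P.p r : ℝ) ^ 5 * ν ≤ κ) P.K, Nat.le_findGreatest hk h,
    Nat.findGreatest_le _, Nat.findGreatest_spec (P := fun r => (P.p r : ℝ) ^ 5 * ν ≤ κ) hk h,
    fun hr => ?_⟩
  have := Nat.findGreatest_is_greatest (P := fun r => (P.p r : ℝ) ^ 5 * ν ≤ κ)
    (Nat.lt_succ_self _) hr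
  exact not_le.mp this

open scoped Classical in
theorem tstar_nm_z {I : Type} [Fintype I] (β : I → ℕ → Fin P.T → ℝ)
    (q : ℕ → Fin P.T → Prop) (t : Fin P.T) :
    nm (fun i => tstarM P (β i) q t) ≤
      ∑ k ∈ range P.K, if q k t then nm (fun i => β i k t) else 0 := by
  have e : (fun i => tstarM P (β i) q t) =
      ∑ k ∈ range P.K, (if q k t then (fun i => β i k t) else 0) := by
    funext i
    rw [Finset.sum_apply]
    unfold tstarM
    refine sum_congr rfl fun k _ => ?_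
    split_ifs <;> rfl
  rw [e]
  refine (nm_sum_le _ _).trans (sum_le_sum fun k _ => ?_)
  split_ifs
  · exact le_rfl
  · rw [nm_zero]

theorem tstar_class (hB : P.Big) (hS : Good P S) (F : Submodule ℝ (P.A → ℝ))
    {I : Type} [Fintype I] [DecidableEq I] (β : I → ℕ → Fin P.T → ℝ) (c : I → ℕ → ℝ)
    (h : ∀ i, ∀ k < P.K, CB P k (β i k) (c i k)) (ρ : ℕ → Fin P.T → ℕ) (κ : ℕ → ℝ)
    (hκ0 : ∀ k, 0 ≤ κ k) (hκ : ∀ k, κ k ^ 2 = ∑ i, c i k ^ 2)
    (hρ2 : ∀ k < P.K, ∀ t, (P.p (ρ k t) : ℝ) ^ 5 * nm (fun i => β i k t) ≤ κ k)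
    (hρ3 : ∀ k < P.K, ∀ t, ρ k t < P.K →
      κ k < (P.p (ρ k t + 1) : ℝ) ^ 5 * nm (fun i => β i k t))
    (S0 : ℝ) (hS0 : ∑ i, ∑ k ∈ range P.K, c i k ^ 2 ≤ S0) :
    av (fun δ : I → Bool => DN S F (∑ r ∈ range P.K,
      W S r (fun t => ss (fun i => tstarM P (β i) (fun k t => ρ k t = r) t) δ)) ^ 2)
      ≤ 500 * S0 := by
  classical
  have hK1 : (1 : ℝ) ≤ P.K := hB.one_le_K
  have hK : (0 : ℝ) < P.K := lt_of_lt_of_le one_pos hK1
  have hS00 : 0 ≤ S0 := le_trans (sum_nonneg fun _ _ => sum_nonneg fun _ _ => sq_nonneg _) hS0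
  obtain ⟨z, hz⟩ : ∃ z : ℕ → Fin P.T → I → ℝ,
    z = fun r t i => tstarM P (β i) (fun k t => ρ k t = r) t := ⟨_, rfl⟩
  obtain ⟨κ', hκ'⟩ : ∃ κ' : ℕ → ℝ,
    κ' = fun r => Real.sqrt (∑ t, nsq (z r t) + S0 / P.K) := ⟨_, rfl⟩
  have hz0 : ∀ r, 0 ≤ ∑ t, nsq (z r t) := fun r => sum_nonneg fun _ _ => nsq_nonneg _
  have hSK : 0 ≤ S0 / P.K := by positivity
  have hκ'0 : ∀ r, 0 ≤ κ' r := fun r => by rw [hκ']; exact Real.sqrt_nonneg _
  have hκ'sq : ∀ r, κ' r ^ 2 = ∑ t, nsq (z r t) + S0 / P.K := fun r => by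
    rw [hκ']
    exact Real.sq_sqrt (add_nonneg (hz0 r) hSK)
  -- the sum of the `κ`
  have hsum : ∀ r, ∑ k ∈ range P.K, κ k ≤ P.K * κ' r := by
    intro r
    apply (abs_le_of_sq_le_sq' _ (mul_nonneg hK.le (hκ'0 r))).2
    have a1 : (∑ k ∈ range P.K, κ k) ^ 2 ≤ P.K * ∑ k ∈ range P.K, κ k ^ 2 := by
      have := sq_sum_le_card_mul_sum_sq (s := range P.K) (f := κ)
      rwa [card_range] at this
    have a2 : ∑ k ∈ range P.K, κ k ^ 2 ≤ S0 := by
      simp only [hκ]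
      rw [sum_comm]
      exact hS0
    calc (∑ k ∈ range P.K, κ k) ^ 2 ≤ P.K * S0 :=
          a1.trans (mul_le_mul_of_nonneg_left a2 hK.le)
      _ = (P.K : ℝ) ^ 2 * (S0 / P.K) := by field_simp
      _ ≤ (P.K : ℝ) ^ 2 * κ' r ^ 2 := by
          apply mul_le_mul_of_nonneg_left _ (by positivity)
          rw [hκ'sq]
          have := hz0 r
          linarith
      _ = _ := by ring
  have hnz : ∀ r t, nm (z r t) ≤
      ∑ k ∈ range P.K, if ρ k t = r then nm (fun i => β i k t) else 0 := by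
    intro r t
    rw [hz]
    refine (tstar_nm_z β (fun k t => ρ k t = r) t).trans (le_of_eq ?_)
    refine sum_congr rfl fun k _ => ?_
    by_cases hh : ρ k t = r
    · rw [if_pos hh, if_pos hh]
    · rw [if_neg hh, if_neg hh]
  -- (1)
  have H1 : ∀ r < P.K, ∀ t, (P.p r : ℝ) * nm (z r t) ≤ κ' r := by
    intro r _ t
    rcases Nat.eq_zero_or_pos r with h0 | h0
    · subst h0
      rw [Par.p_zero, Nat.cast_one, one_mul, nm_le_iff (hκ'0 0), hκ'sq]
      have := single_le_sum (f := fun t => nsq (z 0 t)) (fun t _ => nsq_nonneg _) (mem_univ t)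
      linarith
    · obtain ⟨r', rfl⟩ : ∃ r', r = r' + 1 := ⟨r - 1, by omega⟩
      have hp1 := hB.one_le_p_real (r' + 1)
      have hKp := tstar_K_le hB r'
      have b1 : (P.p (r' + 1) : ℝ) ^ 5 * nm (z (r' + 1) t) ≤ P.K * κ' (r' + 1) := by
        refine le_trans ?_ (hsum (r' + 1))
        refine (mul_le_mul_of_nonneg_left (hnz (r' + 1) t) (by positivity)).trans ?_
        rw [mul_sum]
        refine sum_le_sum fun k hk => ?_
        split_ifs with hh
        · have := hρ2 k (mem_range.mp hk) t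
          rwa [hh] at this
        · rw [mul_zero]; exact hκ0 k
      have b2 : (P.K : ℝ) * P.p (r' + 1) ≤ (P.p (r' + 1) : ℝ) ^ 5 := by
        calc (P.K : ℝ) * P.p (r' + 1) ≤ (P.p (r' + 1) : ℝ) * P.p (r' + 1) := by gcongr
          _ = (P.p (r' + 1) : ℝ) ^ 2 := by ring
          _ ≤ _ := pow_le_pow_right₀ hp1 (by norm_num)
      have b3 : (P.K : ℝ) * (P.p (r' + 1) * nm (z (r' + 1) t)) ≤ P.K * κ' (r' + 1) := by
        refine le_trans ?_ b1
        rw [← mul_assoc]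
        exact mul_le_mul_of_nonneg_right b2 (nm_nonneg _)
      exact le_of_mul_le_mul_left b3 hK
  -- (2)
  have H2 : ∀ r < P.K, ∑ t, nsq (z r t) ≤ κ' r ^ 2 := by
    intro r _
    rw [hκ'sq]
    linarith
  -- (3)
  have H3 : ∀ r < P.K, ∑ t, nm (z r t) ≤ (P.p (r + 1) : ℝ) ^ 20 * κ' r := by
    intro r hr
    have hp1 := hB.one_le_p_real (r + 1)
    have hp0 := hB.p_pos_real (r + 1)
    have hKp := tstar_K_le hB r
    have c1 : ∀ k ∈ range P.K, ∑ t, (if ρ k t = r then nm (fun i => β i k t) else 0) ≤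
        (P.p (r + 1) : ℝ) ^ 5 * κ k := by
      intro k hk
      have hk' := mem_range.mp hk
      have d1 : ∑ t, nm (fun i => β i k t) ^ 2 ≤ κ k ^ 2 := by
        rw [hκ]
        calc ∑ t, nm (fun i => β i k t) ^ 2 = ∑ t, ∑ i, β i k t ^ 2 :=
              sum_congr rfl fun t _ => nm_sq _
          _ = ∑ i, ∑ t, β i k t ^ 2 := sum_comm
          _ ≤ _ := sum_le_sum fun i _ => (h i k hk').two
      have d2 : κ k * ∑ t, (if ρ k t = r then nm (fun i => β i k t) else 0) ≤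
          κ k * ((P.p (r + 1) : ℝ) ^ 5 * κ k) := by
        calc κ k * ∑ t, (if ρ k t = r then nm (fun i => β i k t) else 0)
            = ∑ t, κ k * (if ρ k t = r then nm (fun i => β i k t) else 0) := by rw [mul_sum]
          _ ≤ ∑ t, (P.p (r + 1) : ℝ) ^ 5 * nm (fun i => β i k t) ^ 2 := by
              refine sum_le_sum fun t _ => ?_
              split_ifs with hh
              · have f1 := hρ3 k hk' t (by rw [hh]; exact hr)
                rw [hh] at f1
                have f2 := nm_nonneg (fun i => β i k t)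
                calc κ k * nm (fun i => β i k t)
                    ≤ ((P.p (r + 1) : ℝ) ^ 5 * nm (fun i => β i k t)) *
                      nm (fun i => β i k t) := mul_le_mul_of_nonneg_right f1.le f2
                  _ = _ := by ring
              · rw [mul_zero]; positivity
          _ = (P.p (r + 1) : ℝ) ^ 5 * ∑ t, nm (fun i => β i k t) ^ 2 := by rw [mul_sum]
          _ ≤ (P.p (r + 1) : ℝ) ^ 5 * κ k ^ 2 := mul_le_mul_of_nonneg_left d1 (by positivity)
          _ = _ := by ring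
      rcases (hκ0 k).eq_or_lt with h0 | h0
      · have d3 : ∀ t, nm (fun i => β i k t) = 0 := by
          intro t
          have g1 : ∑ t, nm (fun i => β i k t) ^ 2 ≤ 0 := by
            refine d1.trans (le_of_eq ?_)
            rw [← h0]; ring
          have g2 := (sum_eq_zero_iff_of_nonneg (s := univ)
            (f := fun t => nm (fun i => β i k t) ^ 2) (fun t _ => sq_nonneg _)).mp
            (le_antisymm g1 (sum_nonneg fun _ _ => sq_nonneg _)) t (mem_univ t)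
          exact pow_eq_zero_iff (two_ne_zero) |>.mp g2
        simp only [d3, ite_self, sum_const_zero]
        rw [← h0, mul_zero]
      · exact le_of_mul_le_mul_left d2 h0
    calc ∑ t, nm (z r t)
        ≤ ∑ t, ∑ k ∈ range P.K, (if ρ k t = r then nm (fun i => β i k t) else 0) :=
          sum_le_sum fun t _ => hnz r t
      _ = ∑ k ∈ range P.K, ∑ t, (if ρ k t = r then nm (fun i => β i k t) else 0) := sum_comm
      _ ≤ ∑ k ∈ range P.K, (P.p (r + 1) : ℝ) ^ 5 * κ k := sum_le_sum c1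
      _ = (P.p (r + 1) : ℝ) ^ 5 * ∑ k ∈ range P.K, κ k := by rw [mul_sum]
      _ ≤ (P.p (r + 1) : ℝ) ^ 5 * (P.K * κ' r) :=
          mul_le_mul_of_nonneg_left (hsum r) (by positivity)
      _ ≤ (P.p (r + 1) : ℝ) ^ 5 * ((P.p (r + 1) : ℝ) ^ 15 * κ' r) := by
          apply mul_le_mul_of_nonneg_left _ (by positivity)
          apply mul_le_mul_of_nonneg_right _ (hκ'0 r)
          exact hKp.trans (le_self_pow₀ hp1 (by norm_num))
      _ = _ := by ring
  have H := class_lemma hB hS F z κ' hκ'0 H1 H2 H3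
  rw [hz] at H
  refine H.trans ?_
  have e1 : ∑ k ∈ range P.K, κ' k ^ 2 ≤ 5 * S0 := by
    simp only [hκ'sq]
    rw [sum_add_distrib, sum_const, card_range, nsmul_eq_mul]
    have e2 : ∑ r ∈ range P.K, ∑ t, nsq (z r t) ≤ 4 * S0 := by
      calc ∑ r ∈ range P.K, ∑ t, nsq (z r t)
          = ∑ i, ∑ r ∈ range P.K, nsq (tstarM P (β i) (fun k t => ρ k t = r)) := by
            rw [sum_comm (s := univ) (t := range P.K)]
            refine sum_congr rfl fun r _ => ?_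
            rw [hz]
            unfold nsq
            exact sum_comm
        _ ≤ ∑ i, 4 * ∑ k ∈ range P.K, c i k ^ 2 :=
            sum_le_sum fun i _ => (tstarM_sum_nsq_le (β i) (fun r k t => ρ k t = r) ρ
              (fun l k t hh => hh) P.K).trans (tstar_near hB (β i) (c i) (h i))
        _ = 4 * ∑ i, ∑ k ∈ range P.K, c i k ^ 2 := by rw [mul_sum]
        _ ≤ _ := by linarith
    have e3 : (P.K : ℝ) * (S0 / P.K) = S0 := by field_simp
    rw [e3]
    linarith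
  linarith

theorem type_dual (hB : P.Big) (hS : Good P S) (F : Submodule ℝ (P.A → ℝ))
    (Ex : ℕ → Finset (Fin P.T)) (Γ : ℝ) (hΓ : 1 ≤ Γ)
    (hcard : ∀ l < P.K, (Ex l).card ≤ P.p (l + 1) ^ 600) (hclu : Clu S F Ex Γ)
    {I : Type} [Fintype I] [DecidableEq I] (v : I → P.A → ℝ) (r : I → ℝ)
    (hv : ∀ i, Rep S (v i) (r i)) :
    av (fun δ : I → Bool => DN S F (∑ i, sg (δ i) • v i) ^ 2) ≤ 10 ^ 4 * Γ * ∑ i, r i ^ 2 := by
  classical
  have hK1 : (1 : ℝ) ≤ P.K := hB.one_le_K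
  have hK : (0 : ℝ) < P.K := lt_of_lt_of_le one_pos hK1
  choose hr0 b β c hvb hCB hbc using hv
  obtain ⟨S0, hS0⟩ : ∃ S0, S0 = ∑ i, r i ^ 2 := ⟨_, rfl⟩
  have hS00 : 0 ≤ S0 := by rw [hS0]; exact sum_nonneg fun _ _ => sq_nonneg _
  have hcr : ∀ i, ∑ k ∈ range P.K, c i k ^ 2 ≤ r i ^ 2 := fun i => by
    have := hbc i
    have := nsq_nonneg (b i)
    linarith
  have hbr : ∀ i, nsq (b i) ≤ r i ^ 2 := fun i => by
    have h1 := hbc i
    have h2 : 0 ≤ ∑ k ∈ range P.K, c i k ^ 2 := sum_nonneg fun _ _ => sq_nonneg _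
    linarith
  have hcS : ∑ i, ∑ k ∈ range P.K, c i k ^ 2 ≤ S0 := by
    rw [hS0]
    exact sum_le_sum fun i _ => hcr i
  obtain ⟨κ, hκd⟩ : ∃ κ : ℕ → ℝ, κ = fun k => nm (fun i => c i k) := ⟨_, rfl⟩
  have hκ0 : ∀ k, 0 ≤ κ k := fun k => by rw [hκd]; exact nm_nonneg _
  have hκ : ∀ k, κ k ^ 2 = ∑ i, c i k ^ 2 := fun k => by rw [hκd]; exact nm_sq _
  -- `p_k^5 ν ≤ κ_k`
  have hν : ∀ k < P.K, ∀ t, (P.p k : ℝ) ^ 5 * nm (fun i => β i k t) ≤ κ k := by
    intro k hk t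
    apply (abs_le_of_sq_le_sq' _ (hκ0 k)).2
    rw [mul_pow, nm_sq, hκ]
    unfold nsq
    rw [mul_sum]
    refine sum_le_sum fun i _ => ?_
    calc ((P.p k : ℝ) ^ 5) ^ 2 * β i k t ^ 2 = (P.p k : ℝ) ^ 10 * β i k t ^ 2 := by ring
      _ ≤ _ := (hCB i k hk).inf t
  have hex : ∀ k t, ∃ ρ, k < P.K → (k ≤ ρ ∧ ρ ≤ P.K ∧
      (P.p ρ : ℝ) ^ 5 * nm (fun i => β i k t) ≤ κ k ∧
      (ρ < P.K → κ k < (P.p (ρ + 1) : ℝ) ^ 5 * nm (fun i => β i k t))) := by
    intro k t
    by_cases hk : k < P.K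
    · obtain ⟨ρ, hρ⟩ := tstar_exists_rho P (nm (fun i => β i k t)) (κ k) hk.le (hν k hk t)
      exact ⟨ρ, fun _ => hρ⟩
    · exact ⟨0, fun h => absurd h hk⟩
  choose ρ hρ using hex
  -- the pieces
  obtain ⟨Z, hZ⟩ : ∃ Z : ℕ → I → Fin P.T → ℝ,
    Z = fun l i => tstarM P (β i) (fun k t => k ≤ l ∧ l + 2 ≤ ρ k t) := ⟨_, rfl⟩
  obtain ⟨Zf, hZf⟩ : ∃ Zf : ℕ → I → Fin P.T → ℝ,
    Zf = fun l i t => if t ∈ Ex l then 0 else Z l i t := ⟨_, rfl⟩
  obtain ⟨Zn, hZn⟩ : ∃ Zn : ℕ → I → Fin P.T → ℝ,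
    Zn = fun l i t => if t ∈ Ex l then Z l i t else 0 := ⟨_, rfl⟩
  have hZsplit : ∀ l i, Z l i = Zf l i + Zn l i := by
    intro l i
    funext t
    rw [hZf, hZn]
    simp only [Pi.add_apply]
    split_ifs <;> simp
  obtain ⟨u3, hu3⟩ : ∃ u3 : I → P.A → ℝ, u3 = fun i => ∑ l ∈ range P.K,
    U S l (tstarM P (β i) (fun k t => k ≤ l ∧ ρ k t = l + 1)) := ⟨_, rfl⟩
  obtain ⟨u4, hu4⟩ : ∃ u4 : I → P.A → ℝ, u4 = fun i => ∑ l ∈ range P.K, U S l (Zf l i) :=
    ⟨_, rfl⟩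
  obtain ⟨u5, hu5⟩ : ∃ u5 : I → P.A → ℝ, u5 = fun i => ∑ l ∈ range P.K, U S l (Zn l i) :=
    ⟨_, rfl⟩
  have hvi : ∀ i, v i = b i + (∑ s ∈ range P.K,
      W S s (tstarM P (β i) (fun k t => ρ k t = s)) + (u3 i + (u4 i + u5 i))) := by
    intro i
    rw [hvb i, tstar_split (β i) ρ (fun k hk t => (hρ k t hk).1)]
    congr 2
    rw [hu3, hu4, hu5]
    simp only
    congr 1
    rw [← sum_add_distrib]
    refine sum_congr rfl fun l _ => ?_
    rw [← U_add, ← hZsplit, hZ]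
  -- average of the five parts
  obtain ⟨D1, hD1⟩ : ∃ D1 : (I → Bool) → ℝ,
    D1 = fun δ => DN S F (∑ i, sg (δ i) • b i) := ⟨_, rfl⟩
  obtain ⟨D2, hD2⟩ : ∃ D2 : (I → Bool) → ℝ, D2 = fun δ => DN S F (∑ s ∈ range P.K,
    W S s (fun t => ss (fun i => tstarM P (β i) (fun k t => ρ k t = s) t) δ)) := ⟨_, rfl⟩
  obtain ⟨D3, hD3⟩ : ∃ D3 : (I → Bool) → ℝ,
    D3 = fun δ => DN S F (∑ i, sg (δ i) • u3 i) := ⟨_, rfl⟩
  obtain ⟨D4, hD4⟩ : ∃ D4 : (I → Bool) → ℝ,
    D4 = fun δ => DN S F (∑ i, sg (δ i) • u4 i) := ⟨_, rfl⟩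
  obtain ⟨D5, hD5⟩ : ∃ D5 : (I → Bool) → ℝ,
    D5 = fun δ => DN S F (∑ i, sg (δ i) • u5 i) := ⟨_, rfl⟩
  have hDN : ∀ δ : I → Bool, DN S F (∑ i, sg (δ i) • v i) ^ 2 ≤
      5 * (D1 δ ^ 2 + (D2 δ ^ 2 + (D3 δ ^ 2 + (D4 δ ^ 2 + D5 δ ^ 2)))) := by
    intro δ
    have e1 : ∑ i, sg (δ i) • v i = ∑ i, sg (δ i) • b i + (∑ s ∈ range P.K,
        W S s (fun t => ss (fun i => tstarM P (β i) (fun k t => ρ k t = s) t) δ) +
        (∑ i, sg (δ i) • u3 i + (∑ i, sg (δ i) • u4 i + ∑ i, sg (δ i) • u5 i))) := by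
      have e2 : ∀ s, W S s (fun t => ss (fun i => tstarM P (β i) (fun k t => ρ k t = s) t) δ)
          = ∑ i, sg (δ i) • W S s (tstarM P (β i) (fun k t => ρ k t = s)) := by
        intro s
        have e3 : (fun t => ss (fun i => tstarM P (β i) (fun k t => ρ k t = s) t) δ)
            = ∑ i, sg (δ i) • tstarM P (β i) (fun k t => ρ k t = s) := by
          funext t
          rw [Finset.sum_apply]
          unfold ss
          exact sum_congr rfl fun i _ => by rw [Pi.smul_apply, smul_eq_mul, mul_comm]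
        rw [e3, W_sum]
        exact sum_congr rfl fun i _ => W_smul _ _ _
      rw [sum_congr rfl fun s _ => e2 s, sum_comm, ← sum_add_distrib, ← sum_add_distrib,
        ← sum_add_distrib, ← sum_add_distrib]
      refine sum_congr rfl fun i _ => ?_
      rw [hvi i, smul_add, smul_add, smul_add, smul_add, Finset.smul_sum]
    have n0 := DN_nonneg hB hS F (∑ i, sg (δ i) • v i)
    have h1 : DN S F (∑ i, sg (δ i) • v i) ≤ D1 δ + (D2 δ + (D3 δ + (D4 δ + D5 δ))) := by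
      rw [e1, hD1, hD2, hD3, hD4, hD5]
      refine (DN_add_le hB hS F _ _).trans (add_le_add le_rfl ?_)
      refine (DN_add_le hB hS F _ _).trans (add_le_add le_rfl ?_)
      refine (DN_add_le hB hS F _ _).trans (add_le_add le_rfl ?_)
      exact DN_add_le hB hS F _ _
    have h2 : (D1 δ + (D2 δ + (D3 δ + (D4 δ + D5 δ)))) ^ 2 ≤
        5 * (D1 δ ^ 2 + (D2 δ ^ 2 + (D3 δ ^ 2 + (D4 δ ^ 2 + D5 δ ^ 2)))) := by
      nlinarith [sq_nonneg (D1 δ - D2 δ), sq_nonneg (D1 δ - D3 δ), sq_nonneg (D1 δ - D4 δ),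
        sq_nonneg (D1 δ - D5 δ), sq_nonneg (D2 δ - D3 δ), sq_nonneg (D2 δ - D4 δ),
        sq_nonneg (D2 δ - D5 δ), sq_nonneg (D3 δ - D4 δ), sq_nonneg (D3 δ - D5 δ),
        sq_nonneg (D4 δ - D5 δ)]
    exact (pow_le_pow_left₀ n0 h1 2).trans h2
  have hav := av_mono hDN
  rw [av_mul_left, av_add, av_add, av_add, av_add] at hav
  -- part 1
  have hA1 : av (fun δ => D1 δ ^ 2) ≤ S0 := by
    rw [hD1]
    refine (tstar_euclid hB hS F b).trans ?_
    rw [hS0]
    exact sum_le_sum fun i _ => hbr i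
  -- part 2
  have hA2 : av (fun δ => D2 δ ^ 2) ≤ 500 * S0 := by
    rw [hD2]
    exact tstar_class hB hS F β c hCB ρ κ hκ0 hκ (fun k hk t => (hρ k t hk).2.2.1)
      (fun k hk t => (hρ k t hk).2.2.2) S0 hcS
  -- part 3
  have hA3 : av (fun δ => D3 δ ^ 2) ≤ 5 * S0 := by
    rw [hD3]
    refine (tstar_euclid hB hS F u3).trans ?_
    calc ∑ i, nsq (u3 i) ≤ ∑ i, 5 * ∑ k ∈ range P.K, c i k ^ 2 := by
          refine sum_le_sum fun i _ => ?_
          rw [hu3]
          exact tstar_Y hB hS (β i) (c i) (hCB i) ρ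
      _ = 5 * ∑ i, ∑ k ∈ range P.K, c i k ^ 2 := by rw [mul_sum]
      _ ≤ _ := by linarith
  -- part 4
  have hZ2 : ∀ l i, nsq (Z l i) ≤ (3 * r i) ^ 2 := by
    intro l i
    rw [hZ]
    refine (tstarM_nsq_le (β i) _).trans ((tstar_near hB (β i) (c i) (hCB i)).trans ?_)
    have h1 := hcr i
    have h2 := sq_nonneg (r i)
    nlinarith
  have hZ1 : ∀ l i, n1 (Z l i) ≤ (P.p (l + 1) : ℝ) ^ 6 * (3 * r i) := by
    intro l i
    have hp1 := hB.one_le_p_real (l + 1)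
    have hKp := tstar_K_le hB l
    have h0 := hr0 i
    apply (abs_le_of_sq_le_sq' _ (by positivity)).2
    rw [hZ]
    refine (tstarM_n1_le hB (β i) (c i) (hCB i) _ l (fun k t hh => hh.1)).trans ?_
    have h1 := hcr i
    have h2 : (P.K : ℝ) * ∑ k ∈ range P.K, c i k ^ 2 ≤ (P.p (l + 1) : ℝ) ^ 2 * r i ^ 2 := by
      apply mul_le_mul (hKp.trans (le_self_pow₀ hp1 (by norm_num))) h1
        (sum_nonneg fun _ _ => sq_nonneg _) (by positivity)
    calc (P.p (l + 1) : ℝ) ^ 10 * (P.K * ∑ k ∈ range P.K, c i k ^ 2)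
        ≤ (P.p (l + 1) : ℝ) ^ 10 * ((P.p (l + 1) : ℝ) ^ 2 * r i ^ 2) :=
          mul_le_mul_of_nonneg_left h2 (by positivity)
      _ = (P.p (l + 1) : ℝ) ^ 12 * r i ^ 2 := by ring
      _ ≤ (P.p (l + 1) : ℝ) ^ 12 * (9 * r i ^ 2) := by
          apply mul_le_mul_of_nonneg_left _ (by positivity)
          have := sq_nonneg (r i)
          linarith
      _ = _ := by ring
  have hA4 : av (fun δ => D4 δ ^ 2) ≤ Γ * (9 * S0) := by
    rw [hD4, hu4]
    have h1 := hclu I Zf (fun i => 3 * r i) (fun i => by have := hr0 i; positivity)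
      (fun l _ i t ht => by rw [hZf]; simp only; rw [if_pos ht])
      (fun l _ i => by
        refine le_trans ?_ (hZ2 l i)
        unfold nsq
        refine sum_le_sum fun t _ => ?_
        rw [hZf]
        simp only
        split_ifs
        · simp only [ne_eq, OfNat.ofNat_ne_zero, not_false_eq_true, zero_pow]
          exact sq_nonneg _
        · exact le_rfl)
      (fun l _ i => by
        refine le_trans ?_ (hZ1 l i)
        unfold n1
        refine sum_le_sum fun t _ => ?_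
        rw [hZf]
        simp only
        split_ifs
        · rw [abs_zero]; exact abs_nonneg _
        · exact le_rfl)
    refine h1.trans (le_of_eq ?_)
    rw [hS0, mul_sum (a := (9 : ℝ))]
    congr 1
    exact sum_congr rfl fun i _ => by ring
  -- part 5
  have hA5 : av (fun δ => D5 δ ^ 2) ≤ S0 := by
    rw [hD5]
    refine (tstar_euclid hB hS F u5).trans ?_
    have h1 : ∀ l ∈ range P.K, 2 * ∑ i, n1 (Zn l i) ^ 2 ≤ (1 / (P.K : ℝ)) * S0 := by
      intro l hl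
      have h2 := tstar_on hB β κ (fun k t => k ≤ l ∧ l + 2 ≤ ρ k t) (Ex l) l
        (hcard l (mem_range.mp hl)) (by
          intro k hk t hh
          have g1 := (hρ k t hk).2.2.1
          have g2 : (P.p (l + 2) : ℝ) ≤ P.p (ρ k t) := hB.p_mono_real hh.2
          have g3 : (P.p (l + 2) : ℝ) ^ 5 * nm (fun i => β i k t) ≤ κ k := by
            refine le_trans ?_ g1
            apply mul_le_mul_of_nonneg_right _ (nm_nonneg _)
            exact pow_le_pow_left₀ (Nat.cast_nonneg _) g2 5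
          have g4 := pow_le_pow_left₀ (mul_nonneg (by positivity) (nm_nonneg _)) g3 2
          rw [mul_pow, nm_sq] at g4
          calc (P.p (l + 2) : ℝ) ^ 10 * nsq (fun i => β i k t)
              = ((P.p (l + 2) : ℝ) ^ 5) ^ 2 * nsq (fun i => β i k t) := by ring
            _ ≤ _ := g4) S0 (by
          simp only [hκ]
          rw [sum_comm]
          exact hcS)
      have e1 : ∑ i, n1 (fun t => if t ∈ Ex l then
          tstarM P (β i) (fun k t => k ≤ l ∧ l + 2 ≤ ρ k t) t else 0) ^ 2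
          = ∑ i, n1 (Zn l i) ^ 2 := by
        refine sum_congr rfl fun i _ => ?_
        rw [hZn, hZ]
      rw [e1] at h2
      rw [one_div, inv_mul_eq_div, le_div_iff₀ hK]
      linarith
    calc ∑ i, nsq (u5 i) ≤ ∑ i, ∑ l ∈ range P.K, 2 * n1 (Zn l i) ^ 2 := by
          refine sum_le_sum fun i _ => ?_
          rw [hu5]
          refine (tstar_nsq_U hB hS _).trans (sum_le_sum fun l _ => ?_)
          have g1 := nsq_le_n1_sq (Zn l i)
          have g2 : ((P.p (l + 1) : ℝ) ^ 40)⁻¹ * n1 (Zn l i) ^ 2 ≤ 1 * n1 (Zn l i) ^ 2 := by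
            apply mul_le_mul_of_nonneg_right _ (sq_nonneg _)
            exact inv_le_one_of_one_le₀ (one_le_pow₀ (hB.one_le_p_real (l + 1)))
          linarith
      _ = ∑ l ∈ range P.K, 2 * ∑ i, n1 (Zn l i) ^ 2 := by
          rw [sum_comm]
          exact sum_congr rfl fun l _ => by rw [mul_sum]
      _ ≤ ∑ l ∈ range P.K, (1 / (P.K : ℝ)) * S0 := sum_le_sum h1
      _ = S0 := by
          rw [sum_const, card_range, nsmul_eq_mul]
          field_simp
  rw [← hS0]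
  have hfin : 5 * (S0 + (500 * S0 + (5 * S0 + (Γ * (9 * S0) + S0)))) ≤ 10 ^ 4 * Γ * S0 := by
    nlinarith [mul_nonneg (sub_nonneg.mpr hΓ) hS00]
  linarith

end Pool.Agent.PEL
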