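import Pool.Agent.PEL.Nrm3

/-!
# PEL-PEAK : peaked sets (4.5 of the text)

`aq S q x t = ⟨x, W_q e_t⟩`, `⟨x, W_q β⟩ = ∑_t β_t aq t`.
`peak_card`: if the set had a subset `R` with exactly `p_q^{10}` elements, take `β = sign(aq) 1_R`, `CB q β (p_q^5)`
(`nsq = |R| = p_q^{10}`; sup: `p_q^{10}·1`; `n1 = p_q^{10} ≤ p_{q+1}^5 p_q^5`): `∑_R |aq| ≤ Nq p_q^5`, but `∑_R |aq| > p_q^{10} · 2Nq p_q^{-5}`. (`Nq = 0`: also fine, strict.)
`peak_l2`: `β = aq 1_R`, `r := max(|β|_2, p_q^5|β|_inf, p_{q+1}^{-5}|β|_1) ≤ max(|β|_2, 2Nq)`; so `|β|_2² = ⟨x, W_q β⟩ ≤ Nq max(|β|_2, 2Nq)`, hence `|β|_2 ≤ 2Nq`.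
-/

set_option autoImplicit false

namespace Pool.Agent.PEL

open Finset

variable {P : Par} {S : P.Sam}

/-- `⟨x, W_q e_t⟩` -/
noncomputable def aq (S : P.Sam) (q : ℕ) (x : P.A → ℝ) (t : Fin P.T) : ℝ :=
  ip x (W S q (Pi.single t 1))

theorem ip_W_eq (q : ℕ) (x : P.A → ℝ) (β : Fin P.T → ℝ) :
    ip x (W S q β) = ∑ t, β t * aq S q x t := by
  have h : β = ∑ t, β t • (Pi.single t 1 : Fin P.T → ℝ) := by
    funext s
    simp [Finset.sum_apply, Pi.single_apply]
  conv_lhs => rw [h]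
  rw [W_sum, ip_sum_right]
  refine Finset.sum_congr rfl fun t _ => ?_
  rw [W_smul, ip_smul_right]; rfl

/-- the peaked set -/
noncomputable def Pk (S : P.Sam) (q : ℕ) (x : P.A → ℝ) : Finset (Fin P.T) :=
  univ.filter fun t => 2 * Nq S q x < (P.p q : ℝ) ^ 5 * |aq S q x t|

theorem peak_card (hB : P.Big) (hS : Good P S) (q : ℕ) (x : P.A → ℝ) :
    (Pk S q x).card < P.p q ^ 10 := by
  by_contra hcon
  rw [not_lt] at hcon
  obtain ⟨R, hR, hRc⟩ := Finset.exists_subset_card_eq hcon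
  set β : Fin P.T → ℝ := fun t => if t ∈ R then (if 0 ≤ aq S q x t then 1 else -1) else 0 with hβ
  have hp1 : (1 : ℝ) ≤ P.p q := hB.one_le_p_real q
  have hp0 : (0 : ℝ) < P.p q := hB.p_pos_real q
  have hRr : (R.card : ℝ) = (P.p q : ℝ) ^ 10 := by rw [hRc]; push_cast; ring
  have hsq : ∀ t, β t ^ 2 = if t ∈ R then (1 : ℝ) else 0 := by
    intro t
    simp only [hβ]
    split_ifs <;> norm_num
  have habs : ∀ t, |β t| = if t ∈ R then (1 : ℝ) else 0 := by
    intro t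
    simp only [hβ]
    split_ifs <;> norm_num
  have hcb : CB P q β ((P.p q : ℝ) ^ 5) := by
    refine ⟨by positivity, ?_, fun t => ?_, ?_⟩
    · unfold nsq
      simp only [hsq]
      rw [Finset.sum_ite_mem, Finset.univ_inter, Finset.sum_const, nsmul_eq_mul, mul_one, hRr]
      apply le_of_eq; ring
    · rw [hsq]
      have e : ((P.p q : ℝ) ^ 5) ^ 2 = (P.p q : ℝ) ^ 10 := by ring
      rw [e]
      split_ifs
      · rw [mul_one]
      · rw [mul_zero]; positivity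
    · unfold n1
      simp only [habs]
      rw [Finset.sum_ite_mem, Finset.univ_inter, Finset.sum_const, nsmul_eq_mul, mul_one, hRr]
      have h5 : (P.p q : ℝ) ^ 5 ≤ (P.p (q + 1) : ℝ) ^ 5 :=
        pow_le_pow_left₀ hp0.le (hB.p_mono_real (Nat.le_succ q)) 5
      calc (P.p q : ℝ) ^ 10 = (P.p q : ℝ) ^ 5 * (P.p q : ℝ) ^ 5 := by ring
        _ ≤ _ := mul_le_mul_of_nonneg_right h5 (by positivity)
  have h1 := ip_W_le_Nq hB hS hcb x
  rw [ip_W_eq] at h1
  have h2 : ∑ t, β t * aq S q x t = ∑ t ∈ R, |aq S q x t| := by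
    have : ∀ t, β t * aq S q x t = if t ∈ R then |aq S q x t| else 0 := by
      intro t
      simp only [hβ]
      split_ifs with h3 h4
      · rw [one_mul, abs_of_nonneg h4]
      · rw [abs_of_neg (not_le.mp h4)]; ring
      · ring
    simp only [this]
    rw [Finset.sum_ite_mem, Finset.univ_inter]
  rw [h2] at h1
  have hNq := Nq_nonneg hB hS q x
  have hne : R.Nonempty := by
    rw [← Finset.card_pos, hRc]
    exact Nat.pow_pos (lt_of_lt_of_le Nat.one_pos (hB.one_le_p q))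
  have h3 : ∑ t ∈ R, 2 * Nq S q x < ∑ t ∈ R, (P.p q : ℝ) ^ 5 * |aq S q x t| := by
    apply Finset.sum_lt_sum_of_nonempty hne
    intro t ht
    exact (Finset.mem_filter.mp (hR ht)).2
  rw [Finset.sum_const, nsmul_eq_mul, ← Finset.mul_sum, hRr] at h3
  have h4 : (P.p q : ℝ) ^ 5 * ∑ t ∈ R, |aq S q x t| ≤
      (P.p q : ℝ) ^ 5 * (Nq S q x * (P.p q : ℝ) ^ 5) :=
    mul_le_mul_of_nonneg_left h1 (by positivity)
  have h5 : (P.p q : ℝ) ^ 5 * (Nq S q x * (P.p q : ℝ) ^ 5) = (P.p q : ℝ) ^ 10 * Nq S q x := by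
    ring
  have h6 : 0 ≤ (P.p q : ℝ) ^ 10 * Nq S q x := by positivity
  have h7 : (P.p q : ℝ) ^ 10 * (2 * Nq S q x) = 2 * ((P.p q : ℝ) ^ 10 * Nq S q x) := by ring
  linarith

theorem peak_zero (hB : P.Big) (hS : Good P S) (x : P.A → ℝ) : Pk S 0 x = ∅ := by
  have h := peak_card hB hS 0 x
  rw [Par.p_zero, one_pow, Nat.lt_one_iff, Finset.card_eq_zero] at h
  exact h

theorem peak_l2 (hB : P.Big) (hS : Good P S) (q : ℕ) (x : P.A → ℝ) (R : Finset (Fin P.T))
    (hR : R.card ≤ P.p (q + 1) ^ 10) (hd : ∀ t ∈ R, t ∉ Pk S q x) :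
    ∑ t ∈ R, aq S q x t ^ 2 ≤ (2 * Nq S q x) ^ 2 := by
  set β : Fin P.T → ℝ := fun t => if t ∈ R then aq S q x t else 0 with hβ
  have hp0 : (0 : ℝ) < P.p q := hB.p_pos_real q
  have hp0' : (0 : ℝ) < P.p (q + 1) := hB.p_pos_real (q + 1)
  have hNq := Nq_nonneg hB hS q x
  have hns : nsq β = ∑ t ∈ R, aq S q x t ^ 2 := by
    unfold nsq
    have : ∀ t, β t ^ 2 = if t ∈ R then aq S q x t ^ 2 else 0 := by
      intro t
      simp only [hβ]
      split_ifs <;> simp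
    simp only [this]
    rw [Finset.sum_ite_mem, Finset.univ_inter]
  have hn1 : n1 β = ∑ t ∈ R, |aq S q x t| := by
    unfold n1
    have : ∀ t, |β t| = if t ∈ R then |aq S q x t| else 0 := by
      intro t
      simp only [hβ]
      split_ifs <;> simp
    simp only [this]
    rw [Finset.sum_ite_mem, Finset.univ_inter]
  have hip : ip x (W S q β) = nsq β := by
    rw [ip_W_eq, hns]
    have : ∀ t, β t * aq S q x t = if t ∈ R then aq S q x t ^ 2 else 0 := by
      intro t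
      simp only [hβ]
      split_ifs <;> ring
    simp only [this]
    rw [Finset.sum_ite_mem, Finset.univ_inter]
  have hn1le : n1 β ≤ (P.p (q + 1) : ℝ) ^ 5 * nm β := by
    have h1 : n1 β ^ 2 ≤ ((P.p (q + 1) : ℝ) ^ 5 * nm β) ^ 2 := by
      rw [hn1, mul_pow, nm_sq, hns]
      have h2 := sq_sum_le_card_mul_sum_sq (s := R) (f := fun t => |aq S q x t|)
      simp only [sq_abs] at h2
      refine h2.trans ?_
      apply mul_le_mul_of_nonneg_right _ (Finset.sum_nonneg fun _ _ => sq_nonneg _)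
      have h3 : (R.card : ℝ) ≤ (P.p (q + 1) : ℝ) ^ 10 := by exact_mod_cast hR
      calc (R.card : ℝ) ≤ _ := h3
        _ = _ := by ring
    exact le_of_sq_le_sq h1 (mul_nonneg (by positivity) (nm_nonneg _))
  by_contra hcon
  rw [not_le, ← hns, ← nm_sq] at hcon
  have hlt : 2 * Nq S q x < nm β := lt_of_pow_lt_pow_left₀ 2 (nm_nonneg _) hcon
  have hcb : CB P q β (nm β) := by
    refine ⟨nm_nonneg _, (nm_sq β).ge, fun t => ?_, hn1le⟩
    have h1 : (P.p q : ℝ) ^ 5 * |β t| ≤ nm β := by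
      simp only [hβ]
      split_ifs with h
      · have h2 := hd t h
        simp only [Pk, Finset.mem_filter, Finset.mem_univ, true_and, not_lt] at h2
        exact h2.trans hlt.le
      · rw [abs_zero, mul_zero]; exact nm_nonneg _
    calc (P.p q : ℝ) ^ 10 * β t ^ 2 = ((P.p q : ℝ) ^ 5 * |β t|) ^ 2 := by
          rw [mul_pow, sq_abs]; ring
      _ ≤ _ := pow_le_pow_left₀ (by positivity) h1 2
  have h1 := ip_W_le_Nq hB hS hcb x
  rw [hip, ← nm_sq, sq] at h1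
  have hpos : 0 < nm β := lt_of_le_of_lt (by positivity) hlt
  have h2 := le_of_mul_le_mul_right h1 hpos
  linarith

end Pool.Agent.PEL
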