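import Pool.Agent.PEL.Lin

/-!
# PEL : near-orthogonality of the classes (used in 4.4 and 4.5 of the text)

`∑_t (∑_{k<K} a_k(t))² ≤ 5 ∑ c_k²` if `|a_k|_2 ≤ c_k`, `p_k^5 |a_k|_inf ≤ c_k`, `|a_k|_1 ≤ p_{k+1}^7 c_k`.
-/

set_option autoImplicit false

namespace Pool.Agent.PEL

open Finset

variable {P : Par} {S : P.Sam}

private theorem near_pair (hB : P.Big) (a : ℕ → Fin P.T → ℝ) (c : ℕ → ℝ)
    (ha : ∀ k < P.K, ∀ t, 0 ≤ a k t) (hc : ∀ k < P.K, 0 ≤ c k)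
    (hi : ∀ k < P.K, ∀ t, (P.p k : ℝ) ^ 5 * a k t ≤ c k)
    (h1 : ∀ k < P.K, ∑ t, a k t ≤ (P.p (k + 1) : ℝ) ^ 7 * c k)
    {k k' : ℕ} (hk' : k' < P.K) (hkk : k + 2 ≤ k') :
    ∑ t, a k t * a k' t ≤ (c k ^ 2 + c k' ^ 2) / (2 * P.K) := by
  have hk : k < P.K := by omega
  have hp1 : (1 : ℝ) ≤ P.p (k + 1) := hB.one_le_p_real _
  have hp' : (0 : ℝ) < (P.p k' : ℝ) ^ 5 := pow_pos (hB.p_pos_real _) 5
  have hK : (0 : ℝ) < P.K := lt_of_lt_of_le one_pos hB.one_le_K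
  have hbig : (P.p (k + 1) : ℝ) ^ 7 * P.K ≤ (P.p k' : ℝ) ^ 5 := by
    have e1 : (P.p (k + 1) : ℝ) ^ 500 ≤ P.p k' :=
      (hB.p_step_real (k + 1)).trans (hB.p_mono_real (by omega))
    have e2 : (P.K : ℝ) ≤ P.p (k + 1) := by
      have h3 := hB.K_pow_le k
      have : P.K ≤ P.p (k + 1) := by
        refine le_trans ?_ h3
        calc P.K ≤ 1000 * P.K := by omega
          _ ≤ (1000 * P.K) ^ 20 := Nat.le_self_pow (by norm_num) _
      exact_mod_cast this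
    have e3 : (1 : ℝ) ≤ P.p k' := hB.one_le_p_real _
    calc (P.p (k + 1) : ℝ) ^ 7 * P.K ≤ (P.p (k + 1) : ℝ) ^ 7 * P.p (k + 1) := by gcongr
      _ = (P.p (k + 1) : ℝ) ^ 8 := by ring
      _ ≤ (P.p (k + 1) : ℝ) ^ 500 := pow_le_pow_right₀ hp1 (by norm_num)
      _ ≤ P.p k' := e1
      _ ≤ (P.p k' : ℝ) ^ 5 := le_self_pow₀ e3 (by norm_num)
  have h3 : (P.p k' : ℝ) ^ 5 * ∑ t, a k t * a k' t ≤ (P.p (k + 1) : ℝ) ^ 7 * c k * c k' := by
    calc (P.p k' : ℝ) ^ 5 * ∑ t, a k t * a k' t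
        = ∑ t, a k t * ((P.p k' : ℝ) ^ 5 * a k' t) := by
          rw [mul_sum]; exact sum_congr rfl fun t _ => by ring
      _ ≤ ∑ t, a k t * c k' :=
          sum_le_sum fun t _ => mul_le_mul_of_nonneg_left (hi k' hk' t) (ha k hk t)
      _ = (∑ t, a k t) * c k' := by rw [sum_mul]
      _ ≤ (P.p (k + 1) : ℝ) ^ 7 * c k * c k' :=
          mul_le_mul_of_nonneg_right (h1 k hk) (hc k' hk')
  have hcc : 0 ≤ c k * c k' := mul_nonneg (hc k hk) (hc k' hk')
  have h4 : (P.p (k + 1) : ℝ) ^ 7 * c k * c k' * P.K ≤ (P.p k' : ℝ) ^ 5 * (c k * c k') := by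
    calc (P.p (k + 1) : ℝ) ^ 7 * c k * c k' * P.K
        = ((P.p (k + 1) : ℝ) ^ 7 * P.K) * (c k * c k') := by ring
      _ ≤ _ := mul_le_mul_of_nonneg_right hbig hcc
  have h5 : (∑ t, a k t * a k' t) * P.K ≤ c k * c k' := by
    have : (P.p k' : ℝ) ^ 5 * ((∑ t, a k t * a k' t) * P.K) ≤ (P.p k' : ℝ) ^ 5 * (c k * c k') := by
      calc (P.p k' : ℝ) ^ 5 * ((∑ t, a k t * a k' t) * P.K)
          = ((P.p k' : ℝ) ^ 5 * ∑ t, a k t * a k' t) * P.K := by ring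
        _ ≤ ((P.p (k + 1) : ℝ) ^ 7 * c k * c k') * P.K :=
            mul_le_mul_of_nonneg_right h3 hK.le
        _ ≤ _ := h4
    exact le_of_mul_le_mul_left this hp'
  rw [le_div_iff₀ (by positivity)]
  nlinarith [sq_nonneg (c k - c k')]

private theorem near_close (a : ℕ → Fin P.T → ℝ) (c : ℕ → ℝ)
    (h2 : ∀ k < P.K, ∑ t, a k t ^ 2 ≤ c k ^ 2) {k k' : ℕ} (hk : k < P.K) (hk' : k' < P.K) :
    ∑ t, a k t * a k' t ≤ (c k ^ 2 + c k' ^ 2) / 2 := by
  have e1 := h2 k hk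
  have e2 := h2 k' hk'
  have e3 : ∑ t, a k t * a k' t ≤ (∑ t, a k t ^ 2 + ∑ t, a k' t ^ 2) / 2 := by
    rw [← sum_add_distrib, sum_div]
    exact sum_le_sum fun t _ => by nlinarith [sq_nonneg (a k t - a k' t)]
  linarith

theorem near_orth (hB : P.Big) (a : ℕ → Fin P.T → ℝ) (c : ℕ → ℝ)
    (ha : ∀ k < P.K, ∀ t, 0 ≤ a k t) (hc : ∀ k < P.K, 0 ≤ c k)
    (h2 : ∀ k < P.K, ∑ t, a k t ^ 2 ≤ c k ^ 2)
    (hi : ∀ k < P.K, ∀ t, (P.p k : ℝ) ^ 5 * a k t ≤ c k)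
    (h1 : ∀ k < P.K, ∑ t, a k t ≤ (P.p (k + 1) : ℝ) ^ 7 * c k) :
    ∑ t, (∑ k ∈ range P.K, a k t) ^ 2 ≤ 5 * ∑ k ∈ range P.K, c k ^ 2 := by
  have hK : (0 : ℝ) < P.K := lt_of_lt_of_le one_pos hB.one_le_K
  have e0 : ∑ t, (∑ k ∈ range P.K, a k t) ^ 2
      = ∑ k ∈ range P.K, ∑ k' ∈ range P.K, ∑ t, a k t * a k' t := by
    calc ∑ t, (∑ k ∈ range P.K, a k t) ^ 2
        = ∑ t, ∑ k ∈ range P.K, ∑ k' ∈ range P.K, a k t * a k' t :=
          sum_congr rfl fun t _ => by rw [sq, sum_mul_sum]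
      _ = ∑ k ∈ range P.K, ∑ t, ∑ k' ∈ range P.K, a k t * a k' t := sum_comm
      _ = _ := sum_congr rfl fun k _ => sum_comm
  -- bound of one term
  have key : ∀ k < P.K, ∀ k' < P.K, ∑ t, a k t * a k' t ≤
      (if k' = k then c k ^ 2 else 0) + (if k' = k + 1 then (c k ^ 2 + c k' ^ 2) / 2 else 0)
        + (if k = k' + 1 then (c k ^ 2 + c k' ^ 2) / 2 else 0)
        + (c k ^ 2 + c k' ^ 2) / (2 * P.K) := by
    intro k hk k' hk'
    have hn : 0 ≤ (c k ^ 2 + c k' ^ 2) / (2 * P.K) := by positivity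
    rcases lt_trichotomy k k' with h | h | h
    · by_cases h3 : k' = k + 1
      · rw [if_neg (by omega), if_pos h3, if_neg (by omega)]
        have := near_close a c h2 hk hk'
        linarith
      · rw [if_neg (by omega), if_neg h3, if_neg (by omega)]
        have := near_pair hB a c ha hc hi h1 hk' (show k + 2 ≤ k' by omega)
        linarith
    · subst h
      rw [if_pos rfl, if_neg (by omega)]
      have := near_close a c h2 hk hk
      linarith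
    · by_cases h3 : k = k' + 1
      · rw [if_neg (by omega), if_neg (by omega), if_pos h3]
        have := near_close a c h2 hk hk'
        linarith
      · rw [if_neg (by omega), if_neg (by omega), if_neg h3]
        have h4 := near_pair hB a c ha hc hi h1 hk (show k' + 2 ≤ k by omega)
        have h5 : ∑ t, a k t * a k' t = ∑ t, a k' t * a k t :=
          sum_congr rfl fun t _ => mul_comm _ _
        rw [h5]
        have h6 : (c k' ^ 2 + c k ^ 2) / (2 * P.K) = (c k ^ 2 + c k' ^ 2) / (2 * (P.K : ℝ)) := by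
          rw [add_comm]
        linarith
  have s1 : ∀ k ∈ range P.K, ∑ k' ∈ range P.K, (if k' = k then c k ^ 2 else 0) = c k ^ 2 := by
    intro k hk
    rw [sum_ite_eq', if_pos hk]
  have hsq : ∀ k, 0 ≤ c k ^ 2 := fun k => sq_nonneg _
  set Z := ∑ k ∈ range P.K, c k ^ 2 with hZ
  have hZ0 : 0 ≤ Z := sum_nonneg fun k _ => hsq k
  have s2 : ∑ k ∈ range P.K, ∑ k' ∈ range P.K,
      (if k' = k + 1 then (c k ^ 2 + c k' ^ 2) / 2 else 0) ≤ Z := by
    have e1 : ∑ k ∈ range P.K, ∑ k' ∈ range P.K, (if k' = k + 1 then c k ^ 2 / 2 else 0) ≤ Z / 2 := by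
      rw [hZ, sum_div]
      refine sum_le_sum fun k _ => ?_
      rw [sum_ite_eq']
      split_ifs
      · exact le_rfl
      · have := hsq k; linarith
    have e2 : ∑ k ∈ range P.K, ∑ k' ∈ range P.K, (if k' = k + 1 then c k' ^ 2 / 2 else 0) ≤ Z / 2 := by
      rw [sum_comm, hZ, sum_div]
      refine sum_le_sum fun k' _ => ?_
      rcases Nat.eq_zero_or_pos k' with h | h
      · subst h
        rw [sum_eq_zero fun k _ => if_neg (by omega)]
        have := hsq 0; linarith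
      · have e3 : ∀ k ∈ range P.K, (if k' = k + 1 then c k' ^ 2 / 2 else 0)
            = (if k = k' - 1 then c k' ^ 2 / 2 else 0) := fun k _ => by
          by_cases h4 : k' = k + 1
          · rw [if_pos h4, if_pos (by omega)]
          · rw [if_neg h4, if_neg (by omega)]
        rw [sum_congr rfl e3, sum_ite_eq']
        split_ifs
        · exact le_rfl
        · have := hsq k'; linarith
    have e3 : ∑ k ∈ range P.K, ∑ k' ∈ range P.K,
        (if k' = k + 1 then (c k ^ 2 + c k' ^ 2) / 2 else 0)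
        = ∑ k ∈ range P.K, ∑ k' ∈ range P.K, (if k' = k + 1 then c k ^ 2 / 2 else 0)
          + ∑ k ∈ range P.K, ∑ k' ∈ range P.K, (if k' = k + 1 then c k' ^ 2 / 2 else 0) := by
      rw [← sum_add_distrib]
      refine sum_congr rfl fun k _ => ?_
      rw [← sum_add_distrib]
      refine sum_congr rfl fun k' _ => ?_
      split_ifs <;> ring
    rw [e3]; linarith
  have s3 : ∑ k ∈ range P.K, ∑ k' ∈ range P.K,
      (if k = k' + 1 then (c k ^ 2 + c k' ^ 2) / 2 else 0) ≤ Z := by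
    rw [sum_comm]
    refine le_of_eq_of_le ?_ s2
    refine sum_congr rfl fun k _ => sum_congr rfl fun k' _ => ?_
    split_ifs
    · ring
    · rfl
  have s4 : ∑ k ∈ range P.K, ∑ k' ∈ range P.K, (c k ^ 2 + c k' ^ 2) / (2 * (P.K : ℝ)) = Z := by
    have e1 : ∀ k ∈ range P.K, ∑ k' ∈ range P.K, (c k ^ 2 + c k' ^ 2) / (2 * (P.K : ℝ))
        = c k ^ 2 / 2 + Z / (2 * P.K) := by
      intro k _
      rw [← sum_div, sum_add_distrib, sum_const, card_range, nsmul_eq_mul, ← hZ]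
      field_simp
    rw [sum_congr rfl e1, sum_add_distrib, ← sum_div, ← hZ, sum_const, card_range, nsmul_eq_mul]
    field_simp
    ring
  calc ∑ t, (∑ k ∈ range P.K, a k t) ^ 2
      = ∑ k ∈ range P.K, ∑ k' ∈ range P.K, ∑ t, a k t * a k' t := e0
    _ ≤ ∑ k ∈ range P.K, ∑ k' ∈ range P.K,
        ((if k' = k then c k ^ 2 else 0) + (if k' = k + 1 then (c k ^ 2 + c k' ^ 2) / 2 else 0)
        + (if k = k' + 1 then (c k ^ 2 + c k' ^ 2) / 2 else 0)
        + (c k ^ 2 + c k' ^ 2) / (2 * P.K)) :=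
        sum_le_sum fun k hk => sum_le_sum fun k' hk' =>
          key k (mem_range.mp hk) k' (mem_range.mp hk')
    _ = (∑ k ∈ range P.K, ∑ k' ∈ range P.K, (if k' = k then c k ^ 2 else 0))
        + (∑ k ∈ range P.K, ∑ k' ∈ range P.K, (if k' = k + 1 then (c k ^ 2 + c k' ^ 2) / 2 else 0))
        + (∑ k ∈ range P.K, ∑ k' ∈ range P.K, (if k = k' + 1 then (c k ^ 2 + c k' ^ 2) / 2 else 0))
        + ∑ k ∈ range P.K, ∑ k' ∈ range P.K, (c k ^ 2 + c k' ^ 2) / (2 * (P.K : ℝ)) := by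
        rw [← sum_add_distrib, ← sum_add_distrib, ← sum_add_distrib]
        refine sum_congr rfl fun k _ => ?_
        rw [← sum_add_distrib, ← sum_add_distrib, ← sum_add_distrib]
    _ ≤ Z + Z + Z + Z := by
        rw [sum_congr rfl s1]
        linarith
    _ ≤ 5 * Z := by linarith

/-- the form needed in 4.4 -/
theorem near_orth_CB (hB : P.Big) (β : ℕ → Fin P.T → ℝ) (c : ℕ → ℝ)
    (h : ∀ k < P.K, CB P k (β k) (c k)) :
    ∑ t, (∑ k ∈ range P.K, |β k t|) ^ 2 ≤ 5 * ∑ k ∈ range P.K, c k ^ 2 := by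
  refine near_orth hB (fun k t => |β k t|) c (fun k _ t => abs_nonneg _) (fun k hk => (h k hk).nonneg)
    (fun k hk => ?_) (fun k hk t => ?_) (fun k hk => ?_)
  · have h3 := (h k hk).two
    unfold nsq at h3
    simpa only [sq_abs] using h3
  · refine (abs_le_of_sq_le_sq' ?_ (h k hk).nonneg).2
    calc ((P.p k : ℝ) ^ 5 * |β k t|) ^ 2 = (P.p k : ℝ) ^ 10 * β k t ^ 2 := by
          rw [mul_pow, sq_abs]; ring
      _ ≤ _ := (h k hk).inf t
  · refine le_trans (h k hk).one ?_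
    exact mul_le_mul_of_nonneg_right (pow_le_pow_right₀ (hB.one_le_p_real _) (by norm_num))
      (h k hk).nonneg

/-- the form needed in 4.5: `ν_{k,t} = nm (fun i => β k i t)` -/
theorem near_orth_nu (hB : P.Big) {I : Type} [Fintype I] (β : ℕ → I → Fin P.T → ℝ) (κ : ℕ → ℝ)
    (hκ : ∀ k < P.K, 0 ≤ κ k)
    (h2 : ∀ k < P.K, ∑ t, nsq (fun i => β k i t) ≤ κ k ^ 2)
    (hi : ∀ k < P.K, ∀ t, (P.p k : ℝ) ^ 5 * nm (fun i => β k i t) ≤ κ k)
    (h1 : ∀ k < P.K, ∑ t, nm (fun i => β k i t) ≤ (P.p (k + 1) : ℝ) ^ 7 * κ k) :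
    ∑ i, ∑ t, (∑ k ∈ range P.K, |β k i t|) ^ 2 ≤ 5 * ∑ k ∈ range P.K, κ k ^ 2 := by
  have h := near_orth hB (fun k t => nm (fun i => β k i t)) κ (fun k _ t => nm_nonneg _) hκ
    (fun k hk => by simpa only [nm_sq] using h2 k hk) hi h1
  refine le_trans ?_ h
  rw [sum_comm]
  refine sum_le_sum fun t _ => ?_
  have e : ∑ i, (∑ k ∈ range P.K, |β k i t|) ^ 2 = nm (∑ k ∈ range P.K, fun i => |β k i t|) ^ 2 := by
    rw [nm_sq]
    unfold nsq
    exact sum_congr rfl fun i _ => by rw [Finset.sum_apply]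
  rw [e]
  refine pow_le_pow_left₀ (nm_nonneg _) ((nm_sum_le _ _).trans (le_of_eq ?_)) 2
  refine sum_congr rfl fun k _ => ?_
  unfold nm nsq
  simp only [sq_abs]

end Pool.Agent.PEL
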