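import Pool.Agent.PEL.Nrm1
import Pool.Agent.PEL.NearO

/-!
# PEL-TTWOA : re-classing (4.5 of the text, block RE-CLASSING)

`nu k t = nm (fun i => β k i t)`. normal: `κ k < p_{k+1}^5 nu`; small: `p_{k+1}^5 nu ≤ κ k < p_{k+2}^5 nu`; tiny: `p_{k+2}^5 nu ≤ κ k`.
`B r i t = β r i t [normal r t] + β (r-1) i t [1 ≤ r, small (r-1) t]`, `e i = ∑_k U_k (β k i [small]) + ∑_k W_k (β k i [tiny])` (`W_succ`, `W_top`).
`∑_i nsq (e i) ≤ 2·2M² + 2M²`: `∑_i n1(β k i)² ≤ (∑_t nu k t)² ≤ 4m² p_{k+1}^{10} κ²` (Minkowski; there is `sum_n1_sq_le` in Lev0, prove a private copy),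
`nsq_U_le`, `nsq_sum_levels`; tiny: `∑_t nu² [tiny] ≤ p_{k+2}^{-5} κ ∑ nu ≤ p_{k+2}^{-5} 2m p_{k+1}^5 κ²`, `nsq_W_le`, `nsq_sum_le`.
third: `∑_r |B r i t| ≤ ∑_k |β k i t|`; `∑_i |β k i t||β k' i t| ≤ nu k t nu k' t`; `|k-k'| ≤ 1`: Cauchy-Schwarz over `t`; `k' ≥ k+2`:
`∑_t nu k t · max nu k' ≤ 2m p_{k+1}^5 κ_k p_{k'}^{-5} κ_{k'}`. fourth: Chebyshev for `normal r` and `small (r-1)` (both `< p_{r+1}^{10}`; if `κ = 0` the set is empty).
fifth: `p_r^5 nu r t ≤ κ r`, `p_r^5 nu (r-1) t ≤ κ (r-1)` if small.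
-/

set_option autoImplicit false

namespace Pool.Agent.PEL

open Finset

variable {P : Par} {S : P.Sam}

section TTwoA

variable {I : Type} [Fintype I]

/-- Minkowski: `∑_i (∑_t |y_i(t)|)² ≤ (∑_t |y(t)|_2)²` -/
private theorem twa_mink {τ : Type} [Fintype τ] (y : I → τ → ℝ) :
    ∑ i, n1 (y i) ^ 2 ≤ (∑ t, nm (fun i => y i t)) ^ 2 := by
  have e : ∑ i, n1 (y i) ^ 2 = nm (∑ t : τ, fun i => |y i t|) ^ 2 := by
    rw [nm_sq]
    unfold nsq
    refine sum_congr rfl fun i _ => ?_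
    rw [Finset.sum_apply]
    rfl
  rw [e]
  refine pow_le_pow_left₀ (nm_nonneg _) ((nm_sum_le _ _).trans (le_of_eq ?_)) 2
  refine sum_congr rfl fun t _ => ?_
  unfold nm nsq
  simp only [sq_abs]

/-- Chebyshev -/
private theorem twa_cheb {τ : Type} [Fintype τ] (ν : τ → ℝ) (κ c : ℝ) (hν : ∀ t, 0 ≤ ν t)
    (hκ : 0 ≤ κ) (h : ∑ t, ν t ^ 2 ≤ κ ^ 2) (R : Finset τ) (hR : ∀ t ∈ R, κ < c * ν t) :
    (R.card : ℝ) ≤ c ^ 2 := by
  rcases hκ.eq_or_lt with h0 | h0
  · -- then all `ν t = 0`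
    have hz : ∀ t, ν t = 0 := by
      intro t
      have h1 : ν t ^ 2 ≤ ∑ t, ν t ^ 2 :=
        single_le_sum (f := fun t => ν t ^ 2) (fun t _ => sq_nonneg _) (mem_univ t)
      rw [← h0] at h
      have h2 : ν t ^ 2 ≤ 0 := by linarith
      exact pow_eq_zero_iff (two_ne_zero) |>.mp (le_antisymm h2 (sq_nonneg _))
    have : R = ∅ := by
      rw [Finset.eq_empty_iff_forall_notMem]
      intro t ht
      have := hR t ht
      rw [hz t, ← h0] at this
      simp at this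
    rw [this]
    simp only [card_empty, Nat.cast_zero]
    positivity
  · have h1 : (R.card : ℝ) * κ ^ 2 ≤ c ^ 2 * κ ^ 2 := by
      calc (R.card : ℝ) * κ ^ 2 = ∑ _t ∈ R, κ ^ 2 := by rw [sum_const, nsmul_eq_mul]
        _ ≤ ∑ t ∈ R, c ^ 2 * ν t ^ 2 := by
            refine sum_le_sum fun t ht => ?_
            rw [← mul_pow]
            exact pow_le_pow_left₀ hκ (hR t ht).le 2
        _ = c ^ 2 * ∑ t ∈ R, ν t ^ 2 := by rw [mul_sum]
        _ ≤ c ^ 2 * ∑ t, ν t ^ 2 := by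
            refine mul_le_mul_of_nonneg_left ?_ (sq_nonneg c)
            exact sum_le_sum_of_subset_of_nonneg (subset_univ _) fun t _ _ => sq_nonneg _
        _ ≤ c ^ 2 * κ ^ 2 := mul_le_mul_of_nonneg_left h (sq_nonneg c)
    exact le_of_mul_le_mul_right h1 (by positivity)

end TTwoA

theorem ttwo_reclass (hB : P.Big) (hS : Good P S) {I : Type} [Fintype I] [DecidableEq I]
    (β : ℕ → I → Fin P.T → ℝ) (κ : ℕ → ℝ) (M : ℝ) (hM : 0 ≤ M) (hκ : ∀ k, 0 ≤ κ k)
    (hκM : ∑ k ∈ range P.K, κ k ^ 2 ≤ M ^ 2)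
    (f1 : ∀ k < P.K, ∀ t, (P.p k : ℝ) ^ 5 * nm (fun i => β k i t) ≤ κ k)
    (f2 : ∀ k < P.K, ∑ i, nsq (β k i) ≤ κ k ^ 2)
    (f3 : ∀ k < P.K, ∑ t, nm (fun i => β k i t) ≤ 2 * P.m * (P.p (k + 1) : ℝ) ^ 5 * κ k) :
    ∃ (B : ℕ → I → Fin P.T → ℝ) (e : I → P.A → ℝ),
      (∀ i, ∑ k ∈ range P.K, W S k (β k i) = ∑ r ∈ range P.K, W S r (B r i) + e i) ∧
      ∑ i, nsq (e i) ≤ 16 * M ^ 2 ∧
      ∑ i, ∑ t, (∑ r ∈ range P.K, |B r i t|) ^ 2 ≤ 10 * M ^ 2 ∧
      (∀ r < P.K, (univ.filter fun t => ∃ i, B r i t ≠ 0).card ≤ 2 * P.p (r + 1) ^ 10) ∧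
      (∀ r < P.K, ∀ t, (P.p r : ℝ) ^ 5 * nm (fun i => B r i t) ≤ 2 * M) := by
  classical
  set ν : ℕ → Fin P.T → ℝ := fun k t => nm (fun i => β k i t) with hν
  have hν0 : ∀ k t, 0 ≤ ν k t := fun k t => nm_nonneg _
  -- the three kinds of entries
  set bN : ℕ → I → Fin P.T → ℝ := fun k i t =>
    if κ k < (P.p (k + 1) : ℝ) ^ 5 * ν k t then β k i t else 0 with hbN
  set bS : ℕ → I → Fin P.T → ℝ := fun k i t =>
    if κ k < (P.p (k + 1) : ℝ) ^ 5 * ν k t then 0 else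
      if κ k < (P.p (k + 2) : ℝ) ^ 5 * ν k t then β k i t else 0 with hbS
  set bT : ℕ → I → Fin P.T → ℝ := fun k i t =>
    if κ k < (P.p (k + 1) : ℝ) ^ 5 * ν k t then 0 else
      if κ k < (P.p (k + 2) : ℝ) ^ 5 * ν k t then 0 else β k i t with hbT
  have hdec : ∀ k i, β k i = bN k i + bS k i + bT k i := by
    intro k i
    funext t
    simp only [hbN, hbS, hbT, Pi.add_apply]
    split_ifs <;> ring
  have habs : ∀ k i t, |bN k i t| + |bS k i t| ≤ |β k i t| := by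
    intro k i t
    simp only [hbN, hbS]
    split_ifs <;> simp
  -- facts on `κ`
  have hκleM : ∀ k < P.K, κ k ≤ M := by
    intro k hk
    have h1 : κ k ^ 2 ≤ M ^ 2 := by
      refine le_trans ?_ hκM
      exact single_le_sum (f := fun k => κ k ^ 2) (fun k _ => sq_nonneg _) (mem_range.mpr hk)
    exact (abs_le_of_sq_le_sq' h1 hM).2
  have hcol : ∀ k, ∑ t, ν k t ^ 2 = ∑ i, nsq (β k i) := by
    intro k
    have h1 : ∀ t, ν k t ^ 2 = ∑ i, β k i t ^ 2 := fun t => nm_sq _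
    rw [sum_congr rfl fun t _ => h1 t, sum_comm]
    rfl
  have hν2 : ∀ k < P.K, ∑ t, ν k t ^ 2 ≤ κ k ^ 2 := fun k hk => by
    rw [hcol k]; exact f2 k hk
  have hn1 : ∀ k < P.K, ∑ i, n1 (β k i) ^ 2 ≤ 4 * (P.m : ℝ) ^ 2 * (P.p (k + 1) : ℝ) ^ 10 * κ k ^ 2 := by
    intro k hk
    refine (twa_mink (β k)).trans ?_
    have h0 : 0 ≤ ∑ t, ν k t := sum_nonneg fun t _ => hν0 k t
    calc (∑ t, nm fun i => β k i t) ^ 2 ≤ (2 * P.m * (P.p (k + 1) : ℝ) ^ 5 * κ k) ^ 2 :=
          pow_le_pow_left₀ h0 (f3 k hk) 2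
      _ = _ := by ring
  -- numbers
  have hp1 : ∀ k, (1 : ℝ) ≤ P.p (k + 1) := fun k => hB.one_le_p_real _
  have hmp : ∀ k, (P.m : ℝ) ≤ P.p (k + 1) := fun k => hB.m_le_p_real k
  have hm0 : (0 : ℝ) ≤ P.m := Nat.cast_nonneg _
  have hK1 : (1 : ℝ) ≤ P.K := hB.one_le_K
  have hKp : ∀ k, (1000 * (P.K : ℝ)) ^ 2 ≤ P.p (k + 1) := by
    intro k
    refine le_trans ?_ (hB.K_pow_le_real k)
    exact pow_le_pow_right₀ (by linarith) (by norm_num)
  have h1000 : ∀ k, (1000 : ℝ) ≤ P.p (k + 1) := by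
    intro k
    refine le_trans ?_ (hKp k)
    nlinarith
  have hinv : ∀ k, ((P.p (k + 1) : ℝ) ^ 40)⁻¹ * (4 * (P.m : ℝ) ^ 2 * (P.p (k + 1) : ℝ) ^ 10)
      ≤ ((P.p (k + 1) : ℝ) ^ 20)⁻¹ := by
    intro k
    have hp := hp1 k
    have hpp : (0 : ℝ) < P.p (k + 1) := by linarith
    have h2 : (4 : ℝ) * (P.m : ℝ) ^ 2 ≤ (P.p (k + 1) : ℝ) ^ 10 := by
      calc (4 : ℝ) * (P.m : ℝ) ^ 2 ≤ P.p (k + 1) * (P.p (k + 1) : ℝ) ^ 2 := by
            have := h1000 k
            have := hmp k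
            gcongr
            linarith
        _ = (P.p (k + 1) : ℝ) ^ 3 := by ring
        _ ≤ (P.p (k + 1) : ℝ) ^ 10 := pow_le_pow_right₀ hp (by norm_num)
    rw [inv_mul_le_iff₀ (by positivity)]
    have h3 : (P.p (k + 1) : ℝ) ^ 40 * ((P.p (k + 1) : ℝ) ^ 20)⁻¹ = (P.p (k + 1) : ℝ) ^ 20 := by
      rw [mul_inv_eq_iff_eq_mul₀ (by positivity), ← pow_add]
    rw [h3]
    calc 4 * (P.m : ℝ) ^ 2 * (P.p (k + 1) : ℝ) ^ 10
        ≤ (P.p (k + 1) : ℝ) ^ 10 * (P.p (k + 1) : ℝ) ^ 10 := by gcongr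
      _ = _ := by rw [← pow_add]
  have hinv1 : ∀ k, ((P.p (k + 1) : ℝ) ^ 20)⁻¹ ≤ 1 := fun k =>
    inv_le_one_of_one_le₀ (one_le_pow₀ (hp1 k))
  refine ⟨fun r i t => bN r i t + if 1 ≤ r then bS (r - 1) i t else 0,
    fun i => ∑ k ∈ range P.K, U S k (bS k i) + ∑ k ∈ range P.K, W S k (bT k i), ?_, ?_, ?_, ?_, ?_⟩
  · -- the identity
    intro i
    set g : ℕ → P.A → ℝ := fun r => W S r (fun t => if 1 ≤ r then bS (r - 1) i t else 0) with hg
    have hg0 : g 0 = 0 := by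
      simp only [hg]
      have : (fun t : Fin P.T => if 1 ≤ 0 then bS (0 - 1) i t else 0) = (0 : Fin P.T → ℝ) := by
        funext t; simp
      rw [this, W_zero]
    have hgK : g P.K = 0 := W_top le_rfl _
    have hgs : ∀ k, g (k + 1) = W S (k + 1) (bS k i) := by
      intro k
      simp only [hg]
      have : (fun t : Fin P.T => if 1 ≤ k + 1 then bS (k + 1 - 1) i t else 0) = bS k i := by
        funext t; simp
      rw [this]
    have hsum : ∑ r ∈ range P.K, g r = ∑ k ∈ range P.K, W S (k + 1) (bS k i) := by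
      have h1 := Finset.sum_range_succ g P.K
      have h2 := Finset.sum_range_succ' g P.K
      rw [hgK, add_zero] at h1
      rw [hg0, add_zero] at h2
      rw [← h1, h2]
      exact sum_congr rfl fun k _ => hgs k
    have hR : ∀ r, W S r (fun t => bN r i t + if 1 ≤ r then bS (r - 1) i t else 0)
        = W S r (bN r i) + g r := fun r => W_add r (bN r i) _
    have hL : ∀ k, W S k (β k i) = W S k (bN k i) + (W S (k + 1) (bS k i) + U S k (bS k i))
        + W S k (bT k i) := by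
      intro k
      rw [hdec k i, W_add, W_add, ← W_succ]
    rw [sum_congr rfl fun k _ => hL k, sum_congr rfl fun r _ => hR r]
    simp only [sum_add_distrib]
    rw [hsum]
    abel
  · -- the norm of `e`
    have hX : ∀ i, nsq (∑ k ∈ range P.K, U S k (bS k i)) = ∑ k ∈ range P.K, nsq (U S k (bS k i)) :=
      fun i => nsq_sum_levels (fun k => U S k (bS k i)) fun l _ => lv_U l _
    have hbSsq : ∀ k i, nsq (bS k i) ≤ nsq (β k i) := by
      intro k i
      refine sum_le_sum fun t _ => ?_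
      simp only [hbS]
      split_ifs
      · simp only [ne_eq, OfNat.ofNat_ne_zero, not_false_eq_true, zero_pow]; positivity
      · exact le_rfl
      · simp only [ne_eq, OfNat.ofNat_ne_zero, not_false_eq_true, zero_pow]; positivity
    have hbSn1 : ∀ k i, n1 (bS k i) ≤ n1 (β k i) := by
      intro k i
      refine sum_le_sum fun t _ => ?_
      simp only [hbS]
      split_ifs
      · rw [abs_zero]; exact abs_nonneg _
      · exact le_rfl
      · rw [abs_zero]; exact abs_nonneg _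
    have hbTn1 : ∀ k i, n1 (bT k i) ≤ n1 (β k i) := by
      intro k i
      refine sum_le_sum fun t _ => ?_
      simp only [hbT]
      split_ifs
      · rw [abs_zero]; exact abs_nonneg _
      · rw [abs_zero]; exact abs_nonneg _
      · exact le_rfl
    have hUk : ∀ k < P.K, ∑ i, nsq (U S k (bS k i)) ≤ 2 * κ k ^ 2 := by
      intro k hk
      have h1 : ∀ i, nsq (U S k (bS k i)) ≤ nsq (β k i) +
          ((P.p (k + 1) : ℝ) ^ 40)⁻¹ * n1 (β k i) ^ 2 := by
        intro i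
        refine (nsq_U_le hB hS hk (bS k i)).trans ?_
        have h2 : n1 (bS k i) ^ 2 ≤ n1 (β k i) ^ 2 :=
          pow_le_pow_left₀ (n1_nonneg _) (hbSn1 k i) 2
        have h3 : (0 : ℝ) ≤ ((P.p (k + 1) : ℝ) ^ 40)⁻¹ := by positivity
        exact add_le_add (hbSsq k i) (mul_le_mul_of_nonneg_left h2 h3)
      refine (sum_le_sum fun i _ => h1 i).trans ?_
      rw [sum_add_distrib, ← mul_sum]
      have h3 : (0 : ℝ) ≤ ((P.p (k + 1) : ℝ) ^ 40)⁻¹ := by positivity
      have h4 : ((P.p (k + 1) : ℝ) ^ 40)⁻¹ * ∑ i, n1 (β k i) ^ 2 ≤ κ k ^ 2 := by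
        calc ((P.p (k + 1) : ℝ) ^ 40)⁻¹ * ∑ i, n1 (β k i) ^ 2
            ≤ ((P.p (k + 1) : ℝ) ^ 40)⁻¹ *
                (4 * (P.m : ℝ) ^ 2 * (P.p (k + 1) : ℝ) ^ 10 * κ k ^ 2) :=
              mul_le_mul_of_nonneg_left (hn1 k hk) h3
          _ = (((P.p (k + 1) : ℝ) ^ 40)⁻¹ *
                (4 * (P.m : ℝ) ^ 2 * (P.p (k + 1) : ℝ) ^ 10)) * κ k ^ 2 := by ring
          _ ≤ 1 * κ k ^ 2 :=
              mul_le_mul_of_nonneg_right ((hinv k).trans (hinv1 k)) (sq_nonneg _)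
          _ = κ k ^ 2 := one_mul _
      have := f2 k hk
      linarith
    have hTsq : ∀ k < P.K, ∑ i, nsq (bT k i) ≤ ((P.p (k + 1) : ℝ) ^ 20)⁻¹ * κ k ^ 2 := by
      intro k hk
      have hp := hp1 k
      have hp2 : (0 : ℝ) < (P.p (k + 2) : ℝ) ^ 5 := pow_pos (hB.p_pos_real _) 5
      have e1 : ∑ i, nsq (bT k i) = ∑ t, ∑ i, bT k i t ^ 2 := sum_comm
      have e2 : ∀ t, (P.p (k + 2) : ℝ) ^ 5 * ∑ i, bT k i t ^ 2 ≤ κ k * ν k t := by
        intro t
        by_cases h1 : κ k < (P.p (k + 1) : ℝ) ^ 5 * ν k t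
        · have : ∑ i, bT k i t ^ 2 = 0 := sum_eq_zero fun i _ => by
            simp only [hbT, if_pos h1]; norm_num
          rw [this, mul_zero]
          exact mul_nonneg (hκ k) (hν0 k t)
        · by_cases h2 : κ k < (P.p (k + 2) : ℝ) ^ 5 * ν k t
          · have : ∑ i, bT k i t ^ 2 = 0 := sum_eq_zero fun i _ => by
              simp only [hbT, if_neg h1, if_pos h2]; norm_num
            rw [this, mul_zero]
            exact mul_nonneg (hκ k) (hν0 k t)
          · have : ∑ i, bT k i t ^ 2 = ν k t ^ 2 := by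
              have h3 : ν k t ^ 2 = ∑ i, β k i t ^ 2 := nm_sq _
              rw [h3]
              refine sum_congr rfl fun i _ => ?_
              simp only [hbT, if_neg h1, if_neg h2]
            rw [this]
            push Not at h2
            calc (P.p (k + 2) : ℝ) ^ 5 * ν k t ^ 2 = ((P.p (k + 2) : ℝ) ^ 5 * ν k t) * ν k t := by ring
              _ ≤ κ k * ν k t := mul_le_mul_of_nonneg_right h2 (hν0 k t)
      have e3 : (P.p (k + 2) : ℝ) ^ 5 * ∑ i, nsq (bT k i) ≤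
          κ k * (2 * P.m * (P.p (k + 1) : ℝ) ^ 5 * κ k) := by
        rw [e1, mul_sum]
        refine (sum_le_sum fun t _ => e2 t).trans ?_
        rw [← mul_sum]
        exact mul_le_mul_of_nonneg_left (f3 k hk) (hκ k)
      -- `2 m p^5 ≤ p^7`, `p^7 p^20 ≤ p_{k+2}^5`
      have e4 : 2 * (P.m : ℝ) * (P.p (k + 1) : ℝ) ^ 5 * (P.p (k + 1) : ℝ) ^ 20 ≤
          (P.p (k + 2) : ℝ) ^ 5 := by
        have hstep : (P.p (k + 1) : ℝ) ^ 500 ≤ P.p (k + 2) := hB.p_step_real (k + 1)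
        have h5 : (1 : ℝ) ≤ P.p (k + 2) := hB.one_le_p_real _
        calc 2 * (P.m : ℝ) * (P.p (k + 1) : ℝ) ^ 5 * (P.p (k + 1) : ℝ) ^ 20
            ≤ P.p (k + 1) * P.p (k + 1) * (P.p (k + 1) : ℝ) ^ 5 * (P.p (k + 1) : ℝ) ^ 20 := by
              have h6 := h1000 k
              have h7 := hmp k
              gcongr
              linarith
          _ = (P.p (k + 1) : ℝ) ^ 27 := by ring
          _ ≤ (P.p (k + 1) : ℝ) ^ 500 := pow_le_pow_right₀ hp (by norm_num)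
          _ ≤ P.p (k + 2) := hstep
          _ ≤ (P.p (k + 2) : ℝ) ^ 5 := le_self_pow₀ h5 (by norm_num)
      rw [← div_eq_inv_mul, le_div_iff₀ (by positivity)]
      have hs0 : 0 ≤ ∑ i, nsq (bT k i) := sum_nonneg fun i _ => nsq_nonneg _
      have e5 : (P.p (k + 2) : ℝ) ^ 5 * ((∑ i, nsq (bT k i)) * (P.p (k + 1) : ℝ) ^ 20) ≤
          (P.p (k + 2) : ℝ) ^ 5 * κ k ^ 2 := by
        calc (P.p (k + 2) : ℝ) ^ 5 * ((∑ i, nsq (bT k i)) * (P.p (k + 1) : ℝ) ^ 20)
            = ((P.p (k + 2) : ℝ) ^ 5 * ∑ i, nsq (bT k i)) * (P.p (k + 1) : ℝ) ^ 20 := by ring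
          _ ≤ (κ k * (2 * P.m * (P.p (k + 1) : ℝ) ^ 5 * κ k)) * (P.p (k + 1) : ℝ) ^ 20 :=
              mul_le_mul_of_nonneg_right e3 (by positivity)
          _ = (2 * (P.m : ℝ) * (P.p (k + 1) : ℝ) ^ 5 * (P.p (k + 1) : ℝ) ^ 20) * κ k ^ 2 := by ring
          _ ≤ _ := mul_le_mul_of_nonneg_right e4 (sq_nonneg _)
      exact le_of_mul_le_mul_left e5 hp2
    have hWk : ∀ k < P.K, ∑ i, nsq (W S k (bT k i)) ≤ (P.K : ℝ)⁻¹ * κ k ^ 2 := by
      intro k hk
      have h3 : (0 : ℝ) ≤ ((P.p (k + 1) : ℝ) ^ 40)⁻¹ := by positivity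
      have hK0 : (0 : ℝ) ≤ P.K := by linarith
      have h1 : ∀ i, nsq (W S k (bT k i)) ≤ P.K * (nsq (bT k i) +
          ((P.p (k + 1) : ℝ) ^ 40)⁻¹ * n1 (β k i) ^ 2) := by
        intro i
        refine (nsq_W_le hB hS k (bT k i)).trans ?_
        have h2 : n1 (bT k i) ^ 2 ≤ n1 (β k i) ^ 2 :=
          pow_le_pow_left₀ (n1_nonneg _) (hbTn1 k i) 2
        exact mul_le_mul_of_nonneg_left
          (add_le_add le_rfl (mul_le_mul_of_nonneg_left h2 h3)) hK0
      refine (sum_le_sum fun i _ => h1 i).trans ?_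
      rw [← mul_sum, sum_add_distrib, ← mul_sum]
      have h4 : ((P.p (k + 1) : ℝ) ^ 40)⁻¹ * ∑ i, n1 (β k i) ^ 2 ≤
          ((P.p (k + 1) : ℝ) ^ 20)⁻¹ * κ k ^ 2 := by
        calc ((P.p (k + 1) : ℝ) ^ 40)⁻¹ * ∑ i, n1 (β k i) ^ 2
            ≤ ((P.p (k + 1) : ℝ) ^ 40)⁻¹ *
                (4 * (P.m : ℝ) ^ 2 * (P.p (k + 1) : ℝ) ^ 10 * κ k ^ 2) :=
              mul_le_mul_of_nonneg_left (hn1 k hk) h3
          _ = (((P.p (k + 1) : ℝ) ^ 40)⁻¹ *
                (4 * (P.m : ℝ) ^ 2 * (P.p (k + 1) : ℝ) ^ 10)) * κ k ^ 2 := by ring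
          _ ≤ _ := mul_le_mul_of_nonneg_right (hinv k) (sq_nonneg _)
      have h5 := hTsq k hk
      have h6 : (P.K : ℝ) * (2 * ((P.p (k + 1) : ℝ) ^ 20)⁻¹) ≤ (P.K : ℝ)⁻¹ := by
        have hp := hp1 k
        have hpp : (0 : ℝ) < P.p (k + 1) := by linarith
        have hKK : (0 : ℝ) < P.K := by linarith
        have h7 : 2 * (P.K : ℝ) ^ 2 ≤ (P.p (k + 1) : ℝ) ^ 20 := by
          calc 2 * (P.K : ℝ) ^ 2 ≤ (1000 * (P.K : ℝ)) ^ 2 := by nlinarith
            _ ≤ (P.p (k + 1) : ℝ) := hKp k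
            _ ≤ (P.p (k + 1) : ℝ) ^ 20 := le_self_pow₀ hp (by norm_num)
        rw [show (P.K : ℝ) * (2 * ((P.p (k + 1) : ℝ) ^ 20)⁻¹) =
          (2 * (P.K : ℝ)) / (P.p (k + 1) : ℝ) ^ 20 by ring, div_le_iff₀ (by positivity),
          ← div_eq_inv_mul, le_div_iff₀ hKK]
        nlinarith
      calc (P.K : ℝ) * (∑ i, nsq (bT k i) + ((P.p (k + 1) : ℝ) ^ 40)⁻¹ * ∑ i, n1 (β k i) ^ 2)
          ≤ (P.K : ℝ) * (((P.p (k + 1) : ℝ) ^ 20)⁻¹ * κ k ^ 2 +
              ((P.p (k + 1) : ℝ) ^ 20)⁻¹ * κ k ^ 2) :=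
            mul_le_mul_of_nonneg_left (add_le_add h5 h4) hK0
        _ = ((P.K : ℝ) * (2 * ((P.p (k + 1) : ℝ) ^ 20)⁻¹)) * κ k ^ 2 := by ring
        _ ≤ _ := mul_le_mul_of_nonneg_right h6 (sq_nonneg _)
    have hXs : ∑ i, nsq (∑ k ∈ range P.K, U S k (bS k i)) ≤ 2 * M ^ 2 := by
      rw [sum_congr rfl fun i _ => hX i, sum_comm]
      calc ∑ k ∈ range P.K, ∑ i, nsq (U S k (bS k i)) ≤ ∑ k ∈ range P.K, 2 * κ k ^ 2 :=
            sum_le_sum fun k hk => hUk k (mem_range.mp hk)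
        _ = 2 * ∑ k ∈ range P.K, κ k ^ 2 := by rw [mul_sum]
        _ ≤ _ := by linarith
    have hYs : ∑ i, nsq (∑ k ∈ range P.K, W S k (bT k i)) ≤ M ^ 2 := by
      have h1 : ∀ i, nsq (∑ k ∈ range P.K, W S k (bT k i)) ≤
          P.K * ∑ k ∈ range P.K, nsq (W S k (bT k i)) := by
        intro i
        have := nsq_sum_le (range P.K) (fun k => W S k (bT k i))
        rwa [card_range] at this
      refine (sum_le_sum fun i _ => h1 i).trans ?_
      rw [← mul_sum, sum_comm]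
      have hKK : (0 : ℝ) < P.K := by linarith
      calc (P.K : ℝ) * ∑ k ∈ range P.K, ∑ i, nsq (W S k (bT k i))
          ≤ (P.K : ℝ) * ∑ k ∈ range P.K, (P.K : ℝ)⁻¹ * κ k ^ 2 :=
            mul_le_mul_of_nonneg_left (sum_le_sum fun k hk => hWk k (mem_range.mp hk)) hKK.le
        _ = ∑ k ∈ range P.K, κ k ^ 2 := by
            rw [← mul_sum, ← mul_assoc, mul_inv_cancel₀ hKK.ne', one_mul]
        _ ≤ _ := hκM
    calc ∑ i, nsq (∑ k ∈ range P.K, U S k (bS k i) + ∑ k ∈ range P.K, W S k (bT k i))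
        ≤ ∑ i, (2 * nsq (∑ k ∈ range P.K, U S k (bS k i)) +
            2 * nsq (∑ k ∈ range P.K, W S k (bT k i))) := sum_le_sum fun i _ => nsq_add_le _ _
      _ = 2 * ∑ i, nsq (∑ k ∈ range P.K, U S k (bS k i)) +
            2 * ∑ i, nsq (∑ k ∈ range P.K, W S k (bT k i)) := by
          rw [sum_add_distrib, mul_sum, mul_sum]
      _ ≤ 16 * M ^ 2 := by
          have := sq_nonneg M
          linarith
  · -- third
    have h1 : ∑ i, ∑ t, (∑ k ∈ range P.K, |β k i t|) ^ 2 ≤ 5 * ∑ k ∈ range P.K, κ k ^ 2 := by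
      refine near_orth_nu hB β κ (fun k _ => hκ k) (fun k hk => ?_) f1 (fun k hk => ?_)
      · have := hν2 k hk
        refine le_trans (le_of_eq ?_) this
        exact sum_congr rfl fun t _ => (nm_sq _).symm
      · refine (f3 k hk).trans ?_
        refine mul_le_mul_of_nonneg_right ?_ (hκ k)
        calc 2 * (P.m : ℝ) * (P.p (k + 1) : ℝ) ^ 5
            ≤ P.p (k + 1) * P.p (k + 1) * (P.p (k + 1) : ℝ) ^ 5 := by
              have h6 := h1000 k
              have h7 := hmp k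
              gcongr
              linarith
          _ = (P.p (k + 1) : ℝ) ^ 7 := by ring
    have h2 : ∀ i t, ∑ r ∈ range P.K, |bN r i t + if 1 ≤ r then bS (r - 1) i t else 0| ≤
        ∑ k ∈ range P.K, |β k i t| := by
      intro i t
      have h3 : ∀ r, |bN r i t + if 1 ≤ r then bS (r - 1) i t else 0| ≤
          |bN r i t| + |if 1 ≤ r then bS (r - 1) i t else 0| := fun r => abs_add_le _ _
      refine (sum_le_sum fun r _ => h3 r).trans ?_
      rw [sum_add_distrib]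
      set g : ℕ → ℝ := fun r => |if 1 ≤ r then bS (r - 1) i t else 0| with hg
      have hg0 : g 0 = 0 := by simp [hg]
      have hgs : ∀ k, g (k + 1) = |bS k i t| := by
        intro k; simp [hg]
      have hgle : ∑ r ∈ range P.K, g r ≤ ∑ k ∈ range P.K, |bS k i t| := by
        have h4 := Finset.sum_range_succ g P.K
        have h5 := Finset.sum_range_succ' g P.K
        rw [hg0, add_zero] at h5
        have h6 : 0 ≤ g P.K := abs_nonneg _
        rw [sum_congr rfl fun k _ => (hgs k)] at h5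
        linarith
      calc ∑ r ∈ range P.K, |bN r i t| + ∑ r ∈ range P.K, g r
          ≤ ∑ r ∈ range P.K, |bN r i t| + ∑ k ∈ range P.K, |bS k i t| := by linarith
        _ = ∑ k ∈ range P.K, (|bN k i t| + |bS k i t|) := by rw [sum_add_distrib]
        _ ≤ _ := sum_le_sum fun k _ => habs k i t
    calc ∑ i, ∑ t, (∑ r ∈ range P.K, |bN r i t + if 1 ≤ r then bS (r - 1) i t else 0|) ^ 2
        ≤ ∑ i, ∑ t, (∑ k ∈ range P.K, |β k i t|) ^ 2 := by
          refine sum_le_sum fun i _ => sum_le_sum fun t _ => ?_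
          exact pow_le_pow_left₀ (sum_nonneg fun r _ => abs_nonneg _) (h2 i t) 2
      _ ≤ 5 * ∑ k ∈ range P.K, κ k ^ 2 := h1
      _ ≤ 10 * M ^ 2 := by
          have := sq_nonneg M
          linarith
  · -- fourth
    intro r hr
    set R1 : Finset (Fin P.T) := univ.filter fun t => κ r < (P.p (r + 1) : ℝ) ^ 5 * ν r t with hR1
    set R2 : Finset (Fin P.T) := univ.filter fun t =>
      1 ≤ r ∧ κ (r - 1) < (P.p (r + 1) : ℝ) ^ 5 * ν (r - 1) t with hR2
    have hsub : (univ.filter fun t => ∃ i, (bN r i t + if 1 ≤ r then bS (r - 1) i t else 0) ≠ 0) ⊆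
        R1 ∪ R2 := by
      intro t ht
      simp only [mem_filter, mem_univ, true_and] at ht
      obtain ⟨i, hi⟩ := ht
      by_contra hcon
      rw [mem_union, not_or] at hcon
      obtain ⟨hc1, hc2⟩ := hcon
      simp only [hR1, hR2, mem_filter, mem_univ, true_and] at hc1 hc2
      apply hi
      have h1 : bN r i t = 0 := by simp only [hbN, if_neg hc1]
      rw [h1, zero_add]
      by_cases h2 : 1 ≤ r
      · rw [if_pos h2]
        have h3 : ¬ κ (r - 1) < (P.p (r + 1) : ℝ) ^ 5 * ν (r - 1) t := fun h => hc2 ⟨h2, h⟩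
        have h4 : r - 1 + 2 = r + 1 := by omega
        simp only [hbS, h4]
        rw [if_neg h3]
        simp
      · rw [if_neg h2]
    have hc1 : (R1.card : ℝ) ≤ ((P.p (r + 1) : ℝ) ^ 5) ^ 2 := by
      refine twa_cheb (ν r) (κ r) _ (hν0 r) (hκ r) (hν2 r hr) R1 fun t ht => ?_
      simpa [hR1] using ht
    have hc2 : (R2.card : ℝ) ≤ ((P.p (r + 1) : ℝ) ^ 5) ^ 2 := by
      by_cases h2 : 1 ≤ r
      · refine twa_cheb (ν (r - 1)) (κ (r - 1)) _ (hν0 _) (hκ _) (hν2 (r - 1) (by omega)) R2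
          fun t ht => ?_
        have := (by simpa [hR2] using ht :
          1 ≤ r ∧ κ (r - 1) < (P.p (r + 1) : ℝ) ^ 5 * ν (r - 1) t)
        exact this.2
      · have : R2 = ∅ := by
          rw [Finset.eq_empty_iff_forall_notMem]
          intro t ht
          simp only [hR2, mem_filter, mem_univ, true_and] at ht
          exact h2 ht.1
        rw [this]
        simp only [card_empty, Nat.cast_zero]
        positivity
    have hfin : ((R1 ∪ R2).card : ℝ) ≤ ((2 * P.p (r + 1) ^ 10 : ℕ) : ℝ) := by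
      have h3 : ((R1 ∪ R2).card : ℝ) ≤ (R1.card : ℝ) + (R2.card : ℝ) := by
        exact_mod_cast card_union_le R1 R2
      push_cast
      have h4 : ((P.p (r + 1) : ℝ) ^ 5) ^ 2 = (P.p (r + 1) : ℝ) ^ 10 := by rw [← pow_mul]
      rw [h4] at hc1 hc2
      linarith
    exact (card_le_card hsub).trans (by exact_mod_cast hfin)
  · -- fifth
    intro r hr t
    have hp0 : (0 : ℝ) ≤ (P.p r : ℝ) ^ 5 := by positivity
    have h1 : nm (fun i => bN r i t + if 1 ≤ r then bS (r - 1) i t else 0) ≤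
        nm (fun i => bN r i t) + nm (fun i => if 1 ≤ r then bS (r - 1) i t else 0) :=
      nm_add_le _ _
    have h2 : (P.p r : ℝ) ^ 5 * nm (fun i => bN r i t) ≤ M := by
      by_cases hc : κ r < (P.p (r + 1) : ℝ) ^ 5 * ν r t
      · have : (fun i => bN r i t) = fun i => β r i t := by
          funext i; simp only [hbN, if_pos hc]
        rw [this]
        exact (f1 r hr t).trans (hκleM r hr)
      · have : (fun i => bN r i t) = (0 : I → ℝ) := by
          funext i; simp only [hbN, if_neg hc, Pi.zero_apply]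
        rw [this, nm_zero, mul_zero]
        exact hM
    have h3 : (P.p r : ℝ) ^ 5 * nm (fun i => if 1 ≤ r then bS (r - 1) i t else 0) ≤ M := by
      by_cases hr1 : 1 ≤ r
      · have hr2 : r - 1 + 1 = r := by omega
        by_cases hc : κ (r - 1) < (P.p (r - 1 + 1) : ℝ) ^ 5 * ν (r - 1) t
        · have : (fun i => if 1 ≤ r then bS (r - 1) i t else 0) = (0 : I → ℝ) := by
            funext i
            rw [if_pos hr1]
            simp only [hbS, if_pos hc, Pi.zero_apply]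
          rw [this, nm_zero, mul_zero]
          exact hM
        · by_cases hd : κ (r - 1) < (P.p (r - 1 + 2) : ℝ) ^ 5 * ν (r - 1) t
          · have : (fun i => if 1 ≤ r then bS (r - 1) i t else 0) = fun i => β (r - 1) i t := by
              funext i
              rw [if_pos hr1]
              simp only [hbS, if_neg hc, if_pos hd]
            rw [this]
            push Not at hc
            rw [hr2] at hc
            exact hc.trans (hκleM (r - 1) (by omega))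
          · have : (fun i => if 1 ≤ r then bS (r - 1) i t else 0) = (0 : I → ℝ) := by
              funext i
              rw [if_pos hr1]
              simp only [hbS, if_neg hc, if_neg hd, Pi.zero_apply]
            rw [this, nm_zero, mul_zero]
            exact hM
      · have : (fun i => if 1 ≤ r then bS (r - 1) i t else 0) = (0 : I → ℝ) := by
          funext i
          rw [if_neg hr1, Pi.zero_apply]
        rw [this, nm_zero, mul_zero]
        exact hM
    calc (P.p r : ℝ) ^ 5 * nm (fun i => bN r i t + if 1 ≤ r then bS (r - 1) i t else 0)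
        ≤ (P.p r : ℝ) ^ 5 * (nm (fun i => bN r i t) +
            nm (fun i => if 1 ≤ r then bS (r - 1) i t else 0)) :=
          mul_le_mul_of_nonneg_left h1 hp0
      _ = (P.p r : ℝ) ^ 5 * nm (fun i => bN r i t) +
            (P.p r : ℝ) ^ 5 * nm (fun i => if 1 ≤ r then bS (r - 1) i t else 0) := mul_add _ _ _
      _ ≤ 2 * M := by linarith

end Pool.Agent.PEL
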