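import Pool.Agent.PEL.Peak

/-!
# PEL-TTWOB : Sigma_1 (4.5 of the text), for one vector `x`

`qr S x r t` = the largest `q ≤ r` with `t ∉ Pk S q x` (`Pk S 0 x = ∅`).
`sigma1`: split by `q = qr r t`. `q = r`: `t ∈ {B r t ≠ 0} \ Pk r`, cut into two sets with at most `p_{r+1}^{10}` elements: `peak_l2`, Cauchy-Schwarz:
`≤ 2 · 2 Nq_r |B r|_2` (in total `≤ 4 (∑ Nq²)^{1/2} (∑_r |B r|²)^{1/2}`). `q < r`: `t ∈ Pk (q+1) \ Pk q`, `|Pk (q+1)| < p_{q+1}^{10}`: for fixed `q` the sum over `r > q` and `t` is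
`≤ ∑_{t ∈ Pk(q+1)\Pk q} |aq q x t| b_q(t)`, `b_q(t) = ∑_{r>q, qr r t = q} |B r t|`, `≤ 2Nq_q |b_q|_2`; `∑_q b_q(t)² ≤ (∑_r |B r t|)²`. Total `≤ 6`. `∑_q Nq² ≤ nrm²` (`sum_Nq_sq_le`).
-/

set_option autoImplicit false

namespace Pool.Agent.PEL

open Finset

variable {P : Par} {S : P.Sam}

/-- the largest `q ≤ r` such that `t` is not in the peaked set of `q` -/
noncomputable def qr (S : P.Sam) (x : P.A → ℝ) (r : ℕ) (t : Fin P.T) : ℕ :=
  open Classical in Nat.findGreatest (fun q => t ∉ Pk S q x) r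

theorem qr_le (x : P.A → ℝ) (r : ℕ) (t : Fin P.T) : qr S x r t ≤ r := by
  classical
  unfold qr
  exact Nat.findGreatest_le r

theorem qr_spec (hB : P.Big) (hS : Good P S) (x : P.A → ℝ) (r : ℕ) (t : Fin P.T) :
    t ∉ Pk S (qr S x r t) x := by
  classical
  unfold qr
  refine Nat.findGreatest_spec (P := fun q => t ∉ Pk S q x) (m := 0) (Nat.zero_le _) ?_
  rw [peak_zero hB hS]
  exact Finset.notMem_empty t

theorem qr_lt (x : P.A → ℝ) {r q : ℕ} {t : Fin P.T} (h : qr S x r t < q) (h' : q ≤ r) :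
    t ∈ Pk S q x := by
  classical
  unfold qr at h
  by_contra hc
  exact Nat.findGreatest_is_greatest (P := fun q => t ∉ Pk S q x) h h' hc

/-- `peak_l2` for sets of double size -/
theorem peak_l2_two (hB : P.Big) (hS : Good P S) (q : ℕ) (x : P.A → ℝ) (R : Finset (Fin P.T))
    (hR : R.card ≤ 2 * P.p (q + 1) ^ 10) (hd : ∀ t ∈ R, t ∉ Pk S q x) :
    ∑ t ∈ R, aq S q x t ^ 2 ≤ 2 * (2 * Nq S q x) ^ 2 := by
  classical
  by_cases h : R.card ≤ P.p (q + 1) ^ 10
  · have h1 := peak_l2 hB hS q x R h hd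
    have h2 : 0 ≤ (2 * Nq S q x) ^ 2 := sq_nonneg _
    linarith
  · obtain ⟨R1, hR1, hc⟩ := Finset.exists_subset_card_eq (le_of_not_ge h)
    have h1 := peak_l2 hB hS q x R1 hc.le fun t ht => hd t (hR1 ht)
    have h2 := peak_l2 hB hS q x (R \ R1) (by rw [card_sdiff_of_subset hR1, hc]; omega)
      fun t ht => hd t (mem_sdiff.mp ht).1
    have h3 := Finset.sum_sdiff hR1 (f := fun t => aq S q x t ^ 2)
    linarith

/-- the part of `B` sent to class `q` -/
noncomputable def cq (S : P.Sam) (x : P.A → ℝ) (B : ℕ → Fin P.T → ℝ) (q : ℕ) (t : Fin P.T) : ℝ :=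
  ∑ r ∈ range P.K, if qr S x r t = q then |B r t| else 0

theorem cq_nonneg (x : P.A → ℝ) (B : ℕ → Fin P.T → ℝ) (q : ℕ) (t : Fin P.T) :
    0 ≤ cq S x B q t := by
  unfold cq
  refine sum_nonneg fun r _ => ?_
  split_ifs
  · exact abs_nonneg _
  · exact le_rfl

theorem sum_cq (x : P.A → ℝ) (B : ℕ → Fin P.T → ℝ) (t : Fin P.T) :
    ∑ q ∈ range P.K, cq S x B q t = ∑ r ∈ range P.K, |B r t| := by
  unfold cq
  rw [sum_comm]
  refine sum_congr rfl fun r hr => ?_
  rw [Finset.sum_ite_eq, if_pos]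
  exact mem_range.mpr (lt_of_le_of_lt (qr_le x r t) (mem_range.mp hr))

theorem sum_cq_sq_le (x : P.A → ℝ) (B : ℕ → Fin P.T → ℝ) (t : Fin P.T) :
    ∑ q ∈ range P.K, cq S x B q t ^ 2 ≤ (∑ r ∈ range P.K, |B r t|) ^ 2 := by
  rw [← sum_cq (S := S) x B t]
  exact Finset.sum_sq_le_sq_sum_of_nonneg fun q _ => cq_nonneg x B q t

/-- one class -/
theorem sigma1_class (hB : P.Big) (hS : Good P S) (x : P.A → ℝ) (B : ℕ → Fin P.T → ℝ) (q : ℕ)
    (hq : q < P.K)
    (hsup : ∀ r < P.K, (univ.filter fun t => B r t ≠ 0).card ≤ 2 * P.p (r + 1) ^ 10) :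
    ∑ t, cq S x B q t * |aq S q x t| ≤ 6 * Nq S q x * nm (cq S x B q) := by
  classical
  set R1 := univ.filter fun t : Fin P.T => B q t ≠ 0 ∧ t ∉ Pk S q x with hR1
  set R2 := univ.filter fun t : Fin P.T => t ∈ Pk S (q + 1) x ∧ t ∉ Pk S q x with hR2
  have hN := Nq_nonneg hB hS q x
  have h1 : ∑ t ∈ R1, aq S q x t ^ 2 ≤ 2 * (2 * Nq S q x) ^ 2 := by
    apply peak_l2_two hB hS
    · refine (card_le_card ?_).trans (hsup q hq)
      intro t ht
      rw [hR1, mem_filter] at ht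
      exact mem_filter.mpr ⟨mem_univ _, ht.2.1⟩
    · intro t ht
      rw [hR1, mem_filter] at ht
      exact ht.2.2
  have h2 : ∑ t ∈ R2, aq S q x t ^ 2 ≤ (2 * Nq S q x) ^ 2 := by
    apply peak_l2 hB hS
    · refine (card_le_card ?_).trans (peak_card hB hS (q + 1) x).le
      intro t ht
      rw [hR2, mem_filter] at ht
      exact ht.2.1
    · intro t ht
      rw [hR2, mem_filter] at ht
      exact ht.2.2
  set R := R1 ∪ R2 with hR
  have h3 : ∑ t ∈ R, aq S q x t ^ 2 ≤ 3 * (2 * Nq S q x) ^ 2 := by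
    have h4 : ∑ t ∈ R, aq S q x t ^ 2 ≤ ∑ t ∈ R1, aq S q x t ^ 2 + ∑ t ∈ R2, aq S q x t ^ 2 := by
      rw [hR, ← Finset.union_sdiff_self_eq_union, Finset.sum_union Finset.disjoint_sdiff]
      refine add_le_add le_rfl ?_
      exact sum_le_sum_of_subset_of_nonneg sdiff_subset fun t _ _ => sq_nonneg _
    linarith
  -- support
  have h5 : ∑ t, cq S x B q t * |aq S q x t| = ∑ t ∈ R, cq S x B q t * |aq S q x t| := by
    symm
    apply sum_subset (subset_univ _)
    intro t _ ht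
    have hc : cq S x B q t = 0 := by
      unfold cq
      refine sum_eq_zero fun r hr => ?_
      split_ifs with hqr
      · by_contra hne
        have hne' : B r t ≠ 0 := fun h => hne (by rw [h, abs_zero])
        apply ht
        have hsp := qr_spec hB hS x r t
        rw [hqr] at hsp
        have hle := qr_le (S := S) x r t
        rw [hqr] at hle
        rcases hle.eq_or_lt with he | hl
        · rw [hR, mem_union]
          left
          rw [hR1, mem_filter]
          exact ⟨mem_univ _, by rw [he]; exact hne', hsp⟩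
        · rw [hR, mem_union]
          right
          rw [hR2, mem_filter]
          refine ⟨mem_univ _, qr_lt x (r := r) ?_ ?_, hsp⟩
          · rw [hqr]; omega
          · omega
      · rfl
    rw [hc, zero_mul]
  rw [h5]
  have h6 : (∑ t ∈ R, cq S x B q t * |aq S q x t|) ^ 2 ≤ (6 * Nq S q x * nm (cq S x B q)) ^ 2 := by
    have h7 := sum_mul_sq_le_sq_mul_sq R (cq S x B q) (fun t => |aq S q x t|)
    simp only [sq_abs] at h7
    refine h7.trans ?_
    have h8 : ∑ t ∈ R, cq S x B q t ^ 2 ≤ nm (cq S x B q) ^ 2 := by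
      rw [nm_sq]
      exact sum_le_sum_of_subset_of_nonneg (subset_univ _) fun t _ _ => sq_nonneg _
    calc (∑ t ∈ R, cq S x B q t ^ 2) * ∑ t ∈ R, aq S q x t ^ 2
        ≤ nm (cq S x B q) ^ 2 * (3 * (2 * Nq S q x) ^ 2) :=
          mul_le_mul h8 h3 (sum_nonneg fun t _ => sq_nonneg _) (sq_nonneg _)
      _ = 12 * (Nq S q x ^ 2 * nm (cq S x B q) ^ 2) := by ring
      _ ≤ 36 * (Nq S q x ^ 2 * nm (cq S x B q) ^ 2) :=
          mul_le_mul_of_nonneg_right (by norm_num) (by positivity)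
      _ = _ := by ring
  exact (abs_le_of_sq_le_sq' h6 (mul_nonneg (mul_nonneg (by norm_num) hN) (nm_nonneg _))).2

theorem sigma1 (hB : P.Big) (hS : Good P S) (x : P.A → ℝ) (B : ℕ → Fin P.T → ℝ)
    (hsup : ∀ r < P.K, (univ.filter fun t => B r t ≠ 0).card ≤ 2 * P.p (r + 1) ^ 10) :
    ∑ r ∈ range P.K, ∑ t, B r t * aq S (qr S x r t) x t ≤
      6 * nrm S x * Real.sqrt (∑ t, (∑ r ∈ range P.K, |B r t|) ^ 2) := by
  classical
  have h1 : ∑ r ∈ range P.K, ∑ t, B r t * aq S (qr S x r t) x t ≤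
      ∑ q ∈ range P.K, ∑ t, cq S x B q t * |aq S q x t| := by
    have e : ∑ q ∈ range P.K, ∑ t, cq S x B q t * |aq S q x t| =
        ∑ r ∈ range P.K, ∑ t, |B r t| * |aq S (qr S x r t) x t| := by
      rw [sum_comm, sum_comm (s := range P.K) (t := univ)]
      refine sum_congr rfl fun t _ => ?_
      unfold cq
      have e1 : ∀ q ∈ range P.K, (∑ r ∈ range P.K, if qr S x r t = q then |B r t| else 0) *
          |aq S q x t| = ∑ r ∈ range P.K, if qr S x r t = q then |B r t| * |aq S (qr S x r t) x t|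
            else 0 := by
        intro q _
        rw [sum_mul]
        refine sum_congr rfl fun r _ => ?_
        split_ifs with h
        · rw [h]
        · rw [zero_mul]
      rw [sum_congr rfl e1, sum_comm]
      refine sum_congr rfl fun r hr => ?_
      rw [Finset.sum_ite_eq, if_pos]
      exact mem_range.mpr (lt_of_le_of_lt (qr_le x r t) (mem_range.mp hr))
    rw [e]
    refine sum_le_sum fun r _ => sum_le_sum fun t _ => ?_
    rw [← abs_mul]
    exact le_abs_self _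
  have h2 : ∑ q ∈ range P.K, ∑ t, cq S x B q t * |aq S q x t| ≤
      ∑ q ∈ range P.K, 6 * (Nq S q x * nm (cq S x B q)) := by
    refine sum_le_sum fun q hq => ?_
    rw [← mul_assoc]
    exact sigma1_class hB hS x B q (mem_range.mp hq) hsup
  refine h1.trans (h2.trans ?_)
  rw [← mul_sum, mul_assoc]
  refine mul_le_mul_of_nonneg_left ?_ (by norm_num)
  have h3 := sum_mul_sq_le_sq_mul_sq (range P.K) (fun q => Nq S q x) (fun q => nm (cq S x B q))
  have h4 : ∑ q ∈ range P.K, nm (cq S x B q) ^ 2 ≤ ∑ t, (∑ r ∈ range P.K, |B r t|) ^ 2 := by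
    have e : ∑ q ∈ range P.K, nm (cq S x B q) ^ 2 = ∑ t, ∑ q ∈ range P.K, cq S x B q t ^ 2 := by
      rw [sum_comm]
      exact sum_congr rfl fun q _ => nm_sq _
    rw [e]
    exact sum_le_sum fun t _ => sum_cq_sq_le x B t
  have h5 : (∑ q ∈ range P.K, Nq S q x * nm (cq S x B q)) ^ 2 ≤
      (nrm S x * Real.sqrt (∑ t, (∑ r ∈ range P.K, |B r t|) ^ 2)) ^ 2 := by
    rw [mul_pow, Real.sq_sqrt (sum_nonneg fun t _ => sq_nonneg _)]
    exact h3.trans (mul_le_mul (sum_Nq_sq_le hB hS x) h4 (sum_nonneg fun q _ => sq_nonneg _)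
      (sq_nonneg _))
  exact (abs_le_of_sq_le_sq' h5 (mul_nonneg (nrm_nonneg hB hS x) (Real.sqrt_nonneg _))).2

end Pool.Agent.PEL
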