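import Pool.Agent.PEL.ClsLem
import Pool.Agent.PEL.Peak
import Pool.Agent.PEL.TTwoA
import Pool.Agent.PEL.TTwoB

/-!
# PEL-TTWO : type 2 of `F` (4.5 of the text)

For every `δ` norm `x(δ) = ∑ δ_i x_i` by `exists_rep_norming`, unfold `Rep`, take first Walsh coefficients, etc.; see 4.5.
The cluster property is used with `I = Unit` for every single `i`: `DN S F (∑_l U_l ζ_l) ≤ (Γ)^{1/2} zb` (`DN(-v) = DN v`), and `x_i ∈ F`.
-/

set_option autoImplicit false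

namespace Pool.Agent.PEL

open Finset

variable {P : Par} {S : P.Sam}

section walsh
variable {I ι : Type} [Fintype I] [DecidableEq I] [Fintype ι]

/-- first Walsh coefficients of a vector valued function -/
noncomputable def wc (f : (I → Bool) → ι → ℝ) (i : I) : ι → ℝ :=
  fun a => av fun δ : I → Bool => sg (δ i) * f δ a

theorem ip_wc (x : ι → ℝ) (f : (I → Bool) → ι → ℝ) (i : I) :
    ip x (wc f i) = av fun δ => sg (δ i) * ip x (f δ) := by
  unfold ip wc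
  have h : ∀ a, x a * av (fun δ : I → Bool => sg (δ i) * f δ a)
      = av fun δ : I → Bool => x a * (sg (δ i) * f δ a) := fun a => (av_mul_left _ _).symm
  rw [sum_congr rfl fun a _ => h a, ← av_sum]
  refine av_congr fun δ => ?_
  rw [mul_sum]; exact sum_congr rfl fun a _ => by ring

theorem wc_W (k : ℕ) (f : (I → Bool) → Fin P.T → ℝ) (i : I) :
    wc (fun δ => W S k (f δ)) i = W S k (wc f i) := by
  funext a
  simp only [wc, W, V]
  split_ifs with h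
  · have h1 : ∀ t, (av fun δ : I → Bool => sg (δ i) * f δ t) * sg (S t a)
        = av fun δ : I → Bool => sg (δ i) * f δ t * sg (S t a) := fun t => (av_mul_right _ _).symm
    rw [sum_congr rfl fun t _ => h1 t, ← av_sum, ← av_mul_left]
    refine av_congr fun δ => ?_
    rw [mul_sum, mul_sum, mul_sum]
    exact sum_congr rfl fun t _ => by ring
  · simp [av]

end walsh

/-- the Walsh reduction of 4.5 -/
theorem ttwo_reduce (hB : P.Big) (hS : Good P S) {I : Type} [Fintype I] [DecidableEq I]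
    (x : I → P.A → ℝ) :
    ∃ (b : I → P.A → ℝ) (β : ℕ → I → Fin P.T → ℝ) (κ : ℕ → ℝ) (M : ℝ), 0 ≤ M ∧
      M ^ 2 = av (fun δ : I → Bool => nrm S (∑ i, sg (δ i) • x i) ^ 2) ∧
      (∀ k, 0 ≤ κ k) ∧ ∑ k ∈ range P.K, κ k ^ 2 ≤ M ^ 2 ∧
      (∀ k < P.K, ∀ t, (P.p k : ℝ) ^ 5 * nm (fun i => β k i t) ≤ κ k) ∧
      (∀ k < P.K, ∑ i, nsq (β k i) ≤ κ k ^ 2) ∧
      (∀ k < P.K, ∑ t, nm (fun i => β k i t) ≤ 2 * P.m * (P.p (k + 1) : ℝ) ^ 5 * κ k) ∧
      ∑ i, nsq (b i) ≤ M ^ 2 ∧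
      M ^ 2 = ∑ i, ip (x i) (b i + ∑ k ∈ range P.K, W S k (β k i)) := by
  choose v hv hv2 using fun δ : I → Bool => exists_rep_norming hB hS (∑ i, sg (δ i) • x i)
  choose b' β' ρ' h1 h2 h3 using fun δ : I → Bool => (hv δ).2
  set A2 : ℝ := av (fun δ : I → Bool => nrm S (∑ i, sg (δ i) • x i) ^ 2) with hA2
  have hA20 : 0 ≤ A2 := av_nonneg fun δ => sq_nonneg _
  have hM2 : Real.sqrt A2 ^ 2 = A2 := Real.sq_sqrt hA20
  have hκ2 : ∀ k, Real.sqrt (av fun δ : I → Bool => ρ' δ k ^ 2) ^ 2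
      = av fun δ : I → Bool => ρ' δ k ^ 2 := fun k => Real.sq_sqrt (av_nonneg fun δ => sq_nonneg _)
  have hbρ : av (fun δ : I → Bool => nsq (b' δ)) + ∑ k ∈ range P.K, av (fun δ : I → Bool => ρ' δ k ^ 2)
      ≤ A2 := by
    rw [← av_sum, ← av_add]
    exact av_mono h3
  have hb0 : 0 ≤ av (fun δ : I → Bool => nsq (b' δ)) := av_nonneg fun δ => nsq_nonneg _
  have hρ0 : 0 ≤ ∑ k ∈ range P.K, av (fun δ : I → Bool => ρ' δ k ^ 2) :=
    sum_nonneg fun k _ => av_nonneg fun δ => sq_nonneg _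
  refine ⟨wc b', fun k => wc fun δ => β' δ k, fun k => Real.sqrt (av fun δ => ρ' δ k ^ 2),
    Real.sqrt A2, Real.sqrt_nonneg _, hM2, fun k => Real.sqrt_nonneg _, ?_, ?_, ?_, ?_, ?_, ?_⟩
  · rw [hM2, sum_congr rfl fun k _ => hκ2 k]
    linarith
  · intro k hk t
    have hp : (0 : ℝ) ≤ P.p k := (hB.p_pos_real k).le
    refine le_of_sq_le_sq ?_ (Real.sqrt_nonneg _)
    rw [mul_pow, nm_sq, hκ2, ← pow_mul]
    have h4 : nsq (fun i => wc (fun δ => β' δ k) i t) ≤ av fun δ => β' δ k t ^ 2 :=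
      bessel fun δ => β' δ k t
    calc (P.p k : ℝ) ^ (5 * 2) * nsq (fun i => wc (fun δ => β' δ k) i t)
        ≤ (P.p k : ℝ) ^ 10 * av fun δ => β' δ k t ^ 2 := by gcongr
      _ = av fun δ => (P.p k : ℝ) ^ 10 * β' δ k t ^ 2 := (av_mul_left _ _).symm
      _ ≤ _ := av_mono fun δ => (h2 δ k hk).inf t
  · intro k hk
    rw [hκ2]
    exact (bessel_vec fun δ => β' δ k).trans (av_mono fun δ => (h2 δ k hk).two)
  · intro k hk
    have hp : (1 : ℝ) ≤ P.p (k + 1) := hB.one_le_p_real (k + 1)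
    refine walsh_l1 hB (fun δ => β' δ k) ((P.p (k + 1) : ℝ) ^ 5) _ (one_le_pow₀ hp)
      (Real.sqrt_nonneg _) ?_ ?_
    · rw [hκ2, ← av_mul_left]
      refine av_mono fun δ => ?_
      rw [← mul_pow]
      exact pow_le_pow_left₀ (n1_nonneg _) (h2 δ k hk).one 2
    · rw [hκ2]
      exact av_mono fun δ => (h2 δ k hk).two
  · rw [hM2]
    exact (bessel_vec b').trans (by linarith)
  · rw [hM2, hA2]
    have e1 : ∀ δ : I → Bool, nrm S (∑ i, sg (δ i) • x i) ^ 2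
        = ∑ i, sg (δ i) * ip (x i) (v δ) := by
      intro δ
      rw [← hv2 δ, ip_sum_left]
      exact sum_congr rfl fun i _ => ip_smul_left _ _ _
    rw [av_congr e1, av_sum]
    refine sum_congr rfl fun i _ => ?_
    rw [← ip_wc]
    congr 1
    have e2 : ∀ k, W S k (wc (fun δ => β' δ k) i) = wc (fun δ => W S k (β' δ k)) i :=
      fun k => (wc_W k _ i).symm
    rw [sum_congr rfl fun k _ => e2 k]
    funext a
    simp only [wc, Pi.add_apply, Finset.sum_apply]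
    rw [← av_sum, ← av_add]
    refine av_congr fun δ => ?_
    have e3 := congrFun (h1 δ) a
    rw [Pi.add_apply, Finset.sum_apply] at e3
    rw [e3, mul_add, mul_sum]

section split
variable {F : Submodule ℝ (P.A → ℝ)}

/-- the part of the re-routed coefficients with `r = l + 1` -/
noncomputable def y1 (S : P.Sam) (x : P.A → ℝ) (B : ℕ → Fin P.T → ℝ) (l : ℕ) : Fin P.T → ℝ :=
  fun t => if l + 1 < P.K ∧ qr S x (l + 1) t ≤ l then B (l + 1) t else 0

/-- the part of the re-routed coefficients with `r ≥ l + 2` -/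
noncomputable def y2 (S : P.Sam) (x : P.A → ℝ) (B : ℕ → Fin P.T → ℝ) (l : ℕ) : Fin P.T → ℝ :=
  fun t => ∑ r ∈ Ico (l + 2) P.K, if qr S x r t ≤ l then B r t else 0

theorem y1_add_y2 (x : P.A → ℝ) (B : ℕ → Fin P.T → ℝ) (l : ℕ) (t : Fin P.T) :
    (y1 S x B l + y2 S x B l) t =
      ∑ r ∈ Ico (l + 1) P.K, if qr S x r t ≤ l then B r t else 0 := by
  rw [Pi.add_apply]
  simp only [y1, y2]
  by_cases h : l + 1 < P.K
  · rw [Finset.sum_eq_sum_Ico_succ_bot h]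
    simp only [h, true_and]
  · rw [if_neg (fun h' => h h'.1), Finset.Ico_eq_empty (by omega), Finset.Ico_eq_empty (by omega)]
    simp

theorem ip_U_eq (l : ℕ) (x : P.A → ℝ) (β : Fin P.T → ℝ) :
    ip x (U S l β) = ∑ t, β t * ip x (U S l (Pi.single t 1)) := by
  have h : β = ∑ t, β t • (Pi.single t 1 : Fin P.T → ℝ) := by
    funext s
    simp [Finset.sum_apply, Pi.single_apply]
  conv_lhs => rw [h]
  rw [U_sum, ip_sum_right]
  refine Finset.sum_congr rfl fun t _ => ?_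
  rw [U_smul, ip_smul_right]

theorem sum_swap_aux (K : ℕ) {τ : Type} [Fintype τ] (q : ℕ → τ → ℕ) (f : ℕ → τ → ℕ → ℝ) :
    ∑ r ∈ range K, ∑ t, ∑ l ∈ Ico (q r t) r, f r t l =
      ∑ l ∈ range K, ∑ t, ∑ r ∈ Ico (l + 1) K, if q r t ≤ l then f r t l else 0 := by
  rw [Finset.sum_comm, Finset.sum_comm (s := range K)]
  refine sum_congr rfl fun t _ => ?_
  have h1 : ∀ r ∈ range K, ∑ l ∈ Ico (q r t) r, f r t l =
      ∑ l ∈ range K, if q r t ≤ l ∧ l < r then f r t l else 0 := by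
    intro r hr
    rw [← Finset.sum_filter]
    refine sum_congr ?_ fun _ _ => rfl
    ext l
    rw [Finset.mem_range] at hr
    simp only [Finset.mem_Ico, Finset.mem_filter, Finset.mem_range]
    omega
  have h2 : ∀ l ∈ range K, (∑ r ∈ Ico (l + 1) K, if q r t ≤ l then f r t l else 0) =
      ∑ r ∈ range K, if q r t ≤ l ∧ l < r then f r t l else 0 := by
    intro l _
    have h3 : Ico (l + 1) K = (range K).filter fun r => l < r := by
      ext r
      simp only [Finset.mem_Ico, Finset.mem_filter, Finset.mem_range]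
      omega
    rw [h3, Finset.sum_filter]
    refine sum_congr rfl fun r _ => ?_
    by_cases h4 : l < r <;> by_cases h5 : q r t ≤ l <;> simp [h4, h5]
  rw [sum_congr rfl h1, sum_congr rfl h2, Finset.sum_comm]

theorem ttwo_split (x : P.A → ℝ) (B : ℕ → Fin P.T → ℝ) :
    ip x (∑ r ∈ range P.K, W S r (B r)) =
      ∑ r ∈ range P.K, ∑ t, B r t * aq S (qr S x r t) x t
        - ip x (∑ l ∈ range P.K, U S l (y1 S x B l + y2 S x B l)) := by
  have e1 : ∀ r t, aq S (qr S x r t) x t =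
      aq S r x t + ∑ l ∈ Ico (qr S x r t) r, ip x (U S l (Pi.single t 1)) := by
    intro r t
    unfold aq
    rw [W_eq_add_sum (qr_le x r t), ip_add_right, ip_sum_right]
  have e2 : ∑ r ∈ range P.K, ∑ t, B r t * aq S (qr S x r t) x t =
      ∑ r ∈ range P.K, ∑ t, B r t * aq S r x t +
        ∑ r ∈ range P.K, ∑ t, ∑ l ∈ Ico (qr S x r t) r,
          B r t * ip x (U S l (Pi.single t 1)) := by
    rw [← sum_add_distrib]
    refine sum_congr rfl fun r _ => ?_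
    rw [← sum_add_distrib]
    refine sum_congr rfl fun t _ => ?_
    rw [e1 r t, mul_add, mul_sum]
  have e3 : ip x (∑ l ∈ range P.K, U S l (y1 S x B l + y2 S x B l)) =
      ∑ l ∈ range P.K, ∑ t, ∑ r ∈ Ico (l + 1) P.K,
        if qr S x r t ≤ l then B r t * ip x (U S l (Pi.single t 1)) else 0 := by
    rw [ip_sum_right]
    refine sum_congr rfl fun l _ => ?_
    rw [ip_U_eq]
    refine sum_congr rfl fun t _ => ?_
    rw [y1_add_y2, sum_mul]
    refine sum_congr rfl fun r _ => ?_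
    split_ifs <;> simp
  rw [e2, e3, sum_swap_aux, ip_sum_right]
  rw [sum_congr rfl fun r _ => ip_W_eq r x (B r)]
  ring

/-- total mass at `t` -/
theorem abs_y1_sum_le (x : P.A → ℝ) (B : ℕ → Fin P.T → ℝ) (t : Fin P.T) :
    ∑ l ∈ range P.K, |y1 S x B l t| ≤ ∑ r ∈ range P.K, |B r t| := by
  have h1 : ∀ l, |y1 S x B l t| ≤ if l + 1 < P.K then |B (l + 1) t| else 0 := by
    intro l
    simp only [y1]
    by_cases h : l + 1 < P.K
    · rw [if_pos h]
      split_ifs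
      · exact le_rfl
      · rw [abs_zero]; exact abs_nonneg _
    · rw [if_neg h, if_neg (fun h' => h h'.1), abs_zero]
  refine (sum_le_sum fun l _ => h1 l).trans ?_
  have h2 := Finset.sum_range_succ' (fun r => if r < P.K then |B r t| else 0) P.K
  have h3 := Finset.sum_range_succ (fun r => if r < P.K then |B r t| else 0) P.K
  rw [if_neg (lt_irrefl _), add_zero] at h3
  have h4 : ∑ r ∈ range P.K, (if r < P.K then |B r t| else 0) = ∑ r ∈ range P.K, |B r t| :=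
    sum_congr rfl fun r hr => if_pos (Finset.mem_range.mp hr)
  have h5 : 0 ≤ (if 0 < P.K then |B 0 t| else 0) := by split_ifs <;> positivity
  linarith

theorem abs_y2_le (x : P.A → ℝ) (B : ℕ → Fin P.T → ℝ) (l : ℕ) (t : Fin P.T) :
    |y2 S x B l t| ≤ ∑ r ∈ Ico (l + 2) P.K, |B r t| := by
  simp only [y2]
  refine (abs_sum_le_sum_abs _ _).trans (sum_le_sum fun r _ => ?_)
  split_ifs
  · exact le_rfl
  · rw [abs_zero]; exact abs_nonneg _

theorem abs_y2_le' (x : P.A → ℝ) (B : ℕ → Fin P.T → ℝ) (l : ℕ) (t : Fin P.T) :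
    |y2 S x B l t| ≤ ∑ r ∈ range P.K, |B r t| := by
  refine (abs_y2_le x B l t).trans (sum_le_sum_of_subset_of_nonneg ?_ fun _ _ _ => abs_nonneg _)
  intro r hr
  rw [Finset.mem_Ico] at hr
  exact Finset.mem_range.mpr hr.2

theorem y1_mem {x : P.A → ℝ} {B : ℕ → Fin P.T → ℝ} {l : ℕ} {t : Fin P.T}
    (h : y1 S x B l t ≠ 0) : t ∈ Pk S (l + 1) x := by
  simp only [y1] at h
  split_ifs at h with h1
  · exact qr_lt x (Nat.lt_succ_of_le h1.2) le_rfl
  · exact absurd rfl h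

theorem y2_mem {x : P.A → ℝ} {B : ℕ → Fin P.T → ℝ} {l : ℕ} {t : Fin P.T}
    (h : y2 S x B l t ≠ 0) : t ∈ Pk S (l + 1) x := by
  simp only [y2] at h
  obtain ⟨r, hr, h1⟩ := Finset.exists_ne_zero_of_sum_ne_zero h
  split_ifs at h1 with h2
  · rw [Finset.mem_Ico] at hr
    exact qr_lt x (Nat.lt_succ_of_le h2) (by omega)
  · exact absurd rfl h1

/-- a vector supported in a peaked set has a small `l_1` norm -/
theorem n1_sq_le_of_mem (hB : P.Big) (hS : Good P S) {x : P.A → ℝ} {l : ℕ} {β : Fin P.T → ℝ}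
    (h : ∀ t, β t ≠ 0 → t ∈ Pk S (l + 1) x) :
    n1 β ^ 2 ≤ (P.p (l + 1) : ℝ) ^ 10 * nsq β := by
  have e1 : n1 β = ∑ t ∈ Pk S (l + 1) x, |β t| := by
    unfold n1
    refine (sum_subset (subset_univ _) fun t _ ht => ?_).symm
    rw [abs_eq_zero]
    by_contra h1
    exact ht (h t h1)
  have e2 : ∑ t ∈ Pk S (l + 1) x, β t ^ 2 ≤ nsq β :=
    sum_le_sum_of_subset_of_nonneg (subset_univ _) fun t _ _ => sq_nonneg _
  have h2 := sq_sum_le_card_mul_sum_sq (s := Pk S (l + 1) x) (f := fun t => |β t|)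
  simp only [sq_abs] at h2
  rw [e1]
  refine h2.trans ?_
  have h3 : ((Pk S (l + 1) x).card : ℝ) ≤ (P.p (l + 1) : ℝ) ^ 10 := by
    exact_mod_cast (peak_card hB hS (l + 1) x).le
  have h4 : 0 ≤ ∑ t ∈ Pk S (l + 1) x, β t ^ 2 := sum_nonneg fun t _ => sq_nonneg _
  calc ((Pk S (l + 1) x).card : ℝ) * ∑ t ∈ Pk S (l + 1) x, β t ^ 2
      ≤ (P.p (l + 1) : ℝ) ^ 10 * ∑ t ∈ Pk S (l + 1) x, β t ^ 2 := by gcongr
    _ ≤ _ := by gcongr

/-- the mass of `B` -/
noncomputable def zz (B : ℕ → Fin P.T → ℝ) : ℝ := ∑ t, (∑ r ∈ range P.K, |B r t|) ^ 2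

theorem zz_nonneg (B : ℕ → Fin P.T → ℝ) : 0 ≤ zz B := sum_nonneg fun t _ => sq_nonneg _

theorem nsq_y2_le (x : P.A → ℝ) (B : ℕ → Fin P.T → ℝ) (l : ℕ) : nsq (y2 S x B l) ≤ zz B := by
  unfold nsq zz
  refine sum_le_sum fun t _ => ?_
  rw [← sq_abs]
  exact pow_le_pow_left₀ (abs_nonneg _) (abs_y2_le' x B l t) 2

theorem nsq_U_y1_le (hB : P.Big) (hS : Good P S) (x : P.A → ℝ) (B : ℕ → Fin P.T → ℝ) :
    nsq (∑ l ∈ range P.K, U S l (y1 S x B l)) ≤ 4 * zz B := by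
  rw [nsq_sum_levels _ fun l _ => lv_U l _]
  have h1 : ∀ l ∈ range P.K, nsq (U S l (y1 S x B l)) ≤ 2 * nsq (y1 S x B l) := by
    intro l hl
    refine (nsq_U_le hB hS (Finset.mem_range.mp hl) _).trans ?_
    have h2 := n1_sq_le_of_mem hB hS (x := x) (l := l) (β := y1 S x B l) fun t ht => y1_mem ht
    have h3 : (1 : ℝ) ≤ P.p (l + 1) := hB.one_le_p_real (l + 1)
    have h4 : 0 ≤ nsq (y1 S x B l) := nsq_nonneg _
    have h5 : ((P.p (l + 1) : ℝ) ^ 40)⁻¹ * n1 (y1 S x B l) ^ 2 ≤ nsq (y1 S x B l) := by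
      rw [inv_mul_le_iff₀ (by positivity)]
      refine h2.trans ?_
      have : (P.p (l + 1) : ℝ) ^ 10 ≤ (P.p (l + 1) : ℝ) ^ 40 := pow_le_pow_right₀ h3 (by norm_num)
      gcongr
    linarith
  refine (sum_le_sum h1).trans ?_
  rw [← mul_sum]
  have h6 : ∑ l ∈ range P.K, nsq (y1 S x B l) ≤ zz B := by
    unfold nsq zz
    rw [Finset.sum_comm]
    refine sum_le_sum fun t _ => ?_
    have h7 := Finset.sum_sq_le_sq_sum_of_nonneg (s := range P.K)
      (f := fun l => |y1 S x B l t|) (fun i _ => abs_nonneg _)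
    simp only [sq_abs] at h7
    exact h7.trans (pow_le_pow_left₀ (sum_nonneg fun _ _ => abs_nonneg _)
      (abs_y1_sum_le x B t) 2)
  have := zz_nonneg B
  linarith

/-- off the exceptional set -/
noncomputable def yo (S : P.Sam) (x : P.A → ℝ) (B : ℕ → Fin P.T → ℝ) (Ex : ℕ → Finset (Fin P.T))
    (l : ℕ) : Fin P.T → ℝ := fun t => if t ∈ Ex l then 0 else y2 S x B l t

/-- on the exceptional set -/
noncomputable def ye (S : P.Sam) (x : P.A → ℝ) (B : ℕ → Fin P.T → ℝ) (Ex : ℕ → Finset (Fin P.T))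
    (l : ℕ) : Fin P.T → ℝ := fun t => if t ∈ Ex l then y2 S x B l t else 0

theorem yo_add_ye (x : P.A → ℝ) (B : ℕ → Fin P.T → ℝ) (Ex : ℕ → Finset (Fin P.T)) (l : ℕ) :
    yo S x B Ex l + ye S x B Ex l = y2 S x B l := by
  funext t
  simp only [yo, ye, Pi.add_apply]
  split_ifs <;> simp

theorem nsq_yo_le (x : P.A → ℝ) (B : ℕ → Fin P.T → ℝ) (Ex : ℕ → Finset (Fin P.T)) (l : ℕ) :
    nsq (yo S x B Ex l) ≤ zz B := by
  refine le_trans ?_ (nsq_y2_le (S := S) x B l)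
  unfold nsq
  refine sum_le_sum fun t _ => ?_
  simp only [yo]
  split_ifs
  · rw [zero_pow two_ne_zero]; exact sq_nonneg _
  · exact le_rfl

theorem DN_yo_le (hB : P.Big) (hS : Good P S) (Ex : ℕ → Finset (Fin P.T)) (Γ : ℝ)
    (hclu : Clu S F Ex Γ) (x : P.A → ℝ) (B : ℕ → Fin P.T → ℝ) :
    DN S F (∑ l ∈ range P.K, U S l (yo S x B Ex l)) ^ 2 ≤ Γ * zz B := by
  have hzz := zz_nonneg B
  have hz2 : Real.sqrt (zz B) ^ 2 = zz B := Real.sq_sqrt hzz
  have h := hclu Unit (fun l _ => yo S x B Ex l) (fun _ => Real.sqrt (zz B))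
    (fun _ => Real.sqrt_nonneg _) (fun l _ _ t ht => if_pos ht)
    (fun l _ _ => by rw [hz2]; exact nsq_yo_le x B Ex l) ?_
  · simp only [Finset.univ_unique, Finset.sum_singleton] at h
    rw [hz2] at h
    have e1 : ∀ δ : Unit → Bool, DN S F (sg (δ default) • ∑ l ∈ range P.K,
        U S l (yo S x B Ex l)) ^ 2 = DN S F (∑ l ∈ range P.K, U S l (yo S x B Ex l)) ^ 2 := by
      intro δ
      rw [DN_smul hB hS, abs_sg, one_mul]
    rw [av_congr e1, av_const] at h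
    exact h
  · intro l _ _
    have h1 : n1 (yo S x B Ex l) ^ 2 ≤ (P.p (l + 1) : ℝ) ^ 10 * nsq (yo S x B Ex l) := by
      refine n1_sq_le_of_mem hB hS (x := x) fun t ht => ?_
      simp only [yo] at ht
      split_ifs at ht
      · exact absurd rfl ht
      · exact y2_mem ht
    have hp : (1 : ℝ) ≤ P.p (l + 1) := hB.one_le_p_real (l + 1)
    refine le_of_sq_le_sq ?_ (by positivity)
    rw [mul_pow, hz2, ← pow_mul]
    refine h1.trans ?_
    have h2 := nsq_yo_le (S := S) x B Ex l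
    have h3 : (P.p (l + 1) : ℝ) ^ 10 ≤ (P.p (l + 1) : ℝ) ^ (6 * 2) :=
      pow_le_pow_right₀ hp (by norm_num)
    calc (P.p (l + 1) : ℝ) ^ 10 * nsq (yo S x B Ex l) ≤ (P.p (l + 1) : ℝ) ^ 10 * zz B := by gcongr
      _ ≤ _ := by gcongr

/-- the bound for one vector -/
theorem ttwo_one (hB : P.Big) (hS : Good P S) (Ex : ℕ → Finset (Fin P.T)) (Γ : ℝ) (hΓ : 1 ≤ Γ)
    (hclu : Clu S F Ex Γ) (x : P.A → ℝ) (hx : x ∈ F) (B : ℕ → Fin P.T → ℝ)
    (hsup : ∀ r < P.K, (univ.filter fun t => B r t ≠ 0).card ≤ 2 * P.p (r + 1) ^ 10) :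
    ip x (∑ r ∈ range P.K, W S r (B r)) ≤ nrm S x * ((8 + Real.sqrt Γ) * Real.sqrt (zz B) +
      nm (∑ l ∈ range P.K, U S l (ye S x B Ex l))) := by
  have hzz := zz_nonneg B
  have hn : 0 ≤ nrm S x := nrm_nonneg hB hS x
  have hnm := nm_le_nrm hB hS x
  have hz0 : 0 ≤ Real.sqrt (zz B) := Real.sqrt_nonneg _
  have s1 := sigma1 hB hS x B hsup
  have e0 : ∑ l ∈ range P.K, U S l (y1 S x B l + y2 S x B l) =
      ∑ l ∈ range P.K, U S l (y1 S x B l) + (∑ l ∈ range P.K, U S l (yo S x B Ex l) +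
        ∑ l ∈ range P.K, U S l (ye S x B Ex l)) := by
    rw [← sum_add_distrib, ← sum_add_distrib]
    refine sum_congr rfl fun l _ => ?_
    rw [U_add, ← yo_add_ye x B Ex l, U_add]
  rw [ttwo_split, e0, ip_add_right, ip_add_right]
  have s2 : -ip x (∑ l ∈ range P.K, U S l (y1 S x B l)) ≤ 2 * nrm S x * Real.sqrt (zz B) := by
    have h1 := abs_ip_le x (∑ l ∈ range P.K, U S l (y1 S x B l))
    have h2 : nm (∑ l ∈ range P.K, U S l (y1 S x B l)) ≤ 2 * Real.sqrt (zz B) := by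
      rw [nm_le_iff (by positivity), mul_pow, Real.sq_sqrt hzz]
      have := nsq_U_y1_le hB hS x B
      linarith
    have h3 := neg_abs_le (ip x (∑ l ∈ range P.K, U S l (y1 S x B l)))
    calc -ip x (∑ l ∈ range P.K, U S l (y1 S x B l))
        ≤ |ip x (∑ l ∈ range P.K, U S l (y1 S x B l))| := by linarith
      _ ≤ nm x * nm (∑ l ∈ range P.K, U S l (y1 S x B l)) := h1
      _ ≤ nrm S x * (2 * Real.sqrt (zz B)) := by
          have := nm_nonneg (∑ l ∈ range P.K, U S l (y1 S x B l))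
          gcongr
      _ = _ := by ring
  have s3 : -ip x (∑ l ∈ range P.K, U S l (yo S x B Ex l)) ≤
      nrm S x * (Real.sqrt Γ * Real.sqrt (zz B)) := by
    set L := ∑ l ∈ range P.K, U S l (yo S x B Ex l) with hL
    have h1 := ip_le_DN hB hS hx ((-1 : ℝ) • L)
    rw [DN_smul hB hS, abs_neg, abs_one, one_mul, ip_smul_left, ip_comm] at h1
    have h2 : DN S F L ≤ Real.sqrt Γ * Real.sqrt (zz B) := by
      rw [← Real.sqrt_mul (by linarith)]
      exact Real.le_sqrt_of_sq_le (DN_yo_le hB hS Ex Γ hclu x B)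
    calc -ip x L ≤ DN S F L * nrm S x := by linarith
      _ ≤ (Real.sqrt Γ * Real.sqrt (zz B)) * nrm S x := by gcongr
      _ = _ := mul_comm _ _
  have s4 : -ip x (∑ l ∈ range P.K, U S l (ye S x B Ex l)) ≤
      nrm S x * nm (∑ l ∈ range P.K, U S l (ye S x B Ex l)) := by
    have h1 := abs_ip_le x (∑ l ∈ range P.K, U S l (ye S x B Ex l))
    have h3 := neg_abs_le (ip x (∑ l ∈ range P.K, U S l (ye S x B Ex l)))
    have h4 := nm_nonneg (∑ l ∈ range P.K, U S l (ye S x B Ex l))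
    calc -ip x (∑ l ∈ range P.K, U S l (ye S x B Ex l))
        ≤ |ip x (∑ l ∈ range P.K, U S l (ye S x B Ex l))| := by linarith
      _ ≤ nm x * nm (∑ l ∈ range P.K, U S l (ye S x B Ex l)) := h1
      _ ≤ _ := by gcongr
  have s1' : ∑ r ∈ range P.K, ∑ t, B r t * aq S (qr S x r t) x t ≤
      6 * nrm S x * Real.sqrt (zz B) := s1
  calc _ ≤ 6 * nrm S x * Real.sqrt (zz B) + 2 * nrm S x * Real.sqrt (zz B) +
        nrm S x * (Real.sqrt Γ * Real.sqrt (zz B)) +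
        nrm S x * nm (∑ l ∈ range P.K, U S l (ye S x B Ex l)) := by linarith
    _ = _ := by ring

end split

/-- Cauchy-Schwarz over `i` -/
theorem sum_mul_le_of_sq {I : Type} [Fintype I] (f g : I → ℝ) {A B : ℝ} (hB : 0 ≤ B)
    (h1 : ∑ i, f i ^ 2 ≤ A) (h2 : ∑ i, g i ^ 2 ≤ B ^ 2) :
    ∑ i, f i * g i ≤ Real.sqrt A * B := by
  refine (Real.sum_mul_le_sqrt_mul_sqrt univ f g).trans ?_
  have h3 : Real.sqrt (∑ i, f i ^ 2) ≤ Real.sqrt A := Real.sqrt_le_sqrt h1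
  have h4 : Real.sqrt (∑ i, g i ^ 2) ≤ B := by
    rw [← Real.sqrt_sq hB]; exact Real.sqrt_le_sqrt h2
  exact mul_le_mul h3 h4 (Real.sqrt_nonneg _) (Real.sqrt_nonneg _)

/-- the exceptional part is tiny -/
theorem ttwo_ye_level (hB : P.Big) (Ex : ℕ → Finset (Fin P.T))
    (hcard : ∀ l < P.K, (Ex l).card ≤ P.p (l + 1) ^ 600) {I : Type} [Fintype I]
    (x : I → P.A → ℝ) (B : ℕ → I → Fin P.T → ℝ) (M : ℝ)
    (h5 : ∀ r < P.K, ∀ t, (P.p r : ℝ) ^ 5 * nm (fun i => B r i t) ≤ 2 * M) {l : ℕ}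
    (hl : l < P.K) :
    ∑ i, n1 (ye S (x i) (fun r => B r i) Ex l) ^ 2 ≤ M ^ 2 / (2 * P.K) := by
  have hK : (1 : ℝ) ≤ P.K := hB.one_le_K
  have hp1 : (1 : ℝ) ≤ P.p (l + 1) := hB.one_le_p_real (l + 1)
  set p : ℝ := (P.p (l + 1) : ℝ) with hp
  have hp0 : 0 < p := by linarith
  have hEx : ((Ex l).card : ℝ) ≤ p ^ 600 := by
    have := hcard l hl
    rw [hp]
    exact_mod_cast this
  have a1 : ∀ i, n1 (ye S (x i) (fun r => B r i) Ex l) ≤
      ∑ t ∈ Ex l, ∑ r ∈ Ico (l + 2) P.K, |B r i t| := by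
    intro i
    unfold n1
    have e1 : ∀ t, |ye S (x i) (fun r => B r i) Ex l t| =
        if t ∈ Ex l then |y2 S (x i) (fun r => B r i) l t| else 0 := by
      intro t
      simp only [ye]
      split_ifs <;> simp
    rw [sum_congr rfl fun t _ => e1 t, Finset.sum_ite_mem, Finset.univ_inter]
    exact sum_le_sum fun t _ => abs_y2_le (x i) (fun r => B r i) l t
  have a2 : ∀ i, n1 (ye S (x i) (fun r => B r i) Ex l) ^ 2 ≤
      (Ex l).card * ∑ t ∈ Ex l, (P.K * ∑ r ∈ Ico (l + 2) P.K, B r i t ^ 2) := by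
    intro i
    refine (pow_le_pow_left₀ (n1_nonneg _) (a1 i) 2).trans ?_
    refine sq_sum_le_card_mul_sum_sq.trans ?_
    refine mul_le_mul_of_nonneg_left (sum_le_sum fun t _ => ?_) (Nat.cast_nonneg _)
    refine sq_sum_le_card_mul_sum_sq.trans ?_
    simp only [sq_abs]
    refine mul_le_mul_of_nonneg_right ?_ (sum_nonneg fun _ _ => sq_nonneg _)
    rw [Nat.card_Ico]
    exact_mod_cast Nat.sub_le _ _
  have a3 : ∀ r ∈ Ico (l + 2) P.K, ∀ t, ∑ i, B r i t ^ 2 ≤ 4 * M ^ 2 / p ^ 5000 := by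
    intro r hr t
    rw [Finset.mem_Ico] at hr
    have h6 := h5 r hr.2 t
    have hpr : (0 : ℝ) < P.p r := hB.p_pos_real r
    have h7 : p ^ 500 ≤ (P.p r : ℝ) :=
      (hB.p_step_real (l + 1)).trans (hB.p_mono_real hr.1)
    have h8 : p ^ 5000 ≤ (P.p r : ℝ) ^ 10 := by
      calc p ^ 5000 = (p ^ 500) ^ 10 := by rw [← pow_mul]
        _ ≤ _ := pow_le_pow_left₀ (by positivity) h7 10
    have h9 : (P.p r : ℝ) ^ 10 * nsq (fun i => B r i t) ≤ 4 * M ^ 2 := by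
      have h10 : ((P.p r : ℝ) ^ 5 * nm (fun i => B r i t)) ^ 2 ≤ (2 * M) ^ 2 :=
        pow_le_pow_left₀ (mul_nonneg (by positivity) (nm_nonneg _)) h6 2
      rw [mul_pow, nm_sq, ← pow_mul, mul_pow] at h10
      norm_num at h10
      exact h10
    have h11 : 0 ≤ nsq (fun i => B r i t) := nsq_nonneg _
    rw [le_div_iff₀ (by positivity)]
    calc (∑ i, B r i t ^ 2) * p ^ 5000 ≤ (∑ i, B r i t ^ 2) * (P.p r : ℝ) ^ 10 :=
          mul_le_mul_of_nonneg_left h8 h11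
      _ = (P.p r : ℝ) ^ 10 * nsq (fun i => B r i t) := mul_comm _ _
      _ ≤ _ := h9
  have hM4 : 0 ≤ 4 * M ^ 2 / p ^ 5000 := by positivity
  have a4 : ∑ i, n1 (ye S (x i) (fun r => B r i) Ex l) ^ 2 ≤
      p ^ 600 * (p ^ 600 * (P.K * (P.K * (4 * M ^ 2 / p ^ 5000)))) := by
    refine (sum_le_sum fun i _ => a2 i).trans ?_
    rw [← mul_sum, Finset.sum_comm]
    have h12 : ∀ t ∈ Ex l, (∑ i, (P.K : ℝ) * ∑ r ∈ Ico (l + 2) P.K, B r i t ^ 2) ≤
        P.K * (P.K * (4 * M ^ 2 / p ^ 5000)) := by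
      intro t _
      rw [← mul_sum, Finset.sum_comm]
      refine mul_le_mul_of_nonneg_left ?_ (by linarith)
      refine (sum_le_card_nsmul _ _ _ fun r hr => a3 r hr t).trans ?_
      rw [Nat.card_Ico, nsmul_eq_mul]
      refine mul_le_mul_of_nonneg_right ?_ hM4
      exact_mod_cast Nat.sub_le _ _
    have h13 := sum_le_card_nsmul _ _ _ h12
    rw [nsmul_eq_mul] at h13
    have h14 : 0 ≤ (P.K : ℝ) * (P.K * (4 * M ^ 2 / p ^ 5000)) := by positivity
    have h15 : 0 ≤ ∑ t ∈ Ex l, (∑ i, (P.K : ℝ) * ∑ r ∈ Ico (l + 2) P.K, B r i t ^ 2) :=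
      sum_nonneg fun t _ => sum_nonneg fun i _ => mul_nonneg (by linarith)
        (sum_nonneg fun r _ => sq_nonneg _)
    refine mul_le_mul hEx (h13.trans ?_) h15 (by positivity)
    exact mul_le_mul_of_nonneg_right hEx h14
  refine a4.trans ?_
  have h16 : 8 * (P.K : ℝ) ^ 3 ≤ p := by
    refine le_trans ?_ (hB.K_pow_le_real l)
    have h17 : (1 : ℝ) ≤ 1000 * P.K := by linarith
    calc 8 * (P.K : ℝ) ^ 3 ≤ (1000 * (P.K : ℝ)) ^ 3 := by
          have : 0 ≤ (P.K : ℝ) ^ 3 := by positivity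
          rw [mul_pow]; nlinarith
      _ ≤ _ := pow_le_pow_right₀ h17 (by norm_num)
  have h18 : 8 * (P.K : ℝ) ^ 3 * p ^ 1200 ≤ p ^ 5000 := by
    calc 8 * (P.K : ℝ) ^ 3 * p ^ 1200 ≤ p * p ^ 1200 := by gcongr
      _ = p ^ 1201 := by rw [← pow_succ']
      _ ≤ _ := pow_le_pow_right₀ hp1 (by norm_num)
  have h19 : p ^ 600 * (p ^ 600 * ((P.K : ℝ) * (P.K * (4 * M ^ 2 / p ^ 5000)))) =
      (8 * (P.K : ℝ) ^ 3 * p ^ 1200) / p ^ 5000 * (M ^ 2 / (2 * P.K)) := by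
    have h20 : p ^ 1200 = p ^ 600 * p ^ 600 := by rw [← pow_add]
    rw [h20]
    have h21 : p ^ 5000 ≠ 0 := (pow_pos hp0 5000).ne'
    generalize p ^ 5000 = y at *
    generalize p ^ 600 = z at *
    have h22 : (P.K : ℝ) ≠ 0 := by linarith
    field_simp
    ring
  rw [h19]
  have h23 : (8 * (P.K : ℝ) ^ 3 * p ^ 1200) / p ^ 5000 ≤ 1 :=
    div_le_one_of_le₀ h18 (by positivity)
  have h24 : 0 ≤ M ^ 2 / (2 * (P.K : ℝ)) := by positivity
  calc _ ≤ 1 * (M ^ 2 / (2 * (P.K : ℝ))) := by gcongr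
    _ = _ := one_mul _

theorem ttwo_ye (hB : P.Big) (hS : Good P S) (Ex : ℕ → Finset (Fin P.T))
    (hcard : ∀ l < P.K, (Ex l).card ≤ P.p (l + 1) ^ 600) {I : Type} [Fintype I]
    (x : I → P.A → ℝ) (B : ℕ → I → Fin P.T → ℝ) (M : ℝ)
    (h5 : ∀ r < P.K, ∀ t, (P.p r : ℝ) ^ 5 * nm (fun i => B r i t) ≤ 2 * M) :
    ∑ i, nm (∑ l ∈ range P.K, U S l (ye S (x i) (fun r => B r i) Ex l)) ^ 2 ≤ M ^ 2 := by
  have hK : (1 : ℝ) ≤ P.K := hB.one_le_K
  have h1 : ∀ i, nm (∑ l ∈ range P.K, U S l (ye S (x i) (fun r => B r i) Ex l)) ^ 2 ≤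
      ∑ l ∈ range P.K, 2 * n1 (ye S (x i) (fun r => B r i) Ex l) ^ 2 := by
    intro i
    rw [nm_sq, nsq_sum_levels _ fun l _ => lv_U l _]
    refine sum_le_sum fun l hl => ?_
    refine (nsq_U_le hB hS (Finset.mem_range.mp hl) _).trans ?_
    have h2 := nsq_le_n1_sq (ye S (x i) (fun r => B r i) Ex l)
    have h3 : (1 : ℝ) ≤ P.p (l + 1) := hB.one_le_p_real (l + 1)
    have h4 : ((P.p (l + 1) : ℝ) ^ 40)⁻¹ ≤ 1 := inv_le_one_of_one_le₀ (one_le_pow₀ h3)
    have h6 : ((P.p (l + 1) : ℝ) ^ 40)⁻¹ * n1 (ye S (x i) (fun r => B r i) Ex l) ^ 2 ≤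
        1 * n1 (ye S (x i) (fun r => B r i) Ex l) ^ 2 := by gcongr
    linarith
  refine (sum_le_sum fun i _ => h1 i).trans ?_
  rw [Finset.sum_comm]
  have h7 : ∀ l ∈ range P.K, ∑ i, 2 * n1 (ye S (x i) (fun r => B r i) Ex l) ^ 2 ≤
      M ^ 2 / P.K := by
    intro l hl
    rw [← mul_sum]
    have h8 := ttwo_ye_level (S := S) hB Ex hcard x B M h5 (Finset.mem_range.mp hl)
    have h9 : M ^ 2 / (P.K : ℝ) = 2 * (M ^ 2 / (2 * P.K)) := by
      have h22 : (P.K : ℝ) ≠ 0 := by linarith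
      field_simp
    rw [h9]
    linarith
  refine (sum_le_card_nsmul _ _ _ h7).trans ?_
  rw [Finset.card_range, nsmul_eq_mul]
  have h22 : (P.K : ℝ) ≠ 0 := by linarith
  exact le_of_eq (by field_simp)

theorem type_two (hB : P.Big) (hS : Good P S) (F : Submodule ℝ (P.A → ℝ))
    (Ex : ℕ → Finset (Fin P.T)) (Γ : ℝ) (hΓ : 1 ≤ Γ)
    (hcard : ∀ l < P.K, (Ex l).card ≤ P.p (l + 1) ^ 600) (hclu : Clu S F Ex Γ)
    {I : Type} [Fintype I] [DecidableEq I] (x : I → P.A → ℝ) (hx : ∀ i, x i ∈ F) :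
    av (fun δ : I → Bool => nrm S (∑ i, sg (δ i) • x i) ^ 2) ≤
      10 ^ 4 * Γ * ∑ i, nrm S (x i) ^ 2 := by
  obtain ⟨b, β, κ, M, hM, hM2, hκ, hκM, f1, f2, f3, hb, hid⟩ := ttwo_reduce hB hS x
  obtain ⟨B, e, g1, g2, g3, g4, g5⟩ := ttwo_reclass hB hS β κ M hM hκ hκM f1 f2 f3
  rw [← hM2]
  set A : ℝ := ∑ i, nrm S (x i) ^ 2 with hA
  have hA0 : 0 ≤ A := sum_nonneg fun i _ => sq_nonneg _
  have hn : ∀ i, 0 ≤ nrm S (x i) := fun i => nrm_nonneg hB hS (x i)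
  have hnm : ∀ i, nm (x i) ≤ nrm S (x i) := fun i => nm_le_nrm hB hS (x i)
  have hip : ∀ (i : I) (v : P.A → ℝ), ip (x i) v ≤ nrm S (x i) * nm v := fun i v =>
    (ip_le (x i) v).trans (mul_le_mul_of_nonneg_right (hnm i) (nm_nonneg v))
  have hsA : 0 ≤ Real.sqrt A := Real.sqrt_nonneg _
  -- the three parts
  have p1 : ∑ i, ip (x i) (b i) ≤ Real.sqrt A * M := by
    refine (sum_le_sum fun i _ => hip i (b i)).trans ?_
    refine sum_mul_le_of_sq _ _ hM le_rfl ?_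
    rw [sum_congr rfl fun i _ => nm_sq (b i)]
    exact hb
  have p2 : ∑ i, ip (x i) (e i) ≤ Real.sqrt A * (4 * M) := by
    refine (sum_le_sum fun i _ => hip i (e i)).trans ?_
    refine sum_mul_le_of_sq _ _ (by positivity) le_rfl ?_
    rw [sum_congr rfl fun i _ => nm_sq (e i)]
    linarith
  have p3 : ∀ i, ip (x i) (∑ r ∈ range P.K, W S r (B r i)) ≤
      nrm S (x i) * ((8 + Real.sqrt Γ) * Real.sqrt (zz fun r => B r i) +
        nm (∑ l ∈ range P.K, U S l (ye S (x i) (fun r => B r i) Ex l))) := by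
    intro i
    refine ttwo_one hB hS Ex Γ hΓ hclu (x i) (hx i) (fun r => B r i) fun r hr => ?_
    refine le_trans (card_le_card fun t ht => ?_) (g4 r hr)
    simp only [mem_filter, mem_univ, true_and] at ht ⊢
    exact ⟨i, ht⟩
  have hG : 1 ≤ Real.sqrt Γ := Real.one_le_sqrt.mpr hΓ
  have q1 : ∑ i, nrm S (x i) * Real.sqrt (zz fun r => B r i) ≤ Real.sqrt A * (4 * M) := by
    refine sum_mul_le_of_sq _ _ (by positivity) le_rfl ?_
    rw [sum_congr rfl fun i _ => Real.sq_sqrt (zz_nonneg fun r => B r i)]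
    have : ∑ i, zz (fun r => B r i) ≤ 10 * M ^ 2 := g3
    have hM20 : 0 ≤ M ^ 2 := sq_nonneg M
    linarith
  have q2 : ∑ i, nrm S (x i) *
      nm (∑ l ∈ range P.K, U S l (ye S (x i) (fun r => B r i) Ex l)) ≤ Real.sqrt A * M :=
    sum_mul_le_of_sq _ _ hM le_rfl (ttwo_ye hB hS Ex hcard x B M g5)
  have p4 : ∑ i, ip (x i) (∑ r ∈ range P.K, W S r (B r i)) ≤
      (8 + Real.sqrt Γ) * (Real.sqrt A * (4 * M)) + Real.sqrt A * M := by
    refine (sum_le_sum fun i _ => p3 i).trans ?_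
    have e1 : ∀ i, nrm S (x i) * ((8 + Real.sqrt Γ) * Real.sqrt (zz fun r => B r i) +
        nm (∑ l ∈ range P.K, U S l (ye S (x i) (fun r => B r i) Ex l))) =
        (8 + Real.sqrt Γ) * (nrm S (x i) * Real.sqrt (zz fun r => B r i)) +
        nrm S (x i) * nm (∑ l ∈ range P.K, U S l (ye S (x i) (fun r => B r i) Ex l)) :=
      fun i => by ring
    rw [sum_congr rfl fun i _ => e1 i, sum_add_distrib, ← mul_sum]
    have h0 : 0 ≤ 8 + Real.sqrt Γ := by linarith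
    exact add_le_add (mul_le_mul_of_nonneg_left q1 h0) q2
  have hsum : M ^ 2 ≤ (42 * Real.sqrt Γ * Real.sqrt A) * M := by
    have e2 : M ^ 2 = ∑ i, ip (x i) (b i) + ∑ i, ip (x i) (e i) +
        ∑ i, ip (x i) (∑ r ∈ range P.K, W S r (B r i)) := by
      rw [hid, ← sum_add_distrib, ← sum_add_distrib]
      refine sum_congr rfl fun i _ => ?_
      rw [g1 i, ip_add_right, ip_add_right]
      ring
    have h1 : 0 ≤ Real.sqrt A * M := mul_nonneg hsA hM
    have h2 : Real.sqrt A * M ≤ Real.sqrt Γ * (Real.sqrt A * M) := le_mul_of_one_le_left h1 hG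
    nlinarith
  have hMle : M ≤ 42 * Real.sqrt Γ * Real.sqrt A := by
    rcases hM.eq_or_lt with h | h
    · rw [← h]; positivity
    · rw [sq] at hsum
      exact le_of_mul_le_mul_right hsum h
  calc M ^ 2 ≤ (42 * Real.sqrt Γ * Real.sqrt A) ^ 2 := pow_le_pow_left₀ hM hMle 2
    _ = 1764 * Γ * A := by
        rw [mul_pow, mul_pow, Real.sq_sqrt (by linarith), Real.sq_sqrt hA0]; norm_num
    _ ≤ _ := by
        have : 0 ≤ Γ * A := mul_nonneg (by linarith) hA0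
        nlinarith

end Pool.Agent.PEL
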