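import Pool.Agent.PEL.Lev4
import Pool.Agent.PEL.CluL
import Pool.Agent.PEL.TStar
import Pool.Agent.PEL.TTwo
import Pool.Agent.PEL.Kwa
import Pool.Agent.PEL.Far
import Pool.Agent.PEL.ParEx
import Pool.Agent.PEL.Rnd
import Pool.Agent.PEL.BasArg
import Pool.Agent.PEL.CanL

/-!
# PEL : final assembly
-/

set_option autoImplicit false

namespace Pool.Agent.PEL

open Finset

/-- all the data -/
structure Setup where
  P : Par
  S : P.Sam
  hB : P.Big
  hS : Good P S

/-- the space `E` -/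
def ESp (X : Setup) : Type := X.P.A → ℝ

noncomputable instance (X : Setup) : AddCommGroup (ESp X) := inferInstanceAs (AddCommGroup (X.P.A → ℝ))

noncomputable instance (X : Setup) : Module ℝ (ESp X) := inferInstanceAs (Module ℝ (X.P.A → ℝ))

/-- the norm -/
noncomputable def ESpNorm (X : Setup) : AddGroupNorm (ESp X) where
  toFun x := nrm X.S (x : X.P.A → ℝ)
  map_zero' := nrm_zero X.hB X.hS
  add_le' x y := nrm_add_le X.hB X.hS x y
  neg' x := by
    have h := nrm_smul X.hB X.hS (-1) (x : X.P.A → ℝ)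
    rw [neg_one_smul, abs_neg, abs_one, one_mul] at h
    exact h
  eq_zero_of_map_eq_zero' x h := nrm_eq_zero X.hB X.hS h

noncomputable instance (X : Setup) : NormedAddCommGroup (ESp X) :=
  (ESpNorm X).toNormedAddCommGroup

theorem ESp_norm (X : Setup) (x : ESp X) : ‖x‖ = nrm X.S (x : X.P.A → ℝ) := rfl

noncomputable instance (X : Setup) : NormedSpace ℝ (ESp X) where
  norm_smul_le c x := le_of_eq (nrm_smul X.hB X.hS c x)

instance (X : Setup) : FiniteDimensional ℝ (ESp X) :=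
  inferInstanceAs (FiniteDimensional ℝ (X.P.A → ℝ))

/-- the identity -/
noncomputable def toE (X : Setup) : (X.P.A → ℝ) ≃ₗ[ℝ] ESp X := LinearEquiv.refl ℝ (X.P.A → ℝ)

theorem far_ESp (X : Setup) (L : ℝ) (hL : 4 * L ^ 2 ≤ X.P.K)
    (T : ESp X ≃L[ℝ] EuclideanSpace ℝ (Fin (Module.finrank ℝ (ESp X)))) :
    L ≤ ‖(T : ESp X →L[ℝ] EuclideanSpace ℝ (Fin (Module.finrank ℝ (ESp X))))‖ *
      ‖(T.symm : EuclideanSpace ℝ (Fin (Module.finrank ℝ (ESp X))) →L[ℝ] ESp X)‖ := by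
  have hC0 : 0 ≤ ‖(T : ESp X →L[ℝ] EuclideanSpace ℝ (Fin (Module.finrank ℝ (ESp X))))‖ :=
    norm_nonneg _
  have hc0 : 0 ≤ ‖(T.symm : EuclideanSpace ℝ (Fin (Module.finrank ℝ (ESp X))) →L[ℝ] ESp X)‖ :=
    norm_nonneg _
  have h := far X.hB X.hS (H := EuclideanSpace ℝ (Fin (Module.finrank ℝ (ESp X))))
    ((T.toLinearEquiv : ESp X →ₗ[ℝ] EuclideanSpace ℝ (Fin (Module.finrank ℝ (ESp X)))).comp
      (toE X).toLinearMap) _ _ hc0 hC0
    (fun x => by
      have h1 := (T.symm : EuclideanSpace ℝ (Fin (Module.finrank ℝ (ESp X))) →L[ℝ] ESp X).le_opNorm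
        (T (toE X x))
      have h2 : (T.symm : EuclideanSpace ℝ (Fin (Module.finrank ℝ (ESp X))) →L[ℝ] ESp X)
        (T (toE X x)) = toE X x := T.symm_apply_apply _
      rw [h2] at h1
      exact h1)
    (fun x => (T : ESp X →L[ℝ] EuclideanSpace ℝ (Fin (Module.finrank ℝ (ESp X)))).le_opNorm
      (toE X x))
  have h3 : L ^ 2 ≤ (‖(T.symm : EuclideanSpace ℝ (Fin (Module.finrank ℝ (ESp X))) →L[ℝ] ESp X)‖ *
      ‖(T : ESp X →L[ℝ] EuclideanSpace ℝ (Fin (Module.finrank ℝ (ESp X))))‖) ^ 2 := by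
    linarith
  rw [mul_comm]
  exact (abs_le_of_sq_le_sq' h3 (mul_nonneg hc0 hC0)).2

/-- cotype 2 from the type 2 of the dual -/
theorem cotype_two {P : Par} {S : P.Sam} (hB : P.Big) (hS : Good P S)
    (F : Submodule ℝ (P.A → ℝ)) (A : ℝ) (hA : 0 ≤ A)
    (h : ∀ (I : Type) [Fintype I] [DecidableEq I] (v : I → P.A → ℝ) (r : I → ℝ),
      (∀ i, Rep S (v i) (r i)) →
      av (fun δ : I → Bool => DN S F (∑ i, sg (δ i) • v i) ^ 2) ≤ A * ∑ i, r i ^ 2)
    {I : Type} [Fintype I] [DecidableEq I] (x : I → P.A → ℝ) (hx : ∀ i, x i ∈ F) :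
    ∑ i, nrm S (x i) ^ 2 ≤ A * av (fun δ : I → Bool => nrm S (∑ i, sg (δ i) • x i) ^ 2) := by
  choose v hv1 hv2 using fun i => exists_rep_norming hB hS (x i)
  have h1 := h I v (fun i => nrm S (x i)) hv1
  set s := ∑ i, nrm S (x i) ^ 2 with hs
  set M := av (fun δ : I → Bool => nrm S (∑ i, sg (δ i) • x i) ^ 2) with hM
  have hs0 : 0 ≤ s := sum_nonneg fun i _ => sq_nonneg _
  have hM0 : 0 ≤ M := av_nonneg fun i => sq_nonneg _
  have e1 : s = av (fun δ : I → Bool => ip (∑ i, sg (δ i) • v i) (∑ j, sg (δ j) • x j)) := by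
    have e : ∀ δ : I → Bool, ip (∑ i, sg (δ i) • v i) (∑ j, sg (δ j) • x j)
        = ∑ i, ∑ j, ip (v i) (x j) * (sg (δ i) * sg (δ j)) := by
      intro δ
      rw [ip_sum_left]
      refine sum_congr rfl fun i _ => ?_
      rw [ip_sum_right]
      refine sum_congr rfl fun j _ => ?_
      rw [ip_smul_left, ip_smul_right]; ring
    rw [av_congr e, av_sum, hs]
    refine sum_congr rfl fun i _ => ?_
    rw [av_sum, sum_congr rfl fun j _ => (av_mul_left _ _).trans (by rw [av_sg_mul_sg])]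
    simp only [mul_ite, mul_one, mul_zero, Finset.sum_ite_eq, mem_univ, if_true]
    rw [ip_comm, hv2]
  have e2 : s ≤ av (fun δ : I → Bool =>
      DN S F (∑ i, sg (δ i) • v i) * nrm S (∑ j, sg (δ j) • x j)) := by
    rw [e1]
    exact av_mono fun δ => ip_le_DN hB hS
      (F.sum_mem fun i _ => F.smul_mem _ (hx i)) _
  have e3 : s ^ 2 ≤ (A * s) * M := by
    calc s ^ 2 ≤ (av (fun δ : I → Bool =>
        DN S F (∑ i, sg (δ i) • v i) * nrm S (∑ j, sg (δ j) • x j))) ^ 2 :=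
          pow_le_pow_left₀ hs0 e2 2
      _ ≤ _ := av_mul_sq_le _ _
      _ ≤ (A * s) * M := mul_le_mul_of_nonneg_right h1 hM0
  rcases hs0.eq_or_lt with h0 | h0
  · rw [← h0]; positivity
  · have : s * s ≤ s * (A * M) := by nlinarith
    exact le_of_mul_le_mul_left this h0

/-- the constant `D(C)` -/
noncomputable def DD (C : ℝ) : ℝ := 2 * (10 ^ 4 * (2000 * (250 * (C + 1) ^ 2) ^ 2))

theorem near_ESp (X : Setup) (C : ℝ) (hC : 1 ≤ C) (F : Submodule ℝ (ESp X))
    (hF : ∃ b : Module.Basis (Fin (Module.finrank ℝ F)) ℝ F, ∀ k : ℕ, ∀ x : F,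
      ‖∑ i ∈ Finset.univ.filter (fun i : Fin (Module.finrank ℝ F) => (i : ℕ) < k),
        b.repr x i • b i‖ ≤ C * ‖x‖) :
    ∃ T : F ≃L[ℝ] EuclideanSpace ℝ (Fin (Module.finrank ℝ F)),
      ‖(T : F →L[ℝ] EuclideanSpace ℝ (Fin (Module.finrank ℝ F)))‖ *
        ‖(T.symm : EuclideanSpace ℝ (Fin (Module.finrank ℝ F)) →L[ℝ] F)‖ ≤ DD C := by
  classical
  obtain ⟨b, hb⟩ := hF
  -- the subspace of `A → ℝ`
  set F0 : Submodule ℝ (X.P.A → ℝ) := F.comap (toE X).toLinearMap with hF0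
  have hmem : ∀ x : X.P.A → ℝ, x ∈ F0 → toE X x ∈ F := fun x hx => hx
  have hmem' : ∀ x : ESp X, x ∈ F → (toE X).symm x ∈ F0 := fun x hx => hx
  -- the partial sum projections on `F`
  let pf : ℕ → F →ₗ[ℝ] F := fun k =>
    ∑ i ∈ Finset.univ.filter (fun i : Fin (Module.finrank ℝ F) => (i : ℕ) < k),
      (b.coord i).smulRight (b i)
  have hpf : ∀ k x, pf k x =
      ∑ i ∈ Finset.univ.filter (fun i : Fin (Module.finrank ℝ F) => (i : ℕ) < k),
        b.repr x i • b i := by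
    intro k x
    simp only [pf, LinearMap.sum_apply, LinearMap.smulRight_apply, Module.Basis.coord_apply]
  have hrepr : ∀ k x i, b.repr (pf k x) i = if (i : ℕ) < k then b.repr x i else 0 := by
    intro k x i
    rw [hpf, map_sum, Finsupp.finsetSum_apply]
    simp only [map_smul, Module.Basis.repr_self, Finsupp.smul_apply, Finsupp.single_apply,
      smul_eq_mul, mul_ite, mul_one, mul_zero]
    rw [Finset.sum_ite_eq']
    simp
  have hidem : ∀ k x, pf k (pf k x) = pf k x := by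
    intro k x
    apply b.repr.injective
    ext i
    rw [hrepr, hrepr]
    split_ifs <;> rfl
  have hzero : ∀ x, pf 0 x = 0 := by intro x; rw [hpf]; simp
  have hfull : ∀ x, pf (Module.finrank ℝ F) x = x := by
    intro x
    apply b.repr.injective
    ext i
    rw [hrepr, if_pos i.2]
  -- extension to `A → ℝ`
  choose Pe hPe using fun k => LinearMap.exists_extend (F.subtype.comp (pf k))
  let Pj : ℕ → (X.P.A → ℝ) →ₗ[ℝ] (X.P.A → ℝ) := fun k =>
    (toE X).symm.toLinearMap.comp ((Pe k).comp (toE X).toLinearMap)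
  have hPj' : ∀ k (x : X.P.A → ℝ) (hx : x ∈ F0),
      Pj k x = (toE X).symm (pf k ⟨toE X x, hmem x hx⟩ : F) := by
    intro k x hx
    have := LinearMap.congr_fun (hPe k) ⟨toE X x, hmem x hx⟩
    show (toE X).symm (Pe k (toE X x)) = _
    congr 1
  have hPF : ∀ k, ∀ x ∈ F0, Pj k x ∈ F0 := by
    intro k x hx
    rw [hPj' k x hx]
    exact hmem' _ (pf k ⟨toE X x, hmem x hx⟩).2
  have key := basis_bound X.hB X.hS F0 C hC (Module.finrank ℝ F) Pj
    (fun x hx => by rw [hPj' 0 x hx, hzero]; rfl)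
    (fun x hx => by rw [hPj' _ x hx, hfull]; rfl)
    hPF
    (fun j x hx => by
      have h1 := hPF j x hx
      have h2 : (⟨toE X (Pj j x), hmem _ h1⟩ : F) = pf j ⟨toE X x, hmem x hx⟩ :=
        Subtype.ext (congrArg (toE X) (hPj' j x hx))
      rw [hPj' j _ h1, h2, hidem, hPj' j x hx])
    (fun j => by
      by_cases hj : j < Module.finrank ℝ F
      · refine ⟨(toE X).symm (b ⟨j, hj⟩ : F), hmem' _ (b ⟨j, hj⟩).2,
          fun x => if hx : x ∈ F0 then b.repr ⟨toE X x, hmem x hx⟩ ⟨j, hj⟩ else 0,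
          fun x hx => ?_⟩
        rw [hPj' (j + 1) x hx, hPj' j x hx]
        simp only [dif_pos hx]
        have : pf (j + 1) ⟨toE X x, hmem x hx⟩ - pf j ⟨toE X x, hmem x hx⟩
            = b.repr ⟨toE X x, hmem x hx⟩ ⟨j, hj⟩ • b ⟨j, hj⟩ := by
          apply b.repr.injective
          ext i
          rw [map_sub, Finsupp.sub_apply, hrepr, hrepr, map_smul, Module.Basis.repr_self,
            Finsupp.smul_apply, Finsupp.single_apply, smul_eq_mul]
          by_cases h1 : (i : ℕ) < j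
          · rw [if_pos (by omega), if_pos h1, if_neg (by
              intro h; rw [← h] at h1; simp at h1)]
            simp
          · by_cases h2 : (i : ℕ) = j
            · have h3 : (⟨j, hj⟩ : Fin (Module.finrank ℝ F)) = i := Fin.ext h2.symm
              rw [if_pos (by omega), if_neg h1, if_pos h3, h3]
              simp
            · rw [if_neg (by omega), if_neg h1, if_neg (by
                intro h; apply h2; rw [← h])]
              simp
        have h3 := congrArg (fun y : F => (toE X).symm (y : ESp X)) this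
        exact h3
      · refine ⟨0, F0.zero_mem, fun _ => 0, fun x hx => ?_⟩
        rw [hPj' (j + 1) x hx, hPj' j x hx]
        have : pf (j + 1) ⟨toE X x, hmem x hx⟩ = pf j ⟨toE X x, hmem x hx⟩ := by
          apply b.repr.injective
          ext i
          have hi := i.2
          rw [hrepr, hrepr, if_pos (by omega), if_pos (by omega)]
        rw [this, sub_self, smul_zero])
    (fun j x hx => by
      rw [hPj' j x hx]
      have := hb j ⟨toE X x, hmem x hx⟩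
      rw [← hpf] at this
      exact this)
  set Db : ℝ := 250 * (C + 1) ^ 2 with hDb
  have hDb1 : 1 ≤ Db := by rw [hDb]; nlinarith
  obtain ⟨Can⟩ := exists_can X.hB X.hS F0 Db hDb1 key
  have hl : ∀ l, ∃ (Q : (X.P.A → ℝ) →ₗ[ℝ] (X.P.A → ℝ)) (Ex : Finset (Fin X.P.T)),
      l < X.P.K → Lvl Can l Q Ex := by
    intro l
    by_cases h : l < X.P.K
    · obtain ⟨Q, Ex, h1⟩ := exists_lvl X.hB X.hS Can h
      exact ⟨Q, Ex, fun _ => h1⟩
    · exact ⟨0, ∅, fun h' => absurd h' h⟩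
  choose Q Ex hQ using hl
  have hclu := cluster X.hB X.hS Can Q Ex hQ
  have hcard : ∀ l < X.P.K, (Ex l).card ≤ X.P.p (l + 1) ^ 600 := fun l h => (hQ l h).card
  set Γ : ℝ := 2000 * Db ^ 2 with hΓ
  have hΓ1 : 1 ≤ Γ := by rw [hΓ]; nlinarith
  have ht2 : ∀ (N : ℕ) (x : Fin N → X.P.A → ℝ), (∀ i, x i ∈ F0) →
      av (fun δ : Fin N → Bool => nrm X.S (∑ i, sg (δ i) • x i) ^ 2) ≤
        10 ^ 4 * Γ * ∑ i, nrm X.S (x i) ^ 2 := fun N x hx =>
    type_two X.hB X.hS F0 Ex Γ hΓ1 hcard hclu x hx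
  have hct : ∀ (N : ℕ) (x : Fin N → X.P.A → ℝ), (∀ i, x i ∈ F0) →
      ∑ i, nrm X.S (x i) ^ 2 ≤
        10 ^ 4 * Γ * av (fun δ : Fin N → Bool => nrm X.S (∑ i, sg (δ i) • x i) ^ 2) :=
    fun N x hx => cotype_two X.hB X.hS F0 (10 ^ 4 * Γ) (by positivity)
      (fun I _ _ v r hv => type_dual X.hB X.hS F0 Ex Γ hΓ1 hcard hclu v r hv) x hx
  have hcoe : ∀ (N : ℕ) (x : Fin N → F) (δ : Fin N → Bool),
      ‖∑ i, sg (δ i) • x i‖ = nrm X.S (∑ i, sg (δ i) • (toE X).symm (x i : ESp X)) := by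
    intro N x δ
    have e : ((∑ i, sg (δ i) • x i : F) : ESp X) = ∑ i, sg (δ i) • (x i : ESp X) := by
      rw [AddSubmonoidClass.coe_finsetSum]; rfl
    rw [Submodule.coe_norm, e]
    rfl
  have hτ : Real.sqrt (10 ^ 4 * Γ) ^ 2 = 10 ^ 4 * Γ := Real.sq_sqrt (by positivity)
  obtain ⟨T, hT⟩ := kwapien_signs F (Real.sqrt (10 ^ 4 * Γ)) (Real.sqrt_nonneg _)
    (fun N x => by
      rw [hτ]
      simp only [hcoe]
      exact ht2 N (fun i => (toE X).symm (x i : ESp X)) (fun i => hmem' _ (x i).2))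
    (fun N x => by
      rw [hτ]
      simp only [hcoe]
      exact hct N (fun i => (toE X).symm (x i : ESp X)) (fun i => hmem' _ (x i).2))
  rw [hτ] at hT
  exact ⟨T, hT⟩

/-- Main theorem. -/
theorem main (C : ℝ) (hC : 1 ≤ C) (L : ℝ) :
    ∃ X : Setup, (∀ T : ESp X ≃L[ℝ] EuclideanSpace ℝ (Fin (Module.finrank ℝ (ESp X))),
      L ≤ ‖(T : ESp X →L[ℝ] EuclideanSpace ℝ (Fin (Module.finrank ℝ (ESp X))))‖ *
        ‖(T.symm : EuclideanSpace ℝ (Fin (Module.finrank ℝ (ESp X))) →L[ℝ] ESp X)‖) ∧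
      ∀ F : Submodule ℝ (ESp X),
        (∃ b : Module.Basis (Fin (Module.finrank ℝ F)) ℝ F, ∀ k : ℕ, ∀ x : F,
          ‖∑ i ∈ Finset.univ.filter (fun i : Fin (Module.finrank ℝ F) => (i : ℕ) < k),
            b.repr x i • b i‖ ≤ C * ‖x‖) →
        ∃ T : F ≃L[ℝ] EuclideanSpace ℝ (Fin (Module.finrank ℝ F)),
          ‖(T : F →L[ℝ] EuclideanSpace ℝ (Fin (Module.finrank ℝ F)))‖ *
            ‖(T.symm : EuclideanSpace ℝ (Fin (Module.finrank ℝ F)) →L[ℝ] F)‖ ≤ DD C := by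
  obtain ⟨K, hK⟩ := exists_nat_ge (4 * L ^ 2 + 1)
  have hK1 : 1 ≤ K := by
    have : (1 : ℝ) ≤ K := by nlinarith [sq_nonneg L]
    exact_mod_cast this
  obtain ⟨m, hm⟩ := exists_big K hK1
  obtain ⟨S, hS⟩ := exists_good hm
  refine ⟨⟨⟨K, m⟩, S, hm, hS⟩, fun T => ?_, fun F hF => ?_⟩
  · refine far_ESp _ L ?_ T
    show 4 * L ^ 2 ≤ (K : ℝ)
    linarith
  · exact near_ESp _ C hC F hF

end Pool.Agent.PEL
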