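import Pool.Agent.PEL.Lin

/-!
# PEL-NRM1 : bounds for `U`, `W`, `Rep`

`nsq_U_le`: `|U_l β|² = p^{-100} ∑_{a ∈ level l} (∑_t β_t ε_a^(t))² = p^{-100} ∑_{s,t} β_s β_t ∑_{a ∈ level l} ε_a^(s) ε_a^(t)`;
the diagonal is `|β|²` (`card_lvl`), the rest is at most `p^{-100} p^{60} |β|_1²` by `Good.p1`.
`nsq_W_le`: `nsq_W` (Lin) and `p_{k+1} ≤ p_{l+1}` for `l ≥ k`.
`CB.nsq_U_le`: `p_{l+1}^{-40} |β|_1² ≤ p_{l+1}^{-40} p_{k+1}^{10} r² ≤ r²`.
`CB.nsq_W_le`: sum over at most `K` levels.  `Rep.nm_le`: `|v| ≤ |b| + ∑_k √(2K) ρ_k ≤ √(1+2K²) (|b|²+∑ρ²)^{1/2} ≤ 2K r`.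
-/

set_option autoImplicit false

namespace Pool.Agent.PEL

open Finset

variable {P : Par} {S : P.Sam}

private theorem nrm1_gram (hB : P.Big) (hS : Good P S) {l : ℕ} (hl : l < P.K)
    (β : Fin P.T → ℝ) : ∑ a ∈ lvl P l, uh S β a ^ 2 ≤
      (P.p (l + 1) : ℝ) ^ 100 * nsq β + (P.p (l + 1) : ℝ) ^ 60 * n1 β ^ 2 := by
  classical
  set p : ℝ := (P.p (l + 1) : ℝ) with hp
  have hp0 : 0 < p := hB.p_pos_real _
  have e1 : ∑ a ∈ lvl P l, uh S β a ^ 2 =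
      ∑ s, ∑ t, β s * β t * ∑ a ∈ lvl P l, sg (S s a) * sg (S t a) := by
    have e2 : ∀ a, uh S β a ^ 2 = ∑ s, ∑ t, β s * β t * (sg (S s a) * sg (S t a)) := by
      intro a
      unfold uh
      rw [sq, Finset.sum_mul_sum]
      refine sum_congr rfl fun s _ => sum_congr rfl fun t _ => ?_
      ring
    rw [sum_congr rfl fun a _ => e2 a, Finset.sum_comm]
    refine sum_congr rfl fun s _ => ?_
    rw [Finset.sum_comm]
    refine sum_congr rfl fun t _ => ?_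
    rw [mul_sum]
  rw [e1]
  have e3 : ∀ s t, β s * β t * ∑ a ∈ lvl P l, sg (S s a) * sg (S t a) ≤
      (if s = t then p ^ 100 * β s ^ 2 else 0) + p ^ 60 * (|β s| * |β t|) := by
    intro s t
    have h0 : 0 ≤ p ^ 60 * (|β s| * |β t|) := by positivity
    by_cases h : s = t
    · subst h
      rw [if_pos rfl]
      have e4 : ∑ a ∈ lvl P l, sg (S s a) * sg (S s a) = p ^ 100 := by
        rw [sum_congr rfl fun a _ => sg_mul_self (S s a), Finset.sum_const, nsmul_eq_mul, mul_one,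
          Par.card_lvl hl, Par.N_eq, hp]
        push_cast
        rfl
      rw [e4]
      have e5 : β s * β s * p ^ 100 = p ^ 100 * β s ^ 2 := by ring
      rw [e5]
      linarith
    · rw [if_neg h, zero_add]
      have h1 := hS.p1 l hl s t h
      calc β s * β t * ∑ a ∈ lvl P l, sg (S s a) * sg (S t a)
          ≤ |β s * β t * ∑ a ∈ lvl P l, sg (S s a) * sg (S t a)| := le_abs_self _
        _ = |β s| * |β t| * |∑ a ∈ lvl P l, sg (S s a) * sg (S t a)| := by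
            rw [abs_mul, abs_mul]
        _ ≤ |β s| * |β t| * p ^ 60 := by gcongr
        _ = _ := mul_comm _ _
  refine (sum_le_sum fun s _ => sum_le_sum fun t _ => e3 s t).trans (le_of_eq ?_)
  rw [sum_congr rfl fun s _ => Finset.sum_add_distrib, Finset.sum_add_distrib]
  congr 1
  · simp only [Finset.sum_ite_eq, mem_univ, if_true]
    rw [← mul_sum]
    rfl
  · unfold n1
    rw [sq, Finset.sum_mul_sum, mul_sum]
    exact sum_congr rfl fun s _ => (mul_sum _ _ _).symm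

theorem nsq_U_le (hB : P.Big) (hS : Good P S) {l : ℕ} (hl : l < P.K) (β : Fin P.T → ℝ) :
    nsq (U S l β) ≤ nsq β + ((P.p (l + 1) : ℝ) ^ 40)⁻¹ * n1 β ^ 2 := by
  have h1 := nrm1_gram hB hS hl β
  set p : ℝ := (P.p (l + 1) : ℝ) with hp
  have hp0 : 0 < p := hB.p_pos_real _
  have e1 : nsq (U S l β) = (p ^ 100)⁻¹ * ∑ a ∈ lvl P l, uh S β a ^ 2 := by
    rw [U_eq_lv, nsq_lv, mul_sum]
    refine sum_congr rfl fun a ha => ?_
    have hal : (a.1 : ℕ) = l := by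
      unfold lvl at ha
      exact (Finset.mem_filter.1 ha).2
    rw [V_eq_sig_uh, mul_pow, Par.sig_sq, hal, Par.N_eq, hp]
    push_cast
    rfl
  rw [e1]
  calc (p ^ 100)⁻¹ * ∑ a ∈ lvl P l, uh S β a ^ 2
      ≤ (p ^ 100)⁻¹ * (p ^ 100 * nsq β + p ^ 60 * n1 β ^ 2) := by gcongr
    _ = nsq β + (p ^ 40)⁻¹ * n1 β ^ 2 := by
        have e2 : p ^ 100 = p ^ 40 * p ^ 60 := by rw [← pow_add]
        have h40 : p ^ 40 ≠ 0 := (pow_pos hp0 40).ne'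
        have h60 : p ^ 60 ≠ 0 := (pow_pos hp0 60).ne'
        rw [e2]
        generalize p ^ 40 = x at *
        generalize p ^ 60 = y at *
        field_simp

private theorem nrm1_inv_mono (hB : P.Big) {k l : ℕ} (hkl : k ≤ l) :
    ((P.p (l + 1) : ℝ) ^ 40)⁻¹ ≤ ((P.p (k + 1) : ℝ) ^ 40)⁻¹ := by
  have h1 : (P.p (k + 1) : ℝ) ≤ P.p (l + 1) := hB.p_mono_real (by omega)
  have h2 := hB.p_pos_real (k + 1)
  exact inv_anti₀ (pow_pos h2 40) (pow_le_pow_left₀ h2.le h1 40)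

theorem nsq_W_le (hB : P.Big) (hS : Good P S) (k : ℕ) (β : Fin P.T → ℝ) :
    nsq (W S k β) ≤ P.K * (nsq β + ((P.p (k + 1) : ℝ) ^ 40)⁻¹ * n1 β ^ 2) := by
  have h0 : 0 ≤ nsq β + ((P.p (k + 1) : ℝ) ^ 40)⁻¹ * n1 β ^ 2 := by
    have := nsq_nonneg β
    positivity
  rw [nsq_W]
  have h1 : ∀ l ∈ Ico k P.K, nsq (U S l β) ≤
      nsq β + ((P.p (k + 1) : ℝ) ^ 40)⁻¹ * n1 β ^ 2 := by
    intro l hl
    rw [Finset.mem_Ico] at hl
    refine (nsq_U_le hB hS hl.2 β).trans ?_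
    have := nrm1_inv_mono hB hl.1
    gcongr
  refine (sum_le_card_nsmul _ _ _ h1).trans ?_
  rw [Nat.card_Ico, nsmul_eq_mul]
  gcongr
  exact_mod_cast Nat.sub_le _ _

private theorem nrm1_CB (hB : P.Big) {k : ℕ} {β : Fin P.T → ℝ} {r : ℝ} (h : CB P k β r) :
    nsq β + ((P.p (k + 1) : ℝ) ^ 40)⁻¹ * n1 β ^ 2 ≤ 2 * r ^ 2 := by
  have h1 := h.two
  have h2 := h.one
  have h3 := hB.one_le_p_real (k + 1)
  have h4 := hB.p_pos_real (k + 1)
  set p : ℝ := (P.p (k + 1) : ℝ) with hp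
  have h5 : n1 β ^ 2 ≤ p ^ 10 * r ^ 2 := by
    calc n1 β ^ 2 ≤ (p ^ 5 * r) ^ 2 := pow_le_pow_left₀ (n1_nonneg β) h2 2
      _ = p ^ 10 * r ^ 2 := by rw [mul_pow, ← pow_mul]
  have h6 : (p ^ 40)⁻¹ * n1 β ^ 2 ≤ r ^ 2 := by
    rw [inv_mul_le_iff₀ (pow_pos h4 40)]
    refine h5.trans ?_
    have : p ^ 10 ≤ p ^ 40 := pow_le_pow_right₀ h3 (by norm_num)
    gcongr
  linarith

theorem CB.nsq_U_le (hB : P.Big) (hS : Good P S) {k l : ℕ} (hkl : k ≤ l) (hl : l < P.K)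
    {β : Fin P.T → ℝ} {r : ℝ} (h : CB P k β r) : nsq (U S l β) ≤ 2 * r ^ 2 := by
  refine (PEL.nsq_U_le hB hS hl β).trans (le_trans ?_ (nrm1_CB hB h))
  have := nrm1_inv_mono hB hkl
  gcongr

theorem CB.nsq_W_le (hB : P.Big) (hS : Good P S) {k : ℕ} {β : Fin P.T → ℝ} {r : ℝ}
    (h : CB P k β r) : nsq (W S k β) ≤ 2 * P.K * r ^ 2 := by
  refine (PEL.nsq_W_le hB hS k β).trans ?_
  have h1 := nrm1_CB hB h
  have h2 : (0 : ℝ) ≤ P.K := Nat.cast_nonneg _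
  calc (P.K : ℝ) * (nsq β + ((P.p (k + 1) : ℝ) ^ 40)⁻¹ * n1 β ^ 2) ≤ P.K * (2 * r ^ 2) := by
        gcongr
    _ = _ := by ring

theorem Rep.nm_le (hB : P.Big) (hS : Good P S) {v : P.A → ℝ} {r : ℝ} (h : Rep S v r) :
    nm v ≤ 2 * P.K * r := by
  obtain ⟨hr, b, β, ρ, hv, hβ, hsum⟩ := h
  have hK : (1 : ℝ) ≤ P.K := hB.one_le_K
  set K : ℝ := (P.K : ℝ) with hKdef
  set s : ℝ := Real.sqrt (2 * K) with hs
  have hs2 : s ^ 2 = 2 * K := Real.sq_sqrt (by linarith)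
  have hs0 : 0 ≤ s := Real.sqrt_nonneg _
  have h1 : ∀ k ∈ range P.K, nm (W S k (β k)) ≤ s * ρ k := by
    intro k hk
    have h2 := hβ k (Finset.mem_range.1 hk)
    rw [nm_le_iff (mul_nonneg hs0 h2.nonneg), mul_pow, hs2]
    exact CB.nsq_W_le hB hS h2
  have h3 : nm v ≤ nm b + s * ∑ k ∈ range P.K, ρ k := by
    rw [hv, mul_sum]
    exact (nm_add_le _ _).trans (add_le_add le_rfl ((nm_sum_le _ _).trans (sum_le_sum h1)))
  set R : ℝ := ∑ k ∈ range P.K, ρ k with hR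
  set Q : ℝ := ∑ k ∈ range P.K, ρ k ^ 2 with hQ
  have hR2 : R ^ 2 ≤ K * Q := by
    have := sq_sum_le_card_mul_sum_sq (s := range P.K) (f := ρ)
    rwa [Finset.card_range] at this
  have hR0 : 0 ≤ R := sum_nonneg fun k hk => (hβ k (Finset.mem_range.1 hk)).nonneg
  have hB0 := nm_nonneg b
  have hB2 : nm b ^ 2 + Q ≤ r ^ 2 := by rw [nm_sq]; exact hsum
  have hQ0 : 0 ≤ Q := sum_nonneg fun k _ => sq_nonneg _
  refine h3.trans (abs_le_of_sq_le_sq' ?_ (by positivity)).2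
  set x : ℝ := nm b with hx
  -- `2 s x R ≤ Q + 2 K² x²`
  have h4 : 2 * s * x * R ≤ Q + 2 * K ^ 2 * x ^ 2 := by
    have h5 : K * (2 * s * x * R) ≤ K * (Q + 2 * K ^ 2 * x ^ 2) := by
      have h6 := sq_nonneg (R - s * K * x)
      have h7 : (s * K * x) ^ 2 = 2 * K ^ 3 * x ^ 2 := by
        rw [mul_pow, mul_pow, hs2]; ring
      nlinarith
    exact le_of_mul_le_mul_left h5 (by linarith)
  have h8 : (x + s * R) ^ 2 = x ^ 2 + 2 * s * x * R + 2 * K * R ^ 2 := by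
    have : (s * R) ^ 2 = 2 * K * R ^ 2 := by rw [mul_pow, hs2]
    nlinarith
  rw [h8]
  have h9 : 2 * K * R ^ 2 ≤ 2 * K ^ 2 * Q := by
    calc 2 * K * R ^ 2 ≤ 2 * K * (K * Q) := by gcongr
      _ = _ := by ring
  have h10 : (1 + 2 * K ^ 2) * (x ^ 2 + Q) ≤ (1 + 2 * K ^ 2) * r ^ 2 := by gcongr
  have h11 : (1 + 2 * K ^ 2) * r ^ 2 ≤ (4 * K ^ 2) * r ^ 2 := by
    gcongr
    nlinarith
  calc x ^ 2 + 2 * s * x * R + 2 * K * R ^ 2 ≤ (1 + 2 * K ^ 2) * (x ^ 2 + Q) := by nlinarith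
    _ ≤ (4 * K ^ 2) * r ^ 2 := h10.trans h11
    _ = (2 * K * r) ^ 2 := by ring

end Pool.Agent.PEL
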