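import Pool.Agent.PEL.Bas

/-!
# PEL-REG : the regular projection (4.1 of the text), pure linear algebra

For every `j` choose a maximal orthonormal system `u_1, ..., u_q` in `R^B` (functions vanishing off `B`; `ip u_i u_i' = δ`)
with `d |c_j u_i|² > H_j` where `H_j = ∑_{a∈B} |c_j e_a|²`. Always `∑_i |c_j u_i|² ≤ H_j` (for every coordinate `g` of `G j`:
`∑_i ⟨u_i, row_g⟩² ≤ |row_g|_B|²`, Bessel), so `q ≤ d` (if `H_j = 0` then `c_j = 0` on `R^B` and `q = 0`). A unit vector of `R^B` orthogonal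
to all `u_i` has `d |c_j u|² ≤ H_j`. `Y` = span of all these `u`'s (over `j`) and of the restrictions to `B` of the `y ∈ Ys`;
`dim Y ≤ |J| d + |Ys|`. `Q = P_B - Π_Y`, with an orthonormal basis `O` of `Y` (Gram-Schmidt by induction, `reg_gs`).
`∑_{a∈B} |e_a - Q e_a|² = ∑_{y ∈ O} |y|² = |O|`.
-/

set_option autoImplicit false

namespace Pool.Agent.PEL

open Finset

/-- orthonormal finite sets of vectors vanishing off `B` -/
def RegON {A : Type} [Fintype A] (B : Finset A) (O : Finset (A → ℝ)) : Prop :=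
  (∀ y ∈ O, nsq y = 1 ∧ ∀ a, a ∉ B → y a = 0) ∧ ∀ y ∈ O, ∀ y' ∈ O, y ≠ y' → ip y y' = 0

theorem RegON.ip_sum {A : Type} [Fintype A] {B : Finset A} {O : Finset (A → ℝ)}
    (h : RegON B O) {y : A → ℝ} (hy : y ∈ O) (f : (A → ℝ) → ℝ) :
    ip y (∑ y' ∈ O, f y' • y') = f y := by
  classical
  rw [ip_sum_right, sum_eq_single y]
  · rw [ip_smul_right, ip_self, (h.1 y hy).1, mul_one]
  · intro b hb hne
    rw [ip_smul_right, h.2 y hy b hb (Ne.symm hne), mul_zero]
  · intro hn; exact absurd hy hn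

theorem RegON.insert_orth {A : Type} [Fintype A] {B : Finset A} {O : Finset (A → ℝ)}
    [DecidableEq (A → ℝ)]
    (h : RegON B O) {w : A → ℝ} (hw : w ≠ 0) (hwB : ∀ a, a ∉ B → w a = 0)
    (hO : ∀ y ∈ O, ip y w = 0) :
    RegON B (insert ((nm w)⁻¹ • w) O) ∧ (nm w)⁻¹ • w ∉ O := by
  have h0 : 0 < nsq w := lt_of_le_of_ne (nsq_nonneg w) (fun h => hw (nsq_eq_zero.mp h.symm))
  have h1 : 0 < nm w := Real.sqrt_pos.mpr h0
  have h2 : nsq ((nm w)⁻¹ • w) = 1 := by
    rw [nsq_smul, inv_pow, nm_sq, inv_mul_cancel₀ h0.ne']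
  have h3 : ∀ y ∈ O, ip y ((nm w)⁻¹ • w) = 0 := fun y hy => by
    rw [ip_smul_right, hO y hy, mul_zero]
  have h4 : (nm w)⁻¹ • w ∉ O := by
    intro hin
    have h5 := h3 _ hin
    rw [ip_self, h2] at h5
    exact one_ne_zero h5
  refine ⟨⟨?_, ?_⟩, h4⟩
  · intro y hy
    rcases mem_insert.mp hy with rfl | hy
    · refine ⟨h2, fun a ha => ?_⟩
      rw [Pi.smul_apply, hwB a ha, smul_zero]
    · exact h.1 y hy
  · intro y hy y' hy' hne
    rcases mem_insert.mp hy with rfl | hy
    · rcases mem_insert.mp hy' with rfl | hy'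
      · exact absurd rfl hne
      · rw [ip_comm]; exact h3 y' hy'
    · rcases mem_insert.mp hy' with rfl | hy'
      · exact h3 y hy
      · exact h.2 y hy y' hy' hne

/-- Gram-Schmidt -/
theorem reg_gs {A : Type} [Fintype A] (B : Finset A) (Z : Finset (A → ℝ))
    (hZ : ∀ v ∈ Z, ∀ a, a ∉ B → v a = 0) :
    ∃ O : Finset (A → ℝ), O.card ≤ Z.card ∧ RegON B O ∧ ∀ v ∈ Z, v = ∑ y ∈ O, ip y v • y := by
  classical
  induction Z using Finset.induction_on with
  | empty => exact ⟨∅, le_rfl, ⟨by simp, by simp⟩, by simp⟩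
  | insert v Z hv ih =>
    obtain ⟨O, hc, hO, hspan⟩ := ih fun v' hv' => hZ v' (mem_insert_of_mem hv')
    set w : A → ℝ := v - ∑ y ∈ O, ip y v • y with hw
    have hwO : ∀ y ∈ O, ip y w = 0 := by
      intro y hy
      rw [hw, ip_sub_right, hO.ip_sum hy (fun y => ip y v), sub_self]
    have hwB : ∀ a, a ∉ B → w a = 0 := by
      intro a ha
      rw [hw, Pi.sub_apply, hZ v (mem_insert_self _ _) a ha, Finset.sum_apply, zero_sub, neg_eq_zero]
      refine sum_eq_zero fun y hy => ?_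
      rw [Pi.smul_apply, (hO.1 y hy).2 a ha, smul_zero]
    by_cases h0 : w = 0
    · refine ⟨O, hc.trans (card_le_card (subset_insert _ _)), hO, ?_⟩
      intro v' hv'
      rcases mem_insert.mp hv' with rfl | hv'
      · exact sub_eq_zero.mp h0
      · exact hspan v' hv'
    · obtain ⟨hON, hnot⟩ := hO.insert_orth h0 hwB hwO
      refine ⟨insert ((nm w)⁻¹ • w) O, ?_, hON, ?_⟩
      · rw [card_insert_of_notMem hnot, card_insert_of_notMem hv]
        omega
      · intro v' hv'
        rw [sum_insert hnot]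
        have hnw : nm w ≠ 0 := by
          intro h
          apply h0
          rw [← nsq_eq_zero, ← nm_sq, h]
          norm_num
        rcases mem_insert.mp hv' with h | hv'
        · subst h
          have h1 : ip w v' = nsq w := by
            have h2 : v' = w + ∑ y ∈ O, ip y v' • y := by rw [hw]; abel
            have h3 : ip w (∑ y ∈ O, ip y v' • y) = 0 := by
              rw [ip_sum_right]
              refine sum_eq_zero fun y hy => ?_
              rw [ip_smul_right, ip_comm w y, hwO y hy, mul_zero]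
            calc ip w v' = ip w (w + ∑ y ∈ O, ip y v' • y) := by rw [← h2]
              _ = _ := by rw [ip_add_right, h3, add_zero, ip_self]
          rw [ip_smul_left, h1, ← nm_sq, smul_smul]
          have h4 : (nm w)⁻¹ * nm w ^ 2 * (nm w)⁻¹ = 1 := by
            field_simp
          rw [h4, one_smul, hw]
          abel
        · have h1 : ip w v' = 0 := by
            rw [hspan v' hv', ip_sum_right]
            refine sum_eq_zero fun y hy => ?_
            rw [ip_smul_right, ip_comm w y, hwO y hy, mul_zero]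
          rw [ip_smul_left, h1, mul_zero, zero_smul, zero_add]
          exact hspan v' hv'

/-- Bessel's inequality -/
theorem RegON.bessel {A : Type} [Fintype A] {B : Finset A} {O : Finset (A → ℝ)}
    (h : RegON B O) (x : A → ℝ) : ∑ y ∈ O, ip y x ^ 2 ≤ ∑ a ∈ B, x a ^ 2 := by
  classical
  set x' : A → ℝ := fun a => if a ∈ B then x a else 0 with hx'
  have h1 : ∀ y ∈ O, ip y x' = ip y x := by
    intro y hy
    unfold ip
    refine sum_congr rfl fun a _ => ?_
    by_cases ha : a ∈ B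
    · simp only [hx', if_pos ha]
    · rw [(h.1 y hy).2 a ha, zero_mul, zero_mul]
  have h2 : nsq x' = ∑ a ∈ B, x a ^ 2 := by
    unfold nsq
    have e : ∀ a, x' a ^ 2 = if a ∈ B then x a ^ 2 else 0 := by
      intro a
      simp only [hx']
      split_ifs <;> simp
    rw [sum_congr rfl fun a _ => e a, ← sum_filter]
    congr 1
    ext; simp
  have h3 := nsq_nonneg (x' - ∑ y ∈ O, ip y x • y)
  rw [nsq_sub] at h3
  have h4 : ip x' (∑ y ∈ O, ip y x • y) = ∑ y ∈ O, ip y x ^ 2 := by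
    rw [ip_sum_right]
    refine sum_congr rfl fun y hy => ?_
    rw [ip_smul_right, ip_comm x' y, h1 y hy, sq]
  have h5 : nsq (∑ y ∈ O, ip y x • y) = ∑ y ∈ O, ip y x ^ 2 := by
    rw [← ip_self, ip_sum_left]
    refine sum_congr rfl fun y hy => ?_
    rw [ip_smul_left, h.ip_sum hy (fun y => ip y x), sq]
  rw [h4, h5, h2] at h3
  linarith

theorem reg_lin {A : Type} [Fintype A] [DecidableEq A] {G : Type} (c : (A → ℝ) →ₗ[ℝ] (G → ℝ))
    (u : A → ℝ) (g : G) : c u g = ip u (fun a => c (Pi.single a 1) g) := by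
  have h1 : u = ∑ a, u a • (Pi.single a 1 : A → ℝ) := by
    funext b
    rw [Finset.sum_apply, sum_eq_single b]
    · simp
    · intro a _ hab
      rw [Pi.smul_apply, Pi.single_eq_of_ne (Ne.symm hab), smul_zero]
    · intro h; exact absurd (mem_univ _) h
  conv_lhs => rw [h1, map_sum]
  rw [Finset.sum_apply]
  unfold ip
  refine sum_congr rfl fun a _ => ?_
  rw [map_smul, Pi.smul_apply, smul_eq_mul]

/-- families of bad directions -/
def RegBad {A : Type} [Fintype A] [DecidableEq A] {G : Type} [Fintype G] (B : Finset A)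
    (c : (A → ℝ) →ₗ[ℝ] (G → ℝ)) (d : ℕ) (O : Finset (A → ℝ)) : Prop :=
  RegON B O ∧ ∀ y ∈ O, ∑ a ∈ B, nsq (c (Pi.single a 1)) < (d : ℝ) * nsq (c y)

theorem RegBad.card_le {A : Type} [Fintype A] [DecidableEq A] {G : Type} [Fintype G]
    {B : Finset A} {c : (A → ℝ) →ₗ[ℝ] (G → ℝ)} {d : ℕ} {O : Finset (A → ℝ)}
    (h : RegBad B c d O) : O.card ≤ d := by
  set H := ∑ a ∈ B, nsq (c (Pi.single a 1)) with hH
  have hH0 : 0 ≤ H := sum_nonneg fun a _ => nsq_nonneg _
  have h1 : ∑ y ∈ O, nsq (c y) ≤ H := by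
    rw [hH]
    unfold nsq
    rw [sum_comm, sum_comm (s := B)]
    refine sum_le_sum fun g _ => ?_
    refine le_trans (le_of_eq ?_) (h.1.bessel (fun a => c (Pi.single a 1) g))
    exact sum_congr rfl fun y _ => by rw [reg_lin]
  by_contra hc
  push Not at hc
  have hne : O.Nonempty := by
    rw [← card_pos]; omega
  have h2 : ∑ _y ∈ O, H < ∑ y ∈ O, (d : ℝ) * nsq (c y) :=
    sum_lt_sum_of_nonempty hne h.2
  rw [sum_const, nsmul_eq_mul, ← mul_sum] at h2
  have h3 : (d : ℝ) * ∑ y ∈ O, nsq (c y) ≤ (d : ℝ) * H :=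
    mul_le_mul_of_nonneg_left h1 (Nat.cast_nonneg _)
  have h4 : (d : ℝ) * H ≤ (O.card : ℝ) * H := by
    apply mul_le_mul_of_nonneg_right _ hH0
    exact_mod_cast hc.le
  linarith

theorem reg_max {A : Type} [Fintype A] [DecidableEq A] {G : Type} [Fintype G]
    (B : Finset A) (c : (A → ℝ) →ₗ[ℝ] (G → ℝ)) (d : ℕ) :
    ∃ O : Finset (A → ℝ), RegON B O ∧ O.card ≤ d ∧
      ∀ w : A → ℝ, (∀ a, a ∉ B → w a = 0) → (∀ y ∈ O, ip y w = 0) →
        (d : ℝ) * nsq (c w) ≤ (∑ a ∈ B, nsq (c (Pi.single a 1))) * nsq w := by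
  classical
  let p : ℕ → Prop := fun n => ∃ O : Finset (A → ℝ), RegBad B c d O ∧ O.card = n
  have hp0 : p 0 := ⟨∅, ⟨⟨by simp, by simp⟩, by simp⟩, rfl⟩
  have hspec : p (Nat.findGreatest p d) := Nat.findGreatest_spec (Nat.zero_le d) hp0
  obtain ⟨O, hO, hcard⟩ := hspec
  refine ⟨O, hO.1, hO.card_le, ?_⟩
  intro w hwB hwO
  by_cases h0 : w = 0
  · rw [h0, map_zero, nsq_zero, nsq_zero, mul_zero, mul_zero]
  have hn0 : 0 < nsq w := lt_of_le_of_ne (nsq_nonneg w) (fun h => h0 (nsq_eq_zero.mp h.symm))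
  by_contra hc
  push Not at hc
  obtain ⟨hON, hnot⟩ := hO.1.insert_orth h0 hwB hwO
  have h1 : ∑ a ∈ B, nsq (c (Pi.single a 1)) < (d : ℝ) * nsq (c ((nm w)⁻¹ • w)) := by
    rw [map_smul, nsq_smul, inv_pow, nm_sq]
    have h2 : (d : ℝ) * ((nsq w)⁻¹ * nsq (c w)) = ((d : ℝ) * nsq (c w)) / nsq w := by
      field_simp
    rw [h2, lt_div_iff₀ hn0]
    exact hc
  have hbad : RegBad B c d (insert ((nm w)⁻¹ • w) O) := by
    refine ⟨hON, fun y hy => ?_⟩
    rcases mem_insert.mp hy with rfl | hy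
    · exact h1
    · exact hO.2 y hy
  have h3 : p (O.card + 1) := ⟨_, hbad, card_insert_of_notMem hnot⟩
  have h4 : O.card + 1 ≤ d := by
    have := hbad.card_le
    rwa [card_insert_of_notMem hnot] at this
  have h5 := Nat.le_findGreatest h4 h3
  omega

theorem reg {A : Type} [Fintype A] [DecidableEq A] {J : Type} [Fintype J] (B : Finset A)
    (G : J → Type) [∀ j, Fintype (G j)] (c : ∀ j, (A → ℝ) →ₗ[ℝ] (G j → ℝ))
    (Ys : Finset (A → ℝ)) (d : ℕ) (hd : 1 ≤ d) :
    ∃ Q : (A → ℝ) →ₗ[ℝ] (A → ℝ),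
      (∀ x y, ip (Q x) y = ip x (Q y)) ∧ (∀ x, Q (Q x) = Q x) ∧ (∀ x, ∀ a, a ∉ B → Q x a = 0) ∧
      (∀ y ∈ Ys, Q y = 0) ∧
      (∀ j u, (d : ℝ) * nsq (c j (Q u)) ≤ (∑ a ∈ B, nsq (c j (Pi.single a 1))) * nsq u) ∧
      ∑ a ∈ B, nsq ((Pi.single a 1 : A → ℝ) - Q (Pi.single a 1)) ≤
        (Fintype.card J * d + Ys.card : ℕ) := by
  classical
  choose Oj hOj1 hOj2 hOj3 using fun j => reg_max B (c j) d
  set PB : (A → ℝ) → (A → ℝ) := fun x a => if a ∈ B then x a else 0 with hPB
  set Z : Finset (A → ℝ) := (univ.biUnion Oj) ∪ Ys.image PB with hZ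
  have hZB : ∀ v ∈ Z, ∀ a, a ∉ B → v a = 0 := by
    intro v hv a ha
    rcases mem_union.mp hv with hv | hv
    · obtain ⟨j, _, hj⟩ := mem_biUnion.mp hv
      exact ((hOj1 j).1 v hj).2 a ha
    · obtain ⟨y, _, rfl⟩ := mem_image.mp hv
      simp only [hPB, if_neg ha]
  have hZc : Z.card ≤ Fintype.card J * d + Ys.card := by
    refine (card_union_le _ _).trans (add_le_add ?_ card_image_le)
    refine card_biUnion_le.trans ?_
    refine (sum_le_sum fun j _ => hOj2 j).trans ?_
    rw [sum_const, card_univ, smul_eq_mul]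
  obtain ⟨O, hOc, hO, hspan⟩ := reg_gs B Z hZB
  have hipPB : ∀ y ∈ O, ∀ x, ip y (PB x) = ip y x := by
    intro y hy x
    unfold ip
    refine sum_congr rfl fun a _ => ?_
    by_cases ha : a ∈ B
    · simp only [hPB, if_pos ha]
    · rw [(hO.1 y hy).2 a ha, zero_mul, zero_mul]
  let Q : (A → ℝ) →ₗ[ℝ] (A → ℝ) :=
    { toFun := fun x => PB x - ∑ y ∈ O, ip y x • y
      map_add' := by
        intro x x'
        have e1 : PB (x + x') = PB x + PB x' := by
          funext a; simp only [hPB, Pi.add_apply]; split_ifs <;> simp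
        have e2 : ∑ y ∈ O, ip y (x + x') • y = ∑ y ∈ O, ip y x • y + ∑ y ∈ O, ip y x' • y := by
          rw [← sum_add_distrib]
          exact sum_congr rfl fun y _ => by rw [ip_add_right, add_smul]
        rw [e1, e2]
        abel
      map_smul' := by
        intro r x
        have e1 : PB (r • x) = r • PB x := by
          funext a; simp only [hPB, Pi.smul_apply, smul_eq_mul]; split_ifs <;> simp
        have e2 : ∑ y ∈ O, ip y (r • x) • y = r • ∑ y ∈ O, ip y x • y := by
          rw [smul_sum]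
          exact sum_congr rfl fun y _ => by rw [ip_smul_right, mul_smul]
        rw [e1, e2, RingHom.id_apply, smul_sub] }
  have hQ : ∀ x, Q x = PB x - ∑ y ∈ O, ip y x • y := fun x => rfl
  have hQB : ∀ x, ∀ a, a ∉ B → Q x a = 0 := by
    intro x a ha
    rw [hQ, Pi.sub_apply, Finset.sum_apply]
    simp only [hPB, if_neg ha, zero_sub, neg_eq_zero]
    refine sum_eq_zero fun y hy => ?_
    rw [Pi.smul_apply, (hO.1 y hy).2 a ha, smul_zero]
  have hQO : ∀ x, ∀ y ∈ O, ip y (Q x) = 0 := by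
    intro x y hy
    rw [hQ, ip_sub_right, hipPB y hy, hO.ip_sum hy (fun y => ip y x), sub_self]
  have hPBid : ∀ x : A → ℝ, (∀ a, a ∉ B → x a = 0) → PB x = x := by
    intro x hx
    funext a
    simp only [hPB]
    split_ifs with ha
    · rfl
    · exact (hx a ha).symm
  have hQsym : ∀ x y, ip (Q x) y = ip x (Q y) := by
    intro x z
    rw [hQ, hQ, ip_sub_left, ip_sub_right, ip_sum_left, ip_sum_right]
    congr 1
    · unfold ip
      refine sum_congr rfl fun a _ => ?_
      simp only [hPB]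
      split_ifs <;> simp
    · refine sum_congr rfl fun y _ => ?_
      rw [ip_smul_left, ip_smul_right, ip_comm x y]
      ring
  have hQQ : ∀ x, Q (Q x) = Q x := by
    intro x
    rw [hQ (Q x), hPBid _ (hQB x), sum_eq_zero fun y hy => by rw [hQO x y hy, zero_smul], sub_zero]
  refine ⟨Q, hQsym, hQQ, hQB, ?_, ?_, ?_⟩
  · intro y hy
    have h1 : PB y ∈ Z := mem_union_right _ (mem_image_of_mem _ hy)
    have h2 := hspan _ h1
    rw [hQ]
    have h3 : ∑ y' ∈ O, ip y' (PB y) • y' = ∑ y' ∈ O, ip y' y • y' :=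
      sum_congr rfl fun y' hy' => by rw [hipPB y' hy']
    rw [h3] at h2
    rw [h2, sub_self]
  · intro j u
    have h1 := hOj3 j (Q u) (hQB u) (fun y hy => by
      have h2 : y ∈ Z := mem_union_left _ (mem_biUnion.mpr ⟨j, mem_univ _, hy⟩)
      rw [hspan y h2, ip_sum_left]
      refine sum_eq_zero fun y' hy' => ?_
      rw [ip_smul_left, hQO u y' hy', mul_zero])
    refine h1.trans ?_
    apply mul_le_mul_of_nonneg_left _ (sum_nonneg fun a _ => nsq_nonneg _)
    have h3 : nsq (Q u) = ip u (Q u) := by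
      rw [← ip_self, hQsym, hQQ]
    have h4 := ip_sq_le u (Q u)
    rw [← h3, sq] at h4
    rcases (nsq_nonneg (Q u)).eq_or_lt with h5 | h5
    · rw [← h5]; exact nsq_nonneg _
    · exact le_of_mul_le_mul_right h4 h5
  · have h1 : ∀ a ∈ B, nsq ((Pi.single a 1 : A → ℝ) - Q (Pi.single a 1)) = ∑ y ∈ O, y a ^ 2 := by
      intro a ha
      have h2 : (Pi.single a 1 : A → ℝ) - Q (Pi.single a 1) = ∑ y ∈ O, y a • y := by
        rw [hQ, hPBid (Pi.single a 1) (fun b hb => Pi.single_eq_of_ne (ne_of_mem_of_not_mem ha hb).symm 1)]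
        rw [sub_sub_cancel]
        refine sum_congr rfl fun y _ => ?_
        congr 1
        unfold ip
        rw [sum_eq_single a]
        · simp
        · intro b _ hb
          rw [Pi.single_eq_of_ne hb, mul_zero]
        · intro h; exact absurd (mem_univ _) h
      rw [h2, ← ip_self, ip_sum_left]
      refine sum_congr rfl fun y hy => ?_
      rw [ip_smul_left, hO.ip_sum hy (fun y => y a), sq]
    rw [sum_congr rfl h1, sum_comm]
    have h2 : ∑ y ∈ O, ∑ a ∈ B, y a ^ 2 ≤ ∑ _y ∈ O, (1 : ℝ) := by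
      refine sum_le_sum fun y hy => ?_
      rw [← (hO.1 y hy).1]
      unfold nsq
      exact sum_le_sum_of_subset_of_nonneg (subset_univ _) fun a _ _ => sq_nonneg _
    refine h2.trans ?_
    rw [sum_const, nsmul_eq_mul, mul_one]
    exact_mod_cast hOc.trans hZc

end Pool.Agent.PEL
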