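import Pool.Agent.PEL.LevDefs
import Pool.Agent.PEL.Reg
import Pool.Agent.PEL.Nrm1

/-!
# PEL-LEV0 : existence of the projection `Q_l`

`reg` with `A = P.A`, `B = lvl P l`, `J = Unit ⊕ Fin K ⊕ Fin K` (or `Option (Fin K × Bool)`), maps `c_b`, `c_k`, `c'_k = W_k c_k`,
`d = p_{l+1}^40`, `Ys` = the vectors `y` with `y_a' = ⟨c e_a', c e_a⟩` for `a.1 < l`, `c ∈ {c_b, c_k}` (then `⟨c(Q u), c e_a⟩ = ⟨Q u, y⟩ = ⟨u, Q y⟩ = 0`).
`|Ys| ≤ (K+1) ∑_{l'<l} N_{l'} ≤ (K+1) p_l^101 ≤ p_{l+1}` (`sum_N_le`, `p_step`; `l = 0`: empty).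
`(2K+1) p_{l+1}^40 + p_{l+1} ≤ p_{l+1}^42`.
`rw`: `∑_{a ∈ lvl l} |W_k c_k e_a|² ≤ K ∑_a (nsq (z k · a) + p_{k+1}^{-40} n1(z k · a)²)` (`nsq_W_le`), `∑_a nsq(z k · a) = ∑_t nsq (z k t) ≤ κ²`
(`c2`), `∑_a (∑_t |z k t a|)² ≤ (∑_t nm (z k t))² ≤ 4m² p_{k+1}^{10} κ²` (Minkowski, `c4`), `4 m² p_{k+1}^{-30} ≤ 1`: total `≤ 2Kκ²`.
-/

set_option autoImplicit false

namespace Pool.Agent.PEL

open Finset

variable {P : Par} {S : P.Sam} {F : Submodule ℝ (P.A → ℝ)} {Db : ℝ}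

/-- Minkowski: `∑_a (∑_t |y_t(a)|)² ≤ (∑_t |y_t|)²` -/
theorem sum_n1_sq_le {ι κ : Type} [Fintype ι] [Fintype κ] (y : ι → κ → ℝ) :
    ∑ a, n1 (fun t => y t a) ^ 2 ≤ (∑ t, nm (y t)) ^ 2 := by
  have e1 : ∑ a, n1 (fun t => y t a) ^ 2 = nsq (∑ t, (fun a => |y t a| : κ → ℝ)) := by
    unfold nsq n1
    exact sum_congr rfl fun a _ => by rw [Finset.sum_apply]
  have e2 : ∀ t, nm (fun a => |y t a| : κ → ℝ) = nm (y t) := by
    intro t
    unfold nm nsq
    congr 1
    exact sum_congr rfl fun a _ => sq_abs _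
  rw [e1, ← nm_sq]
  refine pow_le_pow_left₀ (nm_nonneg _) ?_ 2
  refine (nm_sum_le _ _).trans (le_of_eq ?_)
  exact sum_congr rfl fun t _ => e2 t

/-- the index of the target of the maps -/
def lev0G (P : Par) : Option (Fin P.K × Bool) → Type
  | none => P.A
  | some (_, false) => Fin P.T
  | some (_, true) => P.A

noncomputable instance lev0Fin (P : Par) : ∀ j, Fintype (lev0G P j)
  | none => inferInstanceAs (Fintype P.A)
  | some (_, false) => inferInstanceAs (Fintype (Fin P.T))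
  | some (_, true) => inferInstanceAs (Fintype P.A)

/-- the maps -/
noncomputable def lev0C (C : Can S F Db) : ∀ j, (P.A → ℝ) →ₗ[ℝ] (lev0G P j → ℝ)
  | none => cbL C
  | some (k, false) => ckL C k
  | some (k, true) => (WL S k).comp (ckL C k)

theorem lev0_W (hB : P.Big) (hS : Good P S) (C : Can S F Db) {k : ℕ} (hk : k < P.K)
    (B : Finset P.A) :
    ∑ a ∈ B, nsq (W S k (fun t => C.z k t a)) ≤ 2 * P.K * C.κ k ^ 2 := by
  have hK : (0 : ℝ) ≤ P.K := Nat.cast_nonneg _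
  have hp := hB.p_pos_real (k + 1)
  have hp1 := hB.one_le_p_real (k + 1)
  have hm := hB.m_le_p_real k
  have hm0 := hB.m_pos_real
  have h2p : (2 : ℝ) ≤ P.p (k + 1) := by
    refine le_trans ?_ hm
    have := hB.m_ge
    have h3 : 2 ≤ P.m := le_trans (by norm_num) this
    exact_mod_cast h3
  have h1 : ∑ a, nsq (fun t => C.z k t a) ≤ C.κ k ^ 2 := by
    refine le_trans (le_of_eq ?_) (C.c2 k hk)
    unfold nsq
    exact sum_comm
  have h2 : ∑ a, n1 (fun t => C.z k t a) ^ 2 ≤ (2 * P.m * (P.p (k + 1) : ℝ) ^ 5 * C.κ k) ^ 2 :=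
    (sum_n1_sq_le (C.z k)).trans
      (pow_le_pow_left₀ (sum_nonneg fun _ _ => nm_nonneg _) (C.c4 k hk) 2)
  have h3 : ((P.p (k + 1) : ℝ) ^ 40)⁻¹ * ∑ a, n1 (fun t => C.z k t a) ^ 2 ≤ C.κ k ^ 2 := by
    rw [inv_mul_le_iff₀ (by positivity)]
    refine h2.trans ?_
    calc (2 * P.m * (P.p (k + 1) : ℝ) ^ 5 * C.κ k) ^ 2
        = (2 * 2) * ((P.m : ℝ) * P.m) * (P.p (k + 1) : ℝ) ^ 10 * C.κ k ^ 2 := by ring
      _ ≤ ((P.p (k + 1) : ℝ) * P.p (k + 1)) * ((P.p (k + 1) : ℝ) * P.p (k + 1)) *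
          (P.p (k + 1) : ℝ) ^ 10 * C.κ k ^ 2 := by gcongr
      _ = (P.p (k + 1) : ℝ) ^ 14 * C.κ k ^ 2 := by ring
      _ ≤ _ := by
          apply mul_le_mul_of_nonneg_right _ (sq_nonneg _)
          exact pow_le_pow_right₀ hp1 (by norm_num)
  calc ∑ a ∈ B, nsq (W S k (fun t => C.z k t a))
      ≤ ∑ a, nsq (W S k (fun t => C.z k t a)) :=
        sum_le_sum_of_subset_of_nonneg (subset_univ _) fun _ _ _ => nsq_nonneg _
    _ ≤ ∑ a, P.K * (nsq (fun t => C.z k t a) +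
        ((P.p (k + 1) : ℝ) ^ 40)⁻¹ * n1 (fun t => C.z k t a) ^ 2) :=
        sum_le_sum fun a _ => nsq_W_le hB hS k _
    _ = P.K * (∑ a, nsq (fun t => C.z k t a) +
        ((P.p (k + 1) : ℝ) ^ 40)⁻¹ * ∑ a, n1 (fun t => C.z k t a) ^ 2) := by
        rw [← mul_sum, sum_add_distrib, mul_sum]
    _ ≤ P.K * (C.κ k ^ 2 + C.κ k ^ 2) := mul_le_mul_of_nonneg_left (add_le_add h1 h3) hK
    _ = _ := by ring

theorem lev0_ip_cb (C : Can S F Db) (w : P.A → ℝ) (a : P.A) :
    ip (C.cb w) (C.g a) = ip w (fun a' => ip (C.g a') (C.g a)) := by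
  unfold Can.cb
  rw [ip_sum_left]
  unfold ip
  refine sum_congr rfl fun a' _ => ?_
  rw [mul_sum]
  exact sum_congr rfl fun b _ => by rw [Pi.smul_apply, smul_eq_mul, mul_assoc]

theorem lev0_ip_ck (C : Can S F Db) (k : ℕ) (w : P.A → ℝ) (a : P.A) :
    ip (C.ck k w) (fun t => C.z k t a) =
      ip w (fun a' => ip (fun t => C.z k t a') (fun t => C.z k t a)) := by
  unfold Can.ck ip
  simp only [sum_mul, mul_sum]
  rw [sum_comm]
  exact sum_congr rfl fun a' _ => sum_congr rfl fun t _ => by ring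

theorem lev0_card_low (hB : P.Big) {l : ℕ} (hl : l < P.K) :
    (P.K + 1) * (univ.filter fun a : P.A => (a.1 : ℕ) < l).card ≤ P.p (l + 1) := by
  classical
  rcases Nat.eq_zero_or_pos l with h0 | h0
  · subst h0
    have e : (univ.filter fun a : P.A => (a.1 : ℕ) < 0) = ∅ := by
      ext a; simp
    rw [e, card_empty, mul_zero]
    exact Nat.zero_le _
  · have h1 : (univ.filter fun a : P.A => (a.1 : ℕ) < l).card ≤ ∑ l' ∈ range l, P.N l' := by
      calc (univ.filter fun a : P.A => (a.1 : ℕ) < l).card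
          ≤ ((range l).biUnion (lvl P)).card := by
            apply card_le_card
            intro a ha
            rw [mem_filter] at ha
            rw [mem_biUnion]
            exact ⟨a.1, mem_range.mpr ha.2, by simp [lvl]⟩
        _ ≤ ∑ l' ∈ range l, (lvl P l').card := card_biUnion_le
        _ = ∑ l' ∈ range l, P.N l' :=
            sum_congr rfl fun l' hl' => Par.card_lvl (lt_trans (mem_range.mp hl') hl)
    have h2 := hB.sum_N_le hl.le h0
    obtain ⟨l', rfl⟩ : ∃ l', l = l' + 1 := ⟨l - 1, by omega⟩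
    have h3 : P.K + 1 ≤ P.p (l' + 1) := by
      refine le_trans ?_ (hB.K_pow_le l')
      have := hB.hK
      calc P.K + 1 ≤ 1000 * P.K := by omega
        _ ≤ (1000 * P.K) ^ 20 := Nat.le_self_pow (by norm_num) _
    calc (P.K + 1) * (univ.filter fun a : P.A => (a.1 : ℕ) < l' + 1).card
        ≤ P.p (l' + 1) * P.p (l' + 1) ^ 101 := Nat.mul_le_mul h3 (h1.trans h2)
      _ = P.p (l' + 1) ^ 102 := by rw [← pow_succ']
      _ ≤ P.p (l' + 1) ^ 500 := Nat.pow_le_pow_right (hB.one_le_p _) (by norm_num)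
      _ ≤ _ := hB.p_step _

theorem exists_LQ (hB : P.Big) (hS : Good P S) (C : Can S F Db) {l : ℕ} (hl : l < P.K) :
    ∃ Q, LQ C l Q := by
  classical
  obtain ⟨Lw, hLw⟩ : ∃ Lw : Finset P.A, Lw = univ.filter fun a : P.A => (a.1 : ℕ) < l :=
    ⟨_, rfl⟩
  obtain ⟨Yb, hYb⟩ : ∃ Yb : Finset (P.A → ℝ),
    Yb = Lw.image (fun a => fun a' => ip (C.g a') (C.g a)) := ⟨_, rfl⟩
  obtain ⟨Yk, hYk⟩ : ∃ Yk : Finset (P.A → ℝ),
    Yk = ((range P.K) ×ˢ Lw).image (fun x => fun a' =>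
      ip (fun t => C.z x.1 t a') (fun t => C.z x.1 t x.2)) := ⟨_, rfl⟩
  have hd : 1 ≤ P.p (l + 1) ^ 40 := Nat.one_le_pow _ _ (hB.one_le_p _)
  obtain ⟨Q, q1, q2, q3, q4, q5, q6⟩ := reg (lvl P l) (lev0G P) (lev0C C) (Yb ∪ Yk)
    (P.p (l + 1) ^ 40) hd
  have hcard : (Yb ∪ Yk).card ≤ P.p (l + 1) := by
    refine le_trans ?_ (lev0_card_low hB hl)
    rw [← hLw]
    calc (Yb ∪ Yk).card ≤ Yb.card + Yk.card := card_union_le _ _
      _ ≤ Lw.card + P.K * Lw.card := by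
          refine Nat.add_le_add ?_ ?_
          · rw [hYb]; exact card_image_le
          · rw [hYk]
            refine card_image_le.trans (le_of_eq ?_)
            rw [card_product, card_range]
      _ = (P.K + 1) * Lw.card := by ring
  refine ⟨Q, ⟨q1, q2, ?_, ?_, ?_, ?_, ?_, ?_, ?_⟩⟩
  · intro x a ha
    exact q3 x a (by simp [lvl, ha])
  · intro u a ha
    rw [lev0_ip_cb, q1]
    rw [q4 _ ?_, ip_zero_right]
    apply mem_union_left
    rw [hYb]
    exact mem_image.mpr ⟨a, by rw [hLw]; simp [ha], rfl⟩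
  · intro k hk u a ha
    rw [lev0_ip_ck, q1]
    rw [q4 _ ?_, ip_zero_right]
    apply mem_union_right
    rw [hYk]
    exact mem_image.mpr ⟨(k, a), by
      rw [mem_product, hLw]
      exact ⟨mem_range.mpr hk, by simp [ha]⟩, rfl⟩
  · intro u
    have h := q5 none u
    have e : ∀ w, lev0C C none w = C.cb w := fun w => rfl
    push_cast at h
    refine le_trans (le_of_eq ?_) (h.trans (le_of_eq ?_))
    · rfl
    · congr 1
      refine sum_congr rfl fun a _ => ?_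
      rw [e, cb_single]
      rfl
  · intro k hk u
    have h := q5 (some (⟨k, hk⟩, false)) u
    push_cast at h
    refine le_trans (le_of_eq ?_) (h.trans (le_of_eq ?_))
    · rfl
    · congr 1
      refine sum_congr rfl fun a _ => ?_
      have e : lev0C C (some (⟨k, hk⟩, false)) (Pi.single a 1) = C.ck k (Pi.single a 1) := rfl
      rw [e, ck_single]
      rfl
  · intro k hk u
    have h := q5 (some (⟨k, hk⟩, true)) u
    push_cast at h
    refine le_trans (le_of_eq ?_) (h.trans ?_)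
    · rfl
    · apply mul_le_mul_of_nonneg_right _ (nsq_nonneg u)
      refine le_trans (le_of_eq ?_) (lev0_W hB hS C hk (lvl P l))
      refine sum_congr rfl fun a _ => ?_
      have e : lev0C C (some (⟨k, hk⟩, true)) (Pi.single a 1)
        = W S k (C.ck k (Pi.single a 1)) := rfl
      rw [e, ck_single]
      rfl
  · refine q6.trans ?_
    have hp1 := hB.one_le_p_real (l + 1)
    have h1 : Fintype.card (Option (Fin P.K × Bool)) = 2 * P.K + 1 := by
      rw [Fintype.card_option, Fintype.card_prod, Fintype.card_fin, Fintype.card_bool]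
      ring
    rw [h1]
    have h2 : 2 * P.K + 2 ≤ P.p (l + 1) := by
      refine le_trans ?_ (hB.K_pow_le l)
      have := hB.hK
      calc 2 * P.K + 2 ≤ 1000 * P.K := by omega
        _ ≤ (1000 * P.K) ^ 20 := Nat.le_self_pow (by norm_num) _
    have h3 : (2 * P.K + 1) * P.p (l + 1) ^ 40 + (Yb ∪ Yk).card ≤ P.p (l + 1) ^ 42 := by
      have hp := hB.one_le_p (l + 1)
      calc (2 * P.K + 1) * P.p (l + 1) ^ 40 + (Yb ∪ Yk).card
          ≤ (2 * P.K + 1) * P.p (l + 1) ^ 41 + P.p (l + 1) ^ 41 := by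
            refine Nat.add_le_add (Nat.mul_le_mul_left _
              (Nat.pow_le_pow_right hp (by norm_num))) ?_
            exact hcard.trans (Nat.le_self_pow (by norm_num) _)
        _ = (2 * P.K + 2) * P.p (l + 1) ^ 41 := by ring
        _ ≤ P.p (l + 1) * P.p (l + 1) ^ 41 := Nat.mul_le_mul_right _ h2
        _ = P.p (l + 1) ^ 42 := by rw [← pow_succ']
    exact_mod_cast h3

end Pool.Agent.PEL
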