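import Pool.Agent.PEL.Nrm1

/-!
# PEL-STAR : (*) of 4.2

`|∑_a uh_a h_a|² = ∑_{s,t} ζ_s ζ_t ⟨ε^(s), M ε^(t)⟩`, `M_ab = ⟨h_a, h_b⟩` (supported in level `l` squared).
`∑_{a,b} M_ab² ≤ (op HS)²`: `∑_b ⟨h_a,h_b⟩² = |c^T h_a|²` with `c u = ∑ u_b h_b`, `|c^T h|² = ⟨h, c c^T h⟩ ≤ |h| op |c^T h|`, so
`|c^T h_a| ≤ op |h_a|`; sum over `a`: `≤ op² ∑|h_a|²`. `tr M = ∑|h_a|² ≤ HS²`.
(P3) for `M`, `B = lvl P l` (`Good.p3`, `card_lvl`): for `s,t ∉ Ex`: `s ≠ t`: `|.| ≤ m op HS`; `s = t`: `≤ HS² + m op HS`. Sum: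
`≤ nsq ζ (HS² + m op HS) + m op HS ∑_{s,t} |ζ_s||ζ_t|`.
-/

set_option autoImplicit false

namespace Pool.Agent.PEL

open Finset

variable {P : Par} {S : P.Sam}

/-- the transpose bound -/
theorem star_transpose {A G : Type} [Fintype A] [Fintype G] (h : A → G → ℝ) (op : ℝ) (h0' : 0 ≤ op)
    (h2 : ∀ u : A → ℝ, nsq (∑ a, u a • h a) ≤ op ^ 2 * nsq u) (v : G → ℝ) :
    ∑ b, ip v (h b) ^ 2 ≤ op ^ 2 * nsq v := by
  set y : A → ℝ := fun b => ip v (h b) with hy
  have e1 : ∑ b, ip v (h b) ^ 2 = nsq y := rfl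
  have e2 : nsq y = ip v (∑ b, y b • h b) := by
    rw [ip_sum_right]
    unfold nsq
    refine sum_congr rfl fun b _ => ?_
    rw [ip_smul_right, sq]
  have e3 : ip v (∑ b, y b • h b) ≤ nm v * (op * nm y) := by
    refine (ip_le _ _).trans (mul_le_mul_of_nonneg_left ?_ (nm_nonneg v))
    rw [nm_le_iff (mul_nonneg h0' (nm_nonneg y)), mul_pow, nm_sq]
    exact h2 y
  rw [e1]
  rcases (nm_nonneg y).eq_or_lt with h | h
  · rw [← nm_sq y, ← h, zero_pow two_ne_zero]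
    exact mul_nonneg (sq_nonneg _) (nsq_nonneg v)
  · have e4 : nm y * nm y ≤ (op * nm v) * nm y := by
      calc nm y * nm y = nsq y := by rw [← sq, nm_sq]
        _ ≤ nm v * (op * nm y) := e2.trans_le e3
        _ = (op * nm v) * nm y := by ring
    have e5 := le_of_mul_le_mul_right e4 h
    have e6 := pow_le_pow_left₀ h.le e5 2
    rw [mul_pow, nm_sq, nm_sq] at e6
    exact e6

theorem star (hB : P.Big) (hS : Good P S) {l : ℕ} (hl : l < P.K) {G : Type} [Fintype G]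
    (h : P.A → G → ℝ) (hsupp : ∀ a : P.A, (a.1 : ℕ) ≠ l → h a = 0) (HS op : ℝ) (h0 : 0 ≤ HS)
    (h0' : 0 ≤ op) (h1 : ∑ a, nsq (h a) ≤ HS ^ 2)
    (h2 : ∀ u : P.A → ℝ, nsq (∑ a, u a • h a) ≤ op ^ 2 * nsq u) :
    ∃ Ex : Finset (Fin P.T), Ex.card ≤ 2 * P.N l ^ 3 ∧ ∀ ζ : Fin P.T → ℝ, (∀ t ∈ Ex, ζ t = 0) →
      nsq (∑ a, uh S ζ a • h a) ≤
        nsq ζ * (HS ^ 2 + P.m * op * HS) + P.m * op * HS * n1 ζ ^ 2 := by
  have hm : (0 : ℝ) ≤ P.m := Nat.cast_nonneg _
  set M : P.A → P.A → ℝ := fun a b => ip (h a) (h b) with hM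
  have hMs : ∀ a b, M a b ≠ 0 → a ∈ lvl P l ∧ b ∈ lvl P l := by
    intro a b hab
    constructor
    · by_contra hc
      refine hab ?_
      simp only [hM]
      rw [hsupp a (by simpa [lvl] using hc), ip_zero_left]
    · by_contra hc
      refine hab ?_
      simp only [hM]
      rw [hsupp b (by simpa [lvl] using hc), ip_zero_right]
  have hM2 : ∑ a, ∑ b, M a b ^ 2 ≤ (op * HS) ^ 2 := by
    calc ∑ a, ∑ b, M a b ^ 2 ≤ ∑ a, op ^ 2 * nsq (h a) :=
          sum_le_sum fun a _ => star_transpose h op h0' h2 (h a)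
      _ = op ^ 2 * ∑ a, nsq (h a) := by rw [mul_sum]
      _ ≤ op ^ 2 * HS ^ 2 := mul_le_mul_of_nonneg_left h1 (sq_nonneg _)
      _ = (op * HS) ^ 2 := by ring
  have hM3 : Real.sqrt (∑ a, ∑ b, M a b ^ 2) ≤ op * HS :=
    (Real.sqrt_le_sqrt hM2).trans (by rw [Real.sqrt_sq (mul_nonneg h0' h0)])
  have htr : ∑ a, M a a ≤ HS ^ 2 := by
    refine le_trans (le_of_eq ?_) h1
    exact sum_congr rfl fun a _ => ip_self _
  have htr0 : 0 ≤ ∑ a, M a a := sum_nonneg fun a _ => by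
    simp only [hM]; rw [ip_self]; exact nsq_nonneg _
  obtain ⟨Ex, hEx, hEx2⟩ := hS.p3 (lvl P l) (Or.inr ⟨l, hl, rfl⟩) M hMs
  refine ⟨Ex, by rw [← Par.card_lvl hl]; exact hEx, fun ζ hζ => ?_⟩
  set Q : Fin P.T → Fin P.T → ℝ := fun s t => ∑ a, ∑ b, sg (S s a) * M a b * sg (S t b) with hQ
  have e1 : nsq (∑ a, uh S ζ a • h a) = ∑ s, ∑ t, ζ s * ζ t * Q s t := by
    have f1 : nsq (∑ a, uh S ζ a • h a) = ∑ a, ∑ b, uh S ζ a * uh S ζ b * M a b := by
      rw [← ip_self, ip_sum_left]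
      refine sum_congr rfl fun a _ => ?_
      rw [ip_sum_right]
      refine sum_congr rfl fun b _ => ?_
      rw [ip_smul_left, ip_smul_right]
      ring
    have f2 : ∀ a b, uh S ζ a * uh S ζ b * M a b
        = ∑ s, ∑ t, ζ s * ζ t * (sg (S s a) * M a b * sg (S t b)) := by
      intro a b
      unfold uh
      rw [sum_mul_sum, sum_mul]
      refine sum_congr rfl fun s _ => ?_
      rw [sum_mul]
      exact sum_congr rfl fun t _ => by ring
    have f3 : ∀ s t, ζ s * ζ t * Q s t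
        = ∑ a, ∑ b, ζ s * ζ t * (sg (S s a) * M a b * sg (S t b)) := by
      intro s t
      simp only [hQ]
      rw [mul_sum]
      exact sum_congr rfl fun a _ => by rw [mul_sum]
    rw [f1]
    simp only [f2, f3]
    rw [Finset.sum_congr rfl fun a _ => Finset.sum_comm (s := univ) (t := univ)
      (f := fun (b : P.A) (s : Fin P.T) => ∑ t, ζ s * ζ t * (sg (S s a) * M a b * sg (S t b)))]
    rw [Finset.sum_comm]
    refine sum_congr rfl fun s _ => ?_
    rw [Finset.sum_congr rfl fun a _ => Finset.sum_comm (s := univ) (t := univ)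
      (f := fun (b : P.A) (t : Fin P.T) => ζ s * ζ t * (sg (S s a) * M a b * sg (S t b)))]
    rw [Finset.sum_comm]
  have e2 : ∀ s t, ζ s * ζ t * Q s t
      ≤ P.m * op * HS * (|ζ s| * |ζ t|) + (if s = t then ζ s ^ 2 * ∑ a, M a a else 0) := by
    intro s t
    have hc : 0 ≤ P.m * op * HS * (|ζ s| * |ζ t|) := by positivity
    have hd : 0 ≤ (if s = t then ζ s ^ 2 * ∑ a, M a a else 0) := by
      split_ifs
      · exact mul_nonneg (sq_nonneg _) htr0
      · exact le_rfl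
    by_cases hs : s ∈ Ex
    · rw [hζ s hs, zero_mul, zero_mul]
      rw [hζ s hs] at hc hd
      linarith
    by_cases ht : t ∈ Ex
    · rw [hζ t ht, mul_zero, zero_mul]
      rw [hζ t ht] at hc
      linarith
    have g1 := (hEx2 s t hs ht).trans (mul_le_mul_of_nonneg_left hM3 hm)
    have g2 : ζ s * ζ t * (Q s t - (if s = t then ∑ a, M a a else 0))
        ≤ |ζ s| * |ζ t| * (P.m * (op * HS)) := by
      refine (le_abs_self _).trans ?_
      rw [abs_mul, abs_mul]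
      exact mul_le_mul_of_nonneg_left g1 (by positivity)
    have g3 : ζ s * ζ t * (if s = t then ∑ a, M a a else 0)
        = (if s = t then ζ s ^ 2 * ∑ a, M a a else 0) := by
      split_ifs with hst
      · rw [hst]; ring
      · rw [mul_zero]
    calc ζ s * ζ t * Q s t = ζ s * ζ t * (Q s t - (if s = t then ∑ a, M a a else 0))
          + ζ s * ζ t * (if s = t then ∑ a, M a a else 0) := by ring
      _ ≤ |ζ s| * |ζ t| * (P.m * (op * HS)) + (if s = t then ζ s ^ 2 * ∑ a, M a a else 0) := by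
          rw [g3]; linarith
      _ = _ := by ring
  rw [e1]
  refine (sum_le_sum fun s _ => sum_le_sum fun t _ => e2 s t).trans ?_
  have e3 : ∑ s, ∑ t, (P.m * op * HS * (|ζ s| * |ζ t|) + (if s = t then ζ s ^ 2 * ∑ a, M a a else 0))
      = P.m * op * HS * n1 ζ ^ 2 + nsq ζ * ∑ a, M a a := by
    simp only [Finset.sum_add_distrib]
    congr 1
    · unfold n1
      rw [sq, sum_mul_sum, mul_sum]
      exact sum_congr rfl fun s _ => by rw [mul_sum]
    · unfold nsq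
      rw [sum_mul]
      refine sum_congr rfl fun s _ => ?_
      rw [Finset.sum_ite_eq, if_pos (mem_univ s)]
  rw [e3]
  have g4 := mul_le_mul_of_nonneg_left htr (nsq_nonneg ζ)
  have g5 : 0 ≤ nsq ζ * (P.m * op * HS) := mul_nonneg (nsq_nonneg ζ) (by positivity)
  linarith

end Pool.Agent.PEL
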