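import Pool.Agent.PEL.LevDefs
import Pool.Agent.PEL.Star

/-!
# PEL-LEV1 : (e1), (e2), (e4) of the level lemma

All three are `star` with `h_a = f (Q e_a)` resp. `h_a = e_a - Q e_a` for `a` in level `l`, `0` otherwise
(`Q e_a = 0` if `a` is not in level `l`: symmetry and `supp`), `∑_a u_a h_a = f(Q u)` by linearity.
`HS(cQ)² ≤ ∑_{a ∈ lvl l} |c e_a|²`: for every row `r` of `c`: `|Q r|² ≤ |lv l r|²` (`Q` is a symmetric idempotent supported on level `l`).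
(e1): `HS² = H := ∑_{lvl l}|g_a|² ≤ Db²`, `op² = H/p^40`: error `m op HS (nsq ζ + n1 ζ²) ≤ m p^{-20} H 2p^{12} zb² ≤ zb² Db²/K`.
(e2) the same with `z k · a`, `κ k²`.  (e4): `HS² = p^42`, `op = 1`: `nsq ≤ zb²(p^42 + m p^21) + m p^21 p^12 zb² ≤ zb² p^43`; `p^{-100}p^{43} ≤ K^{-5}`.
-/

set_option autoImplicit false

namespace Pool.Agent.PEL

open Finset

variable {P : Par} {S : P.Sam} {F : Submodule ℝ (P.A → ℝ)} {Db : ℝ}

/-- a linear map is determined by its values on the unit vectors -/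
theorem lev1_lin {G : Type} (L : (P.A → ℝ) →ₗ[ℝ] (G → ℝ)) (u : P.A → ℝ) :
    ∑ a, u a • L (Pi.single a 1) = L u := by
  have e : u = ∑ a, u a • (Pi.single a 1 : P.A → ℝ) := by
    funext b
    rw [Finset.sum_apply, Finset.sum_eq_single b]
    · simp
    · intro a _ hab
      simp [Pi.single_apply, Ne.symm hab]
    · intro h; exact absurd (mem_univ _) h
  conv_rhs => rw [e]
  rw [map_sum]
  exact sum_congr rfl fun a _ => (L.map_smul _ _).symm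

section proj
variable {C : Can S F Db} {l : ℕ} {Q : (P.A → ℝ) →ₗ[ℝ] (P.A → ℝ)}

/-- `Q e_a = 0` if `a` is not in level `l` -/
theorem lev1_Q_single (hQ : LQ C l Q) (a : P.A) (ha : (a.1 : ℕ) ≠ l) :
    Q (Pi.single a 1) = 0 := by
  rw [← nsq_eq_zero, ← ip_self, hQ.sym, ip_comm, hQ.idem, ip_single]
  exact hQ.supp _ a ha

/-- `⟨Q x, x⟩ = |Q x|²` -/
theorem lev1_ip_Q (hQ : LQ C l Q) (x : P.A → ℝ) : ip (Q x) x = nsq (Q x) := by
  rw [← ip_self, hQ.sym x (Q x), hQ.idem, ip_comm]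

/-- `⟨Q x, lv l x⟩ = |Q x|²` -/
theorem lev1_ip_Q_lv (hQ : LQ C l Q) (x : P.A → ℝ) : ip (Q x) (lv l x) = nsq (Q x) := by
  rw [← lev1_ip_Q hQ x]
  unfold ip lv
  refine sum_congr rfl fun a _ => ?_
  split_ifs with h
  · rfl
  · rw [hQ.supp x a h]; simp

/-- `|lv l x - Q x|² = |lv l x|² - |Q x|²` -/
theorem lev1_nsq_sub (hQ : LQ C l Q) (x : P.A → ℝ) :
    nsq (lv l x - Q x) = nsq (lv l x) - nsq (Q x) := by
  rw [nsq_sub, ip_comm, lev1_ip_Q_lv hQ]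
  ring

/-- `|Q x|² ≤ |lv l x|²` -/
theorem lev1_nsq_Q_le (hQ : LQ C l Q) (x : P.A → ℝ) : nsq (Q x) ≤ nsq (lv l x) := by
  have h1 := lev1_nsq_sub hQ x
  have h2 := nsq_nonneg (lv l x - Q x)
  linarith

/-- the Hilbert-Schmidt norm of `c Q` is at most that of `c` on level `l` -/
theorem lev1_HS (hQ : LQ C l Q) {G : Type} [Fintype G] (L : (P.A → ℝ) →ₗ[ℝ] (G → ℝ)) :
    ∑ a, nsq (L (Q (Pi.single a 1))) ≤ ∑ a ∈ lvl P l, nsq (L (Pi.single a 1)) := by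
  have e : ∀ (a : P.A) (r : G), L (Q (Pi.single a 1)) r
      = Q (fun b => L (Pi.single b 1) r) a := by
    intro a r
    rw [← lev1_lin L (Q (Pi.single a 1)), Finset.sum_apply]
    have h1 : ∑ b, (Q (Pi.single a 1) b • L (Pi.single b 1)) r
        = ip (Q (Pi.single a 1)) (fun b => L (Pi.single b 1) r) := rfl
    rw [h1, hQ.sym, ip_comm, ip_single]
  have e1 : ∑ a, nsq (L (Q (Pi.single a 1)))
      = ∑ r : G, nsq (Q (fun b => L (Pi.single b 1) r)) := by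
    unfold nsq
    rw [sum_comm]
    exact sum_congr rfl fun r _ => sum_congr rfl fun a _ => by rw [e]
  have e2 : ∑ a ∈ lvl P l, nsq (L (Pi.single a 1))
      = ∑ r : G, nsq (lv l (fun b => L (Pi.single b 1) r)) := by
    unfold nsq
    rw [sum_comm]
    refine sum_congr rfl fun r _ => ?_
    exact (nsq_lv l (fun b => L (Pi.single b 1) r)).symm
  rw [e1, e2]
  exact sum_le_sum fun r _ => lev1_nsq_Q_le hQ _

/-- numeric: `m (1 + p^12) ≤ p^20 / K` -/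
theorem lev1_num (hB : P.Big) (l : ℕ) :
    (P.K : ℝ) * ((P.m : ℝ) * (1 + (P.p (l + 1) : ℝ) ^ 12)) ≤ (P.p (l + 1) : ℝ) ^ 20 := by
  have hK := hB.one_le_K
  have hm := hB.m_le_p_real l
  have hm0 := hB.m_pos_real
  have hp := hB.one_le_p_real (l + 1)
  have hKp := hB.K_pow_le_real l
  have h2K : 2 * (P.K : ℝ) ≤ (P.p (l + 1) : ℝ) := by
    refine le_trans ?_ hKp
    have h1 : (1 : ℝ) ≤ 1000 * (P.K : ℝ) := by linarith
    calc 2 * (P.K : ℝ) ≤ 1000 * (P.K : ℝ) := by linarith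
      _ ≤ (1000 * (P.K : ℝ)) ^ 20 := le_self_pow₀ h1 (by norm_num)
  set p : ℝ := (P.p (l + 1) : ℝ) with hpdef
  have h12 : (1 : ℝ) ≤ p ^ 12 := one_le_pow₀ hp
  have hp0 : (0 : ℝ) ≤ p := by linarith
  calc (P.K : ℝ) * ((P.m : ℝ) * (1 + p ^ 12))
      ≤ (P.K : ℝ) * (p * (2 * p ^ 12)) := by
        apply mul_le_mul_of_nonneg_left _ (by linarith)
        apply mul_le_mul hm (by linarith) (by positivity) hp0
    _ = (2 * (P.K : ℝ)) * p ^ 13 := by ring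
    _ ≤ p * p ^ 13 := mul_le_mul_of_nonneg_right h2K (by positivity)
    _ = p ^ 14 := by ring
    _ ≤ p ^ 20 := pow_le_pow_right₀ hp (by norm_num)

/-- the common part of (e1) and (e2) -/
theorem lev1_core (hB : P.Big) (hS : Good P S) (hl : l < P.K) (hQ : LQ C l Q)
    {G : Type} [Fintype G] (L : (P.A → ℝ) →ₗ[ℝ] (G → ℝ)) (H D : ℝ)
    (hH : ∑ a ∈ lvl P l, nsq (L (Pi.single a 1)) = H) (hHD : H ≤ D)
    (hop : ∀ u, (P.p (l + 1) : ℝ) ^ 40 * nsq (L (Q u)) ≤ H * nsq u) :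
    ∃ Ex : Finset (Fin P.T), Ex.card ≤ 2 * P.N l ^ 3 ∧
      ∀ (ζ : Fin P.T → ℝ) (zb : ℝ), 0 ≤ zb → (∀ t ∈ Ex, ζ t = 0) → nsq ζ ≤ zb ^ 2 →
        n1 ζ ≤ (P.p (l + 1) : ℝ) ^ 6 * zb →
        nsq (L (Q (uh S ζ))) ≤ zb ^ 2 * (H + D / P.K) := by
  have hH0 : 0 ≤ H := by
    rw [← hH]; exact sum_nonneg fun a _ => nsq_nonneg _
  have hp := hB.one_le_p_real (l + 1)
  have hp0 : (0 : ℝ) < (P.p (l + 1) : ℝ) := hB.p_pos_real (l + 1)
  have hm0 := hB.m_pos_real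
  have hK := hB.one_le_K
  have hnum := lev1_num hB l
  set p : ℝ := (P.p (l + 1) : ℝ) with hpdef
  have hlin : ∀ u : P.A → ℝ, ∑ a, u a • L (Q (Pi.single a 1)) = L (Q u) := fun u =>
    lev1_lin (L ∘ₗ Q) u
  have hsq : Real.sqrt H ^ 2 = H := Real.sq_sqrt hH0
  have hs0 : 0 ≤ Real.sqrt H := Real.sqrt_nonneg H
  obtain ⟨Ex, hc, hEx⟩ := star hB hS hl (fun a => L (Q (Pi.single a 1)))
    (fun a ha => by
      show L (Q (Pi.single a 1)) = 0
      rw [lev1_Q_single hQ a ha, map_zero])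
    (Real.sqrt H) (Real.sqrt H / p ^ 20) hs0 (by positivity)
    (by
      rw [hsq, ← hH]
      exact lev1_HS hQ L)
    (by
      intro u
      show nsq (∑ a, u a • L (Q (Pi.single a 1))) ≤ _
      rw [hlin, div_pow, hsq, ← pow_mul]
      have h1 := hop u
      rw [div_mul_eq_mul_div, le_div_iff₀ (by positivity)]
      calc nsq (L (Q u)) * p ^ (20 * 2) = p ^ 40 * nsq (L (Q u)) := by
            rw [mul_comm]
        _ ≤ H * nsq u := h1)
  refine ⟨Ex, hc, fun ζ zb hzb hζ h2 h1 => ?_⟩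
  have h3 : nsq (L (Q (uh S ζ))) ≤ nsq ζ * (Real.sqrt H ^ 2 + P.m * (Real.sqrt H / p ^ 20) * Real.sqrt H)
      + P.m * (Real.sqrt H / p ^ 20) * Real.sqrt H * n1 ζ ^ 2 := by
    have := hEx ζ hζ
    rwa [show ∑ a, uh S ζ a • (fun a => L (Q (Pi.single a 1))) a = L (Q (uh S ζ)) from hlin _] at this
  have e4 : (P.m : ℝ) * (Real.sqrt H / p ^ 20) * Real.sqrt H = P.m * H / p ^ 20 := by
    calc (P.m : ℝ) * (Real.sqrt H / p ^ 20) * Real.sqrt H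
        = P.m * (Real.sqrt H ^ 2) / p ^ 20 := by ring
      _ = _ := by rw [hsq]
  rw [e4, hsq] at h3
  have h5 : n1 ζ ^ 2 ≤ p ^ 12 * zb ^ 2 := by
    calc n1 ζ ^ 2 ≤ (p ^ 6 * zb) ^ 2 := pow_le_pow_left₀ (n1_nonneg ζ) h1 2
      _ = p ^ 12 * zb ^ 2 := by ring
  have hq0 : 0 ≤ P.m * H / p ^ 20 := by positivity
  have h6 : nsq (L (Q (uh S ζ))) ≤ zb ^ 2 * (H + P.m * H / p ^ 20)
      + P.m * H / p ^ 20 * (p ^ 12 * zb ^ 2) := by
    refine h3.trans (add_le_add ?_ ?_)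
    · exact mul_le_mul_of_nonneg_right h2 (by positivity)
    · exact mul_le_mul_of_nonneg_left h5 hq0
  have h7 : P.m * H / p ^ 20 * (1 + p ^ 12) ≤ D / P.K := by
    rw [div_mul_eq_mul_div, div_le_div_iff₀ (by positivity) (by linarith)]
    calc P.m * H * (1 + p ^ 12) * (P.K : ℝ)
        = H * ((P.K : ℝ) * ((P.m : ℝ) * (1 + p ^ 12))) := by ring
      _ ≤ H * p ^ 20 := mul_le_mul_of_nonneg_left hnum hH0
      _ ≤ D * p ^ 20 := mul_le_mul_of_nonneg_right hHD (by positivity)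
  calc nsq (L (Q (uh S ζ))) ≤ zb ^ 2 * (H + P.m * H / p ^ 20)
      + P.m * H / p ^ 20 * (p ^ 12 * zb ^ 2) := h6
    _ = zb ^ 2 * (H + P.m * H / p ^ 20 * (1 + p ^ 12)) := by ring
    _ ≤ zb ^ 2 * (H + D / P.K) :=
        mul_le_mul_of_nonneg_left (add_le_add le_rfl h7) (sq_nonneg _)

end proj

theorem lev_e1 (hB : P.Big) (hS : Good P S) (C : Can S F Db) {l : ℕ} (hl : l < P.K)
    {Q : (P.A → ℝ) →ₗ[ℝ] (P.A → ℝ)} (hQ : LQ C l Q) :
    ∃ Ex : Finset (Fin P.T), Ex.card ≤ 2 * P.N l ^ 3 ∧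
      ∀ (ζ : Fin P.T → ℝ) (zb : ℝ), 0 ≤ zb → (∀ t ∈ Ex, ζ t = 0) → nsq ζ ≤ zb ^ 2 →
        n1 ζ ≤ (P.p (l + 1) : ℝ) ^ 6 * zb →
        nsq (C.cb (Q (uh S ζ))) ≤ zb ^ 2 * (∑ a ∈ lvl P l, nsq (C.g a) + Db ^ 2 / P.K) := by
  refine lev1_core hB hS hl hQ (cbL C) (∑ a ∈ lvl P l, nsq (C.g a)) (Db ^ 2) ?_ ?_ hQ.rb
  · exact sum_congr rfl fun a _ => by rw [cbL_apply, cb_single]
  · exact (sum_le_sum_of_subset_of_nonneg (filter_subset _ _) fun a _ _ => nsq_nonneg _).trans C.c1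

theorem lev_e2 (hB : P.Big) (hS : Good P S) (C : Can S F Db) {l : ℕ} (hl : l < P.K)
    {Q : (P.A → ℝ) →ₗ[ℝ] (P.A → ℝ)} (hQ : LQ C l Q) {k : ℕ} (hk : k < P.K) :
    ∃ Ex : Finset (Fin P.T), Ex.card ≤ 2 * P.N l ^ 3 ∧
      ∀ (ζ : Fin P.T → ℝ) (zb : ℝ), 0 ≤ zb → (∀ t ∈ Ex, ζ t = 0) → nsq ζ ≤ zb ^ 2 →
        n1 ζ ≤ (P.p (l + 1) : ℝ) ^ 6 * zb →
        nsq (C.ck k (Q (uh S ζ))) ≤
          zb ^ 2 * (∑ a ∈ lvl P l, nsq (fun t => C.z k t a) + C.κ k ^ 2 / P.K) := by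
  refine lev1_core hB hS hl hQ (ckL C k) (∑ a ∈ lvl P l, nsq (fun t => C.z k t a)) (C.κ k ^ 2)
    ?_ ?_ (hQ.rk k hk)
  · exact sum_congr rfl fun a _ => by rw [ckL_apply, ck_single]
  · refine (sum_le_sum_of_subset_of_nonneg (filter_subset _ _) fun a _ _ => nsq_nonneg _).trans ?_
    refine le_trans (le_of_eq ?_) (C.c2 k hk)
    unfold nsq
    exact sum_comm

theorem lev_e4 (hB : P.Big) (hS : Good P S) (C : Can S F Db) {l : ℕ} (hl : l < P.K)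
    {Q : (P.A → ℝ) →ₗ[ℝ] (P.A → ℝ)} (hQ : LQ C l Q) :
    ∃ Ex : Finset (Fin P.T), Ex.card ≤ 2 * P.N l ^ 3 ∧
      ∀ (ζ : Fin P.T → ℝ) (zb : ℝ), 0 ≤ zb → (∀ t ∈ Ex, ζ t = 0) → nsq ζ ≤ zb ^ 2 →
        n1 ζ ≤ (P.p (l + 1) : ℝ) ^ 6 * zb →
        ((P.p (l + 1) : ℝ) ^ 100)⁻¹ * nsq (lv l (uh S ζ) - Q (uh S ζ)) ≤
          zb ^ 2 / (P.K : ℝ) ^ 5 := by
  have hp := hB.one_le_p_real (l + 1)
  have hp0 : (0 : ℝ) < (P.p (l + 1) : ℝ) := hB.p_pos_real (l + 1)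
  have hm := hB.m_le_p_real l
  have hm0 := hB.m_pos_real
  have hK := hB.one_le_K
  have hKp := hB.K_pow_le_real l
  have hrdim := hQ.rdim
  set p : ℝ := (P.p (l + 1) : ℝ) with hpdef
  let R : (P.A → ℝ) →ₗ[ℝ] (P.A → ℝ) :=
    { toFun := fun u => lv l u - Q u
      map_add' := fun x y => by
        show lv l (x + y) - Q (x + y) = (lv l x - Q x) + (lv l y - Q y)
        rw [lv_add, map_add]; abel
      map_smul' := fun c x => by
        show lv l (c • x) - Q (c • x) = c • (lv l x - Q x)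
        rw [lv_smul, map_smul, smul_sub] }
  have hR : ∀ u, R u = lv l u - Q u := fun u => rfl
  have hlvs : ∀ a : P.A, lv l (Pi.single a 1 : P.A → ℝ)
      = if (a.1 : ℕ) = l then Pi.single a 1 else 0 := by
    intro a
    funext b
    by_cases hab : b = a
    · subst hab
      simp only [lv]
      split_ifs <;> simp
    · have h0 : (Pi.single a 1 : P.A → ℝ) b = 0 := by simp [Pi.single_apply, hab]
      simp only [lv, h0]
      split_ifs <;> simp [h0]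
  have hR0 : ∀ a : P.A, (a.1 : ℕ) ≠ l → R (Pi.single a 1) = 0 := by
    intro a ha
    rw [hR, hlvs, if_neg ha, lev1_Q_single hQ a ha, sub_zero]
  have hHS : ∑ a, nsq (R (Pi.single a 1)) ≤ (p ^ 21) ^ 2 := by
    have e : ∑ a, nsq (R (Pi.single a 1))
        = ∑ a ∈ lvl P l, nsq ((Pi.single a 1 : P.A → ℝ) - Q (Pi.single a 1)) := by
      unfold lvl
      rw [Finset.sum_filter]
      refine sum_congr rfl fun a _ => ?_
      split_ifs with h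
      · rw [hR, hlvs, if_pos h]
      · rw [hR0 a h, nsq_zero]
    rw [e, ← pow_mul]
    exact hrdim
  obtain ⟨Ex, hc, hEx⟩ := star hB hS hl (fun a => R (Pi.single a 1)) hR0 (p ^ 21) 1
    (by positivity) zero_le_one hHS (by
      intro u
      show nsq (∑ a, u a • R (Pi.single a 1)) ≤ _
      rw [lev1_lin, hR, lev1_nsq_sub hQ, one_pow, one_mul]
      have h1 := nsq_nonneg (Q u)
      have h2 := nsq_lv_le l u
      linarith)
  refine ⟨Ex, hc, fun ζ zb hzb hζ h2 h1 => ?_⟩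
  have h3 : nsq (lv l (uh S ζ) - Q (uh S ζ)) ≤ nsq ζ * ((p ^ 21) ^ 2 + P.m * 1 * p ^ 21)
      + P.m * 1 * p ^ 21 * n1 ζ ^ 2 := by
    have := hEx ζ hζ
    rwa [show ∑ a, uh S ζ a • (fun a => R (Pi.single a 1)) a = R (uh S ζ) from lev1_lin R _,
      hR] at this
  have h5 : n1 ζ ^ 2 ≤ p ^ 12 * zb ^ 2 := by
    calc n1 ζ ^ 2 ≤ (p ^ 6 * zb) ^ 2 := pow_le_pow_left₀ (n1_nonneg ζ) h1 2
      _ = p ^ 12 * zb ^ 2 := by ring
  have hz : 0 ≤ zb ^ 2 := sq_nonneg _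
  have h3p : (3 : ℝ) ≤ p := by
    refine le_trans ?_ hKp
    have h1 : (1 : ℝ) ≤ 1000 * (P.K : ℝ) := by linarith
    calc (3 : ℝ) ≤ 1000 * (P.K : ℝ) := by linarith
      _ ≤ (1000 * (P.K : ℝ)) ^ 20 := le_self_pow₀ h1 (by norm_num)
  have h6 : nsq (lv l (uh S ζ) - Q (uh S ζ)) ≤ zb ^ 2 * p ^ 43 := by
    calc nsq (lv l (uh S ζ) - Q (uh S ζ))
        ≤ nsq ζ * ((p ^ 21) ^ 2 + P.m * 1 * p ^ 21) + P.m * 1 * p ^ 21 * n1 ζ ^ 2 := h3
      _ ≤ zb ^ 2 * ((p ^ 21) ^ 2 + P.m * 1 * p ^ 21) + P.m * 1 * p ^ 21 * (p ^ 12 * zb ^ 2) := by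
          refine add_le_add ?_ ?_
          · exact mul_le_mul_of_nonneg_right h2 (by positivity)
          · exact mul_le_mul_of_nonneg_left h5 (by positivity)
      _ = zb ^ 2 * (p ^ 42 + (P.m : ℝ) * (p ^ 21 + p ^ 33)) := by ring
      _ ≤ zb ^ 2 * (p ^ 42 + p * (p ^ 33 + p ^ 33)) := by
          apply mul_le_mul_of_nonneg_left _ hz
          apply add_le_add le_rfl
          apply mul_le_mul hm _ (by positivity) hp0.le
          apply add_le_add _ le_rfl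
          exact pow_le_pow_right₀ hp (by norm_num)
      _ = zb ^ 2 * (p ^ 42 + 2 * p ^ 34) := by ring
      _ ≤ zb ^ 2 * (p ^ 42 + 2 * p ^ 42) := by
          apply mul_le_mul_of_nonneg_left _ hz
          apply add_le_add le_rfl
          apply mul_le_mul_of_nonneg_left _ (by norm_num)
          exact pow_le_pow_right₀ hp (by norm_num)
      _ = zb ^ 2 * (3 * p ^ 42) := by ring
      _ ≤ zb ^ 2 * (p * p ^ 42) := by
          apply mul_le_mul_of_nonneg_left _ hz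
          exact mul_le_mul_of_nonneg_right h3p (by positivity)
      _ = zb ^ 2 * p ^ 43 := by ring
  have h7 : (P.K : ℝ) ^ 5 ≤ p := by
    refine le_trans ?_ hKp
    have h1 : (1 : ℝ) ≤ 1000 * (P.K : ℝ) := by linarith
    calc (P.K : ℝ) ^ 5 ≤ (1000 * (P.K : ℝ)) ^ 5 :=
          pow_le_pow_left₀ (by linarith) (by linarith) 5
      _ ≤ (1000 * (P.K : ℝ)) ^ 20 := pow_le_pow_right₀ h1 (by norm_num)
  have hK5 : (0 : ℝ) < (P.K : ℝ) ^ 5 := by positivity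
  rw [inv_mul_eq_div, div_le_div_iff₀ (by positivity) hK5]
  calc nsq (lv l (uh S ζ) - Q (uh S ζ)) * (P.K : ℝ) ^ 5
      ≤ (zb ^ 2 * p ^ 43) * p := mul_le_mul h6 h7 hK5.le (by positivity)
    _ = zb ^ 2 * p ^ 44 := by ring
    _ ≤ zb ^ 2 * p ^ 100 := by
        apply mul_le_mul_of_nonneg_left _ hz
        exact pow_le_pow_right₀ hp (by norm_num)

end Pool.Agent.PEL
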