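import Pool.Agent.PEL.LevDefs
import Pool.Agent.PEL.Star
import Pool.Agent.PEL.Lev0

/-!
# PEL-LEV2 : (e3) of the level lemma (`k ≤ l`)

`star` with `h_a = W_k c_k Q e_a`, `op = 2Kκ p_{l+1}^{-20}`, `HS = κ p_{k+1}^{-6}`.
-/

set_option autoImplicit false

namespace Pool.Agent.PEL

open Finset

variable {P : Par} {S : P.Sam} {F : Submodule ℝ (P.A → ℝ)} {Db : ℝ}

section lev2
variable {C : Can S F Db} {l : ℕ} {Q : (P.A → ℝ) →ₗ[ℝ] (P.A → ℝ)}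

private theorem lev2_lin {G : Type} (L : (P.A → ℝ) →ₗ[ℝ] (G → ℝ)) (u : P.A → ℝ) :
    ∑ a, u a • L (Pi.single a 1) = L u := by
  have e : u = ∑ a, u a • (Pi.single a 1 : P.A → ℝ) := by
    funext b
    rw [Finset.sum_apply, Finset.sum_eq_single b]
    · simp
    · intro a _ hab
      simp [Pi.single_apply, Ne.symm hab]
    · intro h; exact absurd (mem_univ _) h
  conv_rhs => rw [e]
  rw [map_sum]
  exact sum_congr rfl fun a _ => (L.map_smul _ _).symm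

private theorem lev2_Q_single (hQ : LQ C l Q) (a : P.A) (ha : (a.1 : ℕ) ≠ l) :
    Q (Pi.single a 1) = 0 := by
  rw [← nsq_eq_zero, ← ip_self, hQ.sym, ip_comm, hQ.idem, ip_single]
  exact hQ.supp _ a ha

private theorem lev2_nsq_Q_le (hQ : LQ C l Q) (x : P.A → ℝ) : nsq (Q x) ≤ nsq x := by
  have h1 : nsq (Q x) = ip x (Q x) := by
    rw [← ip_self, hQ.sym, hQ.idem]
  have h2 : 0 ≤ nsq (x - Q x) := nsq_nonneg _
  rw [nsq_sub, ← h1] at h2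
  linarith

private theorem lev2_sum_le (C : Can S F Db) {k l : ℕ} (hk : k < P.K) :
    ∑ a ∈ lvl P l, nsq (fun t => C.z k t a) ≤ C.κ k ^ 2 := by
  refine le_trans ?_ (C.c2 k hk)
  calc ∑ a ∈ lvl P l, nsq (fun t => C.z k t a) ≤ ∑ a, nsq (fun t => C.z k t a) :=
        sum_le_sum_of_subset_of_nonneg (filter_subset _ _) fun a _ _ => nsq_nonneg _
    _ = ∑ t, nsq (C.z k t) := by unfold nsq; rw [sum_comm]

private theorem lev2_row_le (hQ : LQ C l Q) {k : ℕ} (hk : k < P.K) (t : Fin P.T) :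
    (P.p (l + 1) : ℝ) ^ 40 * nsq (Q (C.z k t)) ≤ C.κ k ^ 2 := by
  set z' := Q (C.z k t) with hz'
  rcases (nsq_nonneg z').eq_or_lt with h0 | h0
  · rw [← h0, mul_zero]; exact sq_nonneg _
  have h1 := hQ.rk k hk z'
  have h2 : C.ck k (Q z') t = nsq z' := by
    show ip (C.z k t) (Q z') = nsq z'
    rw [← ip_self, ← hQ.sym]
  have h3 : nsq z' ^ 2 ≤ nsq (C.ck k (Q z')) := by
    rw [← h2]
    exact single_le_sum (f := fun s => C.ck k (Q z') s ^ 2) (fun i _ => sq_nonneg _) (mem_univ t)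
  have h4 : (P.p (l + 1) : ℝ) ^ 40 * nsq z' ^ 2 ≤ C.κ k ^ 2 * nsq z' :=
    (mul_le_mul_of_nonneg_left h3 (by positivity)).trans
      (h1.trans (mul_le_mul_of_nonneg_right (lev2_sum_le C hk) h0.le))
  have h5 : ((P.p (l + 1) : ℝ) ^ 40 * nsq z') * nsq z' ≤ C.κ k ^ 2 * nsq z' := by
    calc _ = (P.p (l + 1) : ℝ) ^ 40 * nsq z' ^ 2 := by ring
      _ ≤ _ := h4
  exact le_of_mul_le_mul_right h5 h0

/-- numbers for the Hilbert-Schmidt bound -/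
private theorem lev2_num1 {K m p q κ X Y : ℝ} (hK : 1 ≤ K) (hm0 : 0 ≤ m) (hm : m ≤ q)
    (hq1 : 1 ≤ q) (hqp : q ≤ p) (hKq : 6 * K ≤ q) (hκ : 0 ≤ κ)
    (hX : X ≤ κ / p ^ 20 * (2 * m * q ^ 5 * κ)) (hY : Y ≤ (2 * m * q ^ 5 * κ) ^ 2) :
    K * (X + (q ^ 40)⁻¹ * Y) ≤ (κ / q ^ 6) ^ 2 := by
  have hq0 : 0 < q := by linarith
  have hp0 : 0 < p := by linarith
  have h1 : X ≤ 2 * κ ^ 2 / q ^ 14 := by
    refine hX.trans ?_
    have e1 : κ / p ^ 20 ≤ κ / q ^ 20 := by gcongr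
    calc κ / p ^ 20 * (2 * m * q ^ 5 * κ) ≤ κ / q ^ 20 * (2 * q * q ^ 5 * κ) := by gcongr
      _ = 2 * κ ^ 2 / q ^ 14 := by field_simp
  have h2 : (q ^ 40)⁻¹ * Y ≤ 4 * κ ^ 2 / q ^ 28 := by
    calc (q ^ 40)⁻¹ * Y ≤ (q ^ 40)⁻¹ * (2 * m * q ^ 5 * κ) ^ 2 := by gcongr
      _ ≤ (q ^ 40)⁻¹ * (2 * q * q ^ 5 * κ) ^ 2 := by gcongr
      _ = 4 * κ ^ 2 / q ^ 28 := by field_simp; ring
  have h3 : 4 * κ ^ 2 / q ^ 28 ≤ 4 * κ ^ 2 / q ^ 14 := by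
    have : q ^ 14 ≤ q ^ 28 := pow_le_pow_right₀ hq1 (by norm_num)
    gcongr
  calc K * (X + (q ^ 40)⁻¹ * Y) ≤ K * (2 * κ ^ 2 / q ^ 14 + 4 * κ ^ 2 / q ^ 14) := by
        gcongr
        exact h2.trans h3
    _ = (6 * K) * (κ ^ 2 / q ^ 14) := by ring
    _ ≤ q * (κ ^ 2 / q ^ 14) := by gcongr
    _ = κ ^ 2 / q ^ 13 := by field_simp
    _ ≤ κ ^ 2 / q ^ 12 := by
        have : q ^ 12 ≤ q ^ 13 := pow_le_pow_right₀ hq1 (by norm_num)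
        gcongr
    _ = (κ / q ^ 6) ^ 2 := by rw [div_pow, ← pow_mul]

/-- numbers for the conclusion -/
private theorem lev2_num2 {K m p q κ zb Z n X : ℝ} (hK : 1 ≤ K) (hm0 : 0 ≤ m) (hm : m ≤ p)
    (hq1 : 1 ≤ q) (hqp : q ≤ p) (hKq : (1000 * K) ^ 20 ≤ q) (hκ : 0 ≤ κ) (hzb : 0 ≤ zb)
    (hn0 : 0 ≤ n) (hZ0 : 0 ≤ Z) (hZ : Z ≤ zb ^ 2) (hn : n ≤ p ^ 6 * zb)
    (hX : X ≤ Z * ((κ / q ^ 6) ^ 2 + m * (2 * K * κ / p ^ 20) * (κ / q ^ 6)) +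
      m * (2 * K * κ / p ^ 20) * (κ / q ^ 6) * n ^ 2) :
    X ≤ zb ^ 2 * (κ ^ 2 / K ^ 5) := by
  have hq0 : 0 < q := by linarith
  have hp1 : 1 ≤ p := hq1.trans hqp
  have hp0 : 0 < p := by linarith
  have hK0 : 0 < K := by linarith
  have hn2 : n ^ 2 ≤ p ^ 12 * zb ^ 2 := by
    calc n ^ 2 ≤ (p ^ 6 * zb) ^ 2 := pow_le_pow_left₀ hn0 hn 2
      _ = p ^ 12 * zb ^ 2 := by ring
  have hO : 0 ≤ m * (2 * K * κ / p ^ 20) * (κ / q ^ 6) := by positivity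
  set O := m * (2 * K * κ / p ^ 20) * (κ / q ^ 6) with hOd
  have h1 : X ≤ zb ^ 2 * ((κ / q ^ 6) ^ 2 + O) + O * (p ^ 12 * zb ^ 2) := by
    refine hX.trans (add_le_add ?_ ?_)
    · exact mul_le_mul_of_nonneg_right hZ (by positivity)
    · exact mul_le_mul_of_nonneg_left hn2 hO
  have h2 : O * (1 + p ^ 12) ≤ 4 * K * κ ^ 2 / q ^ 6 := by
    have e1 : (1 : ℝ) + p ^ 12 ≤ 2 * p ^ 12 := by
      have := one_le_pow₀ hp1 (n := 12); linarith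
    have e2 : O ≤ p * (2 * K * κ / p ^ 20) * (κ / q ^ 6) := by rw [hOd]; gcongr
    calc O * (1 + p ^ 12) ≤ (p * (2 * K * κ / p ^ 20) * (κ / q ^ 6)) * (2 * p ^ 12) := by
          gcongr
      _ = (4 * K * κ ^ 2 / q ^ 6) * (1 / p ^ 7) := by field_simp; ring
      _ ≤ (4 * K * κ ^ 2 / q ^ 6) * 1 := by
          gcongr
          rw [div_le_one (by positivity)]
          exact one_le_pow₀ hp1
      _ = _ := mul_one _
  have h3 : (κ / q ^ 6) ^ 2 ≤ K * κ ^ 2 / q ^ 6 := by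
    calc (κ / q ^ 6) ^ 2 = κ ^ 2 / q ^ 12 := by rw [div_pow, ← pow_mul]
      _ ≤ κ ^ 2 / q ^ 6 := by
          have : q ^ 6 ≤ q ^ 12 := pow_le_pow_right₀ hq1 (by norm_num)
          gcongr
      _ = 1 * κ ^ 2 / q ^ 6 := by ring
      _ ≤ K * κ ^ 2 / q ^ 6 := by gcongr
  have h4 : 5 * K ^ 6 ≤ q := by
    have e1 : (1 : ℝ) ≤ 1000 * K := by linarith
    calc 5 * K ^ 6 ≤ 1000 ^ 6 * K ^ 6 := by gcongr; norm_num
      _ = (1000 * K) ^ 6 := by ring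
      _ ≤ (1000 * K) ^ 20 := pow_le_pow_right₀ e1 (by norm_num)
      _ ≤ q := hKq
  have h5 : 5 * K * κ ^ 2 / q ^ 6 ≤ κ ^ 2 / K ^ 5 := by
    rw [div_le_div_iff₀ (by positivity) (by positivity)]
    have e1 : q ≤ q ^ 6 := le_self_pow₀ hq1 (by norm_num)
    calc 5 * K * κ ^ 2 * K ^ 5 = κ ^ 2 * (5 * K ^ 6) := by ring
      _ ≤ κ ^ 2 * q ^ 6 := by gcongr; exact h4.trans e1
  calc X ≤ zb ^ 2 * ((κ / q ^ 6) ^ 2 + O) + O * (p ^ 12 * zb ^ 2) := h1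
    _ = zb ^ 2 * ((κ / q ^ 6) ^ 2 + O * (1 + p ^ 12)) := by ring
    _ ≤ zb ^ 2 * (K * κ ^ 2 / q ^ 6 + 4 * K * κ ^ 2 / q ^ 6) := by gcongr
    _ = zb ^ 2 * (5 * K * κ ^ 2 / q ^ 6) := by ring
    _ ≤ zb ^ 2 * (κ ^ 2 / K ^ 5) := by gcongr

/-- the Hilbert-Schmidt bound of `W_k c_k Q` -/
private theorem lev2_HS (hB : P.Big) (hS : Good P S) (hl : l < P.K) (hQ : LQ C l Q) {k : ℕ}
    (hk : k ≤ l) :
    ∑ a, nsq (W S k (C.ck k (Q (Pi.single a 1)))) ≤ (C.κ k / (P.p (k + 1) : ℝ) ^ 6) ^ 2 := by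
  have hkK : k < P.K := lt_of_le_of_lt hk hl
  have hK := hB.one_le_K
  have hm0 := hB.m_pos_real
  have hm := hB.m_le_p_real k
  have hq1 := hB.one_le_p_real (k + 1)
  have hqp : (P.p (k + 1) : ℝ) ≤ P.p (l + 1) := hB.p_mono_real (by omega)
  have hp0 := hB.p_pos_real (l + 1)
  have hκ := C.κpos k
  have hKq : 6 * (P.K : ℝ) ≤ P.p (k + 1) := by
    refine le_trans ?_ (hB.K_pow_le_real k)
    have h1 : (1 : ℝ) ≤ 1000 * (P.K : ℝ) := by linarith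
    calc 6 * (P.K : ℝ) ≤ 1000 * (P.K : ℝ) := by linarith
      _ ≤ (1000 * (P.K : ℝ)) ^ 20 := le_self_pow₀ h1 (by norm_num)
  have e1 : ∀ a : P.A, C.ck k (Q (Pi.single a 1)) = fun t => Q (C.z k t) a := by
    intro a
    funext t
    show ip (C.z k t) (Q (Pi.single a 1)) = _
    rw [← hQ.sym, ip_single]
  have h1 : ∀ a : P.A, nsq (W S k (C.ck k (Q (Pi.single a 1)))) ≤
      P.K * (nsq (fun t => Q (C.z k t) a) + ((P.p (k + 1) : ℝ) ^ 40)⁻¹ *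
        n1 (fun t => Q (C.z k t) a) ^ 2) := by
    intro a
    rw [e1]
    exact nsq_W_le hB hS k _
  have h2 : ∑ t, nm (Q (C.z k t)) ≤ 2 * P.m * (P.p (k + 1) : ℝ) ^ 5 * C.κ k := by
    refine le_trans (sum_le_sum fun t _ => ?_) (C.c4 k hkK)
    exact Real.sqrt_le_sqrt (lev2_nsq_Q_le hQ _)
  have h3 : ∀ t, nm (Q (C.z k t)) ≤ C.κ k / (P.p (l + 1) : ℝ) ^ 20 := by
    intro t
    rw [nm_le_iff (by positivity), div_pow, le_div_iff₀ (by positivity), ← pow_mul, mul_comm]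
    exact lev2_row_le hQ hkK t
  have h4 : ∑ t, nsq (Q (C.z k t)) ≤ C.κ k / (P.p (l + 1) : ℝ) ^ 20 *
      (2 * P.m * (P.p (k + 1) : ℝ) ^ 5 * C.κ k) := by
    calc ∑ t, nsq (Q (C.z k t)) ≤ ∑ t, C.κ k / (P.p (l + 1) : ℝ) ^ 20 * nm (Q (C.z k t)) := by
          refine sum_le_sum fun t _ => ?_
          rw [← nm_sq, sq]
          exact mul_le_mul_of_nonneg_right (h3 t) (nm_nonneg _)
      _ = C.κ k / (P.p (l + 1) : ℝ) ^ 20 * ∑ t, nm (Q (C.z k t)) := by rw [mul_sum]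
      _ ≤ _ := mul_le_mul_of_nonneg_left h2 (by positivity)
  have h5 : ∑ a : P.A, n1 (fun t => Q (C.z k t) a) ^ 2 ≤
      (2 * P.m * (P.p (k + 1) : ℝ) ^ 5 * C.κ k) ^ 2 :=
    (sum_n1_sq_le (fun t => Q (C.z k t))).trans
      (pow_le_pow_left₀ (sum_nonneg fun t _ => nm_nonneg _) h2 2)
  have h6 : ∑ a : P.A, nsq (fun t => Q (C.z k t) a) = ∑ t, nsq (Q (C.z k t)) := by
    unfold nsq; exact sum_comm
  refine (sum_le_sum fun a _ => h1 a).trans ?_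
  rw [← mul_sum, sum_add_distrib, ← mul_sum, h6]
  exact lev2_num1 hK (by linarith) hm hq1 hqp hKq hκ.le h4 h5

end lev2

theorem lev_e3 (hB : P.Big) (hS : Good P S) (C : Can S F Db) {l : ℕ} (hl : l < P.K)
    {Q : (P.A → ℝ) →ₗ[ℝ] (P.A → ℝ)} (hQ : LQ C l Q) {k : ℕ} (hk : k ≤ l) :
    ∃ Ex : Finset (Fin P.T), Ex.card ≤ 2 * P.N l ^ 3 ∧
      ∀ (ζ : Fin P.T → ℝ) (zb : ℝ), 0 ≤ zb → (∀ t ∈ Ex, ζ t = 0) → nsq ζ ≤ zb ^ 2 →
        n1 ζ ≤ (P.p (l + 1) : ℝ) ^ 6 * zb →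
        nsq (W S k (C.ck k (Q (uh S ζ)))) ≤ zb ^ 2 * (C.κ k ^ 2 / (P.K : ℝ) ^ 5) := by
  have hkK : k < P.K := lt_of_le_of_lt hk hl
  have hK := hB.one_le_K
  have hm0 := hB.m_pos_real
  have hm := hB.m_le_p_real l
  have hq1 := hB.one_le_p_real (k + 1)
  have hq0 := hB.p_pos_real (k + 1)
  have hqp : (P.p (k + 1) : ℝ) ≤ P.p (l + 1) := hB.p_mono_real (by omega)
  have hp0 := hB.p_pos_real (l + 1)
  have hκ := C.κpos k
  let L : (P.A → ℝ) →ₗ[ℝ] (P.A → ℝ) := WL S k ∘ₗ ckL C k ∘ₗ Q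
  have hL : ∀ u, L u = W S k (C.ck k (Q u)) := fun u => rfl
  obtain ⟨Ex, hc, hEx⟩ := star hB hS hl (fun a => L (Pi.single a 1))
    (fun a ha => by
      show L (Pi.single a 1) = 0
      show (WL S k) ((ckL C k) (Q (Pi.single a 1))) = 0
      rw [lev2_Q_single hQ a ha, map_zero, map_zero])
    (C.κ k / (P.p (k + 1) : ℝ) ^ 6) (2 * P.K * C.κ k / (P.p (l + 1) : ℝ) ^ 20)
    (by positivity) (by positivity) (lev2_HS hB hS hl hQ hk)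
    (by
      intro u
      show nsq (∑ a, u a • L (Pi.single a 1)) ≤ _
      rw [lev2_lin, hL, div_pow, ← pow_mul, div_mul_eq_mul_div, le_div_iff₀ (by positivity)]
      have h1 := hQ.rw k hkK u
      have h2 := nsq_nonneg u
      calc nsq (W S k (C.ck k (Q u))) * (P.p (l + 1) : ℝ) ^ (20 * 2)
          = (P.p (l + 1) : ℝ) ^ 40 * nsq (W S k (C.ck k (Q u))) := by rw [mul_comm]
        _ ≤ 2 * P.K * C.κ k ^ 2 * nsq u := h1
        _ ≤ (2 * P.K * C.κ k) ^ 2 * nsq u := by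
            refine mul_le_mul_of_nonneg_right ?_ h2
            have h3 : (P.K : ℝ) ≤ (P.K : ℝ) ^ 2 := le_self_pow₀ hK (by norm_num)
            have h4 := sq_nonneg (C.κ k)
            calc 2 * P.K * C.κ k ^ 2 ≤ 2 * (P.K : ℝ) ^ 2 * C.κ k ^ 2 := by gcongr
              _ ≤ 4 * (P.K : ℝ) ^ 2 * C.κ k ^ 2 := by gcongr; norm_num
              _ = (2 * P.K * C.κ k) ^ 2 := by ring)
  refine ⟨Ex, hc, fun ζ zb hzb hζ h2 h1 => ?_⟩
  have h3 := hEx ζ hζ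
  rw [show ∑ a, uh S ζ a • (fun a => L (Pi.single a 1)) a = W S k (C.ck k (Q (uh S ζ))) from
    lev2_lin L _] at h3
  exact lev2_num2 hK (by linarith) hm hq1 hqp (hB.K_pow_le_real k) hκ.le hzb (n1_nonneg ζ)
    (nsq_nonneg ζ) h2 h1 h3

end Pool.Agent.PEL
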