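import Pool.Agent.PEL.LevDefs
import Pool.Agent.PEL.Star

/-!
# PEL-LEV3 : (e5) of the level lemma, rows

`k = l+1 < K`, `z'_t := Q z_{k,t}`, `⟨z_{k,t}, Q u⟩ = ⟨z'_t, u⟩`; `nm z'_t ≤ κ p_{l+1}^{-20}` (as in LEV2, from `LQ.rk` and `C.c2`), `∑_t nsq z'_t ≤ κ²`.
Large rows `R = {t : κ² ≤ N_l² nsq z'_t}`: `|R| ≤ N_l²`. For `t ∈ R`: `star` with `G = Unit`, `h_a = z'_t a` (supported on level `l`), `HS = op = nm z'_t`:
`⟨z'_t, uh⟩² ≤ nsq ζ (1+m) nsq z' + m nsq z' n1 ζ² ≤ 3 m p^{12} κ² p^{-40} zb²`; `p² · p^{-13} ≤ 1`-type estimate (`m ≤ p`).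
Small rows: `|⟨z'_t, uh⟩| ≤ nm z'_t · nm (lv l (uh))`, `nm(lv l uh) ≤ N_l^{1/2} n1 ζ ≤ p^{50} p^6 zb`, `nm z'_t < κ/N_l = κ p^{-100}`.
`Ex` = union over `R` of the sets of `star`: card `≤ N_l² · 2N_l³`.
-/

set_option autoImplicit false

namespace Pool.Agent.PEL

open Finset

variable {P : Par} {S : P.Sam} {F : Submodule ℝ (P.A → ℝ)} {Db : ℝ}

private theorem lev3_nsq_Q_le {C : Can S F Db} {l : ℕ}
    {Q : (P.A → ℝ) →ₗ[ℝ] (P.A → ℝ)} (hQ : LQ C l Q) (x : P.A → ℝ) : nsq (Q x) ≤ nsq x := by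
  have h1 : nsq (Q x) = ip x (Q x) := by
    rw [← ip_self, hQ.sym, hQ.idem]
  have h2 : 0 ≤ nsq (x - Q x) := nsq_nonneg _
  rw [nsq_sub, ← h1] at h2
  linarith

private theorem lev3_sum_le (C : Can S F Db) {k l : ℕ} (hk : k < P.K) :
    ∑ a ∈ lvl P l, nsq (fun t => C.z k t a) ≤ C.κ k ^ 2 := by
  refine le_trans ?_ (C.c2 k hk)
  calc ∑ a ∈ lvl P l, nsq (fun t => C.z k t a) ≤ ∑ a, nsq (fun t => C.z k t a) :=
        sum_le_sum_of_subset_of_nonneg (filter_subset _ _) fun a _ _ => nsq_nonneg _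
    _ = ∑ t, nsq (C.z k t) := by unfold nsq; rw [sum_comm]

private theorem lev3_row_le {C : Can S F Db} {l : ℕ}
    {Q : (P.A → ℝ) →ₗ[ℝ] (P.A → ℝ)} (hQ : LQ C l Q) {k : ℕ} (hk : k < P.K) (t : Fin P.T) :
    (P.p (l + 1) : ℝ) ^ 40 * nsq (Q (C.z k t)) ≤ C.κ k ^ 2 := by
  set z' := Q (C.z k t) with hz'
  rcases (nsq_nonneg z').eq_or_lt with h0 | h0
  · rw [← h0, mul_zero]; exact sq_nonneg _
  have h1 := hQ.rk k hk z'
  have h2 : C.ck k (Q z') t = nsq z' := by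
    show ip (C.z k t) (Q z') = nsq z'
    rw [← ip_self, ← hQ.sym]
  have h3 : nsq z' ^ 2 ≤ nsq (C.ck k (Q z')) := by
    rw [← h2]
    exact single_le_sum (f := fun s => C.ck k (Q z') s ^ 2) (fun i _ => sq_nonneg _) (mem_univ t)
  have h4 : (P.p (l + 1) : ℝ) ^ 40 * nsq z' ^ 2 ≤ C.κ k ^ 2 * nsq z' :=
    (mul_le_mul_of_nonneg_left h3 (by positivity)).trans
      (h1.trans (mul_le_mul_of_nonneg_right (lev3_sum_le C hk) h0.le))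
  have h5 : ((P.p (l + 1) : ℝ) ^ 40 * nsq z') * nsq z' ≤ C.κ k ^ 2 * nsq z' := by
    calc _ = (P.p (l + 1) : ℝ) ^ 40 * nsq z' ^ 2 := by ring
      _ ≤ _ := h4
  exact le_of_mul_le_mul_right h5 h0

private theorem lev3_abs_uh (ζ : Fin P.T → ℝ) (a : P.A) : |uh S ζ a| ≤ n1 ζ := by
  unfold uh n1
  refine (abs_sum_le_sum_abs _ _).trans (sum_le_sum fun t _ => ?_)
  rw [abs_mul, abs_sg, mul_one]

private theorem lev3_nsq_lv_uh {l : ℕ} (hl : l < P.K) (ζ : Fin P.T → ℝ) :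
    nsq (lv l (uh S ζ)) ≤ (P.p (l + 1) : ℝ) ^ 100 * n1 ζ ^ 2 := by
  rw [nsq_lv]
  calc ∑ a ∈ lvl P l, uh S ζ a ^ 2 ≤ ∑ _a ∈ lvl P l, n1 ζ ^ 2 := sum_le_sum fun a _ => by
        rw [← sq_abs]; exact pow_le_pow_left₀ (abs_nonneg _) (lev3_abs_uh ζ a) 2
    _ = _ := by
        rw [sum_const, Par.card_lvl hl, nsmul_eq_mul, Par.N_eq]
        push_cast
        rfl

/-- one large row -/
private theorem lev3_star (hB : P.Big) (hS : Good P S) {l : ℕ} (hl : l < P.K) (z : P.A → ℝ)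
    (hz : ∀ a : P.A, (a.1 : ℕ) ≠ l → z a = 0) :
    ∃ Ex : Finset (Fin P.T), Ex.card ≤ 2 * P.N l ^ 3 ∧ ∀ ζ : Fin P.T → ℝ, (∀ t ∈ Ex, ζ t = 0) →
      ip z (uh S ζ) ^ 2 ≤ nsq ζ * (nsq z + P.m * nsq z) + P.m * nsq z * n1 ζ ^ 2 := by
  obtain ⟨Ex, h1, h2⟩ := star hB hS hl (G := Unit) (fun a _ => z a)
    (fun a ha => by funext _; exact hz a ha) (nm z) (nm z) (nm_nonneg z) (nm_nonneg z)
    (by
      rw [nm_sq]
      unfold nsq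
      refine sum_le_sum fun a _ => ?_
      simp)
    (fun u => by
      rw [nm_sq]
      have e : nsq (∑ a, u a • (fun _ : Unit => z a)) = ip z u ^ 2 := by
        unfold nsq ip
        simp only [Finset.univ_unique, Finset.sum_apply, Pi.smul_apply, smul_eq_mul, sum_singleton]
        congr 1
        exact sum_congr rfl fun a _ => mul_comm _ _
      rw [e]
      exact ip_sq_le z u)
  refine ⟨Ex, h1, fun ζ hζ => ?_⟩
  have h3 := h2 ζ hζ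
  have e : nsq (∑ a, uh S ζ a • (fun _ : Unit => z a)) = ip z (uh S ζ) ^ 2 := by
    unfold nsq ip
    simp only [Finset.univ_unique, Finset.sum_apply, Pi.smul_apply, smul_eq_mul, sum_singleton]
    congr 1
    exact sum_congr rfl fun a _ => mul_comm _ _
  rw [e, nm_sq, mul_assoc (P.m : ℝ) (nm z) (nm z), ← sq (nm z), nm_sq] at h3
  exact h3

private theorem lev3_num {p m κ zb Z nz n X : ℝ} (hp : 3 ≤ p) (hm0 : 0 ≤ m) (hm : m ≤ p)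
    (hZ0 : 0 ≤ Z) (hZ : p ^ 40 * Z ≤ κ ^ 2) (hnz : nz ≤ zb ^ 2) (_hnz0 : 0 ≤ nz)
    (hn0 : 0 ≤ n) (hn : n ≤ p ^ 6 * zb) (hzb : 0 ≤ zb) (hκ : 0 ≤ κ)
    (hX : X ^ 2 ≤ nz * (Z + m * Z) + m * Z * n ^ 2) : p ^ 2 * |X| ≤ κ * zb := by
  have hp0 : (0 : ℝ) ≤ p := by linarith
  have hp1 : (1 : ℝ) ≤ p := by linarith
  have h1 : nz * (Z + m * Z) ≤ zb ^ 2 * (Z * (2 * p)) := by
    refine mul_le_mul hnz ?_ (by positivity) (by positivity)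
    have : m * Z ≤ p * Z := mul_le_mul_of_nonneg_right hm hZ0
    nlinarith
  have h2 : m * Z * n ^ 2 ≤ (p * Z) * (p ^ 6 * zb) ^ 2 := by
    refine mul_le_mul (mul_le_mul_of_nonneg_right hm hZ0) (pow_le_pow_left₀ hn0 hn 2)
      (by positivity) (by positivity)
  have h3 : X ^ 2 ≤ 3 * p ^ 13 * (Z * zb ^ 2) := by
    have hpp : p ≤ p ^ 13 := by
      calc p = p ^ 1 := (pow_one p).symm
        _ ≤ p ^ 13 := pow_le_pow_right₀ hp1 (by norm_num)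
    have hZz : 0 ≤ Z * zb ^ 2 := by positivity
    have h4 : zb ^ 2 * (Z * (2 * p)) ≤ 2 * p ^ 13 * (Z * zb ^ 2) := by
      have := mul_le_mul_of_nonneg_right hpp hZz
      nlinarith
    have h5 : (p * Z) * (p ^ 6 * zb) ^ 2 = p ^ 13 * (Z * zb ^ 2) := by ring
    rw [h5] at h2
    linarith
  have h6 : 3 * p ^ 17 ≤ p ^ 40 := by
    calc 3 * p ^ 17 ≤ p * p ^ 17 := mul_le_mul_of_nonneg_right hp (by positivity)
      _ = p ^ 18 := by ring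
      _ ≤ p ^ 40 := pow_le_pow_right₀ hp1 (by norm_num)
  have h7 : (p ^ 2 * |X|) ^ 2 ≤ (κ * zb) ^ 2 := by
    calc (p ^ 2 * |X|) ^ 2 = p ^ 4 * X ^ 2 := by rw [mul_pow, sq_abs]; ring
      _ ≤ p ^ 4 * (3 * p ^ 13 * (Z * zb ^ 2)) := mul_le_mul_of_nonneg_left h3 (by positivity)
      _ = (3 * p ^ 17) * (Z * zb ^ 2) := by ring
      _ ≤ p ^ 40 * (Z * zb ^ 2) := mul_le_mul_of_nonneg_right h6 (by positivity)
      _ = (p ^ 40 * Z) * zb ^ 2 := by ring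
      _ ≤ κ ^ 2 * zb ^ 2 := mul_le_mul_of_nonneg_right hZ (by positivity)
      _ = (κ * zb) ^ 2 := by ring
  exact (abs_le_of_sq_le_sq' h7 (by positivity)).2

private theorem lev3_num2 {p κ zb Z L n X : ℝ} (hp : 1 ≤ p)
    (hZ0 : 0 ≤ Z) (hZ : (p ^ 100) ^ 2 * Z ≤ κ ^ 2) (hL : L ≤ p ^ 100 * n ^ 2)
    (hn0 : 0 ≤ n) (hn : n ≤ p ^ 6 * zb) (hzb : 0 ≤ zb) (hκ : 0 ≤ κ)
    (hX : X ^ 2 ≤ Z * L) : p ^ 2 * |X| ≤ κ * zb := by
  have hp0 : (0 : ℝ) ≤ p := by linarith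
  have h1 : X ^ 2 ≤ Z * (p ^ 100 * (p ^ 6 * zb) ^ 2) := by
    refine hX.trans (mul_le_mul_of_nonneg_left (hL.trans ?_) hZ0)
    exact mul_le_mul_of_nonneg_left (pow_le_pow_left₀ hn0 hn 2) (by positivity)
  have h7 : (p ^ 2 * |X|) ^ 2 ≤ (κ * zb) ^ 2 := by
    calc (p ^ 2 * |X|) ^ 2 = p ^ 4 * X ^ 2 := by rw [mul_pow, sq_abs]; ring
      _ ≤ p ^ 4 * (Z * (p ^ 100 * (p ^ 6 * zb) ^ 2)) := mul_le_mul_of_nonneg_left h1 (by positivity)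
      _ = p ^ 116 * (Z * zb ^ 2) := by ring
      _ ≤ p ^ 200 * (Z * zb ^ 2) :=
        mul_le_mul_of_nonneg_right (pow_le_pow_right₀ hp (by norm_num)) (by positivity)
      _ = ((p ^ 100) ^ 2 * Z) * zb ^ 2 := by ring
      _ ≤ κ ^ 2 * zb ^ 2 := mul_le_mul_of_nonneg_right hZ (by positivity)
      _ = (κ * zb) ^ 2 := by ring
  exact (abs_le_of_sq_le_sq' h7 (by positivity)).2

theorem lev_e5 (hB : P.Big) (hS : Good P S) (C : Can S F Db) {l : ℕ} (hl : l + 1 < P.K)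
    {Q : (P.A → ℝ) →ₗ[ℝ] (P.A → ℝ)} (hQ : LQ C l Q) :
    ∃ Ex : Finset (Fin P.T), Ex.card ≤ 2 * P.N l ^ 5 ∧
      ∀ (ζ : Fin P.T → ℝ) (zb : ℝ), 0 ≤ zb → (∀ t ∈ Ex, ζ t = 0) → nsq ζ ≤ zb ^ 2 →
        n1 ζ ≤ (P.p (l + 1) : ℝ) ^ 6 * zb →
        ∀ t, (P.p (l + 1) : ℝ) ^ 2 * |ip (C.z (l + 1) t) (Q (uh S ζ))| ≤ C.κ (l + 1) * zb := by
  classical
  have hl' : l < P.K := by omega
  have hκ := C.κpos (l + 1)
  have hp1 : (1 : ℝ) ≤ P.p (l + 1) := hB.one_le_p_real (l + 1)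
  have hp3 : (3 : ℝ) ≤ P.p (l + 1) := by
    have h1 : (1000 ^ 20 : ℕ) ≤ P.p (l + 1) := le_trans hB.m_ge (hB.m_le_p l)
    have h2 : (3 : ℕ) ≤ P.p (l + 1) := le_trans (by norm_num) h1
    exact_mod_cast h2
  have hsup : ∀ t : Fin P.T, ∀ a : P.A, (a.1 : ℕ) ≠ l → Q (C.z (l + 1) t) a = 0 :=
    fun t a ha => hQ.supp _ a ha
  choose E hE1 hE2 using fun t : Fin P.T =>
    lev3_star hB hS hl' (Q (C.z (l + 1) t)) (hsup t)
  set R : Finset (Fin P.T) := univ.filter fun t =>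
    C.κ (l + 1) ^ 2 ≤ (P.N l : ℝ) ^ 2 * nsq (Q (C.z (l + 1) t)) with hR
  have hRcard : R.card ≤ P.N l ^ 2 := by
    have h1 : (R.card : ℝ) * C.κ (l + 1) ^ 2 ≤ (P.N l : ℝ) ^ 2 * C.κ (l + 1) ^ 2 := by
      calc (R.card : ℝ) * C.κ (l + 1) ^ 2 = ∑ _t ∈ R, C.κ (l + 1) ^ 2 := by
            rw [sum_const, nsmul_eq_mul]
        _ ≤ ∑ t ∈ R, (P.N l : ℝ) ^ 2 * nsq (Q (C.z (l + 1) t)) :=
            sum_le_sum fun t ht => (mem_filter.mp ht).2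
        _ ≤ ∑ t, (P.N l : ℝ) ^ 2 * nsq (Q (C.z (l + 1) t)) :=
            sum_le_sum_of_subset_of_nonneg (filter_subset _ _) fun t _ _ =>
              mul_nonneg (sq_nonneg _) (nsq_nonneg _)
        _ = (P.N l : ℝ) ^ 2 * ∑ t, nsq (Q (C.z (l + 1) t)) := by rw [mul_sum]
        _ ≤ (P.N l : ℝ) ^ 2 * ∑ t, nsq (C.z (l + 1) t) :=
            mul_le_mul_of_nonneg_left (sum_le_sum fun t _ => lev3_nsq_Q_le hQ _) (sq_nonneg _)
        _ ≤ _ := mul_le_mul_of_nonneg_left (C.c2 _ hl) (sq_nonneg _)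
    have h2 : (R.card : ℝ) ≤ (P.N l : ℝ) ^ 2 := le_of_mul_le_mul_right h1 (by positivity)
    exact_mod_cast h2
  refine ⟨R.biUnion E, ?_, ?_⟩
  · calc (R.biUnion E).card ≤ ∑ t ∈ R, (E t).card := card_biUnion_le
      _ ≤ ∑ _t ∈ R, 2 * P.N l ^ 3 := sum_le_sum fun t _ => hE1 t
      _ = R.card * (2 * P.N l ^ 3) := by rw [sum_const, smul_eq_mul]
      _ ≤ P.N l ^ 2 * (2 * P.N l ^ 3) := Nat.mul_le_mul_right _ hRcard
      _ = 2 * P.N l ^ 5 := by ring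
  · intro ζ zb hzb hζ h2 h1 t
    have e1 : ip (C.z (l + 1) t) (Q (uh S ζ)) = ip (Q (C.z (l + 1) t)) (uh S ζ) :=
      (hQ.sym _ _).symm
    rw [e1]
    by_cases ht : t ∈ R
    · have h3 := hE2 t ζ fun s hs => hζ s (mem_biUnion.mpr ⟨t, ht, hs⟩)
      exact lev3_num hp3 (Nat.cast_nonneg _) (hB.m_le_p_real l) (nsq_nonneg _)
        (lev3_row_le hQ hl t) h2 (nsq_nonneg _) (n1_nonneg _) h1 hzb hκ.le h3
    · have h3 : (P.N l : ℝ) ^ 2 * nsq (Q (C.z (l + 1) t)) ≤ C.κ (l + 1) ^ 2 := by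
        by_contra hc
        exact ht (mem_filter.mpr ⟨mem_univ _, (not_le.mp hc).le⟩)
      have hN : (P.N l : ℝ) = (P.p (l + 1) : ℝ) ^ 100 := by
        rw [Par.N_eq]; push_cast; rfl
      rw [hN] at h3
      have e2 : Q (C.z (l + 1) t) = lv l (Q (C.z (l + 1) t)) := by
        funext a
        simp only [lv]
        split_ifs with h
        · rfl
        · exact hsup t a h
      have e3 : ip (Q (C.z (l + 1) t)) (uh S ζ)
          = ip (Q (C.z (l + 1) t)) (lv l (uh S ζ)) := by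
        rw [← ip_lv_comm, ← e2]
      rw [e3]
      exact lev3_num2 hp1 (nsq_nonneg _) h3 (lev3_nsq_lv_uh hl' ζ) (n1_nonneg _) h1 hzb hκ.le
        (ip_sq_le _ _)

end Pool.Agent.PEL
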