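import Pool.Agent.PEL.Lev0
import Pool.Agent.PEL.Lev1
import Pool.Agent.PEL.Lev2
import Pool.Agent.PEL.Lev3

/-!
# PEL-LEV4 : the level lemma, assembly

`Q` from `exists_LQ`; `Ex` = union of the sets of `lev_e1`, `lev_e2` (`k < K`), `lev_e3` (`k ≤ l`), `lev_e4`, `lev_e5` (if `l+1 < K`).
card `≤ (2K+3) 2N_l³ + 2N_l^5 ≤ N_l^6 = p_{l+1}^600` (`1000K ≤ p_{l+1} ≤ N_l`).
-/

set_option autoImplicit false

namespace Pool.Agent.PEL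

open Finset

variable {P : Par} {S : P.Sam} {F : Submodule ℝ (P.A → ℝ)} {Db : ℝ}

theorem lev4_num (hB : P.Big) {l : ℕ} (hl : l < P.K) (c1 c2 c3 c4 c5 : ℕ)
    (h1 : c1 ≤ 2 * P.N l ^ 3) (h2 : c2 ≤ P.K * (2 * P.N l ^ 3))
    (h3 : c3 ≤ (l + 1) * (2 * P.N l ^ 3)) (h4 : c4 ≤ 2 * P.N l ^ 3) (h5 : c5 ≤ 2 * P.N l ^ 5) :
    c1 + c2 + c3 + c4 + c5 ≤ P.p (l + 1) ^ 600 := by
  have hK := hB.hK
  have hp1 : 1 ≤ P.p (l + 1) := hB.one_le_p (l + 1)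
  have hpK : 1000 * P.K ≤ P.p (l + 1) :=
    (Nat.le_self_pow (by norm_num) _).trans (hB.K_pow_le l)
  have hNp : P.p (l + 1) ≤ P.N l := Nat.le_self_pow (by norm_num) _
  have hNK : 1000 * P.K ≤ P.N l := hpK.trans hNp
  have e : P.p (l + 1) ^ 600 = P.N l ^ 6 := by
    unfold Par.N
    rw [← pow_mul]
  rw [e]
  generalize P.N l = N at *
  have hN1 : 1 ≤ N := hp1.trans hNp
  have h3' : (l + 1) * (2 * N ^ 3) ≤ P.K * (2 * N ^ 3) := Nat.mul_le_mul_right _ hl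
  have a1 : 8 * P.K * N ^ 3 ≤ N * N ^ 3 := Nat.mul_le_mul_right _ (by omega)
  have a2 : 2 * N ^ 3 ≤ P.K * (2 * N ^ 3) := Nat.le_mul_of_pos_left _ hK
  have a3 : N * N ^ 3 ≤ N ^ 5 := by
    calc N * N ^ 3 = N ^ 4 := by ring
      _ ≤ N ^ 5 := Nat.pow_le_pow_right hN1 (by norm_num)
  have a4 : 3 * N ^ 5 ≤ N ^ 6 := by
    calc 3 * N ^ 5 ≤ N * N ^ 5 := Nat.mul_le_mul_right _ (by omega)
      _ = N ^ 6 := by ring
  have a5 : 8 * P.K * N ^ 3 = 4 * (P.K * (2 * N ^ 3)) := by ring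
  omega

theorem exists_lvl (hB : P.Big) (hS : Good P S) (C : Can S F Db) {l : ℕ} (hl : l < P.K) :
    ∃ Q Ex, Lvl C l Q Ex := by
  classical
  obtain ⟨Q, hQ⟩ := exists_LQ hB hS C hl
  obtain ⟨E1, c1, e1⟩ := lev_e1 hB hS C hl hQ
  obtain ⟨E4, c4, e4⟩ := lev_e4 hB hS C hl hQ
  have h2 : ∀ k, ∃ Ex : Finset (Fin P.T), Ex.card ≤ 2 * P.N l ^ 3 ∧ (k < P.K →
      ∀ (ζ : Fin P.T → ℝ) (zb : ℝ), 0 ≤ zb → (∀ t ∈ Ex, ζ t = 0) → nsq ζ ≤ zb ^ 2 →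
        n1 ζ ≤ (P.p (l + 1) : ℝ) ^ 6 * zb →
        nsq (C.ck k (Q (uh S ζ))) ≤
          zb ^ 2 * (∑ a ∈ lvl P l, nsq (fun t => C.z k t a) + C.κ k ^ 2 / P.K)) := by
    intro k
    by_cases hk : k < P.K
    · obtain ⟨E, c, e⟩ := lev_e2 hB hS C hl hQ hk
      exact ⟨E, c, fun _ => e⟩
    · exact ⟨∅, by simp, fun h => absurd h hk⟩
  choose E2 c2 e2 using h2
  have h3 : ∀ k, ∃ Ex : Finset (Fin P.T), Ex.card ≤ 2 * P.N l ^ 3 ∧ (k ≤ l →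
      ∀ (ζ : Fin P.T → ℝ) (zb : ℝ), 0 ≤ zb → (∀ t ∈ Ex, ζ t = 0) → nsq ζ ≤ zb ^ 2 →
        n1 ζ ≤ (P.p (l + 1) : ℝ) ^ 6 * zb →
        nsq (W S k (C.ck k (Q (uh S ζ)))) ≤ zb ^ 2 * (C.κ k ^ 2 / (P.K : ℝ) ^ 5)) := by
    intro k
    by_cases hk : k ≤ l
    · obtain ⟨E, c, e⟩ := lev_e3 hB hS C hl hQ hk
      exact ⟨E, c, fun _ => e⟩
    · exact ⟨∅, by simp, fun h => absurd h hk⟩
  choose E3 c3 e3 using h3
  have h5 : ∃ Ex : Finset (Fin P.T), Ex.card ≤ 2 * P.N l ^ 5 ∧ (l + 1 < P.K →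
      ∀ (ζ : Fin P.T → ℝ) (zb : ℝ), 0 ≤ zb → (∀ t ∈ Ex, ζ t = 0) → nsq ζ ≤ zb ^ 2 →
        n1 ζ ≤ (P.p (l + 1) : ℝ) ^ 6 * zb →
        ∀ t, (P.p (l + 1) : ℝ) ^ 2 * |ip (C.z (l + 1) t) (Q (uh S ζ))| ≤ C.κ (l + 1) * zb) := by
    by_cases hk : l + 1 < P.K
    · obtain ⟨E, c, e⟩ := lev_e5 hB hS C hk hQ
      exact ⟨E, c, fun _ => e⟩
    · exact ⟨∅, by simp, fun h => absurd h hk⟩
  obtain ⟨E5, c5, e5⟩ := h5
  set B2 := (range P.K).biUnion E2 with hB2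
  set B3 := (range (l + 1)).biUnion E3 with hB3
  have cB2 : B2.card ≤ P.K * (2 * P.N l ^ 3) := by
    refine card_biUnion_le.trans ?_
    refine (sum_le_card_nsmul _ _ _ fun k _ => c2 k).trans ?_
    rw [card_range, smul_eq_mul]
  have cB3 : B3.card ≤ (l + 1) * (2 * P.N l ^ 3) := by
    refine card_biUnion_le.trans ?_
    refine (sum_le_card_nsmul _ _ _ fun k _ => c3 k).trans ?_
    rw [card_range, smul_eq_mul]
  have s2 : ∀ k < P.K, E2 k ⊆ B2 := fun k hk => subset_biUnion_of_mem E2 (mem_range.mpr hk)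
  have s3 : ∀ k ≤ l, E3 k ⊆ B3 := fun k hk =>
    subset_biUnion_of_mem E3 (mem_range.mpr (Nat.lt_succ_of_le hk))
  refine ⟨Q, E1 ∪ B2 ∪ B3 ∪ E4 ∪ E5, ?_⟩
  have t1 : E1 ⊆ E1 ∪ B2 ∪ B3 ∪ E4 ∪ E5 := fun t ht => by simp [ht]
  have t2 : B2 ⊆ E1 ∪ B2 ∪ B3 ∪ E4 ∪ E5 := fun t ht => by
    simp only [mem_union]; exact Or.inl (Or.inl (Or.inl (Or.inr ht)))
  have t3 : B3 ⊆ E1 ∪ B2 ∪ B3 ∪ E4 ∪ E5 := fun t ht => by
    simp only [mem_union]; exact Or.inl (Or.inl (Or.inr ht))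
  have t4 : E4 ⊆ E1 ∪ B2 ∪ B3 ∪ E4 ∪ E5 := fun t ht => by
    simp only [mem_union]; exact Or.inl (Or.inr ht)
  have t5 : E5 ⊆ E1 ∪ B2 ∪ B3 ∪ E4 ∪ E5 := fun t ht => by
    simp only [mem_union]; exact Or.inr ht
  exact
    { card := by
        have u1 := card_union_le (E1 ∪ B2 ∪ B3 ∪ E4) E5
        have u2 := card_union_le (E1 ∪ B2 ∪ B3) E4
        have u3 := card_union_le (E1 ∪ B2) B3
        have u4 := card_union_le E1 B2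
        have := lev4_num hB hl _ _ _ _ _ c1 cB2 cB3 c4 c5
        omega
      sym := hQ.sym
      idem := hQ.idem
      supp := hQ.supp
      orthb := hQ.orthb
      orthk := hQ.orthk
      e1 := fun ζ zb h0 hz => e1 ζ zb h0 fun t ht => hz t (t1 ht)
      e2 := fun k hk ζ zb h0 hz => e2 k hk ζ zb h0 fun t ht => hz t (t2 (s2 k hk ht))
      e3 := fun k hk ζ zb h0 hz => e3 k hk ζ zb h0 fun t ht => hz t (t3 (s3 k hk ht))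
      e4 := fun ζ zb h0 hz => e4 ζ zb h0 fun t ht => hz t (t4 ht)
      e5 := fun hk ζ zb h0 hz => e5 hk ζ zb h0 fun t ht => hz t (t5 ht) }

end Pool.Agent.PEL
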