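import Pool.Agent.PEL.Bas

/-!
# PEL : linearity of `V`, `W`, `U`, levels, `CB`, `Rep`
-/

set_option autoImplicit false

namespace Pool.Agent.PEL

open Finset

variable {P : Par} {S : P.Sam}

theorem V_add (β γ : Fin P.T → ℝ) : V S (β + γ) = V S β + V S γ := by
  funext a; simp only [V, Pi.add_apply, add_mul, sum_add_distrib, mul_add]

theorem V_smul (c : ℝ) (β : Fin P.T → ℝ) : V S (c • β) = c • V S β := by
  funext a; simp only [V, Pi.smul_apply, smul_eq_mul, mul_assoc, ← mul_sum]; ring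

theorem W_add (k : ℕ) (β γ : Fin P.T → ℝ) : W S k (β + γ) = W S k β + W S k γ := by
  funext a; simp only [W, V_add, Pi.add_apply]; split_ifs <;> simp

theorem W_smul (k : ℕ) (c : ℝ) (β : Fin P.T → ℝ) : W S k (c • β) = c • W S k β := by
  funext a; simp only [W, V_smul, Pi.smul_apply, smul_eq_mul]; split_ifs <;> simp

theorem U_add (l : ℕ) (β γ : Fin P.T → ℝ) : U S l (β + γ) = U S l β + U S l γ := by
  funext a; simp only [U, V_add, Pi.add_apply]; split_ifs <;> simp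

theorem U_smul (l : ℕ) (c : ℝ) (β : Fin P.T → ℝ) : U S l (c • β) = c • U S l β := by
  funext a; simp only [U, V_smul, Pi.smul_apply, smul_eq_mul]; split_ifs <;> simp

/-- `W_k` as a linear map -/
noncomputable def WL (S : P.Sam) (k : ℕ) : (Fin P.T → ℝ) →ₗ[ℝ] (P.A → ℝ) where
  toFun := W S k
  map_add' := W_add k
  map_smul' := W_smul k

/-- `U_l` as a linear map -/
noncomputable def UL (S : P.Sam) (l : ℕ) : (Fin P.T → ℝ) →ₗ[ℝ] (P.A → ℝ) where
  toFun := U S l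
  map_add' := U_add l
  map_smul' := U_smul l

theorem WL_apply (k : ℕ) (β : Fin P.T → ℝ) : WL S k β = W S k β := rfl

theorem UL_apply (l : ℕ) (β : Fin P.T → ℝ) : UL S l β = U S l β := rfl

theorem W_zero (k : ℕ) : W S k (0 : Fin P.T → ℝ) = 0 := (WL S k).map_zero

theorem U_zero (l : ℕ) : U S l (0 : Fin P.T → ℝ) = 0 := (UL S l).map_zero

theorem W_sum {J : Type} (s : Finset J) (k : ℕ) (β : J → Fin P.T → ℝ) :
    W S k (∑ j ∈ s, β j) = ∑ j ∈ s, W S k (β j) := map_sum (WL S k) β s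

theorem U_sum {J : Type} (s : Finset J) (l : ℕ) (β : J → Fin P.T → ℝ) :
    U S l (∑ j ∈ s, β j) = ∑ j ∈ s, U S l (β j) := map_sum (UL S l) β s

/-- `W_k = W_{k+1} + U_k` -/
theorem W_succ (k : ℕ) (β : Fin P.T → ℝ) : W S k β = W S (k + 1) β + U S k β := by
  funext a
  simp only [W, U, Pi.add_apply]
  rcases lt_trichotomy (a.1 : ℕ) k with h | h | h
  · rw [if_neg (by omega), if_neg (by omega), if_neg (by omega)]; simp
  · rw [if_pos (by omega), if_neg (by omega), if_pos h]; simp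
  · rw [if_pos (by omega), if_pos (by omega), if_neg (by omega)]; simp

theorem W_top {k : ℕ} (hk : P.K ≤ k) (β : Fin P.T → ℝ) : W S k β = 0 := by
  funext a
  have := a.1.2
  simp only [W]
  rw [if_neg (by omega)]; rfl

theorem U_top {k : ℕ} (hk : P.K ≤ k) (β : Fin P.T → ℝ) : U S k β = 0 := by
  funext a
  have := a.1.2
  simp only [U]
  rw [if_neg (by omega)]; rfl

/-- `W_k = W_r + ∑_{k ≤ l < r} U_l` -/
theorem W_eq_add_sum {k r : ℕ} (hkr : k ≤ r) (β : Fin P.T → ℝ) :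
    W S k β = W S r β + ∑ l ∈ Ico k r, U S l β := by
  induction r, hkr using Nat.le_induction with
  | base => simp
  | succ r hr ih => rw [ih, W_succ r, Finset.sum_Ico_succ_top hr]; abel

/-- `W_k = ∑_{k ≤ l < K} U_l` -/
theorem W_eq_sum (k : ℕ) (β : Fin P.T → ℝ) : W S k β = ∑ l ∈ Ico k P.K, U S l β := by
  rcases le_total k P.K with h | h
  · rw [W_eq_add_sum h, W_top le_rfl, zero_add]
  · rw [W_top h, Finset.Ico_eq_empty (by omega)]; simp

theorem V_eq_sig_uh (β : Fin P.T → ℝ) (a : P.A) : V S β a = P.sig a * uh S β a := rfl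

theorem U_apply (l : ℕ) (β : Fin P.T → ℝ) (a : P.A) :
    U S l β a = if (a.1 : ℕ) = l then P.sig a * uh S β a else 0 := rfl

theorem U_eq_lv (l : ℕ) (β : Fin P.T → ℝ) : U S l β = lv l (V S β) := rfl

theorem lv_add (l : ℕ) (x y : P.A → ℝ) : lv l (x + y) = lv l x + lv l y := by
  funext a; simp only [lv, Pi.add_apply]; split_ifs <;> simp

theorem lv_smul (l : ℕ) (c : ℝ) (x : P.A → ℝ) : lv l (c • x) = c • lv l x := by
  funext a; simp only [lv, Pi.smul_apply, smul_eq_mul]; split_ifs <;> simp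

theorem sum_lv (x : P.A → ℝ) : ∑ l ∈ range P.K, lv l x = x := by
  funext a
  rw [Finset.sum_apply]
  simp only [lv]
  rw [Finset.sum_ite_eq, if_pos (Finset.mem_range.mpr a.1.2)]

theorem ip_lv_left (l : ℕ) (x y : P.A → ℝ) : ip (lv l x) y = ∑ a ∈ lvl P l, x a * y a := by
  unfold ip lv lvl
  rw [Finset.sum_filter]
  exact sum_congr rfl fun a _ => by split_ifs <;> simp

theorem ip_lv_comm (l : ℕ) (x y : P.A → ℝ) : ip (lv l x) y = ip x (lv l y) := by
  rw [ip_lv_left, ip_comm, ip_lv_left]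
  exact sum_congr rfl fun a _ => mul_comm _ _

theorem ip_lv_lv_of_ne {l l' : ℕ} (h : l ≠ l') (x y : P.A → ℝ) : ip (lv l x) (lv l' y) = 0 := by
  unfold ip lv
  refine sum_eq_zero fun a _ => ?_
  by_cases h1 : (a.1 : ℕ) = l
  · rw [if_pos h1, if_neg (by omega), mul_zero]
  · rw [if_neg h1, zero_mul]

theorem nsq_lv (l : ℕ) (x : P.A → ℝ) : nsq (lv l x) = ∑ a ∈ lvl P l, x a ^ 2 := by
  unfold nsq lv lvl
  rw [Finset.sum_filter]
  exact sum_congr rfl fun a _ => by split_ifs <;> simp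

theorem nsq_eq_sum_lv (x : P.A → ℝ) : nsq x = ∑ l ∈ range P.K, nsq (lv l x) := by
  unfold nsq
  rw [Par.sum_lvl]
  exact sum_congr rfl fun l _ => (nsq_lv l x).symm

theorem nsq_lv_le (l : ℕ) (x : P.A → ℝ) : nsq (lv l x) ≤ nsq x := by
  rw [nsq_lv]
  exact sum_le_sum_of_subset_of_nonneg (filter_subset _ _) fun a _ _ => sq_nonneg _

theorem lv_lv (l : ℕ) (x : P.A → ℝ) : lv l (lv l x) = lv l x := by
  funext a; simp only [lv]; split_ifs <;> rfl

theorem lv_sum {J : Type} (s : Finset J) (l : ℕ) (x : J → P.A → ℝ) :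
    lv l (∑ j ∈ s, x j) = ∑ j ∈ s, lv l (x j) := by
  funext a
  simp only [lv, Finset.sum_apply]
  split_ifs
  · rfl
  · simp

/-- vectors `x_l` supported on level `l`: `|∑ x_l|² = ∑ |x_l|²` -/
theorem nsq_sum_levels (x : ℕ → P.A → ℝ) (hx : ∀ l < P.K, lv l (x l) = x l) :
    nsq (∑ l ∈ range P.K, x l) = ∑ l ∈ range P.K, nsq (x l) := by
  rw [nsq_eq_sum_lv]
  refine sum_congr rfl fun l hl => ?_
  rw [lv_sum, Finset.sum_eq_single l]
  · rw [hx l (Finset.mem_range.mp hl)]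
  · intro l' hl' hne
    rw [← hx l' (Finset.mem_range.mp hl')]
    funext a
    simp only [lv]
    by_cases h1 : (a.1 : ℕ) = l
    · rw [if_pos h1, if_neg (by omega)]; rfl
    · rw [if_neg h1]; rfl
  · intro h; exact absurd hl h

theorem lv_U (l : ℕ) (β : Fin P.T → ℝ) : lv l (U S l β) = U S l β := by
  rw [U_eq_lv, lv_lv]

theorem nsq_W (k : ℕ) (β : Fin P.T → ℝ) :
    nsq (W S k β) = ∑ l ∈ Ico k P.K, nsq (U S l β) := by
  have e : W S k β = ∑ l ∈ range P.K, (if k ≤ l then U S l β else 0) := by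
    rw [W_eq_sum, ← Finset.sum_filter]
    congr 1
    ext l; simp only [Finset.mem_Ico, Finset.mem_filter, Finset.mem_range]; omega
  rw [e, nsq_sum_levels]
  · have e2 : Ico k P.K = (range P.K).filter (fun l => k ≤ l) := by
      ext l; simp only [Finset.mem_Ico, Finset.mem_filter, Finset.mem_range]; omega
    rw [e2, Finset.sum_filter]
    refine sum_congr rfl fun l _ => ?_
    split_ifs
    · rfl
    · exact nsq_zero
  · intro l _
    split_ifs
    · exact lv_U l β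
    · funext a; simp [lv]

/-! ### the class norms -/

theorem CB.mono {k : ℕ} {β : Fin P.T → ℝ} {r r' : ℝ} (h : CB P k β r) (hr : r ≤ r') :
    CB P k β r' := by
  have h0 := h.nonneg
  have h2 : r ^ 2 ≤ r' ^ 2 := pow_le_pow_left₀ h0 hr 2
  exact ⟨h0.trans hr, h.two.trans h2, fun t => (h.inf t).trans h2,
    h.one.trans (mul_le_mul_of_nonneg_left hr (by positivity))⟩

theorem CB_zero (k : ℕ) : CB P k 0 0 := by
  refine ⟨le_rfl, ?_, ?_, ?_⟩
  · simp [nsq]
  · intro t; simp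
  · simp [n1]

theorem CB.smul {k : ℕ} {β : Fin P.T → ℝ} {r : ℝ} (h : CB P k β r) (c : ℝ) :
    CB P k (c • β) (|c| * r) := by
  refine ⟨mul_nonneg (abs_nonneg c) h.nonneg, ?_, fun t => ?_, ?_⟩
  · rw [nsq_smul, mul_pow, sq_abs]
    exact mul_le_mul_of_nonneg_left h.two (sq_nonneg c)
  · have := mul_le_mul_of_nonneg_left (h.inf t) (sq_nonneg c)
    rw [mul_pow, sq_abs, Pi.smul_apply, smul_eq_mul]
    calc _ = c ^ 2 * ((P.p k : ℝ) ^ 10 * β t ^ 2) := by ring
      _ ≤ _ := this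
  · rw [n1_smul]
    calc |c| * n1 β ≤ |c| * ((P.p (k + 1) : ℝ) ^ 5 * r) :=
          mul_le_mul_of_nonneg_left h.one (abs_nonneg c)
      _ = _ := by ring

theorem CB.add {k : ℕ} {β γ : Fin P.T → ℝ} {r s : ℝ} (h : CB P k β r) (h' : CB P k γ s) :
    CB P k (β + γ) (r + s) := by
  have hr := h.nonneg
  have hs := h'.nonneg
  refine ⟨add_nonneg hr hs, ?_, fun t => ?_, ?_⟩
  · rw [← nm_le_iff (add_nonneg hr hs)]
    exact (nm_add_le _ _).trans (add_le_add ((nm_le_iff hr).mpr h.two) ((nm_le_iff hs).mpr h'.two))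
  · have e1 : (P.p k : ℝ) ^ 5 * |β t| ≤ r := by
      apply abs_le_of_sq_le_sq' _ hr |>.2
      calc ((P.p k : ℝ) ^ 5 * |β t|) ^ 2 = (P.p k : ℝ) ^ 10 * β t ^ 2 := by
            rw [mul_pow, sq_abs]; ring
        _ ≤ _ := h.inf t
    have e2 : (P.p k : ℝ) ^ 5 * |γ t| ≤ s := by
      apply abs_le_of_sq_le_sq' _ hs |>.2
      calc ((P.p k : ℝ) ^ 5 * |γ t|) ^ 2 = (P.p k : ℝ) ^ 10 * γ t ^ 2 := by
            rw [mul_pow, sq_abs]; ring
        _ ≤ _ := h'.inf t
    have e3 : |β t + γ t| ≤ |β t| + |γ t| := abs_add_le _ _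
    have e4 : (P.p k : ℝ) ^ 5 * |β t + γ t| ≤ r + s := by
      have : (0 : ℝ) ≤ (P.p k : ℝ) ^ 5 := by positivity
      nlinarith [mul_le_mul_of_nonneg_left e3 this]
    calc (P.p k : ℝ) ^ 10 * ((β + γ) t) ^ 2 = ((P.p k : ℝ) ^ 5 * |β t + γ t|) ^ 2 := by
          rw [mul_pow, sq_abs, Pi.add_apply]; ring
      _ ≤ _ := pow_le_pow_left₀ (by positivity) e4 2
  · refine (n1_add_le _ _).trans ?_
    have := add_le_add h.one h'.one
    rwa [← mul_add] at this

theorem CB_single (h : P.Big) (t : Fin P.T) : CB P 0 (Pi.single t 1) 1 := by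
  have e : nsq (Pi.single t (1 : ℝ) : Fin P.T → ℝ) = 1 := by
    unfold nsq
    rw [Finset.sum_eq_single t]
    · simp
    · intro b _ hb; simp [Pi.single_apply, hb]
    · intro h; exact absurd (mem_univ _) h
  refine ⟨zero_le_one, by rw [e]; norm_num, fun s => ?_, ?_⟩
  · rw [Par.p_zero, Pi.single_apply]; split_ifs <;> simp
  · have e1 : n1 (Pi.single t (1 : ℝ) : Fin P.T → ℝ) = 1 := by
      unfold n1
      rw [Finset.sum_eq_single t]
      · simp
      · intro b _ hb; simp [Pi.single_apply, hb]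
      · intro h; exact absurd (mem_univ _) h
    rw [e1, mul_one]
    exact one_le_pow₀ (h.one_le_p_real 1)

/-! ### `Rep` -/

theorem Rep.nonneg {v : P.A → ℝ} {r : ℝ} (h : Rep S v r) : 0 ≤ r := h.1

theorem Rep.mono {v : P.A → ℝ} {r r' : ℝ} (h : Rep S v r) (hr : r ≤ r') : Rep S v r' := by
  obtain ⟨h0, b, β, ρ, h1, h2, h3⟩ := h
  exact ⟨h0.trans hr, b, β, ρ, h1, h2, h3.trans (pow_le_pow_left₀ h0 hr 2)⟩

theorem Rep_zero : Rep S 0 0 :=
  ⟨le_rfl, 0, fun _ => 0, fun _ => 0, by simp [W_zero], fun k _ => CB_zero k, by simp [nsq_zero]⟩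

theorem Rep_euclid (b : P.A → ℝ) : Rep S b (nm b) :=
  ⟨nm_nonneg b, b, fun _ => 0, fun _ => 0, by simp [W_zero], fun k _ => CB_zero k, by simp [nm_sq]⟩

theorem Rep_W {k : ℕ} {β : Fin P.T → ℝ} {r : ℝ} (hk : k < P.K) (h : CB P k β r) :
    Rep S (W S k β) r := by
  classical
  refine ⟨h.nonneg, 0, fun j => if j = k then β else 0, fun j => if j = k then r else 0, ?_, ?_, ?_⟩
  · rw [Finset.sum_eq_single k]
    · simp
    · intro j _ hj; simp [hj, W_zero]
    · intro h; exact absurd (Finset.mem_range.mpr hk) h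
  · intro j _
    by_cases hj : j = k
    · subst hj; simpa using h
    · simpa [hj] using CB_zero (P := P) j
  · rw [Finset.sum_eq_single k]
    · simp [nsq_zero]
    · intro j _ hj; simp [hj]
    · intro h; exact absurd (Finset.mem_range.mpr hk) h

theorem Rep.smul {v : P.A → ℝ} {r : ℝ} (h : Rep S v r) (c : ℝ) : Rep S (c • v) (|c| * r) := by
  obtain ⟨h0, b, β, ρ, h1, h2, h3⟩ := h
  refine ⟨mul_nonneg (abs_nonneg c) h0, c • b, fun k => c • β k, fun k => |c| * ρ k, ?_, ?_, ?_⟩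
  · rw [h1, smul_add, Finset.smul_sum]
    congr 1
    exact sum_congr rfl fun k _ => (W_smul k c _).symm
  · intro k hk; exact (h2 k hk).smul c
  · rw [nsq_smul, mul_pow, sq_abs]
    have e : ∀ k, (|c| * ρ k) ^ 2 = c ^ 2 * ρ k ^ 2 := fun k => by rw [mul_pow, sq_abs]
    simp only [e]
    rw [← mul_sum, ← mul_add]
    exact mul_le_mul_of_nonneg_left h3 (sq_nonneg c)

/-- Minkowski for `nsq b + ∑ ρ²` -/
theorem mink {ι : Type} [Fintype ι] (b b' : ι → ℝ) (K : ℕ) (ρ ρ' : ℕ → ℝ) (r r' : ℝ) (hr : 0 ≤ r)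
    (hr' : 0 ≤ r') (h : nsq b + ∑ k ∈ range K, ρ k ^ 2 ≤ r ^ 2)
    (h' : nsq b' + ∑ k ∈ range K, ρ' k ^ 2 ≤ r' ^ 2) :
    nsq (b + b') + ∑ k ∈ range K, (ρ k + ρ' k) ^ 2 ≤ (r + r') ^ 2 := by
  have e1 : nsq (b + b') + ∑ k ∈ range K, (ρ k + ρ' k) ^ 2
      = (nsq b + ∑ k ∈ range K, ρ k ^ 2) + 2 * (ip b b' + ∑ k ∈ range K, ρ k * ρ' k)
        + (nsq b' + ∑ k ∈ range K, ρ' k ^ 2) := by
    rw [nsq_add]
    have : ∀ k, (ρ k + ρ' k) ^ 2 = ρ k ^ 2 + 2 * (ρ k * ρ' k) + ρ' k ^ 2 := fun k => by ring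
    simp only [this, sum_add_distrib, ← mul_sum]
    ring
  have e2 : (ip b b' + ∑ k ∈ range K, ρ k * ρ' k) ^ 2 ≤
      (nsq b + ∑ k ∈ range K, ρ k ^ 2) * (nsq b' + ∑ k ∈ range K, ρ' k ^ 2) := by
    have h1 := ip_sq_le b b'
    have h2 := sum_mul_sq_le_sq_mul_sq (range K) ρ ρ'
    have n1 := nsq_nonneg b
    have n2 := nsq_nonneg b'
    have n3 : 0 ≤ ∑ k ∈ range K, ρ k ^ 2 := sum_nonneg fun _ _ => sq_nonneg _
    have n4 : 0 ≤ ∑ k ∈ range K, ρ' k ^ 2 := sum_nonneg fun _ _ => sq_nonneg _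
    set X := ip b b'
    set Y := ∑ k ∈ range K, ρ k * ρ' k
    set p := nsq b
    set q := nsq b'
    set s := ∑ k ∈ range K, ρ k ^ 2
    set t := ∑ k ∈ range K, ρ' k ^ 2
    have h3 : (X * Y) ^ 2 ≤ (p * t) * (s * q) := by
      calc (X * Y) ^ 2 = X ^ 2 * Y ^ 2 := by ring
        _ ≤ (p * q) * (s * t) := mul_le_mul h1 h2 (sq_nonneg _) (by positivity)
        _ = _ := by ring
    have h4 : 2 * (X * Y) ≤ p * t + s * q := by
      have h5 : (p * t) * (s * q) ≤ ((p * t + s * q) / 2) ^ 2 := by nlinarith [sq_nonneg (p * t - s * q)]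
      have h6 : X * Y ≤ (p * t + s * q) / 2 :=
        (abs_le_of_sq_le_sq' (h3.trans h5) (by positivity)).2
      linarith
    nlinarith
  have e3 : ip b b' + ∑ k ∈ range K, ρ k * ρ' k ≤ r * r' := by
    apply (abs_le_of_sq_le_sq' _ (mul_nonneg hr hr')).2
    refine e2.trans ?_
    rw [mul_pow]
    exact mul_le_mul h h' (add_nonneg (nsq_nonneg _) (sum_nonneg fun _ _ => sq_nonneg _)) (sq_nonneg r)
  rw [e1]
  nlinarith

theorem Rep.add {v v' : P.A → ℝ} {r r' : ℝ} (h : Rep S v r) (h' : Rep S v' r') :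
    Rep S (v + v') (r + r') := by
  obtain ⟨h0, b, β, ρ, h1, h2, h3⟩ := h
  obtain ⟨h0', b', β', ρ', h1', h2', h3'⟩ := h'
  refine ⟨add_nonneg h0 h0', b + b', fun k => β k + β' k, fun k => ρ k + ρ' k, ?_, ?_, ?_⟩
  · rw [h1, h1']
    simp only [W_add, sum_add_distrib]
    abel
  · intro k hk; exact (h2 k hk).add (h2' k hk)
  · exact mink b b' P.K ρ ρ' r r' h0 h0' h3 h3'

theorem Rep.neg {v : P.A → ℝ} {r : ℝ} (h : Rep S v r) : Rep S (-v) r := by
  have := h.smul (-1)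
  simpa using this

/-- the samples: `‖w_t‖_* ≤ 1` -/
theorem Rep_sample (h : P.Big) (t : Fin P.T) : Rep S (wv (S t)) 1 := by
  have e : wv (S t) = W S 0 (Pi.single t 1) := by
    funext a
    simp only [wv, W, V, Nat.zero_le, if_true]
    rw [Finset.sum_eq_single t]
    · simp
    · intro b _ hb; simp [Pi.single_apply, hb]
    · intro h; exact absurd (mem_univ _) h
  rw [e]
  exact Rep_W (by have := h.hK; omega) (CB_single h t)

end Pool.Agent.PEL
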