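import Pool.Agent.PEL.Defs

/-!
# PEL : numeric lemmas on the parameters
-/

set_option autoImplicit false

namespace Pool.Agent.PEL

open Finset

namespace Par

variable {P : Par}

theorem p_zero : P.p 0 = 1 := rfl

theorem p_succ (l : ℕ) : P.p (l + 1) = P.m ^ (500 ^ l) := rfl

theorem Big.one_le_K (h : P.Big) : (1 : ℝ) ≤ P.K := by exact_mod_cast h.hK

theorem Big.m_ge (h : P.Big) : 1000 ^ 20 ≤ P.m := by
  refine le_trans ?_ h.hm
  apply Nat.pow_le_pow_left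
  have := h.hK
  omega

theorem Big.m_pos (h : P.Big) : 1 ≤ P.m := le_trans (by norm_num) h.m_ge

theorem Big.m_le_p (_h : P.Big) (l : ℕ) : P.m ≤ P.p (l + 1) := by
  rw [p_succ]
  exact Nat.le_self_pow (by positivity) _

theorem Big.one_le_p (h : P.Big) (l : ℕ) : 1 ≤ P.p l := by
  cases l with
  | zero => exact le_refl _
  | succ l => exact le_trans h.m_pos (h.m_le_p l)

theorem Big.p_step (h : P.Big) (l : ℕ) : P.p l ^ 500 ≤ P.p (l + 1) := by
  cases l with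
  | zero => rw [p_zero, one_pow]; exact h.one_le_p 1
  | succ l => rw [p_succ, p_succ, ← pow_mul, ← pow_succ]

theorem Big.p_le_succ (h : P.Big) (l : ℕ) : P.p l ≤ P.p (l + 1) :=
  le_trans (Nat.le_self_pow (by norm_num) _) (h.p_step l)

theorem Big.p_mono (h : P.Big) : Monotone P.p := monotone_nat_of_le_succ h.p_le_succ

/-- the polynomial slack in `K` -/
theorem Big.K_pow_le (h : P.Big) (l : ℕ) : (1000 * P.K) ^ 20 ≤ P.p (l + 1) :=
  le_trans h.hm (h.m_le_p l)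

/-- real version of the slack: `(1000 K)^20 ≤ p_{l+1}` -/
theorem Big.K_pow_le_real (h : P.Big) (l : ℕ) : (1000 * (P.K : ℝ)) ^ 20 ≤ (P.p (l + 1) : ℝ) := by
  exact_mod_cast h.K_pow_le l

theorem Big.one_le_p_real (h : P.Big) (l : ℕ) : (1 : ℝ) ≤ P.p l := by exact_mod_cast h.one_le_p l

theorem Big.p_pos_real (h : P.Big) (l : ℕ) : (0 : ℝ) < P.p l := lt_of_lt_of_le one_pos (h.one_le_p_real l)

theorem Big.p_step_real (h : P.Big) (l : ℕ) : (P.p l : ℝ) ^ 500 ≤ P.p (l + 1) := by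
  exact_mod_cast h.p_step l

theorem Big.p_mono_real (h : P.Big) {k l : ℕ} (hkl : k ≤ l) : (P.p k : ℝ) ≤ P.p l := by
  exact_mod_cast h.p_mono hkl

theorem Big.m_le_p_real (h : P.Big) (l : ℕ) : (P.m : ℝ) ≤ P.p (l + 1) := by
  exact_mod_cast h.m_le_p l

theorem Big.m_pos_real (h : P.Big) : (1 : ℝ) ≤ P.m := by exact_mod_cast h.m_pos

theorem N_eq (l : ℕ) : P.N l = P.p (l + 1) ^ 100 := rfl

theorem T_eq : P.T = P.p (P.K + 1) ^ 10 := rfl

theorem Big.T_pos (h : P.Big) : 0 < P.T := by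
  rw [T_eq]; exact pow_pos (h.one_le_p _) _

/-- level `l` has `N_l` elements -/
theorem card_lvl {l : ℕ} (hl : l < P.K) : (lvl P l).card = P.N l := by
  classical
  have e : lvl P l = (univ : Finset (Fin (P.N l))).map
      ⟨fun i => (⟨⟨l, hl⟩, i⟩ : P.A), fun i j hij => by simpa using hij⟩ := by
    ext a
    obtain ⟨⟨a1, ha1⟩, a2⟩ := a
    simp only [lvl, mem_filter, mem_univ, true_and, mem_map, Function.Embedding.coeFn_mk]
    constructor
    · intro h
      subst h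
      exact ⟨a2, rfl⟩
    · rintro ⟨i, hi⟩
      have := congrArg (fun x : P.A => (x.1 : ℕ)) hi
      exact this.symm
  rw [e, card_map, card_univ, Fintype.card_fin]

theorem card_A : Fintype.card P.A = ∑ l : Fin P.K, P.N l := by
  simp [A, Fintype.card_sigma]

/-- `n ≤ p_K^101` -/
theorem Big.card_A_le (h : P.Big) : Fintype.card P.A ≤ P.p P.K ^ 101 := by
  rw [card_A]
  have h1 : ∀ l : Fin P.K, P.N l ≤ P.p P.K ^ 100 := fun l =>
    Nat.pow_le_pow_left (h.p_mono l.2) _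
  refine (Finset.sum_le_card_nsmul _ _ _ fun l _ => h1 l).trans ?_
  rw [Finset.card_univ, Fintype.card_fin, smul_eq_mul, pow_succ (P.p P.K) 100, mul_comm]
  apply Nat.mul_le_mul_left
  have hK := h.hK
  obtain ⟨k, hk⟩ : ∃ k, P.K = k + 1 := ⟨P.K - 1, by omega⟩
  have h2 := h.K_pow_le k
  rw [← hk] at h2
  refine le_trans ?_ h2
  calc P.K ≤ 1000 * P.K := by omega
    _ ≤ (1000 * P.K) ^ 20 := Nat.le_self_pow (by norm_num) _

theorem Big.card_A_pos (h : P.Big) : 0 < Fintype.card P.A := by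
  rw [card_A]
  apply Finset.sum_pos
  · intro l _
    exact pow_pos (h.one_le_p _) _
  · have : NeZero P.K := ⟨by have := h.hK; omega⟩
    exact ⟨0, Finset.mem_univ _⟩

/-- `n^40 ≤ T` -/
theorem Big.card_A_pow_le (h : P.Big) : Fintype.card P.A ^ 40 ≤ P.T := by
  refine (Nat.pow_le_pow_left h.card_A_le 40).trans ?_
  rw [T_eq, ← pow_mul]
  refine le_trans ?_ (Nat.pow_le_pow_left (h.p_step P.K) 10)
  rw [← pow_mul]
  exact Nat.pow_le_pow_right (h.one_le_p _) (by norm_num)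

/-- `∑_{l' < l} N_{l'} ≤ p_l^101` -/
theorem Big.sum_N_le (h : P.Big) {l : ℕ} (hl : l ≤ P.K) (hl0 : 1 ≤ l) :
    ∑ l' ∈ range l, P.N l' ≤ P.p l ^ 101 := by
  have h1 : ∀ l' ∈ range l, P.N l' ≤ P.p l ^ 100 := fun l' hl' =>
    Nat.pow_le_pow_left (h.p_mono (Finset.mem_range.mp hl')) _
  refine (Finset.sum_le_card_nsmul _ _ _ h1).trans ?_
  rw [Finset.card_range, smul_eq_mul, pow_succ (P.p l) 100, mul_comm]
  apply Nat.mul_le_mul_left
  obtain ⟨k, hk⟩ : ∃ k, l = k + 1 := ⟨l - 1, by omega⟩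
  have h2 := h.K_pow_le k
  rw [← hk] at h2
  refine le_trans ?_ h2
  calc l ≤ 1000 * P.K := by omega
    _ ≤ (1000 * P.K) ^ 20 := Nat.le_self_pow (by norm_num) _

theorem sig_pos (h : P.Big) (a : P.A) : 0 < P.sig a := by
  have := h.p_pos_real ((a.1 : ℕ) + 1)
  unfold sig; positivity

theorem sig_sq (a : P.A) : P.sig a ^ 2 = ((P.N a.1 : ℕ) : ℝ)⁻¹ := by
  unfold sig
  rw [N_eq, inv_pow, ← pow_mul]
  push_cast
  norm_num

/-- `∑_{a in level l} σ_a² = 1` -/
theorem sum_sig_sq_lvl (h : P.Big) {l : ℕ} (hl : l < P.K) : ∑ a ∈ lvl P l, P.sig a ^ 2 = 1 := by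
  have e : ∀ a ∈ lvl P l, P.sig a ^ 2 = ((P.N l : ℕ) : ℝ)⁻¹ := by
    intro a ha
    have : (a.1 : ℕ) = l := by simpa [lvl] using ha
    rw [sig_sq, this]
  rw [Finset.sum_congr rfl e, Finset.sum_const, card_lvl hl, nsmul_eq_mul]
  have : (0 : ℝ) < (P.N l : ℕ) := by
    exact_mod_cast pow_pos (h.one_le_p (l + 1)) 100
  exact mul_inv_cancel₀ this.ne'

/-- sums over `A` by levels -/
theorem sum_lvl (f : P.A → ℝ) : ∑ a, f a = ∑ l ∈ range P.K, ∑ a ∈ lvl P l, f a := by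
  rw [← Finset.sum_fiberwise_of_maps_to (s := univ) (t := range P.K) (g := fun a : P.A => (a.1 : ℕ))
    (fun a _ => Finset.mem_range.mpr a.1.2)]
  rfl

theorem sum_sig_sq (h : P.Big) : ∑ a, P.sig a ^ 2 = P.K := by
  rw [sum_lvl, Finset.sum_congr rfl fun l hl => sum_sig_sq_lvl h (Finset.mem_range.mp hl)]
  simp

end Par

end Pool.Agent.PEL
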