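import Pool.Agent.PEL.Tail

/-!
# PEL : exponential moments of off-diagonal quadratic forms in signs
-/

set_option autoImplicit false

namespace Pool.Agent.PEL

open Finset

section mix
variable {J X : Type} [Fintype J] [DecidableEq J] [Fintype X]

/-- mixing two points of a product -/
def mix (D : J → Prop) [DecidablePred D] (S S' : J → X) : J → X := fun j => if D j then S' j else S j

/-- resampling the coordinates in `D` -/
theorem av_mix (D : J → Prop) [DecidablePred D] (h : (J → X) → ℝ) :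
    av h = av (fun S : J → X => av (fun S' : J → X => h (mix D S S'))) := by
  rcases isEmpty_or_nonempty (J → X) with hE | hE
  · simp [av]
  · let e : (J → X) × (J → X) ≃ (J → X) × (J → X) :=
      { toFun := fun p => (mix D p.1 p.2, mix D p.2 p.1)
        invFun := fun p => (mix D p.1 p.2, mix D p.2 p.1)
        left_inv := by
          intro p
          ext j <;> simp only [mix] <;> split_ifs <;> rfl
        right_inv := by
          intro p
          ext j <;> simp only [mix] <;> split_ifs <;> rfl }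
    have h1 := av_equiv e (fun p : (J → X) × (J → X) => h p.1)
    rw [av_prod, av_prod] at h1
    have h2 : av (fun i : J → X => av fun k : J → X => h (i, k).1) = av h :=
      av_congr fun i => av_const (h i)
    rw [h2] at h1
    exact h1.symm

/-- independence of functions of disjoint sets of coordinates -/
theorem av_indep (D : J → Prop) [DecidablePred D] (f g : (J → X) → ℝ)
    (hf : ∀ S S', (∀ j, D j → S j = S' j) → f S = f S')
    (hg : ∀ S S', (∀ j, ¬ D j → S j = S' j) → g S = g S') :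
    av (fun S => f S * g S) = av f * av g := by
  rw [av_mix D]
  have e : ∀ S : J → X, av (fun S' : J → X => f (mix D S S') * g (mix D S S')) = av f * g S := by
    intro S
    rw [← av_mul_right]
    refine av_congr fun S' => ?_
    rw [hf (mix D S S') S' fun j hj => by simp only [mix, if_pos hj],
      hg (mix D S S') S fun j hj => by simp only [mix, if_neg hj]]
  rw [av_congr e, av_mul_left]

end mix

/-- Jensen's inequality for `exp` -/
theorem exp_av_le {ι : Type} [Fintype ι] [Nonempty ι] (f : ι → ℝ) :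
    Real.exp (av f) ≤ av (fun i => Real.exp (f i)) := by
  have h : ∀ i, Real.exp (av f) + Real.exp (av f) * (f i - av f) ≤ Real.exp (f i) := by
    intro i
    have h1 := Real.add_one_le_exp (f i - av f)
    have h2 : Real.exp (f i) = Real.exp (av f) * Real.exp (f i - av f) := by
      rw [← Real.exp_add]; congr 1; ring
    rw [h2]
    nlinarith [Real.exp_pos (av f)]
  have h3 := av_mono h
  rw [av_add, av_const, av_mul_left, av_sub, av_const, sub_self, mul_zero, add_zero] at h3
  exact h3

theorem quad_aux (c w D1 D2 : ℝ) (hc : 0 ≤ c) (hw : 0 ≤ w) (h1 : 0 < D1) (h2 : 0 < D2)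
    (h : D1 = D2 + 2 * c * w) : c / D1 + 2 * (c / D1) ^ 2 * w ≤ c / D2 := by
  have e : c / D2 - (c / D1 + 2 * (c / D1) ^ 2 * w) = 4 * c ^ 3 * w ^ 2 / (D2 * D1 ^ 2) := by
    field_simp
    rw [h]
    ring
  have : 0 ≤ 4 * c ^ 3 * w ^ 2 / (D2 * D1 ^ 2) := by positivity
  linarith

section cube
variable {I : Type} [Fintype I] [DecidableEq I]

/-- `E exp(c |a + ∑ ε_i y_i|²)` -/
theorem quad_mgf {ι : Type} [Fintype ι] (y : I → ι → ℝ) (c : ℝ) (hc : 0 ≤ c) (s : Finset I) :
    ∀ a : ι → ℝ, 2 * c * (∑ i ∈ s, nsq (y i)) < 1 →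
    av (fun ε : I → Bool => Real.exp (c * nsq (a + ∑ i ∈ s, sg (ε i) • y i)))
      ≤ Real.exp (c * (nsq a + ∑ i ∈ s, nsq (y i)) / (1 - 2 * c * ∑ i ∈ s, nsq (y i))) := by
  induction s using Finset.induction_on with
  | empty =>
    intro a _
    simp [av_const]
  | insert j s hj ih =>
    intro a hlt
    rw [sum_insert hj] at hlt ⊢
    set v := ∑ i ∈ s, nsq (y i) with hv
    set w := nsq (y j) with hw
    have hv0 : 0 ≤ v := sum_nonneg fun i _ => nsq_nonneg _
    have hw0 : 0 ≤ w := nsq_nonneg _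
    have hlt1 : 2 * c * v < 1 := by nlinarith [mul_nonneg hc hw0]
    rw [av_flip j]
    have hR : ∀ ε : I → Bool, ∑ i ∈ s, sg (flip j ε i) • y i = ∑ i ∈ s, sg (ε i) • y i :=
      fun ε => sum_congr rfl fun i hi => by rw [flip_ne (ne_of_mem_of_not_mem hi hj)]
    have e : ∀ ε : I → Bool,
        (Real.exp (c * nsq (a + ∑ i ∈ insert j s, sg (ε i) • y i))
          + Real.exp (c * nsq (a + ∑ i ∈ insert j s, sg (flip j ε i) • y i))) / 2
        = (Real.exp (c * nsq ((a + y j) + ∑ i ∈ s, sg (ε i) • y i))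
          + Real.exp (c * nsq ((a - y j) + ∑ i ∈ s, sg (ε i) • y i))) * (1 / 2) := by
      intro ε
      rw [sum_insert hj, sum_insert hj, hR, flip_self, sg_not]
      rcases sg_cases (ε j) with h | h
      · rw [h, one_smul, neg_smul, one_smul, ← add_assoc, ← add_assoc, ← sub_eq_add_neg]
        ring
      · rw [h, neg_neg, one_smul, neg_smul, one_smul, ← add_assoc, ← add_assoc, ← sub_eq_add_neg]
        ring
    rw [av_congr e, av_mul_right, av_add]
    have i1 := ih (a + y j) hlt1
    have i2 := ih (a - y j) hlt1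
    set c1 := c / (1 - 2 * c * v) with hc1
    have hD1 : 0 < 1 - 2 * c * v := by linarith
    have hD2 : 0 < 1 - 2 * c * (w + v) := by linarith
    have hc10 : 0 ≤ c1 := div_nonneg hc hD1.le
    have r1 : ∀ b : ι → ℝ, c * (nsq b + v) / (1 - 2 * c * v) = c1 * (nsq b + v) := by
      intro b; rw [hc1]; ring
    rw [r1] at i1 i2
    have k1 : Real.exp (c1 * (nsq (a + y j) + v)) + Real.exp (c1 * (nsq (a - y j) + v))
        = 2 * (Real.exp (c1 * (nsq a + w + v)) * Real.cosh (2 * c1 * ip a (y j))) := by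
      rw [nsq_add, nsq_sub, Real.cosh_eq]
      have : ∀ x z : ℝ, 2 * (Real.exp x * ((Real.exp z + Real.exp (-z)) / 2))
          = Real.exp (x + z) + Real.exp (x + -z) := by
        intro x z; rw [Real.exp_add, Real.exp_add]; ring
      rw [this]
      congr 2 <;> ring
    have k2 : Real.cosh (2 * c1 * ip a (y j)) ≤ Real.exp (2 * c1 ^ 2 * (nsq a * w)) := by
      refine (Real.cosh_le_exp_half_sq _).trans (Real.exp_le_exp.mpr ?_)
      have := ip_sq_le a (y j)
      have h0 : 0 ≤ 2 * c1 ^ 2 := by positivity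
      have := mul_le_mul_of_nonneg_left this h0
      calc (2 * c1 * ip a (y j)) ^ 2 / 2 = 2 * c1 ^ 2 * ip a (y j) ^ 2 := by ring
        _ ≤ _ := this
    have k3 : c1 * (nsq a + w + v) + 2 * c1 ^ 2 * (nsq a * w)
        ≤ c * (nsq a + (w + v)) / (1 - 2 * c * (w + v)) := by
      have hA : 0 ≤ nsq a := nsq_nonneg a
      set c2 := c / (1 - 2 * c * (w + v)) with hc2
      have hc12 : c1 + 2 * c1 ^ 2 * w ≤ c2 :=
        quad_aux c w _ _ hc hw0 hD1 hD2 (by ring)
      have hc12' : c1 ≤ c2 := by nlinarith [mul_nonneg (sq_nonneg c1) hw0]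
      have : c * (nsq a + (w + v)) / (1 - 2 * c * (w + v)) = c2 * (nsq a + (w + v)) := by
        rw [hc2]; ring
      rw [this]
      nlinarith [mul_le_mul_of_nonneg_right hc12 hA, mul_le_mul_of_nonneg_right hc12'
        (add_nonneg hw0 hv0)]
    have k4 := Real.exp_pos (c1 * (nsq a + w + v))
    calc (av (fun ε : I → Bool => Real.exp (c * nsq ((a + y j) + ∑ i ∈ s, sg (ε i) • y i)))
          + av (fun ε : I → Bool => Real.exp (c * nsq ((a - y j) + ∑ i ∈ s, sg (ε i) • y i))))
            * (1 / 2)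
        ≤ (Real.exp (c1 * (nsq (a + y j) + v)) + Real.exp (c1 * (nsq (a - y j) + v)))
            * (1 / 2) := by linarith
      _ = Real.exp (c1 * (nsq a + w + v)) * Real.cosh (2 * c1 * ip a (y j)) := by
          rw [k1]; ring
      _ ≤ Real.exp (c1 * (nsq a + w + v)) * Real.exp (2 * c1 ^ 2 * (nsq a * w)) :=
          mul_le_mul_of_nonneg_left k2 k4.le
      _ = Real.exp (c1 * (nsq a + w + v) + 2 * c1 ^ 2 * (nsq a * w)) := by rw [Real.exp_add]
      _ ≤ _ := Real.exp_le_exp.mpr k3

/-- the off-diagonal quadratic form -/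
def OD (G : I → I → ℝ) (ε : I → Bool) : ℝ :=
  ∑ i, ∑ j, if i = j then 0 else G i j * (sg (ε i) * sg (ε j))

/-- the decoupled form -/
noncomputable def SF (G : I → I → ℝ) (δ ε : I → Bool) : ℝ :=
  ∑ i, ∑ j, G i j * (((1 + sg (δ i)) / 2) * ((1 - sg (δ j)) / 2)) * (sg (ε i) * sg (ε j))

theorem av_SF (G : I → I → ℝ) (ε : I → Bool) :
    av (fun δ : I → Bool => SF G δ ε) = OD G ε * (1 / 4) := by
  unfold SF OD
  rw [av_sum, sum_mul]
  refine sum_congr rfl fun i _ => ?_
  rw [av_sum, sum_mul]
  refine sum_congr rfl fun j _ => ?_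
  have e : ∀ δ : I → Bool,
      G i j * (((1 + sg (δ i)) / 2) * ((1 - sg (δ j)) / 2)) * (sg (ε i) * sg (ε j))
      = (G i j * (sg (ε i) * sg (ε j)) * (1 / 4)) *
        (1 + sg (δ i) - sg (δ j) - sg (δ i) * sg (δ j)) := by
    intro δ; ring
  rw [av_congr e, av_mul_left, av_sub, av_sub, av_add, av_const, av_sg, av_sg, av_sg_mul_sg]
  split_ifs <;> ring

omit [DecidableEq I] in
/-- one split -/
theorem SF_mgf [DecidableEq I] (G : I → I → ℝ) (hG : ∑ i, ∑ j, G i j ^ 2 ≤ 1) (δ : I → Bool) :
    av (fun ε : I → Bool => Real.exp (SF G δ ε * (1 / 2))) ≤ 2 := by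
  rw [av_mix (fun i => δ i = true)]
  set y : I → I → ℝ := fun j i => G i j * (((1 + sg (δ i)) / 2) * ((1 - sg (δ j)) / 2)) with hy
  have e1 : ∀ ε ε' : I → Bool, SF G δ (mix (fun i => δ i = true) ε ε')
      = ss (fun i => (∑ j, sg (ε j) • y j) i) ε' := by
    intro ε ε'
    unfold SF ss
    refine sum_congr rfl fun i _ => ?_
    change _ = (∑ j, sg (ε j) • y j) i * sg (ε' i)
    rw [Finset.sum_apply, sum_mul]
    refine sum_congr rfl fun j _ => ?_
    simp only [hy, mix, Pi.smul_apply, smul_eq_mul]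
    rcases Bool.eq_false_or_eq_true (δ i) with hi | hi <;>
      rcases Bool.eq_false_or_eq_true (δ j) with hj | hj <;> simp [hi, hj, sg]
    split_ifs <;> ring
  have e2 : ∀ ε : I → Bool, av (fun ε' : I → Bool =>
      Real.exp (SF G δ (mix (fun i => δ i = true) ε ε') * (1 / 2)))
      ≤ Real.exp ((1 / 8) * nsq ((0 : I → ℝ) + ∑ j ∈ univ, sg (ε j) • y j)) := by
    intro ε
    have := av_exp_ss_le ((1 / 2 : ℝ) • ∑ j, sg (ε j) • y j)
    rw [nsq_smul] at this
    refine le_trans (le_of_eq (av_congr fun ε' => ?_)) (this.trans (le_of_eq ?_))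
    · rw [e1]
      congr 1
      unfold ss
      rw [sum_mul]
      exact sum_congr rfl fun i _ => by simp only [Pi.smul_apply, smul_eq_mul]; ring
    · rw [zero_add]; congr 1; ring
  refine (av_mono e2).trans ?_
  have hv : ∑ j, nsq (y j) ≤ 1 := by
    refine le_trans ?_ hG
    rw [sum_comm]
    unfold nsq
    refine sum_le_sum fun j _ => sum_le_sum fun i _ => ?_
    simp only [hy]
    rcases Bool.eq_false_or_eq_true (δ i) with hi | hi <;>
      rcases Bool.eq_false_or_eq_true (δ j) with hj | hj <;> simp [hi, hj, sg] <;> positivity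
  have hv0 : 0 ≤ ∑ j, nsq (y j) := sum_nonneg fun j _ => nsq_nonneg _
  refine (quad_mgf y (1 / 8) (by norm_num) univ 0 (by linarith)).trans ?_
  rw [nsq_zero, zero_add]
  set v := ∑ j, nsq (y j) with hvd
  have h1 : 1 / 8 * v / (1 - 2 * (1 / 8) * v) ≤ 1 / 2 := by
    rw [div_le_iff₀ (by linarith)]
    linarith
  have h2 : Real.exp (1 / 2) ≤ 2 := by
    have h5 : Real.exp (1 / 2) ^ 2 = Real.exp 1 := by
      rw [← Real.exp_nat_mul]; norm_num
    have := Real.exp_one_lt_d9
    nlinarith [Real.exp_pos (1 / 2)]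
  exact (Real.exp_le_exp.mpr h1).trans h2

/-- exponential moment of an off-diagonal form -/
theorem OD_mgf (G : I → I → ℝ) (hG : ∑ i, ∑ j, G i j ^ 2 ≤ 1) :
    av (fun ε : I → Bool => Real.exp (OD G ε * (1 / 8))) ≤ 2 := by
  have h1 : ∀ ε : I → Bool, Real.exp (OD G ε * (1 / 8))
      ≤ av (fun δ : I → Bool => Real.exp (SF G δ ε * (1 / 2))) := by
    intro ε
    have := exp_av_le (fun δ : I → Bool => SF G δ ε * (1 / 2))
    rw [av_mul_right, av_SF] at this
    refine le_trans (le_of_eq ?_) this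
    congr 1; ring
  refine (av_mono h1).trans ?_
  rw [av_comm]
  refine (av_mono fun δ => SF_mgf G hG δ).trans ?_
  rw [av_const]

theorem OD_neg (G : I → I → ℝ) (ε : I → Bool) : OD (fun i j => - G i j) ε = - OD G ε := by
  unfold OD
  rw [← sum_neg_distrib]
  refine sum_congr rfl fun i _ => ?_
  rw [← sum_neg_distrib]
  refine sum_congr rfl fun j _ => ?_
  split_ifs
  · simp
  · ring

/-- tail of an off-diagonal form -/
theorem OD_tail (G : I → I → ℝ) (hG : ∑ i, ∑ j, G i j ^ 2 ≤ 1) (u : ℝ) :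
    av (fun ε : I → Bool => if u < |OD G ε| then (1 : ℝ) else 0) ≤ 4 * Real.exp (-u / 8) := by
  have key : ∀ x : ℝ, (if u < |x| then (1 : ℝ) else 0)
      ≤ Real.exp (-u / 8) * (Real.exp (x * (1 / 8)) + Real.exp ((-x) * (1 / 8))) := by
    intro x
    split_ifs with h
    · have h1 : (1 : ℝ) ≤ Real.exp (-u / 8) * Real.exp (|x| * (1 / 8)) := by
        rw [← Real.exp_add]
        apply Real.one_le_exp
        linarith
      have h2 : Real.exp (|x| * (1 / 8)) ≤ Real.exp (x * (1 / 8)) + Real.exp ((-x) * (1 / 8)) := by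
        rcases abs_cases x with ⟨h', _⟩ | ⟨h', _⟩ <;> rw [h']
        · linarith [Real.exp_pos ((-x) * (1 / 8))]
        · linarith [Real.exp_pos (x * (1 / 8))]
      have := mul_le_mul_of_nonneg_left h2 (Real.exp_pos (-u / 8)).le
      linarith
    · positivity
  refine (av_mono fun ε => key (OD G ε)).trans ?_
  rw [av_mul_left, av_add]
  have h1 := OD_mgf G hG
  have h2 := OD_mgf (fun i j => - G i j) (by simpa using hG)
  have h3 : av (fun ε : I → Bool => Real.exp (-OD G ε * (1 / 8))) ≤ 2 := by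
    refine le_trans (le_of_eq (av_congr fun ε => ?_)) h2
    rw [OD_neg]
  have := Real.exp_pos (-u / 8)
  nlinarith

end cube

end Pool.Agent.PEL
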