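import Pool.Agent.PEL.Rnd1

/-!
# PEL : disjoint bad pairs
-/

set_option autoImplicit false

namespace Pool.Agent.PEL

open Finset

/-- disjointness of a family of pairs -/
def Dsj {J : Type} {q : ℕ} (π : Fin q → J × J) : Prop :=
  ∀ i j, i ≠ j → (π i).1 ≠ (π j).1 ∧ (π i).1 ≠ (π j).2 ∧ (π i).2 ≠ (π j).1 ∧ (π i).2 ≠ (π j).2

/-- Either there are `q` disjoint bad pairs, or few vertices cover all bad pairs. -/
theorem matching {J : Type} [DecidableEq J] (Bad : J → J → Prop) (q : ℕ) :
    (∃ π : Fin q → J × J, Dsj π ∧ ∀ i, Bad (π i).1 (π i).2) ∨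
      ∃ Ex : Finset J, Ex.card ≤ 2 * q ∧ ∀ s t, s ∉ Ex → t ∉ Ex → ¬ Bad s t := by
  induction q with
  | zero => exact Or.inl ⟨Fin.elim0, fun i => i.elim0, fun i => i.elim0⟩
  | succ q ih =>
    rcases ih with ⟨π, hd, hb⟩ | ⟨Ex, hc, hE⟩
    · set Ex : Finset J := (univ.image fun i => (π i).1) ∪ (univ.image fun i => (π i).2) with hEx
      have hcard : Ex.card ≤ 2 * q := by
        refine (card_union_le _ _).trans ?_
        have h1 := card_image_le (s := (univ : Finset (Fin q))) (f := fun i => (π i).1)
        have h2 := card_image_le (s := (univ : Finset (Fin q))) (f := fun i => (π i).2)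
        rw [card_univ, Fintype.card_fin] at h1 h2
        omega
      by_cases hcov : ∀ s t, s ∉ Ex → t ∉ Ex → ¬ Bad s t
      · exact Or.inr ⟨Ex, by omega, hcov⟩
      · push_neg at hcov
        obtain ⟨s, t, hs, ht, hst⟩ := hcov
        left
        have hm : ∀ (x : J) (i : Fin q), x ∉ Ex → x ≠ (π i).1 ∧ x ≠ (π i).2 := by
          intro x i hx
          constructor
          · intro h
            apply hx
            rw [hEx, mem_union]
            left
            exact mem_image.mpr ⟨i, mem_univ _, h.symm⟩
          · intro h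
            apply hx
            rw [hEx, mem_union]
            right
            exact mem_image.mpr ⟨i, mem_univ _, h.symm⟩
        refine ⟨Fin.snoc π (s, t), ?_, ?_⟩
        · intro i j
          induction i using Fin.lastCases with
          | last =>
            induction j using Fin.lastCases with
            | last => intro h; exact absurd rfl h
            | cast j =>
              intro _
              rw [Fin.snoc_last, Fin.snoc_castSucc]
              exact ⟨(hm s j hs).1, (hm s j hs).2, (hm t j ht).1, (hm t j ht).2⟩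
          | cast i =>
            induction j using Fin.lastCases with
            | last =>
              intro _
              rw [Fin.snoc_last, Fin.snoc_castSucc]
              exact ⟨(hm s i hs).1.symm, (hm t i ht).1.symm, (hm s i hs).2.symm,
                (hm t i ht).2.symm⟩
            | cast j =>
              intro h
              rw [Fin.snoc_castSucc, Fin.snoc_castSucc]
              exact hd i j fun e => h (by rw [e])
        · intro i
          induction i using Fin.lastCases with
          | last => rw [Fin.snoc_last]; exact hst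
          | cast i => rw [Fin.snoc_castSucc]; exact hb i
    · exact Or.inr ⟨Ex, by omega, hE⟩

/-- independence along a disjoint family -/
theorem prod_indep {J X : Type} [Fintype J] [DecidableEq J] [Fintype X] {q : ℕ}
    (hne : Nonempty (J → X)) (π : Fin q → J × J) (hd : Dsj π) (g : Fin q → (J → X) → ℝ)
    (hg : ∀ i S S', S (π i).1 = S' (π i).1 → S (π i).2 = S' (π i).2 → g i S = g i S')
    (s : Finset (Fin q)) :
    av (fun S => ∏ i ∈ s, g i S) = ∏ i ∈ s, av (g i) := by
  classical
  induction s using Finset.induction_on with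
  | empty => simp [av_const]
  | insert j s hj ih =>
    have e : ∀ S : J → X, ∏ i ∈ insert j s, g i S = g j S * ∏ i ∈ s, g i S := fun S =>
      prod_insert hj
    rw [av_congr e, prod_insert hj, ← ih]
    refine av_indep (fun x => x = (π j).1 ∨ x = (π j).2) _ _ ?_ ?_
    · intro S S' h
      exact hg j S S' (h _ (Or.inl rfl)) (h _ (Or.inr rfl))
    · intro S S' h
      refine prod_congr rfl fun i hi => ?_
      have hij : i ≠ j := ne_of_mem_of_not_mem hi hj
      obtain ⟨h1, h2, h3, h4⟩ := hd i j hij
      exact hg i S S' (h _ fun e => e.elim h1 h2) (h _ fun e => e.elim h3 h4)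

section form
variable {J A : Type} [Fintype J] [DecidableEq J] [Fintype A] [DecidableEq A]

/-- `⟨ε^(s), M ε^(t)⟩ - [s=t] tr M` -/
def qf (M : A → A → ℝ) (s t : J) (S : J → A → Bool) : ℝ :=
  ∑ a, ∑ b, sg (S s a) * M a b * sg (S t b) - (if s = t then ∑ a, M a a else 0)

omit [Fintype J] in
theorem qf_eq_OD [Fintype J] (M : A → A → ℝ) (s t : J) (S : J → A → Bool) :
    qf M s t S = OD (fun (i j : J × A) => if i.1 = s ∧ j.1 = t then M i.2 j.2 else 0)
      (fun i => S i.1 i.2) := by
  have e1 : OD (fun (i j : J × A) => if i.1 = s ∧ j.1 = t then M i.2 j.2 else 0)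
      (fun i => S i.1 i.2)
      = ∑ a, ∑ b, if s = t ∧ a = b then 0 else M a b * (sg (S s a) * sg (S t b)) := by
    unfold OD
    rw [Fintype.sum_prod_type, sum_eq_single s]
    · refine sum_congr rfl fun a _ => ?_
      rw [Fintype.sum_prod_type, sum_eq_single t]
      · refine sum_congr rfl fun b _ => ?_
        simp only [Prod.mk.injEq, and_self, if_true]
      · intro t' _ ht'
        refine sum_eq_zero fun b _ => ?_
        simp [ht']
      · intro h; exact absurd (mem_univ _) h
    · intro s' _ hs'
      refine sum_eq_zero fun a _ => sum_eq_zero fun j _ => ?_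
      simp [hs']
    · intro h; exact absurd (mem_univ _) h
  rw [e1]
  unfold qf
  by_cases h : s = t
  · subst h
    simp only [if_true, true_and]
    rw [← sum_sub_distrib]
    refine sum_congr rfl fun a _ => ?_
    have : ∑ b, (if a = b then 0 else M a b * (sg (S s a) * sg (S s b)))
        = ∑ b, (sg (S s a) * M a b * sg (S s b) - if a = b then M a b else 0) := by
      refine sum_congr rfl fun b _ => ?_
      split_ifs with hab
      · subst hab
        have := sg_mul_self (S s a)
        linear_combination (-M a a) * this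
      · ring
    rw [this, sum_sub_distrib, sum_ite_eq]
    simp
  · simp only [h, if_false, false_and, sub_zero]
    exact sum_congr rfl fun a _ => sum_congr rfl fun b _ => by ring

/-- tail of one pair -/
theorem qf_tail (M : A → A → ℝ) (hM : ∑ a, ∑ b, M a b ^ 2 ≤ 1) (s t : J) (u : ℝ) :
    av (fun S : J → A → Bool => if u < |qf M s t S| then (1 : ℝ) else 0)
      ≤ 4 * Real.exp (-u / 8) := by
  have hG : ∑ i : J × A, ∑ j : J × A,
      (if i.1 = s ∧ j.1 = t then M i.2 j.2 else 0) ^ 2 ≤ 1 := by
    refine le_trans (le_of_eq ?_) hM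
    rw [Fintype.sum_prod_type, sum_eq_single s]
    · refine sum_congr rfl fun a _ => ?_
      rw [Fintype.sum_prod_type, sum_eq_single t]
      · refine sum_congr rfl fun b _ => ?_
        simp
      · intro t' _ ht'
        refine sum_eq_zero fun b _ => ?_
        simp [ht']
      · intro h; exact absurd (mem_univ _) h
    · intro s' _ hs'
      refine sum_eq_zero fun a _ => sum_eq_zero fun j _ => ?_
      simp [hs']
    · intro h; exact absurd (mem_univ _) h
  have h1 := OD_tail (fun (i j : J × A) => if i.1 = s ∧ j.1 = t then M i.2 j.2 else 0) hG u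
  rw [← av_equiv (Equiv.curry J A Bool)]
  refine le_trans (le_of_eq (av_congr fun ε => ?_)) h1
  rw [qf_eq_OD]
  rfl

/-- the average of the indicator of a finite union -/
theorem union_le {ι : Type} [Fintype ι] {Ω : Type} [Fintype Ω] (E : ι → Ω → Prop)
    [∀ i S, Decidable (E i S)] [∀ S, Decidable (∃ i, E i S)] (b : ℝ)
    (h : ∀ i, av (fun S : Ω => if E i S then (1 : ℝ) else 0) ≤ b) :
    av (fun S : Ω => if ∃ i, E i S then (1 : ℝ) else 0) ≤ Fintype.card ι * b := by
  have h1 : ∀ S : Ω, (if ∃ i, E i S then (1 : ℝ) else 0) ≤ ∑ i, if E i S then (1 : ℝ) else 0 := by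
    intro S
    split_ifs with hS
    · obtain ⟨i, hi⟩ := hS
      have := single_le_sum (f := fun i => if E i S then (1 : ℝ) else 0)
        (fun i _ => by positivity) (mem_univ i)
      simpa [hi] using this
    · exact sum_nonneg fun i _ => by positivity
  refine (av_mono h1).trans ?_
  rw [av_sum]
  refine (sum_le_sum fun i _ => h i).trans ?_
  rw [sum_const, card_univ, nsmul_eq_mul]

open Classical in
/-- few samples have `q` disjoint bad pairs for a fixed matrix -/
theorem family_le (M : A → A → ℝ) (hM : ∑ a, ∑ b, M a b ^ 2 ≤ 1) (u : ℝ) (q : ℕ) :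
    av (fun S : J → A → Bool =>
      if ∃ π : Fin q → J × J, Dsj π ∧ ∀ i, u < |qf M (π i).1 (π i).2 S| then (1 : ℝ) else 0)
      ≤ ((Fintype.card J : ℝ) ^ 2 * (4 * Real.exp (-u / 8))) ^ q := by
  have h0 : (0 : ℝ) ≤ 4 * Real.exp (-u / 8) := by positivity
  have key : ∀ π : Fin q → J × J,
      av (fun S : J → A → Bool =>
        if Dsj π ∧ ∀ i, u < |qf M (π i).1 (π i).2 S| then (1 : ℝ) else 0)
      ≤ (4 * Real.exp (-u / 8)) ^ q := by
    intro π
    by_cases hd : Dsj π
    · have e : ∀ S : J → A → Bool,
          (if Dsj π ∧ ∀ i, u < |qf M (π i).1 (π i).2 S| then (1 : ℝ) else 0)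
          = ∏ i ∈ univ, (if u < |qf M (π i).1 (π i).2 S| then (1 : ℝ) else 0) := by
        intro S
        by_cases hS : ∀ i, u < |qf M (π i).1 (π i).2 S|
        · rw [if_pos ⟨hd, hS⟩]
          symm
          exact prod_eq_one fun i _ => if_pos (hS i)
        · rw [if_neg fun h => hS h.2]
          push_neg at hS
          obtain ⟨i, hi⟩ := hS
          symm
          exact prod_eq_zero (mem_univ i) (if_neg (not_lt.mpr hi))
      rw [av_congr e, prod_indep ⟨fun _ _ => true⟩ π hd]
      · have : ∏ i : Fin q, av (fun S : J → A → Bool =>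
            if u < |qf M (π i).1 (π i).2 S| then (1 : ℝ) else 0)
            ≤ ∏ _i : Fin q, (4 * Real.exp (-u / 8)) :=
          prod_le_prod (fun i _ => av_nonneg fun S => by positivity)
            fun i _ => qf_tail M hM _ _ u
        rw [prod_const, card_univ, Fintype.card_fin] at this
        exact this
      · intro i S S' h1 h2
        unfold qf
        rw [h1, h2]
    · have e : ∀ S : J → A → Bool,
          (if Dsj π ∧ ∀ i, u < |qf M (π i).1 (π i).2 S| then (1 : ℝ) else 0) = 0 :=
        fun S => if_neg fun h => hd h.1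
      rw [av_congr e, av_const]
      positivity
  refine (union_le _ _ key).trans (le_of_eq ?_)
  rw [Fintype.card_fun, Fintype.card_fin, Fintype.card_prod, mul_pow]
  push_cast
  ring

end form

end Pool.Agent.PEL
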