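import Pool.Agent.PEL.Rnd2

/-!
# PEL : the net of matrices and property (P3) for one block
-/

set_option autoImplicit false

namespace Pool.Agent.PEL

open Finset

/-- rounding towards zero on a grid -/
theorem round_exists (N : ℕ) (hN : 1 ≤ N) (x : ℝ) (hx : |x| ≤ 1) :
    ∃ k : Fin (2 * N + 1), |(((k : ℕ) : ℝ) - N) / N| ≤ |x| ∧
      |x - (((k : ℕ) : ℝ) - N) / N| ≤ 1 / N := by
  have hN0 : (0 : ℝ) < N := by exact_mod_cast hN
  set n := ⌊|x| * N⌋₊ with hn
  have h1 : (n : ℝ) ≤ |x| * N := Nat.floor_le (by positivity)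
  have h2 : |x| * N < n + 1 := Nat.lt_floor_add_one _
  have h3 : n ≤ N := by
    have : (n : ℝ) ≤ N := by nlinarith
    exact_mod_cast this
  have h4 : (n : ℝ) / N ≤ |x| := by rw [div_le_iff₀ hN0]; exact h1
  have h5 : |x| - n / N ≤ 1 / N := by
    rw [sub_le_iff_le_add, ← add_div, le_div_iff₀ hN0]
    linarith
  have h6 : 0 ≤ (n : ℝ) / N := by positivity
  rcases le_total 0 x with h | h
  · rw [abs_of_nonneg h] at h4 h5 ⊢
    refine ⟨⟨N + n, by omega⟩, ?_, ?_⟩
    · have : (((N + n : ℕ) : ℝ) - N) / N = n / N := by push_cast; ring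
      simp only [this]
      rw [abs_of_nonneg h6]
      exact h4
    · have : (((N + n : ℕ) : ℝ) - N) / N = n / N := by push_cast; ring
      simp only [this]
      rw [abs_of_nonneg (by linarith)]
      exact h5
  · rw [abs_of_nonpos h] at h4 h5 ⊢
    have e : (((N - n : ℕ) : ℝ) - N) / N = -(n / N) := by
      rw [Nat.cast_sub h3]; ring
    refine ⟨⟨N - n, by omega⟩, ?_, ?_⟩
    · simp only [e]
      rw [abs_neg, abs_of_nonneg h6]
      exact h4
    · simp only [e]
      rw [abs_of_nonpos (by linarith)]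
      linarith

section net
variable {J A : Type} [Fintype J] [DecidableEq J] [Fintype A] [DecidableEq A]

/-- the net matrices -/
noncomputable def mat (B : Finset A) (κ : B → B → Fin (2 * B.card ^ 2 + 1)) : A → A → ℝ :=
  fun a b => if h : a ∈ B ∧ b ∈ B then
    (((κ ⟨a, h.1⟩ ⟨b, h.2⟩ : ℕ) : ℝ) - ((B.card ^ 2 : ℕ) : ℝ)) / ((B.card ^ 2 : ℕ) : ℝ) else 0

omit [Fintype J] in
theorem qf_sub (M M' : A → A → ℝ) (s t : J) (S : J → A → Bool) :
    qf M s t S - qf M' s t S = qf (fun a b => M a b - M' a b) s t S := by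
  unfold qf
  have e1 : ∑ a, ∑ b, sg (S s a) * (M a b - M' a b) * sg (S t b)
      = ∑ a, ∑ b, sg (S s a) * M a b * sg (S t b)
        - ∑ a, ∑ b, sg (S s a) * M' a b * sg (S t b) := by
    rw [← sum_sub_distrib]
    refine sum_congr rfl fun a _ => ?_
    rw [← sum_sub_distrib]
    exact sum_congr rfl fun b _ => by ring
  rw [e1, sum_sub_distrib]
  split_ifs <;> ring

omit [Fintype J] in
theorem qf_smul (c : ℝ) (M : A → A → ℝ) (s t : J) (S : J → A → Bool) :
    qf (fun a b => c * M a b) s t S = c * qf M s t S := by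
  unfold qf
  have e1 : ∑ a, ∑ b, sg (S s a) * (c * M a b) * sg (S t b)
      = c * ∑ a, ∑ b, sg (S s a) * M a b * sg (S t b) := by
    rw [mul_sum]
    refine sum_congr rfl fun a _ => ?_
    rw [mul_sum]
    exact sum_congr rfl fun b _ => by ring
  rw [e1, ← mul_sum]
  split_ifs <;> ring

omit [Fintype J] in
/-- crude bound -/
theorem qf_abs_le (D : A → A → ℝ) (s t : J) (S : J → A → Bool) :
    |qf D s t S| ≤ ∑ a, ∑ b, |D a b| + ∑ a, |D a a| := by
  unfold qf
  refine (abs_sub _ _).trans (add_le_add ?_ ?_)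
  · refine (abs_sum_le_sum_abs _ _).trans (sum_le_sum fun a _ => ?_)
    refine (abs_sum_le_sum_abs _ _).trans (sum_le_sum fun b _ => ?_)
    rw [abs_mul, abs_mul, abs_sg, abs_sg, one_mul, mul_one]
  · split_ifs
    · exact abs_sum_le_sum_abs _ _
    · rw [abs_zero]; exact sum_nonneg fun a _ => abs_nonneg _

/-- from the net to all matrices -/
theorem net_cov (B : Finset A) (hb : 1 ≤ B.card) (m : ℝ) (q : ℕ) (S : J → A → Bool)
    (h : ∀ κ : B → B → Fin (2 * B.card ^ 2 + 1), ∑ a, ∑ b, mat B κ a b ^ 2 ≤ 1 →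
      ¬ ∃ π : Fin q → J × J, Dsj π ∧ ∀ i, m - 2 < |qf (mat B κ) (π i).1 (π i).2 S|)
    (M : A → A → ℝ) (hM : ∀ a b, M a b ≠ 0 → a ∈ B ∧ b ∈ B) (hm : 0 ≤ m) :
    ∃ Ex : Finset J, Ex.card ≤ 2 * q ∧ ∀ s t, s ∉ Ex → t ∉ Ex →
      |qf M s t S| ≤ m * Real.sqrt (∑ a, ∑ b, M a b ^ 2) := by
  have hQ : 0 ≤ ∑ a, ∑ b, M a b ^ 2 := sum_nonneg fun a _ => sum_nonneg fun b _ => sq_nonneg _
  rcases hQ.eq_or_lt with h0 | h0
  · have hz : ∀ a b, M a b = 0 := by
      intro a b
      have h1 := (sum_eq_zero_iff_of_nonneg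
        (fun a _ => sum_nonneg fun b _ => sq_nonneg (M a b))).mp h0.symm a (mem_univ a)
      have h2 := (sum_eq_zero_iff_of_nonneg (fun b _ => sq_nonneg (M a b))).mp h1 b (mem_univ b)
      exact pow_eq_zero_iff (two_ne_zero) |>.mp h2
    refine ⟨∅, by simp, fun s t _ _ => ?_⟩
    have : qf M s t S = 0 := by
      unfold qf; simp [hz]
    rw [this, abs_zero]
    positivity
  · set r := Real.sqrt (∑ a, ∑ b, M a b ^ 2) with hr
    have hr0 : 0 < r := Real.sqrt_pos.mpr h0
    have hr2 : r ^ 2 = ∑ a, ∑ b, M a b ^ 2 := Real.sq_sqrt hQ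
    set M1 : A → A → ℝ := fun a b => r⁻¹ * M a b with hM1
    have hM1s : ∑ a, ∑ b, M1 a b ^ 2 = 1 := by
      have : ∑ a, ∑ b, M1 a b ^ 2 = (r⁻¹) ^ 2 * ∑ a, ∑ b, M a b ^ 2 := by
        rw [mul_sum]
        refine sum_congr rfl fun a _ => ?_
        rw [mul_sum]
        exact sum_congr rfl fun b _ => by simp only [hM1]; ring
      rw [this, ← hr2]
      field_simp
    have hM1a : ∀ a b, |M1 a b| ≤ 1 := by
      intro a b
      rw [← sq_le_one_iff_abs_le_one, ← hM1s]
      refine le_trans ?_ (single_le_sum (f := fun a => ∑ b, M1 a b ^ 2)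
        (fun a _ => sum_nonneg fun b _ => sq_nonneg _) (mem_univ a))
      exact single_le_sum (f := fun b => M1 a b ^ 2) (fun b _ => sq_nonneg _) (mem_univ b)
    have hN : 1 ≤ B.card ^ 2 := Nat.one_le_pow _ _ hb
    choose κ hκ1 hκ2 using fun (a b : B) => round_exists (B.card ^ 2) hN (M1 a b) (hM1a a b)
    have hin : ∀ a b, |mat B κ a b| ≤ |M1 a b| := by
      intro a b
      unfold mat
      split_ifs with hab
      · exact hκ1 ⟨a, hab.1⟩ ⟨b, hab.2⟩
      · rw [abs_zero]; exact abs_nonneg _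
    have hD : ∀ a b, |M1 a b - mat B κ a b| ≤
        if a ∈ B ∧ b ∈ B then 1 / ((B.card ^ 2 : ℕ) : ℝ) else 0 := by
      intro a b
      unfold mat
      split_ifs with hab
      · exact hκ2 ⟨a, hab.1⟩ ⟨b, hab.2⟩
      · have : M a b = 0 := by
          by_contra hne
          exact hab (hM a b hne)
        simp [hM1, this]
    have hs : ∑ a, ∑ b, mat B κ a b ^ 2 ≤ 1 := by
      rw [← hM1s]
      refine sum_le_sum fun a _ => sum_le_sum fun b _ => ?_
      exact sq_le_sq.mpr (hin a b)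
    rcases matching (fun s t => m - 2 < |qf (mat B κ) s t S|) q with hπ | ⟨Ex, hc, hE⟩
    · exact absurd hπ (h κ hs)
    · refine ⟨Ex, hc, fun s t hs' ht' => ?_⟩
      have h1 : |qf (mat B κ) s t S| ≤ m - 2 := not_lt.mp (hE s t hs' ht')
      have h2 : |qf M1 s t S - qf (mat B κ) s t S| ≤ 2 := by
        rw [qf_sub]
        refine (qf_abs_le _ s t S).trans ?_
        have hb0 : (0 : ℝ) < B.card := by exact_mod_cast hb
        have hb1 : (1 : ℝ) ≤ B.card := by exact_mod_cast hb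
        have s1 : ∑ a, ∑ b, |M1 a b - mat B κ a b| ≤ 1 := by
          calc ∑ a, ∑ b, |M1 a b - mat B κ a b|
              ≤ ∑ a, ∑ b, (if a ∈ B ∧ b ∈ B then 1 / ((B.card ^ 2 : ℕ) : ℝ) else 0) :=
                sum_le_sum fun a _ => sum_le_sum fun b _ => hD a b
            _ = ∑ a, (if a ∈ B then ∑ b, (if b ∈ B then 1 / ((B.card ^ 2 : ℕ) : ℝ) else 0)
                  else 0) := by
                refine sum_congr rfl fun a _ => ?_
                by_cases ha : a ∈ B <;> simp [ha]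
            _ = 1 := by
                rw [sum_ite_mem, sum_ite_mem]
                simp only [univ_inter, sum_const, nsmul_eq_mul]
                push_cast
                field_simp
        have s2 : ∑ a, |M1 a a - mat B κ a a| ≤ 1 := by
          calc ∑ a, |M1 a a - mat B κ a a|
              ≤ ∑ a, (if a ∈ B then 1 / ((B.card ^ 2 : ℕ) : ℝ) else 0) := by
                refine sum_le_sum fun a _ => (hD a a).trans (le_of_eq ?_)
                by_cases ha : a ∈ B <;> simp [ha]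
            _ = 1 / B.card := by
                rw [sum_ite_mem]
                simp only [univ_inter, sum_const, nsmul_eq_mul]
                push_cast
                field_simp
            _ ≤ 1 := by rw [div_le_one hb0]; exact hb1
        linarith
      have h3 : |qf M1 s t S| ≤ m := by
        have := abs_sub_abs_le_abs_sub (qf M1 s t S) (qf (mat B κ) s t S)
        linarith
      have h4 : qf M s t S = r * qf M1 s t S := by
        rw [← qf_smul]
        congr 1
        funext a b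
        simp only [hM1]
        field_simp
      rw [h4, abs_mul, abs_of_pos hr0, mul_comm]
      exact mul_le_mul_of_nonneg_right h3 hr0.le

theorem two_sq_add_one_le (b : ℕ) : 2 * b ^ 2 + 1 ≤ 4 ^ b := by
  induction b with
  | zero => norm_num
  | succ b ih =>
    rw [pow_succ]
    have : 2 * (b + 1) ^ 2 + 1 ≤ (2 * b ^ 2 + 1) * 4 := by nlinarith
    calc 2 * (b + 1) ^ 2 + 1 ≤ (2 * b ^ 2 + 1) * 4 := this
      _ ≤ 4 ^ b * 4 := Nat.mul_le_mul_right _ ih

open Classical in
/-- (P3) for one block fails with small probability -/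
theorem p3_block (B : Finset A) (hb : 1 ≤ B.card) (m : ℝ) (hm : 0 ≤ m)
    (hθ : (Fintype.card J : ℝ) ^ 2 * (4 * Real.exp (-(m - 2) / 8)) ≤ 1 / 8) :
    av (fun S : J → A → Bool =>
      if ¬ (∀ M : A → A → ℝ, (∀ a b, M a b ≠ 0 → a ∈ B ∧ b ∈ B) →
        ∃ Ex : Finset J, Ex.card ≤ 2 * B.card ^ 3 ∧ ∀ s t, s ∉ Ex → t ∉ Ex →
          |qf M s t S| ≤ m * Real.sqrt (∑ a, ∑ b, M a b ^ 2)) then (1 : ℝ) else 0)
      ≤ (1 / 2) ^ (B.card ^ 3) := by
  set q := B.card ^ 3 with hq
  let E : (B → B → Fin (2 * B.card ^ 2 + 1)) → (J → A → Bool) → Prop := fun κ S =>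
    (∑ a, ∑ b, mat B κ a b ^ 2 ≤ 1) ∧
      ∃ π : Fin q → J × J, Dsj π ∧ ∀ i, m - 2 < |qf (mat B κ) (π i).1 (π i).2 S|
  have h1 : ∀ κ, av (fun S : J → A → Bool => if E κ S then (1 : ℝ) else 0) ≤ (1 / 8) ^ q := by
    intro κ
    by_cases hs : ∑ a, ∑ b, mat B κ a b ^ 2 ≤ 1
    · have h2 := family_le (J := J) (mat B κ) hs (m - 2) q
      have h3 : ((Fintype.card J : ℝ) ^ 2 * (4 * Real.exp (-(m - 2) / 8))) ^ q ≤ (1 / 8) ^ q :=
        pow_le_pow_left₀ (by positivity) hθ q
      refine le_trans (le_of_eq (av_congr fun S => ?_)) (h2.trans h3)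
      by_cases hS : ∃ π : Fin q → J × J, Dsj π ∧
          ∀ i, m - 2 < |qf (mat B κ) (π i).1 (π i).2 S|
      · rw [if_pos (show E κ S from ⟨hs, hS⟩), if_pos hS]
      · rw [if_neg (fun h : E κ S => hS h.2), if_neg hS]
    · have : ∀ S : J → A → Bool, (if E κ S then (1 : ℝ) else 0) = 0 :=
        fun S => if_neg fun h : E κ S => hs h.1
      rw [av_congr this, av_const]
      positivity
  have h2 := union_le E ((1 / 8) ^ q) h1
  have h3 : ∀ S : J → A → Bool,
      (if ¬ (∀ M : A → A → ℝ, (∀ a b, M a b ≠ 0 → a ∈ B ∧ b ∈ B) →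
        ∃ Ex : Finset J, Ex.card ≤ 2 * q ∧ ∀ s t, s ∉ Ex → t ∉ Ex →
          |qf M s t S| ≤ m * Real.sqrt (∑ a, ∑ b, M a b ^ 2)) then (1 : ℝ) else 0)
      ≤ if ∃ κ, E κ S then (1 : ℝ) else 0 := by
    intro S
    by_cases hS : ∃ κ, E κ S
    · rw [if_pos hS]
      split_ifs <;> norm_num
    · rw [if_neg hS, if_neg]
      rw [not_not]
      intro M hM
      refine net_cov B hb m q S ?_ M hM hm
      intro κ hκ hπ
      exact hS ⟨κ, hκ, hπ⟩
  refine (av_mono h3).trans (h2.trans ?_)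
  rw [Fintype.card_fun, Fintype.card_fun, Fintype.card_coe, Fintype.card_fin]
  push_cast
  have h4 : (2 * (B.card : ℝ) ^ 2 + 1) ≤ 4 ^ B.card := by
    exact_mod_cast two_sq_add_one_le B.card
  have h5 : ((2 * (B.card : ℝ) ^ 2 + 1) ^ B.card) ^ B.card ≤ 4 ^ q := by
    calc ((2 * (B.card : ℝ) ^ 2 + 1) ^ B.card) ^ B.card
        ≤ ((4 ^ B.card) ^ B.card) ^ B.card := by
          apply pow_le_pow_left₀ (by positivity)
          apply pow_le_pow_left₀ (by positivity) h4
      _ = 4 ^ q := by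
          rw [← pow_mul, ← pow_mul, hq]
          congr 1
          ring
  calc ((2 * (B.card : ℝ) ^ 2 + 1) ^ B.card) ^ B.card * (1 / 8) ^ q
      ≤ 4 ^ q * (1 / 8) ^ q := mul_le_mul_of_nonneg_right h5 (by positivity)
    _ = (1 / 2) ^ q := by rw [← mul_pow]; norm_num

end net

end Pool.Agent.PEL
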