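import Pool.Agent.PEL.Lin

/-!
# PEL : moments and tails of sign sums
-/

set_option autoImplicit false

namespace Pool.Agent.PEL

open Finset

section cube
variable {I : Type} [Fintype I] [DecidableEq I]

/-- averaging over one coordinate -/
theorem av_flip (i : I) (f : (I → Bool) → ℝ) :
    av f = av (fun ε => (f ε + f (flip i ε)) / 2) := by
  have h := av_equiv (flip i) f
  have h2 : av (fun ε => (f ε + f (flip i ε)) / 2) = (av f + av (fun ε => f (flip i ε))) / 2 := by
    rw [← av_add, div_eq_mul_inv, ← av_mul_right]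
    exact av_congr fun ε => by rw [div_eq_mul_inv]
  rw [h2, h]; ring

omit [Fintype I] in
theorem sum_flip {j : I} {s : Finset I} (hj : j ∉ s) (z : I → ℝ) (ε : I → Bool) :
    ∑ i ∈ s, z i * sg (flip j ε i) = ∑ i ∈ s, z i * sg (ε i) :=
  sum_congr rfl fun i hi => by rw [flip_ne (ne_of_mem_of_not_mem hi hj)]

/-- `E exp(∑ z_i ε_i) ≤ exp(|z|²/2)` on a subset of the coordinates -/
theorem av_exp_sum_le (z : I → ℝ) (s : Finset I) :
    av (fun ε : I → Bool => Real.exp (∑ i ∈ s, z i * sg (ε i)))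
      ≤ Real.exp ((∑ i ∈ s, z i ^ 2) / 2) := by
  induction s using Finset.induction_on with
  | empty => simp [av_const]
  | insert j s hj ih =>
    rw [av_flip j]
    have e : ∀ ε : I → Bool,
        (Real.exp (∑ i ∈ insert j s, z i * sg (ε i))
          + Real.exp (∑ i ∈ insert j s, z i * sg (flip j ε i))) / 2
        = Real.cosh (z j) * Real.exp (∑ i ∈ s, z i * sg (ε i)) := by
      intro ε
      rw [sum_insert hj, sum_insert hj, sum_flip hj, flip_self, sg_not, Real.exp_add,
        Real.exp_add, Real.cosh_eq]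
      rcases sg_cases (ε j) with h | h <;> rw [h] <;> simp <;> ring
    rw [av_congr e, av_mul_left, sum_insert hj, add_div, Real.exp_add]
    exact mul_le_mul (Real.cosh_le_exp_half_sq _) ih (av_nonneg fun ε => (Real.exp_pos _).le)
      (Real.exp_pos _).le

theorem av_exp_ss_le (z : I → ℝ) :
    av (fun ε : I → Bool => Real.exp (ss z ε)) ≤ Real.exp (nsq z / 2) :=
  av_exp_sum_le z univ

theorem av_exp_ss (z : I → ℝ) :
    av (fun ε : I → Bool => Real.exp (ss z ε)) ≤ Real.exp (nsq z / 2) :=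
  av_exp_ss_le z

omit [Fintype I] in
/-- second moment on a subset of the coordinates -/
theorem av_sum_sq [Fintype I] (z : I → ℝ) (s : Finset I) :
    av (fun ε : I → Bool => (∑ i ∈ s, z i * sg (ε i)) ^ 2) = ∑ i ∈ s, z i ^ 2 := by
  induction s using Finset.induction_on with
  | empty => simp [av_const]
  | insert j s hj ih =>
    rw [av_flip j]
    have e : ∀ ε : I → Bool,
        ((∑ i ∈ insert j s, z i * sg (ε i)) ^ 2
          + (∑ i ∈ insert j s, z i * sg (flip j ε i)) ^ 2) / 2
        = z j ^ 2 + (∑ i ∈ s, z i * sg (ε i)) ^ 2 := by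
      intro ε
      rw [sum_insert hj, sum_insert hj, sum_flip hj, flip_self, sg_not]
      have := sg_sq (ε j)
      linear_combination (z j ^ 2) * this
    rw [av_congr e, av_add, av_const, ih, sum_insert hj]

theorem av_sum_four (z : I → ℝ) (s : Finset I) :
    av (fun ε : I → Bool => (∑ i ∈ s, z i * sg (ε i)) ^ 4) ≤ 3 * (∑ i ∈ s, z i ^ 2) ^ 2 := by
  induction s using Finset.induction_on with
  | empty => simp [av_const]
  | insert j s hj ih =>
    rw [av_flip j]
    have e : ∀ ε : I → Bool,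
        ((∑ i ∈ insert j s, z i * sg (ε i)) ^ 4
          + (∑ i ∈ insert j s, z i * sg (flip j ε i)) ^ 4) / 2
        = (∑ i ∈ s, z i * sg (ε i)) ^ 4 + ((6 * z j ^ 2) * (∑ i ∈ s, z i * sg (ε i)) ^ 2
            + z j ^ 4) := by
      intro ε
      rw [sum_insert hj, sum_insert hj, sum_flip hj, flip_self, sg_not]
      have h := sg_sq (ε j)
      set x := ∑ i ∈ s, z i * sg (ε i)
      have h4 : sg (ε j) ^ 4 = 1 := by
        have : sg (ε j) ^ 4 = (sg (ε j) ^ 2) ^ 2 := by ring
        rw [this, h, one_pow]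
      linear_combination (6 * z j ^ 2 * x ^ 2) * h + (z j ^ 4) * h4
    rw [av_congr e, av_add, av_add, av_const, av_mul_left, av_sum_sq, sum_insert hj]
    have h0 : 0 ≤ ∑ i ∈ s, z i ^ 2 := sum_nonneg fun i _ => sq_nonneg _
    nlinarith [sq_nonneg (z j), sq_nonneg (z j ^ 2)]

/-- `E X⁴ ≤ 3 (E X²)²` -/
theorem av_ss_four (z : I → ℝ) : av (fun ε : I → Bool => ss z ε ^ 4) ≤ 3 * nsq z ^ 2 :=
  av_sum_four z univ

theorem av_sq_mul_sq (x y : I → ℝ) :
    av (fun ε : I → Bool => ss x ε ^ 2 * ss y ε ^ 2) ≤ 3 * (nsq x * nsq y) := by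
  have h1 := av_mul_le_sqrt (fun ε : I → Bool => ss x ε ^ 2) (fun ε => ss y ε ^ 2)
  have h2 : Real.sqrt (av fun ε : I → Bool => (ss x ε ^ 2) ^ 2)
      * Real.sqrt (av fun ε : I → Bool => (ss y ε ^ 2) ^ 2)
      ≤ Real.sqrt (3 * nsq x ^ 2) * Real.sqrt (3 * nsq y ^ 2) := by
    apply mul_le_mul _ _ (Real.sqrt_nonneg _) (Real.sqrt_nonneg _)
    · apply Real.sqrt_le_sqrt
      rw [av_congr fun ε : I → Bool => (by ring : (ss x ε ^ 2) ^ 2 = ss x ε ^ 4)]
      exact av_ss_four x
    · apply Real.sqrt_le_sqrt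
      rw [av_congr fun ε : I → Bool => (by ring : (ss y ε ^ 2) ^ 2 = ss y ε ^ 4)]
      exact av_ss_four y
  have h3 : Real.sqrt (3 * nsq x ^ 2) * Real.sqrt (3 * nsq y ^ 2) = 3 * (nsq x * nsq y) := by
    rw [← Real.sqrt_mul (by positivity)]
    have : 3 * nsq x ^ 2 * (3 * nsq y ^ 2) = (3 * (nsq x * nsq y)) ^ 2 := by ring
    rw [this, Real.sqrt_sq]
    have := nsq_nonneg x
    have := nsq_nonneg y
    positivity
  linarith

/-- small numbers: `exp(-m/2)` is much smaller than `1/T²` -/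
theorem exp_half_le {P : Par} (hB : P.Big) :
    32 * Real.exp (-(P.m : ℝ) / 2) ≤ 1 / (P.T : ℝ) ^ 2 := by
  have hT : (1 : ℝ) ≤ P.T := by exact_mod_cast hB.T_pos
  have h := hB.hexp
  have h1 : Real.exp (-(P.m : ℝ) / 2) ≤ Real.exp (-(P.m : ℝ) / 64) := by
    apply Real.exp_le_exp.mpr
    have : (0 : ℝ) ≤ P.m := Nat.cast_nonneg _
    linarith
  rw [le_div_iff₀ (by positivity)]
  have h2 : (P.T : ℝ) ^ 2 ≤ (P.T : ℝ) ^ 4 := pow_le_pow_right₀ hT (by norm_num)
  have h3 := Real.exp_pos (-(P.m : ℝ) / 64)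
  calc 32 * Real.exp (-(P.m : ℝ) / 2) * (P.T : ℝ) ^ 2
      ≤ 32 * Real.exp (-(P.m : ℝ) / 64) * (P.T : ℝ) ^ 4 := by
        apply mul_le_mul _ h2 (by positivity) (by positivity)
        linarith
    _ = 32 * ((P.T : ℝ) ^ 4 * Real.exp (-(P.m : ℝ) / 64)) := by ring
    _ ≤ 32 * (1 / 2 ^ 10) := by linarith
    _ ≤ 1 := by norm_num

/-- TAIL -/
theorem tail {P : Par} (hB : P.Big) (z : I → ℝ) (hz : nsq z ≤ 1) :
    av (fun ε : I → Bool => if (P.m : ℝ) < |ss z ε| then ss z ε ^ 2 else 0)
      ≤ 1 / (P.T : ℝ) ^ 2 := by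
  have key : ∀ x : ℝ, (if (P.m : ℝ) < |x| then x ^ 2 else 0)
      ≤ (8 * Real.exp (-(P.m : ℝ) / 2)) * (Real.exp x + Real.exp (-x)) := by
    intro x
    split_ifs with h
    · have h1 : x ^ 2 ≤ 8 * Real.exp (|x| / 2) := by
        have := Real.quadratic_le_exp_of_nonneg (x := |x| / 2) (by positivity)
        nlinarith [sq_abs x, abs_nonneg x]
      have h2 : Real.exp (|x| / 2) ≤ Real.exp (-(P.m : ℝ) / 2) * Real.exp |x| := by
        rw [← Real.exp_add]
        apply Real.exp_le_exp.mpr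
        linarith
      have h3 : Real.exp |x| ≤ Real.exp x + Real.exp (-x) := by
        rcases abs_cases x with ⟨h', _⟩ | ⟨h', _⟩ <;> rw [h']
        · linarith [Real.exp_pos (-x)]
        · linarith [Real.exp_pos x]
      have h4 := Real.exp_pos (-(P.m : ℝ) / 2)
      calc x ^ 2 ≤ 8 * Real.exp (|x| / 2) := h1
        _ ≤ 8 * (Real.exp (-(P.m : ℝ) / 2) * Real.exp |x|) := by linarith
        _ ≤ 8 * (Real.exp (-(P.m : ℝ) / 2) * (Real.exp x + Real.exp (-x))) := by
            have := mul_le_mul_of_nonneg_left h3 h4.le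
            linarith
        _ = _ := by ring
    · have := Real.exp_pos x
      have := Real.exp_pos (-x)
      have := Real.exp_pos (-(P.m : ℝ) / 2)
      positivity
  refine (av_mono fun ε => key (ss z ε)).trans ?_
  rw [av_mul_left, av_add]
  have h1 := av_exp_ss_le z
  have h2 : av (fun ε : I → Bool => Real.exp (-ss z ε)) ≤ Real.exp (nsq z / 2) := by
    have := av_exp_ss_le (-z)
    rw [nsq_neg] at this
    refine le_trans (le_of_eq (av_congr fun ε => ?_)) this
    congr 1
    unfold ss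
    rw [← sum_neg_distrib]
    exact sum_congr rfl fun i _ => by simp
  have h3 : Real.exp (nsq z / 2) ≤ 2 := by
    have : Real.exp (nsq z / 2) ≤ Real.exp (1 / 2) := Real.exp_le_exp.mpr (by linarith)
    have h4 : Real.exp (1 / 2) ≤ 2 := by
      have h5 : Real.exp (1 / 2) ^ 2 = Real.exp 1 := by
        rw [← Real.exp_nat_mul]; norm_num
      have := Real.exp_one_lt_d9
      nlinarith [Real.exp_pos (1 / 2)]
    linarith
  have h4 := Real.exp_pos (-(P.m : ℝ) / 2)
  refine le_trans ?_ (exp_half_le hB)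
  have : av (fun ε : I → Bool => Real.exp (ss z ε)) + av (fun ε : I → Bool => Real.exp (-ss z ε))
      ≤ 4 := by linarith
  nlinarith

/-- (L1): the sum of the lengths of the first Walsh coefficients -/
theorem walsh_l1 {P : Par} (hB : P.Big) (h : (I → Bool) → Fin P.T → ℝ) (c κ : ℝ) (hc : 1 ≤ c)
    (hκ : 0 ≤ κ) (h1 : av (fun ε => n1 (h ε) ^ 2) ≤ c ^ 2 * κ ^ 2)
    (h2 : av (fun ε => nsq (h ε)) ≤ κ ^ 2) :
    ∑ t, nm (fun i => av fun ε : I → Bool => sg (ε i) * h ε t) ≤ 2 * P.m * c * κ := by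
  have hm : (1 : ℝ) ≤ P.m := hB.m_pos_real
  have hT : (1 : ℝ) ≤ P.T := by exact_mod_cast hB.T_pos
  -- one coefficient
  have key : ∀ t, nm (fun i => av fun ε : I → Bool => sg (ε i) * h ε t)
      ≤ P.m * av (fun ε => |h ε t|) + (1 / P.T) * Real.sqrt (av fun ε => h ε t ^ 2) := by
    intro t
    set z : I → ℝ := fun i => av fun ε : I → Bool => sg (ε i) * h ε t with hz
    have hR : 0 ≤ P.m * av (fun ε => |h ε t|) + (1 / (P.T : ℝ)) *
        Real.sqrt (av fun ε => h ε t ^ 2) := by
      have := av_nonneg (f := fun ε => |h ε t|) fun ε => abs_nonneg _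
      have := Real.sqrt_nonneg (av fun ε => h ε t ^ 2)
      positivity
    rcases (nm_nonneg z).eq_or_lt with h0 | h0
    · rw [← h0]; exact hR
    · set y : I → ℝ := (nm z)⁻¹ • z with hy
      have hy1 : nsq y = 1 := by
        rw [hy, nsq_smul, ← nm_sq z]
        field_simp
      have e1 : nm z = av (fun ε : I → Bool => ss y ε * h ε t) := by
        have : nm z = ip y z := by
          rw [hy, ip_smul_left, ip_self, ← nm_sq z]
          field_simp
        rw [this]
        unfold ip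
        rw [hz]
        have e2 : ∀ ε : I → Bool, ss y ε * h ε t = ∑ i, y i * (sg (ε i) * h ε t) := by
          intro ε
          unfold ss
          rw [sum_mul]
          exact sum_congr rfl fun i _ => by ring
        rw [av_congr e2, av_sum]
        exact sum_congr rfl fun i _ => (av_mul_left _ _).symm
      set g : (I → Bool) → ℝ := fun ε => if (P.m : ℝ) < |ss y ε| then |ss y ε| else 0 with hg
      have e3 : ∀ ε : I → Bool, ss y ε * h ε t ≤ P.m * |h ε t| + g ε * |h ε t| := by
        intro ε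
        have a1 : ss y ε * h ε t ≤ |ss y ε| * |h ε t| := by
          rw [← abs_mul]; exact le_abs_self _
        have a2 : |ss y ε| ≤ P.m + g ε := by
          simp only [hg]
          split_ifs with hh
          · linarith
          · linarith [not_lt.mp hh]
        nlinarith [abs_nonneg (h ε t)]
      have e4 : av (fun ε => g ε * |h ε t|) ≤ (1 / P.T) * Real.sqrt (av fun ε => h ε t ^ 2) := by
        refine (av_mul_le_sqrt g fun ε => |h ε t|).trans ?_
        have b1 : Real.sqrt (av fun ε => g ε ^ 2) ≤ 1 / P.T := by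
          apply Real.sqrt_le_iff.mpr
          refine ⟨by positivity, ?_⟩
          have := tail hB y hy1.le
          refine le_trans (le_of_eq (av_congr fun ε => ?_)) (this.trans (le_of_eq ?_))
          · simp only [hg]
            split_ifs
            · rw [sq_abs]
            · norm_num
          · rw [one_div, one_div, inv_pow]
        have b2 : (av fun ε => |h ε t| ^ 2) = av fun ε => h ε t ^ 2 :=
          av_congr fun ε => sq_abs _
        rw [b2]
        exact mul_le_mul_of_nonneg_right b1 (Real.sqrt_nonneg _)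
      calc nm z = av (fun ε : I → Bool => ss y ε * h ε t) := e1
        _ ≤ av (fun ε => P.m * |h ε t| + g ε * |h ε t|) := av_mono e3
        _ = P.m * av (fun ε => |h ε t|) + av (fun ε => g ε * |h ε t|) := by
            rw [av_add, av_mul_left]
        _ ≤ _ := by linarith
  refine (sum_le_sum fun t _ => key t).trans ?_
  rw [sum_add_distrib, ← mul_sum, ← mul_sum]
  have s1 : ∑ t, av (fun ε => |h ε t|) ≤ c * κ := by
    have : ∑ t, av (fun ε => |h ε t|) = av (fun ε => n1 (h ε)) := by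
      unfold n1; rw [av_sum]
    rw [this]
    apply abs_le_of_sq_le_sq' _ (by positivity) |>.2
    calc av (fun ε => n1 (h ε)) ^ 2 ≤ av (fun ε => n1 (h ε) ^ 2) := sq_av_le _
      _ ≤ c ^ 2 * κ ^ 2 := h1
      _ = (c * κ) ^ 2 := by ring
  have s2 : ∑ t, Real.sqrt (av fun ε => h ε t ^ 2) ≤ P.T * κ := by
    have a1 : (∑ t, Real.sqrt (av fun ε => h ε t ^ 2)) ^ 2
        ≤ (P.T : ℝ) * ∑ t, (av fun ε => h ε t ^ 2) := by
      have := sum_mul_sq_le_sq_mul_sq univ (fun _ : Fin P.T => (1 : ℝ))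
        (fun t => Real.sqrt (av fun ε => h ε t ^ 2))
      simp only [one_mul, one_pow, sum_const, card_univ, Fintype.card_fin, nsmul_eq_mul,
        mul_one] at this
      rw [sum_congr rfl fun t _ =>
        Real.sq_sqrt (av_nonneg (f := fun ε => h ε t ^ 2) fun ε => sq_nonneg _)] at this
      exact this
    have a2 : ∑ t, (av fun ε => h ε t ^ 2) ≤ κ ^ 2 := by
      refine le_trans (le_of_eq ?_) h2
      unfold nsq; rw [av_sum]
    apply abs_le_of_sq_le_sq' _ (by positivity) |>.2
    calc (∑ t, Real.sqrt (av fun ε => h ε t ^ 2)) ^ 2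
        ≤ (P.T : ℝ) * ∑ t, (av fun ε => h ε t ^ 2) := a1
      _ ≤ (P.T : ℝ) * κ ^ 2 := mul_le_mul_of_nonneg_left a2 (by positivity)
      _ ≤ (P.T * κ) ^ 2 := by
          rw [mul_pow]
          apply mul_le_mul_of_nonneg_right _ (sq_nonneg _)
          nlinarith
  have s3 : (1 / (P.T : ℝ)) * ∑ t, Real.sqrt (av fun ε => h ε t ^ 2) ≤ κ := by
    rw [one_div, inv_mul_le_iff₀ (by positivity)]
    exact s2
  have s4 : (P.m : ℝ) * ∑ t, av (fun ε => |h ε t|) ≤ P.m * (c * κ) :=
    mul_le_mul_of_nonneg_left s1 (by positivity)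
  have s5 : κ ≤ P.m * (c * κ) := by
    have : 1 ≤ P.m * c := by nlinarith
    nlinarith
  linarith

end cube

end Pool.Agent.PEL
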