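import Pool.Agent.PEL.Bas
import Pool.Agent.PEL.Tail

/-!
# PEL-RNDA : tails of quadratic chaos

(G) vector sums: `∑ |y_i|² = v ≤ 1` ⇒ `E exp(|a + ∑ ε_i y_i|²/4) ≤ exp((|a|²+v)/(4-2v))`, by induction over the index set.
bilinear: `E_ε exp(½⟨ε, Mε'⟩) ≤ exp(|Mε'|²/8)`, then (G); Markov. diagonal: decoupling.
-/

set_option autoImplicit false

namespace Pool.Agent.PEL

open Finset

namespace ChaosAux

variable {A : Type} [Fintype A] [DecidableEq A]

theorem exp_avg_le (X Y : ℝ) :
    Real.exp (X + Y) + Real.exp (X - Y) ≤ 2 * Real.exp (X + Y ^ 2 / 2) := by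
  have h := Real.cosh_le_exp_half_sq Y
  have e : Real.exp (X + Y) + Real.exp (X - Y) = 2 * (Real.exp X * Real.cosh Y) := by
    rw [Real.cosh_eq, sub_eq_add_neg, Real.exp_add, Real.exp_add]; ring
  rw [e, Real.exp_add]
  have := mul_le_mul_of_nonneg_left h (Real.exp_pos X).le
  linarith

theorem num_ineq (A0 v q i2 : ℝ) (hA : 0 ≤ A0) (hv : 0 ≤ v) (hq : 0 ≤ q) (hvq : v + q ≤ 1)
    (hi : i2 ≤ A0 * q) :
    (A0 + q + v) / (4 - 2 * v) + 2 * i2 / (4 - 2 * v) ^ 2
      ≤ (A0 + (v + q)) / (4 - 2 * (v + q)) := by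
  have hc : 0 < 4 - 2 * v := by linarith
  have hd : 0 < 4 - 2 * (v + q) := by linarith
  have h1 : 2 * i2 / (4 - 2 * v) ^ 2 ≤ 2 * (A0 * q) / (4 - 2 * v) ^ 2 := by
    gcongr
  refine (add_le_add le_rfl h1).trans ?_
  rw [div_add_div _ _ hc.ne' (by positivity), div_le_div_iff₀ (by positivity) hd]
  have h2 : 0 ≤ (4 - 2 * v) * ((4 - 2 * v) * (4 - 2 * (v + q))) := by positivity
  nlinarith [mul_nonneg hq (mul_nonneg hc.le (mul_nonneg hc.le (add_nonneg hv hq))),
    mul_nonneg (mul_nonneg hA hq) hc.le, mul_nonneg (mul_nonneg (mul_nonneg hA hq) hq) hc.le]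

theorem gauss_sum {ι : Type} [Fintype ι] (y : A → ι → ℝ) (s : Finset A) :
    ∀ a : ι → ℝ, ∑ i ∈ s, nsq (y i) ≤ 1 →
    av (fun ε : A → Bool => Real.exp (nsq (a + ∑ i ∈ s, sg (ε i) • y i) / 4)) ≤
      Real.exp ((nsq a + ∑ i ∈ s, nsq (y i)) / (4 - 2 * ∑ i ∈ s, nsq (y i))) := by
  classical
  induction s using Finset.induction_on with
  | empty =>
    intro a _
    simp only [sum_empty, add_zero, mul_zero, sub_zero]
    rw [av_const]
  | insert j s hj ih =>
    intro a hv
    rw [sum_insert hj] at hv ⊢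
    set v := ∑ i ∈ s, nsq (y i) with hvdef
    have hv0 : 0 ≤ v := sum_nonneg fun _ _ => nsq_nonneg _
    have hq0 := nsq_nonneg (y j)
    -- the two branches
    set g : (A → Bool) → ℝ → ℝ := fun ε c =>
      Real.exp (nsq ((a + c • y j) + ∑ i ∈ s, sg (ε i) • y i) / 4) with hg
    have e1 : ∀ ε : A → Bool, Real.exp (nsq (a + ∑ i ∈ insert j s, sg (ε i) • y i) / 4)
        = g ε (sg (ε j)) := by
      intro ε
      simp only [hg]
      rw [sum_insert hj, add_assoc]
    have e2 : ∀ (ε : A → Bool) (c : ℝ), g (flip j ε) c = g ε c := by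
      intro ε c
      simp only [hg]
      have : ∑ i ∈ s, sg (flip j ε i) • y i = ∑ i ∈ s, sg (ε i) • y i := by
        refine sum_congr rfl fun i hi => ?_
        have hne : i ≠ j := fun h => hj (by rw [← h]; exact hi)
        rw [flip_ne hne]
      rw [this]
    have e3 : av (fun ε : A → Bool => g ε (sg (ε j))) = av (fun ε => g ε (- sg (ε j))) := by
      rw [← av_equiv (flip j) (fun ε : A → Bool => g ε (sg (ε j)))]
      refine av_congr fun ε => ?_
      rw [e2, flip_self, sg_not]
    have e4 : ∀ ε : A → Bool, g ε (sg (ε j)) + g ε (- sg (ε j)) = g ε 1 + g ε (-1) := by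
      intro ε
      rcases sg_cases (ε j) with h | h
      · rw [h]
      · rw [h, neg_neg, add_comm]
    have e5 : 2 * av (fun ε : A → Bool => g ε (sg (ε j)))
        = av (fun ε : A → Bool => g ε 1) + av (fun ε : A → Bool => g ε (-1)) := by
      rw [two_mul]
      nth_rewrite 2 [e3]
      rw [← av_add, ← av_add]
      exact av_congr e4
    have hv' : v ≤ 1 := by linarith
    have i1 := ih (a + (1 : ℝ) • y j) hv'
    have i2 := ih (a + (-1 : ℝ) • y j) hv'
    rw [av_congr e1]
    have c0 : 0 < 4 - 2 * v := by linarith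
    have n1' : nsq (a + (1 : ℝ) • y j) = nsq a + nsq (y j) + 2 * ip a (y j) := by
      rw [one_smul, nsq_add]; ring
    have n2' : nsq (a + (-1 : ℝ) • y j) = nsq a + nsq (y j) - 2 * ip a (y j) := by
      rw [neg_one_smul, ← sub_eq_add_neg, nsq_sub]; ring
    rw [n1'] at i1
    rw [n2'] at i2
    set X := (nsq a + nsq (y j) + v) / (4 - 2 * v) with hX
    set Y := 2 * ip a (y j) / (4 - 2 * v) with hY
    have x1 : (nsq a + nsq (y j) + 2 * ip a (y j) + v) / (4 - 2 * v) = X + Y := by
      rw [hX, hY, ← add_div]; congr 1; ring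
    have x2 : (nsq a + nsq (y j) - 2 * ip a (y j) + v) / (4 - 2 * v) = X - Y := by
      rw [hX, hY, ← sub_div]; congr 1; ring
    rw [x1] at i1
    rw [x2] at i2
    have h3 := exp_avg_le X Y
    have h4 : X + Y ^ 2 / 2 ≤ (nsq a + (nsq (y j) + v)) / (4 - 2 * (nsq (y j) + v)) := by
      have h5 := num_ineq (nsq a) v (nsq (y j)) (ip a (y j) ^ 2) (nsq_nonneg a) hv0 hq0
        (by linarith) (ip_sq_le a (y j))
      have h6 : Y ^ 2 / 2 = 2 * ip a (y j) ^ 2 / (4 - 2 * v) ^ 2 := by
        rw [hY]; field_simp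
      rw [h6, hX, add_comm (nsq (y j)) v]
      exact h5
    have h7 := Real.exp_le_exp.mpr h4
    linarith

theorem exp_half_le : Real.exp (1 / 2) ≤ 2 := by
  have h := Real.exp_one_lt_d9
  have h2 : Real.exp (1 / 2) ^ 2 = Real.exp 1 := by
    rw [← Real.exp_nat_mul]; norm_num
  nlinarith [Real.exp_pos (1 / 2 : ℝ)]

/-- exponential moment of the bilinear chaos -/
theorem bil_exp (M : A → A → ℝ) (hM : ∑ a, ∑ b, M a b ^ 2 ≤ 1) :
    av (fun e : (A → Bool) × (A → Bool) =>
      Real.exp ((∑ a, ∑ b, sg (e.1 a) * M a b * sg (e.2 b)) / 2)) ≤ 2 := by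
  rw [av_prod, av_comm]
  have h1 : ∀ f : A → Bool, av (fun e : A → Bool =>
      Real.exp ((∑ a, ∑ b, sg (e a) * M a b * sg (f b)) / 2)) ≤
      Real.exp (nsq ((0 : A → ℝ) + ∑ b, sg (f b) • (fun a => M a b)) / 4) := by
    intro f
    set w : A → ℝ := ∑ b, sg (f b) • (fun a => M a b) with hw
    have e1 : ∀ e : A → Bool, (∑ a, ∑ b, sg (e a) * M a b * sg (f b)) / 2
        = ss ((1 / 2 : ℝ) • w) e := by
      intro e
      unfold ss
      rw [sum_div]
      refine sum_congr rfl fun a _ => ?_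
      rw [Pi.smul_apply, smul_eq_mul, hw, Finset.sum_apply, mul_sum, sum_mul, sum_div]
      refine sum_congr rfl fun b _ => ?_
      rw [Pi.smul_apply, smul_eq_mul]; ring
    simp only [e1]
    refine (av_exp_ss _).trans (Real.exp_le_exp.mpr ?_)
    rw [nsq_smul, zero_add]
    have := nsq_nonneg w
    nlinarith
  refine (av_mono h1).trans ?_
  have h2 : ∑ b, nsq (fun a => M a b) ≤ 1 := by
    unfold nsq
    rw [sum_comm]; exact hM
  have h3 := gauss_sum (fun b a => M a b) univ 0 h2
  refine h3.trans (le_trans (Real.exp_le_exp.mpr ?_) exp_half_le)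
  set v := ∑ b, nsq (fun a => M a b) with hv
  have hv0 : 0 ≤ v := sum_nonneg fun _ _ => nsq_nonneg _
  rw [nsq_zero, zero_add, div_le_div_iff₀ (by linarith) (by norm_num)]
  linarith

theorem markov_exp {ι : Type} [Fintype ι] (f : ι → ℝ) (τ c : ℝ) (hc : 0 < c)
    (h1 : av (fun i => Real.exp (f i * c)) ≤ 2) (h2 : av (fun i => Real.exp (-f i * c)) ≤ 2) :
    av (fun i => if τ < |f i| then (1 : ℝ) else 0) ≤ 4 * Real.exp (-(τ * c)) := by
  have h3 : ∀ i, (if τ < |f i| then (1 : ℝ) else 0) ≤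
      Real.exp (-(τ * c)) * (Real.exp (f i * c) + Real.exp (-f i * c)) := by
    intro i
    have p1 := Real.exp_pos (f i * c)
    have p2 := Real.exp_pos (-f i * c)
    have p3 := Real.exp_pos (-(τ * c))
    split_ifs with h
    · rcases abs_cases (f i) with ⟨h4, _⟩ | ⟨h4, _⟩
      · rw [h4] at h
        have h5 : (1 : ℝ) ≤ Real.exp (-(τ * c)) * Real.exp (f i * c) := by
          rw [← Real.exp_add]
          apply Real.one_le_exp
          nlinarith
        nlinarith [mul_pos p3 p2]
      · rw [h4] at h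
        have h5 : (1 : ℝ) ≤ Real.exp (-(τ * c)) * Real.exp (-f i * c) := by
          rw [← Real.exp_add]
          apply Real.one_le_exp
          nlinarith
        nlinarith [mul_pos p3 p1]
    · positivity
  refine (av_mono h3).trans ?_
  rw [av_mul_left, av_add]
  have p3 := Real.exp_pos (-(τ * c))
  nlinarith

/-- Jensen for `exp` -/
theorem exp_av_le {ι : Type} [Fintype ι] [Nonempty ι] (f : ι → ℝ) :
    Real.exp (av f) ≤ av (fun i => Real.exp (f i)) := by
  have h1 : ∀ i, Real.exp (av f) * (f i - av f + 1) ≤ Real.exp (f i) := by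
    intro i
    have h2 := Real.add_one_le_exp (f i - av f)
    calc Real.exp (av f) * (f i - av f + 1) ≤ Real.exp (av f) * Real.exp (f i - av f) :=
          mul_le_mul_of_nonneg_left h2 (Real.exp_pos _).le
      _ = Real.exp (f i) := by rw [← Real.exp_add]; congr 1; ring
  have h3 := av_mono h1
  rw [av_mul_left, av_add, av_sub, av_const, av_const, sub_self, zero_add, mul_one] at h3
  exact h3

/-- the switching involution on pairs -/
def sw (θ : A → Bool) : (A → Bool) × (A → Bool) ≃ (A → Bool) × (A → Bool) where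
  toFun e := (fun a => if θ a then e.1 a else e.2 a, fun a => if θ a then e.2 a else e.1 a)
  invFun e := (fun a => if θ a then e.1 a else e.2 a, fun a => if θ a then e.2 a else e.1 a)
  left_inv e := by
    ext a <;> by_cases h : θ a <;> simp [h]
  right_inv e := by
    ext a <;> by_cases h : θ a <;> simp [h]

/-- indicator of `θ` -/
def ind (b : Bool) : ℝ := if b then 1 else 0

theorem ind_mul (a b : A) : av (fun θ : A → Bool => ind (θ a) * (1 - ind (θ b)))
    = if a = b then 0 else 1 / 4 := by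
  have e1 : ∀ b : Bool, ind b = (1 + sg b) / 2 := by
    intro b; cases b <;> simp [ind, sg]
  split_ifs with h
  · subst h
    have : ∀ θ : A → Bool, ind (θ a) * (1 - ind (θ a)) = 0 := by
      intro θ
      cases θ a <;> simp [ind]
    rw [av_congr this, av_const]
  · have e2 : ∀ θ : A → Bool, ind (θ a) * (1 - ind (θ b))
        = (1 / 4 + sg (θ a) * (1 / 4)) - (sg (θ b) * (1 / 4) + sg (θ a) * sg (θ b) * (1 / 4)) := by
      intro θ
      rw [e1, e1]; ring
    rw [av_congr e2, av_sub, av_add, av_add, av_const, av_mul_right, av_mul_right, av_mul_right,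
      av_sg, av_sg, av_sg_mul_sg, if_neg h]
    ring

/-- exponential moment of the off-diagonal chaos -/
theorem diag_exp (M : A → A → ℝ) (hM : ∑ a, ∑ b, M a b ^ 2 ≤ 1) :
    av (fun e : A → Bool =>
      Real.exp ((∑ a, ∑ b, sg (e a) * M a b * sg (e b) - ∑ a, M a a) / 8)) ≤ 2 := by
  -- decoupling
  set Bθ : (A → Bool) → (A → Bool) → ℝ := fun θ e =>
    ∑ a, ∑ b, sg (e a) * (ind (θ a) * (1 - ind (θ b)) * M a b) * sg (e b) with hBθ
  have h1 : ∀ e : A → Bool, (∑ a, ∑ b, sg (e a) * M a b * sg (e b) - ∑ a, M a a) / 8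
      = av (fun θ : A → Bool => Bθ θ e / 2) := by
    intro e
    have e1 : ∀ θ : A → Bool, Bθ θ e / 2 = ∑ a, ∑ b,
        (sg (e a) * M a b * sg (e b) / 2) * (ind (θ a) * (1 - ind (θ b))) := by
      intro θ
      simp only [hBθ]
      rw [sum_div]
      refine sum_congr rfl fun a _ => ?_
      rw [sum_div]
      exact sum_congr rfl fun b _ => by ring
    rw [av_congr e1, av_sum, sub_div, sum_div, sum_div, ← sum_sub_distrib]
    refine sum_congr rfl fun a _ => ?_
    rw [av_sum, sum_div]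
    have e2 : ∀ b, av (fun θ : A → Bool =>
        (sg (e a) * M a b * sg (e b) / 2) * (ind (θ a) * (1 - ind (θ b))))
        = sg (e a) * M a b * sg (e b) / 8 - (if a = b then sg (e a) * M a b * sg (e b) / 8 else 0) := by
      intro b
      rw [av_mul_left, ind_mul]
      split_ifs <;> ring
    rw [sum_congr rfl fun b _ => e2 b, sum_sub_distrib, sum_ite_eq, if_pos (mem_univ _)]
    congr 1
    have := sg_mul_self (e a)
    calc M a a / 8 = (sg (e a) * sg (e a)) * M a a / 8 := by rw [this, one_mul]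
      _ = _ := by ring
  have h2 : ∀ e : A → Bool,
      Real.exp ((∑ a, ∑ b, sg (e a) * M a b * sg (e b) - ∑ a, M a a) / 8)
      ≤ av (fun θ : A → Bool => Real.exp (Bθ θ e / 2)) := by
    intro e
    rw [h1 e]
    exact exp_av_le _
  refine (av_mono h2).trans ?_
  rw [av_comm]
  -- fixed `θ`
  have h3 : ∀ θ : A → Bool, av (fun e : A → Bool => Real.exp (Bθ θ e / 2)) ≤ 2 := by
    intro θ
    have e3 : av (fun e : A → Bool => Real.exp (Bθ θ e / 2))
        = av (fun e : (A → Bool) × (A → Bool) => Real.exp (Bθ θ e.1 / 2)) := by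
      rw [av_prod]
      exact av_congr fun e => (av_const _).symm
    rw [e3, ← av_equiv (sw θ)]
    have e4 : ∀ e : (A → Bool) × (A → Bool), Real.exp (Bθ θ ((sw θ) e).1 / 2)
        = Real.exp ((∑ a, ∑ b, sg (e.1 a) * (ind (θ a) * (1 - ind (θ b)) * M a b) * sg (e.2 b)) / 2) := by
      intro e
      congr 2
      simp only [hBθ]
      refine sum_congr rfl fun a _ => sum_congr rfl fun b _ => ?_
      simp only [sw, Equiv.coe_fn_mk]
      by_cases ha : θ a
      · by_cases hb : θ b
        · simp [ha, hb, ind]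
        · simp [ha, hb, ind]
      · simp [ha, ind]
    rw [av_congr e4]
    refine bil_exp _ (le_trans (sum_le_sum fun a _ => sum_le_sum fun b _ => ?_) hM)
    have i1 : ind (θ a) ^ 2 ≤ 1 := by cases θ a <;> simp [ind]
    have i2 : (1 - ind (θ b)) ^ 2 ≤ 1 := by cases θ b <;> simp [ind]
    rw [mul_pow, mul_pow]
    have := sq_nonneg (M a b)
    have i3 : ind (θ a) ^ 2 * (1 - ind (θ b)) ^ 2 ≤ 1 := by
      calc _ ≤ (1 : ℝ) * 1 := mul_le_mul i1 i2 (sq_nonneg _) zero_le_one
        _ = 1 := one_mul 1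
    nlinarith
  refine (av_mono h3).trans ?_
  rw [av_const]

end ChaosAux

open ChaosAux

theorem chaos_bil {A : Type} [Fintype A] [DecidableEq A] (M : A → A → ℝ)
    (hM : ∑ a, ∑ b, M a b ^ 2 ≤ 1) (τ : ℝ) (hτ : 0 ≤ τ) :
    av (fun e : (A → Bool) × (A → Bool) =>
      if τ < |∑ a, ∑ b, sg (e.1 a) * M a b * sg (e.2 b)| then (1 : ℝ) else 0) ≤
      4 * Real.exp (-τ / 8) := by
  have h1 := bil_exp M hM
  have h2 := bil_exp (fun a b => - M a b) (by simpa using hM)
  have h3 := markov_exp (fun e : (A → Bool) × (A → Bool) =>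
    ∑ a, ∑ b, sg (e.1 a) * M a b * sg (e.2 b)) τ (1 / 2) (by norm_num)
    (by
      refine le_of_eq_of_le (av_congr fun e => ?_) h1
      congr 1; ring)
    (by
      refine le_of_eq_of_le (av_congr fun e => ?_) h2
      congr 1
      have : ∑ a, ∑ b, sg (e.1 a) * (fun a b => - M a b) a b * sg (e.2 b)
          = - ∑ a, ∑ b, sg (e.1 a) * M a b * sg (e.2 b) := by
        rw [← sum_neg_distrib]
        refine sum_congr rfl fun a _ => ?_
        rw [← sum_neg_distrib]
        exact sum_congr rfl fun b _ => by ring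
      rw [this]; ring)
  refine h3.trans ?_
  have : Real.exp (-(τ * (1 / 2))) ≤ Real.exp (-τ / 8) := Real.exp_le_exp.mpr (by linarith)
  linarith

theorem chaos_diag {A : Type} [Fintype A] [DecidableEq A] (M : A → A → ℝ)
    (hM : ∑ a, ∑ b, M a b ^ 2 ≤ 1) (τ : ℝ) (_hτ : 0 ≤ τ) :
    av (fun e : A → Bool =>
      if τ < |∑ a, ∑ b, sg (e a) * M a b * sg (e b) - ∑ a, M a a| then (1 : ℝ) else 0) ≤
      4 * Real.exp (-τ / 8) := by
  have h1 := diag_exp M hM
  have h2 := diag_exp (fun a b => - M a b) (by simpa using hM)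
  have h3 := markov_exp (fun e : A → Bool =>
    ∑ a, ∑ b, sg (e a) * M a b * sg (e b) - ∑ a, M a a) τ (1 / 8) (by norm_num)
    (by
      refine le_of_eq_of_le (av_congr fun e => ?_) h1
      congr 1; ring)
    (by
      refine le_of_eq_of_le (av_congr fun e => ?_) h2
      congr 1
      have e1 : ∑ a, ∑ b, sg (e a) * (fun a b => - M a b) a b * sg (e b)
          = - ∑ a, ∑ b, sg (e a) * M a b * sg (e b) := by
        rw [← sum_neg_distrib]
        refine sum_congr rfl fun a _ => ?_
        rw [← sum_neg_distrib]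
        exact sum_congr rfl fun b _ => by ring
      have e2 : ∑ a, (fun a b => - M a b) a a = - ∑ a, M a a := by
        rw [← sum_neg_distrib]
      rw [e1, e2]; ring)
  refine h3.trans (le_of_eq ?_)
  congr 2
  ring

end Pool.Agent.PEL
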