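import Pool.Agent.PEL.Nrm3
import Pool.Agent.PEL.NearO

/-!
# PEL : two parts of 4.4 (`U_l` with `r(k,t) = l+1` and with `r(k,t) ≥ l+2`)
-/

set_option autoImplicit false

namespace Pool.Agent.PEL.TSB

open Finset

variable {P : Par} {S : P.Sam}

theorem DN_sq_le_nsq (hB : P.Big) (hS : Good P S) (F : Submodule ℝ (P.A → ℝ)) (v : P.A → ℝ) :
    DN S F v ^ 2 ≤ nsq v := by
  rw [← nm_sq]
  exact pow_le_pow_left₀ (DN_nonneg hB hS F v) (DN_le_nm hB hS F v) 2

/-- Euclidean bound for signed sums -/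
theorem av_DN_euclid (hB : P.Big) (hS : Good P S) (F : Submodule ℝ (P.A → ℝ))
    {I : Type} [Fintype I] [DecidableEq I] (v : I → P.A → ℝ) :
    av (fun δ : I → Bool => DN S F (∑ i, sg (δ i) • v i) ^ 2) ≤ ∑ i, nsq (v i) := by
  rw [← av_nsq_signs]
  exact av_mono fun δ => DN_sq_le_nsq hB hS F _

theorem av_DN_add (hB : P.Big) (hS : Good P S) (F : Submodule ℝ (P.A → ℝ))
    {I : Type} [Fintype I] [DecidableEq I] (v w : I → P.A → ℝ) :
    av (fun δ : I → Bool => DN S F (∑ i, sg (δ i) • (v i + w i)) ^ 2) ≤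
      2 * av (fun δ : I → Bool => DN S F (∑ i, sg (δ i) • v i) ^ 2)
        + 2 * av (fun δ : I → Bool => DN S F (∑ i, sg (δ i) • w i) ^ 2) := by
  rw [← av_mul_left, ← av_mul_left, ← av_add]
  refine av_mono fun δ => ?_
  have e : ∑ i, sg (δ i) • (v i + w i) = ∑ i, sg (δ i) • v i + ∑ i, sg (δ i) • w i := by
    rw [← sum_add_distrib]; exact sum_congr rfl fun i _ => smul_add _ _ _
  rw [e]
  have h1 := DN_add_le hB hS F (∑ i, sg (δ i) • v i) (∑ i, sg (δ i) • w i)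
  have h2 := DN_nonneg hB hS F (∑ i, sg (δ i) • v i + ∑ i, sg (δ i) • w i)
  have h3 := DN_nonneg hB hS F (∑ i, sg (δ i) • v i)
  have h4 := DN_nonneg hB hS F (∑ i, sg (δ i) • w i)
  calc DN S F (∑ i, sg (δ i) • v i + ∑ i, sg (δ i) • w i) ^ 2
      ≤ (DN S F (∑ i, sg (δ i) • v i) + DN S F (∑ i, sg (δ i) • w i)) ^ 2 :=
        pow_le_pow_left₀ h2 h1 2
    _ ≤ _ := by nlinarith [sq_nonneg (DN S F (∑ i, sg (δ i) • v i) - DN S F (∑ i, sg (δ i) • w i))]

/-- Euclidean bound for sums of `U_l y_l` -/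
theorem nsq_sum_U_le (hB : P.Big) (hS : Good P S) (y : ℕ → Fin P.T → ℝ) :
    nsq (∑ l ∈ range P.K, U S l (y l)) ≤
      ∑ l ∈ range P.K, (nsq (y l) + ((P.p (l + 1) : ℝ) ^ 40)⁻¹ * n1 (y l) ^ 2) := by
  rw [nsq_sum_levels _ fun l _ => lv_U l _]
  exact sum_le_sum fun l hl => nsq_U_le hB hS (mem_range.mp hl) _

section
variable {I : Type}

/-- `y_{l,i}` -/
noncomputable def yB (β : I → ℕ → Fin P.T → ℝ) (rr : ℕ → Fin P.T → ℕ) (l : ℕ) (i : I) :
    Fin P.T → ℝ := fun t => ∑ k ∈ range (l + 1), if rr k t = l + 1 then β i k t else 0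

/-- `ζ_{l,i}` -/
noncomputable def zB (β : I → ℕ → Fin P.T → ℝ) (rr : ℕ → Fin P.T → ℕ) (l : ℕ) (i : I) :
    Fin P.T → ℝ := fun t => ∑ k ∈ range (l + 1), if l + 2 ≤ rr k t then β i k t else 0

theorem c_le_r {c : ℕ → ℝ} {r : ℝ} (hr : 0 ≤ r) (hc : ∑ k ∈ range P.K, c k ^ 2 ≤ r ^ 2)
    {k : ℕ} (hk : k < P.K) : c k ≤ r := by
  have h1 : c k ^ 2 ≤ r ^ 2 :=
    (single_le_sum (f := fun k => c k ^ 2) (fun k _ => sq_nonneg _) (mem_range.mpr hk)).trans hc
  exact (abs_le_of_sq_le_sq' h1 hr).2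

/-- the common `l_1` bound -/
theorem n1_part_le (hB : P.Big) {β : ℕ → Fin P.T → ℝ} {c : ℕ → ℝ} {r : ℝ} (hr : 0 ≤ r)
    (hβ : ∀ k < P.K, CB P k (β k) (c k)) (hc : ∑ k ∈ range P.K, c k ^ 2 ≤ r ^ 2)
    {l : ℕ} (hl : l < P.K) (y : Fin P.T → ℝ)
    (hy : ∀ t, |y t| ≤ ∑ k ∈ range (l + 1), |β k t|) :
    n1 y ≤ P.K * (P.p (l + 1) : ℝ) ^ 5 * r := by
  have hp0 : (0 : ℝ) ≤ (P.p (l + 1) : ℝ) ^ 5 := by positivity
  calc n1 y ≤ ∑ t, ∑ k ∈ range (l + 1), |β k t| := sum_le_sum fun t _ => hy t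
    _ = ∑ k ∈ range (l + 1), n1 (β k) := sum_comm
    _ ≤ ∑ k ∈ range (l + 1), (P.p (l + 1) : ℝ) ^ 5 * r := by
        refine sum_le_sum fun k hk => ?_
        have hk1 : k ≤ l := by have := mem_range.mp hk; omega
        have hkK : k < P.K := by omega
        refine (hβ k hkK).one.trans ?_
        have e1 : (P.p (k + 1) : ℝ) ≤ P.p (l + 1) := hB.p_mono_real (by omega)
        have e2 : (P.p (k + 1) : ℝ) ^ 5 ≤ (P.p (l + 1) : ℝ) ^ 5 :=
          pow_le_pow_left₀ (Nat.cast_nonneg _) e1 5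
        exact mul_le_mul e2 (c_le_r hr hc hkK) (hβ k hkK).nonneg hp0
    _ = (l + 1 : ℕ) * ((P.p (l + 1) : ℝ) ^ 5 * r) := by
        rw [sum_const, card_range, nsmul_eq_mul]
    _ ≤ P.K * ((P.p (l + 1) : ℝ) ^ 5 * r) := by
        refine mul_le_mul_of_nonneg_right ?_ (mul_nonneg hp0 hr)
        exact_mod_cast hl
    _ = _ := by ring

theorem abs_yB_le (β : I → ℕ → Fin P.T → ℝ) (rr : ℕ → Fin P.T → ℕ) (l : ℕ) (i : I)
    (t : Fin P.T) : |yB β rr l i t| ≤ ∑ k ∈ range (l + 1), if rr k t = l + 1 then |β i k t| else 0 := by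
  refine (abs_sum_le_sum_abs _ _).trans (le_of_eq (sum_congr rfl fun k _ => ?_))
  split_ifs <;> simp

theorem abs_zB_le (β : I → ℕ → Fin P.T → ℝ) (rr : ℕ → Fin P.T → ℕ) (l : ℕ) (i : I)
    (t : Fin P.T) : |zB β rr l i t| ≤ ∑ k ∈ range (l + 1), if l + 2 ≤ rr k t then |β i k t| else 0 := by
  refine (abs_sum_le_sum_abs _ _).trans (le_of_eq (sum_congr rfl fun k _ => ?_))
  split_ifs <;> simp

theorem ite_abs_le (p : Prop) [Decidable p] (x : ℝ) : (if p then |x| else 0) ≤ |x| := by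
  split_ifs
  · exact le_rfl
  · exact abs_nonneg _

/-- `∑_l |y_{l,i}|² ≤ 5 r_i²` -/
theorem sum_nsq_yB_le (hB : P.Big) (β : I → ℕ → Fin P.T → ℝ) (c : ℕ → ℝ) (r : ℝ) (i : I)
    (rr : ℕ → Fin P.T → ℕ) (hβ : ∀ k < P.K, CB P k (β i k) (c k))
    (hc : ∑ k ∈ range P.K, c k ^ 2 ≤ r ^ 2) :
    ∑ l ∈ range P.K, nsq (yB β rr l i) ≤ 5 * r ^ 2 := by
  have h1 := near_orth_CB hB (β i) c hβ
  have e : ∑ l ∈ range P.K, nsq (yB β rr l i) = ∑ t, ∑ l ∈ range P.K, yB β rr l i t ^ 2 := by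
    unfold nsq; exact sum_comm
  rw [e]
  have h2 : ∀ t, ∑ l ∈ range P.K, yB β rr l i t ^ 2 ≤ (∑ k ∈ range P.K, |β i k t|) ^ 2 := by
    intro t
    have e1 : ∑ l ∈ range P.K, yB β rr l i t ^ 2 = ∑ l ∈ range P.K, |yB β rr l i t| ^ 2 :=
      sum_congr rfl fun l _ => (sq_abs _).symm
    rw [e1]
    refine (Finset.sum_sq_le_sq_sum_of_nonneg fun l _ => abs_nonneg _).trans ?_
    refine pow_le_pow_left₀ (sum_nonneg fun l _ => abs_nonneg _) ?_ 2
    calc ∑ l ∈ range P.K, |yB β rr l i t|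
        ≤ ∑ l ∈ range P.K, ∑ k ∈ range P.K, (if rr k t = l + 1 then |β i k t| else 0) := by
          refine sum_le_sum fun l hl => (abs_yB_le β rr l i t).trans ?_
          refine sum_le_sum_of_subset_of_nonneg ?_ fun k _ _ => ?_
          · intro k hk
            have := mem_range.mp hk
            have := mem_range.mp hl
            exact mem_range.mpr (by omega)
          · split_ifs
            · exact abs_nonneg _
            · exact le_rfl
      _ = ∑ k ∈ range P.K, ∑ l ∈ range P.K, (if rr k t = l + 1 then |β i k t| else 0) := sum_comm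
      _ ≤ ∑ k ∈ range P.K, |β i k t| := by
          refine sum_le_sum fun k _ => ?_
          rcases Nat.eq_zero_or_pos (rr k t) with h | h
          · rw [sum_eq_zero fun l _ => if_neg (by omega)]
            exact abs_nonneg _
          · have e3 : ∀ l ∈ range P.K, (if rr k t = l + 1 then |β i k t| else 0)
                = (if l = rr k t - 1 then |β i k t| else 0) := fun l _ => by
              by_cases h4 : rr k t = l + 1
              · rw [if_pos h4, if_pos (by omega)]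
              · rw [if_neg h4, if_neg (by omega)]
            rw [sum_congr rfl e3, sum_ite_eq']
            split_ifs
            · exact le_rfl
            · exact abs_nonneg _
  calc ∑ t, ∑ l ∈ range P.K, yB β rr l i t ^ 2 ≤ ∑ t, (∑ k ∈ range P.K, |β i k t|) ^ 2 :=
        sum_le_sum fun t _ => h2 t
    _ ≤ 5 * ∑ k ∈ range P.K, c k ^ 2 := h1
    _ ≤ 5 * r ^ 2 := by linarith

/-- slack: `K² p_{l+1}^{10} ≤ p_{l+1}^{40} / K` -/
theorem slackB (hB : P.Big) (l : ℕ) :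
    ((P.p (l + 1) : ℝ) ^ 40)⁻¹ * ((P.K : ℝ) * (P.p (l + 1) : ℝ) ^ 5) ^ 2 ≤ 1 / P.K := by
  have hK : (0 : ℝ) < P.K := lt_of_lt_of_le one_pos hB.one_le_K
  have hp : (0 : ℝ) < P.p (l + 1) := hB.p_pos_real _
  have hp1 : (1 : ℝ) ≤ P.p (l + 1) := hB.one_le_p_real _
  have hKp : (P.K : ℝ) ≤ P.p (l + 1) := by
    have h3 := hB.K_pow_le l
    have : P.K ≤ P.p (l + 1) := by
      refine le_trans ?_ h3
      calc P.K ≤ 1000 * P.K := by omega
        _ ≤ (1000 * P.K) ^ 20 := Nat.le_self_pow (by norm_num) _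
    exact_mod_cast this
  rw [inv_mul_le_iff₀ (by positivity), mul_one_div, le_div_iff₀ hK]
  calc ((P.K : ℝ) * (P.p (l + 1) : ℝ) ^ 5) ^ 2 * P.K
      = (P.K : ℝ) ^ 3 * (P.p (l + 1) : ℝ) ^ 10 := by ring
    _ ≤ (P.p (l + 1) : ℝ) ^ 3 * (P.p (l + 1) : ℝ) ^ 10 := by gcongr
    _ = (P.p (l + 1) : ℝ) ^ 13 := by ring
    _ ≤ (P.p (l + 1) : ℝ) ^ 40 := pow_le_pow_right₀ hp1 (by norm_num)

/-- (B1): the part `U_l` with `r(k,t) = l+1` -/
theorem tstar_B1 (hB : P.Big) (hS : Good P S) (F : Submodule ℝ (P.A → ℝ)) [Fintype I]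
    [DecidableEq I] (β : I → ℕ → Fin P.T → ℝ) (c : I → ℕ → ℝ) (r : I → ℝ)
    (rr : ℕ → Fin P.T → ℕ) (hr : ∀ i, 0 ≤ r i) (hβ : ∀ i, ∀ k < P.K, CB P k (β i k) (c i k))
    (hc : ∀ i, ∑ k ∈ range P.K, c i k ^ 2 ≤ r i ^ 2) :
    av (fun δ : I → Bool => DN S F (∑ i, sg (δ i) • ∑ l ∈ range P.K, U S l (yB β rr l i)) ^ 2)
      ≤ 6 * ∑ i, r i ^ 2 := by
  refine (av_DN_euclid hB hS F _).trans ?_
  rw [mul_sum]
  refine sum_le_sum fun i _ => ?_
  refine (nsq_sum_U_le hB hS _).trans ?_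
  rw [sum_add_distrib]
  have h1 := sum_nsq_yB_le hB β (c i) (r i) i rr (hβ i) (hc i)
  have h2 : ∑ l ∈ range P.K, ((P.p (l + 1) : ℝ) ^ 40)⁻¹ * n1 (yB β rr l i) ^ 2 ≤ r i ^ 2 := by
    have hK : (0 : ℝ) < P.K := lt_of_lt_of_le one_pos hB.one_le_K
    have h3 : ∀ l ∈ range P.K, ((P.p (l + 1) : ℝ) ^ 40)⁻¹ * n1 (yB β rr l i) ^ 2
        ≤ 1 / P.K * r i ^ 2 := by
      intro l hl
      have hp : (0 : ℝ) < P.p (l + 1) := hB.p_pos_real _
      have h4 := n1_part_le hB (hr i) (hβ i) (hc i) (mem_range.mp hl) (yB β rr l i)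
        (fun t => (abs_yB_le β rr l i t).trans (sum_le_sum fun k _ => ite_abs_le _ _))
      calc ((P.p (l + 1) : ℝ) ^ 40)⁻¹ * n1 (yB β rr l i) ^ 2
          ≤ ((P.p (l + 1) : ℝ) ^ 40)⁻¹ * (P.K * (P.p (l + 1) : ℝ) ^ 5 * r i) ^ 2 := by
            have := n1_nonneg (yB β rr l i)
            gcongr
        _ = ((P.p (l + 1) : ℝ) ^ 40)⁻¹ * ((P.K : ℝ) * (P.p (l + 1) : ℝ) ^ 5) ^ 2 * r i ^ 2 := by
            ring
        _ ≤ 1 / P.K * r i ^ 2 := mul_le_mul_of_nonneg_right (slackB hB l) (sq_nonneg _)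
    refine (sum_le_sum h3).trans ?_
    rw [sum_const, card_range, nsmul_eq_mul]
    field_simp
    exact le_rfl
  linarith

/-- Minkowski: `∑_i (∑_{t ∈ E} |y_i(t)|)² ≤ (∑_{t ∈ E} |y(t)|_2)²` -/
theorem mink_fin [Fintype I] {κ : Type} (E : Finset κ) (y : κ → I → ℝ) :
    ∑ i, (∑ t ∈ E, |y t i|) ^ 2 ≤ (∑ t ∈ E, nm (y t)) ^ 2 := by
  have e : ∑ i, (∑ t ∈ E, |y t i|) ^ 2 = nm (∑ t ∈ E, fun i => |y t i|) ^ 2 := by
    rw [nm_sq]; unfold nsq
    exact sum_congr rfl fun i _ => by rw [Finset.sum_apply]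
  rw [e]
  refine pow_le_pow_left₀ (nm_nonneg _) ((nm_sum_le _ _).trans (le_of_eq ?_)) 2
  refine sum_congr rfl fun t _ => ?_
  unfold nm nsq
  simp only [sq_abs]

/-- (B2): the part `U_l` with `r(k,t) ≥ l+2` -/
theorem tstar_B2 (hB : P.Big) (hS : Good P S) (F : Submodule ℝ (P.A → ℝ))
    (Ex : ℕ → Finset (Fin P.T)) (Γ : ℝ) (hΓ : 1 ≤ Γ)
    (hcard : ∀ l < P.K, (Ex l).card ≤ P.p (l + 1) ^ 600) (hclu : Clu S F Ex Γ)
    [Fintype I] [DecidableEq I] (β : I → ℕ → Fin P.T → ℝ) (c : I → ℕ → ℝ) (r : I → ℝ)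
    (rr : ℕ → Fin P.T → ℕ) (κ : ℕ → ℝ) (hr : ∀ i, 0 ≤ r i)
    (hβ : ∀ i, ∀ k < P.K, CB P k (β i k) (c i k))
    (hc : ∀ i, ∑ k ∈ range P.K, c i k ^ 2 ≤ r i ^ 2)
    (hκs : ∑ k ∈ range P.K, κ k ^ 2 ≤ ∑ i, r i ^ 2)
    (hν : ∀ l < P.K, ∀ k ≤ l, ∀ t, l + 2 ≤ rr k t →
      (P.p (l + 2) : ℝ) ^ 5 * nm (fun i => β i k t) ≤ κ k) :
    av (fun δ : I → Bool => DN S F (∑ i, sg (δ i) • ∑ l ∈ range P.K, U S l (zB β rr l i)) ^ 2)
      ≤ 20 * Γ * ∑ i, r i ^ 2 := by
  have hK : (0 : ℝ) < P.K := lt_of_lt_of_le one_pos hB.one_le_K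
  have hK1 : (1 : ℝ) ≤ P.K := hB.one_le_K
  set R := ∑ i, r i ^ 2 with hR
  have hR0 : 0 ≤ R := sum_nonneg fun i _ => sq_nonneg _
  -- the two parts
  set z1 : ℕ → I → Fin P.T → ℝ := fun l i t => if t ∈ Ex l then 0 else zB β rr l i t with hz1
  set z2 : ℕ → I → Fin P.T → ℝ := fun l i t => if t ∈ Ex l then zB β rr l i t else 0 with hz2
  have hsplit : ∀ i, ∑ l ∈ range P.K, U S l (zB β rr l i)
      = ∑ l ∈ range P.K, U S l (z1 l i) + ∑ l ∈ range P.K, U S l (z2 l i) := by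
    intro i
    rw [← sum_add_distrib]
    refine sum_congr rfl fun l _ => ?_
    rw [← U_add]
    congr 1
    funext t
    simp only [hz1, hz2, Pi.add_apply]
    split_ifs <;> simp
  simp only [hsplit]
  refine (av_DN_add hB hS F _ _).trans ?_
  -- off `Ex`
  have habs : ∀ l i t, |zB β rr l i t| ≤ ∑ k ∈ range (l + 1), |β i k t| := fun l i t =>
    (abs_zB_le β rr l i t).trans (sum_le_sum fun k _ => ite_abs_le _ _)
  have hz1abs : ∀ l i t, |z1 l i t| ≤ ∑ k ∈ range (l + 1), |β i k t| := fun l i t => by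
    simp only [hz1]
    split_ifs
    · rw [abs_zero]; exact sum_nonneg fun _ _ => abs_nonneg _
    · exact habs l i t
  have hp1 : av (fun δ : I → Bool => DN S F (∑ i, sg (δ i) • ∑ l ∈ range P.K, U S l (z1 l i)) ^ 2)
      ≤ Γ * ∑ i, (3 * r i) ^ 2 := by
    refine hclu I z1 (fun i => 3 * r i) (fun i => mul_nonneg (by norm_num) (hr i)) ?_ ?_ ?_
    · intro l _ i t ht
      simp only [hz1]
      rw [if_pos ht]
    · intro l hl i
      have h1 := near_orth_CB hB (β i) (c i) (hβ i)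
      have h2 : nsq (z1 l i) ≤ ∑ t, (∑ k ∈ range P.K, |β i k t|) ^ 2 := by
        refine sum_le_sum fun t _ => ?_
        rw [← sq_abs]
        refine pow_le_pow_left₀ (abs_nonneg _) ((hz1abs l i t).trans ?_) 2
        refine sum_le_sum_of_subset_of_nonneg ?_ fun k _ _ => abs_nonneg _
        intro k hk
        have := mem_range.mp hk
        exact mem_range.mpr (by omega)
      have h3 := hc i
      nlinarith
    · intro l hl i
      have h1 := n1_part_le hB (hr i) (hβ i) (hc i) hl (z1 l i) (hz1abs l i)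
      refine h1.trans ?_
      have hKp : (P.K : ℝ) ≤ P.p (l + 1) := by
        have h3 := hB.K_pow_le l
        have : P.K ≤ P.p (l + 1) := by
          refine le_trans ?_ h3
          calc P.K ≤ 1000 * P.K := by omega
            _ ≤ (1000 * P.K) ^ 20 := Nat.le_self_pow (by norm_num) _
        exact_mod_cast this
      have hri := hr i
      calc (P.K : ℝ) * (P.p (l + 1) : ℝ) ^ 5 * r i
          ≤ (P.p (l + 1) : ℝ) * (P.p (l + 1) : ℝ) ^ 5 * r i := by gcongr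
        _ = (P.p (l + 1) : ℝ) ^ 6 * r i := by ring
        _ ≤ (P.p (l + 1) : ℝ) ^ 6 * (3 * r i) := by
            have : (0 : ℝ) ≤ (P.p (l + 1) : ℝ) ^ 6 := by positivity
            nlinarith [mul_nonneg this hri]
  -- on `Ex`
  have hp2 : av (fun δ : I → Bool => DN S F (∑ i, sg (δ i) • ∑ l ∈ range P.K, U S l (z2 l i)) ^ 2)
      ≤ R := by
    refine (av_DN_euclid hB hS F _).trans ?_
    have h1 : ∀ i, nsq (∑ l ∈ range P.K, U S l (z2 l i)) ≤
        ∑ l ∈ range P.K, 2 * n1 (z2 l i) ^ 2 := by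
      intro i
      refine (nsq_sum_U_le hB hS _).trans (sum_le_sum fun l _ => ?_)
      have h2 := nsq_le_n1_sq (z2 l i)
      have h3 : ((P.p (l + 1) : ℝ) ^ 40)⁻¹ ≤ 1 := inv_le_one_of_one_le₀
        (one_le_pow₀ (hB.one_le_p_real _))
      have h4 := mul_le_mul_of_nonneg_right h3 (sq_nonneg (n1 (z2 l i)))
      linarith
    refine (sum_le_sum fun i _ => h1 i).trans ?_
    rw [sum_comm]
    have h5 : ∀ l ∈ range P.K, ∑ i, 2 * n1 (z2 l i) ^ 2 ≤ 1 / P.K * R := by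
      intro l hl
      have hlK := mem_range.mp hl
      have e1 : ∀ i, n1 (z2 l i) = ∑ t ∈ Ex l, |zB β rr l i t| := by
        intro i
        unfold n1
        simp only [hz2]
        rw [← Finset.sum_filter_add_sum_filter_not univ (fun t => t ∈ Ex l)]
        have e2 : ∑ t ∈ univ.filter (fun t => t ∉ Ex l),
            |if t ∈ Ex l then zB β rr l i t else 0| = 0 := by
          refine sum_eq_zero fun t ht => ?_
          rw [if_neg (mem_filter.mp ht).2, abs_zero]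
        rw [e2, add_zero]
        have e3 : univ.filter (fun t => t ∈ Ex l) = Ex l := by ext t; simp
        rw [e3]
        refine sum_congr rfl fun t ht => ?_
        rw [if_pos ht]
      have h6 : ∑ i, n1 (z2 l i) ^ 2 ≤ (∑ t ∈ Ex l, nm (fun i => zB β rr l i t)) ^ 2 := by
        simp only [e1]
        exact mink_fin (Ex l) fun t i => zB β rr l i t
      -- each term
      have hp2' : (0 : ℝ) < (P.p (l + 2) : ℝ) ^ 5 := pow_pos (hB.p_pos_real _) 5
      have hκle : ∀ k < P.K, κ k ≤ Real.sqrt R := by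
        intro k hk
        apply Real.le_sqrt_of_sq_le
        exact (single_le_sum (f := fun k => κ k ^ 2) (fun k _ => sq_nonneg _)
          (mem_range.mpr hk)).trans hκs
      have h7 : ∀ t, nm (fun i => zB β rr l i t) ≤ P.K * ((P.p (l + 2) : ℝ) ^ 5)⁻¹ * Real.sqrt R := by
        intro t
        have e4 : (fun i => zB β rr l i t) = ∑ k ∈ range (l + 1),
            (fun i => if l + 2 ≤ rr k t then β i k t else 0) := by
          funext i
          rw [Finset.sum_apply]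
          rfl
        rw [e4]
        refine (nm_sum_le _ _).trans ?_
        have h8 : ∀ k ∈ range (l + 1), nm (fun i => if l + 2 ≤ rr k t then β i k t else 0)
            ≤ ((P.p (l + 2) : ℝ) ^ 5)⁻¹ * Real.sqrt R := by
          intro k hk
          have hkl : k ≤ l := by have := mem_range.mp hk; omega
          by_cases h9 : l + 2 ≤ rr k t
          · simp only [if_pos h9]
            have h10 := hν l hlK k hkl t h9
            rw [← div_eq_inv_mul, le_div_iff₀ hp2', mul_comm]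
            exact h10.trans (hκle k (by omega))
          · simp only [if_neg h9]
            have : nm (fun _ : I => (0 : ℝ)) = 0 := nm_zero
            rw [this]
            positivity
        refine (sum_le_sum h8).trans ?_
        rw [sum_const, card_range, nsmul_eq_mul, mul_assoc]
        refine mul_le_mul_of_nonneg_right ?_ (by positivity)
        exact_mod_cast hlK
      have h11 : ∑ t ∈ Ex l, nm (fun i => zB β rr l i t) ≤
          (P.p (l + 1) : ℝ) ^ 600 * (P.K * ((P.p (l + 2) : ℝ) ^ 5)⁻¹ * Real.sqrt R) := by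
        refine (sum_le_sum fun t _ => h7 t).trans ?_
        rw [sum_const, nsmul_eq_mul]
        refine mul_le_mul_of_nonneg_right ?_ (by positivity)
        exact_mod_cast hcard l hlK
      have h12 : 0 ≤ ∑ t ∈ Ex l, nm (fun i => zB β rr l i t) := sum_nonneg fun t _ => nm_nonneg _
      have h13 := pow_le_pow_left₀ h12 h11 2
      have hsq : Real.sqrt R ^ 2 = R := Real.sq_sqrt hR0
      have hKp : (P.K : ℝ) ≤ P.p (l + 1) := by
        have h3 := hB.K_pow_le l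
        have : P.K ≤ P.p (l + 1) := by
          refine le_trans ?_ h3
          calc P.K ≤ 1000 * P.K := by omega
            _ ≤ (1000 * P.K) ^ 20 := Nat.le_self_pow (by norm_num) _
        exact_mod_cast this
      have h2p : (2 : ℝ) ≤ P.p (l + 1) := by
        have h3 := hB.K_pow_le l
        have h4 := hB.hK
        have : 2 ≤ P.p (l + 1) := by
          refine le_trans ?_ h3
          calc 2 ≤ 1000 * P.K := by omega
            _ ≤ (1000 * P.K) ^ 20 := Nat.le_self_pow (by norm_num) _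
        exact_mod_cast this
      have hp1' : (1 : ℝ) ≤ P.p (l + 1) := hB.one_le_p_real _
      -- `2 K³ p^{1200} ≤ p_{l+2}^{10}`
      have h14 : 2 * (P.K : ℝ) ^ 3 * (P.p (l + 1) : ℝ) ^ 1200 ≤ ((P.p (l + 2) : ℝ) ^ 5) ^ 2 := by
        have e5 : (P.p (l + 1) : ℝ) ^ 500 ≤ P.p (l + 2) := hB.p_step_real (l + 1)
        calc 2 * (P.K : ℝ) ^ 3 * (P.p (l + 1) : ℝ) ^ 1200
            ≤ (P.p (l + 1) : ℝ) * (P.p (l + 1) : ℝ) ^ 3 * (P.p (l + 1) : ℝ) ^ 1200 := by gcongr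
          _ = (P.p (l + 1) : ℝ) ^ 1204 := by ring
          _ ≤ (P.p (l + 1) : ℝ) ^ 5000 := pow_le_pow_right₀ hp1' (by norm_num)
          _ = ((P.p (l + 1) : ℝ) ^ 500) ^ 10 := by rw [← pow_mul]
          _ ≤ (P.p (l + 2) : ℝ) ^ 10 := pow_le_pow_left₀ (by positivity) e5 10
          _ = _ := by rw [← pow_mul]
      calc ∑ i, 2 * n1 (z2 l i) ^ 2 = 2 * ∑ i, n1 (z2 l i) ^ 2 := by rw [mul_sum]
        _ ≤ 2 * ((P.p (l + 1) : ℝ) ^ 600 * (P.K * ((P.p (l + 2) : ℝ) ^ 5)⁻¹ * Real.sqrt R)) ^ 2 := by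
            linarith
        _ = (2 * (P.K : ℝ) ^ 3 * (P.p (l + 1) : ℝ) ^ 1200) * (((P.p (l + 2) : ℝ) ^ 5) ^ 2)⁻¹
              * (1 / P.K * R) := by
            rw [mul_pow, mul_pow, mul_pow, hsq, ← pow_mul, inv_pow]
            field_simp
            ring
        _ ≤ 1 * (1 / P.K * R) := by
            refine mul_le_mul_of_nonneg_right ?_ (by positivity)
            rw [← div_eq_mul_inv, div_le_one (by positivity)]
            exact h14
        _ = _ := one_mul _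
    refine (sum_le_sum h5).trans ?_
    rw [sum_const, card_range, nsmul_eq_mul]
    field_simp
    exact le_rfl
  have e9 : ∑ i, (3 * r i) ^ 2 = 9 * R := by
    rw [hR, mul_sum]; exact sum_congr rfl fun i _ => by ring
  rw [e9] at hp1
  nlinarith
end

end Pool.Agent.PEL.TSB
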