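import Pool.Agent.PEL.ClsLem
import Pool.Agent.PEL.NearO

/-!
# PEL-TSTAR, first half : the `W_r` part (4.4 of the text)

`rr k t` is an index between `k` and `K` with `p_r^5 ν_{k,t} ≤ κ_k` and (if `r < K`) `κ_k < p_{r+1}^5 ν_{k,t}`;
the coefficients of class `r` are `z'_{r,t}(i) = ∑_{k, rr k t = r} β_{k,i}(t)`.
-/

set_option autoImplicit false

namespace Pool.Agent.PEL

open Finset

variable {P : Par} {S : P.Sam}

/-- the new coefficients of class `r` -/
noncomputable def tsz {I : Type} (P : Par) (β : I → ℕ → Fin P.T → ℝ) (rr : ℕ → Fin P.T → ℕ)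
    (r : ℕ) (t : Fin P.T) (i : I) : ℝ :=
  ∑ k ∈ range P.K, if rr k t = r then β i k t else 0

theorem tsw_near (hB : P.Big) {I : Type} [Fintype I]
    (β : I → ℕ → Fin P.T → ℝ) (c : I → ℕ → ℝ) (hc : ∀ i, ∀ k < P.K, CB P k (β i k) (c i k))
    (rr : ℕ → Fin P.T → ℕ) :
    ∑ r ∈ range P.K, ∑ t, nsq (tsz P β rr r t) ≤ 5 * ∑ i, ∑ k ∈ range P.K, c i k ^ 2 := by
  have h1 : ∑ r ∈ range P.K, ∑ t, nsq (tsz P β rr r t) =
      ∑ i, ∑ t, ∑ r ∈ range P.K, tsz P β rr r t i ^ 2 := by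
    unfold nsq
    calc ∑ r ∈ range P.K, ∑ t, ∑ i, tsz P β rr r t i ^ 2
        = ∑ t, ∑ r ∈ range P.K, ∑ i, tsz P β rr r t i ^ 2 := sum_comm
      _ = ∑ t, ∑ i, ∑ r ∈ range P.K, tsz P β rr r t i ^ 2 :=
          sum_congr rfl fun t _ => sum_comm
      _ = _ := sum_comm
  rw [h1, mul_sum]
  refine sum_le_sum fun i _ => ?_
  refine le_trans (sum_le_sum fun t _ => ?_) (near_orth_CB hB (β i) (c i) (hc i))
  have h2 : ∀ r, |tsz P β rr r t i| ≤ ∑ k ∈ range P.K, if rr k t = r then |β i k t| else 0 := by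
    intro r
    unfold tsz
    refine (abs_sum_le_sum_abs _ _).trans (le_of_eq ?_)
    refine sum_congr rfl fun k _ => ?_
    split_ifs <;> simp
  have h3 : ∑ r ∈ range P.K, |tsz P β rr r t i| ≤ ∑ k ∈ range P.K, |β i k t| := by
    refine (sum_le_sum fun r _ => h2 r).trans ?_
    rw [sum_comm]
    refine sum_le_sum fun k _ => ?_
    rw [sum_ite_eq (range P.K) (rr k t) (fun _ => |β i k t|)]
    split_ifs
    · exact le_rfl
    · exact abs_nonneg _
  have h4 : ∑ r ∈ range P.K, tsz P β rr r t i ^ 2 ≤ (∑ r ∈ range P.K, |tsz P β rr r t i|) ^ 2 := by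
    have h := Finset.sum_sq_le_sq_sum_of_nonneg (s := range P.K)
      (f := fun r => |tsz P β rr r t i|) (fun r _ => abs_nonneg _)
    simpa [sq_abs] using h
  refine h4.trans ?_
  exact pow_le_pow_left₀ (sum_nonneg fun r _ => abs_nonneg _) h3 2

theorem tsw_nm_le {I : Type} [Fintype I] (β : I → ℕ → Fin P.T → ℝ) (rr : ℕ → Fin P.T → ℕ)
    (r : ℕ) (t : Fin P.T) :
    nm (tsz P β rr r t) ≤ ∑ k ∈ range P.K, if rr k t = r then nm (fun i => β i k t) else 0 := by
  have e : tsz P β rr r t = ∑ k ∈ range P.K, (fun i => if rr k t = r then β i k t else 0) := by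
    funext i
    rw [Finset.sum_apply]
    rfl
  rw [e]
  refine (nm_sum_le _ _).trans (sum_le_sum fun k _ => ?_)
  split_ifs
  · exact le_rfl
  · exact le_of_eq nm_zero

theorem tstar_W (hB : P.Big) (hS : Good P S) (F : Submodule ℝ (P.A → ℝ))
    {I : Type} [Fintype I] [DecidableEq I] (β : I → ℕ → Fin P.T → ℝ) (c : I → ℕ → ℝ)
    (hc : ∀ i, ∀ k < P.K, CB P k (β i k) (c i k)) (κ : ℕ → ℝ) (hκ : ∀ k < P.K, 0 ≤ κ k)
    (hκ2 : ∀ k < P.K, κ k ^ 2 = ∑ i, c i k ^ 2) (SS : ℝ) (hSS : ∑ k ∈ range P.K, κ k ^ 2 ≤ SS)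
    (rr : ℕ → Fin P.T → ℕ)
    (hup : ∀ k < P.K, ∀ t, (P.p (rr k t) : ℝ) ^ 5 * nm (fun i => β i k t) ≤ κ k)
    (hlow : ∀ k < P.K, ∀ t, rr k t < P.K →
      κ k < (P.p (rr k t + 1) : ℝ) ^ 5 * nm (fun i => β i k t)) :
    av (fun δ : I → Bool =>
      DN S F (∑ r ∈ range P.K, W S r (fun t => ss (tsz P β rr r t) δ)) ^ 2) ≤ 600 * SS := by
  have hK1 := hB.one_le_K
  have hK0 : (0 : ℝ) < P.K := lt_of_lt_of_le one_pos hK1
  have hSS0 : 0 ≤ SS := le_trans (sum_nonneg fun k _ => sq_nonneg _) hSS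
  have hκle : ∀ k < P.K, κ k ≤ Real.sqrt SS := by
    intro k hk
    apply Real.le_sqrt_of_sq_le
    exact le_trans (single_le_sum (f := fun k => κ k ^ 2) (fun k _ => sq_nonneg _)
      (mem_range.mpr hk)) hSS
  have hsqSS : Real.sqrt SS ^ 2 = SS := Real.sq_sqrt hSS0
  set κ' : ℕ → ℝ := fun r => Real.sqrt (∑ t, nsq (tsz P β rr r t) + SS / P.K) with hκ'
  have hsum0 : ∀ r, 0 ≤ ∑ t, nsq (tsz P β rr r t) := fun r => sum_nonneg fun t _ => nsq_nonneg _
  have hSK : 0 ≤ SS / P.K := div_nonneg hSS0 hK0.le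
  have hκ'2 : ∀ r, κ' r ^ 2 = ∑ t, nsq (tsz P β rr r t) + SS / P.K := fun r =>
    Real.sq_sqrt (add_nonneg (hsum0 r) hSK)
  have hκ'0 : ∀ r, 0 ≤ κ' r := fun r => Real.sqrt_nonneg _
  have hlb : ∀ r, SS / P.K ≤ κ' r ^ 2 := fun r => by rw [hκ'2]; linarith [hsum0 r]
  have hpK : ∀ r, (P.K : ℝ) ^ 2 ≤ P.p (r + 1) := by
    intro r
    have h1 := hB.K_pow_le_real r
    refine le_trans ?_ h1
    calc (P.K : ℝ) ^ 2 ≤ (1000 * (P.K : ℝ)) ^ 2 := by
          apply pow_le_pow_left₀ hK0.le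
          linarith
      _ ≤ (1000 * (P.K : ℝ)) ^ 20 := pow_le_pow_right₀ (by linarith) (by norm_num)
  have key : ∀ r s, (P.K : ℝ) * Real.sqrt SS ≤ (P.p (s + 1) : ℝ) * κ' r := by
    intro r s
    have hp0 : (0 : ℝ) < P.p (s + 1) := hB.p_pos_real (s + 1)
    have h1 : ((P.K : ℝ) * Real.sqrt SS) ^ 2 ≤ ((P.p (s + 1) : ℝ) * κ' r) ^ 2 := by
      rw [mul_pow, mul_pow, hsqSS]
      have h2 : (P.K : ℝ) ^ 3 ≤ (P.p (s + 1) : ℝ) ^ 2 := by
        calc (P.K : ℝ) ^ 3 ≤ (P.K : ℝ) ^ 4 := pow_le_pow_right₀ hK1 (by norm_num)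
          _ = ((P.K : ℝ) ^ 2) ^ 2 := by ring
          _ ≤ _ := pow_le_pow_left₀ (by positivity) (hpK s) 2
      calc (P.K : ℝ) ^ 2 * SS = (P.K : ℝ) ^ 3 * (SS / P.K) := by field_simp
        _ ≤ (P.p (s + 1) : ℝ) ^ 2 * (SS / P.K) := mul_le_mul_of_nonneg_right h2 hSK
        _ ≤ _ := mul_le_mul_of_nonneg_left (hlb r) (by positivity)
    exact le_of_sq_le_sq h1 (mul_nonneg hp0.le (hκ'0 r))
  have hfin : ∑ r ∈ range P.K, κ' r ^ 2 ≤ 6 * SS := by
    have e : ∑ r ∈ range P.K, κ' r ^ 2 = ∑ r ∈ range P.K, ∑ t, nsq (tsz P β rr r t) + SS := by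
      rw [sum_congr rfl fun r _ => hκ'2 r, sum_add_distrib, sum_const, card_range, nsmul_eq_mul]
      congr 1
      field_simp
    have h1 := tsw_near hB β c hc rr
    have h2 : ∑ i, ∑ k ∈ range P.K, c i k ^ 2 ≤ SS := by
      rw [sum_comm]
      refine le_trans (le_of_eq ?_) hSS
      exact sum_congr rfl fun k hk => (hκ2 k (mem_range.mp hk)).symm
    rw [e]
    linarith
  have hcl := class_lemma hB hS F (fun r t => tsz P β rr r t) κ' hκ'0 ?_ ?_ ?_
  · refine hcl.trans ?_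
    linarith
  · intro r hr t
    rcases Nat.eq_zero_or_pos r with h0 | h0
    · subst h0
      rw [Par.p_zero]
      push_cast
      rw [one_mul, nm_le_iff (hκ'0 0), hκ'2]
      have : nsq (tsz P β rr 0 t) ≤ ∑ t, nsq (tsz P β rr 0 t) :=
        single_le_sum (f := fun t => nsq (tsz P β rr 0 t)) (fun t _ => nsq_nonneg _) (mem_univ t)
      linarith
    · obtain ⟨q, rfl⟩ : ∃ q, r = q + 1 := ⟨r - 1, by omega⟩
      have hp := hB.one_le_p_real (q + 1)
      have hp0 : (0 : ℝ) < P.p (q + 1) := hB.p_pos_real _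
      have h1 : (P.p (q + 1) : ℝ) ^ 5 * nm (tsz P β rr (q + 1) t) ≤ P.K * Real.sqrt SS := by
        refine (mul_le_mul_of_nonneg_left (tsw_nm_le β rr (q + 1) t) (by positivity)).trans ?_
        rw [mul_sum]
        have h2 : ∀ k ∈ range P.K, (P.p (q + 1) : ℝ) ^ 5 *
            (if rr k t = q + 1 then nm (fun i => β i k t) else 0) ≤ Real.sqrt SS := by
          intro k hk
          split_ifs with h3
          · have h4 := hup k (mem_range.mp hk) t
            rw [h3] at h4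
            exact h4.trans (hκle k (mem_range.mp hk))
          · rw [mul_zero]; exact Real.sqrt_nonneg _
        refine (sum_le_sum h2).trans ?_
        rw [sum_const, card_range, nsmul_eq_mul]
      have h6 : (P.p (q + 1) : ℝ) ^ 5 * nm (tsz P β rr (q + 1) t) ≤ (P.p (q + 1) : ℝ) * κ' (q + 1) :=
        h1.trans (key (q + 1) q)
      have h7 : (P.p (q + 1) : ℝ) * ((P.p (q + 1) : ℝ) * nm (tsz P β rr (q + 1) t)) ≤
          (P.p (q + 1) : ℝ) * κ' (q + 1) := by
        refine le_trans ?_ h6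
        have h8 : (P.p (q + 1) : ℝ) * ((P.p (q + 1) : ℝ) * nm (tsz P β rr (q + 1) t)) =
            (P.p (q + 1) : ℝ) ^ 2 * nm (tsz P β rr (q + 1) t) := by ring
        rw [h8]
        exact mul_le_mul_of_nonneg_right (pow_le_pow_right₀ hp (by norm_num)) (nm_nonneg _)
      exact le_of_mul_le_mul_left h7 hp0
  · intro r hr
    rw [hκ'2]
    linarith
  · intro r hr
    have hp := hB.one_le_p_real (r + 1)
    have hp0 : (0 : ℝ) < P.p (r + 1) := hB.p_pos_real _
    have h1 : ∀ k ∈ range P.K, ∑ t, (if rr k t = r then nm (fun i => β i k t) else 0) ≤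
        (P.p (r + 1) : ℝ) ^ 5 * Real.sqrt SS := by
      intro k hk
      have hk' := mem_range.mp hk
      rcases (hκ k hk').eq_or_lt with h0 | h0
      · have h2 : ∀ t, nm (fun i => β i k t) = 0 := by
          intro t
          have h3 := hup k hk' t
          rw [← h0] at h3
          have h4 : (0 : ℝ) < (P.p (rr k t) : ℝ) ^ 5 := pow_pos (hB.p_pos_real _) 5
          have h5 : nm (fun i => β i k t) ≤ 0 := by
            by_contra hc2
            push Not at hc2
            have := mul_pos h4 hc2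
            linarith
          exact le_antisymm h5 (nm_nonneg _)
        simp only [h2, ite_self, sum_const_zero]
        positivity
      · have h2 : κ k * ∑ t, (if rr k t = r then nm (fun i => β i k t) else 0) ≤
            κ k * ((P.p (r + 1) : ℝ) ^ 5 * κ k) := by
          rw [mul_sum]
          have h3 : ∀ t : Fin P.T, κ k * (if rr k t = r then nm (fun i => β i k t) else 0) ≤
              (P.p (r + 1) : ℝ) ^ 5 * nsq (fun i => β i k t) := by
            intro t
            split_ifs with h4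
            · have h5 := hlow k hk' t (by omega)
              rw [h4] at h5
              rw [← nm_sq, sq, ← mul_assoc]
              exact mul_le_mul_of_nonneg_right h5.le (nm_nonneg _)
            · rw [mul_zero]
              exact mul_nonneg (by positivity) (nsq_nonneg _)
          refine (sum_le_sum fun t _ => h3 t).trans ?_
          rw [← mul_sum]
          have h6 : ∑ t, nsq (fun i => β i k t) ≤ κ k ^ 2 := by
            rw [hκ2 k hk']
            unfold nsq
            rw [sum_comm]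
            exact sum_le_sum fun i _ => (hc i k hk').two
          calc (P.p (r + 1) : ℝ) ^ 5 * ∑ t, nsq (fun i => β i k t)
              ≤ (P.p (r + 1) : ℝ) ^ 5 * κ k ^ 2 := mul_le_mul_of_nonneg_left h6 (by positivity)
            _ = κ k * ((P.p (r + 1) : ℝ) ^ 5 * κ k) := by ring
        refine (le_of_mul_le_mul_left h2 h0).trans ?_
        exact mul_le_mul_of_nonneg_left (hκle k hk') (by positivity)
    have h2 : ∑ t, nm (tsz P β rr r t) ≤ P.K * ((P.p (r + 1) : ℝ) ^ 5 * Real.sqrt SS) := by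
      refine (sum_le_sum fun t _ => tsw_nm_le β rr r t).trans ?_
      rw [sum_comm]
      refine (sum_le_sum h1).trans ?_
      rw [sum_const, card_range, nsmul_eq_mul]
    refine h2.trans ?_
    calc (P.K : ℝ) * ((P.p (r + 1) : ℝ) ^ 5 * Real.sqrt SS)
        = (P.p (r + 1) : ℝ) ^ 5 * (P.K * Real.sqrt SS) := by ring
      _ ≤ (P.p (r + 1) : ℝ) ^ 5 * ((P.p (r + 1) : ℝ) * κ' r) :=
          mul_le_mul_of_nonneg_left (key r r) (by positivity)
      _ = (P.p (r + 1) : ℝ) ^ 6 * κ' r := by ring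
      _ ≤ (P.p (r + 1) : ℝ) ^ 20 * κ' r :=
          mul_le_mul_of_nonneg_right (pow_le_pow_right₀ hp (by norm_num)) (hκ'0 r)

end Pool.Agent.PEL
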