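import Pool.Agent.PEL.TTwoB

/-!
# PEL-TTWOC : Sigma_2 (4.5 of the text) and Sigma_1 + Sigma_2

`sigma2`: the levels `l ∈ [q, r)`, `q = qr r t`; `r = l+1`: Euclid; `r ≥ l+2` off `Ex l`: cluster property with one vector; on `Ex l`: Euclid.
`sigma12`: `∑_i ⟨x_i, ∑_r W_r B_{r,i}⟩ ≤ 40 √Γ M (∑ ‖x_i‖²)^{1/2}`.
-/

set_option autoImplicit false

namespace Pool.Agent.PEL

open Finset

variable {P : Par} {S : P.Sam}

theorem ip_U_eq (l : ℕ) (x : P.A → ℝ) (β : Fin P.T → ℝ) :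
    ip x (U S l β) = ∑ t, β t * ip x (U S l (Pi.single t 1)) := by
  have h : β = ∑ t, β t • (Pi.single t 1 : Fin P.T → ℝ) := by
    funext s
    simp [Finset.sum_apply, Pi.single_apply]
  conv_lhs => rw [h]
  rw [U_sum, ip_sum_right]
  refine Finset.sum_congr rfl fun t _ => ?_
  rw [U_smul, ip_smul_right]

/-- `|U_l e_t|² = 1` -/
theorem nsq_U_single (hB : P.Big) {l : ℕ} (hl : l < P.K) (t : Fin P.T) :
    nsq (U S l (Pi.single t 1)) = 1 := by
  rw [U_eq_lv, nsq_lv]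
  refine (sum_congr rfl fun a _ => ?_).trans (Par.sum_sig_sq_lvl hB hl)
  unfold V
  rw [Finset.sum_eq_single t]
  · rw [Pi.single_eq_same, one_mul, mul_pow, sg_sq, mul_one]
  · intro b _ hb
    simp [Pi.single_apply, hb]
  · intro h; exact absurd (mem_univ _) h

/-- the coefficient of level `l` -/
noncomputable def et (S : P.Sam) (x : P.A → ℝ) (B : ℕ → Fin P.T → ℝ) (l : ℕ) (t : Fin P.T) : ℝ :=
  ∑ r ∈ range P.K, if l < r ∧ qr S x r t ≤ l then B r t else 0

/-- the part with `r = l + 1` -/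
noncomputable def ye (S : P.Sam) (x : P.A → ℝ) (B : ℕ → Fin P.T → ℝ) (l : ℕ) (t : Fin P.T) : ℝ :=
  if l + 1 < P.K ∧ qr S x (l + 1) t ≤ l then B (l + 1) t else 0

/-- the part with `r ≥ l + 2` -/
noncomputable def ze (S : P.Sam) (x : P.A → ℝ) (B : ℕ → Fin P.T → ℝ) (l : ℕ) (t : Fin P.T) : ℝ :=
  ∑ r ∈ range P.K, if l + 2 ≤ r ∧ qr S x r t ≤ l then B r t else 0

theorem et_eq (x : P.A → ℝ) (B : ℕ → Fin P.T → ℝ) (l : ℕ) (t : Fin P.T) :
    et S x B l t = ye S x B l t + ze S x B l t := by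
  unfold et ye ze
  have e : (if l + 1 < P.K ∧ qr S x (l + 1) t ≤ l then B (l + 1) t else 0) =
      ∑ r ∈ range P.K, if r = l + 1 ∧ qr S x r t ≤ l then B r t else 0 := by
    by_cases h : l + 1 < P.K
    · rw [Finset.sum_eq_single (l + 1)]
      · simp [h]
      · intro r _ hr
        rw [if_neg]; tauto
      · intro h'; exact absurd (mem_range.mpr h) h'
    · rw [if_neg (by tauto)]
      symm
      refine sum_eq_zero fun r hr => ?_
      rw [if_neg]
      rintro ⟨h1, -⟩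
      have := mem_range.mp hr
      omega
  rw [e, ← sum_add_distrib]
  refine sum_congr rfl fun r _ => ?_
  by_cases h1 : qr S x r t ≤ l
  · rcases lt_trichotomy r (l + 1) with h | h | h
    · rw [if_neg (by omega), if_neg (by omega), if_neg (by omega), add_zero]
    · rw [if_pos ⟨by omega, h1⟩, if_pos ⟨h, h1⟩, if_neg (by omega), add_zero]
    · rw [if_pos ⟨by omega, h1⟩, if_neg (by omega), if_pos ⟨by omega, h1⟩, zero_add]
  · rw [if_neg (by tauto), if_neg (by tauto), if_neg (by tauto), add_zero]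

theorem ip_sum_et (x : P.A → ℝ) (B : ℕ → Fin P.T → ℝ) :
    ∑ r ∈ range P.K, ∑ t, B r t * ∑ l ∈ Ico (qr S x r t) r, ip x (U S l (Pi.single t 1)) =
      ∑ l ∈ range P.K, ip x (U S l (et S x B l)) := by
  have e1 : ∀ l ∈ range P.K, ip x (U S l (et S x B l)) =
      ∑ r ∈ range P.K, ∑ t, if l < r ∧ qr S x r t ≤ l then
        B r t * ip x (U S l (Pi.single t 1)) else 0 := by
    intro l _
    rw [ip_U_eq, sum_comm]
    refine sum_congr rfl fun t _ => ?_
    unfold et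
    rw [sum_mul]
    refine sum_congr rfl fun r _ => ?_
    split_ifs
    · rfl
    · rw [zero_mul]
  rw [sum_congr rfl e1, sum_comm (s := range P.K) (t := range P.K)]
  refine sum_congr rfl fun r hr => ?_
  rw [sum_comm (s := range P.K) (t := univ)]
  refine sum_congr rfl fun t _ => ?_
  have hs : Ico (qr S x r t) r = (range P.K).filter (fun l => l < r ∧ qr S x r t ≤ l) := by
    have := mem_range.mp hr
    ext l
    simp only [mem_Ico, mem_filter, mem_range]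
    omega
  rw [mul_sum, ← Finset.sum_filter, hs]

theorem ye_mem (x : P.A → ℝ) (B : ℕ → Fin P.T → ℝ) (l : ℕ) (t : Fin P.T)
    (h : t ∉ Pk S (l + 1) x) : ye S x B l t = 0 := by
  unfold ye
  rw [if_neg]
  rintro ⟨-, h2⟩
  exact h (qr_lt x (r := l + 1) (by omega) le_rfl)

theorem ze_mem (x : P.A → ℝ) (B : ℕ → Fin P.T → ℝ) (l : ℕ) (t : Fin P.T)
    (h : t ∉ Pk S (l + 1) x) : ze S x B l t = 0 := by
  unfold ze
  refine sum_eq_zero fun r _ => ?_
  rw [if_neg]
  rintro ⟨h1, h2⟩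
  exact h (qr_lt x (r := r) (by omega) (by omega))

theorem abs_ze_le (x : P.A → ℝ) (B : ℕ → Fin P.T → ℝ) (l : ℕ) (t : Fin P.T) :
    |ze S x B l t| ≤ ∑ r ∈ range P.K, if l + 2 ≤ r then |B r t| else 0 := by
  unfold ze
  refine (abs_sum_le_sum_abs _ _).trans (sum_le_sum fun r _ => ?_)
  split_ifs with h1 h2 h2
  · exact le_rfl
  · exact absurd h1.1 h2
  · rw [abs_zero]; exact abs_nonneg _
  · rw [abs_zero]

theorem abs_ze_le' (x : P.A → ℝ) (B : ℕ → Fin P.T → ℝ) (l : ℕ) (t : Fin P.T) :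
    |ze S x B l t| ≤ ∑ r ∈ range P.K, |B r t| := by
  refine (abs_ze_le x B l t).trans (sum_le_sum fun r _ => ?_)
  split_ifs
  · exact le_rfl
  · exact abs_nonneg _

theorem sum_ye_sq_le (x : P.A → ℝ) (B : ℕ → Fin P.T → ℝ) (t : Fin P.T) :
    ∑ l ∈ range P.K, ye S x B l t ^ 2 ≤ (∑ r ∈ range P.K, |B r t|) ^ 2 := by
  have h1 : ∑ l ∈ range P.K, |ye S x B l t| ≤ ∑ r ∈ range P.K, |B r t| := by
    have h2 : ∀ l ∈ range P.K, |ye S x B l t| ≤ if l + 1 < P.K then |B (l + 1) t| else 0 := by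
      intro l _
      unfold ye
      split_ifs with h3 h4 h4
      · exact le_rfl
      · exact absurd h3.1 h4
      · rw [abs_zero]; exact abs_nonneg _
      · rw [abs_zero]
    refine (sum_le_sum h2).trans ?_
    rcases Nat.eq_zero_or_pos P.K with h0 | h0
    · rw [h0]; simp
    · obtain ⟨k, hk⟩ : ∃ k, P.K = k + 1 := ⟨P.K - 1, by omega⟩
      rw [hk, sum_range_succ, if_neg (by omega), add_zero, Finset.sum_range_succ' (fun r => |B r t|)]
      have : ∑ l ∈ range k, (if l + 1 < k + 1 then |B (l + 1) t| else 0) =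
          ∑ l ∈ range k, |B (l + 1) t| :=
        sum_congr rfl fun l hl => if_pos (by have := mem_range.mp hl; omega)
      rw [this]
      have := abs_nonneg (B 0 t)
      linarith
  calc ∑ l ∈ range P.K, ye S x B l t ^ 2 = ∑ l ∈ range P.K, |ye S x B l t| ^ 2 :=
        sum_congr rfl fun l _ => (sq_abs _).symm
    _ ≤ (∑ l ∈ range P.K, |ye S x B l t|) ^ 2 :=
        Finset.sum_sq_le_sq_sum_of_nonneg fun l _ => abs_nonneg _
    _ ≤ _ := pow_le_pow_left₀ (sum_nonneg fun l _ => abs_nonneg _) h1 2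

/-- `|β|_1² ≤ |R| |β|_2²` for `β` supported on `R` -/
theorem n1_sq_le_card {ι : Type} [Fintype ι] (β : ι → ℝ) (R : Finset ι)
    (h : ∀ t, t ∉ R → β t = 0) : n1 β ^ 2 ≤ R.card * nsq β := by
  have e1 : n1 β = ∑ t ∈ R, |β t| := by
    unfold n1
    symm
    exact sum_subset (subset_univ _) fun t _ ht => by rw [h t ht, abs_zero]
  have e2 : nsq β = ∑ t ∈ R, |β t| ^ 2 := by
    unfold nsq
    symm
    simp only [sq_abs]
    exact sum_subset (subset_univ _) fun t _ ht => by rw [h t ht]; norm_num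
  rw [e1, e2]
  exact sq_sum_le_card_mul_sum_sq

/-- `zb² = ∑_t (∑_r |B_r(t)|)²` -/
noncomputable def zb2 (P : Par) (B : ℕ → Fin P.T → ℝ) : ℝ := ∑ t, (∑ r ∈ range P.K, |B r t|) ^ 2

theorem zb2_nonneg (B : ℕ → Fin P.T → ℝ) : 0 ≤ zb2 P B := sum_nonneg fun _ _ => sq_nonneg _

/-- the Euclidean part -/
theorem ip_ye_le (hB : P.Big) (hS : Good P S) (x : P.A → ℝ) (B : ℕ → Fin P.T → ℝ) :
    |∑ l ∈ range P.K, ip x (U S l (ye S x B l))| ≤ 3 / 2 * nrm S x * Real.sqrt (zb2 P B) := by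
  rw [← ip_sum_right]
  have h1 : ∀ l ∈ range P.K, nsq (U S l (ye S x B l)) ≤ 2 * nsq (ye S x B l) := by
    intro l hl
    have h2 := nsq_U_le hB hS (mem_range.mp hl) (ye S x B l)
    have h3 := n1_sq_le_card (ye S x B l) (Pk S (l + 1) x) (ye_mem x B l)
    have h4 : ((Pk S (l + 1) x).card : ℝ) ≤ (P.p (l + 1) : ℝ) ^ 10 := by
      exact_mod_cast (peak_card hB hS (l + 1) x).le
    have hp := hB.one_le_p_real (l + 1)
    have hn := nsq_nonneg (ye S x B l)
    have h5 : ((P.p (l + 1) : ℝ) ^ 40)⁻¹ * n1 (ye S x B l) ^ 2 ≤ nsq (ye S x B l) := by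
      rw [inv_mul_le_iff₀ (by positivity)]
      refine h3.trans (mul_le_mul_of_nonneg_right (h4.trans ?_) hn)
      exact pow_le_pow_right₀ hp (by norm_num)
    linarith
  have h2 : nsq (∑ l ∈ range P.K, U S l (ye S x B l)) ≤ 2 * zb2 P B := by
    rw [nsq_sum_levels _ fun l _ => lv_U l _]
    refine (sum_le_sum h1).trans ?_
    rw [← mul_sum]
    refine mul_le_mul_of_nonneg_left ?_ (by norm_num)
    unfold nsq zb2
    rw [sum_comm]
    exact sum_le_sum fun t _ => sum_ye_sq_le x B t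
  have h3 : nm (∑ l ∈ range P.K, U S l (ye S x B l)) ≤ 3 / 2 * Real.sqrt (zb2 P B) := by
    rw [nm_le_iff (by positivity), mul_pow, Real.sq_sqrt (zb2_nonneg B)]
    have := zb2_nonneg (P := P) B
    linarith
  calc _ ≤ nm x * nm (∑ l ∈ range P.K, U S l (ye S x B l)) := abs_ip_le _ _
    _ ≤ nrm S x * (3 / 2 * Real.sqrt (zb2 P B)) :=
        mul_le_mul (nm_le_nrm hB hS x) h3 (nm_nonneg _) (nrm_nonneg hB hS x)
    _ = _ := by ring

/-- the cluster part -/
theorem ip_ze_le (hB : P.Big) (hS : Good P S) (F : Submodule ℝ (P.A → ℝ))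
    (Ex : ℕ → Finset (Fin P.T)) (Γ : ℝ) (hΓ : 1 ≤ Γ) (hclu : Clu S F Ex Γ)
    (x : P.A → ℝ) (hx : x ∈ F) (B : ℕ → Fin P.T → ℝ) :
    |∑ l ∈ range P.K, ip x (U S l (fun t => if t ∈ Ex l then 0 else ze S x B l t))| ≤
      Real.sqrt Γ * nrm S x * Real.sqrt (zb2 P B) := by
  set ζ : ℕ → Fin P.T → ℝ := fun l t => if t ∈ Ex l then 0 else ze S x B l t with hζ
  have hz0 := zb2_nonneg (P := P) B
  have hsq : ∀ l, nsq (ζ l) ≤ Real.sqrt (zb2 P B) ^ 2 := by
    intro l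
    rw [Real.sq_sqrt hz0]
    unfold nsq zb2
    refine sum_le_sum fun t _ => ?_
    rw [hζ]
    show (if t ∈ Ex l then (0 : ℝ) else ze S x B l t) ^ 2 ≤ _
    split_ifs
    · have : (0 : ℝ) ≤ (∑ r ∈ range P.K, |B r t|) ^ 2 := sq_nonneg _
      simpa using this
    · rw [← sq_abs]
      exact pow_le_pow_left₀ (abs_nonneg _) (abs_ze_le' x B l t) 2
  have hn1 : ∀ l, n1 (ζ l) ≤ (P.p (l + 1) : ℝ) ^ 6 * Real.sqrt (zb2 P B) := by
    intro l
    have h1 := n1_sq_le_card (ζ l) (Pk S (l + 1) x) (fun t ht => by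
      show (if t ∈ Ex l then (0 : ℝ) else ze S x B l t) = 0
      split_ifs
      · rfl
      · exact ze_mem x B l t ht)
    have h4 : ((Pk S (l + 1) x).card : ℝ) ≤ (P.p (l + 1) : ℝ) ^ 10 := by
      exact_mod_cast (peak_card hB hS (l + 1) x).le
    have hp := hB.one_le_p_real (l + 1)
    have h5 : n1 (ζ l) ^ 2 ≤ ((P.p (l + 1) : ℝ) ^ 6 * Real.sqrt (zb2 P B)) ^ 2 := by
      refine h1.trans ?_
      calc ((Pk S (l + 1) x).card : ℝ) * nsq (ζ l) ≤ (P.p (l + 1) : ℝ) ^ 12 * Real.sqrt (zb2 P B) ^ 2 :=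
            mul_le_mul (h4.trans (pow_le_pow_right₀ hp (by norm_num))) (hsq l) (nsq_nonneg _)
              (by positivity)
        _ = _ := by ring
    exact (abs_le_of_sq_le_sq' h5 (by positivity)).2
  have key := hclu Unit (fun l _ => ζ l) (fun _ => Real.sqrt (zb2 P B)) (fun _ => Real.sqrt_nonneg _)
    (fun l _ _ t ht => by
      show (if t ∈ Ex l then (0 : ℝ) else ze S x B l t) = 0
      rw [if_pos ht]) (fun l _ _ => hsq l) (fun l _ _ => hn1 l)
  set L := ∑ l ∈ range P.K, U S l (ζ l) with hL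
  have e : av (fun δ : Unit → Bool => DN S F (∑ i : Unit, sg (δ i) • L) ^ 2) = DN S F L ^ 2 := by
    rw [av_congr (g := fun _ => DN S F L ^ 2), av_const]
    intro δ
    have : ∑ i : Unit, sg (δ i) • L = sg (δ ()) • L := by simp
    rw [this, DN_smul hB hS, abs_sg, one_mul]
  have e2 : ∑ i : Unit, Real.sqrt (zb2 P B) ^ 2 = Real.sqrt (zb2 P B) ^ 2 := by simp
  rw [e2] at key
  have key2 : DN S F L ^ 2 ≤ (Real.sqrt Γ * Real.sqrt (zb2 P B)) ^ 2 := by
    rw [mul_pow, Real.sq_sqrt (by linarith : (0 : ℝ) ≤ Γ)]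
    rw [← e]
    exact key
  have key3 : DN S F L ≤ Real.sqrt Γ * Real.sqrt (zb2 P B) :=
    (abs_le_of_sq_le_sq' key2 (by positivity)).2
  have e3 : ∑ l ∈ range P.K, ip x (U S l (ζ l)) = ip L x := by
    rw [hL, ip_sum_left]
    exact sum_congr rfl fun l _ => ip_comm _ _
  show |∑ l ∈ range P.K, ip x (U S l (ζ l))| ≤ _
  rw [e3, abs_le]
  have hn := nrm_nonneg hB hS x
  have h6 : DN S F L * nrm S x ≤ Real.sqrt Γ * nrm S x * Real.sqrt (zb2 P B) := by
    calc _ ≤ (Real.sqrt Γ * Real.sqrt (zb2 P B)) * nrm S x := mul_le_mul_of_nonneg_right key3 hn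
      _ = _ := by ring
  constructor
  · have h7 := ip_le_DN hB hS hx (-L)
    have h8 : DN S F (-L) = DN S F L := by
      have := DN_smul hB hS F (-1) L
      rw [neg_one_smul, abs_neg, abs_one, one_mul] at this
      exact this
    rw [h8, ip_neg_left] at h7
    linarith
  · exact (ip_le_DN hB hS hx L).trans h6

/-- the exceptional part -/
theorem ip_ex_le (hB : P.Big) (hS : Good P S)
    (Ex : ℕ → Finset (Fin P.T)) (hcard : ∀ l < P.K, (Ex l).card ≤ P.p (l + 1) ^ 600)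
    {I : Type} [Fintype I] (x : I → P.A → ℝ) (B : ℕ → I → Fin P.T → ℝ) (M : ℝ) (hM : 0 ≤ M)
    (hinf : ∀ r < P.K, ∀ t, (P.p r : ℝ) ^ 5 * nm (fun i => B r i t) ≤ 2 * M) (l : ℕ)
    (hl : l < P.K) :
    |∑ i, ip (x i) (U S l (fun t => if t ∈ Ex l then ze S (x i) (fun r => B r i) l t else 0))| ≤
      (P.K : ℝ)⁻¹ * M * Real.sqrt (∑ i, nrm S (x i) ^ 2) := by
  have hK := hB.one_le_K
  set Q := Real.sqrt (∑ i, nrm S (x i) ^ 2) with hQ
  have hQ0 : 0 ≤ Q := Real.sqrt_nonneg _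
  have hp0 := hB.p_pos_real (l + 1)
  have hp1 := hB.one_le_p_real (l + 1)
  have hq0 := hB.p_pos_real (l + 2)
  -- one coefficient
  have h1 : ∀ i t, |ip (x i) (U S l (Pi.single t 1))| ≤ nrm S (x i) := by
    intro i t
    refine (abs_ip_le _ _).trans ?_
    have : nm (U S l (Pi.single t 1)) = 1 := by
      rw [nm, nsq_U_single hB hl t, Real.sqrt_one]
    rw [this, mul_one]
    exact nm_le_nrm hB hS _
  have h2 : |∑ i, ip (x i) (U S l (fun t => if t ∈ Ex l then ze S (x i) (fun r => B r i) l t else 0))|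
      ≤ ∑ t ∈ Ex l, ∑ r ∈ range P.K, if l + 2 ≤ r then ∑ i, |B r i t| * nrm S (x i) else 0 := by
    have e : ∀ i, |ip (x i) (U S l (fun t => if t ∈ Ex l then ze S (x i) (fun r => B r i) l t else 0))|
        ≤ ∑ t ∈ Ex l, ∑ r ∈ range P.K, if l + 2 ≤ r then |B r i t| * nrm S (x i) else 0 := by
      intro i
      rw [ip_U_eq]
      refine (abs_sum_le_sum_abs _ _).trans ?_
      have e2 : ∑ t, |(if t ∈ Ex l then ze S (x i) (fun r => B r i) l t else 0) *
          ip (x i) (U S l (Pi.single t 1))| = ∑ t ∈ Ex l, |ze S (x i) (fun r => B r i) l t *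
          ip (x i) (U S l (Pi.single t 1))| := by
        have e3 : ∑ t ∈ Ex l, |(if t ∈ Ex l then ze S (x i) (fun r => B r i) l t else 0) *
            ip (x i) (U S l (Pi.single t 1))| = ∑ t, |(if t ∈ Ex l then
              ze S (x i) (fun r => B r i) l t else 0) * ip (x i) (U S l (Pi.single t 1))| := by
          refine sum_subset (subset_univ _) fun t _ ht => ?_
          rw [if_neg ht, zero_mul, abs_zero]
        rw [← e3]
        exact sum_congr rfl fun t ht => by rw [if_pos ht]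
      rw [e2]
      refine sum_le_sum fun t _ => ?_
      rw [abs_mul]
      calc _ ≤ (∑ r ∈ range P.K, if l + 2 ≤ r then |B r i t| else 0) * nrm S (x i) :=
            mul_le_mul (abs_ze_le _ _ l t) (h1 i t) (abs_nonneg _)
              (sum_nonneg fun r _ => by split_ifs; exacts [abs_nonneg _, le_rfl])
        _ = _ := by
          rw [sum_mul]
          refine sum_congr rfl fun r _ => ?_
          split_ifs
          · rfl
          · rw [zero_mul]
    refine (abs_sum_le_sum_abs _ _).trans ((sum_le_sum fun i _ => e i).trans (le_of_eq ?_))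
    rw [sum_comm]
    refine sum_congr rfl fun t _ => ?_
    rw [sum_comm]
    refine sum_congr rfl fun r _ => ?_
    split_ifs
    · rfl
    · exact sum_const_zero
  refine h2.trans ?_
  -- each term
  have h3 : ∀ t, ∀ r ∈ range P.K, (if l + 2 ≤ r then ∑ i, |B r i t| * nrm S (x i) else 0) ≤
      2 * M * ((P.p (l + 2) : ℝ) ^ 5)⁻¹ * Q := by
    intro t r hr
    split_ifs with h
    · have h4 : ∑ i, |B r i t| * nrm S (x i) ≤ nm (fun i => B r i t) * Q := by
        have := sum_mul_sq_le_sq_mul_sq (univ : Finset I) (fun i => |B r i t|) (fun i => nrm S (x i))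
        simp only [sq_abs] at this
        have h5 : (∑ i, |B r i t| * nrm S (x i)) ^ 2 ≤ (nm (fun i => B r i t) * Q) ^ 2 := by
          rw [mul_pow, nm_sq, hQ, Real.sq_sqrt (sum_nonneg fun i _ => sq_nonneg _)]
          exact this
        exact (abs_le_of_sq_le_sq' h5 (mul_nonneg (nm_nonneg _) hQ0)).2
      have h5 : nm (fun i => B r i t) ≤ 2 * M * ((P.p (l + 2) : ℝ) ^ 5)⁻¹ := by
        have h6 := hinf r (mem_range.mp hr) t
        rw [← div_eq_mul_inv, le_div_iff₀ (by positivity), mul_comm]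
        refine le_trans ?_ h6
        exact mul_le_mul_of_nonneg_right (pow_le_pow_left₀ hq0.le (hB.p_mono_real h) 5) (nm_nonneg _)
      exact h4.trans (mul_le_mul_of_nonneg_right h5 hQ0)
    · positivity
  have h4 : ∑ t ∈ Ex l, ∑ r ∈ range P.K, (if l + 2 ≤ r then ∑ i, |B r i t| * nrm S (x i) else 0) ≤
      (Ex l).card * (P.K * (2 * M * ((P.p (l + 2) : ℝ) ^ 5)⁻¹ * Q)) := by
    rw [← nsmul_eq_mul, ← sum_const]
    refine sum_le_sum fun t _ => ?_
    have := sum_le_sum (h3 t)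
    rw [sum_const, card_range, nsmul_eq_mul] at this
    exact this
  refine h4.trans ?_
  have h5 : ((Ex l).card : ℝ) ≤ (P.p (l + 1) : ℝ) ^ 600 := by exact_mod_cast hcard l hl
  have h6 : (P.p (l + 1) : ℝ) ^ 2500 ≤ (P.p (l + 2) : ℝ) ^ 5 := by
    have := pow_le_pow_left₀ (by positivity) (hB.p_step_real (l + 1)) 5
    rw [← pow_mul] at this
    exact this
  have h7 : 2 * (P.K : ℝ) * P.K ≤ P.p (l + 1) := by
    refine le_trans ?_ (hB.K_pow_le_real l)
    calc 2 * (P.K : ℝ) * P.K ≤ (1000 * (P.K : ℝ)) ^ 2 := by nlinarith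
      _ ≤ _ := pow_le_pow_right₀ (by linarith) (by norm_num)
  set p : ℝ := (P.p (l + 1) : ℝ)
  set q : ℝ := (P.p (l + 2) : ℝ)
  have h8 : (q ^ 5)⁻¹ ≤ (p ^ 2500)⁻¹ := inv_anti₀ (by positivity) h6
  calc ((Ex l).card : ℝ) * (P.K * (2 * M * (q ^ 5)⁻¹ * Q))
      ≤ p ^ 600 * (P.K * (2 * M * (p ^ 2500)⁻¹ * Q)) := by
        have : (0 : ℝ) ≤ P.K := by linarith
        gcongr
    _ = (P.K : ℝ)⁻¹ * M * Q * ((2 * P.K * P.K) * (p ^ 600 * (p ^ 2500)⁻¹)) := by
        have : (P.K : ℝ) ≠ 0 := by positivity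
        field_simp
    _ ≤ (P.K : ℝ)⁻¹ * M * Q * 1 := by
        refine mul_le_mul_of_nonneg_left ?_ (by positivity)
        calc (2 * P.K * P.K) * (p ^ 600 * (p ^ 2500)⁻¹) ≤ p * (p ^ 600 * (p ^ 2500)⁻¹) :=
              mul_le_mul_of_nonneg_right h7 (by positivity)
          _ = p ^ 601 * (p ^ 2500)⁻¹ := by ring
          _ ≤ p ^ 2500 * (p ^ 2500)⁻¹ := mul_le_mul_of_nonneg_right
              (pow_le_pow_right₀ hp1 (by norm_num)) (by positivity)
          _ = 1 := mul_inv_cancel₀ (by positivity)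
    _ = _ := mul_one _

theorem sigma2 (hB : P.Big) (hS : Good P S) (F : Submodule ℝ (P.A → ℝ))
    (Ex : ℕ → Finset (Fin P.T)) (Γ : ℝ) (hΓ : 1 ≤ Γ)
    (hcard : ∀ l < P.K, (Ex l).card ≤ P.p (l + 1) ^ 600) (hclu : Clu S F Ex Γ)
    {I : Type} [Fintype I] (x : I → P.A → ℝ) (hx : ∀ i, x i ∈ F)
    (B : ℕ → I → Fin P.T → ℝ) (M : ℝ) (hM : 0 ≤ M)
    (hinf : ∀ r < P.K, ∀ t, (P.p r : ℝ) ^ 5 * nm (fun i => B r i t) ≤ 2 * M)
    (htot : ∑ i, ∑ t, (∑ r ∈ range P.K, |B r i t|) ^ 2 ≤ 10 * M ^ 2) :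
    |∑ i, ∑ r ∈ range P.K, ∑ t, B r i t *
        ∑ l ∈ Ico (qr S (x i) r t) r, ip (x i) (U S l (Pi.single t 1))| ≤
      10 * Real.sqrt Γ * M * Real.sqrt (∑ i, nrm S (x i) ^ 2) := by
  have hK := hB.one_le_K
  set Q := Real.sqrt (∑ i, nrm S (x i) ^ 2) with hQ
  have hQ0 : 0 ≤ Q := Real.sqrt_nonneg _
  have hG1 : 1 ≤ Real.sqrt Γ := by rw [Real.one_le_sqrt]; exact hΓ
  have e1 : ∑ i, ∑ r ∈ range P.K, ∑ t, B r i t *
        ∑ l ∈ Ico (qr S (x i) r t) r, ip (x i) (U S l (Pi.single t 1)) =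
      ∑ i, ∑ l ∈ range P.K, ip (x i) (U S l (ye S (x i) (fun r => B r i) l)) +
      ∑ i, ∑ l ∈ range P.K, ip (x i) (U S l (fun t => if t ∈ Ex l then 0 else
        ze S (x i) (fun r => B r i) l t)) +
      ∑ l ∈ range P.K, ∑ i, ip (x i) (U S l (fun t => if t ∈ Ex l then
        ze S (x i) (fun r => B r i) l t else 0)) := by
    rw [sum_comm (s := range P.K) (t := univ), ← sum_add_distrib, ← sum_add_distrib]
    refine sum_congr rfl fun i _ => ?_
    rw [ip_sum_et (x i) (fun r => B r i), ← sum_add_distrib, ← sum_add_distrib]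
    refine sum_congr rfl fun l _ => ?_
    rw [← ip_add_right, ← ip_add_right, ← U_add, ← U_add]
    congr 2
    funext t
    rw [et_eq]
    simp only [Pi.add_apply]
    split_ifs <;> ring
  rw [e1]
  have hA : |∑ i, ∑ l ∈ range P.K, ip (x i) (U S l (ye S (x i) (fun r => B r i) l))| ≤
      3 / 2 * ∑ i, nrm S (x i) * Real.sqrt (zb2 P fun r => B r i) := by
    refine (abs_sum_le_sum_abs _ _).trans ?_
    rw [mul_sum]
    refine sum_le_sum fun i _ => ?_
    rw [← mul_assoc]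
    exact ip_ye_le hB hS (x i) _
  have hBd : |∑ i, ∑ l ∈ range P.K, ip (x i) (U S l (fun t => if t ∈ Ex l then 0 else
        ze S (x i) (fun r => B r i) l t))| ≤
      Real.sqrt Γ * ∑ i, nrm S (x i) * Real.sqrt (zb2 P fun r => B r i) := by
    refine (abs_sum_le_sum_abs _ _).trans ?_
    rw [mul_sum]
    refine sum_le_sum fun i _ => ?_
    rw [← mul_assoc]
    exact ip_ze_le hB hS F Ex Γ hΓ hclu (x i) (hx i) _
  have hC : |∑ l ∈ range P.K, ∑ i, ip (x i) (U S l (fun t => if t ∈ Ex l then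
        ze S (x i) (fun r => B r i) l t else 0))| ≤ M * Q := by
    refine (abs_sum_le_sum_abs _ _).trans ?_
    have h1 := sum_le_sum fun l (hl : l ∈ range P.K) =>
      ip_ex_le hB hS Ex hcard x B M hM hinf l (mem_range.mp hl)
    rw [sum_const, card_range, nsmul_eq_mul] at h1
    refine h1.trans (le_of_eq ?_)
    have : (P.K : ℝ) ≠ 0 := by positivity
    rw [← hQ]
    field_simp
  have hD : ∑ i, nrm S (x i) * Real.sqrt (zb2 P fun r => B r i) ≤ 16 / 5 * M * Q := by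
    have h1 := sum_mul_sq_le_sq_mul_sq (univ : Finset I) (fun i => nrm S (x i))
      (fun i => Real.sqrt (zb2 P fun r => B r i))
    have h2 : ∑ i, Real.sqrt (zb2 P fun r => B r i) ^ 2 ≤ 10 * M ^ 2 := by
      rw [sum_congr rfl fun i _ => Real.sq_sqrt (zb2_nonneg (P := P) fun r => B r i)]
      exact htot
    have h3 : (∑ i, nrm S (x i) * Real.sqrt (zb2 P fun r => B r i)) ^ 2 ≤ (16 / 5 * M * Q) ^ 2 := by
      refine h1.trans ?_
      have h4 : Q ^ 2 = ∑ i, nrm S (x i) ^ 2 := by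
        rw [hQ, Real.sq_sqrt (sum_nonneg fun i _ => sq_nonneg _)]
      rw [← h4]
      calc Q ^ 2 * ∑ i, Real.sqrt (zb2 P fun r => B r i) ^ 2 ≤ Q ^ 2 * (10 * M ^ 2) :=
            mul_le_mul_of_nonneg_left h2 (sq_nonneg _)
        _ ≤ _ := by nlinarith [mul_nonneg (sq_nonneg Q) (sq_nonneg M)]
    exact (abs_le_of_sq_le_sq' h3 (by positivity)).2
  set Z := ∑ i, nrm S (x i) * Real.sqrt (zb2 P fun r => B r i) with hZ
  have hZ0 : 0 ≤ Z := sum_nonneg fun i _ => mul_nonneg (nrm_nonneg hB hS _) (Real.sqrt_nonneg _)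
  have hMQ : 0 ≤ M * Q := mul_nonneg hM hQ0
  refine (abs_add_three _ _ _).trans ?_
  have h1 : 3 / 2 * Z ≤ 3 / 2 * (Real.sqrt Γ * Z) := by nlinarith
  have h2 : Real.sqrt Γ * Z ≤ Real.sqrt Γ * (16 / 5 * M * Q) :=
    mul_le_mul_of_nonneg_left hD (by linarith)
  have h3 : M * Q ≤ Real.sqrt Γ * (M * Q) := by nlinarith
  nlinarith

/-- Sigma_1 + Sigma_2 -/
theorem sigma12 (hB : P.Big) (hS : Good P S) (F : Submodule ℝ (P.A → ℝ))
    (Ex : ℕ → Finset (Fin P.T)) (Γ : ℝ) (hΓ : 1 ≤ Γ)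
    (hcard : ∀ l < P.K, (Ex l).card ≤ P.p (l + 1) ^ 600) (hclu : Clu S F Ex Γ)
    {I : Type} [Fintype I] (x : I → P.A → ℝ) (hx : ∀ i, x i ∈ F)
    (B : ℕ → I → Fin P.T → ℝ) (M : ℝ) (hM : 0 ≤ M)
    (hsup : ∀ r < P.K, (univ.filter fun t => ∃ i, B r i t ≠ 0).card ≤ 2 * P.p (r + 1) ^ 10)
    (hinf : ∀ r < P.K, ∀ t, (P.p r : ℝ) ^ 5 * nm (fun i => B r i t) ≤ 2 * M)
    (htot : ∑ i, ∑ t, (∑ r ∈ range P.K, |B r i t|) ^ 2 ≤ 10 * M ^ 2) :
    ∑ i, ip (x i) (∑ r ∈ range P.K, W S r (B r i)) ≤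
      30 * Real.sqrt Γ * M * Real.sqrt (∑ i, nrm S (x i) ^ 2) := by
  classical
  set Q := Real.sqrt (∑ i, nrm S (x i) ^ 2) with hQ
  have hQ0 : 0 ≤ Q := Real.sqrt_nonneg _
  have hG1 : 1 ≤ Real.sqrt Γ := by rw [Real.one_le_sqrt]; exact hΓ
  have e1 : ∀ i, ip (x i) (∑ r ∈ range P.K, W S r (B r i)) =
      ∑ r ∈ range P.K, ∑ t, B r i t * aq S (qr S (x i) r t) (x i) t -
      ∑ r ∈ range P.K, ∑ t, B r i t *
        ∑ l ∈ Ico (qr S (x i) r t) r, ip (x i) (U S l (Pi.single t 1)) := by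
    intro i
    rw [ip_sum_right, ← sum_sub_distrib]
    refine sum_congr rfl fun r _ => ?_
    rw [ip_W_eq, ← sum_sub_distrib]
    refine sum_congr rfl fun t _ => ?_
    rw [← mul_sub]
    congr 1
    unfold aq
    rw [W_eq_add_sum (qr_le (x i) r t), ip_add_right, ip_sum_right]
    ring
  rw [sum_congr rfl fun i _ => e1 i, sum_sub_distrib]
  have h1 := sigma2 hB hS F Ex Γ hΓ hcard hclu x hx B M hM hinf htot
  rw [← hQ] at h1
  have h2 := neg_abs_le (∑ i, ∑ r ∈ range P.K, ∑ t, B r i t *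
        ∑ l ∈ Ico (qr S (x i) r t) r, ip (x i) (U S l (Pi.single t 1)))
  have h3 : ∑ i, ∑ r ∈ range P.K, ∑ t, B r i t * aq S (qr S (x i) r t) (x i) t ≤
      6 * ∑ i, nrm S (x i) * Real.sqrt (zb2 P fun r => B r i) := by
    rw [mul_sum]
    refine sum_le_sum fun i _ => ?_
    rw [← mul_assoc]
    refine sigma1 hB hS (x i) (fun r => B r i) fun r hr => ?_
    refine (card_le_card fun t ht => ?_).trans (hsup r hr)
    rw [mem_filter] at ht ⊢
    exact ⟨mem_univ _, i, ht.2⟩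
  have hD : ∑ i, nrm S (x i) * Real.sqrt (zb2 P fun r => B r i) ≤ 16 / 5 * M * Q := by
    have h1 := sum_mul_sq_le_sq_mul_sq (univ : Finset I) (fun i => nrm S (x i))
      (fun i => Real.sqrt (zb2 P fun r => B r i))
    have h2 : ∑ i, Real.sqrt (zb2 P fun r => B r i) ^ 2 ≤ 10 * M ^ 2 := by
      rw [sum_congr rfl fun i _ => Real.sq_sqrt (zb2_nonneg (P := P) fun r => B r i)]
      exact htot
    have h3 : (∑ i, nrm S (x i) * Real.sqrt (zb2 P fun r => B r i)) ^ 2 ≤ (16 / 5 * M * Q) ^ 2 := by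
      refine h1.trans ?_
      have h4 : Q ^ 2 = ∑ i, nrm S (x i) ^ 2 := by
        rw [hQ, Real.sq_sqrt (sum_nonneg fun i _ => sq_nonneg _)]
      rw [← h4]
      calc Q ^ 2 * ∑ i, Real.sqrt (zb2 P fun r => B r i) ^ 2 ≤ Q ^ 2 * (10 * M ^ 2) :=
            mul_le_mul_of_nonneg_left h2 (sq_nonneg _)
        _ ≤ _ := by nlinarith [mul_nonneg (sq_nonneg Q) (sq_nonneg M)]
    exact (abs_le_of_sq_le_sq' h3 (by positivity)).2
  have hMQ : 0 ≤ M * Q := mul_nonneg hM hQ0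
  have h4 : M * Q ≤ Real.sqrt Γ * (M * Q) := by nlinarith
  nlinarith

end Pool.Agent.PEL
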